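import Mathlib
import Pool.Agent.H32.M.K1

/-! Modular Schanuel for special tuples, part K2: this file joins several modules to save build time. -/

section S_Ramanujan

/-!
# Ramanujan's formulas for the derivatives of E4 and E6
-/

open UpperHalfPlane hiding I
open Complex EisensteinSeries ModularForm MatrixGroups Manifold
open scoped Real Topology
open Derivative

namespace H32

/-- Integral `q`-expansion with prescribed constant term. -/
def IntQv (v : ℤ) (f : ℍ → ℂ) : Prop :=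
  ∃ c : ℕ → ℤ, c 0 = v ∧ ∀ τ : ℍ, HasSum (fun m : ℕ ↦ (c m : ℂ) * qq τ ^ m) (f τ)

lemma IntQv.intQ {v : ℤ} {f : ℍ → ℂ} (h : IntQv v f) : IntQ f := by
  obtain ⟨c, -, hc⟩ := h
  exact ⟨c, hc⟩

lemma IntQv.add {v w : ℤ} {f g : ℍ → ℂ} (hf : IntQv v f) (hg : IntQv w g) :
    IntQv (v + w) (fun τ ↦ f τ + g τ) := by
  obtain ⟨a, ha0, ha⟩ := hf
  obtain ⟨b, hb0, hb⟩ := hg
  refine ⟨fun m ↦ a m + b m, by simp [ha0, hb0], fun τ ↦ ?_⟩
  convert (ha τ).add (hb τ) using 2 with m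
  push_cast; ring

lemma IntQv.mul {v w : ℤ} {f g : ℍ → ℂ} (hf : IntQv v f) (hg : IntQv w g) :
    IntQv (v * w) (fun τ ↦ f τ * g τ) := by
  obtain ⟨a, ha0, ha⟩ := hf
  obtain ⟨b, hb0, hb⟩ := hg
  refine ⟨fun m ↦ ∑ p ∈ Finset.HasAntidiagonal.antidiagonal m, a p.1 * b p.2,
    by simp [ha0, hb0], fun τ ↦ ?_⟩
  have h1 := (ha τ).summable.norm
  have h2 := (hb τ).summable.norm
  have h3 := summable_norm_sum_mul_antidiagonal_of_summable_norm h1 h2
  have h4 := tsum_mul_tsum_eq_tsum_sum_antidiagonal_of_summable_norm h1 h2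
  rw [(ha τ).tsum_eq, (hb τ).tsum_eq] at h4
  change HasSum _ (f τ * g τ)
  rw [h4]
  have h5 := h3.of_norm.hasSum
  refine h5.congr_fun fun m ↦ ?_
  push_cast
  rw [Finset.sum_mul]
  refine Finset.sum_congr rfl fun p hp ↦ ?_
  rw [← (Finset.HasAntidiagonal.mem_antidiagonal.mp hp), pow_add]
  ring

lemma IntQv.const_mul {v : ℤ} {f : ℍ → ℂ} (n : ℤ) (hf : IntQv v f) :
    IntQv (n * v) (fun τ ↦ (n : ℂ) * f τ) := by
  obtain ⟨a, ha0, ha⟩ := hf
  refine ⟨fun m ↦ n * a m, by simp [ha0], fun τ ↦ ?_⟩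
  refine ((ha τ).mul_left (n : ℂ)).congr_fun fun m ↦ ?_
  push_cast; ring

lemma IntQ.D {f : ℍ → ℂ} (hf : IntQ f) : IntQv 0 (normalizedDerivOfComplex f) := by
  obtain ⟨c, hc⟩ := hf
  refine ⟨fun m ↦ m * c m, by simp, fun τ ↦ ?_⟩
  have hz' : 0 < (τ : ℂ).im := τ.im_pos
  set y : ℝ := (τ : ℂ).im / 2 with hy
  have hy0 : 0 < y := by positivity
  set U : Set ℂ := {w | y < w.im} with hU
  have hUo : IsOpen U := isOpen_lt continuous_const Complex.continuous_im
  have hzU : (τ : ℂ) ∈ U := by change y < (τ : ℂ).im; linarith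
  set τ₀ : ℍ := ⟨(y : ℂ) * I, by simpa using hy0⟩ with hτ₀
  have h0 : ‖qq τ₀‖ = Real.exp (-2 * π * y) := by
    rw [qq_eq, Complex.norm_exp]
    congr 1
    simp [hτ₀, UpperHalfPlane.coe_mk]
  have hs : Summable fun m ↦ ‖(c m : ℂ)‖ * Real.exp (-2 * π * y) ^ m := by
    have := (hc τ₀).summable.norm
    simpa [norm_mul, norm_pow, h0] using this
  have hd := hasSum_deriv_of_summable_norm (F := fun (m : ℕ) (w : ℂ) ↦
    (c m : ℂ) * Complex.exp (2 * π * I * w) ^ m) hs (fun m ↦ by fun_prop) hUo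
    (fun m w hw ↦ by
      rw [norm_mul, norm_pow]
      gcongr
      rw [Complex.norm_exp]
      apply Real.exp_le_exp.mpr
      have hw' : y < w.im := hw
      have : (2 * π * I * w).re = -2 * π * w.im := by simp
      rw [this]
      nlinarith [Real.pi_pos]) hzU
  have heq : (f ∘ UpperHalfPlane.ofComplex) =ᶠ[𝓝 (τ : ℂ)] fun w ↦
      ∑' m, (c m : ℂ) * Complex.exp (2 * π * I * w) ^ m := by
    filter_upwards [hUo.mem_nhds hzU] with w hw
    have hw' : 0 < w.im := lt_trans hy0 hw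
    have := (hc ⟨w, hw'⟩).tsum_eq
    rw [Function.comp_apply, UpperHalfPlane.ofComplex_apply_of_im_pos hw', ← this]
    simp [qq_eq]
  rw [← heq.deriv_eq] at hd
  have hpi : (2 * π * I : ℂ) ≠ 0 := by
    have : (π : ℂ) ≠ 0 := by exact_mod_cast Real.pi_ne_zero
    simp [this]
  have h5 := hd.mul_left (2 * π * I : ℂ)⁻¹
  refine h5.congr_fun fun m ↦ ?_
  have hder : HasDerivAt (fun w : ℂ ↦ (c m : ℂ) * Complex.exp (2 * π * I * w) ^ m)
      ((c m : ℂ) * (m * Complex.exp (2 * π * I * τ) ^ (m - 1) *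
        (Complex.exp (2 * π * I * τ) * (2 * π * I)))) (τ : ℂ) := by
    have h6 : HasDerivAt (fun w : ℂ ↦ 2 * π * I * w) (2 * π * I) (τ : ℂ) := by
      simpa using (hasDerivAt_id (τ : ℂ)).const_mul (2 * π * I)
    exact ((h6.cexp.pow m).const_mul _)
  rw [hder.deriv, qq_eq]
  push_cast
  rcases Nat.eq_zero_or_pos m with rfl | hm
  · simp
  · have e : Complex.exp (2 * π * I * τ) ^ m =
        Complex.exp (2 * π * I * τ) ^ (m - 1) * Complex.exp (2 * π * I * τ) := by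
      rw [← pow_succ, Nat.sub_add_cancel hm]
    rw [e]
    field_simp

lemma eq_zero_of_low_weight {f : ℍ → ℂ} {k : ℕ} (hf : IntQv 0 f) (hk : WInv f k) (hk12 : k < 12)
    (τ : ℍ) : f τ = 0 := by
  obtain ⟨F, hF⟩ := exists_modForm hf.intQ hk
  obtain ⟨c, hc0, hc⟩ := hf
  have h1 := ModularFormClass.qExpansion_coeff_unique (f := F) (c := fun m ↦ (c m : ℂ)) one_pos
    one_mem_strictPeriods_SL (fun τ ↦ by rw [hF]; simpa [qq] using hc τ) 0
  have h2 : F = 0 := by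
    apply ModularForm.sturm_bound_levelOne_nat
    have : k / 12 = 0 := by omega
    rw [this]
    have h3 : (qExpansion 1 F).coeff 0 = 0 := by
      rw [← h1]; simp [hc0]
    have h4 := PowerSeries.nat_le_order (qExpansion 1 F) 1 (fun i hi ↦ by
      have : i = 0 := by omega
      rw [this]; exact h3)
    exact lt_of_lt_of_le (by norm_num) h4
  rw [← hF, h2]
  rfl

lemma WInv_of_slash {f : ℍ → ℂ} {k : ℕ} (h : ∀ γ : SL(2, ℤ), f ∣[(k : ℤ)] γ = f) :
    WInv f k := by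
  intro γ τ
  have h1 := congrFun (h γ) τ
  rw [ModularForm.SL_slash_apply] at h1
  have hd : denom (γ : GL (Fin 2) ℝ) τ ≠ 0 := denom_ne_zero _ τ
  rw [← h1, zpow_neg, zpow_natCast]
  field_simp

lemma WInv.add {f g : ℍ → ℂ} {k : ℕ} (hf : WInv f k) (hg : WInv g k) :
    WInv (fun τ ↦ f τ + g τ) k := by
  intro γ τ
  simp only [hf γ τ, hg γ τ]
  ring

lemma IntQv_E2 : IntQv 1 E2 := by
  refine ⟨fun m ↦ if m = 0 then 1 else -24 * (ArithmeticFunction.sigma 1 m : ℤ), by simp,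
    fun τ ↦ ?_⟩
  have := EisensteinSeries.hasSum_qExpansion_E2 (z := τ)
  convert this using 2 with m
  rw [qq_eq]
  by_cases h : m = 0 <;> simp [h]

lemma IntQv_E4 : IntQv 1 (fun τ ↦ E₄ τ) := ⟨_, by simp, hasSum_E4⟩

lemma IntQv_E6 : IntQv 1 (fun τ ↦ E₆ τ) := ⟨_, by simp, hasSum_E6⟩

lemma D_E4 (τ : ℍ) : normalizedDerivOfComplex (fun τ ↦ E₄ τ) τ = (E2 τ * E₄ τ - E₆ τ) / 3 := by
  have hm : MDiff (fun τ : ℍ ↦ E₄ τ) := IntQ_E4'.mdiff
  have h1 : IntQv (3 * 0 + (-1 * (1 * 1) + 1)) (fun τ ↦ ((3 : ℤ) : ℂ) *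
      normalizedDerivOfComplex (fun τ ↦ E₄ τ) τ + (((-1 : ℤ) : ℂ) * (E2 τ * E₄ τ) + E₆ τ)) :=
    ((IntQ_E4'.D).const_mul 3).add (((IntQv_E2.mul IntQv_E4).const_mul (-1)).add IntQv_E6)
  have h2 : WInv (fun τ ↦ ((3 : ℤ) : ℂ) *
      normalizedDerivOfComplex (fun τ ↦ E₄ τ) τ + (((-1 : ℤ) : ℂ) * (E2 τ * E₄ τ) + E₆ τ)) 6 := by
    have h3 : WInv (serreDerivative 4 (fun τ ↦ E₄ τ)) 6 := by
      apply WInv_of_slash
      intro γ
      have h4 := serreDerivative_slash_invariant (k := 4) (F := fun τ ↦ E₄ τ) hm (γ := γ) (by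
        ext τ
        rw [ModularForm.SL_slash_apply]
        have := WInv_E4 γ τ
        simp only at this
        rw [this]
        have hd : denom (γ : GL (Fin 2) ℝ) τ ≠ 0 := denom_ne_zero _ τ
        rw [zpow_neg]
        have e : denom (γ : GL (Fin 2) ℝ) τ ^ (4 : ℤ) = denom (γ : GL (Fin 2) ℝ) τ ^ 4 := by
          norm_cast
        rw [e]
        field_simp)
      exact_mod_cast h4
    intro γ τ
    have h5 := h3 γ τ
    have h6 := WInv_E6 γ τ
    simp only [serreDerivative_apply] at h5 h6 ⊢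
    rw [h6]
    push_cast
    linear_combination 3 * h5
  have h3 := eq_zero_of_low_weight (by simpa using h1) h2 (by norm_num) τ
  push_cast at h3
  linear_combination h3 / 3

lemma D_E6 (τ : ℍ) : normalizedDerivOfComplex (fun τ ↦ E₆ τ) τ = (E2 τ * E₆ τ - E₄ τ ^ 2) / 2 := by
  have hm : MDiff (fun τ : ℍ ↦ E₆ τ) := IntQ_E6'.mdiff
  have h1 : IntQv (2 * 0 + (-1 * (1 * 1) + 1 * 1)) (fun τ ↦ ((2 : ℤ) : ℂ) *
      normalizedDerivOfComplex (fun τ ↦ E₆ τ) τ + (((-1 : ℤ) : ℂ) * (E2 τ * E₆ τ) + E₄ τ * E₄ τ)) :=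
    ((IntQ_E6'.D).const_mul 2).add (((IntQv_E2.mul IntQv_E6).const_mul (-1)).add
      (IntQv_E4.mul IntQv_E4))
  have h2 : WInv (fun τ ↦ ((2 : ℤ) : ℂ) *
      normalizedDerivOfComplex (fun τ ↦ E₆ τ) τ + (((-1 : ℤ) : ℂ) * (E2 τ * E₆ τ) + E₄ τ * E₄ τ))
      8 := by
    have h3 : WInv (serreDerivative 6 (fun τ ↦ E₆ τ)) 8 := by
      apply WInv_of_slash
      intro γ
      have h4 := serreDerivative_slash_invariant (k := 6) (F := fun τ ↦ E₆ τ) hm (γ := γ) (by
        ext τ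
        rw [ModularForm.SL_slash_apply]
        have := WInv_E6 γ τ
        simp only at this
        rw [this]
        have hd : denom (γ : GL (Fin 2) ℝ) τ ≠ 0 := denom_ne_zero _ τ
        rw [zpow_neg]
        have e : denom (γ : GL (Fin 2) ℝ) τ ^ (6 : ℤ) = denom (γ : GL (Fin 2) ℝ) τ ^ 6 := by
          norm_cast
        rw [e]
        field_simp)
      exact_mod_cast h4
    intro γ τ
    have h5 := h3 γ τ
    have h6 := WInv_E4 γ τ
    simp only [serreDerivative_apply] at h5 h6 ⊢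
    rw [h6]
    push_cast
    linear_combination 2 * h5
  have h3 := eq_zero_of_low_weight (by simpa using h1) h2 (by norm_num) τ
  push_cast at h3
  linear_combination h3 / 2

end H32

end S_Ramanujan

section S_JDeriv

/-!
# The j-function and its first two derivatives
-/

open UpperHalfPlane hiding I
open Complex EisensteinSeries ModularForm MatrixGroups Manifold
open scoped Real Topology
open Derivative

namespace H32

section

variable {E4 E6 J : ℂ → ℂ}

lemma exp_eq_qq (m : ℕ) (τ : ℍ) :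
    Complex.exp (2 * (Real.pi : ℂ) * Complex.I * ((m : ℂ) + 1) * τ) = qq τ ^ (m + 1) := by
  rw [qq_eq, ← Complex.exp_nat_mul]
  congr 1
  push_cast
  ring

lemma E4_eq (h4 : ∀ τ : ℂ, E4 τ = 1 + 240 * ∑' m : ℕ, ((ArithmeticFunction.sigma 3 (m + 1) : ℕ) : ℂ) *
    Complex.exp (2 * (Real.pi : ℂ) * Complex.I * ((m : ℂ) + 1) * τ)) (τ : ℍ) : E4 τ = E₄ τ := by
  rw [h4]
  have h := hasSum_E4 τ
  have h1 := (hasSum_nat_add_iff' 1).mpr h
  simp only [Finset.sum_range_one, if_true, Int.cast_one, pow_zero, mul_one] at h1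
  have h2 : ∑' m : ℕ, ((ArithmeticFunction.sigma 3 (m + 1) : ℕ) : ℂ) *
      Complex.exp (2 * (Real.pi : ℂ) * Complex.I * ((m : ℂ) + 1) * τ) = (E₄ τ - 1) / 240 := by
    have h3 := h1.div_const (240 : ℂ)
    refine HasSum.tsum_eq (h3.congr_fun fun m ↦ ?_)
    rw [exp_eq_qq, if_neg (Nat.succ_ne_zero m)]
    push_cast
    ring
  rw [h2]
  ring

lemma E6_eq (h6 : ∀ τ : ℂ, E6 τ = 1 - 504 * ∑' m : ℕ, ((ArithmeticFunction.sigma 5 (m + 1) : ℕ) : ℂ) *
    Complex.exp (2 * (Real.pi : ℂ) * Complex.I * ((m : ℂ) + 1) * τ)) (τ : ℍ) : E6 τ = E₆ τ := by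
  rw [h6]
  have h := hasSum_E6 τ
  have h1 := (hasSum_nat_add_iff' 1).mpr h
  simp only [Finset.sum_range_one, if_true, Int.cast_one, pow_zero, mul_one] at h1
  have h2 : ∑' m : ℕ, ((ArithmeticFunction.sigma 5 (m + 1) : ℕ) : ℂ) *
      Complex.exp (2 * (Real.pi : ℂ) * Complex.I * ((m : ℂ) + 1) * τ) = (E₆ τ - 1) / (-504) := by
    have h3 := h1.div_const (-504 : ℂ)
    refine HasSum.tsum_eq (h3.congr_fun fun m ↦ ?_)
    rw [exp_eq_qq, if_neg (Nat.succ_ne_zero m)]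
    push_cast
    ring
  rw [h2]
  ring

/-- `e2, e4, e6` as functions on `ℂ`. -/
noncomputable def e2 (w : ℂ) : ℂ := E2 (ofComplex w)
/-- `e2, e4, e6` as functions on `ℂ`. -/
noncomputable def e4 (w : ℂ) : ℂ := E₄ (ofComplex w)
/-- `e2, e4, e6` as functions on `ℂ`. -/
noncomputable def e6 (w : ℂ) : ℂ := E₆ (ofComplex w)

lemma hasDeriv_e4 {w : ℂ} (hw : 0 < w.im) :
    HasDerivAt e4 (2 * π * I * ((e2 w * e4 w - e6 w) / 3)) w := by
  have h1 := D_E4 ⟨w, hw⟩
  have hm : MDiff (fun τ : ℍ ↦ E₄ τ) := IntQ_E4'.mdiff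
  rw [UpperHalfPlane.mdifferentiable_iff] at hm
  have h2 := (hm w hw).differentiableAt (isOpen_upperHalfPlaneSet.mem_nhds hw)
  have hpi : (2 * π * I : ℂ) ≠ 0 := by
    have : (π : ℂ) ≠ 0 := by exact_mod_cast Real.pi_ne_zero
    simp [this]
  have h3 : deriv e4 w = 2 * π * I * ((e2 w * e4 w - e6 w) / 3) := by
    unfold normalizedDerivOfComplex at h1
    have h4 : deriv ((fun τ : ℍ ↦ E₄ τ) ∘ ofComplex) w = deriv e4 w := rfl
    change (2 * π * I)⁻¹ * deriv ((fun τ : ℍ ↦ E₄ τ) ∘ ofComplex) w = _ at h1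
    rw [h4] at h1
    have h5 : ofComplex w = ⟨w, hw⟩ := ofComplex_apply_of_im_pos hw
    rw [e2, e4, e6, h5, ← h1]
    field_simp
  rw [← h3]
  exact h2.hasDerivAt

lemma hasDeriv_e6 {w : ℂ} (hw : 0 < w.im) :
    HasDerivAt e6 (2 * π * I * ((e2 w * e6 w - e4 w ^ 2) / 2)) w := by
  have h1 := D_E6 ⟨w, hw⟩
  have hm : MDiff (fun τ : ℍ ↦ E₆ τ) := IntQ_E6'.mdiff
  rw [UpperHalfPlane.mdifferentiable_iff] at hm
  have h2 := (hm w hw).differentiableAt (isOpen_upperHalfPlaneSet.mem_nhds hw)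
  have hpi : (2 * π * I : ℂ) ≠ 0 := by
    have : (π : ℂ) ≠ 0 := by exact_mod_cast Real.pi_ne_zero
    simp [this]
  have h3 : deriv e6 w = 2 * π * I * ((e2 w * e6 w - e4 w ^ 2) / 2) := by
    unfold normalizedDerivOfComplex at h1
    have h4 : deriv ((fun τ : ℍ ↦ E₆ τ) ∘ ofComplex) w = deriv e6 w := rfl
    change (2 * π * I)⁻¹ * deriv ((fun τ : ℍ ↦ E₆ τ) ∘ ofComplex) w = _ at h1
    rw [h4] at h1
    have h5 : ofComplex w = ⟨w, hw⟩ := ofComplex_apply_of_im_pos hw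
    rw [e2, e4, e6, h5, ← h1]
    field_simp
  rw [← h3]
  exact h2.hasDerivAt

lemma disc_ne {w : ℂ} : e4 w ^ 3 - e6 w ^ 2 ≠ 0 := by
  have h1 := discriminant_eq_E₄_cube_sub_E₆_sq (ofComplex w)
  have h2 := discriminant_ne_zero (ofComplex w)
  intro h
  apply h2
  rw [h1]
  unfold e4 e6 at h
  rw [h, zero_div]

/-- The first derivative of `J`. -/
noncomputable def J1 (w : ℂ) : ℂ :=
  -1728 * (2 * π * I) * (e4 w ^ 2 * e6 w) / (e4 w ^ 3 - e6 w ^ 2)

/-- The second derivative of `J`. -/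
noncomputable def J2 (w : ℂ) : ℂ :=
  -1728 * (2 * π * I) ^ 2 * ((1 / 6) * e2 w * e4 w ^ 2 * e6 w - (2 / 3) * e4 w * e6 w ^ 2 -
    (1 / 2) * e4 w ^ 4) / (e4 w ^ 3 - e6 w ^ 2)

lemma hasDeriv_J {w : ℂ} (hw : 0 < w.im) :
    HasDerivAt (fun w ↦ 1728 * e4 w ^ 3 / (e4 w ^ 3 - e6 w ^ 2)) (J1 w) w := by
  have h4 := hasDeriv_e4 hw
  have h6 := hasDeriv_e6 hw
  have h := ((h4.pow 3).const_mul 1728).div ((h4.pow 3).sub (h6.pow 2)) (disc_ne (w := w))
  refine h.congr_deriv ?_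
  have hd := disc_ne (w := w)
  unfold J1
  simp only [Pi.pow_apply, Pi.sub_apply]
  field_simp
  push_cast
  ring

lemma hasDeriv_J1 {w : ℂ} (hw : 0 < w.im) : HasDerivAt J1 (J2 w) w := by
  have h4 := hasDeriv_e4 hw
  have h6 := hasDeriv_e6 hw
  have h := (((h4.pow 2).mul h6).const_mul (-1728 * (2 * π * I : ℂ))).div
    ((h4.pow 3).sub (h6.pow 2)) (disc_ne (w := w))
  refine h.congr_deriv ?_
  have hd := disc_ne (w := w)
  unfold J2
  simp only [Pi.pow_apply, Pi.sub_apply, Pi.mul_apply]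
  field_simp
  push_cast
  ring

lemma J_values (h4 : ∀ τ : ℂ, E4 τ = 1 + 240 * ∑' m : ℕ,
      ((ArithmeticFunction.sigma 3 (m + 1) : ℕ) : ℂ) *
      Complex.exp (2 * (Real.pi : ℂ) * Complex.I * ((m : ℂ) + 1) * τ))
    (h6 : ∀ τ : ℂ, E6 τ = 1 - 504 * ∑' m : ℕ, ((ArithmeticFunction.sigma 5 (m + 1) : ℕ) : ℂ) *
      Complex.exp (2 * (Real.pi : ℂ) * Complex.I * ((m : ℂ) + 1) * τ))
    (hJ : ∀ τ : ℂ, J τ = 1728 * E4 τ ^ 3 / (E4 τ ^ 3 - E6 τ ^ 2)) {w : ℂ} (hw : 0 < w.im) :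
    J w = 1728 * e4 w ^ 3 / (e4 w ^ 3 - e6 w ^ 2) ∧ deriv J w = J1 w ∧
      deriv (deriv J) w = J2 w := by
  have hopen : {w : ℂ | 0 < w.im} ∈ 𝓝 w := isOpen_upperHalfPlaneSet.mem_nhds hw
  have hval : ∀ v : ℂ, 0 < v.im → J v = 1728 * e4 v ^ 3 / (e4 v ^ 3 - e6 v ^ 2) := by
    intro v hv
    have h1 := E4_eq h4 ⟨v, hv⟩
    have h2 := E6_eq h6 ⟨v, hv⟩
    have h3 : ofComplex v = ⟨v, hv⟩ := ofComplex_apply_of_im_pos hv
    rw [hJ, e4, e6, h3, ← h1, ← h2]
  have hd : ∀ v : ℂ, 0 < v.im → deriv J v = J1 v := by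
    intro v hv
    have hopen' : {w : ℂ | 0 < w.im} ∈ 𝓝 v := isOpen_upperHalfPlaneSet.mem_nhds hv
    have he : J =ᶠ[𝓝 v] fun w ↦ 1728 * e4 w ^ 3 / (e4 w ^ 3 - e6 w ^ 2) := by
      filter_upwards [hopen'] with u hu using hval u hu
    rw [he.deriv_eq, (hasDeriv_J hv).deriv]
  refine ⟨hval w hw, hd w hw, ?_⟩
  have he : deriv J =ᶠ[𝓝 w] J1 := by
    filter_upwards [hopen] with u hu using hd u hu
  rw [he.deriv_eq, (hasDeriv_J1 hw).deriv]

end

end H32

end S_JDeriv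

section S_Indep

/-!
# Algebraic independence of τ, E2, E4, E6
-/

open UpperHalfPlane hiding I
open Complex EisensteinSeries ModularForm MatrixGroups Manifold
open scoped Real Topology

namespace H32

lemma analytic_of_mdiff {f : ℍ → ℂ} (hf : MDiff f) :
    AnalyticOnNhd ℂ (fun w ↦ f (ofComplex w)) upperHalfPlaneSet := by
  rw [UpperHalfPlane.mdifferentiable_iff] at hf
  exact DifferentiableOn.analyticOnNhd hf isOpen_upperHalfPlaneSet

lemma preconnected_H : IsPreconnected upperHalfPlaneSet := by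
  exact (convex_halfSpace_im_gt 0).isPreconnected

lemma analytic_E2 : AnalyticOnNhd ℂ (fun w ↦ E2 (ofComplex w)) upperHalfPlaneSet :=
  analytic_of_mdiff IntQ_E2.mdiff
lemma analytic_E4 : AnalyticOnNhd ℂ (fun w ↦ E₄ (ofComplex w)) upperHalfPlaneSet :=
  analytic_of_mdiff IntQ_E4'.mdiff
lemma analytic_E6 : AnalyticOnNhd ℂ (fun w ↦ E₆ (ofComplex w)) upperHalfPlaneSet :=
  analytic_of_mdiff IntQ_E6'.mdiff

lemma E6_not_zero : ¬ ∀ w ∈ upperHalfPlaneSet, E₆ (ofComplex w) = 0 := by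
  intro h
  have h1 : ∀ τ : ℍ, E₆ τ = 0 := fun τ ↦ by
    have := h τ τ.im_pos
    rwa [ofComplex_apply] at this
  apply E_ne_zero (k := 6) (by norm_num) ⟨3, rfl⟩
  ext τ
  exact h1 τ

open Polynomial in
lemma indep46 (N : ℕ) : ∀ R : Polynomial (Polynomial ℂ), R.natDegree ≤ N →
    (∀ (u : ℂ) (τ : ℍ), u ≠ 0 → R.evalEval (u ^ 4 * E₄ τ) (u ^ 6 * E₆ τ) = 0) → R = 0 := by
  induction N with
  | zero =>
    intro R hR h
    obtain ⟨p, rfl⟩ : ∃ p, R = C p := ⟨_, eq_C_of_natDegree_le_zero hR⟩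
    have hp : p = 0 := by
      apply eq_zero_of_infinite_isRoot
      have hinf : Set.Infinite (Set.range fun m : ℕ ↦ ((m : ℂ) + 1) * E₄ UpperHalfPlane.I) := by
        refine Set.infinite_range_of_injective fun a b hab ↦ ?_
        have := mul_right_cancel₀ E4_I_ne hab
        have h2 : (a : ℂ) = b := by linear_combination this
        exact_mod_cast h2
      refine hinf.mono ?_
      rintro _ ⟨m, rfl⟩
      obtain ⟨u, hu⟩ := IsAlgClosed.exists_pow_nat_eq ((m : ℂ) + 1) (n := 4) (by norm_num)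
      have hm : (m : ℂ) + 1 ≠ 0 := by exact_mod_cast Nat.succ_ne_zero m
      have hu0 : u ≠ 0 := by
        rintro rfl
        rw [zero_pow (by norm_num)] at hu
        exact hm hu.symm
      have := h u UpperHalfPlane.I hu0
      rw [evalEval_C, hu] at this
      exact this
    rw [hp, map_zero]
  | succ N ih =>
    intro R hR h
    have h0 : R.coeff 0 = 0 := by
      apply eq_zero_of_infinite_isRoot
      have hinf : Set.Infinite (Set.range fun m : ℕ ↦ ((m : ℂ) + 1) * E₄ UpperHalfPlane.I) := by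
        refine Set.infinite_range_of_injective fun a b hab ↦ ?_
        have := mul_right_cancel₀ E4_I_ne hab
        have h2 : (a : ℂ) = b := by linear_combination this
        exact_mod_cast h2
      refine hinf.mono ?_
      rintro _ ⟨m, rfl⟩
      obtain ⟨u, hu⟩ := IsAlgClosed.exists_pow_nat_eq ((m : ℂ) + 1) (n := 4) (by norm_num)
      have hm : (m : ℂ) + 1 ≠ 0 := by exact_mod_cast Nat.succ_ne_zero m
      have hu0 : u ≠ 0 := by
        rintro rfl
        rw [zero_pow (by norm_num)] at hu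
        exact hm hu.symm
      have := h u UpperHalfPlane.I hu0
      rw [E6_I, mul_zero, hu, evalEval, map_zero, ← coeff_zero_eq_eval_zero] at this
      exact this
    have hdiv : R.divX * X = R := by
      have := divX_mul_X_add R
      rwa [h0, map_zero, add_zero] at this
    have h' : ∀ (u : ℂ) (τ : ℍ), u ≠ 0 → R.divX.evalEval (u ^ 4 * E₄ τ) (u ^ 6 * E₆ τ) = 0 := by
      intro u τ hu
      have hmul : ∀ w ∈ upperHalfPlaneSet,
          (fun w ↦ R.divX.evalEval (u ^ 4 * E₄ (ofComplex w)) (u ^ 6 * E₆ (ofComplex w))) w *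
          (fun w ↦ E₆ (ofComplex w)) w = 0 := by
        intro w _
        have h1 := h u (ofComplex w) hu
        rw [← hdiv, evalEval_mul, evalEval_X] at h1
        have hu6 : u ^ 6 ≠ 0 := pow_ne_zero _ hu
        have h2 : u ^ 6 * (R.divX.evalEval (u ^ 4 * E₄ (ofComplex w)) (u ^ 6 * E₆ (ofComplex w)) *
          E₆ (ofComplex w)) = 0 := by linear_combination h1
        exact (mul_eq_zero.mp h2).resolve_left hu6
      have hana : AnalyticOnNhd ℂ (fun w ↦ R.divX.evalEval (u ^ 4 * E₄ (ofComplex w))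
          (u ^ 6 * E₆ (ofComplex w))) upperHalfPlaneSet := by
        have e : (fun w ↦ R.divX.evalEval (u ^ 4 * E₄ (ofComplex w)) (u ^ 6 * E₆ (ofComplex w))) =
            fun w ↦ ∑ i ∈ R.divX.support, (aeval (u ^ 4 * E₄ (ofComplex w)) (R.divX.coeff i)) *
              (u ^ 6 * E₆ (ofComplex w)) ^ i := by
          ext w
          rw [evalEval, eval_eq_sum (p := R.divX), Polynomial.sum, eval_finsetSum]
          refine Finset.sum_congr rfl fun i _ ↦ ?_
          simp [coe_aeval_eq_eval]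
        rw [e]
        refine Finset.analyticOnNhd_fun_sum _ fun i _ ↦ ?_
        refine AnalyticOnNhd.mul ?_ ((analyticOnNhd_const.mul analytic_E6).pow i)
        exact (analyticOnNhd_const.mul analytic_E4).aeval_polynomial _
      rcases AnalyticOnNhd.eq_zero_or_eq_zero_of_mul_eq_zero hana analytic_E6 hmul
        preconnected_H with h3 | h3
      · have := h3 τ τ.im_pos
        simpa [ofComplex_apply] using this
      · exact absurd h3 E6_not_zero
    have hdeg : R.divX.natDegree ≤ N := by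
      rw [natDegree_divX_eq_natDegree_tsub_one]
      omega
    rw [← hdiv, ih _ hdeg h', zero_mul]

end H32

end S_Indep

section S_Indep2

/-!
# Algebraic independence of τ, E2, E4, E6 (continued)
-/

open UpperHalfPlane hiding I
open Complex EisensteinSeries ModularForm MatrixGroups Manifold
open scoped Real Topology
open MvPolynomial

namespace H32

/-- A polynomial in one variable obtained by substitution. -/
lemma poly_sub (P : MvPolynomial (Fin 4) ℂ) (g : Fin 4 → Polynomial ℂ) (t : ℂ) :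
    (aeval g P).eval t = aeval (fun i ↦ (g i).eval t) P := by
  have h : (Polynomial.evalRingHom t).comp (aeval g : MvPolynomial (Fin 4) ℂ →ₐ[ℂ] _).toRingHom =
      (aeval (fun i ↦ (g i).eval t) : MvPolynomial (Fin 4) ℂ →ₐ[ℂ] _).toRingHom := by
    apply MvPolynomial.ringHom_ext
    · intro r; simp
    · intro i; simp
  exact congrArg (fun f ↦ f P) h

lemma poly_zero_of_infinite {p : Polynomial ℂ} (f : ℕ → ℂ) (hf : Function.Injective f)
    (h : ∀ m, p.eval (f m) = 0) : p = 0 := by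
  apply Polynomial.eq_zero_of_infinite_isRoot
  refine (Set.infinite_range_of_injective hf).mono ?_
  rintro _ ⟨m, rfl⟩
  exact h m

/-- A family of unimodular matrices. -/
def gM (c m : ℕ) : SL(2, ℤ) := ⟨!![1, (m : ℤ); (c : ℤ), c * m + 1], by
  rw [Matrix.det_fin_two]
  simp
  ring⟩

lemma denom_gM (c m : ℕ) (τ : ℍ) :
    denom ((gM c m : SL(2, ℤ)) : GL (Fin 2) ℝ) τ = c * τ + (c * m + 1) := by
  rw [ModularGroup.denom_apply]
  simp [gM]

lemma gM_10 (c m : ℕ) : (gM c m) 1 0 = c := by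
  simp [gM]

lemma smul_gM_zero (m : ℕ) (τ : ℍ) : ((gM 0 m • τ : ℍ) : ℂ) = τ + m := by
  rw [coe_specialLinearGroup_apply]
  simp [gM]

theorem indep_H (P : MvPolynomial (Fin 4) ℂ)
    (h : ∀ τ : ℍ, aeval ![(τ : ℂ), E2 τ, E₄ τ, E₆ τ] P = 0) : P = 0 := by
  -- the first variable is free
  have ha : ∀ (t : ℂ) (τ : ℍ), aeval ![t, E2 τ, E₄ τ, E₆ τ] P = 0 := by
    intro t τ
    set g : Fin 4 → Polynomial ℂ :=
      ![Polynomial.X, Polynomial.C (E2 τ), Polynomial.C (E₄ τ), Polynomial.C (E₆ τ)] with hg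
    have hev : ∀ s : ℂ, (fun i ↦ (g i).eval s) = ![s, E2 τ, E₄ τ, E₆ τ] := by
      intro s; ext i; fin_cases i <;> simp [hg]
    have hp : aeval g P = 0 := by
      refine poly_zero_of_infinite (fun m : ℕ ↦ (τ : ℂ) + m) (fun a b hab ↦ by
        have : (a : ℂ) = b := add_left_cancel hab
        exact_mod_cast this) fun m ↦ ?_
      rw [poly_sub, hev, ← smul_gM_zero]
      have h1 := h (gM 0 m • τ)
      have hden : denom ((gM 0 m : SL(2, ℤ)) : GL (Fin 2) ℝ) τ = 1 := by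
        rw [denom_gM]; simp
      have e2 : E2 (gM 0 m • τ) = E2 τ := by
        rw [E2_smul, hden, gM_10]
        simp
      have e4 : E₄ (gM 0 m • τ) = E₄ τ := by
        have := WInv_E4 (gM 0 m) τ
        simp only at this
        rw [this, hden]
        simp
      have e6 : E₆ (gM 0 m • τ) = E₆ τ := by
        have := WInv_E6 (gM 0 m) τ
        simp only at this
        rw [this, hden]
        simp
      rwa [e2, e4, e6] at h1
    have := poly_sub P g t
    rw [hp, hev] at this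
    simpa using this.symm
  -- modular transformations
  have hb1 : ∀ (t u : ℂ) (τ : ℍ) (c : ℕ), 0 < c →
      aeval ![t, u ^ 2 * E2 τ - 6 * I / π * c * u, u ^ 4 * E₄ τ, u ^ 6 * E₆ τ] P = 0 := by
    intro t u τ c hc
    set g : Fin 4 → Polynomial ℂ :=
      ![Polynomial.C t, Polynomial.X ^ 2 * Polynomial.C (E2 τ) -
        Polynomial.C (6 * I / π * c) * Polynomial.X, Polynomial.X ^ 4 * Polynomial.C (E₄ τ),
        Polynomial.X ^ 6 * Polynomial.C (E₆ τ)] with hg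
    have hev : ∀ s : ℂ, (fun i ↦ (g i).eval s) =
        ![t, s ^ 2 * E2 τ - 6 * I / π * c * s, s ^ 4 * E₄ τ, s ^ 6 * E₆ τ] := by
      intro s; ext i
      fin_cases i
      · simp [hg]
      · simp [hg]
        ring
      · simp [hg]
        ring
      · simp [hg]
        ring
    have hc' : (c : ℂ) ≠ 0 := by exact_mod_cast hc.ne'
    have hp : aeval g P = 0 := by
      refine poly_zero_of_infinite (fun m : ℕ ↦ (c : ℂ) * τ + (c * m + 1)) (fun a b hab ↦ by
        have h1 : (c : ℂ) * ((a : ℂ) - b) = 0 := by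
          simp only at hab
          linear_combination hab
        have h2 : (a : ℂ) - b = 0 := (mul_eq_zero.mp h1).resolve_left hc'
        have : (a : ℂ) = b := by linear_combination h2
        exact_mod_cast this) fun m ↦ ?_
      rw [poly_sub, hev]
      set γ : SL(2, ℤ) := gM c m with hγ
      have hden : denom (γ : GL (Fin 2) ℝ) τ = c * τ + (c * m + 1) := denom_gM c m τ
      have h1 := ha t (γ • τ)
      have e2 := E2_smul γ τ
      have e4 := WInv_E4 γ τ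
      have e6 := WInv_E6 γ τ
      have e10 : γ 1 0 = c := gM_10 c m
      simp only at e4 e6
      rw [e2, e4, e6, hden, e10] at h1
      exact_mod_cast h1
    have := poly_sub P g u
    rw [hp, hev] at this
    simpa using this.symm
  have hb2 : ∀ (t u c : ℂ) (τ : ℍ),
      aeval ![t, u ^ 2 * E2 τ - 6 * I / π * c * u, u ^ 4 * E₄ τ, u ^ 6 * E₆ τ] P = 0 := by
    intro t u c τ
    set g : Fin 4 → Polynomial ℂ :=
      ![Polynomial.C t, Polynomial.C (u ^ 2 * E2 τ) -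
        Polynomial.C (6 * I / π) * Polynomial.X * Polynomial.C u, Polynomial.C (u ^ 4 * E₄ τ),
        Polynomial.C (u ^ 6 * E₆ τ)] with hg
    have hev : ∀ s : ℂ, (fun i ↦ (g i).eval s) =
        ![t, u ^ 2 * E2 τ - 6 * I / π * s * u, u ^ 4 * E₄ τ, u ^ 6 * E₆ τ] := by
      intro s; ext i; fin_cases i <;> simp [hg]
    have hp : aeval g P = 0 := by
      refine poly_zero_of_infinite (fun m : ℕ ↦ ((m + 1 : ℕ) : ℂ)) (fun a b hab ↦ by
        simp only at hab
        have : a + 1 = b + 1 := by exact_mod_cast hab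
        omega) fun m ↦ ?_
      rw [poly_sub, hev]
      exact hb1 t u τ (m + 1) (Nat.succ_pos m)
    have := poly_sub P g c
    rw [hp, hev] at this
    simpa using this.symm
  have hb3 : ∀ (t x u : ℂ) (τ : ℍ), u ≠ 0 →
      aeval ![t, x, u ^ 4 * E₄ τ, u ^ 6 * E₆ τ] P = 0 := by
    intro t x u τ hu
    have hpi : (π : ℂ) ≠ 0 := by exact_mod_cast Real.pi_ne_zero
    have hI : Complex.I ≠ 0 := Complex.I_ne_zero
    have := hb2 t u ((u ^ 2 * E2 τ - x) * π / (6 * I * u)) τ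
    have e : u ^ 2 * E2 τ - 6 * I / π * ((u ^ 2 * E2 τ - x) * π / (6 * I * u)) * u = x := by
      field_simp
      ring
    rwa [e] at this
  -- conclusion
  have hc : ∀ t x y z : ℂ, aeval ![t, x, y, z] P = 0 := by
    intro t x y z
    set R : Polynomial (Polynomial ℂ) := aeval ![Polynomial.C (Polynomial.C t),
      Polynomial.C (Polynomial.C x), Polynomial.C Polynomial.X, Polynomial.X] P with hR
    have hev : ∀ y z : ℂ, R.evalEval y z = aeval ![t, x, y, z] P := by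
      intro y z
      have h : (Polynomial.evalEvalRingHom y z).comp (aeval (![Polynomial.C (Polynomial.C t),
          Polynomial.C (Polynomial.C x), Polynomial.C Polynomial.X, Polynomial.X] :
            Fin 4 → Polynomial (Polynomial ℂ)) :
          MvPolynomial (Fin 4) ℂ →ₐ[ℂ] Polynomial (Polynomial ℂ)).toRingHom =
          (aeval ![t, x, y, z] : MvPolynomial (Fin 4) ℂ →ₐ[ℂ] ℂ).toRingHom := by
        apply MvPolynomial.ringHom_ext
        · intro r
          simp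
        · intro i
          fin_cases i <;> simp
      exact congrArg (fun f ↦ f P) h
    have hR0 : R = 0 := indep46 _ R le_rfl fun u τ hu ↦ by
      rw [hev]; exact hb3 t x u τ hu
    rw [← hev, hR0]
    simp
  apply MvPolynomial.funext
  intro x
  have := hc (x 0) (x 1) (x 2) (x 3)
  have e : ![x 0, x 1, x 2, x 3] = x := by
    ext i; fin_cases i <;> rfl
  rw [e] at this
  simpa [aeval_eq_eval] using this

end H32

end S_Indep2

section S_Indep3

/-!
# Algebraic independence of the germs along a line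
-/

open UpperHalfPlane hiding I
open Complex EisensteinSeries ModularForm MatrixGroups Manifold
open scoped Real Topology
open MvPolynomial

namespace H32

/-- The data along the line `t ↦ α + β t`, with `y(t) = c + d t`. -/
noncomputable def DD (α β c d : ℂ) (t : ℂ) : Fin 4 → ℂ :=
  ![t, E2 (ofComplex (α + β * t)) - 3 / (π * (c + d * t)), E₄ (ofComplex (α + β * t)),
    E₆ (ofComplex (α + β * t))]

lemma analytic_DD {α β c d t₀ : ℂ} (him : 0 < (α + β * t₀).im) (hy : c + d * t₀ ≠ 0) (k : Fin 4) :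
    AnalyticAt ℂ (fun t ↦ DD α β c d t k) t₀ := by
  have hlin : AnalyticAt ℂ (fun t : ℂ ↦ α + β * t) t₀ := by fun_prop
  have hpi : (π : ℂ) ≠ 0 := by exact_mod_cast Real.pi_ne_zero
  have h2 : AnalyticAt ℂ (fun t : ℂ ↦ E2 (ofComplex (α + β * t))) t₀ :=
    AnalyticAt.fun_comp (g := fun w ↦ E2 (ofComplex w)) (f := fun t : ℂ ↦ α + β * t)
      (analytic_E2 _ him) hlin
  have h4 : AnalyticAt ℂ (fun t : ℂ ↦ E₄ (ofComplex (α + β * t))) t₀ :=
    AnalyticAt.fun_comp (g := fun w ↦ E₄ (ofComplex w)) (f := fun t : ℂ ↦ α + β * t)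
      (analytic_E4 _ him) hlin
  have h6 : AnalyticAt ℂ (fun t : ℂ ↦ E₆ (ofComplex (α + β * t))) t₀ :=
    AnalyticAt.fun_comp (g := fun w ↦ E₆ (ofComplex w)) (f := fun t : ℂ ↦ α + β * t)
      (analytic_E6 _ him) hlin
  have h3 : AnalyticAt ℂ (fun t : ℂ ↦ (π : ℂ) * (c + d * t)) t₀ := by fun_prop
  have h5 : AnalyticAt ℂ (fun t : ℂ ↦ 3 / ((π : ℂ) * (c + d * t))) t₀ :=
    analyticAt_const.fun_div h3 (mul_ne_zero hpi hy)
  fin_cases k
  · exact analyticAt_id
  · exact h2.fun_sub h5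
  · exact h4
  · exact h6

/-- The polynomial obtained after clearing denominators. -/
noncomputable def QQ (α β c d : ℂ) (P : MvPolynomial (Fin 4) ℂ) : MvPolynomial (Fin 4) ℂ :=
  ∑ m ∈ P.support, C (P.coeff m) * (C β⁻¹ * (X 0 - C α)) ^ m 0 *
    ((C c + C d * (C β⁻¹ * (X 0 - C α))) * X 1 - C (3 / (π : ℂ))) ^ m 1 *
    (C c + C d * (C β⁻¹ * (X 0 - C α))) ^ (P.totalDegree - m 1) * X 2 ^ m 2 * X 3 ^ m 3

lemma eval_QQ {α β c d : ℂ} (hβ : β ≠ 0) (P : MvPolynomial (Fin 4) ℂ) {t x y z : ℂ}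
    (hy : c + d * t ≠ 0) : aeval ![α + β * t, x, y, z] (QQ α β c d P) =
      (c + d * t) ^ P.totalDegree * aeval ![t, x - 3 / (π * (c + d * t)), y, z] P := by
  have hpi : (π : ℂ) ≠ 0 := by exact_mod_cast Real.pi_ne_zero
  rw [aeval_def, aeval_def, eval₂_eq' _ _ P, QQ, eval₂_sum, Finset.mul_sum]
  refine Finset.sum_congr rfl fun m hm ↦ ?_
  have hm1 : m 1 ≤ P.totalDegree := by
    refine le_trans ?_ (le_totalDegree hm)
    rw [Finsupp.sum_fintype _ _ (by simp)]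
    exact Finset.single_le_sum (f := fun l ↦ m l) (fun _ _ ↦ Nat.zero_le _) (Finset.mem_univ 1)
  simp only [eval₂_mul, eval₂_pow, eval₂_C, eval₂_X, eval₂_sub, eval₂_add, Fin.prod_univ_four,
    Matrix.cons_val_zero, Matrix.cons_val_one, Matrix.cons_val, Algebra.algebraMap_self,
    RingHom.id_apply]
  have e1 : β⁻¹ * (α + β * t - α) = t := by field_simp; ring
  rw [e1]
  have e2 : (c + d * t) * x - 3 / (π : ℂ) = (c + d * t) * (x - 3 / (π * (c + d * t))) := by
    field_simp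
  rw [e2, mul_pow]
  have e3 : (c + d * t) ^ P.totalDegree = (c + d * t) ^ m 1 * (c + d * t) ^ (P.totalDegree - m 1) := by
    rw [← pow_add, Nat.add_sub_cancel' hm1]
  rw [e3]
  ring

theorem indep_germ {α β c d t₀ : ℂ} (hβ : β ≠ 0) (him : 0 < (α + β * t₀).im)
    (hy : c + d * t₀ ≠ 0) (P : MvPolynomial (Fin 4) ℂ)
    (h : ∀ᶠ t in 𝓝 t₀, aeval (DD α β c d t) P = 0) : P = 0 := by
  have hQ : QQ α β c d P = 0 := by
    apply indep_H
    have hana : AnalyticOnNhd ℂ (fun w ↦ aeval (![w, E2 (ofComplex w), E₄ (ofComplex w),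
        E₆ (ofComplex w)] : Fin 4 → ℂ) (QQ α β c d P)) upperHalfPlaneSet := by
      intro w hw
      refine AnalyticAt.aeval_mvPolynomial (fun i ↦ ?_) _
      fin_cases i
      · exact analyticAt_id
      · exact analytic_E2 w hw
      · exact analytic_E4 w hw
      · exact analytic_E6 w hw
    have hev : ∀ᶠ w in 𝓝 (α + β * t₀), aeval (![w, E2 (ofComplex w), E₄ (ofComplex w),
        E₆ (ofComplex w)] : Fin 4 → ℂ) (QQ α β c d P) = 0 := by
      have hcont : Filter.Tendsto (fun w : ℂ ↦ (w - α) / β) (𝓝 (α + β * t₀)) (𝓝 t₀) := by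
        have h1 : Continuous fun w : ℂ ↦ (w - α) / β := by fun_prop
        have h2 := h1.tendsto (α + β * t₀)
        have h3 : (α + β * t₀ - α) / β = t₀ := by field_simp; ring
        rwa [h3] at h2
      have hyev : ∀ᶠ t in 𝓝 t₀, c + d * t ≠ 0 := by
        have h1 : Continuous fun t : ℂ ↦ c + d * t := by fun_prop
        exact h1.continuousAt.eventually_ne hy
      filter_upwards [hcont.eventually h, hcont.eventually hyev] with w h1 h2
      have h3 : α + β * ((w - α) / β) = w := by field_simp; ring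
      have h4 := eval_QQ (α := α) hβ P (x := E2 (ofComplex w)) (y := E₄ (ofComplex w))
        (z := E₆ (ofComplex w)) h2
      rw [h3] at h4
      rw [h4]
      unfold DD at h1
      rw [h3] at h1
      rw [h1, mul_zero]
    have h0 := hana.eqOn_zero_of_preconnected_of_eventuallyEq_zero preconnected_H him hev
    intro τ
    have := h0 τ.im_pos
    simpa [ofComplex_apply] using this
  have hP : ∀ t x y z : ℂ, c + d * t ≠ 0 → aeval ![t, x, y, z] P = 0 := by
    intro t x y z ht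
    have h1 := eval_QQ (α := α) hβ P (x := x + 3 / (π * (c + d * t))) (y := y) (z := z) ht
    rw [hQ, map_zero, add_sub_cancel_right] at h1
    have h2 : (c + d * t) ^ P.totalDegree ≠ 0 := pow_ne_zero _ ht
    exact (mul_eq_zero.mp h1.symm).resolve_left h2
  have hprod : (C c + C d * X 0) * P = 0 := by
    apply MvPolynomial.funext
    intro x
    rw [map_mul, map_zero]
    by_cases hx : c + d * x 0 = 0
    · simp [hx]
    · have h1 := hP (x 0) (x 1) (x 2) (x 3) hx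
      have e : ![x 0, x 1, x 2, x 3] = x := by
        ext i; fin_cases i <;> rfl
      rw [e] at h1
      have h2 : eval x P = 0 := by simpa [aeval_eq_eval] using h1
      rw [h2, mul_zero]
  rcases mul_eq_zero.mp hprod with h1 | h1
  · exfalso
    have h2 := congrArg (eval fun _ ↦ t₀) h1
    simp at h2
    exact hy h2
  · exact h1

end H32

end S_Indep3

section S_Boundary

/-!
# Independence of E2, E4, E6 over functions analytic at a rational boundary point
-/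

open UpperHalfPlane hiding I
open Complex EisensteinSeries ModularForm MatrixGroups Manifold
open scoped Real Topology
open MvPolynomial Filter

namespace H32

lemma exists_gamma (r : ℚ) : ∃ γ : SL(2, ℤ), γ 0 0 = r.num ∧ γ 1 0 = r.den := by
  have h : IsCoprime r.num (r.den : ℤ) := by
    rw [Int.isCoprime_iff_nat_coprime]
    simpa using r.reduced
  obtain ⟨u, v, huv⟩ := h
  refine ⟨⟨!![r.num, -v; (r.den : ℤ), u], ?_⟩, ?_, ?_⟩
  · rw [Matrix.det_fin_two]
    simp only [Matrix.of_apply, Matrix.cons_val', Matrix.cons_val_zero, Matrix.cons_val_fin_one,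
      Matrix.cons_val_one]
    linear_combination huv
  · simp
  · simp

lemma smul_gamma {r : ℚ} {γ : SL(2, ℤ)} (h0 : γ 0 0 = r.num) (h1 : γ 1 0 = r.den) (τ : ℍ) :
    ((γ • τ : ℍ) : ℂ) = r - 1 / (r.den * denom γ τ) := by
  have hd : denom (γ : GL (Fin 2) ℝ) τ ≠ 0 := denom_ne_zero _ τ
  have hN : (r.den : ℂ) ≠ 0 := by exact_mod_cast r.den_ne_zero
  have hdet := γ.det_coe
  rw [Matrix.det_fin_two] at hdet
  have hden : denom (γ : GL (Fin 2) ℝ) τ = (r.den : ℂ) * τ + ((γ 1 1 : ℤ) : ℂ) := by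
    rw [ModularGroup.denom_apply]
    have : ((γ 1 0 : ℤ) : ℂ) = r.den := by rw [h1]; push_cast; rfl
    rw [this]
  have hr : (r : ℂ) = (r.num : ℂ) / r.den := by
    exact_mod_cast congrArg (Rat.cast : ℚ → ℂ) (Rat.num_div_den r).symm
  rw [coe_specialLinearGroup_apply]
  have e0 : ((algebraMap ℤ ℝ (γ 0 0) : ℝ) : ℂ) = (r.num : ℂ) := by rw [h0]; simp
  have e1 : ((algebraMap ℤ ℝ (γ 1 0) : ℝ) : ℂ) = (r.den : ℂ) := by rw [h1]; simp
  have e2 : ((algebraMap ℤ ℝ (γ 0 1) : ℝ) : ℂ) = ((γ 0 1 : ℤ) : ℂ) := by simp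
  have e3 : ((algebraMap ℤ ℝ (γ 1 1) : ℝ) : ℂ) = ((γ 1 1 : ℤ) : ℂ) := by simp
  rw [e0, e1, e2, e3, ← hden, hr]
  have hdetC : (r.num : ℂ) * ((γ 1 1 : ℤ) : ℂ) - ((γ 0 1 : ℤ) : ℂ) * (r.den : ℂ) = 1 := by
    have h3 : (γ 0 0) * (γ 1 1) - (γ 0 1) * (γ 1 0) = 1 := hdet
    rw [h0, h1] at h3
    exact_mod_cast congrArg (Int.cast : ℤ → ℂ) h3
  rw [div_sub_div _ _ hN (mul_ne_zero hN hd), div_eq_div_iff hd (mul_ne_zero hN (mul_ne_zero hN hd))]
  rw [hden]
  linear_combination (-(r.den : ℂ) * ((r.den : ℂ) * τ + ((γ 1 1 : ℤ) : ℂ))) * hdetC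

end H32

end S_Boundary

section S_BL

/-!
# The boundary lemma
-/

open UpperHalfPlane hiding I
open Complex EisensteinSeries ModularForm MatrixGroups Manifold
open scoped Real Topology
open MvPolynomial Filter Metric

namespace H32

lemma coeff_zero_of_eval {S : Finset (Fin 3 → ℕ)} {a : (Fin 3 → ℕ) → ℂ}
    (h : ∀ x y z : ℂ, ∑ ν ∈ S, a ν * (x ^ ν 0 * y ^ ν 1 * z ^ ν 2) = 0) : ∀ ν ∈ S, a ν = 0 := by
  classical
  set Q : MvPolynomial (Fin 3) ℂ := ∑ ν ∈ S, monomial (Finsupp.equivFunOnFinite.symm ν) (a ν) with hQ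
  have hQ0 : Q = 0 := by
    apply MvPolynomial.funext
    intro x
    rw [map_zero, hQ, map_sum, ← h (x 0) (x 1) (x 2)]
    refine Finset.sum_congr rfl fun ν _ ↦ ?_
    rw [eval_monomial, Finsupp.prod_fintype _ _ (by simp), Fin.prod_univ_three]
    rfl
  intro ν hν
  have h1 := congrArg (coeff (Finsupp.equivFunOnFinite.symm ν)) hQ0
  rw [hQ, coeff_sum, coeff_zero, Finset.sum_eq_single ν] at h1
  · simpa using h1
  · intro μ _ hne
    rw [coeff_monomial, if_neg]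
    intro h
    exact hne (Finsupp.equivFunOnFinite.symm.injective h)
  · intro h; exact absurd hν h

theorem boundary {S : Finset (Fin 3 → ℕ)} {r : ℚ} {c : (Fin 3 → ℕ) → ℂ → ℂ}
    (hc : ∀ ν ∈ S, AnalyticAt ℂ (c ν) r)
    (h : ∀ᶠ τ in 𝓝 (r : ℂ), 0 < τ.im →
      ∑ ν ∈ S, c ν τ * (e2 τ ^ ν 0 * e4 τ ^ ν 1 * e6 τ ^ ν 2) = 0) :
    ∀ ν ∈ S, ∀ᶠ τ in 𝓝 (r : ℂ), c ν τ = 0 := by
  classical
  obtain ⟨γ, hγ0, hγ1⟩ := exists_gamma r
  have hN : (r.den : ℂ) ≠ 0 := by exact_mod_cast r.den_ne_zero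
  have hN1 : (1 : ℝ) ≤ r.den := by exact_mod_cast r.den_pos
  have hev : ∀ᶠ τ in 𝓝 (r : ℂ), (∀ ν ∈ S, AnalyticAt ℂ (c ν) τ) ∧ (0 < τ.im →
      ∑ ν ∈ S, c ν τ * (e2 τ ^ ν 0 * e4 τ ^ ν 1 * e6 τ ^ ν 2) = 0) := by
    refine Eventually.and ?_ h
    rw [Filter.eventually_all_finset]
    exact fun ν hν ↦ (hc ν hν).eventually_analyticAt
  obtain ⟨ε, hε, hball⟩ := Metric.eventually_nhds_iff_ball.mp hev
  set κ : ℂ := 6 * I / π * r.den with hκ
  set W : ℕ := ∑ ν ∈ S, (2 * ν 0 + 4 * ν 1 + 6 * ν 2) with hW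
  have hWν : ∀ ν ∈ S, 2 * ν 0 + 4 * ν 1 + 6 * ν 2 ≤ W := fun ν hν ↦
    Finset.single_le_sum (f := fun ν : Fin 3 → ℕ ↦ 2 * ν 0 + 4 * ν 1 + 6 * ν 2)
      (fun _ _ ↦ Nat.zero_le _) hν
  set f : ℍ → ℂ → ℂ := fun τ x ↦ ∑ ν ∈ S, c ν (r - x / r.den) *
    x ^ (W - (2 * ν 0 + 4 * ν 1 + 6 * ν 2)) *
    ((E2 τ - κ * x) ^ ν 0 * E₄ τ ^ ν 1 * E₆ τ ^ ν 2) with hf
  have hmem : ∀ x ∈ ball (0 : ℂ) ε, (r : ℂ) - x / r.den ∈ ball (r : ℂ) ε := by
    intro x hx
    rw [mem_ball_zero_iff] at hx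
    rw [mem_ball_iff_norm]
    have : (r : ℂ) - x / r.den - r = -(x / r.den) := by ring
    rw [this, norm_neg, norm_div, Complex.norm_natCast]
    calc ‖x‖ / r.den ≤ ‖x‖ / 1 := by gcongr
      _ = ‖x‖ := div_one _
      _ < ε := hx
  have hana : ∀ τ, AnalyticOnNhd ℂ (f τ) (ball 0 ε) := by
    intro τ x hx
    refine Finset.analyticAt_fun_sum _ fun ν hν ↦ ?_
    have h1 : AnalyticAt ℂ (fun x : ℂ ↦ (r : ℂ) - x / r.den) x := by
      have : AnalyticAt ℂ (fun x : ℂ ↦ (r : ℂ) - (r.den : ℂ)⁻¹ * x) x := by fun_prop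
      refine this.congr (Eventually.of_forall fun y ↦ ?_)
      simp only [div_eq_mul_inv]
      ring
    have h2 : AnalyticAt ℂ (fun x : ℂ ↦ c ν ((r : ℂ) - x / r.den)) x :=
      AnalyticAt.fun_comp (g := c ν) (f := fun x : ℂ ↦ (r : ℂ) - x / r.den)
        ((hball _ (hmem x hx)).1 ν hν) h1
    have h3 : AnalyticAt ℂ (fun x : ℂ ↦ x ^ (W - (2 * ν 0 + 4 * ν 1 + 6 * ν 2))) x := by fun_prop
    have h4 : AnalyticAt ℂ (fun x : ℂ ↦ (E2 τ - κ * x) ^ ν 0 * E₄ τ ^ ν 1 * E₆ τ ^ ν 2) x := by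
      fun_prop
    exact (h2.fun_mul h3).fun_mul h4
  have hzero : ∀ τ, Set.EqOn (f τ) 0 (ball 0 ε) := by
    intro τ
    refine (hana τ).eqOn_zero_of_preconnected_of_frequently_eq_zero
      (convex_ball (0 : ℂ) ε).isPreconnected (mem_ball_self hε) ?_
    -- the sequence
    set w : ℕ → ℍ := fun k ↦ gM 0 k • τ with hw
    set u : ℕ → ℂ := fun k ↦ denom (γ : GL (Fin 2) ℝ) (w k) with hu
    have hu_eq : ∀ k, u k = r.den * (k : ℂ) + (r.den * τ + ((γ 1 1 : ℤ) : ℂ)) := by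
      intro k
      rw [hu]
      simp only
      rw [ModularGroup.denom_apply, smul_gM_zero]
      have : ((γ 1 0 : ℤ) : ℂ) = r.den := by rw [hγ1]; push_cast; rfl
      rw [this]
      ring
    have hu0 : ∀ k, u k ≠ 0 := fun k ↦ denom_ne_zero _ (w k)
    have hutend : Tendsto (fun k ↦ ‖u k‖) atTop atTop := by
      have h1 : Tendsto (fun k : ℕ ↦ (r.den : ℝ) * (k : ℝ)) atTop atTop :=
        (tendsto_natCast_atTop_atTop).const_mul_atTop (by linarith)
      have h2 : Tendsto (fun k : ℕ ↦ (r.den : ℝ) * (k : ℝ) -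
          ‖(r.den : ℂ) * τ + ((γ 1 1 : ℤ) : ℂ)‖) atTop atTop :=
        tendsto_atTop_add_const_right _ _ h1
      refine tendsto_atTop_mono (fun k ↦ ?_) h2
      rw [hu_eq]
      have h3 : ‖(r.den : ℂ) * (k : ℂ)‖ = (r.den : ℝ) * k := by
        rw [norm_mul, Complex.norm_natCast, Complex.norm_natCast]
      rw [← h3]
      have h4 := norm_sub_le (((r.den : ℂ) * (k : ℂ)) + ((r.den : ℂ) * τ + ((γ 1 1 : ℤ) : ℂ)))
        ((r.den : ℂ) * τ + ((γ 1 1 : ℤ) : ℂ))
      rw [add_sub_cancel_right] at h4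
      linarith
    have hx0 : Tendsto (fun k ↦ (u k)⁻¹) atTop (𝓝 0) := by
      rw [tendsto_zero_iff_norm_tendsto_zero]
      simp only [norm_inv]
      exact tendsto_inv_atTop_zero.comp hutend
    have hx : Tendsto (fun k ↦ (u k)⁻¹) atTop (𝓝[≠] 0) :=
      tendsto_nhdsWithin_iff.mpr ⟨hx0, Eventually.of_forall fun k ↦ inv_ne_zero (hu0 k)⟩
    refine hx.frequently (Eventually.frequently ?_)
    have hball' : ∀ᶠ k in atTop, (u k)⁻¹ ∈ ball (0 : ℂ) ε :=
      hx0.eventually (ball_mem_nhds 0 hε)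
    filter_upwards [hball'] with k hk
    have h1 : ((γ • w k : ℍ) : ℂ) = r - (u k)⁻¹ / r.den := by
      have hk0 := hu0 k
      rw [smul_gamma hγ0 hγ1]
      change (r : ℂ) - 1 / (r.den * u k) = _
      field_simp
    have h2 := (hball _ (hmem _ hk)).2
    rw [← h1] at h2
    have h3 := h2 (γ • w k).im_pos
    have hden : denom ((gM 0 k : SL(2, ℤ)) : GL (Fin 2) ℝ) τ = 1 := by
      rw [denom_gM]; simp
    have f2 : E2 (w k) = E2 τ := by
      rw [hw]
      simp only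
      rw [E2_smul, hden, gM_10]
      simp
    have f4 : E₄ (w k) = E₄ τ := by
      have := WInv_E4 (gM 0 k) τ
      simp only at this
      rw [hw]
      simp only
      rw [this, hden]
      simp
    have f6 : E₆ (w k) = E₆ τ := by
      have := WInv_E6 (gM 0 k) τ
      simp only at this
      rw [hw]
      simp only
      rw [this, hden]
      simp
    have g2 : e2 (γ • w k : ℍ) = u k ^ 2 * E2 τ - κ * u k := by
      rw [e2, ofComplex_apply, E2_smul, f2, hγ1, hκ]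
      push_cast
      ring
    have g4 : e4 (γ • w k : ℍ) = u k ^ 4 * E₄ τ := by
      have := WInv_E4 γ (w k)
      simp only at this
      rw [e4, ofComplex_apply, this, f4]
    have g6 : e6 (γ • w k : ℍ) = u k ^ 6 * E₆ τ := by
      have := WInv_E6 γ (w k)
      simp only at this
      rw [e6, ofComplex_apply, this, f6]
    rw [g2, g4, g6] at h3
    have h4 : f τ (u k)⁻¹ = ((u k)⁻¹) ^ W * ∑ ν ∈ S, c ν ↑(γ • w k : ℍ) *
        ((u k ^ 2 * E2 τ - κ * u k) ^ ν 0 * (u k ^ 4 * E₄ τ) ^ ν 1 * (u k ^ 6 * E₆ τ) ^ ν 2) := by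
      rw [Finset.mul_sum, hf]
      refine Finset.sum_congr rfl fun ν hν ↦ ?_
      rw [h1]
      have h5 := hu0 k
      have h6 : (u k ^ 2 * E2 τ - κ * u k) ^ ν 0 * (u k ^ 4 * E₄ τ) ^ ν 1 * (u k ^ 6 * E₆ τ) ^ ν 2 =
          u k ^ (2 * ν 0 + 4 * ν 1 + 6 * ν 2) *
          ((E2 τ - κ * (u k)⁻¹) ^ ν 0 * E₄ τ ^ ν 1 * E₆ τ ^ ν 2) := by
        have e : u k ^ 2 * E2 τ - κ * u k = u k ^ 2 * (E2 τ - κ * (u k)⁻¹) := by
          field_simp
        rw [e, mul_pow, mul_pow, mul_pow, ← pow_mul, ← pow_mul, ← pow_mul, pow_add, pow_add]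
        ring
      rw [h6]
      have h7 : ((u k)⁻¹) ^ W = ((u k)⁻¹) ^ (W - (2 * ν 0 + 4 * ν 1 + 6 * ν 2)) *
          ((u k)⁻¹) ^ (2 * ν 0 + 4 * ν 1 + 6 * ν 2) := by
        rw [← pow_add, Nat.sub_add_cancel (hWν ν hν)]
      rw [h7]
      have h8 : ((u k)⁻¹) ^ (2 * ν 0 + 4 * ν 1 + 6 * ν 2) * u k ^ (2 * ν 0 + 4 * ν 1 + 6 * ν 2) = 1 := by
        rw [← mul_pow, inv_mul_cancel₀ h5, one_pow]
      linear_combination (-(c ν (r - (u k)⁻¹ / r.den)) * (u k)⁻¹ ^ (W - (2 * ν 0 + 4 * ν 1 + 6 * ν 2)) *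
        ((E2 τ - κ * (u k)⁻¹) ^ ν 0 * E₄ τ ^ ν 1 * E₆ τ ^ ν 2)) * h8
    rw [h4, h3, mul_zero]
  -- independence
  have hcz : ∀ x ∈ ball (0 : ℂ) ε, x ≠ 0 → ∀ ν ∈ S, c ν (r - x / r.den) = 0 := by
    intro x hx hx0
    set a : (Fin 3 → ℕ) → ℂ := fun ν ↦ c ν (r - x / r.den) *
      x ^ (W - (2 * ν 0 + 4 * ν 1 + 6 * ν 2)) with ha
    set P : MvPolynomial (Fin 4) ℂ := ∑ ν ∈ S, C (a ν) *
      ((X 1 - C (κ * x)) ^ ν 0 * X 2 ^ ν 1 * X 3 ^ ν 2) with hP
    have hPev : ∀ t x' y z : ℂ, aeval ![t, x', y, z] P =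
        ∑ ν ∈ S, a ν * ((x' - κ * x) ^ ν 0 * y ^ ν 1 * z ^ ν 2) := by
      intro t x' y z
      rw [hP, map_sum]
      refine Finset.sum_congr rfl fun ν _ ↦ ?_
      simp
    have hP0 : P = 0 := by
      apply indep_H
      intro τ
      rw [hPev]
      have := hzero τ hx
      exact this
    have h1 : ∀ ν ∈ S, a ν = 0 := by
      apply coeff_zero_of_eval
      intro x' y z
      have h2 := hPev 0 (x' + κ * x) y z
      rw [hP0, map_zero, add_sub_cancel_right] at h2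
      exact h2.symm
    intro ν hν
    have h2 := h1 ν hν
    exact (mul_eq_zero.mp h2).resolve_right (pow_ne_zero _ hx0)
  intro ν hν
  have hfreq : ∃ᶠ τ in 𝓝[≠] (r : ℂ), c ν τ = 0 := by
    apply Eventually.frequently
    rw [eventually_nhdsWithin_iff]
    have h1 : ∀ᶠ τ in 𝓝 (r : ℂ), (r.den : ℂ) * (r - τ) ∈ ball (0 : ℂ) ε := by
      have h2 : Continuous fun τ : ℂ ↦ (r.den : ℂ) * (r - τ) := by fun_prop
      have h3 := h2.tendsto (r : ℂ)
      simp only [sub_self, mul_zero] at h3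
      exact h3.eventually (ball_mem_nhds 0 hε)
    filter_upwards [h1] with τ h2 h3
    have h4 : (r.den : ℂ) * (r - τ) ≠ 0 := mul_ne_zero hN (sub_ne_zero.mpr (Ne.symm h3))
    have h5 := hcz _ h2 h4 ν hν
    have h6 : (r : ℂ) - (r.den : ℂ) * (r - τ) / r.den = τ := by
      field_simp
      ring
    rwa [h6] at h5
  exact ((hc ν hν).frequently_zero_iff_eventually_zero).mp hfreq

end H32

end S_BL

section S_Geom

/-!
# Moebius maps and their boundary circles
-/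

open Complex Filter Metric
open scoped Topology

namespace H32

/-- A Moebius map. -/
structure Mo where
  /-- entry -/
  a : ℂ
  /-- entry -/
  b : ℂ
  /-- entry -/
  c : ℂ
  /-- entry -/
  d : ℂ
  det : a * d - b * c ≠ 0

namespace Mo

/-- The value of a Moebius map. -/
noncomputable def ev (g : Mo) (s : ℂ) : ℂ := (g.a * s + g.b) / (g.c * s + g.d)

/-- The inverse of a Moebius map. -/
noncomputable def iv (g : Mo) (w : ℂ) : ℂ := (g.d * w - g.b) / (g.a - g.c * w)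

/-- The preimage of the upper half plane. -/
def D (g : Mo) : Set ℂ := {s | 0 < (g.ev s).im}

variable (g : Mo)

lemma den_ne {s : ℂ} (h : s ∈ g.D) : g.c * s + g.d ≠ 0 := by
  intro h0
  have h1 : 0 < (g.ev s).im := h
  rw [ev, h0, div_zero] at h1
  simp at h1

lemma sub_ne {s : ℂ} (h : g.c * s + g.d ≠ 0) : g.a - g.c * g.ev s ≠ 0 := by
  have h1 : g.a - g.c * g.ev s = (g.a * g.d - g.b * g.c) / (g.c * s + g.d) := by
    rw [ev]; field_simp; ring
  rw [h1]
  exact div_ne_zero g.det h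

lemma iv_ev {s : ℂ} (h : g.c * s + g.d ≠ 0) : g.iv (g.ev s) = s := by
  have e : g.ev s * (g.c * s + g.d) = g.a * s + g.b := div_mul_cancel₀ _ h
  rw [iv, div_eq_iff (g.sub_ne h)]
  linear_combination e

lemma den_iv {w : ℂ} (h : g.a - g.c * w ≠ 0) : g.c * g.iv w + g.d ≠ 0 := by
  have h1 : g.c * g.iv w + g.d = (g.a * g.d - g.b * g.c) / (g.a - g.c * w) := by
    rw [iv]; field_simp; ring
  rw [h1]
  exact div_ne_zero g.det h

lemma ev_iv {w : ℂ} (h : g.a - g.c * w ≠ 0) : g.ev (g.iv w) = w := by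
  have h1 := g.den_iv h
  have e : g.iv w * (g.a - g.c * w) = g.d * w - g.b := div_mul_cancel₀ _ h
  rw [ev, div_eq_iff h1]
  linear_combination e

lemma analytic_ev {s : ℂ} (h : g.c * s + g.d ≠ 0) : AnalyticAt ℂ g.ev s := by
  unfold ev
  have h1 : AnalyticAt ℂ (fun s ↦ g.a * s + g.b) s := by fun_prop
  have h2 : AnalyticAt ℂ (fun s ↦ g.c * s + g.d) s := by fun_prop
  exact h1.fun_div h2 h

lemma analytic_iv {w : ℂ} (h : g.a - g.c * w ≠ 0) : AnalyticAt ℂ g.iv w := by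
  unfold iv
  have h1 : AnalyticAt ℂ (fun w ↦ g.d * w - g.b) w := by fun_prop
  have h2 : AnalyticAt ℂ (fun w ↦ g.a - g.c * w) w := by fun_prop
  exact h1.fun_div h2 h

lemma eventually_den {s : ℂ} (h : g.c * s + g.d ≠ 0) : ∀ᶠ x in 𝓝 s, g.c * x + g.d ≠ 0 := by
  have h1 : Continuous fun x ↦ g.c * x + g.d := by fun_prop
  exact h1.continuousAt.eventually_ne h

lemma eventually_sub {w : ℂ} (h : g.a - g.c * w ≠ 0) : ∀ᶠ x in 𝓝 w, g.a - g.c * x ≠ 0 := by
  have h1 : Continuous fun x ↦ g.a - g.c * x := by fun_prop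
  exact h1.continuousAt.eventually_ne h

lemma isOpen_D : IsOpen g.D := by
  rw [isOpen_iff_mem_nhds]
  intro s hs
  have h1 := (g.analytic_ev (g.den_ne hs)).continuousAt
  have h2 : ContinuousAt (fun s ↦ (g.ev s).im) s := Complex.continuous_im.continuousAt.comp h1
  exact h2.eventually_const_lt hs

/-- the pole set -/
lemma finite_pole : {s : ℂ | g.c * s + g.d = 0}.Finite := by
  refine (Set.finite_singleton (-g.d / g.c)).subset ?_
  intro s hs
  simp only [Set.mem_ofPred_eq] at hs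
  have hd := g.det
  have hc : g.c ≠ 0 := by
    intro h
    rw [h, zero_mul, zero_add] at hs
    rw [h, hs] at hd
    simp at hd
  rw [Set.mem_singleton_iff, eq_div_iff hc]
  linear_combination hs

lemma exists_neg : ∃ s : ℂ, g.c * s + g.d ≠ 0 ∧ (g.ev s).im < 0 := by
  have hw : ∃ w : ℂ, w.im < 0 ∧ g.a - g.c * w ≠ 0 := by
    by_cases h : g.a - g.c * (-I) ≠ 0
    · exact ⟨-I, by simp, h⟩
    · push Not at h
      refine ⟨-2 * I, by simp, fun h2 ↦ ?_⟩
      have h3 : g.c * I = 0 := by linear_combination h2 - h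
      have h4 : g.c = 0 := (mul_eq_zero.mp h3).resolve_right Complex.I_ne_zero
      have h5 : g.a = 0 := by rw [h4] at h; simpa using h
      have := g.det
      rw [h4, h5] at this
      simp at this
  obtain ⟨w, h1, h2⟩ := hw
  exact ⟨g.iv w, g.den_iv h2, by rw [g.ev_iv h2]; exact h1⟩

end Mo

lemma exists_dir {g : Mo} (h0 : 0 ∈ g.D) (B : Set ℂ) (hB : B.Finite) (hB0 : (0 : ℂ) ∉ B) :
    ∃ s : ℂ, s ∉ g.D ∧ ∀ l : ℝ, (l : ℂ) * s ∉ B := by
  obtain ⟨sc, hsc, him⟩ := g.exists_neg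
  have hsc0 : sc ≠ 0 := by
    rintro rfl
    have : 0 < (g.ev 0).im := h0
    linarith
  have hev : ∀ᶠ x : ℝ in 𝓝 0, (g.ev (sc * (1 + x * I))).im < 0 := by
    have h1 : ContinuousAt (fun x : ℝ ↦ sc * (1 + (x : ℂ) * I)) 0 := by
      apply Continuous.continuousAt
      fun_prop
    have h2 : ContinuousAt g.ev (sc * (1 + ((0 : ℝ) : ℂ) * I)) := by
      have : sc * (1 + ((0 : ℝ) : ℂ) * I) = sc := by simp
      rw [this]
      exact (g.analytic_ev hsc).continuousAt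
    have h3 : ContinuousAt (fun x : ℝ ↦ (g.ev (sc * (1 + x * I))).im) 0 :=
      Complex.continuous_im.continuousAt.comp
        (ContinuousAt.comp (g := g.ev) (f := fun x : ℝ ↦ sc * (1 + (x : ℂ) * I)) h2 h1)
    have h4 : (g.ev (sc * (1 + ((0 : ℝ) : ℂ) * I))).im < 0 := by simpa using him
    exact h3.eventually_lt_const h4
  obtain ⟨δ, hδ, hball⟩ := Metric.eventually_nhds_iff_ball.mp hev
  set bad : Set ℝ := (fun b : ℂ ↦ -(sc * (starRingEnd ℂ) b).im / (sc * (starRingEnd ℂ) b).re) '' B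
    with hbad
  have hbadfin : bad.Finite := hB.image _
  obtain ⟨x, hx, hxb⟩ := (Set.Ioo_infinite (show (0 : ℝ) < δ from hδ)).exists_notMem_finite hbadfin
  refine ⟨sc * (1 + x * I), ?_, ?_⟩
  · intro h
    have h1 : 0 < (g.ev (sc * (1 + x * I))).im := h
    have h2 := hball x (by
      rw [mem_ball_zero_iff, Real.norm_eq_abs, abs_of_pos hx.1]; exact hx.2)
    linarith
  · intro l hl
    apply hxb
    have hb0 : (l : ℂ) * (sc * (1 + x * I)) ≠ 0 := fun h ↦ hB0 (h ▸ hl)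
    refine ⟨_, hl, ?_⟩
    have hl0 : l ≠ 0 := by
      rintro rfl
      simp at hb0
    set b := (l : ℂ) * (sc * (1 + x * I)) with hb
    have hns : (0 : ℝ) < Complex.normSq sc := Complex.normSq_pos.mpr hsc0
    have e1 : sc * (starRingEnd ℂ) b = ((l * Complex.normSq sc : ℝ) : ℂ) * (1 - x * I) := by
      rw [hb]
      simp only [map_mul, map_add, map_one, Complex.conj_ofReal, Complex.conj_I]
      push_cast
      rw [← Complex.mul_conj]
      ring
    simp only [e1]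
    have e2 : (((l * Complex.normSq sc : ℝ) : ℂ) * (1 - x * I)).im = -(l * Complex.normSq sc * x) := by
      simp
    have e3 : (((l * Complex.normSq sc : ℝ) : ℂ) * (1 - x * I)).re = l * Complex.normSq sc := by
      simp
    rw [e2, e3]
    have : l * Complex.normSq sc ≠ 0 := mul_ne_zero hl0 hns.ne'
    field_simp

lemma seg_mem {X : Set ℂ} {s : ℂ} {T : ℝ} (hT : 0 ≤ T)
    (h : ∀ l : ℝ, 0 ≤ l → l ≤ T → (l : ℂ) * s ∈ X) : (T : ℂ) * s ∈ connectedComponentIn X 0 := by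
  have h1 : IsPreconnected ((fun l : ℝ ↦ (l : ℂ) * s) '' Set.Icc 0 T) := by
    refine isPreconnected_Icc.image _ (Continuous.continuousOn ?_)
    fun_prop
  have h2 : (0 : ℂ) ∈ (fun l : ℝ ↦ (l : ℂ) * s) '' Set.Icc 0 T :=
    ⟨0, ⟨le_rfl, hT⟩, by simp⟩
  refine h1.subset_connectedComponentIn h2 ?_ ⟨T, ⟨hT, le_rfl⟩, rfl⟩
  rintro _ ⟨l, hl, rfl⟩
  exact h l hl.1 hl.2

lemma exists_exit {ι : Type*} [DecidableEq ι] (g : ι → Mo) (J : Finset ι) (hJ : J.Nonempty)
    (h0 : ∀ i ∈ J, (0 : ℂ) ∈ (g i).D)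
    (hfin : ∀ i ∈ J, ∀ j ∈ J, i ≠ j → {s : ℂ | (g i).c * s + (g i).d ≠ 0 ∧
      (g j).c * s + (g j).d ≠ 0 ∧ ((g i).ev s).im = 0 ∧ ((g j).ev s).im = 0}.Finite) :
    ∃ j ∈ J, ∃ (r : ℚ) (s₀ : ℂ), (g j).c * s₀ + (g j).d ≠ 0 ∧ (g j).ev s₀ = r ∧
      s₀ ∈ connectedComponentIn (⋂ i ∈ J.erase j, (g i).D) 0 ∧
      ∀ᶠ s in 𝓝 s₀, 0 < ((g j).ev s).im → s ∈ connectedComponentIn (⋂ i ∈ J, (g i).D) 0 := by
  classical
  obtain ⟨j₁, hj₁⟩ := hJ
  set U : Set ℂ := ⋂ i ∈ J, (g i).D with hU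
  have hUo : IsOpen U := isOpen_biInter_finset fun i _ ↦ (g i).isOpen_D
  set B : Set ℂ := (⋃ i ∈ J, {s : ℂ | (g i).c * s + (g i).d = 0}) ∪
    ⋃ i ∈ J, ⋃ j ∈ J, ⋃ (_ : i ≠ j), {s : ℂ | (g i).c * s + (g i).d ≠ 0 ∧
      (g j).c * s + (g j).d ≠ 0 ∧ ((g i).ev s).im = 0 ∧ ((g j).ev s).im = 0} with hB
  have hBfin : B.Finite := by
    refine Set.Finite.union ?_ ?_
    · exact J.finite_toSet.biUnion fun i _ ↦ (g i).finite_pole
    · refine J.finite_toSet.biUnion fun i hi ↦ J.finite_toSet.biUnion fun j hj ↦ ?_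
      exact Set.finite_iUnion fun h ↦ hfin i hi j hj h
  have hB0 : (0 : ℂ) ∉ B := by
    intro h
    rcases h with h | h
    · simp only [Set.mem_iUnion] at h
      obtain ⟨i, hi, h⟩ := h
      exact (g i).den_ne (h0 i hi) h
    · simp only [Set.mem_iUnion] at h
      obtain ⟨i, hi, j, hj, hij, -, -, h, -⟩ := h
      have h1 : 0 < ((g i).ev 0).im := h0 i hi
      linarith
  obtain ⟨s₂, hs₂, hs₂B⟩ := exists_dir (h0 j₁ hj₁) B hBfin hB0
  have hcontl : Continuous fun l : ℝ ↦ (l : ℂ) * s₂ := by fun_prop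
  set E : Set ℝ := Set.Icc 0 1 ∩ {l : ℝ | (l : ℂ) * s₂ ∉ U} with hE
  have hEc : IsCompact E := by
    refine isCompact_Icc.inter_right ?_
    exact (hUo.isClosed_compl).preimage hcontl
  have hEne : E.Nonempty := by
    refine ⟨1, ⟨zero_le_one, le_rfl⟩, fun h ↦ hs₂ ?_⟩
    have h1 := Set.mem_iInter₂.mp h j₁ hj₁
    simpa using h1
  set T : ℝ := sInf E with hT
  have hTE : T ∈ E := hEc.sInf_mem hEne
  have hlt : ∀ l : ℝ, 0 ≤ l → l < T → (l : ℂ) * s₂ ∈ U := by
    intro l hl0 hlT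
    by_contra hcon
    have h1 : l ∈ E := ⟨⟨hl0, hlT.le.trans hTE.1.2⟩, hcon⟩
    have h2 : T ≤ l := csInf_le hEc.bddBelow h1
    linarith
  have hT0 : 0 < T := by
    rcases lt_or_eq_of_le hTE.1.1 with h | h
    · exact h
    · exfalso
      apply hTE.2
      rw [← h]
      simp only [Complex.ofReal_zero, zero_mul]
      exact Set.mem_iInter₂.mpr h0
  set s₁ : ℂ := (T : ℂ) * s₂ with hs₁
  have hs₁B : s₁ ∉ B := hs₂B T
  have hden : ∀ i ∈ J, (g i).c * s₁ + (g i).d ≠ 0 := by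
    intro i hi h
    apply hs₁B
    left
    simp only [Set.mem_iUnion]
    exact ⟨i, hi, h⟩
  have htend : ∀ i ∈ J, Tendsto (fun l : ℝ ↦ (g i).ev ((l : ℂ) * s₂)) (𝓝[<] T)
      (𝓝 ((g i).ev s₁)) := by
    intro i hi
    have h1 : ContinuousAt (fun l : ℝ ↦ (g i).ev ((l : ℂ) * s₂)) T :=
      ContinuousAt.comp (g := (g i).ev) (f := fun l : ℝ ↦ (l : ℂ) * s₂)
        ((g i).analytic_ev (hden i hi)).continuousAt hcontl.continuousAt
    exact h1.mono_left nhdsWithin_le_nhds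
  have hevlt : ∀ᶠ l : ℝ in 𝓝[<] T, 0 < l ∧ l < T := by
    have h1 : ∀ᶠ l : ℝ in 𝓝[<] T, 0 < l := nhdsWithin_le_nhds (lt_mem_nhds hT0)
    exact h1.and self_mem_nhdsWithin
  have hnonneg : ∀ i ∈ J, 0 ≤ ((g i).ev s₁).im := by
    intro i hi
    have h1 : Tendsto (fun l : ℝ ↦ ((g i).ev ((l : ℂ) * s₂)).im) (𝓝[<] T)
        (𝓝 ((g i).ev s₁).im) := (Complex.continuous_im.tendsto _).comp (htend i hi)
    refine ge_of_tendsto h1 ?_
    filter_upwards [hevlt] with l hl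
    have h2 := Set.mem_iInter₂.mp (hlt l hl.1.le hl.2) i hi
    exact le_of_lt h2
  obtain ⟨j, hj, hjD⟩ : ∃ j ∈ J, s₁ ∉ (g j).D := by
    by_contra hcon
    push Not at hcon
    exact hTE.2 (Set.mem_iInter₂.mpr hcon)
  have hjim : ((g j).ev s₁).im = 0 := by
    have h1 : ¬ 0 < ((g j).ev s₁).im := hjD
    have h2 := hnonneg j hj
    linarith
  have hiD : ∀ i ∈ J.erase j, s₁ ∈ (g i).D := by
    intro i hi
    rw [Finset.mem_erase] at hi
    refine lt_of_le_of_ne (hnonneg i hi.2) fun h ↦ hs₁B ?_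
    right
    simp only [Set.mem_iUnion]
    exact ⟨i, hi.2, j, hj, hi.1, hden i hi.2, hden j hj, h.symm, hjim⟩
  set U' : Set ℂ := ⋂ i ∈ J.erase j, (g i).D with hU'
  have hU'o : IsOpen U' := isOpen_biInter_finset fun i _ ↦ (g i).isOpen_D
  have hUU' : U ⊆ U' := fun s hs ↦ Set.mem_iInter₂.mpr fun i hi ↦
    Set.mem_iInter₂.mp hs i (Finset.mem_of_mem_erase hi)
  have hs₁U' : s₁ ∈ U' := Set.mem_iInter₂.mpr hiD
  have hs₁C : s₁ ∈ connectedComponentIn U' 0 := by
    refine seg_mem hT0.le fun l hl0 hlT ↦ ?_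
    rcases lt_or_eq_of_le hlT with h | h
    · exact hUU' (hlt l hl0 h)
    · rw [h]; exact hs₁U'
  set x₁ : ℝ := ((g j).ev s₁).re with hx₁
  have hx₁e : (g j).ev s₁ = x₁ := by
    apply Complex.ext
    · simp [hx₁]
    · simp [hjim]
  have hsub : (g j).a - (g j).c * (x₁ : ℂ) ≠ 0 := by
    rw [← hx₁e]; exact (g j).sub_ne (hden j hj)
  have hiv : (g j).iv x₁ = s₁ := by
    rw [← hx₁e]; exact (g j).iv_ev (hden j hj)
  have hnear : ∀ᶠ w in 𝓝 (x₁ : ℂ), (g j).a - (g j).c * w ≠ 0 ∧ (g j).iv w ∈ U' := by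
    refine ((g j).eventually_sub hsub).and ?_
    have h1 := ((g j).analytic_iv hsub).continuousAt
    have h2 : U' ∈ 𝓝 ((g j).iv x₁) := by rw [hiv]; exact hU'o.mem_nhds hs₁U'
    exact h1.eventually h2
  obtain ⟨ε, hε, hball⟩ := Metric.eventually_nhds_iff_ball.mp hnear
  have hcontiv : ContinuousOn (g j).iv (ball (x₁ : ℂ) ε) := fun w hw ↦
    ((g j).analytic_iv (hball w hw).1).continuousAt.continuousWithinAt
  -- the full neighbourhood
  have hV : ∀ w ∈ ball (x₁ : ℂ) ε, (g j).iv w ∈ connectedComponentIn U' 0 := by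
    have h1 : IsPreconnected ((g j).iv '' ball (x₁ : ℂ) ε) :=
      (convex_ball (x₁ : ℂ) ε).isPreconnected.image _ hcontiv
    have h2 : s₁ ∈ (g j).iv '' ball (x₁ : ℂ) ε := ⟨x₁, mem_ball_self hε, hiv⟩
    have h3 : (g j).iv '' ball (x₁ : ℂ) ε ⊆ U' := by
      rintro _ ⟨w, hw, rfl⟩
      exact (hball w hw).2
    have h4 := h1.subset_connectedComponentIn h2 h3
    rw [← connectedComponentIn_eq hs₁C] at h4
    exact fun w hw ↦ h4 ⟨w, hw, rfl⟩
  -- the half neighbourhood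
  have hVp : ∀ w ∈ ball (x₁ : ℂ) ε ∩ {w | 0 < w.im}, (g j).iv w ∈ connectedComponentIn U 0 := by
    have h1 : IsPreconnected ((g j).iv '' (ball (x₁ : ℂ) ε ∩ {w | 0 < w.im})) :=
      ((convex_ball (x₁ : ℂ) ε).inter (convex_halfSpace_im_gt 0)).isPreconnected.image _
        (hcontiv.mono Set.inter_subset_left)
    have h3 : (g j).iv '' (ball (x₁ : ℂ) ε ∩ {w | 0 < w.im}) ⊆ U := by
      rintro _ ⟨w, hw, rfl⟩
      refine Set.mem_iInter₂.mpr fun i hi ↦ ?_
      by_cases hij : i = j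
      · subst hij
        change 0 < ((g i).ev ((g i).iv w)).im
        rw [(g i).ev_iv (hball w hw.1).1]
        exact hw.2
      · exact Set.mem_iInter₂.mp (hball w hw.1).2 i (Finset.mem_erase.mpr ⟨hij, hi⟩)
    have h5 : ∀ᶠ l : ℝ in 𝓝[<] T, (g j).ev ((l : ℂ) * s₂) ∈ ball (x₁ : ℂ) ε := by
      have := htend j hj
      rw [hx₁e] at this
      exact this.eventually (ball_mem_nhds _ hε)
    obtain ⟨l, hl1, hl2⟩ := (h5.and hevlt).exists
    have hlU : (l : ℂ) * s₂ ∈ U := hlt l hl2.1.le hl2.2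
    have hlC : (l : ℂ) * s₂ ∈ connectedComponentIn U 0 :=
      seg_mem hl2.1.le fun l' h0' h1' ↦ hlt l' h0' (lt_of_le_of_lt h1' hl2.2)
    have hlD : (l : ℂ) * s₂ ∈ (g j).D := Set.mem_iInter₂.mp hlU j hj
    have h2 : (l : ℂ) * s₂ ∈ (g j).iv '' (ball (x₁ : ℂ) ε ∩ {w | 0 < w.im}) :=
      ⟨(g j).ev ((l : ℂ) * s₂), ⟨hl1, hlD⟩, (g j).iv_ev ((g j).den_ne hlD)⟩
    have h4 := h1.subset_connectedComponentIn h2 h3
    rw [← connectedComponentIn_eq hlC] at h4
    exact fun w hw ↦ h4 ⟨w, hw, rfl⟩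
  -- the rational point
  obtain ⟨r, hr1, hr2⟩ := exists_rat_btwn (show x₁ < x₁ + ε by linarith)
  have hrball : (r : ℂ) ∈ ball (x₁ : ℂ) ε := by
    rw [mem_ball_iff_norm]
    have h1 : (r : ℂ) - (x₁ : ℂ) = (((r : ℝ) - x₁ : ℝ) : ℂ) := by push_cast; rfl
    rw [h1, Complex.norm_real, Real.norm_eq_abs, abs_of_pos (by linarith)]
    linarith
  have hrsub := (hball _ hrball).1
  refine ⟨j, hj, r, (g j).iv r, (g j).den_iv hrsub, (g j).ev_iv hrsub, hV _ hrball, ?_⟩
  have hd0 := (g j).den_iv hrsub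
  have h1 : ∀ᶠ s in 𝓝 ((g j).iv r), (g j).ev s ∈ ball (x₁ : ℂ) ε := by
    have h2 := ((g j).analytic_ev hd0).continuousAt
    refine h2.eventually ?_
    rw [(g j).ev_iv hrsub]
    exact isOpen_ball.mem_nhds hrball
  filter_upwards [h1, (g j).eventually_den hd0] with s hs1 hs2 hs3
  have h2 := hVp ((g j).ev s) ⟨hs1, hs3⟩
  rwa [(g j).iv_ev hs2] at h2

end H32

end S_Geom

section S_FT1

/-!
# Functional independence along a line
-/

open Complex Filter Metric
open scoped Topology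

namespace H32

/-- The monomial in `e2, e4, e6` at a point. -/
noncomputable def mon (ν : Fin 3 → ℕ) (w : ℂ) : ℂ := e2 w ^ ν 0 * e4 w ^ ν 1 * e6 w ^ ν 2

lemma analytic_mon (ν : Fin 3 → ℕ) {w : ℂ} (hw : 0 < w.im) : AnalyticAt ℂ (mon ν) w := by
  have h2 : AnalyticAt ℂ e2 w := analytic_E2 w hw
  have h4 : AnalyticAt ℂ e4 w := analytic_E4 w hw
  have h6 : AnalyticAt ℂ e6 w := analytic_E6 w hw
  exact ((h2.fun_pow _).fun_mul (h4.fun_pow _)).fun_mul (h6.fun_pow _)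

lemma analytic_mon_ev (ν : Fin 3 → ℕ) {g : Mo} {s : ℂ} (hs : s ∈ g.D) :
    AnalyticAt ℂ (fun s ↦ mon ν (g.ev s)) s :=
  AnalyticAt.fun_comp (g := mon ν) (f := g.ev) (analytic_mon ν hs) (g.analytic_ev (g.den_ne hs))

theorem FT1 {ι T : Type*} [DecidableEq ι] (g : ι → Mo) (h0 : ∀ i, (0 : ℂ) ∈ (g i).D)
    (hfin : ∀ i j, i ≠ j → {s : ℂ | (g i).c * s + (g i).d ≠ 0 ∧
      (g j).c * s + (g j).d ≠ 0 ∧ ((g i).ev s).im = 0 ∧ ((g j).ev s).im = 0}.Finite)
    (e : T → ι → Fin 3 → ℕ) (c : T → ℂ → ℂ) (hc : ∀ μ, AnalyticOnNhd ℂ (c μ) Set.univ) (k : ℕ) :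
    ∀ (J : Finset ι) (_ : J.card = k) (S : Finset T)
      (_ : ∀ μ ∈ S, ∀ μ' ∈ S, (∀ j ∈ J, e μ j = e μ' j) → μ = μ')
      (_ : ∀ᶠ s in 𝓝 (0 : ℂ), ∑ μ ∈ S, c μ s * ∏ j ∈ J, mon (e μ j) ((g j).ev s) = 0),
      ∀ μ ∈ S, ∀ᶠ s in 𝓝 (0 : ℂ), c μ s = 0 := by
  classical
  induction k with
  | zero =>
    intro J hJ S hinj h μ hμ
    have hJe : J = ∅ := Finset.card_eq_zero.mp hJ
    subst hJe
    have hS : S = {μ} := by
      ext μ'
      rw [Finset.mem_singleton]
      refine ⟨fun h' ↦ hinj μ' h' μ hμ (by simp), fun h' ↦ h' ▸ hμ⟩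
    rw [hS] at h
    filter_upwards [h] with s hs
    simpa using hs
  | succ k ih =>
    intro J hJ S hinj h μ₀ hμ₀
    have hJne : J.Nonempty := by
      rw [← Finset.card_pos, hJ]; omega
    obtain ⟨j, hj, r, s₀, hd0, hev0, hs₀C, hexit⟩ :=
      exists_exit g J hJne (fun i _ ↦ h0 i) (fun i _ i' _ hii ↦ hfin i i' hii)
    set U : Set ℂ := ⋂ i ∈ J, (g i).D with hU
    set U' : Set ℂ := ⋂ i ∈ J.erase j, (g i).D with hU'
    have hUo : IsOpen U := isOpen_biInter_finset fun i _ ↦ (g i).isOpen_D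
    have hU'o : IsOpen U' := isOpen_biInter_finset fun i _ ↦ (g i).isOpen_D
    have h0U : (0 : ℂ) ∈ U := Set.mem_iInter₂.mpr fun i _ ↦ h0 i
    have h0U' : (0 : ℂ) ∈ U' := Set.mem_iInter₂.mpr fun i _ ↦ h0 i
    -- the whole sum vanishes on the component
    set F : ℂ → ℂ := fun s ↦ ∑ μ ∈ S, c μ s * ∏ j ∈ J, mon (e μ j) ((g j).ev s) with hF
    have hFana : AnalyticOnNhd ℂ F U := by
      intro s hs
      refine Finset.analyticAt_fun_sum _ fun μ _ ↦ ?_
      refine (hc μ s trivial).fun_mul (Finset.analyticAt_fun_prod _ fun i hi ↦ ?_)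
      exact analytic_mon_ev _ (Set.mem_iInter₂.mp hs i hi)
    have hF0 : Set.EqOn F 0 (connectedComponentIn U 0) :=
      (hFana.mono (connectedComponentIn_subset U 0)).eqOn_zero_of_preconnected_of_eventuallyEq_zero
        isPreconnected_connectedComponentIn (mem_connectedComponentIn h0U) h
    -- the coefficients with respect to the point j
    set Cf : (Fin 3 → ℕ) → ℂ → ℂ := fun ν s ↦ ∑ μ ∈ S.filter (fun μ ↦ e μ j = ν),
      c μ s * ∏ i ∈ J.erase j, mon (e μ i) ((g i).ev s) with hCf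
    have hCana : ∀ ν, AnalyticOnNhd ℂ (Cf ν) U' := by
      intro ν s hs
      refine Finset.analyticAt_fun_sum _ fun μ _ ↦ ?_
      refine (hc μ s trivial).fun_mul (Finset.analyticAt_fun_prod _ fun i hi ↦ ?_)
      exact analytic_mon_ev _ (Set.mem_iInter₂.mp hs i hi)
    have hFC : ∀ s, F s = ∑ ν ∈ S.image (fun μ ↦ e μ j), Cf ν s * mon ν ((g j).ev s) := by
      intro s
      rw [hF]
      simp only
      rw [← Finset.sum_fiberwise_of_maps_to (t := S.image (fun μ ↦ e μ j)) (g := fun μ ↦ e μ j)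
        (fun μ hμ ↦ Finset.mem_image_of_mem _ hμ)]
      refine Finset.sum_congr rfl fun ν _ ↦ ?_
      rw [hCf]
      simp only
      rw [Finset.sum_mul]
      refine Finset.sum_congr rfl fun μ hμ ↦ ?_
      rw [← Finset.prod_erase_mul J _ hj, (Finset.mem_filter.mp hμ).2]
      ring
    have hs₀U' : s₀ ∈ U' := connectedComponentIn_subset U' 0 hs₀C
    have hsub : (g j).a - (g j).c * (r : ℂ) ≠ 0 := by
      rw [← hev0]; exact (g j).sub_ne hd0
    have hiv0 : (g j).iv r = s₀ := by rw [← hev0]; exact (g j).iv_ev hd0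
    have hivana := (g j).analytic_iv hsub
    have hbd := boundary (S := S.image (fun μ ↦ e μ j)) (r := r)
      (c := fun ν w ↦ Cf ν ((g j).iv w)) (fun ν _ ↦ by
        refine AnalyticAt.fun_comp (g := Cf ν) (f := (g j).iv) ?_ hivana
        rw [hiv0]
        exact hCana ν s₀ hs₀U') (by
        have h1 : ∀ᶠ w in 𝓝 (r : ℂ), 0 < ((g j).ev ((g j).iv w)).im →
            (g j).iv w ∈ connectedComponentIn U 0 := by
          have h2 : Tendsto (g j).iv (𝓝 (r : ℂ)) (𝓝 s₀) := by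
            have := hivana.continuousAt.tendsto
            rwa [hiv0] at this
          exact h2.eventually hexit
        filter_upwards [h1, (g j).eventually_sub hsub] with w hw1 hw2 hw3
        have hw4 : (g j).ev ((g j).iv w) = w := (g j).ev_iv hw2
        rw [hw4] at hw1
        have h3 := hF0 (hw1 hw3)
        rw [hFC, hw4] at h3
        exact h3)
    -- the coefficients vanish near 0
    have hC0 : ∀ ν ∈ S.image (fun μ ↦ e μ j), ∀ᶠ s in 𝓝 (0 : ℂ), Cf ν s = 0 := by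
      intro ν hν
      have h1 := hbd ν hν
      have h2 : ∀ᶠ s in 𝓝 s₀, Cf ν s = 0 := by
        have h3 := ((g j).analytic_ev hd0).continuousAt
        rw [← hev0] at h1
        have h4 := h3.eventually h1
        filter_upwards [h4, (g j).eventually_den hd0] with s hs1 hs2
        rwa [(g j).iv_ev hs2] at hs1
      have h5 : Set.EqOn (Cf ν) 0 (connectedComponentIn U' 0) :=
        ((hCana ν).mono (connectedComponentIn_subset U' 0)).eqOn_zero_of_preconnected_of_eventuallyEq_zero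
          isPreconnected_connectedComponentIn hs₀C h2
      have h6 : connectedComponentIn U' 0 ∈ 𝓝 (0 : ℂ) :=
        (hU'o.connectedComponentIn).mem_nhds (mem_connectedComponentIn h0U')
      filter_upwards [h6] with s hs using h5 hs
    -- induction
    refine ih (J.erase j) (by rw [Finset.card_erase_of_mem hj, hJ]; rfl)
      (S.filter (fun μ ↦ e μ j = e μ₀ j)) ?_ (hC0 (e μ₀ j) (Finset.mem_image_of_mem _ hμ₀)) μ₀
      (Finset.mem_filter.mpr ⟨hμ₀, rfl⟩)
    intro μ hμ μ' hμ' heq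
    rw [Finset.mem_filter] at hμ hμ'
    refine hinj μ hμ.1 μ' hμ'.1 fun i hi ↦ ?_
    by_cases hij : i = j
    · rw [hij, hμ.2, hμ'.2]
    · exact heq i (Finset.mem_erase.mpr ⟨hij, hi⟩)

end H32

end S_FT1

section S_FT2

/-!
# Functional independence in several variables
-/

open Complex Filter Metric MvPolynomial
open scoped Topology Real

namespace H32

variable {m n : ℕ}

/-- The linear part of an affine form. -/
noncomputable def lin (α : Fin (m + 1) → ℂ) (v : Fin m → ℂ) : ℂ := ∑ k, α k.succ * v k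

/-- The value of an affine form. -/
noncomputable def lf (α : Fin (m + 1) → ℂ) (s : Fin m → ℂ) : ℂ := α 0 + lin α s

lemma lf_line (α : Fin (m + 1) → ℂ) (t v : Fin m → ℂ) (ζ : ℂ) :
    lf α (fun k ↦ t k + ζ * v k) = lin α v * ζ + lf α t := by
  unfold lf lin
  rw [Finset.sum_mul, add_comm (∑ _, _) (_ + _), add_assoc, ← Finset.sum_add_distrib]
  congr 1
  exact Finset.sum_congr rfl fun k _ ↦ by ring

/-- The restriction to the line through `t` in direction `v`. -/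
noncomputable def lineMo (α β : Fin (m + 1) → ℂ) (t v : Fin m → ℂ)
    (h : lin α v * lf β t - lf α t * lin β v ≠ 0) : Mo :=
  ⟨lin α v, lf α t, lin β v, lf β t, h⟩

lemma lineMo_ev (α β : Fin (m + 1) → ℂ) (t v : Fin m → ℂ)
    (h : lin α v * lf β t - lf α t * lin β v ≠ 0) (ζ : ℂ) :
    (lineMo α β t v h).ev ζ = lf α (fun k ↦ t k + ζ * v k) / lf β (fun k ↦ t k + ζ * v k) := by
  rw [lf_line, lf_line]
  rfl

/-- The directions which are good for a pair. -/
def PairGood (α β α' β' : Fin (m + 1) → ℂ) (t v : Fin m → ℂ) : Prop :=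
  {ζ : ℂ | lin β v * ζ + lf β t ≠ 0 ∧ lin β' v * ζ + lf β' t ≠ 0 ∧
    ((lin α v * ζ + lf α t) / (lin β v * ζ + lf β t)).im = 0 ∧
    ((lin α' v * ζ + lf α' t) / (lin β' v * ζ + lf β' t)).im = 0}.Finite

/-- The data of the several variable problem. -/
noncomputable def DM (A B : Fin n → Fin (m + 1) → ℂ) (Y R : Fin n → MvPolynomial (Fin m) ℂ)
    (s : Fin m → ℂ) : Fin m ⊕ Fin n × Fin 3 → ℂ :=
  Sum.elim s fun x ↦ ![e2 (lf (A x.1) s / lf (B x.1) s) - 3 * eval s (R x.1) / (π * eval s (Y x.1)),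
    e4 (lf (A x.1) s / lf (B x.1) s), e6 (lf (A x.1) s / lf (B x.1) s)] x.2

/-- Clearing denominators. -/
noncomputable def QM (Y R : Fin n → MvPolynomial (Fin m) ℂ)
    (P : MvPolynomial (Fin m ⊕ Fin n × Fin 3) ℂ) :
    MvPolynomial (Fin n × Fin 3) (MvPolynomial (Fin m) ℂ) :=
  ∑ μ ∈ P.support, C (C (P.coeff μ) * ∏ k, X k ^ μ (Sum.inl k)) *
    ∏ j, ((C (Y j) * X (j, 0) - C (C (3 / (π : ℂ)) * R j)) ^ μ (Sum.inr (j, 0)) *
      C (Y j) ^ (P.totalDegree - μ (Sum.inr (j, 0))) * X (j, 1) ^ μ (Sum.inr (j, 1)) *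
      X (j, 2) ^ μ (Sum.inr (j, 2)))

lemma eval_QM (Y R : Fin n → MvPolynomial (Fin m) ℂ) (P : MvPolynomial (Fin m ⊕ Fin n × Fin 3) ℂ)
    (s : Fin m → ℂ) (x : Fin n × Fin 3 → ℂ) (hY : ∀ j, eval s (Y j) ≠ 0) :
    eval₂ (eval s) x (QM Y R P) = (∏ j, eval s (Y j)) ^ P.totalDegree *
      aeval (Sum.elim s fun p : Fin n × Fin 3 ↦ ![x (p.1, 0) - 3 * eval s (R p.1) /
        (π * eval s (Y p.1)), x (p.1, 1), x (p.1, 2)] p.2 : Fin m ⊕ Fin n × Fin 3 → ℂ) P := by
  have hpi : (π : ℂ) ≠ 0 := by exact_mod_cast Real.pi_ne_zero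
  rw [aeval_def, eval₂_eq' _ _ P, QM, eval₂_sum, Finset.mul_sum]
  refine Finset.sum_congr rfl fun μ hμ ↦ ?_
  have hle : ∀ j, μ (Sum.inr (j, 0)) ≤ P.totalDegree := fun j ↦ by
    refine le_trans ?_ (le_totalDegree hμ)
    rw [Finsupp.sum_fintype _ _ (by simp)]
    exact Finset.single_le_sum (f := fun l ↦ μ l) (fun _ _ ↦ Nat.zero_le _) (Finset.mem_univ _)
  simp only [eval₂_mul, eval₂_C, eval₂_prod, eval₂_pow, eval₂_sub, eval₂_X, map_mul, map_prod,
    map_pow, eval_X, eval_C]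
  rw [Fintype.prod_sum_type, Fintype.prod_prod_type]
  simp only [Sum.elim_inl, Sum.elim_inr, Fin.prod_univ_three, Matrix.cons_val_zero,
    Matrix.cons_val_one, Matrix.cons_val, Algebra.algebraMap_self, RingHom.id_apply]
  rw [← Finset.prod_pow]
  have key : ∏ j, ((eval s (Y j) * x (j, 0) - 3 / (π : ℂ) * eval s (R j)) ^ μ (Sum.inr (j, 0)) *
      eval s (Y j) ^ (P.totalDegree - μ (Sum.inr (j, 0))) * x (j, 1) ^ μ (Sum.inr (j, 1)) *
      x (j, 2) ^ μ (Sum.inr (j, 2))) =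
      (∏ j, eval s (Y j) ^ P.totalDegree) * ∏ j, ((x (j, 0) - 3 * eval s (R j) /
        (π * eval s (Y j))) ^ μ (Sum.inr (j, 0)) * x (j, 1) ^ μ (Sum.inr (j, 1)) *
      x (j, 2) ^ μ (Sum.inr (j, 2))) := by
    rw [← Finset.prod_mul_distrib]
    refine Finset.prod_congr rfl fun j _ ↦ ?_
    have hj := hY j
    have e1 : eval s (Y j) * x (j, 0) - 3 / (π : ℂ) * eval s (R j) =
        eval s (Y j) * (x (j, 0) - 3 * eval s (R j) / (π * eval s (Y j))) := by
      field_simp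
    have e2 : eval s (Y j) ^ P.totalDegree = eval s (Y j) ^ μ (Sum.inr (j, 0)) *
        eval s (Y j) ^ (P.totalDegree - μ (Sum.inr (j, 0))) := by
      rw [← pow_add, Nat.add_sub_cancel' (hle j)]
    rw [e1, e2, mul_pow]
    ring
  rw [key]
  ring

theorem FT2 (A B : Fin n → Fin (m + 1) → ℂ) (Y R : Fin n → MvPolynomial (Fin m) ℂ)
    (t : Fin m → ℂ) (him : ∀ j, 0 < (lf (A j) t / lf (B j) t).im) (hY : ∀ j, eval t (Y j) ≠ 0)
    (hgood : Dense {v : Fin m → ℂ | (∀ j, lin (A j) v * lf (B j) t - lf (A j) t * lin (B j) v ≠ 0) ∧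
      ∀ i j, i ≠ j → PairGood (A i) (B i) (A j) (B j) t v})
    (P : MvPolynomial (Fin m ⊕ Fin n × Fin 3) ℂ)
    (h : ∀ᶠ s in 𝓝 t, aeval (DM A B Y R s) P = 0) : P = 0 := by
  classical
  have hYev : ∀ᶠ s in 𝓝 t, ∀ j, eval s (Y j) ≠ 0 := by
    rw [Filter.eventually_all]
    intro j
    exact (MvPolynomial.continuous_eval (Y j)).continuousAt.eventually_ne (hY j)
  -- the polynomial with cleared denominators vanishes
  have hQ : QM Y R P = 0 := by
    by_contra hne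
    obtain ⟨μ₀, hμ₀⟩ := MvPolynomial.support_nonempty.mpr hne
    apply MvPolynomial.mem_support_iff.mp hμ₀
    -- vanishing in the good directions
    have hv : ∀ v : Fin m → ℂ, v ∈ {v : Fin m → ℂ |
        (∀ j, lin (A j) v * lf (B j) t - lf (A j) t * lin (B j) v ≠ 0) ∧
        ∀ i j, i ≠ j → PairGood (A i) (B i) (A j) (B j) t v} →
        eval (fun k ↦ t k + v k) ((QM Y R P).coeff μ₀) = 0 := by
      rintro v ⟨hdet, hpair⟩
      have hline : Continuous fun ζ : ℂ ↦ (fun k ↦ t k + ζ * v k : Fin m → ℂ) := by fun_prop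
      have hline0 : (fun k ↦ t k + (0 : ℂ) * v k : Fin m → ℂ) = t := by ext k; simp
      have htend : Tendsto (fun ζ : ℂ ↦ (fun k ↦ t k + ζ * v k : Fin m → ℂ)) (𝓝 0) (𝓝 t) := by
        have := hline.tendsto 0
        rwa [hline0] at this
      have hcana : ∀ μ : Fin n × Fin 3 →₀ ℕ, AnalyticOnNhd ℂ
          (fun ζ ↦ eval (fun k ↦ t k + ζ * v k) ((QM Y R P).coeff μ)) Set.univ := by
        intro μ ζ _
        have h1 : AnalyticAt ℂ (fun ζ ↦ aeval (fun k ↦ t k + ζ * v k) ((QM Y R P).coeff μ)) ζ :=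
          AnalyticAt.aeval_mvPolynomial (fun k ↦ by fun_prop) _
        exact h1
      have key := FT1 (T := Fin n × Fin 3 →₀ ℕ)
        (fun j ↦ lineMo (A j) (B j) t v (hdet j)) (fun j ↦ by
          change 0 < ((lineMo (A j) (B j) t v (hdet j)).ev 0).im
          rw [lineMo_ev, hline0]
          exact him j)
        (fun i j hij ↦ hpair i j hij)
        (fun μ j l ↦ μ (j, l)) (fun μ ζ ↦ eval (fun k ↦ t k + ζ * v k) ((QM Y R P).coeff μ))
        hcana (Finset.univ : Finset (Fin n)).card Finset.univ rfl (QM Y R P).support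
        (fun μ _ μ' _ hh ↦ by
          ext ⟨j, l⟩
          exact congrFun (hh j (Finset.mem_univ j)) l)
        (by
          filter_upwards [htend.eventually h, htend.eventually hYev] with ζ hζ hYζ
          have h1 := eval_QM Y R P (fun k ↦ t k + ζ * v k) (fun x ↦
            ![e2 (lf (A x.1) (fun k ↦ t k + ζ * v k) / lf (B x.1) (fun k ↦ t k + ζ * v k)),
              e4 (lf (A x.1) (fun k ↦ t k + ζ * v k) / lf (B x.1) (fun k ↦ t k + ζ * v k)),
              e6 (lf (A x.1) (fun k ↦ t k + ζ * v k) / lf (B x.1) (fun k ↦ t k + ζ * v k))] x.2) hYζ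
          have h2 : aeval (Sum.elim (fun k ↦ t k + ζ * v k) fun p : Fin n × Fin 3 ↦
              ![e2 (lf (A p.1) (fun k ↦ t k + ζ * v k) / lf (B p.1) (fun k ↦ t k + ζ * v k)) -
                3 * eval (fun k ↦ t k + ζ * v k) (R p.1) /
                (π * eval (fun k ↦ t k + ζ * v k) (Y p.1)),
              e4 (lf (A p.1) (fun k ↦ t k + ζ * v k) / lf (B p.1) (fun k ↦ t k + ζ * v k)),
              e6 (lf (A p.1) (fun k ↦ t k + ζ * v k) / lf (B p.1) (fun k ↦ t k + ζ * v k))]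
              p.2 : Fin m ⊕ Fin n × Fin 3 → ℂ) P = 0 := hζ
          simp only [Matrix.cons_val_zero, Matrix.cons_val_one, Matrix.cons_val] at h1
          rw [h2, mul_zero, eval₂_eq'] at h1
          rw [← h1]
          refine Finset.sum_congr rfl fun μ _ ↦ ?_
          congr 1
          rw [Fintype.prod_prod_type]
          refine Finset.prod_congr rfl fun j _ ↦ ?_
          rw [Fin.prod_univ_three, lineMo_ev]
          rfl)
        μ₀ hμ₀
      have h3 : Set.EqOn (fun ζ ↦ eval (fun k ↦ t k + ζ * v k) ((QM Y R P).coeff μ₀)) 0 Set.univ :=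
        (hcana μ₀).eqOn_zero_of_preconnected_of_eventuallyEq_zero isPreconnected_univ
          (Set.mem_univ 0) key
      have h4 := h3 (Set.mem_univ 1)
      simp only [one_mul, Pi.zero_apply] at h4
      exact h4
    -- vanishing everywhere
    have hcont : Continuous fun v : Fin m → ℂ ↦ eval (fun k ↦ t k + v k) ((QM Y R P).coeff μ₀) := by
      have h1 : Continuous fun v : Fin m → ℂ ↦ (fun k ↦ t k + v k : Fin m → ℂ) := by fun_prop
      exact (MvPolynomial.continuous_eval _).comp h1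
    have hall := Continuous.ext_on hgood hcont continuous_const hv
    apply MvPolynomial.funext
    intro x
    have h5 := congrFun hall (fun k ↦ x k - t k)
    simp only [add_sub_cancel] at h5
    rw [map_zero]
    exact h5
  -- conclusion
  have hprod : rename Sum.inl (∏ j, Y j) * P = 0 := by
    apply MvPolynomial.funext
    intro x
    rw [map_mul, map_zero, eval_rename, map_prod]
    by_cases hz : ∏ j, eval (x ∘ Sum.inl) (Y j) = 0
    · rw [hz, zero_mul]
    · have hYx : ∀ j, eval (x ∘ Sum.inl) (Y j) ≠ 0 := fun j ↦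
        Finset.prod_ne_zero_iff.mp hz j (Finset.mem_univ j)
      have h1 := eval_QM Y R P (x ∘ Sum.inl) (fun p ↦ ![x (Sum.inr (p.1, 0)) +
        3 * eval (x ∘ Sum.inl) (R p.1) / (π * eval (x ∘ Sum.inl) (Y p.1)),
        x (Sum.inr (p.1, 1)), x (Sum.inr (p.1, 2))] p.2) hYx
      rw [hQ, eval₂_zero] at h1
      have h2 := (mul_eq_zero.mp h1.symm).resolve_left (pow_ne_zero _ hz)
      have h3 : (Sum.elim (x ∘ Sum.inl) fun p : Fin n × Fin 3 ↦
          ![![x (Sum.inr (p.1, 0)) + 3 * eval (x ∘ Sum.inl) (R p.1) /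
            (π * eval (x ∘ Sum.inl) (Y p.1)), x (Sum.inr (p.1, 1)), x (Sum.inr (p.1, 2))] 0 -
            3 * eval (x ∘ Sum.inl) (R p.1) / (π * eval (x ∘ Sum.inl) (Y p.1)),
            ![x (Sum.inr (p.1, 0)) + 3 * eval (x ∘ Sum.inl) (R p.1) /
            (π * eval (x ∘ Sum.inl) (Y p.1)), x (Sum.inr (p.1, 1)), x (Sum.inr (p.1, 2))] 1,
            ![x (Sum.inr (p.1, 0)) + 3 * eval (x ∘ Sum.inl) (R p.1) /
            (π * eval (x ∘ Sum.inl) (Y p.1)), x (Sum.inr (p.1, 1)), x (Sum.inr (p.1, 2))] 2]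
            p.2 : Fin m ⊕ Fin n × Fin 3 → ℂ) = x := by
        ext y
        rcases y with k | ⟨j, l⟩
        · rfl
        · fin_cases l <;> simp
      have h4 : aeval x P = 0 := by
        rw [← h3]
        exact h2
      have h5 : eval x P = 0 := h4
      rw [h5, mul_zero]
  rcases mul_eq_zero.mp hprod with h1 | h1
  · exfalso
    have h2 : (∏ j, Y j) = 0 := rename_injective _ Sum.inl_injective (by rw [h1, map_zero])
    have h3 := congrArg (eval t) h2
    rw [map_prod, map_zero] at h3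
    obtain ⟨j, -, hj⟩ := Finset.prod_eq_zero_iff.mp h3
    exact hY j hj
  · exact h1

end H32

end S_FT2

section S_Pairs

/-!
# Good directions
-/

open Complex Filter Metric
open scoped Topology Real

namespace H32

/-- The real alternating form `Im (x conj y)`. -/
noncomputable def om (x y : ℂ) : ℝ := x.im * y.re - x.re * y.im

lemma om_real_mul (l μ : ℝ) (x y : ℂ) : om (l * x) (μ * y) = l * μ * om x y := by
  simp [om]; ring

lemma om_self (x : ℂ) : om x x = 0 := by simp [om]; ring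

lemma om_swap (x y : ℂ) : om x y = -om y x := by simp [om]; ring

lemma om_zero_line {x y : ℂ} (h : om x y = 0) :
    ∃ (e : ℂ) (l μ : ℝ), x = l * e ∧ y = μ * e := by
  by_cases hx : x = 0
  · exact ⟨y, 0, 1, by simp [hx], by simp⟩
  · refine ⟨x, 1, (y.re * x.re + y.im * x.im) / Complex.normSq x, by simp, ?_⟩
    have hn : Complex.normSq x ≠ 0 := (Complex.normSq_pos.mpr hx).ne'
    have h' : x.im * y.re - x.re * y.im = 0 := h
    apply Complex.ext
    · rw [Complex.mul_re, Complex.ofReal_re, Complex.ofReal_im, zero_mul, sub_zero]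
      field_simp
      rw [Complex.normSq_apply]
      linear_combination x.im * h'
    · rw [Complex.mul_im, Complex.ofReal_re, Complex.ofReal_im, zero_mul, add_zero]
      field_simp
      rw [Complex.normSq_apply]
      linear_combination (-x.re) * h'

/-- A complex matrix which maps reals to reals is a multiple of a real matrix. -/
lemma real_matrix {p q r s : ℂ} (hdet : p * s - q * r ≠ 0) (h1 : om p r = 0) (h2 : om q s = 0)
    (h3 : om p s + om q r = 0) : ∃ (e : ℂ) (a b c d : ℝ), p = a * e ∧ q = b * e ∧ r = c * e ∧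
      s = d * e := by
  obtain ⟨e, l1, l2, hp, hr⟩ := om_zero_line h1
  obtain ⟨f, l3, l4, hq, hs⟩ := om_zero_line h2
  have h4 : (l1 * l4 - l3 * l2) * om e f = 0 := by
    rw [hp, hq, hr, hs, om_real_mul, om_real_mul, om_swap f e] at h3
    linear_combination h3
  have h5 : l1 * l4 - l3 * l2 ≠ 0 := by
    intro h
    apply hdet
    rw [hp, hq, hr, hs]
    have h' : (l1 : ℂ) * l4 - l3 * l2 = 0 := by exact_mod_cast congrArg (Complex.ofReal) h
    linear_combination e * f * h'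
  have h6 : om e f = 0 := (mul_eq_zero.mp h4).resolve_left h5
  obtain ⟨u, m1, m2, he, hf⟩ := om_zero_line h6
  refine ⟨u, l1 * m1, l3 * m2, l2 * m1, l4 * m2, ?_, ?_, ?_, ?_⟩
  · rw [hp, he]; push_cast; ring
  · rw [hq, hf]; push_cast; ring
  · rw [hr, he]; push_cast; ring
  · rw [hs, hf]; push_cast; ring

/-- The four entries of `M₁ adj(M₂)`. -/
noncomputable def QQ4 (a b c d a' b' c' d' : ℂ) : Fin 4 → ℂ :=
  ![a * d' - b * c', b * a' - a * b', c * d' - d * c', d * a' - c * b']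

lemma finite_pair {a b c d a' b' c' d' : ℂ} (h1 : a * d - b * c ≠ 0) (h2 : a' * d' - b' * c' ≠ 0)
    (h : ∃ k l, om (QQ4 a b c d a' b' c' d' k) (QQ4 a b c d a' b' c' d' l) ≠ 0) :
    {ζ : ℂ | c * ζ + d ≠ 0 ∧ c' * ζ + d' ≠ 0 ∧ ((a * ζ + b) / (c * ζ + d)).im = 0 ∧
      ((a' * ζ + b') / (c' * ζ + d')).im = 0}.Finite := by
  set p : ℂ := a * d' - b * c' with hp
  set q : ℂ := b * a' - a * b' with hq
  set r : ℂ := c * d' - d * c' with hr
  set s : ℂ := d * a' - c * b' with hs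
  set P : Polynomial ℝ := Polynomial.C (om p r) * Polynomial.X ^ 2 +
    Polynomial.C (om p s + om q r) * Polynomial.X + Polynomial.C (om q s) with hP
  have hPne : P ≠ 0 := by
    intro h0
    have c0 : om q s = 0 := by
      have := congrArg (fun f ↦ Polynomial.coeff f 0) h0
      simpa [hP, Polynomial.coeff_X, Polynomial.coeff_C] using this
    have c1 : om p s + om q r = 0 := by
      have := congrArg (fun f ↦ Polynomial.coeff f 1) h0
      simpa [hP, Polynomial.coeff_X, Polynomial.coeff_C] using this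
    have c2 : om p r = 0 := by
      have := congrArg (fun f ↦ Polynomial.coeff f 2) h0
      simpa [hP, Polynomial.coeff_X, Polynomial.coeff_C] using this
    have hdet : p * s - q * r ≠ 0 := by
      have : p * s - q * r = (a * d - b * c) * (a' * d' - b' * c') := by
        rw [hp, hq, hr, hs]; ring
      rw [this]
      exact mul_ne_zero h1 h2
    obtain ⟨e, x1, x2, x3, x4, e1, e2, e3, e4⟩ := real_matrix hdet c2 c0 c1
    obtain ⟨k, l, hkl⟩ := h
    apply hkl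
    have hx : ∃ x : Fin 4 → ℝ, ∀ k, QQ4 a b c d a' b' c' d' k = x k * e := by
      refine ⟨![x1, x2, x3, x4], fun k ↦ ?_⟩
      fin_cases k
      · exact e1
      · exact e2
      · exact e3
      · exact e4
    obtain ⟨x, hx⟩ := hx
    rw [hx, hx, om_real_mul, om_self, mul_zero]
  have hroots : {x : ℝ | P.IsRoot x}.Finite := Polynomial.finite_setOfPred_isRoot hPne
  refine (hroots.image (fun x : ℝ ↦ (d' * x - b') / (a' - c' * x))).subset ?_
  rintro ζ ⟨hζ1, hζ2, hζ3, hζ4⟩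
  set x : ℝ := ((a' * ζ + b') / (c' * ζ + d')).re with hx
  have hxe : (a' * ζ + b') / (c' * ζ + d') = x := by
    apply Complex.ext
    · simp [hx]
    · simpa using hζ4
  have hxe' : a' * ζ + b' = x * (c' * ζ + d') := (div_eq_iff hζ2).mp hxe
  set y : ℝ := ((a * ζ + b) / (c * ζ + d)).re with hy
  have hye : (a * ζ + b) / (c * ζ + d) = y := by
    apply Complex.ext
    · simp [hy]
    · simpa using hζ3
  have hye' : a * ζ + b = y * (c * ζ + d) := (div_eq_iff hζ1).mp hye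
  have hdd : a' - c' * x ≠ 0 := by
    intro h0
    apply h2
    have h3 : a' = c' * x := by linear_combination h0
    have h4 : b' = d' * x := by rw [h3] at hxe'; linear_combination hxe'
    rw [h3, h4]; ring
  refine ⟨x, ?_, ?_⟩
  · -- the relation
    have e1 : (c' * ζ + d') * (p * x + q) = (a' * d' - b' * c') * (a * ζ + b) := by
      rw [hp, hq]
      linear_combination (-(a * d' - b * c')) * hxe'
    have e2 : (c' * ζ + d') * (r * x + s) = (a' * d' - b' * c') * (c * ζ + d) := by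
      rw [hr, hs]
      linear_combination (-(c * d' - d * c')) * hxe'
    have e3 : p * x + q = y * (r * x + s) := by
      have : (c' * ζ + d') * (p * x + q - y * (r * x + s)) = 0 := by
        have h5 := e1
        have h6 := e2
        linear_combination h5 - y * h6 + (a' * d' - b' * c') * hye'
      have h7 := (mul_eq_zero.mp this).resolve_left hζ2
      linear_combination h7
    have e4 : om (p * x + q) (r * x + s) = 0 := by
      rw [e3]
      have := om_real_mul y 1 (r * x + s) (r * x + s)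
      rw [om_self, mul_zero] at this
      simpa using this
    have e5 : P.eval x = om (p * x + q) (r * x + s) := by
      rw [hP]
      simp only [Polynomial.eval_add, Polynomial.eval_mul, Polynomial.eval_C, Polynomial.eval_pow,
        Polynomial.eval_X, om, Complex.add_re, Complex.add_im, Complex.mul_re, Complex.mul_im,
        Complex.ofReal_re, Complex.ofReal_im]
      ring
    change P.eval x = 0
    rw [e5, e4]
  · simp only
    rw [div_eq_iff hdd]
    linear_combination (-1) * hxe'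

section dense

variable {E : Type*} [NormedAddCommGroup E] [NormedSpace ℝ E]

lemma dense_of_line {S : Set E} (v₀ : E) (h : ∀ v : E, {x : ℝ | v + x • (v₀ - v) ∉ S}.Finite) :
    Dense S := by
  intro v
  have h1 : Dense {x : ℝ | v + x • (v₀ - v) ∉ S}ᶜ := (h v).countable.dense_compl ℝ
  have h2 : Continuous fun x : ℝ ↦ v + x • (v₀ - v) := by fun_prop
  have h3 := map_mem_closure h2 (h1 0) (t := S) (fun x hx ↦ by
    by_contra hcon
    exact hx hcon)
  simpa using h3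

end dense

variable {m n : ℕ}

lemma lin_line (α : Fin (m + 1) → ℂ) (v w : Fin m → ℂ) (x : ℂ) :
    lin α (v + x • w) = lin α v + x * lin α w := by
  unfold lin
  rw [Finset.mul_sum, ← Finset.sum_add_distrib]
  refine Finset.sum_congr rfl fun k _ ↦ ?_
  simp only [Pi.add_apply, Pi.smul_apply, smul_eq_mul]
  ring

lemma continuous_lin (α : Fin (m + 1) → ℂ) : Continuous (lin α) := by
  unfold lin
  fun_prop

lemma continuous_lf (α : Fin (m + 1) → ℂ) : Continuous (lf α) := by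
  unfold lf
  exact continuous_const.add (continuous_lin α)

/-- The determinant attached to a direction. -/
noncomputable def dt (α β : Fin (m + 1) → ℂ) (t v : Fin m → ℂ) : ℂ :=
  lin α v * lf β t - lf α t * lin β v

lemma dt_line (α β : Fin (m + 1) → ℂ) (t v w : Fin m → ℂ) (x : ℂ) :
    dt α β t (v + x • w) = dt α β t v + x * dt α β t w := by
  unfold dt
  rw [lin_line, lin_line]
  ring

lemma dt_real_line (α β : Fin (m + 1) → ℂ) (t v w : Fin m → ℂ) (x : ℝ) :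
    dt α β t (v + x • w) = dt α β t v + x * dt α β t w := by
  have : (v + x • w : Fin m → ℂ) = v + (x : ℂ) • w := by
    ext k; simp
  rw [this, dt_line]

lemma continuous_dt (α β : Fin (m + 1) → ℂ) (t : Fin m → ℂ) : Continuous (dt α β t) := by
  unfold dt
  exact ((continuous_lin α).mul continuous_const).sub (continuous_const.mul (continuous_lin β))

lemma dense_dt {α β : Fin (m + 1) → ℂ} {t : Fin m → ℂ} (h : ∃ v, dt α β t v ≠ 0) :
    Dense {v | dt α β t v ≠ 0} := by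
  obtain ⟨v₀, hv₀⟩ := h
  refine dense_of_line v₀ fun v ↦ ?_
  have h1 : {x : ℝ | v + x • (v₀ - v) ∉ {v | dt α β t v ≠ 0}} ⊆
      {x : ℝ | (Polynomial.C (dt α β t v) + Polynomial.C (dt α β t (v₀ - v)) *
        Polynomial.X : Polynomial ℂ).IsRoot (x : ℂ)} := by
    intro x hx
    simp only [Set.mem_ofPred_eq, not_not] at hx
    rw [dt_real_line] at hx
    simp only [Set.mem_ofPred_eq, Polynomial.IsRoot, Polynomial.eval_add, Polynomial.eval_C,
      Polynomial.eval_mul, Polynomial.eval_X]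
    linear_combination hx
  have hne : (Polynomial.C (dt α β t v) + Polynomial.C (dt α β t (v₀ - v)) *
        Polynomial.X : Polynomial ℂ) ≠ 0 := by
    intro h0
    apply hv₀
    have h2 := congrArg (Polynomial.eval 1) h0
    simp only [Polynomial.eval_add, Polynomial.eval_C, Polynomial.eval_mul, Polynomial.eval_X,
      mul_one, Polynomial.eval_zero] at h2
    have h3 := dt_line α β t v (v₀ - v) 1
    rw [one_smul, one_mul, add_sub_cancel] at h3
    rw [h3]; exact h2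
  have h4 := (Polynomial.finite_setOfPred_isRoot hne).preimage
    (f := (fun x : ℝ ↦ (x : ℂ))) (Complex.ofReal_injective.injOn)
  exact h4.subset h1

/-- The four linear forms attached to a pair. -/
noncomputable def Qv (α β α' β' : Fin (m + 1) → ℂ) (t v : Fin m → ℂ) : Fin 4 → ℂ :=
  QQ4 (lin α v) (lf α t) (lin β v) (lf β t) (lin α' v) (lf α' t) (lin β' v) (lf β' t)

lemma Qv_line (α β α' β' : Fin (m + 1) → ℂ) (t v w : Fin m → ℂ) (x : ℂ) (k : Fin 4) :
    Qv α β α' β' t (v + x • w) k = Qv α β α' β' t v k + x * Qv α β α' β' t w k := by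
  unfold Qv QQ4
  rw [lin_line, lin_line, lin_line, lin_line]
  fin_cases k
  · simp; ring
  · simp; ring
  · simp; ring
  · simp; ring

lemma Qv_real_line (α β α' β' : Fin (m + 1) → ℂ) (t v w : Fin m → ℂ) (x : ℝ) (k : Fin 4) :
    Qv α β α' β' t (v + x • w) k = Qv α β α' β' t v k + x * Qv α β α' β' t w k := by
  have : (v + x • w : Fin m → ℂ) = v + (x : ℂ) • w := by
    ext k; simp
  rw [this, Qv_line]

lemma continuous_Qv (α β α' β' : Fin (m + 1) → ℂ) (t : Fin m → ℂ) (k : Fin 4) :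
    Continuous fun v ↦ Qv α β α' β' t v k := by
  have h1 := continuous_lin α
  have h2 := continuous_lin β
  have h3 := continuous_lin α'
  have h4 := continuous_lin β'
  unfold Qv QQ4
  fin_cases k
  · simp; fun_prop
  · simp; fun_prop
  · simp; fun_prop
  · simp; fun_prop

lemma dense_Qv {α β α' β' : Fin (m + 1) → ℂ} {t : Fin m → ℂ}
    (h : ∃ v k l, om (Qv α β α' β' t v k) (Qv α β α' β' t v l) ≠ 0) :
    Dense {v | ∃ k l, om (Qv α β α' β' t v k) (Qv α β α' β' t v l) ≠ 0} := by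
  obtain ⟨v₀, k, l, hv₀⟩ := h
  refine dense_of_line v₀ fun v ↦ ?_
  set a := Qv α β α' β' t v k
  set b := Qv α β α' β' t v l
  set a' := Qv α β α' β' t (v₀ - v) k
  set b' := Qv α β α' β' t (v₀ - v) l
  set P : Polynomial ℝ := Polynomial.C (om a b) + Polynomial.C (om a' b + om a b') * Polynomial.X +
    Polynomial.C (om a' b') * Polynomial.X ^ 2 with hP
  have hPev : ∀ x : ℝ, P.eval x = om (a + x * a') (b + x * b') := by
    intro x
    rw [hP]
    simp only [Polynomial.eval_add, Polynomial.eval_mul, Polynomial.eval_C, Polynomial.eval_pow,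
      Polynomial.eval_X, om, Complex.add_re, Complex.add_im, Complex.mul_re, Complex.mul_im,
      Complex.ofReal_re, Complex.ofReal_im]
    ring
  have hne : P ≠ 0 := by
    intro h0
    apply hv₀
    have h2 := hPev 1
    rw [h0, Polynomial.eval_zero] at h2
    have h3 := Qv_line α β α' β' t v (v₀ - v) 1 k
    have h4 := Qv_line α β α' β' t v (v₀ - v) 1 l
    rw [one_smul, one_mul, add_sub_cancel] at h3 h4
    rw [h3, h4]
    simpa using h2.symm
  refine (Polynomial.finite_setOfPred_isRoot hne).subset ?_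
  intro x hx
  simp only [Set.mem_ofPred_eq, not_exists, not_not] at hx
  have h1 := hx k l
  rw [Qv_real_line, Qv_real_line] at h1
  change P.eval x = 0
  rw [hPev]
  exact h1

theorem dense_good (A B : Fin n → Fin (m + 1) → ℂ) (t : Fin m → ℂ)
    (h1 : ∀ j, ∃ v, dt (A j) (B j) t v ≠ 0)
    (h2 : ∀ i j, i ≠ j → ∃ v k l, om (Qv (A i) (B i) (A j) (B j) t v k)
      (Qv (A i) (B i) (A j) (B j) t v l) ≠ 0) :
    Dense {v : Fin m → ℂ | (∀ j, lin (A j) v * lf (B j) t - lf (A j) t * lin (B j) v ≠ 0) ∧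
      ∀ i j, i ≠ j → PairGood (A i) (B i) (A j) (B j) t v} := by
  set S1 : Fin n → Set (Fin m → ℂ) := fun j ↦ {v | dt (A j) (B j) t v ≠ 0} with hS1
  set S2 : {x : Fin n × Fin n // x.1 ≠ x.2} → Set (Fin m → ℂ) := fun x ↦
    {v | ∃ k l, om (Qv (A x.1.1) (B x.1.1) (A x.1.2) (B x.1.2) t v k)
      (Qv (A x.1.1) (B x.1.1) (A x.1.2) (B x.1.2) t v l) ≠ 0} with hS2
  have hd1 : Dense (⋂ j, S1 j) := dense_iInter_of_isOpen
    (fun j ↦ isOpen_ne_fun (continuous_dt _ _ _) continuous_const) fun j ↦ dense_dt (h1 j)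
  have ho1 : IsOpen (⋂ j, S1 j) := isOpen_iInter_of_finite
    fun j ↦ isOpen_ne_fun (continuous_dt _ _ _) continuous_const
  have hd2 : Dense (⋂ x, S2 x) := by
    refine dense_iInter_of_isOpen (fun x ↦ ?_) fun x ↦ dense_Qv (h2 _ _ x.2)
    have : S2 x = ⋃ k, ⋃ l, {v | om (Qv (A x.1.1) (B x.1.1) (A x.1.2) (B x.1.2) t v k)
      (Qv (A x.1.1) (B x.1.1) (A x.1.2) (B x.1.2) t v l) ≠ 0} := by
      ext v; simp [hS2]
    rw [this]
    refine isOpen_iUnion fun k ↦ isOpen_iUnion fun l ↦ isOpen_ne_fun ?_ continuous_const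
    have hk := continuous_Qv (A x.1.1) (B x.1.1) (A x.1.2) (B x.1.2) t k
    have hl := continuous_Qv (A x.1.1) (B x.1.1) (A x.1.2) (B x.1.2) t l
    unfold om
    exact ((Complex.continuous_im.comp hk).mul (Complex.continuous_re.comp hl)).sub
      ((Complex.continuous_re.comp hk).mul (Complex.continuous_im.comp hl))
  have hd : Dense ((⋂ j, S1 j) ∩ ⋂ x, S2 x) := hd1.inter_of_isOpen_left hd2 ho1
  refine hd.mono ?_
  rintro v ⟨hv1, hv2⟩
  rw [Set.mem_iInter] at hv1 hv2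
  refine ⟨fun j ↦ hv1 j, fun i j hij ↦ ?_⟩
  have h3 := hv2 ⟨(i, j), hij⟩
  exact finite_pair (hv1 i) (hv1 j) h3

end H32

end S_Pairs

section S_Pairs2

/-!
# Good directions from inequivalence
-/

open Complex Filter Metric
open scoped Topology Real

namespace H32

lemma om_smul {x y : ℂ} (h : om x y = 0) (hx : x ≠ 0) : ∃ l : ℝ, y = l * x := by
  obtain ⟨e, a, b, h1, h2⟩ := om_zero_line h
  have ha : (a : ℂ) ≠ 0 := by
    intro h0
    rw [h0, zero_mul] at h1
    exact hx h1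
  refine ⟨b / a, ?_⟩
  rw [h2, h1]
  push_cast
  field_simp

lemma forms_prop {m : ℕ} {F G : (Fin m → ℂ) → ℂ}
    (hF : ∀ (v w : Fin m → ℂ) (x : ℂ), F (v + x • w) = F v + x * F w)
    (hG : ∀ (v w : Fin m → ℂ) (x : ℂ), G (v + x • w) = G v + x * G w)
    (h : ∀ v, om (F v) (G v) = 0) {v₀ : Fin m → ℂ} (h0 : F v₀ ≠ 0) :
    ∃ l : ℝ, ∀ v, G v = l * F v := by
  obtain ⟨l, hl⟩ := om_smul (h v₀) h0
  refine ⟨l, fun v ↦ ?_⟩
  set D : ℂ := G v - l * F v with hD
  have h1 := h (v + (I * D / F v₀) • v₀)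
  rw [hF, hG, hl] at h1
  have h2 := h v
  have e1 : I * D / F v₀ * F v₀ = I * D := by field_simp
  have e2 : I * D / F v₀ * (l * F v₀) = l * (I * D) := by field_simp
  rw [e1, e2] at h1
  have e3 : G v = D + l * F v := by rw [hD]; ring
  rw [e3] at h1 h2
  have h3 : Complex.normSq D = 0 := by
    rw [Complex.normSq_apply]
    simp only [om, Complex.add_re, Complex.add_im, Complex.mul_re, Complex.mul_im, Complex.I_re,
      Complex.I_im, Complex.ofReal_re, Complex.ofReal_im] at h1 h2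
    linear_combination h1 - h2
  have h4 : D = 0 := Complex.normSq_eq_zero.mp h3
  rw [hD] at h4
  linear_combination h4

lemma dense_form {m : ℕ} {F : (Fin m → ℂ) → ℂ}
    (hF : ∀ (v w : Fin m → ℂ) (x : ℂ), F (v + x • w) = F v + x * F w)
    {v₀ : Fin m → ℂ} (h0 : F v₀ ≠ 0) : Dense {v | F v ≠ 0} := by
  refine dense_of_line v₀ fun v ↦ ?_
  have h1 : {x : ℝ | v + x • (v₀ - v) ∉ {v | F v ≠ 0}} ⊆
      {x : ℝ | (Polynomial.C (F v) + Polynomial.C (F (v₀ - v)) *
        Polynomial.X : Polynomial ℂ).IsRoot (x : ℂ)} := by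
    intro x hx
    simp only [Set.mem_ofPred_eq, not_not] at hx
    have e : (v + x • (v₀ - v) : Fin m → ℂ) = v + (x : ℂ) • (v₀ - v) := by
      ext k; simp
    rw [e, hF] at hx
    simp only [Set.mem_ofPred_eq, Polynomial.IsRoot, Polynomial.eval_add, Polynomial.eval_C,
      Polynomial.eval_mul, Polynomial.eval_X]
    linear_combination hx
  have hne : (Polynomial.C (F v) + Polynomial.C (F (v₀ - v)) *
        Polynomial.X : Polynomial ℂ) ≠ 0 := by
    intro h0'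
    apply h0
    have h2 := congrArg (Polynomial.eval 1) h0'
    simp only [Polynomial.eval_add, Polynomial.eval_C, Polynomial.eval_mul, Polynomial.eval_X,
      mul_one, Polynomial.eval_zero] at h2
    have h3 := hF v (v₀ - v) 1
    rw [one_smul, one_mul, add_sub_cancel] at h3
    rw [h3]; exact h2
  have h4 := (Polynomial.finite_setOfPred_isRoot hne).preimage
    (f := (fun x : ℝ ↦ (x : ℂ))) (Complex.ofReal_injective.injOn)
  exact h4.subset h1

/-- A real relation between rational vectors gives a rational relation. -/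
lemma rational_relation {k : ℕ} (W : Set (Fin k → ℚ)) (ρ : Fin k → ℝ) (hρ : ρ ≠ 0)
    (h : ∀ w ∈ W, ∑ i, ρ i * (w i : ℝ) = 0) :
    ∃ g : Fin k → ℚ, g ≠ 0 ∧ ∀ w ∈ W, ∑ i, g i * w i = 0 := by
  classical
  have hlt : Submodule.span ℚ W < ⊤ := by
    rw [lt_top_iff_ne_top]
    intro htop
    apply hρ
    have h1 : ∀ w ∈ Submodule.span ℚ W, ∑ i, ρ i * (w i : ℝ) = 0 := by
      intro w hw
      induction hw using Submodule.span_induction with
      | mem x hx => exact h x hx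
      | zero => simp
      | add x y _ _ hx hy =>
        have : ∑ i, ρ i * (((x + y) i : ℚ) : ℝ) = ∑ i, ρ i * (x i : ℝ) + ∑ i, ρ i * (y i : ℝ) := by
          rw [← Finset.sum_add_distrib]
          refine Finset.sum_congr rfl fun i _ ↦ ?_
          simp only [Pi.add_apply]; push_cast; ring
        rw [this, hx, hy, add_zero]
      | smul a x _ hx =>
        have : ∑ i, ρ i * (((a • x) i : ℚ) : ℝ) = a * ∑ i, ρ i * (x i : ℝ) := by
          rw [Finset.mul_sum]
          refine Finset.sum_congr rfl fun i _ ↦ ?_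
          simp only [Pi.smul_apply, smul_eq_mul]; push_cast; ring
        rw [this, hx, mul_zero]
    ext j
    have h2 := h1 (Pi.single j 1) (by rw [htop]; trivial)
    rw [Finset.sum_eq_single j] at h2
    · simpa using h2
    · intro i _ hij
      simp [Pi.single_eq_of_ne hij]
    · intro hj; exact absurd (Finset.mem_univ j) hj
  obtain ⟨f, hf0, hf⟩ := Submodule.exists_le_ker_of_lt_top _ hlt
  refine ⟨fun i ↦ f (Pi.single i 1), ?_, ?_⟩
  · intro h0
    apply hf0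
    apply LinearMap.pi_ext'
    intro i
    ext
    exact congrFun h0 i
  · intro w hw
    have h1 : f w = 0 := hf (Submodule.subset_span hw)
    rw [← h1]
    conv_rhs => rw [← Finset.univ_sum_single w]
    rw [map_sum]
    refine Finset.sum_congr rfl fun i _ ↦ ?_
    have : (Pi.single i (w i) : Fin k → ℚ) = w i • Pi.single i 1 := by
      rw [← Pi.single_smul, smul_eq_mul, mul_one]
    rw [this, map_smul, smul_eq_mul, mul_comm]

variable {m n : ℕ}

/-- The complex coefficients of a Gaussian integral form. -/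
noncomputable def gc (α : Fin (m + 1) → GaussianInt) (k : Fin (m + 1)) : ℂ :=
  GaussianInt.toComplex (α k)

/-- The real part of a Gaussian integral form at a rational point. -/
def lre (α : Fin (m + 1) → GaussianInt) (s : Fin m → ℚ) : ℚ :=
  (α 0).re + ∑ k, (α k.succ).re * s k

/-- The imaginary part of a Gaussian integral form at a rational point. -/
def lim' (α : Fin (m + 1) → GaussianInt) (s : Fin m → ℚ) : ℚ :=
  (α 0).im + ∑ k, (α k.succ).im * s k

lemma lf_rat (α : Fin (m + 1) → GaussianInt) (s : Fin m → ℚ) :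
    lf (gc α) (fun k ↦ (s k : ℂ)) = ((lre α s : ℚ) : ℂ) + ((lim' α s : ℚ) : ℂ) * I := by
  unfold lf lin gc lre lim'
  simp only [GaussianInt.toComplex_def]
  push_cast
  rw [add_mul, Finset.sum_mul]
  have : ∑ x : Fin m, (((α x.succ).re : ℂ) + ((α x.succ).im : ℂ) * I) * (s x : ℂ) =
      ∑ x : Fin m, ((α x.succ).re : ℂ) * (s x : ℂ) + ∑ x : Fin m, ((α x.succ).im : ℂ) * (s x : ℂ) * I := by
    rw [← Finset.sum_add_distrib]
    refine Finset.sum_congr rfl fun k _ ↦ ?_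
    ring
  rw [this]
  ring

lemma lf_shift (α : Fin (m + 1) → ℂ) (t v : Fin m → ℂ) :
    lf α (fun k ↦ t k + v k) = lin α v + lf α t := by
  have := lf_line α t v 1
  simpa using this

theorem pair_relation {α β α' β' : Fin (m + 1) → GaussianInt} {t : Fin m → ℝ}
    (h1 : ∃ v, dt (gc α) (gc β) (fun k ↦ (t k : ℂ)) v ≠ 0)
    (h2 : ∃ v, dt (gc α') (gc β') (fun k ↦ (t k : ℂ)) v ≠ 0)
    (hbad : ∀ v k l, om (Qv (gc α) (gc β) (gc α') (gc β') (fun k ↦ (t k : ℂ)) v k)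
      (Qv (gc α) (gc β) (gc α') (gc β') (fun k ↦ (t k : ℂ)) v l) = 0) :
    ∃ g : Fin 4 → ℚ, g ≠ 0 ∧
      lf (gc α) (fun k ↦ (t k : ℂ)) * (g 0 * lf (gc α') (fun k ↦ (t k : ℂ)) +
        g 1 * lf (gc β') (fun k ↦ (t k : ℂ))) =
      lf (gc β) (fun k ↦ (t k : ℂ)) * (g 2 * lf (gc α') (fun k ↦ (t k : ℂ)) +
        g 3 * lf (gc β') (fun k ↦ (t k : ℂ))) := by
  set tc : Fin m → ℂ := fun k ↦ (t k : ℂ) with htc
  -- a nonzero entry
  have hd1 := dense_dt h1
  have hd2 := dense_dt h2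
  have hd := hd1.inter_of_isOpen_left hd2 (isOpen_ne_fun (continuous_dt _ _ _) continuous_const)
  obtain ⟨v₀, hv1, hv2⟩ := hd.nonempty
  have hv1' : dt (gc α) (gc β) tc v₀ ≠ 0 := hv1
  have hv2' : dt (gc α') (gc β') tc v₀ ≠ 0 := hv2
  have hk : ∃ k, Qv (gc α) (gc β) (gc α') (gc β') tc v₀ k ≠ 0 := by
    by_contra hcon
    push Not at hcon
    have e0 := hcon 0
    have e1 := hcon 1
    have e2 := hcon 2
    have e3 := hcon 3
    simp only [Qv, QQ4, Matrix.cons_val_zero, Matrix.cons_val_one, Matrix.cons_val] at e0 e1 e2 e3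
    apply mul_ne_zero hv1' hv2'
    unfold dt
    linear_combination (lin (gc β) v₀ * lin (gc β') v₀ * 0 + (lf (gc β) tc * lin (gc α') v₀ -
      lin (gc β) v₀ * lf (gc α') tc)) * e0 - (lin (gc β) v₀ * lf (gc β') tc -
      lf (gc β) tc * lin (gc β') v₀) * e1
  obtain ⟨k₀, hk₀⟩ := hk
  have hline : ∀ k (v w : Fin m → ℂ) (x : ℂ), Qv (gc α) (gc β) (gc α') (gc β') tc (v + x • w) k =
    Qv (gc α) (gc β) (gc α') (gc β') tc v k + x * Qv (gc α) (gc β) (gc α') (gc β') tc w k :=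
    fun k v w x ↦ Qv_line _ _ _ _ _ _ _ _ _
  choose ρ hρ using fun k ↦ forms_prop (hline k₀) (hline k) (fun v ↦ hbad v k₀ k) hk₀
  have hρk : ρ k₀ ≠ 0 := by
    intro h0
    have := hρ k₀ v₀
    rw [h0] at this
    simp at this
    exact hk₀ this
  -- the relation on the whole space
  have hH : ∀ s : Fin m → ℂ, lf (gc α) s * (ρ 2 * lf (gc α') s + ρ 3 * lf (gc β') s) -
      lf (gc β) s * (ρ 0 * lf (gc α') s + ρ 1 * lf (gc β') s) = 0 := by
    have hcont : Continuous fun v : Fin m → ℂ ↦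
        lf (gc α) (fun k ↦ tc k + v k) * (ρ 2 * lf (gc α') (fun k ↦ tc k + v k) +
          ρ 3 * lf (gc β') (fun k ↦ tc k + v k)) -
        lf (gc β) (fun k ↦ tc k + v k) * (ρ 0 * lf (gc α') (fun k ↦ tc k + v k) +
          ρ 1 * lf (gc β') (fun k ↦ tc k + v k)) := by
      have hs : Continuous fun v : Fin m → ℂ ↦ (fun k ↦ tc k + v k : Fin m → ℂ) := by fun_prop
      have c1 := (continuous_lf (gc α)).comp hs
      have c2 := (continuous_lf (gc β)).comp hs
      have c3 := (continuous_lf (gc α')).comp hs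
      have c4 := (continuous_lf (gc β')).comp hs
      exact (c1.mul ((continuous_const.mul c3).add (continuous_const.mul c4))).sub
        (c2.mul ((continuous_const.mul c3).add (continuous_const.mul c4)))
    have hv : Set.EqOn (fun v : Fin m → ℂ ↦
        lf (gc α) (fun k ↦ tc k + v k) * (ρ 2 * lf (gc α') (fun k ↦ tc k + v k) +
          ρ 3 * lf (gc β') (fun k ↦ tc k + v k)) -
        lf (gc β) (fun k ↦ tc k + v k) * (ρ 0 * lf (gc α') (fun k ↦ tc k + v k) +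
          ρ 1 * lf (gc β') (fun k ↦ tc k + v k))) (fun _ ↦ 0)
        {v | Qv (gc α) (gc β) (gc α') (gc β') tc v k₀ ≠ 0} := by
      intro v hv
      have e0 := hρ 0 v
      have e1 := hρ 1 v
      have e2 := hρ 2 v
      have e3 := hρ 3 v
      have hv' : Qv (gc α) (gc β) (gc α') (gc β') tc v k₀ ≠ 0 := hv
      generalize Qv (gc α) (gc β) (gc α') (gc β') tc v k₀ = X at hv' e0 e1 e2 e3
      simp only [Qv, QQ4, Matrix.cons_val_zero, Matrix.cons_val_one, Matrix.cons_val] at e0 e1 e2 e3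
      apply (mul_eq_zero.mp (?_ : X * _ = 0)).resolve_left hv'
      beta_reduce
      rw [lf_shift, lf_shift, lf_shift, lf_shift]
      linear_combination (-(lin (gc α) v + lf (gc α) tc) * (lin (gc α') v + lf (gc α') tc)) * e2 -
        (lin (gc α) v + lf (gc α) tc) * (lin (gc β') v + lf (gc β') tc) * e3 +
        (lin (gc β) v + lf (gc β) tc) * (lin (gc α') v + lf (gc α') tc) * e0 +
        (lin (gc β) v + lf (gc β) tc) * (lin (gc β') v + lf (gc β') tc) * e1
    have hall := Continuous.ext_on (dense_form (hline k₀) hk₀) hcont continuous_const hv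
    intro s
    have h5 := congrFun hall (fun k ↦ s k - tc k)
    simp only [add_sub_cancel] at h5
    exact h5
  -- rational vectors
  set wR : (Fin m → ℚ) → Fin 4 → ℚ := fun s ↦
    ![lre α s * lre α' s - lim' α s * lim' α' s, lre α s * lre β' s - lim' α s * lim' β' s,
      -(lre β s * lre α' s - lim' β s * lim' α' s), -(lre β s * lre β' s - lim' β s * lim' β' s)]
    with hwR
  set wI : (Fin m → ℚ) → Fin 4 → ℚ := fun s ↦
    ![lre α s * lim' α' s + lim' α s * lre α' s, lre α s * lim' β' s + lim' α s * lre β' s,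
      -(lre β s * lim' α' s + lim' β s * lre α' s), -(lre β s * lim' β' s + lim' β s * lre β' s)]
    with hwI
  have hrel : ∀ (g : Fin 4 → ℝ) (s : Fin m → ℚ),
      lf (gc α) (fun k ↦ (s k : ℂ)) * (g 0 * lf (gc α') (fun k ↦ (s k : ℂ)) +
        g 1 * lf (gc β') (fun k ↦ (s k : ℂ))) -
      lf (gc β) (fun k ↦ (s k : ℂ)) * (g 2 * lf (gc α') (fun k ↦ (s k : ℂ)) +
        g 3 * lf (gc β') (fun k ↦ (s k : ℂ))) =
      ((∑ i, g i * (wR s i : ℝ) : ℝ) : ℂ) + ((∑ i, g i * (wI s i : ℝ) : ℝ) : ℂ) * I := by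
    intro g s
    rw [lf_rat, lf_rat, lf_rat, lf_rat, Fin.sum_univ_four, Fin.sum_univ_four]
    simp only [hwR, hwI, Matrix.cons_val_zero, Matrix.cons_val_one, Matrix.cons_val]
    push_cast
    linear_combination ((lim' α s : ℂ) * (g 0 * lim' α' s + g 1 * lim' β' s) -
      lim' β s * (g 2 * lim' α' s + g 3 * lim' β' s)) * Complex.I_sq
  obtain ⟨g, hg0, hg⟩ := rational_relation (Set.range wR ∪ Set.range wI)
    ![ρ 2, ρ 3, ρ 0, ρ 1] (by
      intro h0
      apply hρk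
      have a0 := congrFun h0 0
      have a1 := congrFun h0 1
      have a2 := congrFun h0 2
      have a3 := congrFun h0 3
      simp at a0 a1 a2 a3
      fin_cases k₀
      · exact a2
      · exact a3
      · exact a0
      · exact a1) (by
      have key : ∀ s, ∑ i, (![ρ 2, ρ 3, ρ 0, ρ 1] : Fin 4 → ℝ) i * (wR s i : ℝ) = 0 ∧
          ∑ i, (![ρ 2, ρ 3, ρ 0, ρ 1] : Fin 4 → ℝ) i * (wI s i : ℝ) = 0 := by
        intro s
        have h3 := hrel ![ρ 2, ρ 3, ρ 0, ρ 1] s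
        simp only [Matrix.cons_val_zero, Matrix.cons_val_one, Matrix.cons_val] at h3
        rw [hH] at h3
        constructor
        · have := congrArg Complex.re h3
          simpa using this.symm
        · have := congrArg Complex.im h3
          simpa using this.symm
      rintro w (⟨s, rfl⟩ | ⟨s, rfl⟩)
      · exact (key s).1
      · exact (key s).2)
  refine ⟨g, hg0, ?_⟩
  have hcont : Continuous fun s : Fin m → ℝ ↦
      lf (gc α) (fun k ↦ (s k : ℂ)) * (g 0 * lf (gc α') (fun k ↦ (s k : ℂ)) +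
        g 1 * lf (gc β') (fun k ↦ (s k : ℂ))) -
      lf (gc β) (fun k ↦ (s k : ℂ)) * (g 2 * lf (gc α') (fun k ↦ (s k : ℂ)) +
        g 3 * lf (gc β') (fun k ↦ (s k : ℂ))) := by
    have hs : Continuous fun v : Fin m → ℝ ↦ (fun k ↦ (v k : ℂ) : Fin m → ℂ) := by fun_prop
    have c1 := (continuous_lf (gc α)).comp hs
    have c2 := (continuous_lf (gc β)).comp hs
    have c3 := (continuous_lf (gc α')).comp hs
    have c4 := (continuous_lf (gc β')).comp hs
    exact (c1.mul ((continuous_const.mul c3).add (continuous_const.mul c4))).sub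
      (c2.mul ((continuous_const.mul c3).add (continuous_const.mul c4)))
  have hdense : DenseRange (Pi.map (fun _ : Fin m ↦ (Rat.cast : ℚ → ℝ))) :=
    DenseRange.piMap fun _ ↦ Rat.denseRange_cast
  have hall := hdense.equalizer hcont (continuous_const (y := (0 : ℂ))) (by
    ext s
    simp only [Function.comp, Pi.map_apply]
    have h3 := hrel (fun i ↦ (g i : ℝ)) s
    have h4 : ∑ i, (g i : ℝ) * (wR s i : ℝ) = 0 := by
      have := hg (wR s) (Or.inl ⟨s, rfl⟩)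
      exact_mod_cast congrArg (Rat.cast : ℚ → ℝ) this
    have h5 : ∑ i, (g i : ℝ) * (wI s i : ℝ) = 0 := by
      have := hg (wI s) (Or.inr ⟨s, rfl⟩)
      exact_mod_cast congrArg (Rat.cast : ℚ → ℝ) this
    rw [h4, h5] at h3
    push_cast at h3 ⊢
    linear_combination h3)
  have h6 := congrFun hall t
  linear_combination h6

/-- inequivalence gives good directions for pairs -/
theorem pair_good {α β α' β' : Fin (m + 1) → GaussianInt} {t : Fin m → ℝ} {z z' : ℂ}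
    (hz : z = lf (gc α) (fun k ↦ (t k : ℂ)) / lf (gc β) (fun k ↦ (t k : ℂ)))
    (hz' : z' = lf (gc α') (fun k ↦ (t k : ℂ)) / lf (gc β') (fun k ↦ (t k : ℂ)))
    (him : 0 < z.im) (him' : 0 < z'.im)
    (h1 : ∃ v, dt (gc α) (gc β) (fun k ↦ (t k : ℂ)) v ≠ 0)
    (h2 : ∃ v, dt (gc α') (gc β') (fun k ↦ (t k : ℂ)) v ≠ 0)
    (hne : ¬ ∃ a b c d : ℚ, 0 < a * d - b * c ∧
      z = ((a : ℂ) * z' + (b : ℂ)) / ((c : ℂ) * z' + (d : ℂ))) :
    ∃ v k l, om (Qv (gc α) (gc β) (gc α') (gc β') (fun k ↦ (t k : ℂ)) v k)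
      (Qv (gc α) (gc β) (gc α') (gc β') (fun k ↦ (t k : ℂ)) v l) ≠ 0 := by
  by_contra hcon
  push Not at hcon
  obtain ⟨g, hg0, hg⟩ := pair_relation h1 h2 hcon
  have hB : lf (gc β) (fun k ↦ (t k : ℂ)) ≠ 0 := by
    intro h0
    rw [h0, div_zero] at hz
    rw [hz] at him
    simp at him
  have hB' : lf (gc β') (fun k ↦ (t k : ℂ)) ≠ 0 := by
    intro h0
    rw [h0, div_zero] at hz'
    rw [hz'] at him'
    simp at him'
  have hA : lf (gc α) (fun k ↦ (t k : ℂ)) = z * lf (gc β) (fun k ↦ (t k : ℂ)) := by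
    rw [hz]; field_simp
  have hA' : lf (gc α') (fun k ↦ (t k : ℂ)) = z' * lf (gc β') (fun k ↦ (t k : ℂ)) := by
    rw [hz']; field_simp
  have hrel : z * (g 0 * z' + g 1) = g 2 * z' + g 3 := by
    rw [hA, hA'] at hg
    have h3 : lf (gc β) (fun k ↦ (t k : ℂ)) * lf (gc β') (fun k ↦ (t k : ℂ)) *
        (z * (g 0 * z' + g 1) - (g 2 * z' + g 3)) = 0 := by linear_combination hg
    have h4 := (mul_eq_zero.mp h3).resolve_left (mul_ne_zero hB hB')
    linear_combination h4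
  have hlin : ∀ a b : ℚ, (a : ℂ) * z' + b = 0 → a = 0 ∧ b = 0 := by
    intro a b hab
    have h3 := congrArg Complex.im hab
    simp at h3
    have ha : a = 0 := by
      rcases h3 with h3 | h3
      · exact h3
      · exact absurd h3 him'.ne'
    refine ⟨ha, ?_⟩
    rw [ha] at hab
    simpa using hab
  have hden : (g 0 : ℂ) * z' + g 1 ≠ 0 := by
    intro h0
    rw [h0, mul_zero] at hrel
    obtain ⟨e0, e1⟩ := hlin _ _ h0
    obtain ⟨e2, e3⟩ := hlin _ _ hrel.symm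
    apply hg0
    ext k
    fin_cases k
    · exact e0
    · exact e1
    · exact e2
    · exact e3
  have hzeq : z = ((g 2 : ℂ) * z' + (g 3 : ℂ)) / ((g 0 : ℂ) * z' + (g 1 : ℂ)) := by
    rw [eq_div_iff hden]; exact hrel
  refine hne ⟨g 2, g 3, g 0, g 1, ?_, hzeq⟩
  -- positivity of the determinant
  have hns : 0 < Complex.normSq ((g 0 : ℂ) * z' + (g 1 : ℂ)) := Complex.normSq_pos.mpr hden
  have him2 : z.im = ((g 2 : ℝ) * g 1 - g 3 * g 0) * z'.im /
      Complex.normSq ((g 0 : ℂ) * z' + (g 1 : ℂ)) := by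
    rw [hzeq, Complex.div_im]
    simp only [Complex.add_re, Complex.add_im, Complex.mul_re, Complex.mul_im, Complex.ratCast_re,
      Complex.ratCast_im]
    field_simp
    ring
  rw [him2] at him
  have h5 : 0 < ((g 2 : ℝ) * g 1 - g 3 * g 0) * z'.im := by
    by_contra hcon2
    push Not at hcon2
    have := div_nonpos_of_nonpos_of_nonneg hcon2 hns.le
    linarith
  have h6 : 0 < (g 2 : ℝ) * g 1 - g 3 * g 0 := (pos_iff_pos_of_mul_pos h5).mpr him'
  exact_mod_cast h6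

/-- non-CM points are not constant -/
theorem nonCM_good {α β : Fin (m + 1) → GaussianInt} {t : Fin m → ℝ} {z : ℂ}
    (hz : z = lf (gc α) (fun k ↦ (t k : ℂ)) / lf (gc β) (fun k ↦ (t k : ℂ)))
    (him : 0 < z.im)
    (hCM : ¬ ∃ a b c : ℤ, a ≠ 0 ∧ (a : ℂ) * z ^ 2 + (b : ℂ) * z + (c : ℂ) = 0) :
    ∃ v, dt (gc α) (gc β) (fun k ↦ (t k : ℂ)) v ≠ 0 := by
  classical
  by_contra hcon
  push Not at hcon
  have hB : lf (gc β) (fun k ↦ (t k : ℂ)) ≠ 0 := by
    intro h0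
    rw [h0, div_zero] at hz
    rw [hz] at him
    simp at him
  have hlin : ∀ v, lin (gc α) v = z * lin (gc β) v := by
    intro v
    have h1 := hcon v
    unfold dt at h1
    rw [hz]
    field_simp
    linear_combination h1
  have hcoef : ∀ k, gc α k = z * gc β k := by
    intro k
    refine Fin.cases ?_ (fun k ↦ ?_) k
    · have h1 : lf (gc α) (fun k ↦ (t k : ℂ)) = z * lf (gc β) (fun k ↦ (t k : ℂ)) := by
        rw [hz]; field_simp
      have h2 := hlin (fun k ↦ (t k : ℂ))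
      unfold lf at h1
      linear_combination h1 - h2
    · have h1 := hlin (Pi.single k 1)
      unfold lin at h1
      simpa [Pi.single_apply] using h1
  have hk : ∃ k, β k ≠ 0 := by
    by_contra hcon2
    push Not at hcon2
    apply hB
    unfold lf lin gc
    simp [hcon2]
  obtain ⟨k, hk⟩ := hk
  apply hCM
  have h1 := hcoef k
  unfold gc at h1
  rw [GaussianInt.toComplex_def, GaussianInt.toComplex_def] at h1
  set x := (α k).re
  set y := (α k).im
  set u := (β k).re with hu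
  set v := (β k).im with hv
  refine ⟨(u ^ 2 + v ^ 2) ^ 2, -2 * (u ^ 2 + v ^ 2) * (x * u + y * v),
    (x * u + y * v) ^ 2 + (y * u - x * v) ^ 2, ?_, ?_⟩
  · have : u ^ 2 + v ^ 2 ≠ 0 := by
      intro h0
      apply hk
      have h2 : u = 0 := by nlinarith [sq_nonneg u, sq_nonneg v]
      have h3 : v = 0 := by nlinarith [sq_nonneg u, sq_nonneg v]
      exact Zsqrtd.ext h2 h3
    exact pow_ne_zero _ this
  · have e1 : ((u : ℂ) ^ 2 + v ^ 2) * z = (x * u + y * v) + (y * u - x * v) * I := by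
      linear_combination (-(u - v * I)) * h1 + ((v : ℂ) ^ 2 * z - y * v) * Complex.I_sq
    push_cast
    have e2 : (((u : ℂ) ^ 2 + v ^ 2) * z - (x * u + y * v)) ^ 2 = -((y : ℂ) * u - x * v) ^ 2 := by
      rw [e1]
      linear_combination ((y : ℂ) * u - x * v) ^ 2 * Complex.I_sq
    linear_combination e2

end H32

end S_Pairs2

section S_Liouville

/-!
# A Liouville inequality from integral power sums
-/

namespace H32

open MvPolynomial Finset

lemma int_esymm {σ : Type*} [Fintype σ] [DecidableEq σ] (Y : σ → ℂ)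
    (h : ∀ p : ℕ, 0 < p → ∃ z : ℤ, ∑ i, Y i ^ p = z) (k : ℕ) :
    ∃ z : ℤ, (k.factorial : ℂ) * aeval Y (esymm σ ℤ k) = z := by
  induction k using Nat.strong_induction_on with
  | _ k ih =>
  rcases Nat.eq_zero_or_pos k with rfl | hk
  · exact ⟨1, by simp⟩
  · have h1 := congrArg (aeval Y) (mul_esymm_eq_sum σ ℤ k)
    simp only [map_mul, map_natCast, map_pow, map_neg, map_one, map_sum] at h1
    have h2 : ∀ a ∈ (HasAntidiagonal.antidiagonal k).filter (fun a ↦ a.1 < k), ∃ z : ℤ,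
        ((k - 1).factorial : ℂ) * ((-1) ^ a.1 * aeval Y (esymm σ ℤ a.1) * aeval Y (psum σ ℤ a.2)) = z := by
      intro a ha
      rw [mem_filter, HasAntidiagonal.mem_antidiagonal] at ha
      obtain ⟨z1, hz1⟩ := ih a.1 ha.2
      obtain ⟨z2, hz2⟩ := h a.2 (by omega)
      have hp : aeval Y (psum σ ℤ a.2) = ∑ i, Y i ^ a.2 := by
        simp [psum]
      obtain ⟨m, hm⟩ := Nat.factorial_dvd_factorial (show a.1 ≤ k - 1 by omega)
      refine ⟨m * (-1) ^ a.1 * z1 * z2, ?_⟩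
      rw [hp, hz2, hm]
      push_cast
      rw [← hz1]
      ring
    choose! g hg using h2
    refine ⟨(-1) ^ (k + 1) * ∑ a ∈ (HasAntidiagonal.antidiagonal k).filter (fun a ↦ a.1 < k), g a, ?_⟩
    have hf : (k.factorial : ℂ) = (k - 1).factorial * k := by
      have := Nat.mul_factorial_pred hk.ne'
      rw [← this]; push_cast; ring
    rw [hf, mul_assoc, h1]
    push_cast
    rw [← Finset.sum_congr rfl hg, ← Finset.mul_sum]
    ring

/-- If all power sums of a finite family of complex numbers of modulus at most `B` are integers,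
then the nonzero members are not too small. -/
theorem liouville {ι : Type*} (s : Finset ι) (Y : ι → ℂ) (B : ℝ) (hB : 1 ≤ B)
    (hY : ∀ i ∈ s, ‖Y i‖ ≤ B) (h : ∀ p : ℕ, 0 < p → ∃ z : ℤ, ∑ i ∈ s, Y i ^ p = z)
    {i : ι} (hi : i ∈ s) (hi0 : Y i ≠ 0) :
    1 ≤ ‖Y i‖ * ((s.card.factorial : ℝ) * B ^ s.card) := by
  classical
  set t := s.filter (fun j ↦ Y j ≠ 0) with ht
  have hit : i ∈ t := mem_filter.mpr ⟨hi, hi0⟩
  have hts : t.card ≤ s.card := card_le_card (filter_subset _ _)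
  have h1 : ∀ p : ℕ, 0 < p → ∃ z : ℤ, ∑ j : t, Y j ^ p = z := by
    intro p hp
    obtain ⟨z, hz⟩ := h p hp
    refine ⟨z, ?_⟩
    rw [← hz, Finset.sum_coe_sort t (fun j ↦ Y j ^ p)]
    refine sum_subset (filter_subset _ _) fun j hj hj' ↦ ?_
    have : Y j = 0 := by
      by_contra h0
      exact hj' (mem_filter.mpr ⟨hj, h0⟩)
    rw [this, zero_pow hp.ne']
  obtain ⟨z, hz⟩ := int_esymm (fun j : t ↦ Y j) h1 t.card
  have h2 : aeval (fun j : t ↦ Y j) (esymm t ℤ t.card) = ∏ j ∈ t, Y j := by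
    have : esymm t ℤ t.card = ∏ j : t, X j := by
      rw [esymm]
      have hc : t.card = (univ : Finset t).card := by simp
      rw [hc, powersetCard_self]
      simp
    rw [this, map_prod]
    simp only [aeval_X]
    exact Finset.prod_coe_sort t Y
  rw [h2] at hz
  have hne : (t.card.factorial : ℂ) * ∏ j ∈ t, Y j ≠ 0 := by
    refine mul_ne_zero (by exact_mod_cast Nat.factorial_ne_zero _) (prod_ne_zero_iff.mpr fun j hj ↦ ?_)
    exact (mem_filter.mp hj).2
  have hz0 : z ≠ 0 := by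
    rintro rfl
    rw [hz] at hne
    exact hne (by simp)
  have h3 : 1 ≤ ‖(t.card.factorial : ℂ) * ∏ j ∈ t, Y j‖ := by
    rw [hz, Complex.norm_intCast]
    exact_mod_cast Int.one_le_abs hz0
  rw [norm_mul, Complex.norm_natCast, ← mul_prod_erase t Y hit, norm_mul, norm_prod] at h3
  have h4 : ∏ j ∈ t.erase i, ‖Y j‖ ≤ B ^ s.card := by
    calc ∏ j ∈ t.erase i, ‖Y j‖ ≤ ∏ j ∈ t.erase i, B :=
          prod_le_prod (fun _ _ ↦ norm_nonneg _)
            fun j hj ↦ hY j (mem_of_mem_filter _ (mem_of_mem_erase hj))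
      _ = B ^ (t.erase i).card := prod_const _
      _ ≤ B ^ s.card := pow_le_pow_right₀ hB ((card_le_card (erase_subset _ _)).trans hts)
  have h5 : (t.card.factorial : ℝ) ≤ s.card.factorial := by
    exact_mod_cast Nat.factorial_le hts
  calc (1 : ℝ) ≤ t.card.factorial * (‖Y i‖ * ∏ j ∈ t.erase i, ‖Y j‖) := h3
    _ ≤ s.card.factorial * (‖Y i‖ * B ^ s.card) := by gcongr
    _ = _ := by ring

end H32

end S_Liouville

section S_App

/-!
# A Liouville inequality for Eisenstein values at points of Q(i)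
-/

open UpperHalfPlane hiding I
open Complex EisensteinSeries ModularForm MatrixGroups Manifold Asymptotics
open scoped Real
open MvPolynomial

namespace H32

variable {n : ℕ}

/-- The weights `2, 4, 6`. -/
def wt3 (x : Fin n × Fin 3) : ℕ := ![2, 4, 6] x.2

/-- The weights `0, 2, 4, 6`. -/
def wt4 (x : Fin n × Fin 4) : ℕ := ![0, 2, 4, 6] x.2

lemma weight_wt3 (m : (Fin n × Fin 3) →₀ ℕ) : Finsupp.weight (wt3 : Fin n × Fin 3 → ℕ) m =
    ∑ j, (2 * m (j, 0) + 4 * m (j, 1) + 6 * m (j, 2)) := by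
  rw [Finsupp.weight_apply, Finsupp.sum_fintype _ _ (by simp), Fintype.sum_prod_type]
  refine Finset.sum_congr rfl fun j _ ↦ ?_
  simp [Fin.sum_univ_three, wt3]
  ring

lemma weight_wt4 (m : (Fin n × Fin 4) →₀ ℕ) : Finsupp.weight (wt4 : Fin n × Fin 4 → ℕ) m =
    ∑ j, (2 * m (j, 1) + 4 * m (j, 2) + 6 * m (j, 3)) := by
  rw [Finsupp.weight_apply, Finsupp.sum_fintype _ _ (by simp), Fintype.sum_prod_type]
  refine Finset.sum_congr rfl fun j _ ↦ ?_
  simp [Fin.sum_univ_four, wt4]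
  ring

/-- evaluation at the tuple of scaled values -/
noncomputable def evA (M : Fin n → ℕ × ℕ × ℕ) (Ψ : MvPolynomial (Fin n × Fin 3) ℤ) : ℂ :=
  aeval (fun x : Fin n × Fin 3 ↦ AA (M x.1) x.2) Ψ

lemma sum_evA {ω : ℂ} (hω : ω ^ 4 = E₄ UpperHalfPlane.I) (Ψ : MvPolynomial (Fin n × Fin 3) ℤ)
    {V : ℕ} (hΨ : IsWeightedHomogeneous wt3 Ψ V) {N : Fin n → ℕ} (hN : ∀ j, 0 < N j) :
    ∃ z : ℤ, 1728 ^ V * ∑ M ∈ Fintype.piFinset (fun j ↦ SN (N j)), evA M Ψ = z * ω ^ V := by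
  have h1 : ∀ m ∈ Ψ.support, ∃ z : ℤ, 1728 ^ V * ∑ M ∈ Fintype.piFinset (fun j ↦ SN (N j)),
      ∏ x : Fin n × Fin 3, AA (M x.1) x.2 ^ m x = z * ω ^ V := by
    intro m hm
    have hw : ∑ j, (2 * m (j, 0) + 4 * m (j, 1) + 6 * m (j, 2)) = V := by
      rw [← weight_wt3]; exact hΨ (mem_support_iff.mp hm)
    have hz : ∀ j, ∃ z : ℤ, 1728 ^ (2 * m (j, 0) + 4 * m (j, 1) + 6 * m (j, 2)) *
        ∑ s ∈ SN (N j), ∏ l, AA s l ^ m (j, l) =
        z * ω ^ (2 * m (j, 0) + 4 * m (j, 1) + 6 * m (j, 2)) := by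
      intro j
      obtain ⟨z, hz⟩ := hecke_sum hω (hN j) (m (j, 0)) (m (j, 1)) (m (j, 2))
      refine ⟨z, ?_⟩
      rw [← hz]
      congr 1
      refine Finset.sum_congr rfl fun s _ ↦ ?_
      rw [Fin.prod_univ_three]
      rfl
    choose z hz using hz
    refine ⟨∏ j, z j, ?_⟩
    have h2 : ∀ M : Fin n → ℕ × ℕ × ℕ, ∏ x : Fin n × Fin 3, AA (M x.1) x.2 ^ m x =
        ∏ j, ∏ l, AA (M j) l ^ m (j, l) := fun M ↦ Fintype.prod_prod_type _
    simp_rw [h2]
    rw [← Finset.prod_univ_sum (fun j ↦ SN (N j)) (fun j s ↦ ∏ l, AA s l ^ m (j, l)), ← hw,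
      ← Finset.prod_pow_eq_pow_sum, ← Finset.prod_pow_eq_pow_sum, ← Finset.prod_mul_distrib,
      Finset.prod_congr rfl fun j _ ↦ hz j, Finset.prod_mul_distrib]
    push_cast
    rfl
  choose! z hz using h1
  refine ⟨∑ m ∈ Ψ.support, Ψ.coeff m * z m, ?_⟩
  have h3 : ∀ M, evA M Ψ = ∑ m ∈ Ψ.support, ((Ψ.coeff m : ℤ) : ℂ) * ∏ x : Fin n × Fin 3, AA (M x.1) x.2 ^ m x := by
    intro M
    rw [evA, aeval_def, eval₂_eq']
    rfl
  simp_rw [h3]
  rw [Finset.sum_comm, Finset.mul_sum]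
  push_cast
  rw [Finset.sum_mul]
  refine Finset.sum_congr rfl fun m hm ↦ ?_
  rw [← Finset.mul_sum, mul_left_comm, hz m hm]
  ring

theorem app1 {ω : ℂ} (hω : ω ^ 4 = E₄ UpperHalfPlane.I) (Ψ : MvPolynomial (Fin n × Fin 3) ℤ)
    {V : ℕ} (hΨ : IsWeightedHomogeneous wt3 Ψ V) {N : Fin n → ℕ} (hN : ∀ j, 0 < N j)
    {B : ℝ} (hB1 : 1 ≤ B)
    (hB : ∀ M ∈ Fintype.piFinset (fun j ↦ SN (N j)), ‖(1728 / ω) ^ V * evA M Ψ‖ ≤ B)
    {M : Fin n → ℕ × ℕ × ℕ} (hM : M ∈ Fintype.piFinset (fun j ↦ SN (N j)))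
    (hne : evA M Ψ ≠ 0) :
    1 ≤ ‖(1728 / ω) ^ V * evA M Ψ‖ *
      (((Fintype.piFinset (fun j ↦ SN (N j))).card.factorial : ℝ) *
        B ^ (Fintype.piFinset (fun j ↦ SN (N j))).card) := by
  have hω0 : ω ≠ 0 := by
    rintro rfl
    rw [zero_pow (by norm_num)] at hω
    exact E4_I_ne hω.symm
  refine liouville _ (fun M ↦ (1728 / ω) ^ V * evA M Ψ) B hB1 hB ?_ hM ?_
  · intro p hp
    obtain ⟨z, hz⟩ := sum_evA hω (Ψ ^ p) (hΨ.pow p) hN
    refine ⟨z, ?_⟩
    have h1 : ∀ M : Fin n → ℕ × ℕ × ℕ, ((1728 / ω) ^ V * evA M Ψ) ^ p =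
        (1728 / ω) ^ (p * V) * evA M (Ψ ^ p) := by
      intro M
      rw [mul_pow, ← pow_mul, mul_comm V p]
      simp [evA]
    simp_rw [h1]
    rw [← Finset.mul_sum, div_pow, div_mul_eq_mul_div, div_eq_iff (pow_ne_zero _ hω0)]
    simpa using hz
  · refine mul_ne_zero (pow_ne_zero _ (div_ne_zero (by norm_num) hω0)) hne

end H32

end S_App

section S_Algebra

/-!
# From homogeneous nonvanishing to transcendence degree
-/

open MvPolynomial

namespace H32

variable {n : ℕ}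

lemma countable_mv : Countable (MvPolynomial (Fin n × Fin 4) ℤ) := by
  rw [← Cardinal.mk_le_aleph0_iff]
  refine (MvPolynomial.cardinalMk_le_max).trans ?_
  exact max_le (max_le Cardinal.mk_le_aleph0 Cardinal.mk_le_aleph0) le_rfl

lemma exists_transcendental (ξ : Fin n × Fin 4 → ℂ) :
    ∃ μ : ℂ, Transcendental (aeval ξ : MvPolynomial (Fin n × Fin 4) ℤ →ₐ[ℤ] ℂ).range μ := by
  have hcount : Countable (aeval ξ : MvPolynomial (Fin n × Fin 4) ℤ →ₐ[ℤ] ℂ).range := by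
    have := countable_mv (n := n)
    exact Function.Surjective.countable
      (AlgHom.rangeRestrict_surjective (aeval ξ : MvPolynomial (Fin n × Fin 4) ℤ →ₐ[ℤ] ℂ))
  by_contra hcon
  push Not at hcon
  have h1 := Algebraic.countable (aeval ξ : MvPolynomial (Fin n × Fin 4) ℤ →ₐ[ℤ] ℂ).range ℂ
  have h2 : {x : ℂ | IsAlgebraic (aeval ξ : MvPolynomial (Fin n × Fin 4) ℤ →ₐ[ℤ] ℂ).range x} =
      Set.univ := by
    ext x
    have := hcon x
    rw [Transcendental, not_not] at this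
    exact iff_of_true this trivial
  rw [h2] at h1
  exact not_countable_complex h1

lemma scaled_indep (ξ : Fin n × Fin 4 → ℂ)
    (hξ : ∀ (Φ : MvPolynomial (Fin n × Fin 4) ℤ) (W : ℕ), IsWeightedHomogeneous wt4 Φ W →
      Φ ≠ 0 → aeval ξ Φ ≠ 0) :
    ∃ μ : ℂ, μ ≠ 0 ∧ AlgebraicIndependent ℤ (fun x ↦ μ ^ (wt4 x) * ξ x) := by
  classical
  obtain ⟨μ, hμ⟩ := exists_transcendental ξ
  refine ⟨μ, ?_, ?_⟩
  · rintro rfl
    exact hμ isAlgebraic_zero
  rw [algebraicIndependent_iff]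
  intro P hP
  by_contra hne
  obtain ⟨m₀, hm₀⟩ := MvPolynomial.support_nonempty.mpr hne
  set rr := AlgHom.rangeRestrict (aeval ξ : MvPolynomial (Fin n × Fin 4) ℤ →ₐ[ℤ] ℂ) with hrr
  have hrrv : ∀ p, ((rr p : (aeval ξ : MvPolynomial (Fin n × Fin 4) ℤ →ₐ[ℤ] ℂ).range) : ℂ) =
    aeval ξ p := fun p ↦ rfl
  set Q : Polynomial (aeval ξ : MvPolynomial (Fin n × Fin 4) ℤ →ₐ[ℤ] ℂ).range :=
    ∑ m ∈ P.support, Polynomial.monomial (Finsupp.weight wt4 m)
      (rr (monomial m (P.coeff m))) with hQ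
  have hQ0 : Polynomial.aeval μ Q = 0 := by
    rw [hQ, map_sum, ← hP]
    conv_rhs => rw [P.as_sum, map_sum]
    refine Finset.sum_congr rfl fun m _ ↦ ?_
    rw [Polynomial.aeval_monomial]
    change aeval ξ (monomial m (P.coeff m)) * _ = _
    rw [aeval_monomial, aeval_monomial, Finsupp.prod_fintype _ _ (by simp),
      Finsupp.prod_fintype _ _ (by simp)]
    have : ∏ i, (μ ^ wt4 i * ξ i) ^ m i = μ ^ (Finsupp.weight wt4 m) * ∏ i, ξ i ^ m i := by
      rw [Finsupp.weight_apply, Finsupp.sum_fintype _ _ (by simp), ← Finset.prod_pow_eq_pow_sum,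
        ← Finset.prod_mul_distrib]
      refine Finset.prod_congr rfl fun i _ ↦ ?_
      rw [mul_pow, ← pow_mul, smul_eq_mul, mul_comm (m i)]
    rw [this]
    ring
  have hQz : Q = 0 := by
    by_contra h
    exact hμ ⟨Q, h, hQ0⟩
  have hcoeff : rr (weightedHomogeneousComponent wt4 (Finsupp.weight wt4 m₀) P) = 0 := by
    have h1 := congrArg (fun q ↦ (Polynomial.coeff q (Finsupp.weight wt4 m₀))) hQz
    simp only [hQ, Polynomial.finsetSum_coeff, Polynomial.coeff_monomial,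
      Polynomial.coeff_zero] at h1
    rw [weightedHomogeneousComponent_apply, map_sum, Finset.sum_filter]
    exact h1
  have hcomp : aeval ξ (weightedHomogeneousComponent wt4 (Finsupp.weight wt4 m₀) P) = 0 := by
    rw [← hrrv, hcoeff]
    rfl
  refine hξ _ _ (weightedHomogeneousComponent_isWeightedHomogeneous (Finsupp.weight wt4 m₀) P)
    ?_ hcomp
  intro h0
  have h1 := congrArg (coeff m₀) h0
  rw [coeff_weightedHomogeneousComponent, if_pos rfl, coeff_zero] at h1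
  exact (MvPolynomial.mem_support_iff.mp hm₀) h1

lemma matroid_step (S η : Fin n × Fin 4 → ℂ) (hη : AlgebraicIndependent ℚ η) (μ : ℂ)
    (halg : ∀ x, IsAlgebraic (Algebra.adjoin ℚ (insert μ (Set.range S))) (η x)) :
    ∃ f : Fin (4 * n - 1) → Fin n × Fin 4, AlgebraicIndependent ℚ (fun k ↦ S (f k)) := by
  classical
  set M := AlgebraicIndependent.matroid ℚ ℂ with hM
  have hX : M.Indep (Set.range η) := by
    rw [hM, AlgebraicIndependent.matroid_indep_iff]
    exact hη.to_subtype_range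
  have hXcard : (Set.range η).encard = (4 * n : ℕ) := by
    rw [← Set.image_univ, hη.injective.encard_image, Set.encard_univ]
    simp [mul_comm]
  have hsub : Set.range η ⊆ M.closure (insert μ (Set.range S)) := by
    rw [hM, AlgebraicIndependent.matroid_closure_eq]
    rintro _ ⟨x, rfl⟩
    exact halg x
  obtain ⟨B, hB⟩ := M.exists_isBasis (Set.range S)
  have h1 : (Set.range η).encard ≤ M.eRk (insert μ (Set.range S)) := by
    rw [← M.eRk_closure_eq]
    exact hX.encard_le_eRk_of_subset hsub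
  have h2 : M.eRk (insert μ (Set.range S)) ≤ B.encard + 1 := by
    rw [← hB.eRk_eq_encard]
    exact M.eRk_insert_le_add_one _ _
  have h3 : ((4 * n : ℕ) : ℕ∞) ≤ B.encard + 1 := by
    rw [← hXcard]; exact h1.trans h2
  have hBsub : B ⊆ Set.range S := hB.subset
  have hBfin : B.Finite := (Set.finite_range S).subset hBsub
  have h4 : 4 * n - 1 ≤ B.ncard := by
    rw [hBfin.encard_eq_coe_toFinset_card] at h3
    have h5 : 4 * n ≤ hBfin.toFinset.card + 1 := by exact_mod_cast h3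
    rw [Set.ncard_eq_toFinset_card B hBfin]
    omega
  have hfin : Fintype B := hBfin.fintype
  have h6 : Fintype.card (Fin (4 * n - 1)) ≤ Fintype.card B := by
    rw [Fintype.card_fin, ← Nat.card_eq_fintype_card]
    exact h4
  obtain ⟨g⟩ := Function.Embedding.nonempty_of_card_le h6
  choose f hf using fun k ↦ hBsub (g k).2
  refine ⟨f, ?_⟩
  have hBind : AlgebraicIndependent ℚ (fun b : B ↦ (b : ℂ)) := by
    have := hB.indep
    rw [hM, AlgebraicIndependent.matroid_indep_iff] at this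
    exact this
  have h7 := hBind.comp g g.injective
  convert h7 using 1
  ext k
  exact hf k

end H32

end S_Algebra

section S_Algebra2

/-!
# Transcendence degree bookkeeping
-/

open MvPolynomial

namespace H32

section

variable {σ : Type} [Fintype σ]

lemma countable_mv' : Countable (MvPolynomial σ ℤ) := by
  rw [← Cardinal.mk_le_aleph0_iff]
  refine (MvPolynomial.cardinalMk_le_max).trans ?_
  exact max_le (max_le Cardinal.mk_le_aleph0 Cardinal.mk_le_aleph0) le_rfl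

lemma exists_transcendental' (ξ : σ → ℂ) :
    ∃ μ : ℂ, Transcendental (aeval ξ : MvPolynomial σ ℤ →ₐ[ℤ] ℂ).range μ := by
  have hcount : Countable (aeval ξ : MvPolynomial σ ℤ →ₐ[ℤ] ℂ).range := by
    have := countable_mv' (σ := σ)
    exact Function.Surjective.countable
      (AlgHom.rangeRestrict_surjective (aeval ξ : MvPolynomial σ ℤ →ₐ[ℤ] ℂ))
  by_contra hcon
  push Not at hcon
  have h1 := Algebraic.countable (aeval ξ : MvPolynomial σ ℤ →ₐ[ℤ] ℂ).range ℂ
  have h2 : {x : ℂ | IsAlgebraic (aeval ξ : MvPolynomial σ ℤ →ₐ[ℤ] ℂ).range x} =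
      Set.univ := by
    ext x
    have := hcon x
    rw [Transcendental, not_not] at this
    exact iff_of_true this trivial
  rw [h2] at h1
  exact not_countable_complex h1

lemma scaled_indep' (w : σ → ℕ) (ξ : σ → ℂ)
    (hξ : ∀ (Φ : MvPolynomial σ ℤ) (W : ℕ), IsWeightedHomogeneous w Φ W →
      Φ ≠ 0 → aeval ξ Φ ≠ 0) :
    ∃ μ : ℂ, μ ≠ 0 ∧ AlgebraicIndependent ℤ (fun x ↦ μ ^ (w x) * ξ x) := by
  classical
  obtain ⟨μ, hμ⟩ := exists_transcendental' ξ
  refine ⟨μ, ?_, ?_⟩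
  · rintro rfl
    exact hμ isAlgebraic_zero
  rw [algebraicIndependent_iff]
  intro P hP
  by_contra hne
  obtain ⟨m₀, hm₀⟩ := MvPolynomial.support_nonempty.mpr hne
  set rr := AlgHom.rangeRestrict (aeval ξ : MvPolynomial σ ℤ →ₐ[ℤ] ℂ) with hrr
  have hrrv : ∀ p, ((rr p : (aeval ξ : MvPolynomial σ ℤ →ₐ[ℤ] ℂ).range) : ℂ) =
    aeval ξ p := fun p ↦ rfl
  set Q : Polynomial (aeval ξ : MvPolynomial σ ℤ →ₐ[ℤ] ℂ).range :=
    ∑ m ∈ P.support, Polynomial.monomial (Finsupp.weight w m)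
      (rr (monomial m (P.coeff m))) with hQ
  have hQ0 : Polynomial.aeval μ Q = 0 := by
    rw [hQ, map_sum, ← hP]
    conv_rhs => rw [P.as_sum, map_sum]
    refine Finset.sum_congr rfl fun m _ ↦ ?_
    rw [Polynomial.aeval_monomial]
    change aeval ξ (monomial m (P.coeff m)) * _ = _
    rw [aeval_monomial, aeval_monomial, Finsupp.prod_fintype _ _ (by simp),
      Finsupp.prod_fintype _ _ (by simp)]
    have : ∏ i, (μ ^ w i * ξ i) ^ m i = μ ^ (Finsupp.weight w m) * ∏ i, ξ i ^ m i := by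
      rw [Finsupp.weight_apply, Finsupp.sum_fintype _ _ (by simp), ← Finset.prod_pow_eq_pow_sum,
        ← Finset.prod_mul_distrib]
      refine Finset.prod_congr rfl fun i _ ↦ ?_
      rw [mul_pow, ← pow_mul, smul_eq_mul, mul_comm (m i)]
    rw [this]
    ring
  have hQz : Q = 0 := by
    by_contra h
    exact hμ ⟨Q, h, hQ0⟩
  have hcoeff : rr (weightedHomogeneousComponent w (Finsupp.weight w m₀) P) = 0 := by
    have h1 := congrArg (fun q ↦ (Polynomial.coeff q (Finsupp.weight w m₀))) hQz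
    simp only [hQ, Polynomial.finsetSum_coeff, Polynomial.coeff_monomial,
      Polynomial.coeff_zero] at h1
    rw [weightedHomogeneousComponent_apply, map_sum, Finset.sum_filter]
    exact h1
  have hcomp : aeval ξ (weightedHomogeneousComponent w (Finsupp.weight w m₀) P) = 0 := by
    rw [← hrrv, hcoeff]
    rfl
  refine hξ _ _ (weightedHomogeneousComponent_isWeightedHomogeneous (Finsupp.weight w m₀) P)
    ?_ hcomp
  intro h0
  have h1 := congrArg (coeff m₀) h0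
  rw [coeff_weightedHomogeneousComponent, if_pos rfl, coeff_zero] at h1
  exact (MvPolynomial.mem_support_iff.mp hm₀) h1

end

lemma extract_indep {ι : Type*} [Finite ι] (S : ι → ℂ) {B : Set ℂ}
    (hB : AlgebraicIndependent ℚ (fun b : B ↦ (b : ℂ))) (hBS : B ⊆ Set.range S) {N : ℕ}
    (hN : (N : ℕ∞) ≤ B.encard) :
    ∃ f : Fin N → ι, AlgebraicIndependent ℚ (fun k ↦ S (f k)) := by
  classical
  have hBfin : B.Finite := (Set.finite_range S).subset hBS
  have hfin : Fintype B := hBfin.fintype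
  have h6 : Fintype.card (Fin N) ≤ Fintype.card B := by
    rw [Fintype.card_fin, ← Nat.card_eq_fintype_card]
    change N ≤ B.ncard
    rw [hBfin.encard_eq_coe_toFinset_card] at hN
    rw [Set.ncard_eq_toFinset_card B hBfin]
    exact_mod_cast hN
  obtain ⟨g⟩ := Function.Embedding.nonempty_of_card_le h6
  choose f hf using fun k ↦ hBS (g k).2
  refine ⟨f, ?_⟩
  have h7 := hB.comp g g.injective
  convert h7 using 1
  ext k
  exact hf k

lemma matroid_submod {m n : ℕ} {τ : Type*} [Fintype τ] (S : Fin n × Fin 4 → ℂ) (t : Fin m → ℂ)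
    (η : τ → ℂ) (hη : AlgebraicIndependent ℚ η) (hcard : Fintype.card τ = m + 3 * n) (μ : ℂ)
    (halg : ∀ x, IsAlgebraic (Algebra.adjoin ℚ (insert μ (Set.range S ∪ Set.range t))) (η x))
    (hz : ∀ j, IsAlgebraic (Algebra.adjoin ℚ (Set.range t)) (S (j, 0)))
    {ρ : ℕ} (g : Fin ρ → Fin n) (hg : AlgebraicIndependent ℚ (fun k ↦ S (g k, 0))) :
    ∃ f : Fin (3 * n + ρ - 1) → Fin n × Fin 4, AlgebraicIndependent ℚ (fun k ↦ S (f k)) := by
  classical
  set M := AlgebraicIndependent.matroid ℚ ℂ with hM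
  set Z : Set ℂ := Set.range (fun j : Fin n ↦ S (j, 0)) with hZ
  -- the big independent set
  have hX : M.Indep (Set.range η) := by
    rw [hM, AlgebraicIndependent.matroid_indep_iff]
    exact hη.to_subtype_range
  have hXcard : (Set.range η).encard = (m + 3 * n : ℕ) := by
    rw [← Set.image_univ, hη.injective.encard_image, Set.encard_univ, ENat.card_eq_coe_fintype_card,
      hcard]
  have hsub : Set.range η ⊆ M.closure (insert μ (Set.range S ∪ Set.range t)) := by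
    rw [hM, AlgebraicIndependent.matroid_closure_eq]
    rintro _ ⟨x, rfl⟩
    exact halg x
  have h1 : ((m + 3 * n : ℕ) : ℕ∞) ≤ M.eRk (Set.range S ∪ Set.range t) + 1 := by
    rw [← hXcard]
    calc (Set.range η).encard ≤ M.eRk (insert μ (Set.range S ∪ Set.range t)) := by
          rw [← M.eRk_closure_eq]
          exact hX.encard_le_eRk_of_subset hsub
      _ ≤ _ := M.eRk_insert_le_add_one _ _
  -- the rank of the coordinates
  have hY : M.Indep (Set.range (fun k ↦ S (g k, 0))) := by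
    rw [hM, AlgebraicIndependent.matroid_indep_iff]
    exact hg.to_subtype_range
  have hYcard : (Set.range (fun k ↦ S (g k, 0))).encard = (ρ : ℕ) := by
    rw [← Set.image_univ, hg.injective.encard_image, Set.encard_univ]
    simp
  have h2 : (ρ : ℕ∞) ≤ M.eRk (Set.range S ∩ (Z ∪ Set.range t)) := by
    rw [← hYcard]
    refine hY.encard_le_eRk_of_subset ?_
    rintro _ ⟨k, rfl⟩
    exact ⟨⟨(g k, 0), rfl⟩, Or.inl ⟨g k, rfl⟩⟩
  have h3 : M.eRk (Z ∪ Set.range t) ≤ (m : ℕ∞) := by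
    calc M.eRk (Z ∪ Set.range t) ≤ M.eRk (M.closure (Set.range t)) := by
          refine M.eRk_mono (Set.union_subset ?_ ?_)
          · rw [hM, AlgebraicIndependent.matroid_closure_eq]
            rintro _ ⟨j, rfl⟩
            exact hz j
          · refine M.subset_closure _ ?_
            rw [hM]
            exact Set.subset_univ _
      _ = M.eRk (Set.range t) := M.eRk_closure_eq _
      _ ≤ (Set.range t).encard := M.eRk_le_encard _
      _ ≤ (Set.univ : Set (Fin m)).encard := by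
          rw [← Set.image_univ]
          exact Set.encard_image_le _ _
      _ = m := by simp
  have h4 := M.eRk_submod (Set.range S) (Z ∪ Set.range t)
  have h5 : M.eRk (Set.range S ∪ Set.range t) ≤ M.eRk (Set.range S ∪ (Z ∪ Set.range t)) :=
    M.eRk_mono (Set.union_subset_union_right _ Set.subset_union_right)
  have h6 : (ρ : ℕ∞) + M.eRk (Set.range S ∪ Set.range t) ≤ M.eRk (Set.range S) + m :=
    (add_le_add h2 h5).trans (h4.trans (add_le_add le_rfl h3))
  have h7 : ((ρ + (m + 3 * n) : ℕ) : ℕ∞) ≤ M.eRk (Set.range S) + m + 1 := by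
    calc ((ρ + (m + 3 * n) : ℕ) : ℕ∞) = ρ + ((m + 3 * n : ℕ) : ℕ∞) := by push_cast; rfl
      _ ≤ ρ + (M.eRk (Set.range S ∪ Set.range t) + 1) := by gcongr
      _ = (ρ + M.eRk (Set.range S ∪ Set.range t)) + 1 := by rw [add_assoc]
      _ ≤ _ := by gcongr
  obtain ⟨B, hB⟩ := M.exists_isBasis (Set.range S)
  have hBsub : B ⊆ Set.range S := hB.subset
  have hBfin : B.Finite := (Set.finite_range S).subset hBsub
  rw [← hB.encard_eq_eRk] at h7
  refine extract_indep S (B := B) ?_ hBsub ?_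
  · have := hB.indep
    rw [hM, AlgebraicIndependent.matroid_indep_iff] at this
    exact this
  · rw [hBfin.encard_eq_coe_toFinset_card] at h7 ⊢
    have h8 : ρ + (m + 3 * n) ≤ hBfin.toFinset.card + m + 1 := by exact_mod_cast h7
    have h9 : 3 * n + ρ - 1 ≤ hBfin.toFinset.card := by omega
    exact_mod_cast h9

end H32

end S_Algebra2

section S_G1

/-!
# A Liouville inequality from power sums which are Gaussian integers
-/

namespace H32

open MvPolynomial Finset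

lemma norm_gauss {z : GaussianInt} (hz : z ≠ 0) : 1 ≤ ‖(GaussianInt.toComplex z)‖ := by
  have h1 : Complex.normSq (GaussianInt.toComplex z) = (z.re : ℝ) ^ 2 + (z.im : ℝ) ^ 2 := by
    rw [Complex.normSq_apply, ← GaussianInt.intCast_re, ← GaussianInt.intCast_im]
    ring
  have h2 : (1 : ℤ) ≤ z.re ^ 2 + z.im ^ 2 := by
    by_contra hcon
    push Not at hcon
    have h3 : 0 ≤ z.re ^ 2 := sq_nonneg _
    have h4 : 0 ≤ z.im ^ 2 := sq_nonneg _
    have h5 : z.re ^ 2 = 0 := by omega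
    have h6 : z.im ^ 2 = 0 := by omega
    apply hz
    exact Zsqrtd.ext (pow_eq_zero_iff (two_ne_zero) |>.mp h5) (pow_eq_zero_iff (two_ne_zero) |>.mp h6)
  have h3 : (1 : ℝ) ≤ Complex.normSq (GaussianInt.toComplex z) := by
    rw [h1]; exact_mod_cast h2
  rw [Complex.normSq_eq_norm_sq] at h3
  nlinarith [norm_nonneg (GaussianInt.toComplex z)]

lemma gauss_esymm {σ : Type*} [Fintype σ] [DecidableEq σ] (Y : σ → ℂ)
    (h : ∀ p : ℕ, 0 < p → ∃ z : GaussianInt, ∑ i, Y i ^ p = GaussianInt.toComplex z) (k : ℕ) :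
    ∃ z : GaussianInt, (k.factorial : ℂ) * aeval Y (esymm σ ℤ k) = GaussianInt.toComplex z := by
  induction k using Nat.strong_induction_on with
  | _ k ih =>
  rcases Nat.eq_zero_or_pos k with rfl | hk
  · exact ⟨1, by simp⟩
  · have h1 := congrArg (aeval Y) (mul_esymm_eq_sum σ ℤ k)
    simp only [map_mul, map_natCast, map_pow, map_neg, map_one, map_sum] at h1
    have h2 : ∀ a ∈ (HasAntidiagonal.antidiagonal k).filter (fun a ↦ a.1 < k), ∃ z : GaussianInt,
        ((k - 1).factorial : ℂ) * ((-1) ^ a.1 * aeval Y (esymm σ ℤ a.1) * aeval Y (psum σ ℤ a.2)) =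
        GaussianInt.toComplex z := by
      intro a ha
      rw [mem_filter, HasAntidiagonal.mem_antidiagonal] at ha
      obtain ⟨z1, hz1⟩ := ih a.1 ha.2
      obtain ⟨z2, hz2⟩ := h a.2 (by omega)
      have hp : aeval Y (psum σ ℤ a.2) = ∑ i, Y i ^ a.2 := by
        simp [psum]
      obtain ⟨m, hm⟩ := Nat.factorial_dvd_factorial (show a.1 ≤ k - 1 by omega)
      refine ⟨m * (-1) ^ a.1 * z1 * z2, ?_⟩
      rw [hp, hz2, hm]
      simp only [map_mul, map_pow, map_neg, map_one, map_natCast]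
      push_cast
      rw [← hz1]
      ring
    choose! g hg using h2
    refine ⟨(-1) ^ (k + 1) * ∑ a ∈ (HasAntidiagonal.antidiagonal k).filter (fun a ↦ a.1 < k), g a, ?_⟩
    have hf : (k.factorial : ℂ) = (k - 1).factorial * k := by
      have := Nat.mul_factorial_pred hk.ne'
      rw [← this]; push_cast; ring
    rw [hf, mul_assoc, h1]
    simp only [map_mul, map_pow, map_neg, map_one, map_sum]
    rw [← Finset.sum_congr rfl hg, ← Finset.mul_sum]
    ring

/-- If all power sums of a finite family of complex numbers of modulus at most `B` are Gaussian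
integers, then the nonzero members are not too small. -/
theorem liouvilleG {ι : Type*} (s : Finset ι) (Y : ι → ℂ) (B : ℝ) (hB : 1 ≤ B)
    (hY : ∀ i ∈ s, ‖Y i‖ ≤ B)
    (h : ∀ p : ℕ, 0 < p → ∃ z : GaussianInt, ∑ i ∈ s, Y i ^ p = GaussianInt.toComplex z)
    {i : ι} (hi : i ∈ s) (hi0 : Y i ≠ 0) :
    1 ≤ ‖Y i‖ * ((s.card.factorial : ℝ) * B ^ s.card) := by
  classical
  set t := s.filter (fun j ↦ Y j ≠ 0) with ht
  have hit : i ∈ t := mem_filter.mpr ⟨hi, hi0⟩
  have hts : t.card ≤ s.card := card_le_card (filter_subset _ _)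
  have h1 : ∀ p : ℕ, 0 < p → ∃ z : GaussianInt, ∑ j : t, Y j ^ p = GaussianInt.toComplex z := by
    intro p hp
    obtain ⟨z, hz⟩ := h p hp
    refine ⟨z, ?_⟩
    rw [← hz, Finset.sum_coe_sort t (fun j ↦ Y j ^ p)]
    refine sum_subset (filter_subset _ _) fun j hj hj' ↦ ?_
    have : Y j = 0 := by
      by_contra h0
      exact hj' (mem_filter.mpr ⟨hj, h0⟩)
    rw [this, zero_pow hp.ne']
  obtain ⟨z, hz⟩ := gauss_esymm (fun j : t ↦ Y j) h1 t.card
  have h2 : aeval (fun j : t ↦ Y j) (esymm t ℤ t.card) = ∏ j ∈ t, Y j := by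
    have : esymm t ℤ t.card = ∏ j : t, X j := by
      rw [esymm]
      have hc : t.card = (univ : Finset t).card := by simp
      rw [hc, powersetCard_self]
      simp
    rw [this, map_prod]
    simp only [aeval_X]
    exact Finset.prod_coe_sort t Y
  rw [h2] at hz
  have hne : (t.card.factorial : ℂ) * ∏ j ∈ t, Y j ≠ 0 := by
    refine mul_ne_zero (by exact_mod_cast Nat.factorial_ne_zero _) (prod_ne_zero_iff.mpr fun j hj ↦ ?_)
    exact (mem_filter.mp hj).2
  have hz0 : z ≠ 0 := by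
    rintro rfl
    rw [hz] at hne
    exact hne (by simp)
  have h3 : 1 ≤ ‖(t.card.factorial : ℂ) * ∏ j ∈ t, Y j‖ := by
    rw [hz]
    exact norm_gauss hz0
  rw [norm_mul, Complex.norm_natCast, ← mul_prod_erase t Y hit, norm_mul, norm_prod] at h3
  have h4 : ∏ j ∈ t.erase i, ‖Y j‖ ≤ B ^ s.card := by
    calc ∏ j ∈ t.erase i, ‖Y j‖ ≤ ∏ j ∈ t.erase i, B :=
          prod_le_prod (fun _ _ ↦ norm_nonneg _)
            fun j hj ↦ hY j (mem_of_mem_filter _ (mem_of_mem_erase hj))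
      _ = B ^ (t.erase i).card := prod_const _
      _ ≤ B ^ s.card := pow_le_pow_right₀ hB ((card_le_card (erase_subset _ _)).trans hts)
  have h5 : (t.card.factorial : ℝ) ≤ s.card.factorial := by
    exact_mod_cast Nat.factorial_le hts
  calc (1 : ℝ) ≤ t.card.factorial * (‖Y i‖ * ∏ j ∈ t.erase i, ‖Y j‖) := h3
    _ ≤ s.card.factorial * (‖Y i‖ * B ^ s.card) := by gcongr
    _ = _ := by ring

end H32

end S_G1

section S_G2

/-!
# Liouville inequality for polynomials with Gaussian integral coefficients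
-/

open UpperHalfPlane hiding I
open Complex EisensteinSeries ModularForm MatrixGroups Manifold Asymptotics
open scoped Real
open MvPolynomial

namespace H32

variable {m n : ℕ}

/-- evaluation at the tuple of scaled values -/
noncomputable def evG (M : Fin n → ℕ × ℕ × ℕ) (Ψ : MvPolynomial (Fin n × Fin 3) GaussianInt) : ℂ :=
  eval₂ GaussianInt.toComplex (fun x : Fin n × Fin 3 ↦ AA (M x.1) x.2) Ψ

lemma sum_evG {ω : ℂ} (hω : ω ^ 4 = E₄ UpperHalfPlane.I)
    (Ψ : MvPolynomial (Fin n × Fin 3) GaussianInt)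
    {V : ℕ} (hΨ : IsWeightedHomogeneous wt3 Ψ V) {N : Fin n → ℕ} (hN : ∀ j, 0 < N j) :
    ∃ z : GaussianInt, 1728 ^ V * ∑ M ∈ Fintype.piFinset (fun j ↦ SN (N j)), evG M Ψ =
      GaussianInt.toComplex z * ω ^ V := by
  have h1 : ∀ m ∈ Ψ.support, ∃ z : ℤ, 1728 ^ V * ∑ M ∈ Fintype.piFinset (fun j ↦ SN (N j)),
      ∏ x : Fin n × Fin 3, AA (M x.1) x.2 ^ m x = z * ω ^ V := by
    intro m hm
    have hw : ∑ j, (2 * m (j, 0) + 4 * m (j, 1) + 6 * m (j, 2)) = V := by
      rw [← weight_wt3]; exact hΨ (mem_support_iff.mp hm)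
    have hz : ∀ j, ∃ z : ℤ, 1728 ^ (2 * m (j, 0) + 4 * m (j, 1) + 6 * m (j, 2)) *
        ∑ s ∈ SN (N j), ∏ l, AA s l ^ m (j, l) =
        z * ω ^ (2 * m (j, 0) + 4 * m (j, 1) + 6 * m (j, 2)) := by
      intro j
      obtain ⟨z, hz⟩ := hecke_sum hω (hN j) (m (j, 0)) (m (j, 1)) (m (j, 2))
      refine ⟨z, ?_⟩
      rw [← hz]
      congr 1
      refine Finset.sum_congr rfl fun s _ ↦ ?_
      rw [Fin.prod_univ_three]
      rfl
    choose z hz using hz
    refine ⟨∏ j, z j, ?_⟩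
    have h2 : ∀ M : Fin n → ℕ × ℕ × ℕ, ∏ x : Fin n × Fin 3, AA (M x.1) x.2 ^ m x =
        ∏ j, ∏ l, AA (M j) l ^ m (j, l) := fun M ↦ Fintype.prod_prod_type _
    simp_rw [h2]
    rw [← Finset.prod_univ_sum (fun j ↦ SN (N j)) (fun j s ↦ ∏ l, AA s l ^ m (j, l)), ← hw,
      ← Finset.prod_pow_eq_pow_sum, ← Finset.prod_pow_eq_pow_sum, ← Finset.prod_mul_distrib,
      Finset.prod_congr rfl fun j _ ↦ hz j, Finset.prod_mul_distrib]
    push_cast
    rfl
  choose! z hz using h1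
  refine ⟨∑ m ∈ Ψ.support, Ψ.coeff m * (z m : GaussianInt), ?_⟩
  have h3 : ∀ M, evG M Ψ = ∑ m ∈ Ψ.support, GaussianInt.toComplex (Ψ.coeff m) *
      ∏ x : Fin n × Fin 3, AA (M x.1) x.2 ^ m x := by
    intro M
    rw [evG, eval₂_eq']
  simp_rw [h3]
  rw [Finset.sum_comm, Finset.mul_sum, map_sum, Finset.sum_mul]
  refine Finset.sum_congr rfl fun m hm ↦ ?_
  rw [← Finset.mul_sum, mul_left_comm, hz m hm, map_mul, map_intCast]
  ring

theorem appG1 {ω : ℂ} (hω : ω ^ 4 = E₄ UpperHalfPlane.I)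
    (Ψ : MvPolynomial (Fin n × Fin 3) GaussianInt)
    {V : ℕ} (hΨ : IsWeightedHomogeneous wt3 Ψ V) {N : Fin n → ℕ} (hN : ∀ j, 0 < N j)
    {B : ℝ} (hB1 : 1 ≤ B)
    (hB : ∀ M ∈ Fintype.piFinset (fun j ↦ SN (N j)), ‖(1728 / ω) ^ V * evG M Ψ‖ ≤ B)
    {M : Fin n → ℕ × ℕ × ℕ} (hM : M ∈ Fintype.piFinset (fun j ↦ SN (N j)))
    (hne : evG M Ψ ≠ 0) :
    1 ≤ ‖(1728 / ω) ^ V * evG M Ψ‖ *
      (((Fintype.piFinset (fun j ↦ SN (N j))).card.factorial : ℝ) *
        B ^ (Fintype.piFinset (fun j ↦ SN (N j))).card) := by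
  have hω0 : ω ≠ 0 := by
    rintro rfl
    rw [zero_pow (by norm_num)] at hω
    exact E4_I_ne hω.symm
  refine liouvilleG _ (fun M ↦ (1728 / ω) ^ V * evG M Ψ) B hB1 hB ?_ hM ?_
  · intro p hp
    obtain ⟨z, hz⟩ := sum_evG hω (Ψ ^ p) (hΨ.pow p) hN
    refine ⟨z, ?_⟩
    have h1 : ∀ M : Fin n → ℕ × ℕ × ℕ, ((1728 / ω) ^ V * evG M Ψ) ^ p =
        (1728 / ω) ^ (p * V) * evG M (Ψ ^ p) := by
      intro M
      rw [mul_pow, ← pow_mul, mul_comm V p, evG, evG, eval₂_pow]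
    simp_rw [h1]
    rw [← Finset.mul_sum, div_pow, div_mul_eq_mul_div, div_eq_iff (pow_ne_zero _ hω0)]
    simpa using hz
  · refine mul_ne_zero (pow_ne_zero _ (div_ne_zero (by norm_num) hω0)) hne

/-- The weights `0` for the parameters and `2, 4, 6` for the values. -/
def wtS : Fin m ⊕ Fin n × Fin 3 → ℕ := Sum.elim (fun _ ↦ 0) wt3

lemma weight_wtS (μ : (Fin m ⊕ Fin n × Fin 3) →₀ ℕ) :
    Finsupp.weight (wtS : Fin m ⊕ Fin n × Fin 3 → ℕ) μ =
    ∑ j, (2 * μ (Sum.inr (j, 0)) + 4 * μ (Sum.inr (j, 1)) + 6 * μ (Sum.inr (j, 2))) := by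
  rw [Finsupp.weight_apply, Finsupp.sum_fintype _ _ (by simp), Fintype.sum_sum_type,
    Fintype.sum_prod_type]
  simp only [wtS, Sum.elim_inl, Sum.elim_inr, smul_eq_mul, mul_zero, Finset.sum_const_zero, zero_add]
  refine Finset.sum_congr rfl fun j _ ↦ ?_
  simp [Fin.sum_univ_three, wt3]
  ring

/-- The weight in the variables of the point `j`. -/
def wj (μ : (Fin m ⊕ Fin n × Fin 3) →₀ ℕ) (j : Fin n) : ℕ :=
  2 * μ (Sum.inr (j, 0)) + 4 * μ (Sum.inr (j, 1)) + 6 * μ (Sum.inr (j, 2))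

/-- Specialise the weight zero variables. -/
noncomputable def specG (Φ : MvPolynomial (Fin m ⊕ Fin n × Fin 3) ℤ) (D W q : ℕ) (p : Fin m → ℤ)
    (u : Fin n → GaussianInt) (N : Fin n → ℕ) : MvPolynomial (Fin n × Fin 3) GaussianInt :=
  ∑ μ ∈ Φ.support, monomial
    (Finsupp.equivFunOnFinite.symm fun x : Fin n × Fin 3 ↦ μ (Sum.inr x))
    (((Φ.coeff μ : ℤ) : GaussianInt) * (∏ k, (p k : GaussianInt) ^ μ (Sum.inl k)) *
      (q : GaussianInt) ^ (D - ∑ k, μ (Sum.inl k)) *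
      ∏ j, (u j ^ wj μ j * (N j : GaussianInt) ^ (W - wj μ j)))

/-- The values at the special points. -/
noncomputable def valG (q : ℕ) (p : Fin m → ℤ) (u : Fin n → GaussianInt) (N : Fin n → ℕ)
    (M : Fin n → ℕ × ℕ × ℕ) : Fin m ⊕ Fin n × Fin 3 → ℂ :=
  Sum.elim (fun k ↦ (p k : ℂ) / q) fun x ↦
    (GaussianInt.toComplex (u x.1) / N x.1) ^ wt3 x * AA (M x.1) x.2

lemma specG_homog {Φ : MvPolynomial (Fin m ⊕ Fin n × Fin 3) ℤ} {W : ℕ}
    (hΦ : IsWeightedHomogeneous wtS Φ W) (D q : ℕ) (p : Fin m → ℤ)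
    (u : Fin n → GaussianInt) (N : Fin n → ℕ) :
    IsWeightedHomogeneous wt3 (specG Φ D W q p u N) W := by
  unfold specG
  rw [← mem_weightedHomogeneousSubmodule]
  refine Submodule.sum_mem _ fun μ hμ ↦ ?_
  rw [mem_weightedHomogeneousSubmodule]
  refine isWeightedHomogeneous_monomial _ _ _ ?_
  have hw : ∑ j, (2 * μ (Sum.inr (j, 0)) + 4 * μ (Sum.inr (j, 1)) + 6 * μ (Sum.inr (j, 2))) = W := by
    rw [← weight_wtS]; exact hΦ (mem_support_iff.mp hμ)
  rw [weight_wt3, ← hw]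
  rfl

lemma evG_specG' (Φ : MvPolynomial (Fin m ⊕ Fin n × Fin 3) ℤ) (D W q : ℕ) (p : Fin m → ℤ)
    (u : Fin n → GaussianInt) (N : Fin n → ℕ) (M : Fin n → ℕ × ℕ × ℕ) :
    evG M (specG Φ D W q p u N) =
    ∑ μ ∈ Φ.support, (((Φ.coeff μ : ℤ) : ℂ) * (∏ k, (p k : ℂ) ^ μ (Sum.inl k)) *
      (q : ℂ) ^ (D - ∑ k, μ (Sum.inl k)) *
      ∏ j, (GaussianInt.toComplex (u j) ^ wj μ j * (N j : ℂ) ^ (W - wj μ j))) *
      ∏ j, (AA (M j) 0 ^ μ (Sum.inr (j, 0)) * AA (M j) 1 ^ μ (Sum.inr (j, 1)) *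
        AA (M j) 2 ^ μ (Sum.inr (j, 2))) := by
  unfold evG specG
  rw [eval₂_sum]
  refine Finset.sum_congr rfl fun μ _ ↦ ?_
  rw [eval₂_monomial, Finsupp.prod_fintype _ _ (by simp), Fintype.prod_prod_type]
  congr 1
  · simp only [map_mul, map_prod, map_pow, map_intCast, map_natCast]
  · refine Finset.prod_congr rfl fun j _ ↦ ?_
    rw [Fin.prod_univ_three]
    rfl

lemma evG_specG {Φ : MvPolynomial (Fin m ⊕ Fin n × Fin 3) ℤ} {W : ℕ}
    (hΦ : IsWeightedHomogeneous wtS Φ W) {q : ℕ} (hq : 0 < q) (p : Fin m → ℤ)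
    (u : Fin n → GaussianInt) {N : Fin n → ℕ} (hN : ∀ j, 0 < N j) (M : Fin n → ℕ × ℕ × ℕ) :
    evG M (specG Φ Φ.totalDegree W q p u N) =
      (q : ℂ) ^ Φ.totalDegree * (∏ j, (N j : ℂ)) ^ W * aeval (valG q p u N M) Φ := by
  rw [evG_specG', aeval_def, eval₂_eq', Finset.mul_sum]
  refine Finset.sum_congr rfl fun μ hμ ↦ ?_
  have hw : ∑ j, wj μ j = W := by
    rw [← hΦ (mem_support_iff.mp hμ), weight_wtS]; rfl
  have hwj : ∀ j, wj μ j ≤ W := fun j ↦ by
    rw [← hw]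
    exact Finset.single_le_sum (f := fun j ↦ wj μ j) (fun _ _ ↦ Nat.zero_le _) (Finset.mem_univ j)
  have hD : ∑ k, μ (Sum.inl k) ≤ Φ.totalDegree := by
    refine le_trans ?_ (le_totalDegree hμ)
    rw [Finsupp.sum_fintype _ _ (by simp), Fintype.sum_sum_type]
    exact Nat.le_add_right _ _
  have hq0 : (q : ℂ) ≠ 0 := by exact_mod_cast hq.ne'
  have e1 : ∏ x : Fin m ⊕ Fin n × Fin 3, valG q p u N M x ^ μ x =
      (∏ k, ((p k : ℂ) / q) ^ μ (Sum.inl k)) *
      ∏ j, (((GaussianInt.toComplex (u j) / N j) ^ 2 * AA (M j) 0) ^ μ (Sum.inr (j, 0)) *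
        ((GaussianInt.toComplex (u j) / N j) ^ 4 * AA (M j) 1) ^ μ (Sum.inr (j, 1)) *
        ((GaussianInt.toComplex (u j) / N j) ^ 6 * AA (M j) 2) ^ μ (Sum.inr (j, 2))) := by
    rw [Fintype.prod_sum_type, Fintype.prod_prod_type]
    congr 1
    refine Finset.prod_congr rfl fun j _ ↦ ?_
    rw [Fin.prod_univ_three]
    rfl
  have e2 : (q : ℂ) ^ Φ.totalDegree * ∏ k, ((p k : ℂ) / q) ^ μ (Sum.inl k) =
      (∏ k, (p k : ℂ) ^ μ (Sum.inl k)) * (q : ℂ) ^ (Φ.totalDegree - ∑ k, μ (Sum.inl k)) := by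
    have : ∀ k, ((p k : ℂ) / q) ^ μ (Sum.inl k) =
        (p k : ℂ) ^ μ (Sum.inl k) * ((q : ℂ)⁻¹) ^ μ (Sum.inl k) :=
      fun k ↦ by rw [div_eq_mul_inv, mul_pow]
    simp_rw [this]
    rw [Finset.prod_mul_distrib, Finset.prod_pow_eq_pow_sum, pow_sub₀ _ hq0 hD, inv_pow]
    ring
  have e3 : (∏ j, (N j : ℂ)) ^ W *
      ∏ j, (((GaussianInt.toComplex (u j) / N j) ^ 2 * AA (M j) 0) ^ μ (Sum.inr (j, 0)) *
        ((GaussianInt.toComplex (u j) / N j) ^ 4 * AA (M j) 1) ^ μ (Sum.inr (j, 1)) *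
        ((GaussianInt.toComplex (u j) / N j) ^ 6 * AA (M j) 2) ^ μ (Sum.inr (j, 2))) =
      (∏ j, (GaussianInt.toComplex (u j) ^ wj μ j * (N j : ℂ) ^ (W - wj μ j))) *
      ∏ j, (AA (M j) 0 ^ μ (Sum.inr (j, 0)) * AA (M j) 1 ^ μ (Sum.inr (j, 1)) *
        AA (M j) 2 ^ μ (Sum.inr (j, 2))) := by
    rw [← Finset.prod_pow, ← Finset.prod_mul_distrib, ← Finset.prod_mul_distrib]
    refine Finset.prod_congr rfl fun j _ ↦ ?_
    have hN0 : (N j : ℂ) ≠ 0 := by exact_mod_cast (hN j).ne'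
    have h1 : (N j : ℂ) ^ W = (N j : ℂ) ^ (W - wj μ j) * (N j : ℂ) ^ wj μ j := by
      rw [← pow_add, Nat.sub_add_cancel (hwj j)]
    have h2 : (((GaussianInt.toComplex (u j) / N j) ^ 2 * AA (M j) 0) ^ μ (Sum.inr (j, 0)) *
        ((GaussianInt.toComplex (u j) / N j) ^ 4 * AA (M j) 1) ^ μ (Sum.inr (j, 1)) *
        ((GaussianInt.toComplex (u j) / N j) ^ 6 * AA (M j) 2) ^ μ (Sum.inr (j, 2))) =
        (GaussianInt.toComplex (u j) / N j) ^ wj μ j * (AA (M j) 0 ^ μ (Sum.inr (j, 0)) *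
        AA (M j) 1 ^ μ (Sum.inr (j, 1)) * AA (M j) 2 ^ μ (Sum.inr (j, 2))) := by
      rw [wj, mul_pow, mul_pow, mul_pow, pow_add, pow_add, pow_mul, pow_mul, pow_mul]
      ring
    rw [h1, h2, div_pow]
    have h3 : (N j : ℂ) ^ wj μ j ≠ 0 := pow_ne_zero _ hN0
    field_simp
  rw [e1]
  calc _ = ((Φ.coeff μ : ℤ) : ℂ) * ((∏ k, (p k : ℂ) ^ μ (Sum.inl k)) *
        (q : ℂ) ^ (Φ.totalDegree - ∑ k, μ (Sum.inl k))) *
        ((∏ j, (GaussianInt.toComplex (u j) ^ wj μ j * (N j : ℂ) ^ (W - wj μ j))) *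
      ∏ j, (AA (M j) 0 ^ μ (Sum.inr (j, 0)) * AA (M j) 1 ^ μ (Sum.inr (j, 1)) *
        AA (M j) 2 ^ μ (Sum.inr (j, 2)))) := by ring
    _ = _ := by
      rw [← e2, ← e3]
      simp only [algebraMap_int_eq, eq_intCast]
      ring

/-- A bound for all the conjugates. -/
lemma evG_specG_bound {Φ : MvPolynomial (Fin m ⊕ Fin n × Fin 3) ℤ} {W : ℕ}
    (hΦ : IsWeightedHomogeneous wtS Φ W) : ∃ C : ℝ, 1 ≤ C ∧ ∃ E : ℕ,
    ∀ (Q q : ℕ) (p : Fin m → ℤ) (u : Fin n → GaussianInt) (N : Fin n → ℕ)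
      (M : Fin n → ℕ × ℕ × ℕ), 1 ≤ q → q ≤ Q →
    (∀ k, |p k| ≤ Q) → (∀ j, ‖GaussianInt.toComplex (u j)‖ ≤ Q) → (∀ j, 0 < N j) → (∀ j, N j ≤ Q) →
    (∀ j, M j ∈ SN (N j)) →
    ‖evG M (specG Φ Φ.totalDegree W q p u N)‖ ≤ C * (Q : ℝ) ^ E := by
  obtain ⟨C0, hC0, hb⟩ := bound_A
  set L : ℝ := ∑ m ∈ Φ.support, |((Φ.coeff m : ℤ) : ℝ)| with hL
  have hL0 : 0 ≤ L := Finset.sum_nonneg fun _ _ ↦ abs_nonneg _
  refine ⟨(L + 1) * C0 ^ W, ?_, Φ.totalDegree + Φ.totalDegree + 2 * n * W + 6 * W, ?_⟩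
  · have : 1 ≤ C0 ^ W := one_le_pow₀ hC0
    nlinarith
  intro Q q p u N M hq hqQ hp hu hN0 hNQ hM
  have hQ1 : (1 : ℝ) ≤ Q := by exact_mod_cast le_trans hq hqQ
  rw [evG_specG']
  refine (norm_sum_le _ _).trans ?_
  have hterm : ∀ μ ∈ Φ.support, ‖(((Φ.coeff μ : ℤ) : ℂ) * (∏ k, (p k : ℂ) ^ μ (Sum.inl k)) *
      (q : ℂ) ^ (Φ.totalDegree - ∑ k, μ (Sum.inl k)) *
      ∏ j, (GaussianInt.toComplex (u j) ^ wj μ j * (N j : ℂ) ^ (W - wj μ j))) *
      ∏ j, (AA (M j) 0 ^ μ (Sum.inr (j, 0)) * AA (M j) 1 ^ μ (Sum.inr (j, 1)) *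
        AA (M j) 2 ^ μ (Sum.inr (j, 2)))‖ ≤
      |((Φ.coeff μ : ℤ) : ℝ)| * (C0 ^ W *
        (Q : ℝ) ^ (Φ.totalDegree + Φ.totalDegree + 2 * n * W + 6 * W)) := by
    intro μ hμ
    have hw : ∑ j, wj μ j = W := by
      rw [← hΦ (mem_support_iff.mp hμ), weight_wtS]; rfl
    have hwj : ∀ j, wj μ j ≤ W := fun j ↦ by
      rw [← hw]
      exact Finset.single_le_sum (f := fun j ↦ wj μ j) (fun _ _ ↦ Nat.zero_le _)
        (Finset.mem_univ j)
    have hD : ∑ k, μ (Sum.inl k) ≤ Φ.totalDegree := by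
      refine le_trans ?_ (le_totalDegree hμ)
      rw [Finsupp.sum_fintype _ _ (by simp), Fintype.sum_sum_type]
      exact Nat.le_add_right _ _
    simp only [norm_mul, norm_prod, norm_pow, Complex.norm_natCast, Complex.norm_intCast]
    have b1 : ∏ k, |(p k : ℝ)| ^ μ (Sum.inl k) ≤ (Q : ℝ) ^ Φ.totalDegree := by
      calc ∏ k, |(p k : ℝ)| ^ μ (Sum.inl k) ≤ ∏ k, (Q : ℝ) ^ μ (Sum.inl k) := by
            refine Finset.prod_le_prod (fun _ _ ↦ by positivity) fun k _ ↦ ?_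
            gcongr
            exact_mod_cast hp k
        _ = (Q : ℝ) ^ ∑ k, μ (Sum.inl k) := Finset.prod_pow_eq_pow_sum _ _ _
        _ ≤ _ := pow_le_pow_right₀ hQ1 hD
    have b2 : (q : ℝ) ^ (Φ.totalDegree - ∑ k, μ (Sum.inl k)) ≤ (Q : ℝ) ^ Φ.totalDegree := by
      calc (q : ℝ) ^ (Φ.totalDegree - ∑ k, μ (Sum.inl k)) ≤
          (Q : ℝ) ^ (Φ.totalDegree - ∑ k, μ (Sum.inl k)) := by
            gcongr
        _ ≤ _ := pow_le_pow_right₀ hQ1 (Nat.sub_le _ _)
    have b3 : ∏ j, (‖GaussianInt.toComplex (u j)‖ ^ wj μ j * (N j : ℝ) ^ (W - wj μ j)) ≤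
        (Q : ℝ) ^ (2 * n * W) := by
      calc ∏ j, (‖GaussianInt.toComplex (u j)‖ ^ wj μ j * (N j : ℝ) ^ (W - wj μ j)) ≤
            ∏ j : Fin n, ((Q : ℝ) ^ W * (Q : ℝ) ^ W) := by
            refine Finset.prod_le_prod (fun _ _ ↦ by positivity) fun j _ ↦ ?_
            have h1 : ‖GaussianInt.toComplex (u j)‖ ^ wj μ j ≤ (Q : ℝ) ^ W :=
              calc ‖GaussianInt.toComplex (u j)‖ ^ wj μ j ≤ (Q : ℝ) ^ wj μ j := by
                    gcongr
                    exact hu j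
                _ ≤ _ := pow_le_pow_right₀ hQ1 (hwj j)
            have h2 : (N j : ℝ) ^ (W - wj μ j) ≤ (Q : ℝ) ^ W :=
              calc (N j : ℝ) ^ (W - wj μ j) ≤ (Q : ℝ) ^ (W - wj μ j) := by
                    gcongr
                    exact_mod_cast hNQ j
                _ ≤ _ := pow_le_pow_right₀ hQ1 (Nat.sub_le _ _)
            gcongr
        _ = _ := by
            rw [Finset.prod_const, Finset.card_univ, Fintype.card_fin, ← pow_add, ← pow_mul]
            congr 1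
            ring
    have b4 : ∏ j, (‖AA (M j) 0‖ ^ μ (Sum.inr (j, 0)) * ‖AA (M j) 1‖ ^ μ (Sum.inr (j, 1)) *
        ‖AA (M j) 2‖ ^ μ (Sum.inr (j, 2))) ≤ (C0 * (Q : ℝ) ^ 6) ^ W := by
      have hR1 : 1 ≤ C0 * (Q : ℝ) ^ 6 := by
        have : (1 : ℝ) ≤ (Q : ℝ) ^ 6 := one_le_pow₀ hQ1
        nlinarith
      have hR : ∀ j l, ‖AA (M j) l‖ ≤ C0 * (Q : ℝ) ^ 6 := by
        intro j l
        refine (hb (N j) (hN0 j) (M j) (hM j) l).trans ?_
        have : (N j : ℝ) ≤ Q := by exact_mod_cast hNQ j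
        gcongr
      calc ∏ j, (‖AA (M j) 0‖ ^ μ (Sum.inr (j, 0)) * ‖AA (M j) 1‖ ^ μ (Sum.inr (j, 1)) *
            ‖AA (M j) 2‖ ^ μ (Sum.inr (j, 2))) ≤
            ∏ j, (C0 * (Q : ℝ) ^ 6) ^ wj μ j := by
            refine Finset.prod_le_prod (fun _ _ ↦ by positivity) fun j _ ↦ ?_
            calc ‖AA (M j) 0‖ ^ μ (Sum.inr (j, 0)) * ‖AA (M j) 1‖ ^ μ (Sum.inr (j, 1)) *
                ‖AA (M j) 2‖ ^ μ (Sum.inr (j, 2))
                ≤ (C0 * (Q : ℝ) ^ 6) ^ μ (Sum.inr (j, 0)) * (C0 * (Q : ℝ) ^ 6) ^ μ (Sum.inr (j, 1)) *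
                  (C0 * (Q : ℝ) ^ 6) ^ μ (Sum.inr (j, 2)) := by
                  gcongr <;> exact hR j _
              _ = (C0 * (Q : ℝ) ^ 6) ^ (μ (Sum.inr (j, 0)) + μ (Sum.inr (j, 1)) +
                  μ (Sum.inr (j, 2))) := by
                  rw [pow_add, pow_add]
              _ ≤ _ := pow_le_pow_right₀ hR1 (by unfold wj; omega)
        _ = _ := by rw [Finset.prod_pow_eq_pow_sum, hw]
    calc |((Φ.coeff μ : ℤ) : ℝ)| * (∏ k, |(p k : ℝ)| ^ μ (Sum.inl k)) *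
        (q : ℝ) ^ (Φ.totalDegree - ∑ k, μ (Sum.inl k)) *
        (∏ j, (‖GaussianInt.toComplex (u j)‖ ^ wj μ j * (N j : ℝ) ^ (W - wj μ j))) *
        ∏ j, (‖AA (M j) 0‖ ^ μ (Sum.inr (j, 0)) * ‖AA (M j) 1‖ ^ μ (Sum.inr (j, 1)) *
            ‖AA (M j) 2‖ ^ μ (Sum.inr (j, 2)))
        ≤ |((Φ.coeff μ : ℤ) : ℝ)| * ((Q : ℝ) ^ Φ.totalDegree) * ((Q : ℝ) ^ Φ.totalDegree) *
          ((Q : ℝ) ^ (2 * n * W)) * (C0 * (Q : ℝ) ^ 6) ^ W := by
          gcongr
      _ = _ := by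
          rw [mul_pow, ← pow_mul]
          ring
  refine (Finset.sum_le_sum hterm).trans ?_
  rw [← Finset.sum_mul, ← hL]
  have : 0 ≤ C0 ^ W * (Q : ℝ) ^ (Φ.totalDegree + Φ.totalDegree + 2 * n * W + 6 * W) := by positivity
  nlinarith

end H32

end S_G2

section S_Growth

/-!
# Growth comparison
-/

namespace H32

open Filter Asymptotics
open scoped Topology

lemma growth (C C' : ℝ) (hC' : 1 ≤ C') (n : ℕ) (κ : ℝ) (hκ : 2 * n < κ) :
    ∀ᶠ x : ℝ in atTop, C * Real.log (C' * x ^ 2) *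
      (C' * x ^ 2 * (1 + Real.log (C' * x ^ 2))) ^ n ≤ x ^ κ / 2 := by
  set ε : ℝ := (κ - 2 * n) / (2 * (n + 1)) with hε
  have hε0 : 0 < ε := by
    apply div_pos (by linarith) (by positivity)
  have hC'0 : 0 < C' := by linarith
  have h1 : (fun x : ℝ ↦ Real.log (C' * x ^ 2)) =O[atTop] fun x : ℝ ↦ x ^ ε := by
    have e : (fun x : ℝ ↦ Real.log (C' * x ^ 2)) =ᶠ[atTop]
        fun x ↦ Real.log C' + 2 * Real.log x := by
      filter_upwards [eventually_gt_atTop 0] with x hx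
      rw [Real.log_mul hC'0.ne' (by positivity), Real.log_pow]
      push_cast; ring
    refine e.trans_isBigO ?_
    refine IsBigO.add ?_ ?_
    · refine (isLittleO_const_left.mpr (Or.inr ?_)).isBigO
      exact tendsto_norm_atTop_atTop.comp (tendsto_rpow_atTop hε0)
    · exact (isLittleO_log_rpow_atTop hε0).isBigO.const_mul_left 2
  have h2 : (fun x : ℝ ↦ 1 + Real.log (C' * x ^ 2)) =O[atTop] fun x : ℝ ↦ x ^ ε := by
    refine IsBigO.add ?_ h1
    refine (isLittleO_const_left.mpr (Or.inr ?_)).isBigO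
    exact tendsto_norm_atTop_atTop.comp (tendsto_rpow_atTop hε0)
  have h3 : (fun x : ℝ ↦ C' * x ^ 2) =O[atTop] fun x : ℝ ↦ x ^ 2 :=
    (isBigO_refl _ _).const_mul_left C'
  have h4 : (fun x : ℝ ↦ C * Real.log (C' * x ^ 2) *
      (C' * x ^ 2 * (1 + Real.log (C' * x ^ 2))) ^ n) =O[atTop]
      fun x : ℝ ↦ x ^ ε * (x ^ 2 * x ^ ε) ^ n :=
    (h1.const_mul_left C).mul ((h3.mul h2).pow n)
  have h5 : (fun x : ℝ ↦ x ^ ε * (x ^ 2 * x ^ ε) ^ n) =o[atTop] fun x : ℝ ↦ x ^ κ := by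
    have e : (fun x : ℝ ↦ x ^ ε * (x ^ 2 * x ^ ε) ^ n) =ᶠ[atTop]
        fun x ↦ x ^ (2 * n + (n + 1) * ε) := by
      filter_upwards [eventually_gt_atTop 0] with x hx
      rw [← Real.rpow_natCast x 2, ← Real.rpow_add hx, ← Real.rpow_natCast, ← Real.rpow_mul hx.le,
        ← Real.rpow_add hx]
      congr 1
      push_cast
      ring
    refine e.trans_isLittleO ?_
    have hlt : 2 * n + (n + 1) * ε < κ := by
      have : (n + 1) * ε = (κ - 2 * n) / 2 := by
        rw [hε]; field_simp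
      rw [this]
      linarith
    refine isLittleO_of_tendsto' ?_ ?_
    · filter_upwards [eventually_gt_atTop 0] with x hx h0
      exact absurd h0 (Real.rpow_pos_of_pos hx κ).ne'
    · have hd : 0 < κ - (2 * n + (n + 1) * ε) := by linarith
      refine (tendsto_rpow_neg_atTop hd).congr' ?_
      filter_upwards [eventually_gt_atTop 0] with x hx
      rw [← Real.rpow_sub hx]
      congr 1
      ring
  have h6 := h4.trans_isLittleO h5
  have h7 := h6.bound (show (0 : ℝ) < 1 / 2 by norm_num)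
  filter_upwards [h7, eventually_gt_atTop 0] with x hx hx0
  have h8 : ‖x ^ κ‖ = x ^ κ := Real.norm_of_nonneg (by positivity)
  rw [h8] at hx
  calc _ ≤ ‖C * Real.log (C' * x ^ 2) * (C' * x ^ 2 * (1 + Real.log (C' * x ^ 2))) ^ n‖ :=
        Real.le_norm_self _
    _ ≤ 1 / 2 * x ^ κ := hx
    _ = x ^ κ / 2 := by ring

end H32

end S_Growth

section S_MultiVar

/-!
# Lower bounds for analytic functions of several variables along hierarchical sequences
-/

namespace H32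

open Filter Asymptotics Metric
open scoped Topology

variable {m : ℕ}

/-- The derivative in the first variable. -/
noncomputable def DF (F : (Fin (m + 1) → ℂ) → ℂ) (s : Fin (m + 1) → ℂ) : ℂ :=
  fderiv ℂ F s (Pi.single 0 1)

lemma DF_analytic {F : (Fin (m + 1) → ℂ) → ℂ} {U : Set (Fin (m + 1) → ℂ)}
    (hF : AnalyticOnNhd ℂ F U) : AnalyticOnNhd ℂ (DF F) U := by
  have h1 := hF.fderiv
  exact (ContinuousLinearMap.apply ℂ ℂ (Pi.single 0 1 : Fin (m + 1) → ℂ)).comp_analyticOnNhd h1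

lemma DF_iter_analytic {F : (Fin (m + 1) → ℂ) → ℂ} {U : Set (Fin (m + 1) → ℂ)}
    (hF : AnalyticOnNhd ℂ F U) (k : ℕ) : AnalyticOnNhd ℂ (DF^[k] F) U := by
  induction k with
  | zero => exact hF
  | succ k ih =>
    rw [Function.iterate_succ_apply']
    exact DF_analytic ih

lemma cons_mem_ball {t : Fin (m + 1) → ℂ} {ρ : ℝ} (hρ : 0 < ρ) {ζ : ℂ} {s' : Fin m → ℂ} :
    (Fin.cons ζ s' : Fin (m + 1) → ℂ) ∈ ball t ρ ↔ ζ ∈ ball (t 0) ρ ∧ s' ∈ ball (Fin.tail t) ρ := by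
  rw [mem_ball, mem_ball, mem_ball, dist_pi_lt_iff hρ, dist_pi_lt_iff hρ, Fin.forall_fin_succ]
  rfl

lemma hasDerivAt_cons {G : (Fin (m + 1) → ℂ) → ℂ} {ζ : ℂ} {s' : Fin m → ℂ}
    (hG : DifferentiableAt ℂ G (Fin.cons ζ s')) :
    HasDerivAt (fun z : ℂ ↦ G (Fin.cons z s')) (DF G (Fin.cons ζ s')) ζ := by
  have h1 : HasDerivAt (fun z : ℂ ↦ (Fin.cons z s' : Fin (m + 1) → ℂ)) (Pi.single 0 1) ζ := by
    rw [hasDerivAt_pi]
    intro i
    refine Fin.cases ?_ (fun j ↦ ?_) i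
    · simp only [Fin.cons_zero, Pi.single_eq_same]
      exact hasDerivAt_id' ζ
    · have h0 : (Pi.single 0 1 : Fin (m + 1) → ℂ) j.succ = 0 := by simp
      simp only [Fin.cons_succ, h0]
      exact hasDerivAt_const ζ (s' j)
  exact hG.hasFDerivAt.comp_hasDerivAt ζ h1

lemma iteratedDeriv_eq {F : (Fin (m + 1) → ℂ) → ℂ} {t : Fin (m + 1) → ℂ} {ρ : ℝ} (hρ : 0 < ρ)
    (hF : AnalyticOnNhd ℂ F (ball t ρ)) {s' : Fin m → ℂ} (hs' : s' ∈ ball (Fin.tail t) ρ) (k : ℕ) :
    ∀ ζ ∈ ball (t 0) ρ, iteratedDeriv k (fun z : ℂ ↦ F (Fin.cons z s')) ζ =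
      (DF^[k] F) (Fin.cons ζ s') := by
  induction k with
  | zero => intro ζ _; simp
  | succ k ih =>
    intro ζ hζ
    rw [iteratedDeriv_succ, Function.iterate_succ_apply']
    have h1 : iteratedDeriv k (fun z : ℂ ↦ F (Fin.cons z s')) =ᶠ[𝓝 ζ]
        fun z ↦ (DF^[k] F) (Fin.cons z s') := by
      filter_upwards [isOpen_ball.mem_nhds hζ] with z hz using ih z hz
    rw [h1.deriv_eq]
    refine (hasDerivAt_cons ?_).deriv
    exact (DF_iter_analytic hF k _ ((cons_mem_ball hρ).mpr ⟨hζ, hs'⟩)).differentiableAt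

/-- The Taylor coefficients in the first variable. -/
noncomputable def tc (F : (Fin (m + 1) → ℂ) → ℂ) (t₀ : ℂ) (k : ℕ) (s' : Fin m → ℂ) : ℂ :=
  (k.factorial : ℂ)⁻¹ * (DF^[k] F) (Fin.cons t₀ s')

lemma analytic_cons (t₀ : ℂ) (s' : Fin m → ℂ) :
    AnalyticAt ℂ (fun s' : Fin m → ℂ ↦ (Fin.cons t₀ s' : Fin (m + 1) → ℂ)) s' := by
  rw [analyticAt_pi_iff]
  intro i
  refine Fin.cases ?_ (fun j ↦ ?_) i
  · simp only [Fin.cons_zero]
    exact analyticAt_const
  · simp only [Fin.cons_succ]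
    exact (ContinuousLinearMap.proj (R := ℂ) (φ := fun _ : Fin m ↦ ℂ) j).analyticAt s'

lemma tc_analytic {F : (Fin (m + 1) → ℂ) → ℂ} {t : Fin (m + 1) → ℂ} {ρ : ℝ} (hρ : 0 < ρ)
    (hF : AnalyticOnNhd ℂ F (ball t ρ)) (k : ℕ) :
    AnalyticOnNhd ℂ (tc F (t 0) k) (ball (Fin.tail t) ρ) := by
  intro s' hs'
  have h1 : AnalyticAt ℂ (DF^[k] F) (Fin.cons (t 0) s') :=
    DF_iter_analytic hF k _ ((cons_mem_ball hρ).mpr ⟨mem_ball_self hρ, hs'⟩)
  exact analyticAt_const.mul (AnalyticAt.fun_comp (g := DF^[k] F) (f := fun s' : Fin m → ℂ ↦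
    (Fin.cons (t 0) s' : Fin (m + 1) → ℂ)) h1 (analytic_cons _ _))

lemma hasSum_tc {F : (Fin (m + 1) → ℂ) → ℂ} {t : Fin (m + 1) → ℂ} {ρ : ℝ} (hρ : 0 < ρ)
    (hF : AnalyticOnNhd ℂ F (ball t ρ)) {s' : Fin m → ℂ} (hs' : s' ∈ ball (Fin.tail t) ρ)
    {ζ : ℂ} (hζ : ζ ∈ ball (t 0) ρ) :
    HasSum (fun k ↦ tc F (t 0) k s' * (ζ - t 0) ^ k) (F (Fin.cons ζ s')) := by
  have hd : DifferentiableOn ℂ (fun z : ℂ ↦ F (Fin.cons z s')) (ball (t 0) ρ) := fun z hz ↦
    (hasDerivAt_cons (hF _ ((cons_mem_ball hρ).mpr ⟨hz, hs'⟩)).differentiableAt).differentiableAt.differentiableWithinAt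
  have h1 := Complex.hasSum_taylorSeries_on_ball hd hζ
  refine h1.congr_fun fun k ↦ ?_
  rw [iteratedDeriv_eq hρ hF hs' k (t 0) (mem_ball_self hρ), tc]
  simp only [smul_eq_mul]
  ring

lemma tc_bound {F : (Fin (m + 1) → ℂ) → ℂ} {t : Fin (m + 1) → ℂ} {ρ R B : ℝ} (hR : 0 < R)
    (hRρ : R < ρ) (hF : AnalyticOnNhd ℂ F (ball t ρ)) (hB : ∀ s ∈ closedBall t R, ‖F s‖ ≤ B)
    {s' : Fin m → ℂ} (hs' : s' ∈ closedBall (Fin.tail t) R) (k : ℕ) :
    ‖tc F (t 0) k s'‖ ≤ B / R ^ k := by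
  have hρ : 0 < ρ := hR.trans hRρ
  have hs'' : s' ∈ ball (Fin.tail t) ρ := closedBall_subset_ball hRρ hs'
  have hd : DiffContOnCl ℂ (fun z : ℂ ↦ F (Fin.cons z s')) (ball (t 0) R) := by
    have h1 : DifferentiableOn ℂ (fun z : ℂ ↦ F (Fin.cons z s')) (ball (t 0) ρ) := fun z hz ↦
      (hasDerivAt_cons (hF _ ((cons_mem_ball hρ).mpr
        ⟨hz, hs''⟩)).differentiableAt).differentiableAt.differentiableWithinAt
    exact (h1.mono (closedBall_subset_ball hRρ)).diffContOnCl_ball le_rfl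
  have h2 := Complex.norm_iteratedDeriv_le_of_forall_mem_sphere_norm_le k hR hd (C := B)
    (fun z hz ↦ hB _ (by
      rw [mem_closedBall, dist_pi_le_iff hR.le, Fin.forall_fin_succ]
      refine ⟨?_, fun j ↦ ?_⟩
      · rw [Fin.cons_zero]; exact (mem_sphere.mp hz).le
      · rw [Fin.cons_succ]
        exact (dist_le_pi_dist s' (Fin.tail t) j).trans (mem_closedBall.mp hs')))
  rw [iteratedDeriv_eq hρ hF hs'' k (t 0) (mem_ball_self hρ)] at h2
  rw [tc, norm_mul, norm_inv, Complex.norm_natCast]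
  have hk : (0 : ℝ) < k.factorial := by exact_mod_cast k.factorial_pos
  rw [inv_mul_le_iff₀ hk]
  calc _ ≤ k.factorial * B / R ^ k := h2
    _ = _ := by ring

lemma exists_leading {F : (Fin (m + 1) → ℂ) → ℂ} {t : Fin (m + 1) → ℂ} (hF : AnalyticAt ℂ F t)
    (hne : ¬ ∀ᶠ s in 𝓝 t, F s = 0) : ∃ (k₀ : ℕ) (G : (Fin m → ℂ) → ℂ),
      AnalyticAt ℂ G (Fin.tail t) ∧ (¬ ∀ᶠ s in 𝓝 (Fin.tail t), G s = 0) ∧
      ∃ C : ℝ, 0 < C ∧ ∀ᶠ s in 𝓝 t, ‖F s - G (Fin.tail s) * (s 0 - t 0) ^ k₀‖ ≤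
        C * ‖s 0 - t 0‖ ^ (k₀ + 1) := by
  obtain ⟨ρ, hρ, hball⟩ := Metric.eventually_nhds_iff_ball.mp hF.eventually_analyticAt
  have hana : AnalyticOnNhd ℂ F (ball t ρ) := fun s hs ↦ hball s hs
  have hpre : IsPreconnected (ball (Fin.tail t) ρ) := (convex_ball _ _).isPreconnected
  have hmem : Fin.tail t ∈ ball (Fin.tail t) ρ := mem_ball_self hρ
  have hex : ∃ k, ¬ ∀ᶠ s' in 𝓝 (Fin.tail t), tc F (t 0) k s' = 0 := by
    by_contra hcon
    push Not at hcon
    apply hne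
    filter_upwards [isOpen_ball.mem_nhds (mem_ball_self hρ)] with s hs
    have hs2 : (Fin.cons (s 0) (Fin.tail s) : Fin (m + 1) → ℂ) ∈ ball t ρ := by
      rwa [Fin.cons_self_tail]
    obtain ⟨h1, h2⟩ := (cons_mem_ball hρ).mp hs2
    have h3 := hasSum_tc hρ hana h2 h1
    have h4 : (fun k ↦ tc F (t 0) k (Fin.tail s) * (s 0 - t 0) ^ k) = fun _ ↦ 0 := by
      ext k
      have := (tc_analytic hρ hana k).eqOn_zero_of_preconnected_of_eventuallyEq_zero hpre hmem
        (hcon k) h2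
      rw [this]
      simp
    rw [h4, Fin.cons_self_tail] at h3
    exact h3.unique hasSum_zero
  classical
  set k₀ := Nat.find hex with hk₀
  have hk0 := Nat.find_spec hex
  have hlt : ∀ k < k₀, ∀ s' ∈ ball (Fin.tail t) ρ, tc F (t 0) k s' = 0 := fun k hk s' hs' ↦ by
    have h1 : ∀ᶠ s' in 𝓝 (Fin.tail t), tc F (t 0) k s' = 0 := by
      by_contra h
      exact Nat.find_min hex hk h
    exact (tc_analytic hρ hana k).eqOn_zero_of_preconnected_of_eventuallyEq_zero hpre hmem h1 hs'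
  obtain ⟨R, hR0, hRρ⟩ : ∃ R : ℝ, 0 < R ∧ R < ρ := ⟨ρ / 2, by positivity, by linarith⟩
  have hcomp : IsCompact (closedBall t R) := isCompact_closedBall t R
  have hcont : ContinuousOn F (closedBall t R) :=
    (hana.mono (closedBall_subset_ball hRρ)).continuousOn
  obtain ⟨B, hB⟩ := hcomp.exists_bound_of_continuousOn hcont
  have hB0 : 0 ≤ B := (norm_nonneg _).trans (hB t (mem_closedBall_self hR0.le))
  refine ⟨k₀, tc F (t 0) k₀, tc_analytic hρ hana k₀ _ hmem, hk0, 2 * B / R ^ (k₀ + 1) + 1,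
    by positivity, ?_⟩
  filter_upwards [isOpen_ball.mem_nhds (mem_ball_self (half_pos hR0) : t ∈ ball t (R / 2))]
    with s hs
  have hs' : (Fin.cons (s 0) (Fin.tail s) : Fin (m + 1) → ℂ) ∈ ball t (R / 2) := by
    rwa [Fin.cons_self_tail]
  obtain ⟨h1, h2⟩ := (cons_mem_ball (half_pos hR0)).mp hs'
  have h1' : s 0 ∈ ball (t 0) ρ := ball_subset_ball (by linarith) h1
  have h2' : Fin.tail s ∈ ball (Fin.tail t) ρ := ball_subset_ball (by linarith) h2
  have h2c : Fin.tail s ∈ closedBall (Fin.tail t) R :=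
    ball_subset_closedBall (ball_subset_ball (by linarith) h2)
  have h3 := hasSum_tc hρ hana h2' h1'
  rw [Fin.cons_self_tail] at h3
  have h4 := (hasSum_nat_add_iff' (k₀ + 1)).mpr h3
  have h5 : ∑ i ∈ Finset.range (k₀ + 1), tc F (t 0) i (Fin.tail s) * (s 0 - t 0) ^ i =
      tc F (t 0) k₀ (Fin.tail s) * (s 0 - t 0) ^ k₀ := by
    rw [Finset.sum_range_succ, Finset.sum_eq_zero, zero_add]
    intro k hk
    rw [hlt k (Finset.mem_range.mp hk) _ h2', zero_mul]
  rw [h5] at h4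
  set x : ℝ := ‖s 0 - t 0‖ / R with hx
  have hx0 : 0 ≤ x := by positivity
  have hx1 : x ≤ 1 / 2 := by
    rw [hx, div_le_iff₀ hR0]
    have := (mem_ball_iff_norm.mp h1).le
    linarith
  have hg : HasSum (fun k ↦ B * x ^ (k₀ + 1) * x ^ k) (B * x ^ (k₀ + 1) * (1 - x)⁻¹) :=
    (hasSum_geometric_of_lt_one hx0 (by linarith)).mul_left _
  have h6 := tsum_of_norm_bounded hg (f := fun k ↦
    tc F (t 0) (k + (k₀ + 1)) (Fin.tail s) * (s 0 - t 0) ^ (k + (k₀ + 1))) (fun k ↦ by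
      rw [norm_mul, norm_pow]
      have h7 := tc_bound hR0 hRρ hana hB h2c (k + (k₀ + 1))
      calc ‖tc F (t 0) (k + (k₀ + 1)) (Fin.tail s)‖ * ‖s 0 - t 0‖ ^ (k + (k₀ + 1)) ≤
          B / R ^ (k + (k₀ + 1)) * ‖s 0 - t 0‖ ^ (k + (k₀ + 1)) := by gcongr
        _ = B * x ^ (k₀ + 1) * x ^ k := by
            rw [mul_assoc, ← pow_add, add_comm (k₀ + 1) k, hx, div_pow]
            ring)
  rw [h4.tsum_eq] at h6
  refine h6.trans ?_
  have h8 : (1 - x)⁻¹ ≤ 2 := by
    rw [inv_le_comm₀ (by linarith) (by norm_num)]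
    linarith
  calc B * x ^ (k₀ + 1) * (1 - x)⁻¹ ≤ B * x ^ (k₀ + 1) * 2 := by gcongr
    _ = 2 * B / R ^ (k₀ + 1) * ‖s 0 - t 0‖ ^ (k₀ + 1) := by rw [hx, div_pow]; ring
    _ ≤ _ := by
      have : 0 ≤ ‖s 0 - t 0‖ ^ (k₀ + 1) := by positivity
      nlinarith

theorem nonvanish_multi {ι : Type*} {l : Filter ι} (m : ℕ) :
    ∀ (F : (Fin m → ℂ) → ℂ) (t : Fin m → ℂ) (r : ι → Fin m → ℂ) (_ : AnalyticAt ℂ F t)
      (_ : ¬ ∀ᶠ s in 𝓝 t, F s = 0) (_ : Tendsto r l (𝓝 t))
      (_ : ∀ C : ℕ, ∀ᶠ i in l, ∀ j k, j < k → ‖r i j - t j‖ ≤ ‖r i k - t k‖ ^ C),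
      ∃ c : ℝ, 0 < c ∧ ∃ M : ℕ, ∀ᶠ i in l, c * (∏ j, ‖r i j - t j‖) ^ M ≤ ‖F (r i)‖ := by
  induction m with
  | zero =>
    intro F t r _ hne _ _
    have h1 : F t ≠ 0 := fun h ↦ hne (Eventually.of_forall fun s ↦ by
      rw [Subsingleton.elim s t]; exact h)
    refine ⟨‖F t‖, norm_pos_iff.mpr h1, 0, Eventually.of_forall fun i ↦ ?_⟩
    rw [Subsingleton.elim (r i) t]
    simp
  | succ n ih =>
    intro F t r hF hne hr hh
    obtain ⟨k₀, G, hG, hGne, C, hC, hexp⟩ := exists_leading hF hne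
    have htail : Tendsto (fun i ↦ Fin.tail (r i)) l (𝓝 (Fin.tail t)) :=
      tendsto_pi_nhds.mpr fun j ↦ (tendsto_pi_nhds.mp hr) j.succ
    obtain ⟨c, hc, M, hM⟩ := ih G (Fin.tail t) (fun i ↦ Fin.tail (r i)) hG hGne htail
      (fun C ↦ (hh C).mono fun i hi j k hjk ↦ hi j.succ k.succ (Fin.succ_lt_succ_iff.mpr hjk))
    set ρ : Fin (n + 1) → ι → ℝ := fun j i ↦ ‖r i j - t j‖ with hρ
    have hρ0 : ∀ j, Tendsto (ρ j) l (𝓝 0) := fun j ↦ by
      have := (((tendsto_pi_nhds.mp hr) j).sub_const (t j)).norm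
      simpa using this
    have hρnn : ∀ j i, 0 ≤ ρ j i := fun j i ↦ norm_nonneg _
    have hsum : Tendsto (fun i ↦ ∑ j, ρ j i) l (𝓝 0) := by
      have := tendsto_finsetSum Finset.univ fun j (_ : j ∈ (Finset.univ : Finset (Fin (n + 1)))) ↦
        hρ0 j
      simpa using this
    have hsmall : ∀ᶠ i in l, C * ∑ j, ρ j i ≤ c / 2 := by
      have h1 : Tendsto (fun i ↦ C * ∑ j, ρ j i) l (𝓝 (C * 0)) := hsum.const_mul C
      rw [mul_zero] at h1
      exact (h1.eventually_lt_const (by positivity)).mono fun i hi ↦ hi.le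
    have hle1 : ∀ᶠ i in l, ∀ j, ρ j i ≤ 1 := by
      rw [Filter.eventually_all]
      exact fun j ↦ ((hρ0 j).eventually_lt_const one_pos).mono fun i hi ↦ hi.le
    refine ⟨c / 2, by positivity, max k₀ M, ?_⟩
    filter_upwards [hM, hr.eventually hexp, hsmall, hle1, hh (n * M + 1)] with i h1 h2 h3 h4 h5
    set Δ : ℝ := ∏ j : Fin n, ρ j.succ i with hΔ
    have hΔ0 : 0 ≤ Δ := Finset.prod_nonneg fun j _ ↦ hρnn _ _
    have hΔ1 : Δ ≤ 1 := Finset.prod_le_one (fun j _ ↦ hρnn _ _) fun j _ ↦ h4 _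
    have h1' : c * Δ ^ M ≤ ‖G (Fin.tail (r i))‖ := h1
    have h6 : ρ 0 i ≤ Δ ^ M * ∑ j, ρ j i := by
      rcases Nat.eq_zero_or_pos n with hn | hn
      · subst hn
        have : Δ = 1 := by simp [hΔ]
        rw [this, one_pow, one_mul]
        exact Finset.single_le_sum (f := fun j ↦ ρ j i) (fun j _ ↦ hρnn j i) (Finset.mem_univ 0)
      · have : Nonempty (Fin n) := ⟨⟨0, hn⟩⟩
        obtain ⟨j₀, -, hj₀⟩ := Finset.exists_min_image (Finset.univ : Finset (Fin n))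
          (fun j ↦ ρ j.succ i) Finset.univ_nonempty
        have h7 : ρ j₀.succ i ^ n ≤ Δ := by
          calc ρ j₀.succ i ^ n = ∏ _j : Fin n, ρ j₀.succ i := by simp
            _ ≤ Δ := Finset.prod_le_prod (fun _ _ ↦ hρnn _ _) fun j hj ↦ hj₀ j hj
        have h8 : ρ 0 i ≤ ρ j₀.succ i ^ (n * M + 1) := h5 0 j₀.succ (Fin.succ_pos j₀)
        calc ρ 0 i ≤ ρ j₀.succ i ^ (n * M + 1) := h8
          _ = (ρ j₀.succ i ^ n) ^ M * ρ j₀.succ i := by rw [pow_succ, pow_mul]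
          _ ≤ Δ ^ M * ∑ j, ρ j i := by
              have h9 : ρ j₀.succ i ≤ ∑ j, ρ j i :=
                Finset.single_le_sum (f := fun j ↦ ρ j i) (fun j _ ↦ hρnn j i)
                  (Finset.mem_univ j₀.succ)
              have h10 : 0 ≤ ρ j₀.succ i := hρnn _ _
              gcongr
    have h7 : C * ρ 0 i ≤ c / 2 * Δ ^ M := by
      calc C * ρ 0 i ≤ C * (Δ ^ M * ∑ j, ρ j i) := by gcongr
        _ = (C * ∑ j, ρ j i) * Δ ^ M := by ring
        _ ≤ c / 2 * Δ ^ M := by gcongr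
    have h8 : ‖F (r i) - G (Fin.tail (r i)) * (r i 0 - t 0) ^ k₀‖ ≤
        ρ 0 i ^ k₀ * (c / 2 * Δ ^ M) := by
      calc _ ≤ C * ‖r i 0 - t 0‖ ^ (k₀ + 1) := h2
        _ = ρ 0 i ^ k₀ * (C * ρ 0 i) := by rw [pow_succ]; ring
        _ ≤ _ := by have := hρnn 0 i; gcongr
    have h9 : ρ 0 i ^ k₀ * (c * Δ ^ M) ≤ ‖G (Fin.tail (r i)) * (r i 0 - t 0) ^ k₀‖ := by
      rw [norm_mul, norm_pow, mul_comm]
      have := hρnn 0 i
      gcongr
    have h10 : ρ 0 i ^ k₀ * (c / 2 * Δ ^ M) ≤ ‖F (r i)‖ := by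
      have h11 := norm_sub_norm_le (G (Fin.tail (r i)) * (r i 0 - t 0) ^ k₀)
        (G (Fin.tail (r i)) * (r i 0 - t 0) ^ k₀ - F (r i))
      rw [sub_sub_cancel, norm_sub_rev] at h11
      have h12 : ρ 0 i ^ k₀ * (c * Δ ^ M) = ρ 0 i ^ k₀ * (c / 2 * Δ ^ M) +
          ρ 0 i ^ k₀ * (c / 2 * Δ ^ M) := by ring
      linarith
    refine le_trans ?_ h10
    have hprod : ∏ j, ‖r i j - t j‖ = ρ 0 i * Δ := by
      rw [Fin.prod_univ_succ]
    rw [hprod, mul_pow]
    have h13 : ρ 0 i ^ max k₀ M ≤ ρ 0 i ^ k₀ :=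
      pow_le_pow_of_le_one (hρnn 0 i) (h4 0) (le_max_left _ _)
    have h14 : Δ ^ max k₀ M ≤ Δ ^ M := pow_le_pow_of_le_one hΔ0 hΔ1 (le_max_right _ _)
    calc c / 2 * (ρ 0 i ^ max k₀ M * Δ ^ max k₀ M) ≤ c / 2 * (ρ 0 i ^ k₀ * Δ ^ M) := by
          have := hρnn 0 i
          gcongr
      _ = _ := by ring

end H32

end S_MultiVar

section S_Nonvanish

/-!
# A lower bound for polynomials in analytic functions along hierarchical sequences
-/

namespace H32

open MvPolynomial Filter Asymptotics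
open scoped Topology

lemma taylor {g : ℂ → ℂ} {t₀ : ℂ} (hg : AnalyticAt ℂ g t₀) : ∃ u : ℕ → ℂ,
    (∀ᶠ z in 𝓝 t₀, HasSum (fun k ↦ u k * (z - t₀) ^ k) (g z)) ∧
    ∀ K : ℕ, (fun z ↦ g z - ∑ k ∈ Finset.range K, u k * (z - t₀) ^ k) =O[𝓝 t₀]
      fun z ↦ (z - t₀) ^ K := by
  obtain ⟨p, hp⟩ := hg
  refine ⟨p.coeff, ?_, fun K ↦ ?_⟩
  · filter_upwards [hp.eventually_hasSum_sub] with z hz
    simpa [mul_comm] using hz
  · have h1 := hp.isBigO_sub_partialSum_pow K
    have h2 : Tendsto (fun z : ℂ ↦ z - t₀) (𝓝 t₀) (𝓝 0) := by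
      have : Tendsto (fun z : ℂ ↦ z - t₀) (𝓝 t₀) (𝓝 (t₀ - t₀)) :=
        (continuous_id.sub continuous_const).tendsto t₀
      simpa using this
    have h3 := h1.comp_tendsto h2
    refine (h3.congr_left fun z ↦ ?_).trans (isBigO_of_le _ fun z ↦ ?_)
    · simp [FormalMultilinearSeries.partialSum, mul_comm]
    · simp

/-- Splitting off the variables with first index `0`. -/
noncomputable def split (n : ℕ) : MvPolynomial (Fin (n + 1) × Fin 4) ℂ →ₐ[ℂ]
    MvPolynomial (Fin 4) (MvPolynomial (Fin n × Fin 4) ℂ) :=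
  aeval fun x ↦ Fin.cases (motive := fun _ ↦ MvPolynomial (Fin 4) (MvPolynomial (Fin n × Fin 4) ℂ))
    (X x.2) (fun j ↦ C (X (j, x.2))) x.1

lemma eval_split (n : ℕ) (Φ : MvPolynomial (Fin (n + 1) × Fin 4) ℂ)
    (x : Fin (n + 1) × Fin 4 → ℂ) :
    eval₂ (eval fun y : Fin n × Fin 4 ↦ x (y.1.succ, y.2)) (fun l ↦ x (0, l)) (split n Φ) =
      aeval x Φ := by
  have h : ((eval₂Hom (eval fun y : Fin n × Fin 4 ↦ x (y.1.succ, y.2))
      (fun l ↦ x (0, l))).comp (split n).toRingHom) = (aeval x).toRingHom := by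
    apply MvPolynomial.ringHom_ext
    · intro r
      simp [split]
    · rintro ⟨i, l⟩
      refine Fin.cases ?_ (fun j ↦ ?_) i
      · simp [split]
      · simp [split]
  exact congrArg (fun f ↦ f Φ) h

lemma split_ne_zero {n : ℕ} {Φ : MvPolynomial (Fin (n + 1) × Fin 4) ℂ} (h : Φ ≠ 0) :
    split n Φ ≠ 0 := by
  intro h0
  apply h
  apply MvPolynomial.funext
  intro x
  have := eval_split n Φ x
  rw [h0] at this
  simpa using this.symm

lemma exists_taylor_poly {n : ℕ} {D : ℂ → Fin 4 → ℂ} {t₀ : ℂ}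
    (hD : ∀ k, AnalyticAt ℂ (fun z ↦ D z k) t₀)
    (hind : ∀ P : MvPolynomial (Fin 4) ℂ, (∀ᶠ z in 𝓝 t₀, aeval (D z) P = 0) → P = 0)
    {R : MvPolynomial (Fin 4) (MvPolynomial (Fin n × Fin 4) ℂ)} (hR : R ≠ 0) :
    ∃ (k₀ : ℕ) (P : MvPolynomial (Fin n × Fin 4) ℂ), P ≠ 0 ∧
      ∃ e : (Fin 4 →₀ ℕ) → ℂ → ℂ,
        (∀ m, (e m) =O[𝓝 t₀] fun z ↦ (z - t₀) ^ (k₀ + 1)) ∧
        ∀ (x' : Fin n × Fin 4 → ℂ) (z : ℂ), eval₂ (eval x') (D z) R =
          (z - t₀) ^ k₀ * eval x' P + ∑ m ∈ R.support, eval x' (R.coeff m) * e m z := by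
  classical
  set g : (Fin 4 →₀ ℕ) → ℂ → ℂ := fun m z ↦ ∏ l, D z l ^ m l with hg
  have hga : ∀ m, AnalyticAt ℂ (g m) t₀ := fun m ↦ by
    have : g m = ∏ l, fun z ↦ D z l ^ m l := by
      ext z; simp [hg]
    rw [this]
    exact Finset.analyticAt_prod _ fun l _ ↦ (hD l).pow _
  choose u hu1 hu2 using fun m ↦ taylor (hga m)
  set P : ℕ → MvPolynomial (Fin n × Fin 4) ℂ := fun k ↦
    ∑ m ∈ R.support, C (u m k) * R.coeff m with hP
  have hex : ∃ k, P k ≠ 0 := by
    by_contra hcon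
    push Not at hcon
    obtain ⟨m₀, hm₀⟩ := MvPolynomial.support_nonempty.mpr hR
    have hc : R.coeff m₀ ≠ 0 := MvPolynomial.mem_support_iff.mp hm₀
    obtain ⟨μ, hμ⟩ := MvPolynomial.support_nonempty.mpr hc
    have hμ' : (R.coeff m₀).coeff μ ≠ 0 := MvPolynomial.mem_support_iff.mp hμ
    set S : MvPolynomial (Fin 4) ℂ := ∑ m ∈ R.support, monomial m ((R.coeff m).coeff μ) with hS
    have hS0 : S = 0 := by
      apply hind
      have hall : ∀ᶠ z in 𝓝 t₀, ∀ m ∈ R.support,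
          HasSum (fun k ↦ u m k * (z - t₀) ^ k) (g m z) :=
        (Filter.eventually_all_finset _).mpr fun m _ ↦ hu1 m
      filter_upwards [hall] with z hz
      have h1 : aeval (D z) S = ∑ m ∈ R.support, (R.coeff m).coeff μ * g m z := by
        rw [hS, map_sum]
        refine Finset.sum_congr rfl fun m _ ↦ ?_
        rw [aeval_monomial, Finsupp.prod_fintype _ _ (by simp)]
        rfl
      have h2 : HasSum (fun k ↦ ∑ m ∈ R.support, (R.coeff m).coeff μ * (u m k * (z - t₀) ^ k))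
          (∑ m ∈ R.support, (R.coeff m).coeff μ * g m z) :=
        hasSum_sum fun m hm ↦ (hz m hm).mul_left _
      have h3 : (fun k ↦ ∑ m ∈ R.support, (R.coeff m).coeff μ * (u m k * (z - t₀) ^ k)) =
          fun _ ↦ 0 := by
        ext k
        have h4 := congrArg (MvPolynomial.coeff μ) (hcon k)
        simp only [hP, coeff_sum, coeff_C_mul, coeff_zero] at h4
        calc ∑ m ∈ R.support, (R.coeff m).coeff μ * (u m k * (z - t₀) ^ k) =
            (∑ m ∈ R.support, u m k * (R.coeff m).coeff μ) * (z - t₀) ^ k := by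
              rw [Finset.sum_mul]
              exact Finset.sum_congr rfl fun m _ ↦ by ring
          _ = 0 := by rw [h4, zero_mul]
      rw [h3] at h2
      rw [h1, h2.unique hasSum_zero]
    apply hμ'
    have h5 := congrArg (MvPolynomial.coeff m₀) hS0
    rw [hS, coeff_sum, coeff_zero, Finset.sum_eq_single m₀] at h5
    · simpa using h5
    · intro m _ hne
      rw [coeff_monomial, if_neg hne]
    · intro h
      exact absurd hm₀ h
  set k₀ := Nat.find hex with hk₀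
  have hk0 : P k₀ ≠ 0 := Nat.find_spec hex
  have hlt : ∀ k < k₀, P k = 0 := fun k hk ↦ by
    by_contra h
    exact Nat.find_min hex hk h
  refine ⟨k₀, P k₀, hk0, fun m z ↦ g m z - ∑ k ∈ Finset.range (k₀ + 1), u m k * (z - t₀) ^ k,
    fun m ↦ hu2 m (k₀ + 1), fun x' z ↦ ?_⟩
  rw [eval₂_eq']
  have h6 : ∀ m, g m z = (∑ k ∈ Finset.range (k₀ + 1), u m k * (z - t₀) ^ k) +
      (g m z - ∑ k ∈ Finset.range (k₀ + 1), u m k * (z - t₀) ^ k) := fun m ↦ by ring
  have h7 : ∑ m ∈ R.support, eval x' (R.coeff m) * ∏ l, D z l ^ m l =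
      ∑ m ∈ R.support, eval x' (R.coeff m) * (∑ k ∈ Finset.range (k₀ + 1), u m k * (z - t₀) ^ k) +
      ∑ m ∈ R.support, eval x' (R.coeff m) *
        (g m z - ∑ k ∈ Finset.range (k₀ + 1), u m k * (z - t₀) ^ k) := by
    rw [← Finset.sum_add_distrib]
    refine Finset.sum_congr rfl fun m _ ↦ ?_
    rw [← mul_add, ← h6 m]
  rw [h7]
  congr 1
  have h8 : ∀ k, eval x' (P k) = ∑ m ∈ R.support, eval x' (R.coeff m) * u m k := fun k ↦ by
    rw [hP]
    simp only [map_sum, map_mul, eval_C]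
    exact Finset.sum_congr rfl fun m _ ↦ mul_comm _ _
  calc ∑ m ∈ R.support, eval x' (R.coeff m) * (∑ k ∈ Finset.range (k₀ + 1), u m k * (z - t₀) ^ k)
      = ∑ k ∈ Finset.range (k₀ + 1), (z - t₀) ^ k * eval x' (P k) := by
        simp_rw [h8, Finset.mul_sum]
        rw [Finset.sum_comm]
        exact Finset.sum_congr rfl fun k _ ↦ Finset.sum_congr rfl fun m _ ↦ by ring
    _ = (z - t₀) ^ k₀ * eval x' (P k₀) := by
        rw [Finset.sum_range_succ, Finset.sum_eq_zero, zero_add]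
        intro k hk
        rw [hlt k (Finset.mem_range.mp hk), map_zero, mul_zero]

theorem nonvanish {ι : Type*} {l : Filter ι} (n : ℕ) :
    ∀ (D : Fin n → ℂ → Fin 4 → ℂ) (t : Fin n → ℂ) (r : Fin n → ι → ℂ)
    (_ : ∀ j k, AnalyticAt ℂ (fun z ↦ D j z k) (t j))
    (_ : ∀ j (P : MvPolynomial (Fin 4) ℂ), (∀ᶠ z in 𝓝 (t j), aeval (D j z) P = 0) → P = 0)
    (_ : ∀ j, Tendsto (r j) l (𝓝 (t j)))
    (_ : ∀ C : ℕ, ∀ᶠ i in l, ∀ j k, j < k → ‖r j i - t j‖ ≤ ‖r k i - t k‖ ^ C)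
    (Φ : MvPolynomial (Fin n × Fin 4) ℂ) (_ : Φ ≠ 0),
    ∃ c : ℝ, 0 < c ∧ ∃ M : ℕ, ∀ᶠ i in l, c * (∏ j, ‖r j i - t j‖) ^ M ≤
      ‖aeval (fun x : Fin n × Fin 4 ↦ D x.1 (r x.1 i) x.2) Φ‖ := by
  induction n with
  | zero =>
    intro D t r _ _ _ _ Φ hΦ
    have h := MvPolynomial.eq_C_of_isEmpty Φ
    set a := MvPolynomial.coeff 0 Φ with ha
    have ha0 : a ≠ 0 := by
      rintro h0
      rw [h0] at h
      exact hΦ (by rw [h]; simp)
    refine ⟨‖a‖, norm_pos_iff.mpr ha0, 0, Eventually.of_forall fun i ↦ ?_⟩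
    rw [h]
    simp
  | succ n ih =>
    intro D t r hD hind hr hh Φ hΦ
    obtain ⟨k₀, P, hP, e, he, hexp⟩ := exists_taylor_poly (n := n) (hD 0) (hind 0) (split_ne_zero hΦ)
    obtain ⟨c, hc, M, hM⟩ := ih (fun j ↦ D j.succ) (fun j ↦ t j.succ) (fun j ↦ r j.succ)
      (fun j k ↦ hD j.succ k) (fun j P hP ↦ hind j.succ P hP) (fun j ↦ hr j.succ)
      (fun C ↦ (hh C).mono fun i hi j k hjk ↦ hi j.succ k.succ (Fin.succ_lt_succ_iff.mpr hjk)) P hP
    -- notation
    set ρ : Fin (n + 1) → ι → ℝ := fun j i ↦ ‖r j i - t j‖ with hρ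
    have hρ0 : ∀ j, Tendsto (ρ j) l (𝓝 0) := fun j ↦ by
      have := ((hr j).sub_const (t j)).norm
      simpa using this
    have hρnn : ∀ j i, 0 ≤ ρ j i := fun j i ↦ norm_nonneg _
    set x' : ι → Fin n × Fin 4 → ℂ := fun i y ↦ D y.1.succ (r y.1.succ i) y.2 with hx'
    -- the error term
    have hx'lim : ∀ y, Tendsto (fun i ↦ x' i y) l (𝓝 (D y.1.succ (t y.1.succ) y.2)) := fun y ↦
      ((hD y.1.succ y.2).continuousAt.tendsto).comp (hr y.1.succ)
    have herr : (fun i ↦ ∑ m ∈ (split n Φ).support, eval (x' i) ((split n Φ).coeff m) *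
        e m (r 0 i)) =O[l] fun i ↦ (r 0 i - t 0) ^ (k₀ + 1) := by
      refine IsBigO.fun_sum fun m _ ↦ ?_
      have h1 : (fun i ↦ eval (x' i) ((split n Φ).coeff m)) =O[l] fun _ ↦ (1 : ℂ) := by
        have hcont : Continuous fun y : Fin n × Fin 4 → ℂ ↦ eval y ((split n Φ).coeff m) :=
          MvPolynomial.continuous_eval _
        have hlim : Tendsto (fun i ↦ eval (x' i) ((split n Φ).coeff m)) l
            (𝓝 (eval (fun y ↦ D y.1.succ (t y.1.succ) y.2) ((split n Φ).coeff m))) :=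
          (hcont.tendsto _).comp (tendsto_pi_nhds.mpr hx'lim)
        exact hlim.isBigO_one ℂ
      have h2 : (fun i ↦ e m (r 0 i)) =O[l] fun i ↦ (r 0 i - t 0) ^ (k₀ + 1) :=
        (he m).comp_tendsto (hr 0)
      simpa using h1.mul h2
    obtain ⟨C, hC, hCb⟩ := herr.exists_pos
    rw [IsBigOWith] at hCb
    -- smallness
    have hsum : Tendsto (fun i ↦ ∑ j, ρ j i) l (𝓝 0) := by
      have := tendsto_finsetSum Finset.univ fun j (_ : j ∈ (Finset.univ : Finset (Fin (n + 1)))) ↦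
        hρ0 j
      simpa using this
    have hsmall : ∀ᶠ i in l, C * ∑ j, ρ j i ≤ c / 2 := by
      have h1 : Tendsto (fun i ↦ C * ∑ j, ρ j i) l (𝓝 (C * 0)) := hsum.const_mul C
      rw [mul_zero] at h1
      exact (h1.eventually_lt_const (by positivity)).mono fun i hi ↦ hi.le
    have hle1 : ∀ᶠ i in l, ∀ j, ρ j i ≤ 1 := by
      rw [Filter.eventually_all]
      exact fun j ↦ ((hρ0 j).eventually_lt_const one_pos).mono fun i hi ↦ hi.le
    refine ⟨c / 2, by positivity, max k₀ M, ?_⟩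
    filter_upwards [hM, hCb, hsmall, hle1, hh (n * M + 1)] with i h1 h2 h3 h4 h5
    have hval : aeval (fun x : Fin (n + 1) × Fin 4 ↦ D x.1 (r x.1 i) x.2) Φ =
        (r 0 i - t 0) ^ k₀ * eval (x' i) P + ∑ m ∈ (split n Φ).support,
          eval (x' i) ((split n Φ).coeff m) * e m (r 0 i) := by
      rw [← eval_split n Φ, ← hexp (x' i) (r 0 i)]
    set Δ : ℝ := ∏ j : Fin n, ρ j.succ i with hΔ
    have hΔ0 : 0 ≤ Δ := Finset.prod_nonneg fun j _ ↦ hρnn _ _
    have hΔ1 : Δ ≤ 1 := Finset.prod_le_one (fun j _ ↦ hρnn _ _) fun j _ ↦ h4 _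
    have h1' : c * Δ ^ M ≤ ‖eval (x' i) P‖ := by
      simpa [aeval_eq_eval] using h1
    have h6 : ρ 0 i ≤ Δ ^ M * ∑ j, ρ j i := by
      rcases Nat.eq_zero_or_pos n with hn | hn
      · subst hn
        have : Δ = 1 := by simp [hΔ]
        rw [this, one_pow, one_mul]
        exact Finset.single_le_sum (f := fun j ↦ ρ j i) (fun j _ ↦ hρnn j i) (Finset.mem_univ 0)
      · have : Nonempty (Fin n) := ⟨⟨0, hn⟩⟩
        obtain ⟨j₀, -, hj₀⟩ := Finset.exists_min_image (Finset.univ : Finset (Fin n))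
          (fun j ↦ ρ j.succ i) Finset.univ_nonempty
        have h7 : ρ j₀.succ i ^ n ≤ Δ := by
          calc ρ j₀.succ i ^ n = ∏ _j : Fin n, ρ j₀.succ i := by simp
            _ ≤ Δ := Finset.prod_le_prod (fun _ _ ↦ hρnn _ _) fun j hj ↦ hj₀ j hj
        have h8 : ρ 0 i ≤ ρ j₀.succ i ^ (n * M + 1) := h5 0 j₀.succ (Fin.succ_pos j₀)
        calc ρ 0 i ≤ ρ j₀.succ i ^ (n * M + 1) := h8
          _ = (ρ j₀.succ i ^ n) ^ M * ρ j₀.succ i := by rw [pow_succ, pow_mul]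
          _ ≤ Δ ^ M * ∑ j, ρ j i := by
              have h9 : ρ j₀.succ i ≤ ∑ j, ρ j i :=
                Finset.single_le_sum (f := fun j ↦ ρ j i) (fun j _ ↦ hρnn j i)
                  (Finset.mem_univ j₀.succ)
              have h10 : 0 ≤ ρ j₀.succ i := hρnn _ _
              gcongr
    have h7 : C * ρ 0 i ≤ c / 2 * Δ ^ M := by
      calc C * ρ 0 i ≤ C * (Δ ^ M * ∑ j, ρ j i) := by gcongr
        _ = (C * ∑ j, ρ j i) * Δ ^ M := by ring
        _ ≤ c / 2 * Δ ^ M := by gcongr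
    have h8 : ‖∑ m ∈ (split n Φ).support, eval (x' i) ((split n Φ).coeff m) * e m (r 0 i)‖ ≤
        ρ 0 i ^ k₀ * (c / 2 * Δ ^ M) := by
      calc _ ≤ C * ‖(r 0 i - t 0) ^ (k₀ + 1)‖ := h2
        _ = ρ 0 i ^ k₀ * (C * ρ 0 i) := by rw [norm_pow, pow_succ]; ring
        _ ≤ _ := by have := hρnn 0 i; gcongr
    have h9 : ρ 0 i ^ k₀ * (c * Δ ^ M) ≤ ‖(r 0 i - t 0) ^ k₀ * eval (x' i) P‖ := by
      rw [norm_mul, norm_pow]
      have := hρnn 0 i
      gcongr
    have h10 : ρ 0 i ^ k₀ * (c / 2 * Δ ^ M) ≤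
        ‖aeval (fun x : Fin (n + 1) × Fin 4 ↦ D x.1 (r x.1 i) x.2) Φ‖ := by
      rw [hval]
      have h11 := norm_sub_norm_le ((r 0 i - t 0) ^ k₀ * eval (x' i) P)
        (-(∑ m ∈ (split n Φ).support, eval (x' i) ((split n Φ).coeff m) * e m (r 0 i)))
      rw [norm_neg, sub_neg_eq_add] at h11
      have h12 : ρ 0 i ^ k₀ * (c * Δ ^ M) = ρ 0 i ^ k₀ * (c / 2 * Δ ^ M) +
          ρ 0 i ^ k₀ * (c / 2 * Δ ^ M) := by ring
      linarith
    refine le_trans ?_ h10
    have hprod : ∏ j, ‖r j i - t j‖ = ρ 0 i * Δ := by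
      rw [Fin.prod_univ_succ]
    rw [hprod, mul_pow]
    have h13 : ρ 0 i ^ max k₀ M ≤ ρ 0 i ^ k₀ :=
      pow_le_pow_of_le_one (hρnn 0 i) (h4 0) (le_max_left _ _)
    have h14 : Δ ^ max k₀ M ≤ Δ ^ M := pow_le_pow_of_le_one hΔ0 hΔ1 (le_max_right _ _)
    calc c / 2 * (ρ 0 i ^ max k₀ M * Δ ^ max k₀ M) ≤ c / 2 * (ρ 0 i ^ k₀ * Δ ^ M) := by
          have := hρnn 0 i
          gcongr
      _ = _ := by ring

end H32

end S_Nonvanish
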