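import Mathlib
import Pool.Agent.H32.M.K1
import Pool.Agent.H32.M.K6

/-! Modular Schanuel for special tuples, part K9: this file joins several modules to save build time. -/

section S_T3_A1

/-!
# Newton's identities for families whose power sums are integer polynomials in `j`
-/

open UpperHalfPlane hiding I
open Complex EisensteinSeries ModularForm MatrixGroups
open scoped Real

namespace H32.T3

open Polynomial Finset

/-- `F` is an integer polynomial in `j` of degree at most `d` and norm at most `B`. -/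
def JP (d : ℕ) (B : ℝ) (F : ℍ → ℂ) : Prop :=
  ∃ P : ℤ[X], P.natDegree ≤ d ∧ nr P ≤ B ∧ ∀ τ, F τ = aeval (jf τ) P

lemma JP.nonneg {d : ℕ} {B : ℝ} {F : ℍ → ℂ} (h : JP d B F) : 0 ≤ B := by
  obtain ⟨P, -, h2, -⟩ := h
  exact (nr_nonneg P).trans h2

lemma JP.mono {d d' : ℕ} {B B' : ℝ} {F : ℍ → ℂ} (h : JP d B F) (hd : d ≤ d') (hB : B ≤ B') :
    JP d' B' F := by
  obtain ⟨P, h1, h2, h3⟩ := h
  exact ⟨P, h1.trans hd, h2.trans hB, h3⟩

lemma JP.mul {d d' : ℕ} {B B' : ℝ} {F G : ℍ → ℂ} (hF : JP d B F) (hG : JP d' B' G) :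
    JP (d + d') (B * B') (fun τ ↦ F τ * G τ) := by
  have hB := hF.nonneg
  obtain ⟨P, h1, h2, h3⟩ := hF
  obtain ⟨Q, k1, k2, k3⟩ := hG
  refine ⟨P * Q, natDegree_mul_le_of_le h1 k1, (nr_mul_le _ _).trans ?_, fun τ ↦ ?_⟩
  · have := nr_nonneg Q
    gcongr
  · simp only [map_mul, h3, k3]

lemma JP.const (c : ℤ) : JP 0 |(c : ℝ)| (fun _ ↦ (c : ℂ)) :=
  ⟨C c, by simp, by rw [nr_C], fun τ ↦ by simp⟩

lemma JP.const_mul {d : ℕ} {B : ℝ} {F : ℍ → ℂ} (hF : JP d B F) (c : ℤ) :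
    JP d (|(c : ℝ)| * B) (fun τ ↦ c * F τ) := by
  have := (JP.const c).mul hF
  rwa [zero_add] at this

lemma JP.sum {α : Type*} (s : Finset α) {d : ℕ} {B : α → ℝ} {F : α → ℍ → ℂ}
    (h : ∀ i ∈ s, JP d (B i) (F i)) : JP d (∑ i ∈ s, B i) (fun τ ↦ ∑ i ∈ s, F i τ) := by
  classical
  induction s using Finset.induction_on with
  | empty => exact ⟨0, by simp, by simp [nr_zero], by simp⟩
  | insert i t hi ih =>
    obtain ⟨P, h1, h2, h3⟩ := h i (mem_insert_self _ _)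
    obtain ⟨Q, k1, k2, k3⟩ := ih fun j hj ↦ h j (mem_insert_of_mem hj)
    refine ⟨P + Q, (natDegree_add_le _ _).trans (max_le h1 k1), ?_, fun τ ↦ ?_⟩
    · rw [sum_insert hi]
      exact (nr_add_le _ _).trans (add_le_add h2 k2)
    · have e := k3 τ
      simp only at e ⊢
      rw [sum_insert hi, map_add, h3, e]

variable {S : Type} [Fintype S]

/-- elementary symmetric functions of the values of a family. -/
noncomputable def es (x : S → ℍ → ℂ) (k : ℕ) (τ : ℍ) : ℂ :=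
  MvPolynomial.aeval (fun s ↦ x s τ) (MvPolynomial.esymm S ℤ k)

lemma es_zero (x : S → ℍ → ℂ) (τ : ℍ) : es x 0 τ = 1 := by
  simp [es, MvPolynomial.esymm_zero]

lemma es_newton (x : S → ℍ → ℂ) (k : ℕ) (τ : ℍ) : (k : ℂ) * es x k τ =
    (-1) ^ (k + 1) * ∑ a ∈ (Finset.HasAntidiagonal.antidiagonal k).filter (fun a ↦ a.1 < k),
      (-1) ^ a.1 * es x a.1 τ * ∑ s, x s τ ^ a.2 := by
  have h := congrArg (MvPolynomial.aeval (fun s ↦ x s τ)) (MvPolynomial.mul_esymm_eq_sum S ℤ k)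
  simp only [map_mul, map_natCast, map_pow, map_neg, map_one, map_sum, MvPolynomial.psum,
    MvPolynomial.aeval_X] at h
  exact h

lemma newton_JP (x : S → ℍ → ℂ) (c : ℕ) {B : ℝ} (hB : 1 ≤ B)
    (hp : ∀ k, 1 ≤ k → k ≤ Fintype.card S → JP (c * k) B (fun τ ↦ ∑ s, x s τ ^ k)) :
    ∀ k ≤ Fintype.card S, JP (c * k) ((((Fintype.card S).factorial : ℝ) * B) ^ k)
      (fun τ ↦ (k.factorial : ℂ) * es x k τ) := by
  set M := Fintype.card S with hM
  have hMB : 1 ≤ (M.factorial : ℝ) * B := by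
    have : (1 : ℝ) ≤ M.factorial := by exact_mod_cast Nat.one_le_iff_ne_zero.mpr M.factorial_ne_zero
    exact one_le_mul_of_one_le_of_one_le this hB
  intro k
  induction k using Nat.strong_induction_on with | _ k ih =>
  intro hk
  rcases Nat.eq_zero_or_pos k with rfl | hk0
  · refine ⟨1, by simp, ?_, fun τ ↦ ?_⟩
    · rw [nr_one]; simp
    · simp [es_zero]
  -- the terms
  set A := (Finset.HasAntidiagonal.antidiagonal k).filter (fun a ↦ a.1 < k) with hA
  have hmem : ∀ a ∈ A, a.1 + a.2 = k ∧ a.1 < k := fun a ha ↦ by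
    rw [hA, mem_filter, Finset.HasAntidiagonal.mem_antidiagonal] at ha
    exact ha
  set C' : ℕ × ℕ → ℤ := fun a ↦ (-1) ^ (k + 1) * (-1) ^ a.1 *
    (((k - 1).factorial / a.1.factorial : ℕ) : ℤ) with hC'
  have hterm : ∀ a ∈ A, JP (c * k) ((k - 1).factorial * (((M.factorial : ℝ) * B) ^ (k - 1) * B))
      (fun τ ↦ (C' a : ℂ) * (((a.1.factorial : ℂ) * es x a.1 τ) * ∑ s, x s τ ^ a.2)) := by
    intro a ha
    obtain ⟨h1, h2⟩ := hmem a ha
    have h3 := ih a.1 h2 (by omega)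
    have h4 := hp a.2 (by omega) (by omega)
    refine ((h3.mul h4).const_mul (C' a)).mono (le_of_eq ?_) ?_
    · rw [← mul_add, h1]
    · have h5 : |((C' a : ℤ) : ℝ)| ≤ (k - 1).factorial := by
        rw [hC']
        simp only [Int.cast_mul, Int.cast_pow, Int.cast_neg, Int.cast_one, Int.cast_natCast]
        rw [abs_mul, abs_mul, abs_pow, abs_pow, abs_neg, abs_one, one_pow, one_pow, one_mul,
          one_mul, Nat.abs_cast]
        exact_mod_cast Nat.div_le_self _ _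
      have h6 : ((M.factorial : ℝ) * B) ^ a.1 ≤ ((M.factorial : ℝ) * B) ^ (k - 1) :=
        pow_le_pow_right₀ hMB (by omega)
      have h7 : (0 : ℝ) ≤ ((M.factorial : ℝ) * B) ^ a.1 := by positivity
      have h8 : 0 ≤ B := by linarith
      gcongr
  have hsum := JP.sum A hterm
  have heq : (fun τ ↦ (k.factorial : ℂ) * es x k τ) = fun τ ↦ ∑ a ∈ A,
      (C' a : ℂ) * (((a.1.factorial : ℂ) * es x a.1 τ) * ∑ s, x s τ ^ a.2) := by
    ext τ
    have h1 : (k.factorial : ℂ) = ((k - 1).factorial : ℂ) * k := by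
      rw [← Nat.mul_factorial_pred hk0.ne']
      push_cast; ring
    rw [h1, mul_assoc, es_newton, mul_sum, mul_sum]
    refine sum_congr rfl fun a ha ↦ ?_
    obtain ⟨h2, h3⟩ := hmem a ha
    have h4 : (((k - 1).factorial / a.1.factorial : ℕ) : ℂ) * a.1.factorial =
        ((k - 1).factorial : ℂ) := by
      rw [← Nat.cast_mul, Nat.div_mul_cancel (Nat.factorial_dvd_factorial (by omega))]
    rw [hC']
    simp only [Int.cast_mul, Int.cast_pow, Int.cast_neg, Int.cast_one, Int.cast_natCast]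
    rw [← h4]
    ring
  rw [heq]
  refine hsum.mono le_rfl ?_
  rw [sum_const, nsmul_eq_mul]
  have hcard : (A.card : ℝ) ≤ k := by
    have h1 : A.card ≤ k := by
      have h2 : A.image Prod.fst ⊆ range k := by
        intro i hi
        obtain ⟨a, ha, rfl⟩ := mem_image.mp hi
        exact mem_range.mpr (hmem a ha).2
      have h3 : (A.image Prod.fst).card = A.card := by
        refine card_image_of_injOn fun a ha b hb hab ↦ ?_
        have h4 := hmem a ha
        have h5 := hmem b hb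
        ext
        · exact hab
        · have : a.1 = b.1 := hab
          omega
      rw [← h3]
      simpa using card_le_card h2
    exact_mod_cast h1
  have hpow : (0 : ℝ) ≤ ((M.factorial : ℝ) * B) ^ (k - 1) := by positivity
  have hB0 : 0 ≤ B := by linarith
  calc (A.card : ℝ) * ((k - 1).factorial * (((M.factorial : ℝ) * B) ^ (k - 1) * B))
      ≤ k * ((k - 1).factorial * (((M.factorial : ℝ) * B) ^ (k - 1) * B)) := by gcongr
    _ = (k.factorial : ℝ) * B * ((M.factorial : ℝ) * B) ^ (k - 1) := by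
      rw [← Nat.mul_factorial_pred hk0.ne']
      push_cast
      ring
    _ ≤ (M.factorial : ℝ) * B * ((M.factorial : ℝ) * B) ^ (k - 1) := by
      have : (k.factorial : ℝ) ≤ M.factorial := by exact_mod_cast Nat.factorial_le hk
      gcongr
    _ = ((M.factorial : ℝ) * B) ^ k := by
      rw [← pow_succ']
      congr 1
      omega

/-- the polynomial relation satisfied by the members of the family. -/
theorem exists_rel (x : S → ℍ → ℂ) (c : ℕ) {B : ℝ} (hB : 1 ≤ B)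
    (hp : ∀ k, 1 ≤ k → k ≤ Fintype.card S → JP (c * k) B (fun τ ↦ ∑ s, x s τ ^ k)) :
    ∃ r : ℕ → ℤ[X], r (Fintype.card S) = C ((Fintype.card S).factorial : ℤ) ∧
      (∀ i, (r i).natDegree ≤ c * Fintype.card S) ∧
      (∀ i, nr (r i) ≤ (((Fintype.card S).factorial : ℝ) * B) ^ (Fintype.card S + 1)) ∧
      ∀ (τ : ℍ) (u : ℂ), ∑ i ∈ range (Fintype.card S + 1), aeval (jf τ) (r i) * u ^ i =
        ((Fintype.card S).factorial : ℂ) * ∏ s, (u - x s τ) := by
  have hN := newton_JP x c hB hp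
  set M := Fintype.card S with hM
  choose! E hE1 hE2 hE3 using hN
  have hMB : 1 ≤ (M.factorial : ℝ) * B := by
    have : (1 : ℝ) ≤ M.factorial := by exact_mod_cast Nat.one_le_iff_ne_zero.mpr M.factorial_ne_zero
    exact one_le_mul_of_one_le_of_one_le this hB
  -- coefficient `i` is `(-1)^(M-i) M!/(M-i)! E_{M-i}`
  set r : ℕ → ℤ[X] := fun i ↦ if i = M then C (M.factorial : ℤ) else
    if i < M then C ((-1) ^ (M - i) * ((M.factorial / (M - i).factorial : ℕ) : ℤ)) * E (M - i)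
    else 0 with hr
  refine ⟨r, by simp [hr], fun i ↦ ?_, fun i ↦ ?_, fun τ u ↦ ?_⟩
  · rw [hr]
    simp only
    split_ifs with h1 h2
    · simp
    · refine (natDegree_C_mul_le _ _).trans ((hE1 (M - i) (by omega)).trans ?_)
      gcongr
      omega
    · simp
  · rw [hr]
    simp only
    have hpow : (1 : ℝ) ≤ ((M.factorial : ℝ) * B) ^ (M + 1) := one_le_pow₀ hMB
    split_ifs with h1 h2
    · rw [nr_C, pow_succ]
      have h3 : (1 : ℝ) ≤ ((M.factorial : ℝ) * B) ^ M := one_le_pow₀ hMB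
      rw [Int.cast_natCast, Nat.abs_cast]
      have h4 : (M.factorial : ℝ) ≤ M.factorial * B := le_mul_of_one_le_right (by positivity) hB
      exact h4.trans (le_mul_of_one_le_left (by linarith) h3)
    · refine (nr_mul_le _ _).trans ?_
      rw [nr_C]
      have h3 : |(((-1) ^ (M - i) * ((M.factorial / (M - i).factorial : ℕ) : ℤ) : ℤ) : ℝ)| ≤
          M.factorial * B := by
        simp only [Int.cast_mul, Int.cast_pow, Int.cast_neg, Int.cast_one, Int.cast_natCast]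
        rw [abs_mul, abs_pow, abs_neg, abs_one, one_pow, one_mul, Nat.abs_cast]
        have h4 : ((M.factorial / (M - i).factorial : ℕ) : ℝ) ≤ M.factorial := by
          exact_mod_cast Nat.div_le_self _ _
        exact h4.trans (le_mul_of_one_le_right (by positivity) hB)
      have h4 := hE2 (M - i) (by omega)
      have h5 : ((M.factorial : ℝ) * B) ^ (M - i) ≤ ((M.factorial : ℝ) * B) ^ M :=
        pow_le_pow_right₀ hMB (by omega)
      calc _ ≤ (M.factorial * B) * ((M.factorial : ℝ) * B) ^ M := by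
            have := nr_nonneg (E (M - i))
            have h6 := h4.trans h5
            gcongr
        _ = _ := by rw [pow_succ]; ring
    · rw [nr_zero]
      linarith
  · -- Vieta
    have hV := congrArg (Polynomial.map (MvPolynomial.aeval (fun s ↦ -x s τ) :
      MvPolynomial S ℤ →ₐ[ℤ] ℂ).toRingHom) (MvPolynomial.prod_C_add_X_eq_sum_esymm ℤ S)
    have hV2 := congrArg (Polynomial.eval u) hV
    rw [Polynomial.map_prod, Polynomial.eval_prod, Polynomial.map_sum,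
      Polynomial.eval_finsetSum] at hV2
    simp only [Polynomial.map_add, Polynomial.map_mul, Polynomial.map_pow, Polynomial.map_X,
      Polynomial.map_C, eval_add, eval_mul, eval_pow, eval_X, eval_C, AlgHom.toRingHom_eq_coe,
      RingHom.coe_coe, MvPolynomial.aeval_X] at hV2
    have hes : ∀ j, MvPolynomial.aeval (fun s ↦ -x s τ) (MvPolynomial.esymm S ℤ j) =
        (-1) ^ j * es x j τ := by
      intro j
      rw [es, MvPolynomial.esymm, map_sum, map_sum, mul_sum]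
      refine sum_congr rfl fun t ht ↦ ?_
      rw [map_prod, map_prod]
      simp only [MvPolynomial.aeval_X]
      rw [prod_neg, (mem_powersetCard.mp ht).2]
    have hprod : ∏ s, (u - x s τ) = ∑ j ∈ range (M + 1), (-1) ^ j * es x j τ * u ^ (M - j) := by
      calc ∏ s, (u - x s τ) = ∏ s, (u + -x s τ) := by simp only [sub_eq_add_neg]
        _ = _ := by
          rw [hV2]
          refine sum_congr rfl fun j _ ↦ ?_
          rw [hes]
    rw [hprod, mul_sum, ← sum_range_reflect]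
    refine sum_congr rfl fun j hj ↦ ?_
    have hj' : j ≤ M := Nat.lt_succ_iff.mp (mem_range.mp hj)
    have e1 : M + 1 - 1 - j = M - j := by omega
    rw [e1]
    rcases Nat.eq_zero_or_pos j with rfl | hj0
    · simp [hr, es_zero]
    · have h1 : M - j ≠ M := by omega
      have h2 : M - j < M := by omega
      have h3 : M - (M - j) = j := by omega
      rw [hr]
      simp only [if_neg h1, if_pos h2]
      rw [h3, map_mul, aeval_C, ← hE3 j hj' τ]
      have h4 : ((M.factorial / j.factorial : ℕ) : ℂ) * j.factorial = (M.factorial : ℂ) := by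
        rw [← Nat.cast_mul, Nat.div_mul_cancel (Nat.factorial_dvd_factorial hj')]
      rw [algebraMap_int_eq, eq_intCast]
      simp only [Int.cast_mul, Int.cast_pow, Int.cast_neg, Int.cast_one, Int.cast_natCast]
      rw [← h4]
      ring

end H32.T3

end S_T3_A1

section S_T3_A2

/-!
# The two families attached to integer matrices of determinant `N`
-/

open UpperHalfPlane hiding I
open Complex EisensteinSeries ModularForm MatrixGroups
open scoped Real

namespace H32.T3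

open Polynomial Finset

/-- Sup bounds on a horizontal line. -/
lemma line_bounds {Y : ℝ} (hY : 1 ≤ Y) : ∃ C : ℝ, 1 ≤ C ∧ (∀ N : ℕ, 0 < N → ∀ s ∈ SN N,
    ∀ τ : ℍ, τ.im = Y → ‖HA E2s 2 N (toM s) τ‖ ≤ C * N ^ 6 ∧
      ‖HA (fun τ ↦ E₄ τ) 4 N (toM s) τ‖ ≤ C * N ^ 6 ∧
      ‖HA (fun τ ↦ E₆ τ) 6 N (toM s) τ‖ ≤ C * N ^ 6) ∧
    ∀ τ : ℍ, τ.im = Y → ‖E2s τ‖ ≤ C ∧ ‖E₄ τ‖ ≤ C ∧ ‖E₆ τ‖ ≤ C := by
  obtain ⟨C2, h2⟩ := E2s_bound
  obtain ⟨C4, h4⟩ := ModularFormClass.exists_bound (by norm_num : (0 : ℤ) ≤ 4) E₄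
  obtain ⟨C6, h6⟩ := ModularFormClass.exists_bound (by norm_num : (0 : ℤ) ≤ 6) E₆
  have hc2 := abs_nonneg C2
  have hc4 := abs_nonneg C4
  have hc6 := abs_nonneg C6
  have hY0 : 0 < Y := by linarith
  have hmain : ∀ N : ℕ, 0 < N → ∀ s ∈ SN N,
    ∀ τ : ℍ, τ.im = Y → ‖HA E2s 2 N (toM s) τ‖ ≤ |C2| * N ^ 6 ∧
      ‖HA (fun τ ↦ E₄ τ) 4 N (toM s) τ‖ ≤ |C4| * N ^ 6 ∧
      ‖HA (fun τ ↦ E₆ τ) 6 N (toM s) τ‖ ≤ |C6| * N ^ 6 := by
    intro N hN s hs τ hτ
    obtain ⟨ha, hd⟩ := SN_pos hN hs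
    have h1 := ((mem_SN hN).mp hs).1
    have him : (tact s τ).im = s.1 * Y / s.2.2 := by
      rw [im_tact ha hd, hτ]
    have ha1 : (1 : ℝ) ≤ s.1 := by exact_mod_cast ha
    have hd1 : (1 : ℝ) ≤ s.2.2 := by exact_mod_cast hd
    have haN : (s.1 : ℝ) ≤ N := by exact_mod_cast Nat.le_of_dvd hN ⟨_, h1.symm⟩
    have hdN : (s.2.2 : ℝ) ≤ N := by
      exact_mod_cast Nat.le_of_dvd hN ⟨s.1, by rw [mul_comm]; exact h1.symm⟩
    have hN1 : (1 : ℝ) ≤ N := by exact_mod_cast hN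
    have key : ∀ (k : ℕ) (x C : ℝ), k ≤ 6 → x ≤ C * max 1 (1 / (s.1 * Y / s.2.2 : ℝ) ^ k) →
        (s.1 : ℝ) ^ k * x ≤ |C| * N ^ 6 := by
      intro k x C hk hx
      have h3 : x ≤ |C| * max 1 (1 / ((s.1 : ℝ) / s.2.2) ^ k) := by
        refine hx.trans ?_
        have h5 : (0 : ℝ) < (s.1 : ℝ) / s.2.2 := by positivity
        have h6 : ((s.1 : ℝ) / s.2.2) ≤ s.1 * Y / s.2.2 := by
          rw [mul_div_right_comm]
          exact le_mul_of_one_le_right h5.le hY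
        have h4 : max 1 (1 / (s.1 * Y / s.2.2 : ℝ) ^ k) ≤ max 1 (1 / ((s.1 : ℝ) / s.2.2) ^ k) := by
          gcongr
        calc C * max 1 (1 / (s.1 * Y / s.2.2 : ℝ) ^ k)
            ≤ |C| * max 1 (1 / (s.1 * Y / s.2.2 : ℝ) ^ k) := by
              gcongr
              exact le_abs_self _
          _ ≤ _ := by gcongr
      have := aux_bound hk ha1 hd1 haN hdN h3
      rwa [abs_abs] at this
    rw [HA_toM _ _ hN hs, HA_toM _ _ hN hs, HA_toM _ _ hN hs]
    simp only [norm_mul, norm_pow, Complex.norm_natCast]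
    refine ⟨?_, ?_, ?_⟩
    · have e := h2 (tact s τ)
      rw [him] at e
      exact key 2 _ _ (by norm_num) e
    · have e := h4 (tact s τ)
      rw [him] at e
      exact key 4 _ _ (by norm_num) (by exact_mod_cast e)
    · have e := h6 (tact s τ)
      rw [him] at e
      exact key 6 _ _ (by norm_num) (by exact_mod_cast e)
  refine ⟨1 + |C2| + |C4| + |C6|, by linarith, fun N hN s hs τ hτ ↦ ?_, fun τ hτ ↦ ?_⟩
  · obtain ⟨k1, k2, k3⟩ := hmain N hN s hs τ hτ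
    have hN6 : (0 : ℝ) ≤ (N : ℝ) ^ 6 := by positivity
    refine ⟨k1.trans ?_, k2.trans ?_, k3.trans ?_⟩
    · gcongr; linarith
    · gcongr; linarith
    · gcongr; linarith
  · have hmem : (1, 0, 1) ∈ SN 1 := by rw [mem_SN one_pos]; simp
    have e := hmain 1 one_pos _ hmem τ hτ
    have ht : tact (1, 0, 1) τ = τ := by
      ext
      rw [coe_tact (by norm_num) (by norm_num)]
      simp
    rw [HA_toM _ _ one_pos hmem, HA_toM _ _ one_pos hmem, HA_toM _ _ one_pos hmem, ht] at e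
    simp only [Nat.cast_one, one_pow, one_mul, mul_one] at e
    obtain ⟨k1, k2, k3⟩ := e
    refine ⟨by linarith, by linarith, by linarith⟩

lemma IntQ_to_JP {t : ℝ} (ht : 0 < t) {δ a : ℝ} (hδ : 0 < δ)
    (hΔ : ∀ τ : ℍ, τ.im = t → δ ≤ ‖discriminant τ‖) (ha1 : 1 ≤ a)
    (ha : ∀ τ : ℍ, τ.im = t → ‖E₄ τ‖ ≤ a) {C : ℝ} (hC : 2 ≤ C) (hC' : 2 * a ^ 3 / δ ≤ C)
    (hC'' : a ^ 3 ≤ C) {M : ℕ} {F : ℍ → ℂ} {B : ℝ} (h1 : IntQ F) (h2 : WInv F (12 * M))
    (h3 : ∀ τ : ℍ, τ.im = t → ‖F τ‖ ≤ B) :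
    JP M (B * C ^ (2 * M ^ 2)) (fun τ ↦ F τ / discriminant τ ^ M) := by
  obtain ⟨f, hf⟩ := exists_modForm h1 h2
  have hf' : IntQ (fun τ ↦ f τ) := by
    have : (fun τ ↦ f τ) = F := funext hf
    rw [this]; exact h1
  obtain ⟨P, hP1, hP2, hP3⟩ := exists_polyJ ht hδ hΔ ha1 ha hC hC' hC'' M f B
    (intPS_of_intQ f hf') (fun τ hτ ↦ by rw [hf]; exact h3 τ hτ)
  refine ⟨P, hP1, hP2, fun τ ↦ ?_⟩
  have hd : discriminant τ ^ M ≠ 0 := pow_ne_zero _ (discriminant_ne_zero τ)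
  simp only
  rw [div_eq_iff hd, ← hP3 τ, hf]

/-- The first family. -/
noncomputable def xD (N : ℕ) (A : Matrix (Fin 2) (Fin 2) ℤ) (τ : ℍ) : ℂ :=
  HA (fun τ ↦ E₄ τ) 4 N A τ ^ 3 * E₆ τ ^ 2 - HA (fun τ ↦ E₆ τ) 6 N A τ ^ 2 * E₄ τ ^ 3

/-- The second family. -/
noncomputable def xT (N : ℕ) (A : Matrix (Fin 2) (Fin 2) ℤ) (τ : ℍ) : ℂ :=
  (HA E2s 2 N A τ - N * E2s τ) * (E₄ τ * E₆ τ)

lemma WInv_xD {N : ℕ} (hN : 0 < N) (k : ℕ) :
    WInv (fun τ ↦ ∑ s ∈ SN N, xD N (toM s) τ ^ k) (12 * (2 * k)) := by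
  have hN' : (0 : ℤ) < N := by exact_mod_cast hN
  refine sum_WInv hN _ (fun A τ ↦ xD N A τ ^ k) (fun A hA γ τ ↦ ?_) (fun A hA γ τ ↦ ?_)
  · have hA' : 0 < A.det := hA ▸ hN'
    simp only [xD, HA_left WInv_E4 hA', HA_left WInv_E6 hA']
  · have hA' : 0 < A.det := hA ▸ hN'
    have h4 := WInv_E4 γ τ
    have h6 := WInv_E6 γ τ
    simp only at h4 h6
    simp only [xD, HA_right hA']
    rw [h4, h6]
    have e : (denom (γ : GL (Fin 2) ℝ) τ ^ 4 * HA (fun τ ↦ E₄ τ) 4 N (A * γ.1) τ) ^ 3 *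
        (denom (γ : GL (Fin 2) ℝ) τ ^ 6 * E₆ τ) ^ 2 -
        (denom (γ : GL (Fin 2) ℝ) τ ^ 6 * HA (fun τ ↦ E₆ τ) 6 N (A * γ.1) τ) ^ 2 *
        (denom (γ : GL (Fin 2) ℝ) τ ^ 4 * E₄ τ) ^ 3 = denom (γ : GL (Fin 2) ℝ) τ ^ 24 *
        (HA (fun τ ↦ E₄ τ) 4 N (A * γ.1) τ ^ 3 * E₆ τ ^ 2 -
          HA (fun τ ↦ E₆ τ) 6 N (A * γ.1) τ ^ 2 * E₄ τ ^ 3) := by ring
    rw [e, mul_pow, ← pow_mul]
    congr 2
    ring

lemma WInv_xT {N : ℕ} (hN : 0 < N) (k : ℕ) :
    WInv (fun τ ↦ ∑ s ∈ SN N, xT N (toM s) τ ^ k) (12 * k) := by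
  have hN' : (0 : ℤ) < N := by exact_mod_cast hN
  refine sum_WInv hN _ (fun A τ ↦ xT N A τ ^ k) (fun A hA γ τ ↦ ?_) (fun A hA γ τ ↦ ?_)
  · have hA' : 0 < A.det := hA ▸ hN'
    simp only [xT, HA_left WInv_E2s hA']
  · have hA' : 0 < A.det := hA ▸ hN'
    have h4 := WInv_E4 γ τ
    have h6 := WInv_E6 γ τ
    have h2 := WInv_E2s γ τ
    simp only at h4 h6
    simp only [xT, HA_right hA']
    rw [h4, h6, h2]
    have e : (denom (γ : GL (Fin 2) ℝ) τ ^ 2 * HA E2s 2 N (A * γ.1) τ -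
        N * (denom (γ : GL (Fin 2) ℝ) τ ^ 2 * E2s τ)) *
        (denom (γ : GL (Fin 2) ℝ) τ ^ 4 * E₄ τ * (denom (γ : GL (Fin 2) ℝ) τ ^ 6 * E₆ τ)) =
        denom (γ : GL (Fin 2) ℝ) τ ^ 12 *
        ((HA E2s 2 N (A * γ.1) τ - N * E2s τ) * (E₄ τ * E₆ τ)) := by ring
    rw [e, mul_pow, ← pow_mul]

lemma IntQ_xD {N : ℕ} (hN : 0 < N) (k : ℕ) :
    IntQ (fun τ ↦ ∑ s ∈ SN N, xD N (toM s) τ ^ k) := by
  have e1 : (fun τ ↦ ∑ s ∈ SN N, xD N (toM s) τ ^ k) = fun τ ↦
      ∑ m ∈ range (k + 1), ((((-1) ^ (k - m) * (k.choose m : ℤ) : ℤ)) : ℂ) *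
        (((fun τ ↦ E₆ τ) τ ^ (2 * m) * (fun τ ↦ E₄ τ) τ ^ (3 * (k - m))) *
        ∑ s ∈ SN N, GG 0 (3 * m) (2 * (k - m)) N (toM s) τ) := by
    ext τ
    simp_rw [mul_sum]
    rw [sum_comm]
    refine sum_congr rfl fun s _ ↦ ?_
    rw [xD, sub_eq_add_neg, add_pow]
    refine sum_congr rfl fun m _ ↦ ?_
    unfold GG
    rw [pow_zero, one_mul, neg_pow (HA (fun τ ↦ E₆ τ) 6 N (toM s) τ ^ 2 * E₄ τ ^ 3), mul_pow,
      mul_pow, ← pow_mul, ← pow_mul, ← pow_mul, ← pow_mul]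
    push_cast
    ring
  rw [e1]
  refine IntQ.sum fun m _ ↦ IntQ.mul (IntQ.const _) (IntQ.mul ?_ (IntQ_sum _ _ _ hN))
  exact (IntQ_E6.pow _).mul (IntQ_E4.pow _)

lemma IntQ_xT {N : ℕ} (hN : 0 < N) (k : ℕ) :
    IntQ (fun τ ↦ ∑ s ∈ SN N, xT N (toM s) τ ^ k) := by
  have e1 : (fun τ ↦ ∑ s ∈ SN N, xT N (toM s) τ ^ k) = fun τ ↦
      ((fun τ ↦ E₄ τ) τ * (fun τ ↦ E₆ τ) τ) ^ k * ∑ s ∈ SN N, GG k 0 0 N (toM s) τ := by
    ext τ
    rw [mul_sum]
    refine sum_congr rfl fun s _ ↦ ?_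
    unfold xT GG
    rw [mul_pow]
    ring
  rw [e1]
  exact IntQ.mul ((IntQ_E4.mul IntQ_E6).pow _) (IntQ_sum _ _ _ hN)

lemma rel_of {N : ℕ} (hN : 0 < N) (x : Matrix (Fin 2) (Fin 2) ℤ → ℍ → ℂ) (c : ℕ) (hc : c ≤ 2)
    (h1 : ∀ k, IntQ (fun τ ↦ ∑ s ∈ SN N, x (toM s) τ ^ k))
    (h2 : ∀ k, WInv (fun τ ↦ ∑ s ∈ SN N, x (toM s) τ ^ k) (12 * (c * k)))
    {t : ℝ} (ht : 0 < t) {δ a : ℝ} (hδ : 0 < δ)
    (hΔ : ∀ τ : ℍ, τ.im = t → δ ≤ ‖discriminant τ‖) (ha1 : 1 ≤ a)
    (ha : ∀ τ : ℍ, τ.im = t → ‖E₄ τ‖ ≤ a) {C0 : ℝ} (hC : 2 ≤ C0) (hC' : 2 * a ^ 3 / δ ≤ C0)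
    (hC'' : a ^ 3 ≤ C0) {L : ℝ} (hL : 1 ≤ L)
    (h3 : ∀ s ∈ SN N, ∀ τ : ℍ, τ.im = t → ‖x (toM s) τ‖ ≤ L) :
    ∃ r : ℕ → ℤ[X], r (SN N).card = C (((SN N).card).factorial : ℤ) ∧
      (∀ i, (r i).natDegree ≤ 2 * (SN N).card) ∧
      (∀ i, nr (r i) ≤ Real.exp (16 * (SN N).card ^ 3 * ((SN N).card * L * C0))) ∧
      ∀ (τ : ℍ) (u : ℂ), ∑ i ∈ range ((SN N).card + 1), aeval (jf τ) (r i) * u ^ i =
        (((SN N).card).factorial : ℂ) * ∏ s ∈ SN N, (u - x (toM s) τ / discriminant τ ^ c) := by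
  set M := (SN N).card with hM
  have hM1 : 1 ≤ M := by
    rw [hM, Nat.one_le_iff_ne_zero, card_ne_zero]
    exact ⟨(1, 0, N), by rw [mem_SN hN]; simp [hN]⟩
  have hM1' : (1 : ℝ) ≤ M := by exact_mod_cast hM1
  have hC1 : 1 ≤ C0 := by linarith
  set B : ℝ := M * L ^ M * C0 ^ (8 * M ^ 2) with hB
  have hB1 : 1 ≤ B := one_le_mul_of_one_le_of_one_le
    (one_le_mul_of_one_le_of_one_le hM1' (one_le_pow₀ hL)) (one_le_pow₀ hC1)
  have hcard : Fintype.card {s // s ∈ SN N} = M := Fintype.card_coe _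
  have hp : ∀ k, 1 ≤ k → k ≤ Fintype.card {s // s ∈ SN N} → JP (c * k) B
      (fun τ ↦ ∑ s : {s // s ∈ SN N}, (fun s τ ↦ x (toM s.1) τ / discriminant τ ^ c) s τ ^ k) := by
    intro k hk1 hk
    rw [hcard] at hk
    have h4 : ∀ τ : ℍ, τ.im = t → ‖∑ s ∈ SN N, x (toM s) τ ^ k‖ ≤ M * L ^ M := by
      intro τ hτ
      refine (norm_sum_le _ _).trans ?_
      calc ∑ s ∈ SN N, ‖x (toM s) τ ^ k‖ ≤ ∑ _s ∈ SN N, L ^ M := by
            refine sum_le_sum fun s hs ↦ ?_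
            rw [norm_pow]
            calc ‖x (toM s) τ‖ ^ k ≤ L ^ k := by
                  have := h3 s hs τ hτ
                  gcongr
              _ ≤ L ^ M := pow_le_pow_right₀ hL hk
        _ = M * L ^ M := by rw [sum_const, nsmul_eq_mul]
    have h5 := IntQ_to_JP ht hδ hΔ ha1 ha hC hC' hC'' (h1 k) (h2 k) h4
    have heq : (fun τ ↦ ∑ s : {s // s ∈ SN N},
        (fun s τ ↦ x (toM s.1) τ / discriminant τ ^ c) s τ ^ k) =
        fun τ ↦ (∑ s ∈ SN N, x (toM s) τ ^ k) / discriminant τ ^ (c * k) := by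
      ext τ
      rw [← sum_coe_sort (SN N) (fun s ↦ x (toM s) τ ^ k), sum_div]
      refine sum_congr rfl fun s _ ↦ ?_
      simp only
      rw [div_pow, ← pow_mul]
    rw [heq]
    refine h5.mono le_rfl ?_
    rw [hB]
    have e1 : 2 * (c * k) ^ 2 ≤ 8 * M ^ 2 := by
      have : c * k ≤ 2 * M := Nat.mul_le_mul hc hk
      calc 2 * (c * k) ^ 2 ≤ 2 * (2 * M) ^ 2 := by gcongr
        _ = 8 * M ^ 2 := by ring
    have e2 : C0 ^ (2 * (c * k) ^ 2) ≤ C0 ^ (8 * M ^ 2) := pow_le_pow_right₀ hC1 e1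
    gcongr
  obtain ⟨r, hr1, hr2, hr3, hr4⟩ := exists_rel
    (fun (s : {s // s ∈ SN N}) τ ↦ x (toM s.1) τ / discriminant τ ^ c) c hB1 hp
  rw [hcard] at hr1 hr2 hr3 hr4
  refine ⟨r, hr1, fun i ↦ (hr2 i).trans (Nat.mul_le_mul_right _ hc), fun i ↦ (hr3 i).trans ?_,
    fun τ u ↦ ?_⟩
  · have h4 : (M.factorial : ℝ) ≤ (M : ℝ) ^ M := by exact_mod_cast Nat.factorial_le_pow M
    have h5 : (M.factorial : ℝ) * B ≤ (M * L * C0) ^ (8 * M ^ 2) := by
      calc (M.factorial : ℝ) * B ≤ (M : ℝ) ^ M * (M * L ^ M * C0 ^ (8 * M ^ 2)) := by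
            rw [hB]; gcongr
        _ = (M : ℝ) ^ (M + 1) * L ^ M * C0 ^ (8 * M ^ 2) := by ring
        _ ≤ (M : ℝ) ^ (8 * M ^ 2) * L ^ (8 * M ^ 2) * C0 ^ (8 * M ^ 2) := by
            have e1 : M + 1 ≤ 8 * M ^ 2 := by nlinarith
            have e2 : (M : ℝ) ^ (M + 1) ≤ (M : ℝ) ^ (8 * M ^ 2) := pow_le_pow_right₀ hM1' e1
            have e3 : L ^ M ≤ L ^ (8 * M ^ 2) := pow_le_pow_right₀ hL (by omega)
            gcongr
        _ = _ := by rw [mul_pow, mul_pow]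
    have h6 : (1 : ℝ) ≤ M * L * C0 :=
      one_le_mul_of_one_le_of_one_le (one_le_mul_of_one_le_of_one_le hM1' hL) hC1
    calc ((M.factorial : ℝ) * B) ^ (M + 1) ≤ ((M * L * C0) ^ (8 * M ^ 2)) ^ (M + 1) := by
          gcongr
      _ = (M * L * C0) ^ (8 * M ^ 2 * (M + 1)) := by rw [← pow_mul]
      _ ≤ (M * L * C0) ^ (16 * M ^ 3) := by
          refine pow_le_pow_right₀ h6 ?_
          have : M + 1 ≤ 2 * M := by omega
          calc 8 * M ^ 2 * (M + 1) ≤ 8 * M ^ 2 * (2 * M) := by gcongr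
            _ = 16 * M ^ 3 := by ring
      _ ≤ Real.exp (M * L * C0) ^ (16 * M ^ 3) := by
          have := Real.add_one_le_exp (M * L * C0)
          gcongr
          linarith
      _ = _ := by
          rw [← Real.exp_nat_mul]
          congr 1
          push_cast
          ring
  · rw [hr4, ← prod_coe_sort (SN N) (fun s ↦ u - x (toM s) τ / discriminant τ ^ c)]

end H32.T3

end S_T3_A2

section S_T3_A3

/-!
# Arithmetic of the values at CM points
-/

open UpperHalfPlane hiding I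
open Complex EisensteinSeries ModularForm MatrixGroups
open scoped Real

namespace H32.T3

open Polynomial Finset

lemma card_SN_le {N : ℕ} (hN : 0 < N) : (SN N).card ≤ N ^ 2 := by
  have h := card_SN hN
  have h1 : Real.log N ≤ N - 1 := Real.log_le_sub_one_of_pos (by exact_mod_cast hN)
  have h2 : ((SN N).card : ℝ) ≤ (N : ℝ) ^ 2 := by
    refine h.trans ?_
    rw [pow_two]
    gcongr
    linarith
  exact_mod_cast h2

lemma one_le_card_SN {N : ℕ} (hN : 0 < N) : 1 ≤ (SN N).card := by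
  rw [Nat.one_le_iff_ne_zero, card_ne_zero]
  exact ⟨(1, 0, N), by rw [mem_SN hN]; simp [hN]⟩

theorem rel_all : ∃ K : ℝ, 1 ≤ K ∧ ∀ N : ℕ, 0 < N → ∃ rD rT : ℕ → ℤ[X],
    rD (SN N).card = C (((SN N).card).factorial : ℤ) ∧
    rT (SN N).card = C (((SN N).card).factorial : ℤ) ∧
    (∀ i, (rD i).natDegree ≤ 2 * (SN N).card) ∧ (∀ i, (rT i).natDegree ≤ 2 * (SN N).card) ∧
    (∀ i, nr (rD i) ≤ Real.exp (K * N ^ 26)) ∧ (∀ i, nr (rT i) ≤ Real.exp (K * N ^ 26)) ∧
    (∀ (τ : ℍ) (u : ℂ), ∑ i ∈ range ((SN N).card + 1), aeval (jf τ) (rD i) * u ^ i =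
        (((SN N).card).factorial : ℂ) *
          ∏ s ∈ SN N, (u - xD N (toM s) τ / discriminant τ ^ 2)) ∧
    (∀ (τ : ℍ) (u : ℂ), ∑ i ∈ range ((SN N).card + 1), aeval (jf τ) (rT i) * u ^ i =
        (((SN N).card).factorial : ℂ) *
          ∏ s ∈ SN N, (u - xT N (toM s) τ / discriminant τ ^ 1)) := by
  obtain ⟨Y, hY1, hY⟩ := near_inf
  obtain ⟨a, ha1, hb, hb'⟩ := line_bounds hY1
  set δ : ℝ := Real.exp (-2 * π * Y) / 2 with hδ
  have hδ0 : 0 < δ := by positivity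
  have hΔ : ∀ τ : ℍ, τ.im = Y → δ ≤ ‖discriminant τ‖ := by
    intro τ hτ
    have := (hY τ hτ.ge).1
    rw [norm_qq, hτ] at this
    exact this
  set C0 : ℝ := max 2 (max (2 * a ^ 3 / δ) (a ^ 3)) with hC0
  have h2 : 2 ≤ C0 := le_max_left _ _
  have h3 : 2 * a ^ 3 / δ ≤ C0 := (le_max_left _ _).trans (le_max_right _ _)
  have h4 : a ^ 3 ≤ C0 := (le_max_right _ _).trans (le_max_right _ _)
  have ha0 : 0 < a := by linarith
  refine ⟨32 * a ^ 6 * C0, ?_, fun N hN ↦ ?_⟩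
  · have : 1 ≤ a ^ 6 := one_le_pow₀ ha1
    nlinarith
  have hN1 : (1 : ℝ) ≤ N := by exact_mod_cast hN
  set L : ℝ := 2 * a ^ 6 * N ^ 18 with hL
  have hL1 : 1 ≤ L := by
    have h5 : 1 ≤ a ^ 6 := one_le_pow₀ ha1
    have h6 : (1 : ℝ) ≤ (N : ℝ) ^ 18 := one_le_pow₀ hN1
    rw [hL]
    nlinarith
  have hY0 : 0 < Y := by linarith
  have hxD : ∀ s ∈ SN N, ∀ τ : ℍ, τ.im = Y → ‖xD N (toM s) τ‖ ≤ L := by
    intro s hs τ hτ
    obtain ⟨-, k2, k3⟩ := hb N hN s hs τ hτ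
    obtain ⟨-, l2, l3⟩ := hb' τ hτ
    rw [xD]
    refine (norm_sub_le _ _).trans ?_
    rw [norm_mul, norm_mul, norm_pow, norm_pow, norm_pow, norm_pow]
    calc _ ≤ (a * N ^ 6) ^ 3 * a ^ 2 + (a * N ^ 6) ^ 2 * a ^ 3 := by gcongr
      _ = a ^ 5 * N ^ 18 + a ^ 5 * N ^ 12 := by ring
      _ ≤ a ^ 6 * N ^ 18 + a ^ 6 * N ^ 18 := by
        have e1 : a ^ 5 ≤ a ^ 6 := pow_le_pow_right₀ ha1 (by norm_num)
        have e2 : (N : ℝ) ^ 12 ≤ (N : ℝ) ^ 18 := pow_le_pow_right₀ hN1 (by norm_num)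
        gcongr
      _ = L := by rw [hL]; ring
  have hxT : ∀ s ∈ SN N, ∀ τ : ℍ, τ.im = Y → ‖xT N (toM s) τ‖ ≤ L := by
    intro s hs τ hτ
    obtain ⟨k1, -, -⟩ := hb N hN s hs τ hτ
    obtain ⟨l1, l2, l3⟩ := hb' τ hτ
    rw [xT, norm_mul, norm_mul]
    calc _ ≤ (a * N ^ 6 + N * a) * (a * a) := by
          gcongr
          refine (norm_sub_le _ _).trans ?_
          rw [norm_mul, Complex.norm_natCast]
          gcongr
      _ = a ^ 3 * N ^ 6 + a ^ 3 * N := by ring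
      _ ≤ a ^ 6 * N ^ 18 + a ^ 6 * N ^ 18 := by
        have e1 : a ^ 3 ≤ a ^ 6 := pow_le_pow_right₀ ha1 (by norm_num)
        have e2 : (N : ℝ) ^ 6 ≤ (N : ℝ) ^ 18 := pow_le_pow_right₀ hN1 (by norm_num)
        have e3 : (N : ℝ) ≤ (N : ℝ) ^ 18 := le_self_pow₀ hN1 (by norm_num)
        gcongr
      _ = L := by rw [hL]; ring
  obtain ⟨rD, d1, d2, d3, d4⟩ := rel_of hN (xD N) 2 le_rfl (IntQ_xD hN) (WInv_xD hN) hY0 hδ0 hΔ ha1
    (fun τ hτ ↦ (hb' τ hτ).2.1) h2 h3 h4 hL1 hxD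
  obtain ⟨rT, e1, e2, e3, e4⟩ := rel_of hN (xT N) 1 (by norm_num) (IntQ_xT hN)
    (fun k ↦ by rw [one_mul]; exact WInv_xT hN k) hY0 hδ0 hΔ ha1
    (fun τ hτ ↦ (hb' τ hτ).2.1) h2 h3 h4 hL1 hxT
  have hM : ((SN N).card : ℝ) ≤ (N : ℝ) ^ 2 := by exact_mod_cast card_SN_le hN
  have hbound : 16 * ((SN N).card : ℝ) ^ 3 * ((SN N).card * L * C0) ≤ 32 * a ^ 6 * C0 * N ^ 26 := by
    have hL0 : 0 ≤ L := by linarith
    have hC00 : 0 ≤ C0 := by linarith
    calc 16 * ((SN N).card : ℝ) ^ 3 * ((SN N).card * L * C0)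
        ≤ 16 * ((N : ℝ) ^ 2) ^ 3 * ((N : ℝ) ^ 2 * L * C0) := by gcongr
      _ = _ := by rw [hL]; ring
  exact ⟨rD, rT, d1, e1, d2, e2, fun i ↦ (d3 i).trans (Real.exp_le_exp.mpr hbound),
    fun i ↦ (e3 i).trans (Real.exp_le_exp.mpr hbound), d4, e4⟩

lemma xD_eq {N : ℕ} (hN : 0 < N) {s : ℕ × ℕ × ℕ} (hs : s ∈ SN N) (τ : ℍ) :
    xD N (toM s) τ = 1728 * (s.1 : ℂ) ^ 12 * (discriminant (tact s τ) * E₆ τ ^ 2 -
      E₆ (tact s τ) ^ 2 * discriminant τ) := by
  rw [xD, HA_toM _ _ hN hs, HA_toM _ _ hN hs, discriminant_eq_E₄_cube_sub_E₆_sq,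
    discriminant_eq_E₄_cube_sub_E₆_sq]
  ring

lemma aux_ratio {q' q D' D E E' : ℝ} (hq' : 0 ≤ q') (hq : 0 ≤ q) (q1 : q' / 2 ≤ D')
    (q2 : D' ≤ 2 * q') (p1 : q / 2 ≤ D) (p2 : D ≤ 2 * q) (p3 : 1 / 2 ≤ E) (p4 : E ≤ 2)
    (q3 : 1 / 2 ≤ E') (q4 : E' ≤ 2) (h : D' * E ^ 2 = E' ^ 2 * D) :
    q' ≤ 64 * q ∧ q ≤ 64 * q' := by
  have hE : 0 ≤ E := by linarith
  have hE' : 0 ≤ E' := by linarith
  have p3' : (1 / 2 : ℝ) ^ 2 ≤ E ^ 2 := by gcongr
  have p4' : E ^ 2 ≤ 2 ^ 2 := by gcongr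
  have q3' : (1 / 2 : ℝ) ^ 2 ≤ E' ^ 2 := by gcongr
  have q4' : E' ^ 2 ≤ 2 ^ 2 := by gcongr
  have hD : 0 ≤ D := by linarith
  have hD' : 0 ≤ D' := by linarith
  have e1 : q' / 2 * (1 / 2) ^ 2 ≤ D' * E ^ 2 := by gcongr
  have e2 : E' ^ 2 * D ≤ 2 ^ 2 * (2 * q) := by gcongr
  have e3 : D' * E ^ 2 ≤ 2 * q' * 2 ^ 2 := by gcongr
  have e4 : (1 / 2) ^ 2 * (q / 2) ≤ E' ^ 2 * D := by gcongr
  constructor <;> linarith

lemma aux_fin {Y : ℝ} (hY : 1 ≤ Y) {a d : ℕ} (ha : 0 < a) (hd : 0 < d) (hne : a ≠ d)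
    (k1 : (a : ℝ) * d * Y < (a : ℝ) ^ 2 * Y + 1) (k2 : (a : ℝ) ^ 2 * Y < (a : ℝ) * d * Y + 1) :
    False := by
  have ha1 : (1 : ℝ) ≤ a := by exact_mod_cast ha
  have hd1 : (1 : ℝ) ≤ d := by exact_mod_cast hd
  rcases lt_or_gt_of_ne hne with hlt | hlt
  · have h5 : (a : ℝ) + 1 ≤ d := by exact_mod_cast hlt
    have h6 : (1 : ℝ) ≤ a * (d - a) := one_le_mul_of_one_le_of_one_le ha1 (by linarith)
    have h7 : (1 : ℝ) ≤ a * (d - a) * Y := one_le_mul_of_one_le_of_one_le h6 hY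
    linarith [show (a : ℝ) * (d - a) * Y = (a : ℝ) * d * Y - (a : ℝ) ^ 2 * Y by ring]
  · have h5 : (d : ℝ) + 1 ≤ a := by exact_mod_cast hlt
    have h6 : (1 : ℝ) ≤ a * (a - d) := one_le_mul_of_one_le_of_one_le ha1 (by linarith)
    have h7 : (1 : ℝ) ≤ a * (a - d) * Y := one_le_mul_of_one_le_of_one_le h6 hY
    linarith [show (a : ℝ) * (a - d) * Y = (a : ℝ) ^ 2 * Y - (a : ℝ) * d * Y by ring]

/-- If `N` is not a square then the first family does not vanish identically. -/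
theorem exists_xD_ne {N : ℕ} (hN : 0 < N) (hsq : ∀ m : ℕ, m * m ≠ N) :
    ∃ τ : ℍ, ∀ s ∈ SN N, xD N (toM s) τ ≠ 0 := by
  obtain ⟨Y, hY1, hY⟩ := near_inf
  have hN1 : (1 : ℝ) ≤ N := by exact_mod_cast hN
  have hNY : 0 < N * Y := by positivity
  refine ⟨⟨((N * Y : ℝ) : ℂ) * I, by simpa using hNY⟩, fun s hs h ↦ ?_⟩
  set τ : ℍ := ⟨((N * Y : ℝ) : ℂ) * I, by simpa using hNY⟩ with hτ
  have him : τ.im = N * Y := by simp [hτ, UpperHalfPlane.im]
  obtain ⟨ha, hd⟩ := SN_pos hN hs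
  have had := ((mem_SN hN).mp hs).1
  have ha1 : (1 : ℝ) ≤ s.1 := by exact_mod_cast ha
  have hd1 : (1 : ℝ) ≤ s.2.2 := by exact_mod_cast hd
  have hNad : (N : ℝ) = s.1 * s.2.2 := by exact_mod_cast had.symm
  have him2 : (tact s τ).im = s.1 ^ 2 * Y := by
    rw [im_tact ha hd, him, hNad]
    field_simp
  have hne : s.1 ≠ s.2.2 := fun h' ↦ hsq s.1 (by rw [← had, ← h'])
  rw [xD_eq hN hs] at h
  have hs12 : (1728 : ℂ) * (s.1 : ℂ) ^ 12 ≠ 0 := by
    have : (s.1 : ℂ) ≠ 0 := by exact_mod_cast ha.ne'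
    exact mul_ne_zero (by norm_num) (pow_ne_zero _ this)
  have h1 : discriminant (tact s τ) * E₆ τ ^ 2 = E₆ (tact s τ) ^ 2 * discriminant τ := by
    rcases mul_eq_zero.mp h with h' | h'
    · exact absurd h' hs12
    · linear_combination h'
  have hY0 : 0 ≤ Y := by linarith
  have hy1 : Y ≤ τ.im := by rw [him]; exact le_mul_of_one_le_left hY0 hN1
  have hy2 : Y ≤ (tact s τ).im := by
    rw [him2]; exact le_mul_of_one_le_left hY0 (one_le_pow₀ ha1)
  obtain ⟨p1, p2, p3, p4⟩ := hY τ hy1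
  obtain ⟨q1, q2, q3, q4⟩ := hY _ hy2
  have h2 := congrArg norm h1
  rw [norm_mul, norm_mul, norm_pow, norm_pow] at h2
  have hqτ : 0 ≤ ‖qq τ‖ := norm_nonneg _
  have hqs : 0 ≤ ‖qq (tact s τ)‖ := norm_nonneg _
  obtain ⟨h3, h4⟩ := aux_ratio hqs hqτ q1 q2 p1 p2 p3 p4 q3 q4 h2
  rw [norm_qq, norm_qq, him, him2] at h3 h4
  have h64 : (64 : ℝ) < Real.exp (2 * π * 1) := by
    have e1 : (6 : ℝ) ≤ 2 * π * 1 := by linarith [Real.pi_gt_three]
    have e2 : Real.exp 6 ≤ Real.exp (2 * π * 1) := Real.exp_le_exp.mpr e1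
    have e3 : Real.exp 6 = Real.exp 1 ^ 6 := by
      rw [← Real.exp_nat_mul]; norm_num
    have e4 := Real.exp_one_gt_d9
    have e5 : (2.7 : ℝ) ^ 6 ≤ Real.exp 1 ^ 6 := by gcongr; linarith
    have e6 : (64 : ℝ) < 2.7 ^ 6 := by norm_num
    linarith
  have key : ∀ x y : ℝ, Real.exp (-2 * π * x) ≤ 64 * Real.exp (-2 * π * y) → y < x + 1 := by
    intro x y hxy
    by_contra hcon
    push Not at hcon
    have e1 : Real.exp (-2 * π * x) = Real.exp (2 * π * (y - x)) * Real.exp (-2 * π * y) := by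
      rw [← Real.exp_add]; congr 1; ring
    rw [e1] at hxy
    have e2 := le_of_mul_le_mul_right hxy (Real.exp_pos _)
    have e3 : Real.exp (2 * π * 1) ≤ Real.exp (2 * π * (y - x)) := by
      apply Real.exp_le_exp.mpr
      have := Real.pi_pos
      gcongr
      linarith
    linarith
  have k1 := key _ _ h3
  have k2 := key _ _ h4
  -- `N * Y - s.1 ^ 2 * Y = s.1 * (s.2.2 - s.1) * Y`
  rw [hNad] at k1 k2
  exact aux_fin hY1 ha hd hne k1 k2

/-- Evaluation at CM points. -/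
lemma cm_eval {a b c e : ℤ} {N : ℕ} (hN : 0 < N) (hNe : (N : ℤ) = e ^ 2 - b * e + a * c) (τ : ℍ)
    (h : (a : ℂ) * τ ^ 2 + b * τ + c = 0) : ∃ s ∈ SN N,
      xD N (toM s) τ = 0 ∧ xT N (toM s) τ =
        ((e - b - a * τ) ^ 2 - N) * (E2s τ * (E₄ τ * E₆ τ)) := by
  set g : Matrix (Fin 2) (Fin 2) ℤ := !![e - b, -c; a, e] with hg
  have hdet : g.det = N := by
    rw [hg, Matrix.det_fin_two_of, hNe]; ring
  have hN' : (0 : ℤ) < N := by exact_mod_cast hN
  have hpos : 0 < g.det := hdet ▸ hN'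
  have hNc : (N : ℂ) = (e - b - a * τ) * (a * τ + e) := by
    have : ((N : ℤ) : ℂ) = ((e ^ 2 - b * e + a * c : ℤ) : ℂ) := by rw [hNe]
    push_cast at this
    rw [this]
    linear_combination (a : ℂ) * h
  have hden : denom (toG g) τ = a * τ + e := by
    rw [denom, toG_val hpos]
    simp [hg]
  have hden0 : (a : ℂ) * τ + e ≠ 0 := by rw [← hden]; exact denom_ne_zero _ _
  have hfix : toG g • τ = τ := by
    have h1 : 0 < (toG g).det.val := by
      rw [Matrix.GeneralLinearGroup.val_det_apply, det_toG hpos]; exact_mod_cast hpos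
    ext
    rw [coe_smul_of_det_pos h1, hden, num, toG_val hpos, div_eq_iff hden0]
    simp [hg]
    linear_combination (-1 : ℂ) * h
  have hHA : ∀ (F : ℍ → ℂ) (k : ℕ), HA F k N g τ = (e - b - a * τ) ^ k * F τ := by
    intro F k
    unfold HA
    rw [hfix, hden]
    congr 2
    rw [div_eq_iff hden0, hNc]
  obtain ⟨s, hs, γ, hγ⟩ := exists_rep hN g hdet
  obtain ⟨ha', hd'⟩ := SN_pos hN hs
  have hposM := det_toM_pos ha' hd'
  have hHA2 : ∀ (F : ℍ → ℂ) (k : ℕ), WInv F k → HA F k N (toM s) τ = (e - b - a * τ) ^ k * F τ := by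
    intro F k hF
    rw [← hHA F k, hγ, HA_left hF hposM]
  refine ⟨s, hs, ?_, ?_⟩
  · rw [xD, hHA2 _ _ WInv_E4, hHA2 _ _ WInv_E6]
    ring
  · rw [xT, hHA2 _ _ WInv_E2s]
    ring

end H32.T3

end S_T3_A3

section S_T3_A4

/-!
# Arithmetic of the values at CM points, II
-/

open UpperHalfPlane hiding I
open Complex EisensteinSeries ModularForm MatrixGroups
open scoped Real

namespace H32.T3

open Polynomial Finset

lemma disc_pos {a b c : ℤ} (ha : 0 < a) (τ : ℍ) (h : (a : ℂ) * τ ^ 2 + b * τ + c = 0) :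
    0 < 4 * a * c - b ^ 2 := by
  have hy := τ.im_pos
  have ha' : (0 : ℝ) < a := by exact_mod_cast ha
  have hre := congrArg Complex.re h
  have him := congrArg Complex.im h
  simp only [pow_two, Complex.add_re, Complex.mul_re, Complex.intCast_re, Complex.intCast_im,
    Complex.add_im, Complex.mul_im, zero_mul, sub_zero, add_zero, Complex.zero_re,
    Complex.zero_im, UpperHalfPlane.coe_re, UpperHalfPlane.coe_im] at hre him
  set x := τ.re
  set y := τ.im
  have h1 : 2 * a * x + b = 0 := by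
    have : y * (2 * a * x + b) = 0 := by linear_combination him
    rcases mul_eq_zero.mp this with h' | h'
    · exact absurd h' hy.ne'
    · exact h'
  have h2 : (4 * a * c - b ^ 2 : ℝ) = 4 * a ^ 2 * y ^ 2 := by
    linear_combination (4 * a : ℝ) * hre + (-2 * a * x - b) * h1
  have h3 : (0 : ℝ) < 4 * a * c - b ^ 2 := by rw [h2]; positivity
  exact_mod_cast h3

lemma not_square {D b e : ℤ} {N m : ℕ} (hD : 0 < D) (he : e = D + |b| + 1)
    (hN : 4 * (N : ℤ) = (2 * e - b) ^ 2 + D) : m * m ≠ N := by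
  intro hm
  have hb := le_abs_self b
  have hb0 := abs_nonneg b
  set v : ℤ := 2 * e - b with hv
  have hv1 : D < v := by rw [hv, he]; linarith
  set u : ℤ := 2 * m with hu
  have hu0 : 0 ≤ u := by positivity
  have h1 : u * u = v * v + D := by
    have : ((m * m : ℕ) : ℤ) = N := by exact_mod_cast hm
    push_cast at this
    rw [hu]
    linear_combination 4 * this + hN
  have h2 : v < u := by
    by_contra hcon
    push Not at hcon
    have := mul_le_mul hcon hcon hu0 (by linarith)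
    linarith
  have h3 : (v + 1) * (v + 1) ≤ u * u := mul_le_mul h2 h2 (by linarith) hu0
  linarith

theorem cm_arith : ∃ A : ℕ, ∀ (H : ℕ) (a b c : ℤ) (τ : ℍ), 2 ≤ H → 0 < a → |a| ≤ H → |b| ≤ H →
    |c| ≤ H → (a : ℂ) * τ ^ 2 + b * τ + c = 0 →
    (∃ P : ℤ[X], P ≠ 0 ∧ P.natDegree ≤ H ^ A ∧ nr P ≤ Real.exp ((H : ℝ) ^ A) ∧
      aeval (jf τ) P = 0) ∧
    ∃ (e : ℤ) (N M : ℕ) (r : ℕ → ℤ[X]) (m : ℤ), |e| ≤ H ^ A ∧ N ≤ H ^ A ∧ M ≤ H ^ A ∧ m ≠ 0 ∧
      r M = C m ∧ (∀ i, (r i).natDegree ≤ H ^ A) ∧ (∀ i, nr (r i) ≤ Real.exp ((H : ℝ) ^ A)) ∧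
      ((e : ℂ) - b - a * τ) ^ 2 ≠ N ∧
      ∑ i ∈ range (M + 1), aeval (jf τ) (r i) *
        ((((e : ℂ) - b - a * τ) ^ 2 - N) * (E2s τ * (E₄ τ * E₆ τ)) / discriminant τ) ^ i = 0 := by
  obtain ⟨K, hK1, hK⟩ := rel_all
  set k0 : ℕ := ⌈K⌉₊ with hk0
  have hKk : K ≤ 2 ^ k0 := by
    have h1 : K ≤ (k0 : ℝ) := Nat.le_ceil K
    have h2 : (k0 : ℝ) ≤ 2 ^ k0 := by exact_mod_cast (Nat.lt_two_pow_self (n := k0)).le
    exact h1.trans h2
  refine ⟨k0 + 260, fun H a b c τ hH ha haH hbH hcH hτ ↦ ?_⟩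
  have hD := disc_pos ha τ hτ
  set D : ℤ := 4 * a * c - b ^ 2 with hDdef
  set e : ℤ := D + |b| + 1 with he
  have hH1 : 1 ≤ H := by omega
  have hHr : (2 : ℝ) ≤ H := by exact_mod_cast hH
  have hHr1 : (1 : ℝ) ≤ H := by linarith
  have hHz : (2 : ℤ) ≤ H := by exact_mod_cast hH
  have hHz1 : (1 : ℤ) ≤ H := by linarith
  have hb0 := abs_nonneg b
  have he0 : 0 < e := by linarith
  have hNpos : 0 < e ^ 2 - b * e + a * c := by
    have h1 : 0 < 4 * (e ^ 2 - b * e + a * c) := by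
      have : 4 * (e ^ 2 - b * e + a * c) = (2 * e - b) ^ 2 + D := by rw [hDdef]; ring
      rw [this]; positivity
    linarith
  obtain ⟨N, hN⟩ := Int.eq_ofNat_of_zero_le hNpos.le
  have hN0 : 0 < N := by
    have : (0 : ℤ) < N := by rw [← hN]; exact hNpos
    exact_mod_cast this
  have hsq : ∀ m : ℕ, m * m ≠ N := fun m ↦ not_square hD he (by rw [← hN, hDdef]; ring)
  -- bounds
  have hac : a * c ≤ (H : ℤ) ^ 2 := by
    calc a * c ≤ |a * c| := le_abs_self _
      _ = |a| * |c| := abs_mul _ _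
      _ ≤ (H : ℤ) * H := mul_le_mul haH hcH (abs_nonneg _) (by positivity)
      _ = _ := by ring
  have heH : e ≤ 6 * (H : ℤ) ^ 2 := by
    have h1 : D ≤ 4 * (H : ℤ) ^ 2 := by
      have : 0 ≤ b ^ 2 := sq_nonneg b
      rw [hDdef]; linarith
    have h2 : (H : ℤ) ≤ (H : ℤ) ^ 2 := le_self_pow₀ hHz1 (by norm_num)
    have h3 : (1 : ℤ) ≤ (H : ℤ) ^ 2 := one_le_pow₀ hHz1
    linarith
  have hNH : (N : ℤ) ≤ 43 * (H : ℤ) ^ 4 := by
    rw [← hN]
    have h1 : e ^ 2 ≤ (6 * (H : ℤ) ^ 2) ^ 2 := by gcongr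
    have h2 : -(b * e) ≤ (H : ℤ) * (6 * (H : ℤ) ^ 2) := by
      calc -(b * e) ≤ |b * e| := neg_le_abs _
        _ = |b| * e := by rw [abs_mul, abs_of_pos he0]
        _ ≤ _ := mul_le_mul hbH heH he0.le (by positivity)
    have h3 : (H : ℤ) * (6 * (H : ℤ) ^ 2) ≤ 6 * (H : ℤ) ^ 4 := by
      have : (H : ℤ) ^ 3 ≤ (H : ℤ) ^ 4 := pow_le_pow_right₀ hHz1 (by norm_num)
      linarith [show (H : ℤ) * (6 * (H : ℤ) ^ 2) = 6 * (H : ℤ) ^ 3 by ring]
    have h4 : (H : ℤ) ^ 2 ≤ (H : ℤ) ^ 4 := pow_le_pow_right₀ hHz1 (by norm_num)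
    have h5 : (6 * (H : ℤ) ^ 2) ^ 2 = 36 * (H : ℤ) ^ 4 := by ring
    linarith
  have hpow : ∀ {i j : ℕ}, i ≤ j → H ^ i ≤ H ^ j := fun hij ↦ Nat.pow_le_pow_right hH1 hij
  have hN10 : N ≤ H ^ 10 := by
    have h1 : N ≤ 43 * H ^ 4 := by exact_mod_cast hNH
    have h2 : 43 ≤ H ^ 6 := by
      calc 43 ≤ 2 ^ 6 := by norm_num
        _ ≤ H ^ 6 := Nat.pow_le_pow_left hH 6
    calc N ≤ 43 * H ^ 4 := h1
      _ ≤ H ^ 6 * H ^ 4 := Nat.mul_le_mul_right _ h2
      _ = H ^ 10 := by ring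
  have he5 : e ≤ (H : ℤ) ^ 5 := by
    have h2 : (6 : ℤ) ≤ (H : ℤ) ^ 3 := by
      calc (6 : ℤ) ≤ 2 ^ 3 := by norm_num
        _ ≤ (H : ℤ) ^ 3 := by gcongr
    calc e ≤ 6 * (H : ℤ) ^ 2 := heH
      _ ≤ (H : ℤ) ^ 3 * (H : ℤ) ^ 2 := by gcongr
      _ = _ := by ring
  have hM : (SN N).card ≤ H ^ 20 := by
    calc (SN N).card ≤ N ^ 2 := card_SN_le hN0
      _ ≤ (H ^ 10) ^ 2 := Nat.pow_le_pow_left hN10 2
      _ = H ^ 20 := by ring
  have h2M : 2 * (SN N).card ≤ H ^ (k0 + 260) := by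
    calc 2 * (SN N).card ≤ H * H ^ 20 := Nat.mul_le_mul hH hM
      _ = H ^ 21 := by ring
      _ ≤ _ := hpow (by omega)
  have hexp : Real.exp (K * (N : ℝ) ^ 26) ≤ Real.exp ((H : ℝ) ^ (k0 + 260)) := by
    apply Real.exp_le_exp.mpr
    have h1 : (N : ℝ) ≤ (H : ℝ) ^ 10 := by exact_mod_cast hN10
    calc K * (N : ℝ) ^ 26 ≤ 2 ^ k0 * ((H : ℝ) ^ 10) ^ 26 := by gcongr
      _ ≤ (H : ℝ) ^ k0 * ((H : ℝ) ^ 10) ^ 26 := by gcongr
      _ = _ := by rw [← pow_mul, ← pow_add]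
  obtain ⟨rD, rT, d1, t1, d2, t2, d3, t3, d4, t4⟩ := hK N hN0
  obtain ⟨s, hs, hsD, hsT⟩ := cm_eval hN0 hN.symm τ hτ
  have hfac : (((SN N).card).factorial : ℂ) ≠ 0 := by
    exact_mod_cast Nat.factorial_ne_zero _
  have hD0 : ∀ τ : ℍ, aeval (jf τ) (rD 0) = (((SN N).card).factorial : ℂ) *
      ∏ s ∈ SN N, (0 - xD N (toM s) τ / discriminant τ ^ 2) := by
    intro τ
    have h1 := d4 τ 0
    rw [sum_range_succ', sum_eq_zero, zero_add, pow_zero, mul_one] at h1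
    · exact h1
    · intro i _
      rw [zero_pow (Nat.succ_ne_zero i), mul_zero]
  constructor
  · refine ⟨rD 0, ?_, (d2 0).trans h2M, (d3 0).trans hexp, ?_⟩
    · intro h0
      obtain ⟨τ', hτ'⟩ := exists_xD_ne hN0 hsq
      have h1 := hD0 τ'
      rw [h0, map_zero] at h1
      have h2 : ∏ s ∈ SN N, (0 - xD N (toM s) τ' / discriminant τ' ^ 2) ≠ 0 := by
        refine prod_ne_zero_iff.mpr fun s hs ↦ ?_
        rw [zero_sub, neg_ne_zero]
        exact div_ne_zero (hτ' s hs) (pow_ne_zero _ (discriminant_ne_zero _))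
      exact mul_ne_zero hfac h2 h1.symm
    · rw [hD0, prod_eq_zero hs, mul_zero]
      rw [hsD]; simp
  · refine ⟨e, N, (SN N).card, rT, ((SN N).card).factorial, ?_, ?_, ?_, ?_, t1,
      fun i ↦ (t2 i).trans h2M, fun i ↦ (t3 i).trans hexp, ?_, ?_⟩
    · rw [abs_of_pos he0]
      exact he5.trans (by exact_mod_cast hpow (by omega))
    · exact hN10.trans (hpow (by omega))
    · exact hM.trans (hpow (by omega))
    · exact_mod_cast Nat.factorial_ne_zero _
    · intro hw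
      have hNc : (N : ℂ) = (e - b - a * τ) * (a * τ + e) := by
        have : ((N : ℤ) : ℂ) = ((e ^ 2 - b * e + a * c : ℤ) : ℂ) := by rw [hN]
        push_cast at this
        rw [this]
        linear_combination (a : ℂ) * hτ
      have hNc0 : (N : ℂ) ≠ 0 := by exact_mod_cast hN0.ne'
      have hw0 : (e : ℂ) - b - a * τ ≠ 0 := fun h0 ↦ by
        rw [h0, zero_mul] at hNc
        exact hNc0 hNc
      rw [hNc, pow_two] at hw
      have h1 := mul_left_cancel₀ hw0 hw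
      have h2 := congrArg Complex.im h1
      have ha' : (0 : ℝ) < a := by exact_mod_cast ha
      have hy := τ.im_pos
      simp only [Complex.sub_im, Complex.add_im, Complex.mul_im, Complex.intCast_re,
        Complex.intCast_im, zero_mul, add_zero, UpperHalfPlane.coe_im] at h2
      have h3 : 0 < (a : ℝ) * τ.im := mul_pos ha' hy
      linarith
    · have h1 := t4 τ ((((e : ℂ) - b - a * τ) ^ 2 - N) * (E2s τ * (E₄ τ * E₆ τ)) / discriminant τ)
      rw [h1, prod_eq_zero hs, mul_zero]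
      rw [hsT, pow_one, sub_self]

end H32.T3

end S_T3_A4

section S_T3_C1

/-!
# Number fields generated by values at CM points
-/

namespace H32.T3

open Height Height.AdmissibleAbsValues Finset NumberField

section one_step

open Polynomial

/-- Adjoining a root. -/
lemma one_step (K : IntermediateField ℚ ℂ) [FiniteDimensional ℚ K] (x : ℂ) (f : K[X])
    (hf : f ≠ 0) (hx : aeval x f = 0) : ∃ K' : IntermediateField ℚ ℂ, K ≤ K' ∧ x ∈ K' ∧
      FiniteDimensional ℚ K' ∧ Module.finrank ℚ K' ≤ Module.finrank ℚ K * f.natDegree := by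
  have hxa : IsAlgebraic K x := ⟨f, hf, hx⟩
  have hxi : IsIntegral K x := hxa.isIntegral
  set E := IntermediateField.adjoin K {x} with hE
  have : FiniteDimensional K E := IntermediateField.adjoin.finiteDimensional hxi
  have : FiniteDimensional ℚ E := FiniteDimensional.trans ℚ K E
  refine ⟨E.restrictScalars ℚ, ?_, ?_, ?_, ?_⟩
  · intro y hy
    exact E.algebraMap_mem ⟨y, hy⟩
  · exact IntermediateField.mem_adjoin_simple_self K x
  · exact ‹FiniteDimensional ℚ E›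
  · have h1 : Module.finrank ℚ E = Module.finrank ℚ K * Module.finrank K E :=
      (Module.finrank_mul_finrank ℚ K E).symm
    have h2 : Module.finrank K E = (minpoly K x).natDegree :=
      IntermediateField.adjoin.finrank hxi
    have h3 : (minpoly K x).natDegree ≤ f.natDegree :=
      natDegree_le_of_dvd (minpoly.dvd K x hx) hf
    change Module.finrank ℚ E ≤ _
    rw [h1, h2]
    exact Nat.mul_le_mul_left _ h3

end one_step

/-- Height budget. -/
def HB {L : Type} [Field L] [NumberField L] (T : ℝ) (x : L) : Prop :=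
  logHeight₁ x ≤ T * totalWeight L

section HB

variable {L : Type} [Field L] [NumberField L]

lemma HB.mono {T T' : ℝ} {x : L} (h : HB T x) (hT : T ≤ T') : HB T' x := by
  refine (show logHeight₁ x ≤ T * totalWeight L from h).trans ?_
  gcongr

lemma HB.mul {T T' : ℝ} {x y : L} (hx : HB T x) (hy : HB T' y) : HB (T + T') (x * y) := by
  unfold HB at *
  have := logHeight₁_mul_le x y
  linarith

lemma HB.inv {T : ℝ} {x : L} (hx : HB T x) : HB T x⁻¹ := by
  unfold HB at *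
  rwa [logHeight₁_inv]

lemma HB.div {T T' : ℝ} {x y : L} (hx : HB T x) (hy : HB T' y) : HB (T + T') (x / y) := by
  rw [div_eq_mul_inv]
  exact hx.mul hy.inv

lemma HB.add {T T' : ℝ} {x y : L} (hx : HB T x) (hy : HB T' y) : HB (T + T' + 1) (x + y) := by
  unfold HB at *
  have h1 := logHeight₁_add_le x y
  have h2 : Real.log 2 ≤ 1 := by
    have := Real.log_two_lt_d9
    linarith
  have h3 : (0 : ℝ) ≤ totalWeight L := by positivity
  have h4 : (totalWeight L : ℝ) * Real.log 2 ≤ totalWeight L * 1 := by gcongr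
  linarith

lemma HB.sub {T T' : ℝ} {x y : L} (hx : HB T x) (hy : HB T' y) : HB (T + T' + 1) (x - y) := by
  unfold HB at *
  have h1 := logHeight₁_sub_le x y
  have h2 : Real.log 2 ≤ 1 := by
    have := Real.log_two_lt_d9
    linarith
  have h3 : (0 : ℝ) ≤ totalWeight L := by positivity
  have h4 : (totalWeight L : ℝ) * Real.log 2 ≤ totalWeight L * 1 := by gcongr
  linarith

lemma HB.aeval {ι : Type} [Fintype ι] {x : ι → L} {T : ℝ} (hx : ∀ i, HB T (x i))
    (P : MvPolynomial ι ℤ) {D : ℕ} (hD : P.totalDegree ≤ D) {B : ℝ} (hB : 1 ≤ B)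
    (hP : nrm P ≤ B) :
    HB (Real.log B + Fintype.card ι * D * T) (MvPolynomial.aeval x P) := by
  have h := mulHeight₁_aeval_le x P (d := fun _ ↦ D) (fun m hm i ↦ by
    refine le_trans ?_ ((MvPolynomial.le_totalDegree hm).trans hD)
    rw [Finsupp.sum]
    by_cases h : i ∈ m.support
    · exact single_le_sum (f := fun i ↦ m i) (fun _ _ ↦ Nat.zero_le _) h
    · rw [Finsupp.notMem_support_iff.mp h]; exact Nat.zero_le _) hB hP
  have h1 : ∏ i, mulHeight₁ (x i) ^ D ≤ Real.exp (Fintype.card ι * D * T * totalWeight L) := by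
    calc ∏ i, mulHeight₁ (x i) ^ D ≤ ∏ _i : ι, Real.exp (T * totalWeight L) ^ D := by
          refine prod_le_prod (fun i _ ↦ by positivity) fun i _ ↦ ?_
          have h2 := hx i
          unfold HB at h2
          rw [logHeight₁_eq_log_mulHeight₁, Real.log_le_iff_le_exp (mulHeight₁_pos _)] at h2
          gcongr
      _ = _ := by
          rw [prod_const, ← pow_mul, ← Real.exp_nat_mul, card_univ]
          congr 1
          push_cast
          ring
  unfold HB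
  rw [logHeight₁_eq_log_mulHeight₁, Real.log_le_iff_le_exp (mulHeight₁_pos _)]
  refine h.trans ?_
  have hB0 : 0 < B := by linarith
  calc B ^ totalWeight L * ∏ i, mulHeight₁ (x i) ^ D
      ≤ B ^ totalWeight L * Real.exp (Fintype.card ι * D * T * totalWeight L) := by gcongr
    _ = Real.exp (Real.log B) ^ totalWeight L *
        Real.exp (Fintype.card ι * D * T * totalWeight L) := by rw [Real.exp_log hB0]
    _ = _ := by
        rw [← Real.exp_nat_mul, ← Real.exp_add]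
        congr 1
        ring

/-- Roots of polynomials whose coefficients are values of integer polynomials. -/
lemma HB.root {ι : Type} [Fintype ι] {x : ι → L} {T : ℝ} (hx : ∀ i, HB T (x i))
    {n : ℕ} (P : ℕ → MvPolynomial ι ℤ) {D : ℕ} (hD : ∀ j, (P j).totalDegree ≤ D) {B : ℝ}
    (hB : 1 ≤ B) (hP : ∀ j, nrm (P j) ≤ B) (ξ : L)
    (hb : MvPolynomial.aeval x (P n) ≠ 0)
    (h : ∑ j ∈ range (n + 1), MvPolynomial.aeval x (P j) * ξ ^ j = 0) :
    HB (n + Real.log B + Fintype.card ι * D * T) ξ := by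
  set b : Fin (n + 1) → L := fun j ↦ MvPolynomial.aeval x (P j) with hbdef
  have h0 := mulHeight₁_root_le b ξ (by simpa [hbdef] using hb)
    (by rw [← h, ← Fin.sum_univ_eq_sum_range (fun j ↦ MvPolynomial.aeval x (P j) * ξ ^ j)])
  have h00 := mulHeight_aeval_le x (fun j : Fin (n + 1) ↦ P j) (d := fun _ ↦ D) (fun j m hm i ↦ by
    refine le_trans ?_ ((MvPolynomial.le_totalDegree hm).trans (hD j))
    rw [Finsupp.sum]
    by_cases h : i ∈ m.support
    · exact single_le_sum (f := fun i ↦ m i) (fun _ _ ↦ Nat.zero_le _) h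
    · rw [Finsupp.notMem_support_iff.mp h]; exact Nat.zero_le _) hB (fun j ↦ hP j)
  have h1 : ∏ i, mulHeight₁ (x i) ^ D ≤ Real.exp (Fintype.card ι * D * T * totalWeight L) := by
    calc ∏ i, mulHeight₁ (x i) ^ D ≤ ∏ _i : ι, Real.exp (T * totalWeight L) ^ D := by
          refine prod_le_prod (fun i _ ↦ by positivity) fun i _ ↦ ?_
          have h2 := hx i
          unfold HB at h2
          rw [logHeight₁_eq_log_mulHeight₁, Real.log_le_iff_le_exp (mulHeight₁_pos _)] at h2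
          gcongr
      _ = _ := by
          rw [prod_const, ← pow_mul, ← Real.exp_nat_mul, card_univ]
          congr 1
          push_cast
          ring
  unfold HB
  rw [logHeight₁_eq_log_mulHeight₁, Real.log_le_iff_le_exp (mulHeight₁_pos _)]
  have hB0 : 0 < B := by linarith
  have hn : (n : ℝ) ≤ Real.exp n := by
    have := Real.add_one_le_exp (n : ℝ)
    linarith
  calc mulHeight₁ ξ ≤ (n : ℝ) ^ totalWeight L * mulHeight b := h0
    _ ≤ Real.exp n ^ totalWeight L * (B ^ totalWeight L *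
        Real.exp (Fintype.card ι * D * T * totalWeight L)) := by
          have := h00.trans (show _ ≤ B ^ totalWeight L *
            Real.exp (Fintype.card ι * D * T * totalWeight L) by gcongr)
          gcongr
    _ = Real.exp n ^ totalWeight L * (Real.exp (Real.log B) ^ totalWeight L *
        Real.exp (Fintype.card ι * D * T * totalWeight L)) := by rw [Real.exp_log hB0]
    _ = _ := by
        rw [← Real.exp_nat_mul, ← Real.exp_nat_mul, ← Real.exp_add, ← Real.exp_add]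
        congr 1
        ring

lemma HB.int (c : ℤ) : HB (|(c : ℝ)|) (c : L) := by
  have h := HB.aeval (ι := Fin 0) (x := fun _ ↦ (0 : L)) (T := 0) (fun i ↦ i.elim0)
    (MvPolynomial.C c) (D := 0) (by rw [MvPolynomial.totalDegree_C])
    (B := max 1 |(c : ℝ)|) (le_max_left _ _) (by rw [nrm_C]; exact le_max_right _ _)
  rw [MvPolynomial.aeval_C, algebraMap_int_eq, eq_intCast, mul_zero, add_zero] at h
  refine h.mono ?_
  have h1 : 0 < max 1 |(c : ℝ)| := by positivity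
  rcases le_or_gt 1 |(c : ℝ)| with h2 | h2
  · rw [max_eq_right h2]
    have := Real.log_le_sub_one_of_pos (show 0 < |(c : ℝ)| by linarith)
    linarith
  · rw [max_eq_left h2.le, Real.log_one]
    exact abs_nonneg _

/-- Integer polynomials in one variable as multivariate polynomials. -/
noncomputable def mv (P : Polynomial ℤ) : MvPolynomial (Fin 1) ℤ :=
  ∑ i ∈ range (P.natDegree + 1), MvPolynomial.C (P.coeff i) * MvPolynomial.X 0 ^ i

lemma aeval_mv (P : Polynomial ℤ) {R : Type*} [CommRing R] (x : Fin 1 → R) :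
    MvPolynomial.aeval x (mv P) = Polynomial.aeval (x 0) P := by
  rw [mv, map_sum, Polynomial.aeval_eq_sum_range]
  refine sum_congr rfl fun i _ ↦ ?_
  rw [map_mul, MvPolynomial.aeval_C, map_pow, MvPolynomial.aeval_X, algebraMap_int_eq,
    eq_intCast, zsmul_eq_mul]

lemma deg_mv (P : Polynomial ℤ) : (mv P).totalDegree ≤ P.natDegree := by
  refine MvPolynomial.totalDegree_finsetSum_le fun i hi ↦ ?_
  refine (MvPolynomial.totalDegree_mul _ _).trans ?_
  rw [MvPolynomial.totalDegree_C, zero_add]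
  refine (MvPolynomial.totalDegree_pow _ _).trans ?_
  rw [MvPolynomial.totalDegree_X, mul_one]
  exact Nat.lt_succ_iff.mp (mem_range.mp hi)

lemma nrm_mv (P : Polynomial ℤ) : nrm (mv P) ≤ nr P := by
  refine (nrm_sum_le _ _).trans ?_
  rw [nr_eq (S := range (P.natDegree + 1)) (fun i hi ↦ by
    rw [mem_range]
    exact Nat.lt_succ_of_le (Polynomial.le_natDegree_of_mem_supp i hi))]
  refine sum_le_sum fun i _ ↦ (nrm_mul_le _ _).trans ?_
  rw [nrm_C]
  have h1 := nrm_pow_le (MvPolynomial.X 0 : MvPolynomial (Fin 1) ℤ) i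
  rw [nrm_X, one_pow] at h1
  exact (mul_le_mul_of_nonneg_left h1 (abs_nonneg _)).trans (mul_one _).le

end HB

end H32.T3

end S_T3_C1

section S_T3_C2

/-!
# Heights of the values at CM points
-/

open UpperHalfPlane hiding I
open Complex EisensteinSeries ModularForm MatrixGroups
open scoped Real

namespace H32.T3

open Height Height.AdmissibleAbsValues Finset NumberField

lemma one_step_int (K : IntermediateField ℚ ℂ) [FiniteDimensional ℚ K] (x : ℂ)
    (f : Polynomial ℤ) (hf : f ≠ 0) (hx : Polynomial.aeval x f = 0) :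
    ∃ K' : IntermediateField ℚ ℂ, K ≤ K' ∧ x ∈ K' ∧
      FiniteDimensional ℚ K' ∧ Module.finrank ℚ K' ≤ Module.finrank ℚ K * f.natDegree := by
  have hinj : Function.Injective (Int.castRingHom K) := RingHom.injective_int _
  obtain ⟨K', h1, h2, h3, h4⟩ := one_step K x (f.map (Int.castRingHom K))
    ((Polynomial.map_ne_zero_iff hinj).mpr hf) (by
      have h := Polynomial.aeval_map_algebraMap K x f
      rw [algebraMap_int_eq] at h
      rw [h]
      exact hx)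
  refine ⟨K', h1, h2, h3, h4.trans ?_⟩
  rw [Polynomial.natDegree_map_eq_of_injective hinj]

/-- Values at CM points: field of definition and heights. -/
theorem cm_heights : ∃ A : ℕ, ∀ (H : ℕ) (a b c : ℤ) (τ : ℍ), 2 ≤ H → 0 < a → |a| ≤ H → |b| ≤ H →
    |c| ≤ H → (a : ℂ) * τ ^ 2 + b * τ + c = 0 → E₆ τ ≠ 0 →
    ∃ K : IntermediateField ℚ ℂ, FiniteDimensional ℚ K ∧ Module.finrank ℚ K ≤ H ^ A ∧
      ∀ (L : Type) [Field L] [NumberField L] (σ : L →+* ℂ), (∀ x ∈ K, ∃ y, σ y = x) →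
        ∃ t tb J φ : L, σ t = τ ∧ σ tb = (starRingEnd ℂ) τ ∧ σ J = jf τ ∧
          σ φ = E2s τ * E₄ τ / E₆ τ ∧ HB ((H : ℝ) ^ A) t ∧ HB ((H : ℝ) ^ A) tb ∧
          HB ((H : ℝ) ^ A) J ∧ HB ((H : ℝ) ^ A) φ := by
  obtain ⟨A, hA⟩ := cm_arith
  refine ⟨2 * (A + 1) + 11, fun H a b c τ hH ha haH hbH hcH hτ h6 ↦ ?_⟩
  obtain ⟨⟨P, hP0, hPd, hPn, hPj⟩, e, N, M, r, m, heA, hNA, hMA, hm, hrM, hrd, hrn, hwN, hrel⟩ :=
    hA H a b c τ hH ha haH hbH hcH hτ
  set B : ℕ := H ^ (A + 1) with hB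
  have hH1 : 1 ≤ H := by omega
  have hAB : H ^ A ≤ B := Nat.pow_le_pow_right hH1 (by omega)
  have hHB : H ≤ B := by
    calc H = H ^ 1 := (pow_one H).symm
      _ ≤ _ := Nat.pow_le_pow_right hH1 (by omega)
  set S : ℝ := (B : ℝ) with hS
  have hSB : (H : ℝ) ^ A ≤ S := by rw [hS]; exact_mod_cast hAB
  have hSH : (H : ℝ) ≤ S := by rw [hS]; exact_mod_cast hHB
  have hS1 : 1 ≤ S := by
    have : (1 : ℝ) ≤ H := by exact_mod_cast hH1
    linarith
  set u : ℂ := (((e : ℂ) - b - a * τ) ^ 2 - N) * (E2s τ * (E₄ τ * E₆ τ)) / discriminant τ with hu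
  -- the quadratic polynomial
  set Q : Polynomial ℤ := Polynomial.C a * Polynomial.X ^ 2 + Polynomial.C b * Polynomial.X +
    Polynomial.C c with hQ
  have hQd : Q.natDegree = 2 := Polynomial.natDegree_quadratic ha.ne'
  have hQ0 : Q ≠ 0 := by
    intro h0
    rw [h0, Polynomial.natDegree_zero] at hQd
    omega
  obtain ⟨K1, hK1, ht1, hf1, hd1⟩ := one_step_int ⊥ (τ : ℂ) Q hQ0 (by
    rw [hQ]
    simp only [map_add, map_mul, Polynomial.aeval_C, map_pow, Polynomial.aeval_X,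
      algebraMap_int_eq, eq_intCast]
    simpa using hτ)
  obtain ⟨K2, hK2, hj2, hf2, hd2⟩ := one_step_int K1 (jf τ) P hP0 hPj
  set f : Polynomial K2 := ∑ i ∈ range (M + 1),
    Polynomial.C (Polynomial.aeval (⟨jf τ, hj2⟩ : K2) (r i)) * Polynomial.X ^ i with hf
  have hfd : f.natDegree ≤ M := by
    refine Polynomial.natDegree_sum_le_of_forall_le _ _ fun i hi ↦ ?_
    exact (Polynomial.natDegree_C_mul_X_pow_le _ _).trans (Nat.lt_succ_iff.mp (mem_range.mp hi))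
  have hcoe : ∀ p : Polynomial ℤ, ((Polynomial.aeval (⟨jf τ, hj2⟩ : K2) p : K2) : ℂ) =
      Polynomial.aeval (jf τ) p := by
    intro p
    have := Polynomial.aeval_algebraMap_apply ℂ (⟨jf τ, hj2⟩ : K2) p
    exact this.symm
  have hf0 : f ≠ 0 := by
    intro h0
    have h1 := congrArg (fun p ↦ p.coeff M) h0
    simp only [hf, Polynomial.finsetSum_coeff, Polynomial.coeff_C_mul, Polynomial.coeff_X_pow,
      Polynomial.coeff_zero] at h1
    rw [sum_eq_single M] at h1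
    · rw [if_pos rfl, mul_one, hrM, Polynomial.aeval_C] at h1
      simp at h1
      exact hm h1
    · intro i _ hi
      rw [if_neg (Ne.symm hi), mul_zero]
    · intro hM
      exact absurd (mem_range.mpr (Nat.lt_succ_self M)) hM
  obtain ⟨K3, hK3, hu3, hf3, hd3⟩ := one_step K2 u f hf0 (by
    rw [hf, map_sum, ← hrel]
    refine sum_congr rfl fun i _ ↦ ?_
    rw [map_mul, Polynomial.aeval_C, map_pow, Polynomial.aeval_X]
    congr 1
    exact hcoe _)
  refine ⟨K3, hf3, ?_, fun L _ _ σ hσ ↦ ?_⟩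
  · have h1 : Module.finrank ℚ K1 ≤ 2 := by
      refine hd1.trans ?_
      rw [hQd, IntermediateField.finrank_bot]
    calc Module.finrank ℚ K3 ≤ Module.finrank ℚ K2 * M := hd3.trans (Nat.mul_le_mul_left _ hfd)
      _ ≤ (2 * B) * B := by
          refine Nat.mul_le_mul ?_ (hMA.trans hAB)
          exact hd2.trans (Nat.mul_le_mul h1 (hPd.trans hAB))
      _ ≤ (H * B) * B := by gcongr
      _ = H ^ (2 * (A + 1) + 1) := by rw [hB]; ring
      _ ≤ _ := Nat.pow_le_pow_right hH1 (by omega)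
  -- heights
  have hinj : Function.Injective σ := σ.injective
  obtain ⟨t, ht⟩ := hσ (τ : ℂ) (hK3 (hK2 ht1))
  obtain ⟨J, hJ⟩ := hσ (jf τ) (hK3 hj2)
  obtain ⟨v, hv⟩ := hσ u hu3
  have hxa : ∀ (i : Fin 0), HB (0 : ℝ) ((fun _ ↦ 0 : Fin 0 → L) i) := fun i ↦ i.elim0
  have ht' : HB (2 + S) t := by
    set q : ℕ → ℤ := fun j ↦ if j = 0 then c else if j = 1 then b else if j = 2 then a else 0
      with hq
    have h := HB.root (n := 2) hxa (fun j ↦ MvPolynomial.C (q j)) (D := 0)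
      (fun j ↦ by rw [MvPolynomial.totalDegree_C]) (B := H) (by exact_mod_cast hH1) (fun j ↦ by
        rw [nrm_C]
        have h0 : (0 : ℝ) ≤ H := by positivity
        have e1 : |(a : ℝ)| ≤ H := by exact_mod_cast haH
        have e2 : |(b : ℝ)| ≤ H := by exact_mod_cast hbH
        have e3 : |(c : ℝ)| ≤ H := by exact_mod_cast hcH
        simp only [hq]
        split_ifs
        · exact e3
        · exact e2
        · exact e1
        · simpa using h0) t ?_ ?_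
    · refine h.mono ?_
      have h1 : Real.log H ≤ H - 1 := Real.log_le_sub_one_of_pos (by positivity)
      simp only [mul_zero, add_zero, Nat.cast_ofNat]
      linarith
    · rw [MvPolynomial.aeval_C, algebraMap_int_eq, eq_intCast, Int.cast_ne_zero]
      simp only [hq]
      norm_num
      exact ha.ne'
    · apply hinj
      rw [map_zero, map_sum, ← hτ]
      simp only [sum_range_succ, sum_range_zero, MvPolynomial.aeval_C, hq, map_mul, map_pow, ht,
        algebraMap_int_eq, eq_intCast, map_intCast]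
      norm_num
      ring
  have hJ' : HB (2 * S) J := by
    have h := HB.root (n := P.natDegree) hxa (fun j ↦ MvPolynomial.C (P.coeff j)) (D := 0)
      (fun j ↦ by rw [MvPolynomial.totalDegree_C]) (B := Real.exp S)
      (Real.one_le_exp (by linarith)) (fun j ↦ by
        rw [nrm_C]
        exact (coeff_le_nr P j).trans (hPn.trans (Real.exp_le_exp.mpr hSB))) J ?_ ?_
    · refine h.mono ?_
      rw [Real.log_exp]
      have h1 : (P.natDegree : ℝ) ≤ S := by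
        rw [hS]; exact_mod_cast hPd.trans hAB
      simp only [mul_zero, add_zero]
      linarith
    · rw [MvPolynomial.aeval_C, algebraMap_int_eq, eq_intCast, Int.cast_ne_zero]
      exact Polynomial.leadingCoeff_ne_zero.mpr hP0
    · apply hinj
      rw [map_zero, map_sum, ← hPj, Polynomial.aeval_eq_sum_range]
      refine sum_congr rfl fun i _ ↦ ?_
      rw [MvPolynomial.aeval_C, algebraMap_int_eq, eq_intCast, map_mul, map_pow, hJ, map_intCast,
        zsmul_eq_mul]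
  have hv' : HB (2 * S + 2 * S ^ 2) v := by
    have h := HB.root (ι := Fin 1) (x := fun _ ↦ J) (fun _ ↦ hJ') (n := M) (fun j ↦ mv (r j))
      (D := B) (fun j ↦ (deg_mv _).trans ((hrd j).trans hAB)) (B := Real.exp S)
      (Real.one_le_exp (by linarith))
      (fun j ↦ (nrm_mv _).trans ((hrn j).trans (Real.exp_le_exp.mpr hSB))) v ?_ ?_
    · refine h.mono ?_
      rw [Real.log_exp]
      have h1 : (M : ℝ) ≤ S := by
        rw [hS]; exact_mod_cast hMA.trans hAB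
      simp only [Fintype.card_fin, Nat.cast_one, one_mul]
      have e1 : (B : ℝ) * (2 * S) = 2 * S ^ 2 := by rw [← hS]; ring
      rw [e1]
      linarith
    · rw [aeval_mv, hrM, Polynomial.aeval_C, algebraMap_int_eq, eq_intCast, Int.cast_ne_zero]
      exact hm
    · apply hinj
      rw [map_zero, map_sum, ← hrel]
      refine sum_congr rfl fun i _ ↦ ?_
      rw [aeval_mv, map_mul, map_pow, hv]
      congr 1
      rw [Polynomial.aeval_eq_sum_range, Polynomial.aeval_eq_sum_range, map_sum]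
      refine sum_congr rfl fun k _ ↦ ?_
      rw [zsmul_eq_mul, zsmul_eq_mul, map_mul, map_pow, hJ, map_intCast]
  -- the other quantities
  have hint : ∀ (n : ℤ), |n| ≤ B → HB S (n : L) := fun n hn ↦ (HB.int n).mono (by
    rw [hS]; exact_mod_cast hn)
  have hBz : ∀ n : ℤ, |n| ≤ H → |n| ≤ B := fun n hn ↦ hn.trans (by exact_mod_cast hHB)
  have hbL := hint b (hBz b hbH)
  have haL := hint a (hBz a haH)
  have hbL' := hint (-b) (by rw [abs_neg]; exact hBz b hbH)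
  have heL := hint e (heA.trans (by exact_mod_cast hAB))
  have hNL := hint (N : ℤ) (by
    rw [Nat.abs_cast]
    exact_mod_cast hNA.trans hAB)
  have h1728 : HB 1728 ((1728 : ℤ) : L) := (HB.int 1728).mono (by norm_num)
  have hw := ((heL.sub hbL).sub (haL.mul ht'))
  have hden := ((hw.mul hw).sub hNL).mul (hJ'.sub h1728)
  have hφ := hv'.div hden
  have htb := (hbL'.div haL).sub ht'
  have ha0 : (a : ℂ) ≠ 0 := by exact_mod_cast ha.ne'
  have hΔ := discriminant_ne_zero τ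
  have hfinal : 2000 * S ^ 2 ≤ (H : ℝ) ^ (2 * (A + 1) + 11) := by
    have h1 : (2000 : ℝ) ≤ (H : ℝ) ^ 11 := by
      have : (2 : ℝ) ≤ H := by exact_mod_cast hH
      calc (2000 : ℝ) ≤ 2 ^ 11 := by norm_num
        _ ≤ _ := by gcongr
    rw [hS, hB]
    push_cast
    calc 2000 * ((H : ℝ) ^ (A + 1)) ^ 2 ≤ (H : ℝ) ^ 11 * ((H : ℝ) ^ (A + 1)) ^ 2 := by gcongr
      _ = _ := by ring
  have hSS : S ≤ S ^ 2 := le_self_pow₀ hS1 (by norm_num)
  have hS1' : 1 ≤ S ^ 2 := one_le_pow₀ hS1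
  refine ⟨t, ((-b : ℤ) : L) / (a : L) - t, J,
    v / (((((e : L) - b) - a * t) * (((e : L) - b) - a * t) - ((N : ℤ) : L)) *
      (J - ((1728 : ℤ) : L))), ht, ?_, hJ, ?_, ht'.mono ?_, htb.mono ?_, hJ'.mono ?_, hφ.mono ?_⟩
  · -- conjugate
    rw [map_sub, map_div₀, ht, map_intCast, map_intCast]
    have hd := disc_pos ha τ hτ
    have hy := τ.im_pos
    have ha' : (0 : ℝ) < a := by exact_mod_cast ha
    have him := congrArg Complex.im hτ
    simp only [pow_two, Complex.add_re, Complex.mul_re, Complex.intCast_re, Complex.intCast_im,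
      Complex.add_im, Complex.mul_im, zero_mul, sub_zero, add_zero, Complex.zero_re,
      Complex.zero_im, UpperHalfPlane.coe_re, UpperHalfPlane.coe_im] at him
    have h1 : 2 * (a : ℝ) * τ.re + b = 0 := by
      have : τ.im * (2 * a * τ.re + b) = 0 := by linear_combination him
      rcases mul_eq_zero.mp this with h' | h'
      · exact absurd h' hy.ne'
      · exact h'
    have h2 : (a : ℂ) * ((τ : ℂ) + (starRingEnd ℂ) τ) = -b := by
      rw [Complex.add_conj]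
      have : ((2 * (a : ℝ) * τ.re + b : ℝ) : ℂ) = 0 := by rw [h1]; simp
      push_cast at this
      rw [UpperHalfPlane.coe_re]
      push_cast
      linear_combination this
    push_cast
    rw [sub_eq_iff_eq_add, div_eq_iff ha0]
    linear_combination -h2
  · -- phi
    rw [map_div₀, map_mul, map_sub, map_sub, map_mul, map_sub, map_sub, map_mul, hv, ht, hJ,
      map_intCast, map_intCast, map_intCast, map_intCast, map_intCast]
    push_cast
    have h1 : jf τ - 1728 ≠ 0 := by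
      intro h0
      have := jf_sub τ
      rw [h0, zero_mul] at this
      exact pow_ne_zero 2 h6 this.symm
    have h2 : ((e : ℂ) - b - a * τ) * ((e : ℂ) - b - a * τ) - N ≠ 0 := by
      rw [← pow_two]
      exact sub_ne_zero.mpr hwN
    have h3 := jf_sub τ
    rw [hu, div_eq_div_iff (mul_ne_zero h2 h1) h6, div_mul_eq_mul_div, div_eq_iff hΔ]
    linear_combination (-(((e : ℂ) - b - a * τ) ^ 2 - N) * E2s τ * E₄ τ) * h3
  · linarith
  · linarith
  · linarith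
  · linarith

end H32.T3

end S_T3_C2
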