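import Mathlib
import Pool.Agent.H32.M.K2
import Pool.Agent.H32.M.K6
import Pool.Agent.H32.M.K9

/-! Modular Schanuel for special tuples, part K10: this file joins several modules to save build time. -/

section S_T3_C3

/-!
# Transfer of relations to CM approximations
-/

open UpperHalfPlane hiding I
open Complex EisensteinSeries ModularForm MatrixGroups Manifold
open scoped Real Topology

namespace H32.T3

open Height Height.AdmissibleAbsValues Finset NumberField Filter Asymptotics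

/-- The `j`-function on `ℂ`. -/
noncomputable def jc (w : ℂ) : ℂ := 1728 * e4 w ^ 3 / (e4 w ^ 3 - e6 w ^ 2)

/-- `E₂* E₄ / E₆`. -/
noncomputable def ph (w : ℂ) : ℂ := (e2 w - 3 / (π * w.im)) * e4 w / e6 w

/-- `E₂ E₄ / E₆`. -/
noncomputable def ps (w : ℂ) : ℂ := e2 w * e4 w / e6 w

/-- The four functions. -/
noncomputable def V4 (w : ℂ) : Fin 4 → ℂ := ![w, (starRingEnd ℂ) w, jc w, ph w]

lemma jc_coe (τ : ℍ) : jc τ = jf τ := by
  have h := discriminant_eq_E₄_cube_sub_E₆_sq τ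
  have h0 := discriminant_ne_zero τ
  have h1 : E₄ τ ^ 3 - E₆ τ ^ 2 ≠ 0 := by
    intro h2
    rw [h2, zero_div] at h
    exact h0 h
  rw [jc, jf, e4, e6, ofComplex_apply, h]
  field_simp

lemma ph_coe (τ : ℍ) : ph τ = E2s τ * E₄ τ / E₆ τ := by
  rw [ph, e2, e4, e6, ofComplex_apply, E2s, UpperHalfPlane.coe_im]

/-- Good approximations of `z` by CM points. -/
structure Apx (κ : ℕ) (z : ℂ) where
  /-- heights -/
  H : ℕ → ℕ
  /-- coefficients -/
  a : ℕ → ℤ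
  /-- coefficients -/
  b : ℕ → ℤ
  /-- coefficients -/
  c : ℕ → ℤ
  /-- the points -/
  t : ℕ → ℍ
  hH : ∀ n, n + 2 ≤ H n
  ha : ∀ n, 0 < a n
  haH : ∀ n, |a n| ≤ H n
  hbH : ∀ n, |b n| ≤ H n
  hcH : ∀ n, |c n| ≤ H n
  ht : ∀ n, (a n : ℂ) * (t n : ℂ) ^ 2 + b n * (t n : ℂ) + c n = 0
  hlt : ∀ n, ‖z - t n‖ < Real.exp (-(H n : ℝ) ^ κ)
  hne : ∀ n, (t n : ℂ) ≠ z

lemma Apx.tendsto {κ : ℕ} (hκ : 1 ≤ κ) {z : ℂ} (S : Apx κ z) :
    Tendsto (fun n ↦ (S.t n : ℂ)) atTop (𝓝 z) := by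
  rw [tendsto_iff_norm_sub_tendsto_zero]
  have h1 : Tendsto (fun n : ℕ ↦ Real.exp (-(n : ℝ))) atTop (𝓝 0) :=
    Real.tendsto_exp_neg_atTop_nhds_zero.comp tendsto_natCast_atTop_atTop
  refine squeeze_zero (fun _ ↦ norm_nonneg _) (fun n ↦ ?_) h1
  rw [norm_sub_rev]
  refine (S.hlt n).le.trans (Real.exp_le_exp.mpr (neg_le_neg ?_))
  have h2 : (n : ℝ) ≤ S.H n := by exact_mod_cast (Nat.le_of_lt (by have := S.hH n; omega))
  have h3 : (1 : ℝ) ≤ S.H n := by exact_mod_cast (by have := S.hH n; omega : 1 ≤ S.H n)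
  exact h2.trans (le_self_pow₀ h3 (by omega))

lemma Apx.tendsto_ne {κ : ℕ} (hκ : 1 ≤ κ) {z : ℂ} (S : Apx κ z) :
    Tendsto (fun n ↦ (S.t n : ℂ)) atTop (𝓝[≠] z) :=
  tendsto_nhdsWithin_iff.mpr ⟨S.tendsto hκ, Eventually.of_forall S.hne⟩

/-- Liouville inequality at CM points. -/
theorem liouville4 : ∃ A : ℕ, ∀ G : MvPolynomial (Fin 4) ℤ, ∃ C : ℝ, 0 ≤ C ∧
    ∀ (H : ℕ) (a b c : ℤ) (τ : ℍ), 2 ≤ H → 0 < a → |a| ≤ H → |b| ≤ H →
    |c| ≤ H → (a : ℂ) * τ ^ 2 + b * τ + c = 0 → E₆ τ ≠ 0 →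
    MvPolynomial.aeval (V4 τ) G = 0 ∨
      Real.exp (-(C * (H : ℝ) ^ A)) ≤ ‖MvPolynomial.aeval (V4 τ) G‖ := by
  obtain ⟨A, hA⟩ := cm_heights
  refine ⟨2 * A, fun G ↦ ⟨Real.log (max 1 (nrm G)) + 4 * G.totalDegree, ?_, ?_⟩⟩
  · have := Real.log_nonneg (le_max_left 1 (nrm G))
    positivity
  intro H a b c τ hH ha haH hbH hcH hτ h6
  obtain ⟨K, hK, hKA, hL⟩ := hA H a b c τ hH ha haH hbH hcH hτ h6
  have hNF : NumberField K := { to_charZero := inferInstance, to_finiteDimensional := hK }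
  obtain ⟨t, tb, J, φ, h1, h2, h3, h4, b1, b2, b3, b4⟩ := hL K (algebraMap K ℂ)
    (fun x hx ↦ ⟨⟨x, hx⟩, rfl⟩)
  set v : Fin 4 → K := ![t, tb, J, φ] with hv
  have hvb : ∀ i, HB ((H : ℝ) ^ A) (v i) := by
    intro i
    fin_cases i
    · exact b1
    · exact b2
    · exact b3
    · exact b4
  have hval : algebraMap K ℂ (MvPolynomial.aeval v G) = MvPolynomial.aeval (V4 τ) G := by
    have h5 := MvPolynomial.comp_aeval_apply v (algebraMap K ℂ).toIntAlgHom G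
    have h6 : (fun i ↦ (algebraMap K ℂ).toIntAlgHom (v i)) = V4 τ := by
      ext i
      fin_cases i
      · exact h1
      · exact h2
      · exact h3.trans (jc_coe τ).symm
      · exact h4.trans (ph_coe τ).symm
    rw [h6] at h5
    exact h5
  by_cases h0 : MvPolynomial.aeval (V4 τ) G = 0
  · exact Or.inl h0
  right
  have hy : MvPolynomial.aeval v G ≠ 0 := by
    intro h5
    rw [h5, map_zero] at hval
    exact h0 hval.symm
  have h5 := liouville (algebraMap K ℂ) hy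
  rw [hval] at h5
  refine le_trans ?_ h5
  have h6 := HB.aeval hvb G le_rfl (le_max_left 1 (nrm G)) (le_max_right _ _)
  unfold HB at h6
  have hH1 : (1 : ℝ) ≤ (H : ℝ) ^ A := by
    apply one_le_pow₀
    have : (2 : ℝ) ≤ H := by exact_mod_cast hH
    linarith
  have hd : (totalWeight K : ℝ) ≤ (H : ℝ) ^ A := by
    rw [totalWeight_eq_finrank]
    exact_mod_cast hKA
  have hlog := Real.log_nonneg (le_max_left 1 (nrm G))
  have h7 : logHeight₁ (MvPolynomial.aeval v G) ≤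
      (Real.log (max 1 (nrm G)) + 4 * G.totalDegree) * (H : ℝ) ^ (2 * A) := by
    refine h6.trans ?_
    rw [Fintype.card_fin]
    push_cast
    have h8 : (H : ℝ) ^ (2 * A) = (H : ℝ) ^ A * (H : ℝ) ^ A := by ring
    rw [h8, ← mul_assoc]
    have h9 : Real.log (max 1 (nrm G)) + 4 * G.totalDegree * (H : ℝ) ^ A ≤
        (Real.log (max 1 (nrm G)) + 4 * G.totalDegree) * (H : ℝ) ^ A := by
      rw [add_mul]
      have := le_mul_of_one_le_right hlog hH1
      linarith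
    gcongr
  rw [Real.exp_neg]
  apply inv_anti₀ (mulHeight₁_pos _)
  rw [logHeight₁_eq_log_mulHeight₁, Real.log_le_iff_le_exp (mulHeight₁_pos _)] at h7
  exact h7

lemma num_contra {C C' : ℝ} (A κ : ℕ) (hκ : A < κ) (hC' : 0 < C') :
    ∃ H0 : ℝ, ∀ H : ℝ, H0 ≤ H → C' * Real.exp (-H ^ κ) < Real.exp (-(C * H ^ A)) := by
  refine ⟨max 1 (C + |Real.log C'| + 1), fun H hH ↦ ?_⟩
  have h1 : 1 ≤ H := (le_max_left _ _).trans hH
  have h2 : C + |Real.log C'| + 1 ≤ H := (le_max_right _ _).trans hH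
  have h3 : H ^ (A + 1) ≤ H ^ κ := pow_le_pow_right₀ h1 hκ
  have h4 : 1 ≤ H ^ A := one_le_pow₀ h1
  have h5 : Real.log C' - H ^ κ < -(C * H ^ A) := by
    have h6 : Real.log C' < (H - C) * H ^ A := by
      calc Real.log C' ≤ |Real.log C'| := le_abs_self _
        _ < (|Real.log C'| + 1) * 1 := by linarith
        _ ≤ (H - C) * H ^ A := by
          have h8 := abs_nonneg (Real.log C')
          have h9 : |Real.log C'| + 1 ≤ H - C := by linarith
          have h10 : 0 ≤ H - C := by linarith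
          gcongr
    have h7 : (H - C) * H ^ A = H ^ (A + 1) - C * H ^ A := by ring
    linarith
  calc C' * Real.exp (-H ^ κ) = Real.exp (Real.log C' - H ^ κ) := by
        rw [sub_eq_add_neg, Real.exp_add, Real.exp_log hC']
    _ < _ := Real.exp_lt_exp.mpr h5

/-- Relations at `z` transfer to the CM points. -/
theorem transfer : ∃ A : ℕ, ∀ (κ : ℕ), A < κ → ∀ (z : ℂ) (S : Apx κ z)
    (G : MvPolynomial (Fin 4) ℤ),
    (fun w ↦ MvPolynomial.aeval (V4 w) G) =O[𝓝 z] (fun w ↦ w - z) →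
    ∀ᶠ n in atTop, e6 (S.t n) = 0 ∨ MvPolynomial.aeval (V4 (S.t n)) G = 0 := by
  obtain ⟨A, hA⟩ := liouville4
  refine ⟨A, fun κ hκ z S G hG ↦ ?_⟩
  obtain ⟨C, hC0, hC⟩ := hA G
  obtain ⟨C', hC'0, hC'⟩ := hG.exists_pos
  rw [IsBigOWith] at hC'
  obtain ⟨H0, hH0⟩ := num_contra (C := C) A κ hκ hC'0
  have h1 := (S.tendsto (by omega)).eventually hC'
  have h2 : ∀ᶠ n : ℕ in atTop, H0 ≤ (n : ℝ) := tendsto_natCast_atTop_atTop.eventually_ge_atTop H0
  filter_upwards [h1, h2] with n h3 h4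
  by_cases h6 : e6 (S.t n) = 0
  · exact Or.inl h6
  right
  have h6' : E₆ (S.t n) ≠ 0 := by
    rwa [e6, ofComplex_apply] at h6
  rcases hC (S.H n) (S.a n) (S.b n) (S.c n) (S.t n) (by have := S.hH n; omega) (S.ha n) (S.haH n)
    (S.hbH n) (S.hcH n) (S.ht n) h6' with h5 | h5
  · exact h5
  exfalso
  have h7 : H0 ≤ (S.H n : ℝ) := by
    refine h4.trans ?_
    exact_mod_cast (by have := S.hH n; omega : n ≤ S.H n)
  have h8 := hH0 _ h7
  have h9 := S.hlt n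
  rw [norm_sub_rev] at h9
  have h10 : ‖MvPolynomial.aeval (V4 (S.t n)) G‖ ≤ C' * Real.exp (-(S.H n : ℝ) ^ κ) :=
    h3.trans (by gcongr)
  linarith

end H32.T3

end S_T3_C3

section S_T3_C4

/-!
# Nonvanishing of `E₄`, `E₆` and transfer of all relations
-/

open UpperHalfPlane hiding I
open Complex EisensteinSeries ModularForm MatrixGroups Manifold
open scoped Real Topology

namespace H32.T3

open Finset Filter Asymptotics

lemma e6_ev {z : ℂ} (hz : 0 < z.im) : ∀ᶠ w in 𝓝[≠] z, e6 w ≠ 0 := by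
  rcases (analytic_E6 z hz).eventually_eq_zero_or_eventually_ne_zero with h | h
  · exfalso
    apply E6_not_zero
    exact analytic_E6.eqOn_zero_of_preconnected_of_eventuallyEq_zero preconnected_H hz h
  · exact h

lemma e4_ev {z : ℂ} (hz : 0 < z.im) : ∀ᶠ w in 𝓝[≠] z, e4 w ≠ 0 := by
  rcases (analytic_E4 z hz).eventually_eq_zero_or_eventually_ne_zero with h | h
  · exfalso
    have h0 := analytic_E4.eqOn_zero_of_preconnected_of_eventuallyEq_zero preconnected_H hz h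
    have h1 : ∀ τ : ℍ, E₄ τ = 0 := fun τ ↦ by
      have := h0 τ.im_pos
      simpa [ofComplex_apply] using this
    apply E_ne_zero (k := 4) (by norm_num) ⟨2, rfl⟩
    ext τ
    exact h1 τ
  · exact h

lemma hasDeriv_jc {w : ℂ} (hw : 0 < w.im) : HasDerivAt jc (J1 w) w := hasDeriv_J hw

lemma jc_eq_1728 {w : ℂ} : jc w = 1728 ↔ e6 w = 0 := by
  have hd := disc_ne (w := w)
  rw [jc, div_eq_iff hd]
  constructor
  · intro h
    have : e6 w ^ 2 = 0 := by linear_combination (1 / 1728 : ℂ) * h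
    exact pow_eq_zero_iff (two_ne_zero) |>.mp this
  · intro h
    rw [h]; ring

lemma jc_eq_zero {w : ℂ} : jc w = 0 ↔ e4 w = 0 := by
  have hd := disc_ne (w := w)
  rw [jc, div_eq_zero_iff, or_iff_left hd]
  constructor
  · intro h
    have : e4 w ^ 3 = 0 := by linear_combination (1 / 1728 : ℂ) * h
    exact pow_eq_zero_iff (three_ne_zero) |>.mp this
  · intro h
    rw [h]; ring

theorem e46_ne : ∃ A : ℕ, ∀ (κ : ℕ), A < κ → ∀ (z : ℂ) (_ : Apx κ z), 0 < z.im →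
    e4 z ≠ 0 ∧ e6 z ≠ 0 := by
  obtain ⟨A, hA⟩ := transfer
  refine ⟨A, fun κ hκ z S hz ↦ ?_⟩
  have hb := (hasDeriv_jc hz).differentiableAt.isBigO_sub
  have hT := S.tendsto_ne (by omega)
  constructor
  · intro h0
    have h1 := hA κ hκ z S (MvPolynomial.X 2) (by
      have e : jc z = 0 := jc_eq_zero.mpr h0
      rw [e] at hb
      simpa [V4] using hb)
    have h2 := hT.eventually (e6_ev hz)
    have h3 := hT.eventually (e4_ev hz)
    obtain ⟨n, h4, h5, h6⟩ := (h1.and (h2.and h3)).exists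
    rcases h4 with h4 | h4
    · exact h5 h4
    · rw [MvPolynomial.aeval_X] at h4
      exact h6 (jc_eq_zero.mp h4)
  · intro h0
    have h1 := hA κ hκ z S (MvPolynomial.X 2 - MvPolynomial.C 1728) (by
      have e : jc z = 1728 := jc_eq_1728.mpr h0
      rw [e] at hb
      refine hb.congr_left fun w ↦ ?_
      rw [map_sub, MvPolynomial.aeval_X, MvPolynomial.aeval_C]
      simp [V4])
    have h2 := hT.eventually (e6_ev hz)
    obtain ⟨n, h4, h5⟩ := (h1.and h2).exists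
    rcases h4 with h4 | h4
    · exact h5 h4
    · rw [map_sub, MvPolynomial.aeval_X, MvPolynomial.aeval_C] at h4
      have h6 : jc (S.t n) - 1728 = 0 := by simpa [V4] using h4
      exact h5 (jc_eq_1728.mp (sub_eq_zero.mp h6))

lemma diff_V4 {z : ℂ} (hz : 0 < z.im) (h6 : e6 z ≠ 0) (i : Fin 4) :
    DifferentiableAt ℝ (fun w ↦ V4 w i) z := by
  have d4 : DifferentiableAt ℝ e4 z := (hasDeriv_e4 hz).differentiableAt.restrictScalars ℝ
  have d6 : DifferentiableAt ℝ e6 z := (hasDeriv_e6 hz).differentiableAt.restrictScalars ℝ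
  have d2 : DifferentiableAt ℝ e2 z := (analytic_E2 z hz).differentiableAt.restrictScalars ℝ
  have dj : DifferentiableAt ℝ jc z := (hasDeriv_jc hz).differentiableAt.restrictScalars ℝ
  fin_cases i
  · exact differentiableAt_id
  · exact Complex.conjCLE.differentiableAt
  · exact dj
  · have him : DifferentiableAt ℝ (fun w : ℂ ↦ ((w.im : ℝ) : ℂ)) z :=
      (Complex.ofRealCLM.differentiableAt).comp z Complex.imCLM.differentiableAt
    have hpi : (π : ℂ) ≠ 0 := by exact_mod_cast Real.pi_ne_zero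
    have hy : (π : ℂ) * ((z.im : ℝ) : ℂ) ≠ 0 := mul_ne_zero hpi (by exact_mod_cast hz.ne')
    have h0 : DifferentiableAt ℝ (fun w : ℂ ↦ ((π : ℂ) * ((w.im : ℝ) : ℂ))⁻¹) z :=
      ((differentiableAt_const _).mul him).inv hy
    have h1 : DifferentiableAt ℝ (fun w : ℂ ↦ (3 : ℂ) * (π * ((w.im : ℝ) : ℂ))⁻¹) z :=
      (differentiableAt_const _).mul h0
    have h2 := ((d2.sub h1).mul d4).mul (d6.inv h6)
    exact h2

lemma diff_aeval {z : ℂ} (hz : 0 < z.im) (h6 : e6 z ≠ 0) (G : MvPolynomial (Fin 4) ℤ) :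
    DifferentiableAt ℝ (fun w ↦ MvPolynomial.aeval (V4 w) G) z := by
  induction G using MvPolynomial.induction_on with
  | C c =>
    simp only [MvPolynomial.aeval_C]
    exact differentiableAt_const _
  | add p q hp hq =>
    simp only [map_add]
    exact hp.add hq
  | mul_X p i hp =>
    simp only [map_mul, MvPolynomial.aeval_X]
    exact hp.mul (diff_V4 hz h6 i)

lemma rel_bigO {z : ℂ} (hz : 0 < z.im) (h6 : e6 z ≠ 0) (G : MvPolynomial (Fin 4) ℤ)
    (h : MvPolynomial.aeval (V4 z) G = 0) :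
    (fun w ↦ MvPolynomial.aeval (V4 w) G) =O[𝓝 z] (fun w ↦ w - z) := by
  have h1 := (diff_aeval hz h6 G).isBigO_sub
  rw [h] at h1
  simpa using h1

/-- All relations at `z` hold at the CM points. -/
theorem transfer' : ∃ A : ℕ, ∀ (κ : ℕ), A < κ → ∀ (z : ℂ) (S : Apx κ z), 0 < z.im →
    ∀ (G : MvPolynomial (Fin 4) ℤ), MvPolynomial.aeval (V4 z) G = 0 →
    ∀ᶠ n in atTop, MvPolynomial.aeval (V4 (S.t n)) G = 0 := by
  obtain ⟨A, hA⟩ := transfer
  obtain ⟨A', hA'⟩ := e46_ne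
  refine ⟨A + A', fun κ hκ z S hz G hG ↦ ?_⟩
  have h6 := (hA' κ (by omega) z S hz).2
  have h1 := hA κ (by omega) z S G (rel_bigO hz h6 G hG)
  have h2 := (S.tendsto_ne (by omega)).eventually (e6_ev hz)
  filter_upwards [h1, h2] with n h3 h4
  exact h3.resolve_left h4

end H32.T3

end S_T3_C4

section S_T3_C6

/-!
# Algebraic points attached to roots of specialised relations
-/

open UpperHalfPlane hiding I
open Complex EisensteinSeries ModularForm MatrixGroups Manifold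
open scoped Real Topology

namespace H32.T3

open Height Height.AdmissibleAbsValues Finset NumberField Filter

lemma exists_near_root (f : Polynomial ℂ) (hf : f.natDegree ≠ 0) (x : ℂ) :
    ∃ ρ, f.eval ρ = 0 ∧ ‖x - ρ‖ ^ f.natDegree * ‖f.leadingCoeff‖ ≤ ‖f.eval x‖ := by
  classical
  have hsp : f.Splits := IsAlgClosed.splits f
  have hcard : f.roots.card = f.natDegree := hsp.natDegree_eq_card_roots.symm
  have hf0 : f ≠ 0 := fun h ↦ hf (by rw [h, Polynomial.natDegree_zero])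
  have hne : f.roots.toFinset.Nonempty := by
    rw [Multiset.toFinset_nonempty]
    intro h0
    rw [h0, Multiset.card_zero] at hcard
    exact hf hcard.symm
  obtain ⟨ρ, hρ, hmin⟩ := exists_min_image f.roots.toFinset (fun ρ ↦ ‖x - ρ‖) hne
  rw [Multiset.mem_toFinset] at hρ
  refine ⟨ρ, (Polynomial.mem_roots'.mp hρ).2, ?_⟩
  rw [hsp.eval_eq_prod_roots x, norm_mul, mul_comm]
  gcongr
  have h1 : ‖(f.roots.map (fun a ↦ x - a)).prod‖ = (f.roots.map (fun a ↦ ‖x - a‖)).prod := by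
    have := map_multiset_prod (normHom : ℂ →*₀ ℝ) (f.roots.map (fun a ↦ x - a))
    rw [Multiset.map_map] at this
    exact this
  have h2 : ‖x - ρ‖ ^ f.natDegree = (f.roots.map (fun _ ↦ ‖x - ρ‖)).prod := by
    rw [Multiset.map_const', Multiset.prod_replicate, hcard]
  rw [h1, h2]
  exact Multiset.prod_map_le_prod_map₀ _ _ (fun _ _ ↦ norm_nonneg _) fun a ha ↦
    hmin a (Multiset.mem_toFinset.mpr ha)

/-- The number field attached to a root. -/
theorem point_bound : ∃ A : ℕ, ∀ (G : ℕ → MvPolynomial (Fin 4) ℤ) (n : ℕ), ∃ C1 : ℕ,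
    ∀ (H : ℕ) (a b c : ℤ) (τ : ℍ), 2 ≤ H → 0 < a → |a| ≤ H → |b| ≤ H →
    |c| ≤ H → (a : ℂ) * τ ^ 2 + b * τ + c = 0 → E₆ τ ≠ 0 →
    MvPolynomial.aeval (V4 τ) (G n) ≠ 0 → ∀ e ρ : ℂ,
    4 * e ^ 3 - 2 * (27 / 2 * (E₄ τ ^ 3 / E₆ τ ^ 2)) * e -
        2 * (27 / 2 * (E₄ τ ^ 3 / E₆ τ ^ 2)) = 0 →
    ∑ i ∈ range (n + 1), MvPolynomial.aeval (V4 τ) (G i) * ρ ^ i = 0 →
    ∃ (L : Type) (_ : Field L) (_ : NumberField L) (s : L →+* ℂ) (x0 x3 x4 : L),
      s x0 = e ∧ s x3 = 27 / 2 * (E₄ τ ^ 3 / E₆ τ ^ 2) ∧ s x4 = 3 / 2 * ρ ∧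
      totalWeight L ≤ C1 * H ^ (2 * A) ∧
      mulHeight₁ x0 ≤ Real.exp ((C1 * H ^ (2 * A) : ℕ) : ℝ) ∧
      mulHeight₁ x3 ≤ Real.exp ((C1 * H ^ (2 * A) : ℕ) : ℝ) ∧
      mulHeight₁ x4 ≤ Real.exp ((C1 * H ^ (2 * A) : ℕ) : ℝ) := by
  obtain ⟨A, hA⟩ := cm_heights
  refine ⟨A, fun G n ↦ ?_⟩
  set D : ℕ := ∑ i ∈ range (n + 1), (G i).totalDegree with hD
  set B : ℝ := 1 + ∑ i ∈ range (n + 1), nrm (G i) with hB
  have hBs : 0 ≤ ∑ i ∈ range (n + 1), nrm (G i) := sum_nonneg fun i _ ↦ nrm_nonneg _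
  have hB1 : 1 ≤ B := by rw [hB]; linarith
  have hlB : 0 ≤ Real.log B := Real.log_nonneg hB1
  -- the budget
  set Q : ℝ := 2000 + n + Real.log B + 4 * D with hQ
  set C1 : ℕ := ⌈Q⌉₊ * (3 * n + 1) with hC1
  refine ⟨C1, fun H a b c τ hH ha haH hbH hcH hτ h6 hGn e ρ he hρ ↦ ?_⟩
  obtain ⟨K, hK, hKA, hL⟩ := hA H a b c τ hH ha haH hbH hcH hτ h6
  have hH2 : (2 : ℝ) ≤ H := by exact_mod_cast hH
  have hT1 : (1 : ℝ) ≤ (H : ℝ) ^ A := one_le_pow₀ (by linarith)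
  set T : ℝ := (H : ℝ) ^ A with hT
  have hΔ := discriminant_ne_zero τ
  have hJ1728 : jf τ - 1728 ≠ 0 := by
    intro h0
    have := jf_sub τ
    rw [h0, zero_mul] at this
    exact pow_ne_zero 2 h6 this.symm
  have hh : 27 / 2 * (E₄ τ ^ 3 / E₆ τ ^ 2) = 27 / 2 * (jf τ / (jf τ - 1728)) := by
    congr 1
    rw [← jf_mul, ← jf_sub]
    field_simp
  set h := 27 / 2 * (E₄ τ ^ 3 / E₆ τ ^ 2) with hhdef
  -- first step: adjoin `ρ`
  have hNF : NumberField K := { to_charZero := inferInstance, to_finiteDimensional := hK }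
  obtain ⟨t, tb, J, φ, h1, h2, h3, h4, -, -, -, -⟩ := hL K (algebraMap K ℂ)
    (fun x hx ↦ ⟨⟨x, hx⟩, rfl⟩)
  set v : Fin 4 → K := ![t, tb, J, φ] with hv
  have hval : ∀ P : MvPolynomial (Fin 4) ℤ,
      algebraMap K ℂ (MvPolynomial.aeval v P) = MvPolynomial.aeval (V4 τ) P := by
    intro P
    have h5 := MvPolynomial.comp_aeval_apply v (algebraMap K ℂ).toIntAlgHom P
    have h6 : (fun i ↦ (algebraMap K ℂ).toIntAlgHom (v i)) = V4 τ := by
      ext i
      fin_cases i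
      · exact h1
      · exact h2
      · exact h3.trans (jc_coe τ).symm
      · exact h4.trans (ph_coe τ).symm
    rw [h6] at h5
    exact h5
  set f : Polynomial K := ∑ i ∈ range (n + 1),
    Polynomial.C (MvPolynomial.aeval v (G i)) * Polynomial.X ^ i with hf
  have hfd : f.natDegree ≤ n := by
    refine Polynomial.natDegree_sum_le_of_forall_le _ _ fun i hi ↦ ?_
    exact (Polynomial.natDegree_C_mul_X_pow_le _ _).trans (Nat.lt_succ_iff.mp (mem_range.mp hi))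
  have hf0 : f ≠ 0 := by
    intro h0
    have h1 := congrArg (fun p ↦ p.coeff n) h0
    simp only [hf, Polynomial.finsetSum_coeff, Polynomial.coeff_C_mul, Polynomial.coeff_X_pow,
      Polynomial.coeff_zero] at h1
    rw [sum_eq_single n] at h1
    · rw [if_pos rfl, mul_one] at h1
      apply hGn
      rw [← hval, h1, map_zero]
    · intro i _ hi
      rw [if_neg (Ne.symm hi), mul_zero]
    · intro hM
      exact absurd (mem_range.mpr (Nat.lt_succ_self n)) hM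
  obtain ⟨K1, hK1, hρ1, hf1, hd1⟩ := one_step K ρ f hf0 (by
    rw [hf, map_sum, ← hρ]
    refine sum_congr rfl fun i _ ↦ ?_
    rw [map_mul, Polynomial.aeval_C, map_pow, Polynomial.aeval_X, hval])
  -- second step: adjoin `e`
  have hhK : h ∈ K1 := by
    rw [hh]
    have hJK : jf τ ∈ K1 := by
      apply hK1
      rw [← h3]
      exact J.2
    have h27 : (27 / 2 : ℂ) ∈ K1 := by
      have : (27 / 2 : ℂ) = algebraMap ℚ ℂ (27 / 2) := by simp
      rw [this]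
      exact K1.algebraMap_mem _
    have h17 : (1728 : ℂ) ∈ K1 := by
      have : (1728 : ℂ) = algebraMap ℚ ℂ 1728 := by simp
      rw [this]
      exact K1.algebraMap_mem _
    exact K1.mul_mem h27 (K1.div_mem hJK (K1.sub_mem hJK h17))
  set g : Polynomial K1 := Polynomial.C 4 * Polynomial.X ^ 3 -
    Polynomial.C (2 * ⟨h, hhK⟩) * Polynomial.X - Polynomial.C (2 * ⟨h, hhK⟩) with hg
  have hgd : g.natDegree ≤ 3 := by
    rw [hg]
    compute_degree
  have hg0 : g ≠ 0 := by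
    intro h0
    have h1 := congrArg (fun p ↦ p.coeff 3) h0
    simp only [hg, Polynomial.coeff_sub, Polynomial.coeff_C_mul, Polynomial.coeff_X_pow,
      Polynomial.coeff_X, Polynomial.coeff_C, Polynomial.coeff_zero] at h1
    norm_num at h1
  obtain ⟨K2, hK2, he2, hf2, hd2⟩ := one_step K1 e g hg0 (by
    rw [hg, map_sub, map_sub, map_mul, map_mul, map_pow, Polynomial.aeval_X, Polynomial.aeval_C,
      Polynomial.aeval_C, ← he]
    have e1 : algebraMap K1 ℂ (2 * ⟨h, hhK⟩) = 2 * h := rfl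
    rw [e1]
    rfl)
  have hNF2 : NumberField K2 := { to_charZero := inferInstance, to_finiteDimensional := hf2 }
  obtain ⟨t', tb', J', φ', h1', h2', h3', h4', b1, b2, b3, b4⟩ := hL K2 (algebraMap K2 ℂ)
    (fun x hx ↦ ⟨⟨x, hK2 (hK1 hx)⟩, rfl⟩)
  set v' : Fin 4 → K2 := ![t', tb', J', φ'] with hv'
  have hvb : ∀ i, HB T (v' i) := by
    intro i
    fin_cases i
    · exact b1
    · exact b2
    · exact b3
    · exact b4
  have hval' : ∀ P : MvPolynomial (Fin 4) ℤ,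
      algebraMap K2 ℂ (MvPolynomial.aeval v' P) = MvPolynomial.aeval (V4 τ) P := by
    intro P
    have h5 := MvPolynomial.comp_aeval_apply v' (algebraMap K2 ℂ).toIntAlgHom P
    have h6 : (fun i ↦ (algebraMap K2 ℂ).toIntAlgHom (v' i)) = V4 τ := by
      ext i
      fin_cases i
      · exact h1'
      · exact h2'
      · exact h3'.trans (jc_coe τ).symm
      · exact h4'.trans (ph_coe τ).symm
    rw [h6] at h5
    exact h5
  set r : K2 := ⟨ρ, hK2 hρ1⟩ with hr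
  set ee : K2 := ⟨e, he2⟩ with hee
  set x3 : K2 := ((27 : ℤ) : K2) / ((2 : ℤ) : K2) * (J' / (J' - ((1728 : ℤ) : K2))) with hx3
  have hx3v : algebraMap K2 ℂ x3 = h := by
    rw [hx3, hh, map_mul, map_div₀, map_div₀, map_sub, h3', map_intCast, map_intCast, map_intCast]
    push_cast
    rfl
  -- heights
  have hx3b : HB (2 * T + 1758) x3 :=
    (((HB.int 27).div (HB.int 2)).mul (b3.div (b3.sub (HB.int 1728)))).mono (by
      norm_num
      linarith)
  have hrb : HB (n + Real.log B + 4 * D * T) r := by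
    have hroot := HB.root hvb (n := n) (fun j ↦ if j ≤ n then G j else 0) (D := D)
      (fun j ↦ by
        split_ifs with hj
        · exact single_le_sum (f := fun i ↦ (G i).totalDegree) (fun _ _ ↦ Nat.zero_le _)
            (mem_range.mpr (Nat.lt_succ_of_le hj))
        · simp) (B := B) hB1 (fun j ↦ by
        split_ifs with hj
        · have := single_le_sum (f := fun i ↦ nrm (G i)) (fun _ _ ↦ nrm_nonneg _)
            (mem_range.mpr (Nat.lt_succ_of_le hj))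
          rw [hB]
          linarith
        · rw [nrm_zero]; linarith) r ?_ ?_
    · refine hroot.mono ?_
      rw [Fintype.card_fin]
      push_cast
      linarith
    · rw [if_pos le_rfl]
      intro h0
      apply hGn
      rw [← hval', h0, map_zero]
    · apply (algebraMap K2 ℂ).injective
      rw [map_zero, map_sum, ← hρ]
      refine sum_congr rfl fun i hi ↦ ?_
      rw [if_pos (Nat.lt_succ_iff.mp (mem_range.mp hi)), map_mul, map_pow, hval']
      rfl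
  have hx4b : HB (3 + 2 + (n + Real.log B + 4 * D * T)) (((3 : ℤ) : K2) / ((2 : ℤ) : K2) * r) :=
    (((HB.int 3).div (HB.int 2)).mul hrb).mono (by norm_num)
  have heb : HB (2 * T + 1765) ee := by
    have hroot := HB.root (ι := Fin 1) (x := fun _ ↦ x3) (fun _ ↦ hx3b) (n := 3)
      (fun j ↦ if j = 0 then MvPolynomial.C (-2) * MvPolynomial.X 0 else
        if j = 1 then MvPolynomial.C (-2) * MvPolynomial.X 0 else
        if j = 3 then MvPolynomial.C 4 else 0) (D := 1)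
      (fun j ↦ by
        have e1 : (MvPolynomial.C (-2) * MvPolynomial.X 0 :
            MvPolynomial (Fin 1) ℤ).totalDegree ≤ 1 := by
          refine (MvPolynomial.totalDegree_mul _ _).trans ?_
          rw [MvPolynomial.totalDegree_C, MvPolynomial.totalDegree_X]
        split_ifs
        · exact e1
        · exact e1
        · rw [MvPolynomial.totalDegree_C]; norm_num
        · simp) (B := 4) (by norm_num) (fun j ↦ by
        have e1 : nrm (MvPolynomial.C (-2) * MvPolynomial.X 0 : MvPolynomial (Fin 1) ℤ) ≤ 4 := by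
          refine (nrm_mul_le _ _).trans ?_
          rw [nrm_C, nrm_X]
          norm_num
        split_ifs
        · exact e1
        · exact e1
        · rw [nrm_C]; norm_num
        · rw [nrm_zero]; norm_num) ee ?_ ?_
    · refine hroot.mono ?_
      have h4 : Real.log 4 ≤ 4 - 1 := Real.log_le_sub_one_of_pos (by norm_num)
      simp only [Fintype.card_fin, Nat.cast_one, one_mul, Nat.cast_ofNat]
      linarith
    · rw [if_neg (by norm_num), if_neg (by norm_num), if_pos rfl, MvPolynomial.aeval_C]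
      simp
    · clear_value x3
      have hrel : 4 * ee ^ 3 - 2 * x3 * ee - 2 * x3 = 0 := by
        apply (algebraMap K2 ℂ).injective
        have e1 : algebraMap K2 ℂ ee = e := rfl
        simp only [map_zero, map_sub, map_mul, map_pow, hx3v, map_ofNat, e1]
        exact he
      simp only [sum_range_succ, sum_range_zero]
      norm_num [MvPolynomial.aeval_C, MvPolynomial.aeval_X]
      linear_combination hrel
  have hd : Module.finrank ℚ K2 ≤ H ^ A * (3 * n + 1) := by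
    calc Module.finrank ℚ K2 ≤ Module.finrank ℚ K1 * 3 := hd2.trans (Nat.mul_le_mul_left _ hgd)
      _ ≤ (Module.finrank ℚ K * n) * 3 :=
        Nat.mul_le_mul_right _ (hd1.trans (Nat.mul_le_mul_left _ hfd))
      _ ≤ (H ^ A * n) * 3 := by gcongr
      _ = H ^ A * (3 * n) := by ring
      _ ≤ H ^ A * (3 * n + 1) := by gcongr; omega
  have hQ0 : 0 ≤ Q := by
    rw [hQ]
    positivity
  have hQceil : Q ≤ (⌈Q⌉₊ : ℝ) := Nat.le_ceil Q
  have hC1' : (C1 : ℝ) * T ^ 2 = ⌈Q⌉₊ * T * (T * (3 * n + 1)) := by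
    rw [hC1]; push_cast; ring
  have hd' : (totalWeight K2 : ℝ) ≤ T * (3 * n + 1) := by
    rw [totalWeight_eq_finrank, hT]
    exact_mod_cast hd
  have hfin : ∀ (S : ℝ) (x : K2), 0 ≤ S → HB S x → S ≤ Q * T →
      mulHeight₁ x ≤ Real.exp ((C1 * H ^ (2 * A) : ℕ) : ℝ) := by
    intro S x hS hx hSQ
    unfold HB at hx
    rw [← Real.log_le_iff_le_exp (mulHeight₁_pos _), ← logHeight₁_eq_log_mulHeight₁]
    have e1 : ((C1 * H ^ (2 * A) : ℕ) : ℝ) = C1 * T ^ 2 := by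
      rw [hT]; push_cast; ring
    rw [e1, hC1']
    calc logHeight₁ x ≤ S * totalWeight K2 := hx
      _ ≤ (⌈Q⌉₊ * T) * (T * (3 * n + 1)) := by
        have : S ≤ ⌈Q⌉₊ * T := hSQ.trans (by gcongr)
        gcongr
  have hDT : (4 * D : ℝ) * T ≤ 4 * D * T := le_rfl
  have hQT : Q * T = 2000 * T + n * T + Real.log B * T + 4 * D * T := by rw [hQ]; ring
  have hnT : (n : ℝ) ≤ n * T := le_mul_of_one_le_right (by positivity) hT1
  have hlT : Real.log B ≤ Real.log B * T := le_mul_of_one_le_right hlB hT1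
  have hDT0 : (0 : ℝ) ≤ 4 * D * T := by positivity
  have hnT0 : (0 : ℝ) ≤ n * T := by positivity
  have hlT0 : (0 : ℝ) ≤ Real.log B * T := by positivity
  refine ⟨K2, inferInstance, hNF2, algebraMap K2 ℂ, ee, x3, ((3 : ℤ) : K2) / ((2 : ℤ) : K2) * r,
    rfl, hx3v, ?_, ?_, hfin _ _ (by positivity) heb ?_, hfin _ _ (by positivity) hx3b ?_,
    hfin _ _ (by positivity) hx4b ?_⟩
  · rw [map_mul, map_div₀, map_intCast, map_intCast]
    push_cast
    rfl
  · rw [totalWeight_eq_finrank]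
    refine hd.trans ?_
    have h5 : 1 ≤ ⌈Q⌉₊ := by
      rw [Nat.one_le_ceil_iff, hQ]
      positivity
    have h6 : 1 ≤ H ^ A := Nat.one_le_pow _ _ (by omega)
    calc H ^ A * (3 * n + 1) = 1 * (1 * (H ^ A * (3 * n + 1))) := by ring
      _ ≤ ⌈Q⌉₊ * (H ^ A * (H ^ A * (3 * n + 1))) := by gcongr
      _ = C1 * H ^ (2 * A) := by rw [hC1]; ring
  · rw [hQT]; linarith
  · rw [hQT]; linarith
  · rw [hQT]; linarith

end H32.T3

end S_T3_C6

section S_T3_A5

/-!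
# Ratios of weight two quantities at commensurable points
-/

open UpperHalfPlane hiding I
open Complex EisensteinSeries ModularForm MatrixGroups
open scoped Real

namespace H32.T3

open Height Height.AdmissibleAbsValues Finset NumberField

/-- The third family. -/
noncomputable def xP (N : ℕ) (A : Matrix (Fin 2) (Fin 2) ℤ) (τ : ℍ) : ℂ :=
  HA (fun τ ↦ E₄ τ) 4 N A τ * E₄ τ ^ 2

/-- The fourth family. -/
noncomputable def xQ (N : ℕ) (A : Matrix (Fin 2) (Fin 2) ℤ) (τ : ℍ) : ℂ :=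
  HA (fun τ ↦ E₆ τ) 6 N A τ * E₆ τ

lemma WInv_xP {N : ℕ} (hN : 0 < N) (k : ℕ) :
    WInv (fun τ ↦ ∑ s ∈ SN N, xP N (toM s) τ ^ k) (12 * k) := by
  have hN' : (0 : ℤ) < N := by exact_mod_cast hN
  refine sum_WInv hN _ (fun A τ ↦ xP N A τ ^ k) (fun A hA γ τ ↦ ?_) (fun A hA γ τ ↦ ?_)
  · have hA' : 0 < A.det := hA ▸ hN'
    simp only [xP, HA_left WInv_E4 hA']
  · have hA' : 0 < A.det := hA ▸ hN'
    have h4 := WInv_E4 γ τ
    simp only at h4
    simp only [xP, HA_right hA']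
    rw [h4]
    have e : denom (γ : GL (Fin 2) ℝ) τ ^ 4 * HA (fun τ ↦ E₄ τ) 4 N (A * γ.1) τ *
        (denom (γ : GL (Fin 2) ℝ) τ ^ 4 * E₄ τ) ^ 2 =
        denom (γ : GL (Fin 2) ℝ) τ ^ 12 *
        (HA (fun τ ↦ E₄ τ) 4 N (A * γ.1) τ * E₄ τ ^ 2) := by ring
    rw [e, mul_pow, ← pow_mul]

lemma WInv_xQ {N : ℕ} (hN : 0 < N) (k : ℕ) :
    WInv (fun τ ↦ ∑ s ∈ SN N, xQ N (toM s) τ ^ k) (12 * k) := by
  have hN' : (0 : ℤ) < N := by exact_mod_cast hN
  refine sum_WInv hN _ (fun A τ ↦ xQ N A τ ^ k) (fun A hA γ τ ↦ ?_) (fun A hA γ τ ↦ ?_)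
  · have hA' : 0 < A.det := hA ▸ hN'
    simp only [xQ, HA_left WInv_E6 hA']
  · have hA' : 0 < A.det := hA ▸ hN'
    have h6 := WInv_E6 γ τ
    simp only at h6
    simp only [xQ, HA_right hA']
    rw [h6]
    have e : denom (γ : GL (Fin 2) ℝ) τ ^ 6 * HA (fun τ ↦ E₆ τ) 6 N (A * γ.1) τ *
        (denom (γ : GL (Fin 2) ℝ) τ ^ 6 * E₆ τ) =
        denom (γ : GL (Fin 2) ℝ) τ ^ 12 *
        (HA (fun τ ↦ E₆ τ) 6 N (A * γ.1) τ * E₆ τ) := by ring
    rw [e, mul_pow, ← pow_mul]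

lemma IntQ_xP {N : ℕ} (hN : 0 < N) (k : ℕ) :
    IntQ (fun τ ↦ ∑ s ∈ SN N, xP N (toM s) τ ^ k) := by
  have e1 : (fun τ ↦ ∑ s ∈ SN N, xP N (toM s) τ ^ k) = fun τ ↦
      (fun τ ↦ E₄ τ) τ ^ (2 * k) * ∑ s ∈ SN N, GG 0 k 0 N (toM s) τ := by
    ext τ
    rw [mul_sum]
    refine sum_congr rfl fun s _ ↦ ?_
    unfold xP GG
    rw [mul_pow, ← pow_mul, pow_zero, pow_zero, one_mul, mul_one, mul_comm]
  rw [e1]
  exact IntQ.mul (IntQ_E4.pow _) (IntQ_sum _ _ _ hN)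

lemma IntQ_xQ {N : ℕ} (hN : 0 < N) (k : ℕ) :
    IntQ (fun τ ↦ ∑ s ∈ SN N, xQ N (toM s) τ ^ k) := by
  have e1 : (fun τ ↦ ∑ s ∈ SN N, xQ N (toM s) τ ^ k) = fun τ ↦
      (fun τ ↦ E₆ τ) τ ^ k * ∑ s ∈ SN N, GG 0 0 k N (toM s) τ := by
    ext τ
    rw [mul_sum]
    refine sum_congr rfl fun s _ ↦ ?_
    unfold xQ GG
    rw [mul_pow, pow_zero, pow_zero, one_mul, one_mul, mul_comm]
  rw [e1]
  exact IntQ.mul (IntQ_E6.pow _) (IntQ_sum _ _ _ hN)

open Polynomial in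
theorem rel_PQ : ∃ K : ℝ, 1 ≤ K ∧ ∀ N : ℕ, 0 < N → ∃ rP rQ : ℕ → ℤ[X],
    rP (SN N).card = C (((SN N).card).factorial : ℤ) ∧
    rQ (SN N).card = C (((SN N).card).factorial : ℤ) ∧
    (∀ i, (rP i).natDegree ≤ 2 * (SN N).card) ∧ (∀ i, (rQ i).natDegree ≤ 2 * (SN N).card) ∧
    (∀ i, nr (rP i) ≤ Real.exp (K * N ^ 26)) ∧ (∀ i, nr (rQ i) ≤ Real.exp (K * N ^ 26)) ∧
    (∀ (τ : ℍ) (u : ℂ), ∑ i ∈ range ((SN N).card + 1), aeval (jf τ) (rP i) * u ^ i =
        (((SN N).card).factorial : ℂ) *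
          ∏ s ∈ SN N, (u - xP N (toM s) τ / discriminant τ ^ 1)) ∧
    (∀ (τ : ℍ) (u : ℂ), ∑ i ∈ range ((SN N).card + 1), aeval (jf τ) (rQ i) * u ^ i =
        (((SN N).card).factorial : ℂ) *
          ∏ s ∈ SN N, (u - xQ N (toM s) τ / discriminant τ ^ 1)) := by
  obtain ⟨Y, hY1, hY⟩ := near_inf
  obtain ⟨a, ha1, hb, hb'⟩ := line_bounds hY1
  set δ : ℝ := Real.exp (-2 * π * Y) / 2 with hδ
  have hδ0 : 0 < δ := by positivity
  have hΔ : ∀ τ : ℍ, τ.im = Y → δ ≤ ‖discriminant τ‖ := by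
    intro τ hτ
    have := (hY τ hτ.ge).1
    rw [norm_qq, hτ] at this
    exact this
  set C0 : ℝ := max 2 (max (2 * a ^ 3 / δ) (a ^ 3)) with hC0
  have h2 : 2 ≤ C0 := le_max_left _ _
  have h3 : 2 * a ^ 3 / δ ≤ C0 := (le_max_left _ _).trans (le_max_right _ _)
  have h4 : a ^ 3 ≤ C0 := (le_max_right _ _).trans (le_max_right _ _)
  have ha0 : 0 < a := by linarith
  refine ⟨32 * a ^ 6 * C0, ?_, fun N hN ↦ ?_⟩
  · have : 1 ≤ a ^ 6 := one_le_pow₀ ha1
    nlinarith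
  have hN1 : (1 : ℝ) ≤ N := by exact_mod_cast hN
  set L : ℝ := 2 * a ^ 6 * N ^ 18 with hL
  have hL1 : 1 ≤ L := by
    have h5 : 1 ≤ a ^ 6 := one_le_pow₀ ha1
    have h6 : (1 : ℝ) ≤ (N : ℝ) ^ 18 := one_le_pow₀ hN1
    rw [hL]
    nlinarith
  have hY0 : 0 < Y := by linarith
  have e2 : (N : ℝ) ^ 6 ≤ (N : ℝ) ^ 18 := pow_le_pow_right₀ hN1 (by norm_num)
  have hL2 : a ^ 6 * N ^ 18 ≤ L := by
    rw [hL]
    have : 0 ≤ a ^ 6 * (N : ℝ) ^ 18 := by positivity
    linarith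
  have hxP : ∀ s ∈ SN N, ∀ τ : ℍ, τ.im = Y → ‖xP N (toM s) τ‖ ≤ L := by
    intro s hs τ hτ
    obtain ⟨-, k2, -⟩ := hb N hN s hs τ hτ
    obtain ⟨-, l2, -⟩ := hb' τ hτ
    rw [xP, norm_mul, norm_pow]
    calc _ ≤ (a * N ^ 6) * a ^ 2 := by gcongr
      _ = a ^ 3 * N ^ 6 := by ring
      _ ≤ a ^ 6 * N ^ 18 := by
        have e1 : a ^ 3 ≤ a ^ 6 := pow_le_pow_right₀ ha1 (by norm_num)
        gcongr
      _ ≤ L := hL2
  have hxQ : ∀ s ∈ SN N, ∀ τ : ℍ, τ.im = Y → ‖xQ N (toM s) τ‖ ≤ L := by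
    intro s hs τ hτ
    obtain ⟨-, -, k3⟩ := hb N hN s hs τ hτ
    obtain ⟨-, -, l3⟩ := hb' τ hτ
    rw [xQ, norm_mul]
    calc _ ≤ (a * N ^ 6) * a := by gcongr
      _ = a ^ 2 * N ^ 6 := by ring
      _ ≤ a ^ 6 * N ^ 18 := by
        have e1 : a ^ 2 ≤ a ^ 6 := pow_le_pow_right₀ ha1 (by norm_num)
        gcongr
      _ ≤ L := hL2
  obtain ⟨rP, d1, d2, d3, d4⟩ := rel_of hN (xP N) 1 (by norm_num) (IntQ_xP hN)
    (fun k ↦ by rw [one_mul]; exact WInv_xP hN k) hY0 hδ0 hΔ ha1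
    (fun τ hτ ↦ (hb' τ hτ).2.1) h2 h3 h4 hL1 hxP
  obtain ⟨rQ, e1, e2, e3, e4⟩ := rel_of hN (xQ N) 1 (by norm_num) (IntQ_xQ hN)
    (fun k ↦ by rw [one_mul]; exact WInv_xQ hN k) hY0 hδ0 hΔ ha1
    (fun τ hτ ↦ (hb' τ hτ).2.1) h2 h3 h4 hL1 hxQ
  have hM : ((SN N).card : ℝ) ≤ (N : ℝ) ^ 2 := by exact_mod_cast card_SN_le hN
  have hbound : 16 * ((SN N).card : ℝ) ^ 3 * ((SN N).card * L * C0) ≤ 32 * a ^ 6 * C0 * N ^ 26 := by
    have hL0 : 0 ≤ L := by linarith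
    have hC00 : 0 ≤ C0 := by linarith
    calc 16 * ((SN N).card : ℝ) ^ 3 * ((SN N).card * L * C0)
        ≤ 16 * ((N : ℝ) ^ 2) ^ 3 * ((N : ℝ) ^ 2 * L * C0) := by gcongr
      _ = _ := by rw [hL]; ring
  exact ⟨rP, rQ, d1, e1, d2, e2, fun i ↦ (d3 i).trans (Real.exp_le_exp.mpr hbound),
    fun i ↦ (e3 i).trans (Real.exp_le_exp.mpr hbound), d4, e4⟩

/-- Evaluation at commensurable points. -/
lemma ratio_eval {p q r : ℤ} {N : ℕ} (hp : 0 < p) (hr : 0 < r) (hN : (N : ℤ) = p * r) (τ τ' : ℍ)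
    (h : (τ' : ℂ) = (p * τ + q) / r) : ∃ s ∈ SN N,
      xP N (toM s) τ = (p : ℂ) ^ 4 * E₄ τ' * E₄ τ ^ 2 ∧
      xQ N (toM s) τ = (p : ℂ) ^ 6 * E₆ τ' * E₆ τ := by
  have hN0 : 0 < N := by
    have : (0 : ℤ) < N := by rw [hN]; positivity
    exact_mod_cast this
  set g : Matrix (Fin 2) (Fin 2) ℤ := !![p, q; 0, r] with hg
  have hdet : g.det = N := by
    rw [hg, Matrix.det_fin_two_of, hN]; ring
  have hN' : (0 : ℤ) < N := by exact_mod_cast hN0
  have hpos : 0 < g.det := hdet ▸ hN'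
  have hr0 : (r : ℂ) ≠ 0 := by exact_mod_cast hr.ne'
  have hden : denom (toG g) τ = r := by
    rw [denom, toG_val hpos]
    simp [hg]
  have hfix : toG g • τ = τ' := by
    have h1 : 0 < (toG g).det.val := by
      rw [Matrix.GeneralLinearGroup.val_det_apply, det_toG hpos]; exact_mod_cast hpos
    ext
    rw [coe_smul_of_det_pos h1, hden, num, toG_val hpos, h]
    simp [hg]
  have hNc : (N : ℂ) = p * r := by
    have : ((N : ℤ) : ℂ) = ((p * r : ℤ) : ℂ) := by rw [hN]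
    push_cast at this
    exact this
  have hHA : ∀ (F : ℍ → ℂ) (k : ℕ), HA F k N g τ = (p : ℂ) ^ k * F τ' := by
    intro F k
    unfold HA
    rw [hfix, hden, hNc, mul_div_assoc, div_self hr0, mul_one]
  obtain ⟨s, hs, γ, hγ⟩ := exists_rep hN0 g hdet
  obtain ⟨ha', hd'⟩ := SN_pos hN0 hs
  have hposM := det_toM_pos ha' hd'
  have hHA2 : ∀ (F : ℍ → ℂ) (k : ℕ), WInv F k → HA F k N (toM s) τ = (p : ℂ) ^ k * F τ' := by
    intro F k hF
    rw [← hHA F k, hγ, HA_left hF hposM]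
  refine ⟨s, hs, ?_, ?_⟩
  · rw [xP, hHA2 _ _ WInv_E4]
  · rw [xQ, hHA2 _ _ WInv_E6]

end H32.T3

end S_T3_A5

section S_T3_A6

/-!
# Heights of ratios of weight two quantities at commensurable CM points
-/

open UpperHalfPlane hiding I
open Complex EisensteinSeries ModularForm MatrixGroups
open scoped Real

namespace H32.T3

open Height Height.AdmissibleAbsValues Finset NumberField

/-- The logarithmic derivative of `j`, up to sign. -/
noncomputable def Wf (w : ℂ) : ℂ := 2 * π * I * e6 w / e4 w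

lemma cm_uv {d w : ℕ} {u : ℤ} {v : ℕ} {s τ : ℂ} (hw : 1 ≤ w) (hs : s ^ 2 = -(d : ℂ))
    (hτ : τ = (u + v * s) / w) :
    (((w : ℤ) ^ 2 : ℤ) : ℂ) * τ ^ 2 + ((-2 * u * w : ℤ) : ℂ) * τ +
      ((u ^ 2 + (v : ℤ) ^ 2 * d : ℤ) : ℂ) = 0 := by
  have hw0 : (w : ℂ) ≠ 0 := by
    have : w ≠ 0 := by omega
    exact_mod_cast this
  have h1 : (w : ℂ) * τ = u + v * s := by rw [hτ]; field_simp
  push_cast
  linear_combination (w * τ - u + v * s) * h1 + (v : ℂ) ^ 2 * hs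

lemma cm_uv_bounds {H d w : ℕ} {u : ℤ} {v : ℕ} (hH : 2 ≤ H) (hd : d ≤ H) (hw1 : 1 ≤ w)
    (hw : w ≤ H) (hu : |u| ≤ H) (hv : v ≤ H) :
    0 < (w : ℤ) ^ 2 ∧ |(w : ℤ) ^ 2| ≤ (H ^ 4 : ℕ) ∧ |-2 * u * (w : ℤ)| ≤ (H ^ 4 : ℕ) ∧
      |u ^ 2 + (v : ℤ) ^ 2 * d| ≤ (H ^ 4 : ℕ) := by
  have hHz : (2 : ℤ) ≤ H := by exact_mod_cast hH
  have hHz1 : (1 : ℤ) ≤ H := by linarith
  have hwz : (w : ℤ) ≤ H := by exact_mod_cast hw
  have hvz : (v : ℤ) ≤ H := by exact_mod_cast hv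
  have hdz : (d : ℤ) ≤ H := by exact_mod_cast hd
  have hw0 : (0 : ℤ) < w := by exact_mod_cast hw1
  have h24 : (H : ℤ) ^ 2 ≤ (H : ℤ) ^ 4 := pow_le_pow_right₀ hHz1 (by norm_num)
  have h2 : 2 * (H : ℤ) ^ 2 ≤ (H : ℤ) ^ 4 := by
    have : (H : ℤ) ^ 4 = (H : ℤ) ^ 2 * (H : ℤ) ^ 2 := by ring
    rw [this]
    have h3 : (2 : ℤ) ≤ (H : ℤ) ^ 2 := by
      calc (2 : ℤ) ≤ H := hHz
        _ ≤ (H : ℤ) ^ 2 := le_self_pow₀ hHz1 (by norm_num)
    gcongr
  have h3 : (H : ℤ) ^ 2 + (H : ℤ) ^ 3 ≤ (H : ℤ) ^ 4 := by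
    have e1 : (H : ℤ) ^ 2 ≤ (H : ℤ) ^ 3 := pow_le_pow_right₀ hHz1 (by norm_num)
    have e2 : 2 * (H : ℤ) ^ 3 ≤ (H : ℤ) ^ 4 := by
      have : (H : ℤ) ^ 4 = (H : ℤ) * (H : ℤ) ^ 3 := by ring
      rw [this]
      gcongr
    linarith
  refine ⟨by positivity, ?_, ?_, ?_⟩
  · rw [abs_of_nonneg (by positivity)]
    push_cast
    calc (w : ℤ) ^ 2 ≤ (H : ℤ) ^ 2 := by gcongr
      _ ≤ _ := h24
  · rw [abs_mul, abs_mul, abs_neg, abs_two, Nat.abs_cast]
    push_cast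
    calc 2 * |u| * (w : ℤ) ≤ 2 * H * H := by gcongr
      _ = 2 * (H : ℤ) ^ 2 := by ring
      _ ≤ _ := h2
  · rw [abs_of_nonneg (by positivity)]
    push_cast
    have h4 : u ^ 2 ≤ (H : ℤ) ^ 2 := sq_le_sq' (by linarith [neg_abs_le u]) (by linarith [le_abs_self u])
    calc u ^ 2 + (v : ℤ) ^ 2 * d ≤ (H : ℤ) ^ 2 + (H : ℤ) ^ 2 * H := by gcongr
      _ = (H : ℤ) ^ 2 + (H : ℤ) ^ 3 := by ring
      _ ≤ _ := h3

/-- Ratios of weight two quantities at commensurable CM points. -/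
theorem ratio_heights : ∃ A : ℕ, ∀ (H d w : ℕ) (u0 u : ℤ) (v0 v : ℕ) (s : ℂ) (τ0 τ : ℍ), 2 ≤ H →
    d ≤ H → 1 ≤ w → w ≤ H → |u0| ≤ H → |u| ≤ H → 1 ≤ v0 → v0 ≤ H → 1 ≤ v → v ≤ H →
    s ^ 2 = -(d : ℂ) → (τ0 : ℂ) = (u0 + v0 * s) / w → (τ : ℂ) = (u + v * s) / w →
    E₄ τ0 ≠ 0 → E₆ τ0 ≠ 0 → E₄ τ ≠ 0 → E₆ τ ≠ 0 →
    ∃ K : IntermediateField ℚ ℂ, FiniteDimensional ℚ K ∧ Module.finrank ℚ K ≤ H ^ A ∧
      ∀ (L : Type) [Field L] [NumberField L] (σ : L →+* ℂ), (∀ x ∈ K, ∃ y, σ y = x) →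
        ∃ β : L, σ β = Wf τ / Wf τ0 ∧ HB ((H : ℝ) ^ A) β := by
  obtain ⟨A, hA⟩ := cm_heights
  obtain ⟨KK, hKK1, hKK⟩ := rel_PQ
  set k0 : ℕ := ⌈KK⌉₊ with hk0
  have hKk : KK ≤ 2 ^ k0 := by
    have h1 : KK ≤ (k0 : ℝ) := Nat.le_ceil KK
    have h2 : (k0 : ℝ) ≤ 2 ^ k0 := by exact_mod_cast (Nat.lt_two_pow_self (n := k0)).le
    exact h1.trans h2
  refine ⟨k0 + 4 * A + 120, fun H d w u0 u v0 v s τ0 τ hH hd hw1 hw hu0 hu hv01 hv0 hv1 hv hs
    hτ0 hτ h40 h60 h4 h6 ↦ ?_⟩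
  have hH1 : 1 ≤ H := by omega
  obtain ⟨c1, c2, c3, c4⟩ := cm_uv_bounds hH hd hw1 hw hu0 hv0
  have hH4 : 2 ≤ H ^ 4 := hH.trans (Nat.le_self_pow (by norm_num) H)
  obtain ⟨K0, hK0, hK0A, hL0⟩ := hA (H ^ 4) _ _ _ τ0 hH4 c1 c2 c3 c4 (cm_uv hw1 hs hτ0) h60
  -- the matrix
  set p : ℤ := v * w with hp
  set q : ℤ := u * v0 - v * u0 with hq
  set r : ℤ := v0 * w with hr
  set N : ℕ := (v * w) * (v0 * w) with hN
  have hp0 : 0 < p := by rw [hp]; positivity
  have hr0 : 0 < r := by rw [hr]; positivity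
  have hNpr : (N : ℤ) = p * r := by rw [hN, hp, hr]; push_cast; ring
  have hN0 : 0 < N := by rw [hN]; positivity
  have hw0 : (w : ℂ) ≠ 0 := by
    have : w ≠ 0 := by omega
    exact_mod_cast this
  have hv0' : (v0 : ℂ) ≠ 0 := by
    have : v0 ≠ 0 := by omega
    exact_mod_cast this
  have hττ : (τ : ℂ) = (p * τ0 + q) / r := by
    rw [hτ, hτ0, hp, hq, hr]
    push_cast
    field_simp
    ring
  obtain ⟨ss, hss, hsP, hsQ⟩ := ratio_eval hp0 hr0 hNpr τ0 τ hττ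
  obtain ⟨rP, rQ, m1, m2, dP, dQ, nP, nQ, eP, eQ⟩ := hKK N hN0
  set M := (SN N).card with hM
  have hpow : ∀ {i j : ℕ}, i ≤ j → H ^ i ≤ H ^ j := fun hij ↦ Nat.pow_le_pow_right hH1 hij
  have hN4 : N ≤ H ^ 4 := by
    calc N ≤ (H * H) * (H * H) := by rw [hN]; gcongr
      _ = H ^ 4 := by ring
  have hM8 : M ≤ H ^ 8 := by
    calc M ≤ N ^ 2 := card_SN_le hN0
      _ ≤ (H ^ 4) ^ 2 := Nat.pow_le_pow_left hN4 2
      _ = H ^ 8 := by ring
  have h2M : 2 * M ≤ H ^ 9 := by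
    calc 2 * M ≤ H * H ^ 8 := Nat.mul_le_mul hH hM8
      _ = H ^ 9 := by ring
  set S : ℝ := (H : ℝ) ^ (k0 + 104) with hS
  have hHr : (2 : ℝ) ≤ H := by exact_mod_cast hH
  have hHr1 : (1 : ℝ) ≤ H := by linarith
  have hexp : Real.exp (KK * (N : ℝ) ^ 26) ≤ Real.exp S := by
    apply Real.exp_le_exp.mpr
    have h1 : (N : ℝ) ≤ (H : ℝ) ^ 4 := by exact_mod_cast hN4
    calc KK * (N : ℝ) ^ 26 ≤ 2 ^ k0 * ((H : ℝ) ^ 4) ^ 26 := by gcongr
      _ ≤ (H : ℝ) ^ k0 * ((H : ℝ) ^ 4) ^ 26 := by gcongr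
      _ = _ := by rw [hS, ← pow_mul, ← pow_add]
  set P : ℂ := (p : ℂ) ^ 4 * E₄ τ * E₄ τ0 ^ 2 / discriminant τ0 with hP
  set Q : ℂ := (p : ℂ) ^ 6 * E₆ τ * E₆ τ0 / discriminant τ0 with hQ
  have hrelP : ∑ i ∈ range (M + 1), Polynomial.aeval (jf τ0) (rP i) * P ^ i = 0 := by
    rw [eP, prod_eq_zero hss, mul_zero]
    rw [hsP, pow_one, sub_self]
  have hrelQ : ∑ i ∈ range (M + 1), Polynomial.aeval (jf τ0) (rQ i) * Q ^ i = 0 := by
    rw [eQ, prod_eq_zero hss, mul_zero]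
    rw [hsQ, pow_one, sub_self]
  have hfac : ((M.factorial : ℤ)) ≠ 0 := by exact_mod_cast Nat.factorial_ne_zero _
  -- one more root
  have stepr : ∀ (K : IntermediateField ℚ ℂ) (_ : FiniteDimensional ℚ K) (_ : jf τ0 ∈ K)
      (r : ℕ → Polynomial ℤ) (_ : r M = Polynomial.C (M.factorial : ℤ)) (x : ℂ)
      (_ : ∑ i ∈ range (M + 1), Polynomial.aeval (jf τ0) (r i) * x ^ i = 0),
      ∃ K' : IntermediateField ℚ ℂ, K ≤ K' ∧ x ∈ K' ∧ FiniteDimensional ℚ K' ∧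
        Module.finrank ℚ K' ≤ Module.finrank ℚ K * M := by
    intro K hK hj r hr x hx
    set f : Polynomial K := ∑ i ∈ range (M + 1),
      Polynomial.C (Polynomial.aeval (⟨jf τ0, hj⟩ : K) (r i)) * Polynomial.X ^ i with hf
    have hfd : f.natDegree ≤ M := by
      refine Polynomial.natDegree_sum_le_of_forall_le _ _ fun i hi ↦ ?_
      exact (Polynomial.natDegree_C_mul_X_pow_le _ _).trans (Nat.lt_succ_iff.mp (mem_range.mp hi))
    have hcoe : ∀ p : Polynomial ℤ, ((Polynomial.aeval (⟨jf τ0, hj⟩ : K) p : K) : ℂ) =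
        Polynomial.aeval (jf τ0) p := by
      intro p
      have := Polynomial.aeval_algebraMap_apply ℂ (⟨jf τ0, hj⟩ : K) p
      exact this.symm
    have hf0 : f ≠ 0 := by
      intro h0
      have h1 := congrArg (fun p ↦ p.coeff M) h0
      simp only [hf, Polynomial.finsetSum_coeff, Polynomial.coeff_C_mul, Polynomial.coeff_X_pow,
        Polynomial.coeff_zero] at h1
      rw [sum_eq_single M] at h1
      · rw [if_pos rfl, mul_one, hr, Polynomial.aeval_C, algebraMap_int_eq, eq_intCast] at h1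
        exact hfac (by exact_mod_cast h1)
      · intro i _ hi
        rw [if_neg (Ne.symm hi), mul_zero]
      · intro hM
        exact absurd (mem_range.mpr (Nat.lt_succ_self M)) hM
    obtain ⟨K', a1, a2, a3, a4⟩ := one_step K x f hf0 (by
      rw [hf, map_sum, ← hx]
      refine sum_congr rfl fun i _ ↦ ?_
      rw [map_mul, Polynomial.aeval_C, map_pow, Polynomial.aeval_X]
      congr 1
      exact hcoe _)
    exact ⟨K', a1, a2, a3, a4.trans (Nat.mul_le_mul_left _ hfd)⟩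
  have hNF : NumberField K0 := { to_charZero := inferInstance, to_finiteDimensional := hK0 }
  have hjK : jf τ0 ∈ K0 := by
    obtain ⟨t, tb, J, φ, h1, h2, h3, h4, -, -, -, -⟩ := hL0 K0 (algebraMap K0 ℂ)
      (fun x hx ↦ ⟨⟨x, hx⟩, rfl⟩)
    rw [← h3]
    exact J.2
  obtain ⟨K1, hK1, hPK, hf1, hd1⟩ := stepr K0 hK0 hjK rP m1 P hrelP
  obtain ⟨K2, hK2, hQK, hf2, hd2⟩ := stepr K1 hf1 (hK1 hjK) rQ m2 Q hrelQ
  refine ⟨K2, hf2, ?_, fun L _ _ σ hσ ↦ ?_⟩
  · calc Module.finrank ℚ K2 ≤ ((H ^ 4) ^ A * H ^ 8) * H ^ 8 := by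
          refine hd2.trans (Nat.mul_le_mul ?_ hM8)
          exact hd1.trans (Nat.mul_le_mul hK0A hM8)
      _ = H ^ (4 * A + 16) := by ring
      _ ≤ _ := hpow (by omega)
  obtain ⟨t, tb, J, φ, -, -, hJ, -, -, -, bJ, -⟩ := hL0 L σ (fun x hx ↦ hσ x (hK2 (hK1 hx)))
  obtain ⟨yP, hyP⟩ := hσ P (hK2 hPK)
  obtain ⟨yQ, hyQ⟩ := hσ Q hQK
  have hinj : Function.Injective σ := σ.injective
  set R : ℝ := (H : ℝ) ^ (k0 + 4 * A + 104) with hR
  have hT : (((H ^ 4 : ℕ) : ℝ)) ^ A ≤ R := by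
    rw [hR]
    push_cast
    rw [← pow_mul]
    exact pow_le_pow_right₀ hHr1 (by omega)
  have hrp : ∀ {i j : ℕ}, i ≤ j → (H : ℝ) ^ i ≤ (H : ℝ) ^ j := fun hij ↦
    pow_le_pow_right₀ hHr1 hij
  have hSR : S ≤ R := hrp (by omega)
  have hMR : (M : ℝ) ≤ R := by
    have : (M : ℝ) ≤ (H : ℝ) ^ 8 := by exact_mod_cast hM8
    exact this.trans (hrp (by omega))
  have hDT : ((2 * M : ℕ) : ℝ) * (((H ^ 4 : ℕ) : ℝ)) ^ A ≤ R := by
    have h1 : ((2 * M : ℕ) : ℝ) ≤ (H : ℝ) ^ 9 := by exact_mod_cast h2M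
    calc ((2 * M : ℕ) : ℝ) * (((H ^ 4 : ℕ) : ℝ)) ^ A ≤ (H : ℝ) ^ 9 * (((H ^ 4 : ℕ) : ℝ)) ^ A := by
          gcongr
      _ = (H : ℝ) ^ (4 * A + 9) := by push_cast; ring
      _ ≤ R := hrp (by omega)
  have rootb : ∀ (r : ℕ → Polynomial ℤ) (_ : r M = Polynomial.C (M.factorial : ℤ))
      (_ : ∀ i, (r i).natDegree ≤ 2 * M) (_ : ∀ i, nr (r i) ≤ Real.exp (KK * (N : ℝ) ^ 26))
      (x : ℂ) (_ : ∑ i ∈ range (M + 1), Polynomial.aeval (jf τ0) (r i) * x ^ i = 0)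
      (y : L) (_ : σ y = x), HB (3 * R) y := by
    intro r hr hrd hrn x hx y hy
    have h := HB.root (ι := Fin 1) (x := fun _ ↦ J) (fun _ ↦ bJ) (n := M) (fun j ↦ mv (r j))
      (D := 2 * M) (fun j ↦ (deg_mv _).trans (hrd j)) (B := Real.exp S)
      (Real.one_le_exp (by positivity))
      (fun j ↦ (nrm_mv _).trans ((hrn j).trans hexp)) y ?_ ?_
    · refine h.mono ?_
      rw [Real.log_exp]
      simp only [Fintype.card_fin, Nat.cast_one, one_mul]
      linarith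
    · rw [aeval_mv, hr, Polynomial.aeval_C, algebraMap_int_eq, eq_intCast, Int.cast_ne_zero]
      exact hfac
    · apply hinj
      rw [map_zero, map_sum, ← hx]
      refine sum_congr rfl fun i _ ↦ ?_
      rw [aeval_mv, map_mul, map_pow, hy]
      congr 1
      rw [Polynomial.aeval_eq_sum_range, Polynomial.aeval_eq_sum_range, map_sum]
      refine sum_congr rfl fun k _ ↦ ?_
      rw [zsmul_eq_mul, zsmul_eq_mul, map_mul, map_pow, hJ, map_intCast]
  have bP := rootb rP m1 dP nP P hrelP yP hyP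
  have bQ := rootb rQ m2 dQ nQ Q hrelQ yQ hyQ
  have hp2 : HB R ((p ^ 2 : ℤ) : L) := (HB.int (p ^ 2)).mono (by
    have h1 : (p : ℝ) ≤ (H : ℝ) ^ 2 := by
      rw [hp]; push_cast
      have e1 : (v : ℝ) ≤ H := by exact_mod_cast hv
      have e2 : (w : ℝ) ≤ H := by exact_mod_cast hw
      calc (v : ℝ) * w ≤ H * H := by gcongr
        _ = _ := by ring
    have hp0' : (0 : ℝ) ≤ p := by exact_mod_cast hp0.le
    push_cast
    rw [abs_of_nonneg (by positivity)]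
    calc (p : ℝ) ^ 2 ≤ ((H : ℝ) ^ 2) ^ 2 := by gcongr
      _ = (H : ℝ) ^ 4 := by ring
      _ ≤ R := hrp (by omega))
  have h1728 : HB 1728 ((1728 : ℤ) : L) := (HB.int 1728).mono (by norm_num)
  have hβ := ((bQ.div bP).div hp2).mul (bJ.div (bJ.sub h1728))
  refine ⟨_, ?_, hβ.mono ?_⟩
  · rw [map_mul, map_div₀, map_div₀, map_div₀, map_sub, hyP, hyQ, hJ, map_intCast, map_intCast]
    have hΔ := discriminant_ne_zero τ0
    have hj := jf_sub τ0
    have hj2 := jf_mul τ0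
    have hJ1728 : jf τ0 - 1728 ≠ 0 := by
      intro h0
      rw [h0, zero_mul] at hj
      exact pow_ne_zero 2 h60 hj.symm
    have hh : jf τ0 / (jf τ0 - ((1728 : ℤ) : ℂ)) = E₄ τ0 ^ 3 / E₆ τ0 ^ 2 := by
      push_cast
      rw [← hj2, ← hj]
      field_simp
    rw [hh, hP, hQ, Wf, Wf, e4, e6, e4, e6, ofComplex_apply, ofComplex_apply]
    have hpi : (π : ℂ) ≠ 0 := by exact_mod_cast Real.pi_ne_zero
    have hpc : (p : ℂ) ≠ 0 := by exact_mod_cast hp0.ne'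
    have hI := Complex.I_ne_zero
    push_cast
    field_simp
  · have hR1 : 1 ≤ R := one_le_pow₀ hHr1
    have h1 : (2000 : ℝ) ≤ (H : ℝ) ^ 11 := by
      calc (2000 : ℝ) ≤ 2 ^ 11 := by norm_num
        _ ≤ _ := by gcongr
    calc _ ≤ 2000 * R := by linarith
      _ ≤ (H : ℝ) ^ 11 * R := by gcongr
      _ = (H : ℝ) ^ (k0 + 4 * A + 115) := by rw [hR]; ring
      _ ≤ _ := hrp (by omega)

end H32.T3

end S_T3_A6

section S_T3_D1

/-!
# Number fields attached to tuples of CM points in a common field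
-/

open UpperHalfPlane hiding I
open Complex EisensteinSeries ModularForm MatrixGroups Manifold
open scoped Real Topology

namespace H32.T3

open Height Height.AdmissibleAbsValues Finset NumberField Filter

/-- The last function: `2πi E₆ / E₄` for the indices with representative `a`, otherwise the quotient
of this function by its value at the representative. -/
noncomputable def wv {n : ℕ} (r : Fin n → Fin n) (a : Fin n) (w : Fin n → ℂ) (i : Fin n) : ℂ :=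
  if r i = a then Wf (w i) else Wf (w i) / Wf (w (r i))

/-- The functions: `w`, its conjugate, `j`, `E₂* E₄ / E₆`, and `wv`. -/
noncomputable def V5 {n : ℕ} (r : Fin n → Fin n) (a : Fin n) (w : Fin n → ℂ)
    (x : Fin n × Fin 5) : ℂ :=
  ![w x.1, (starRingEnd ℂ) (w x.1), jc (w x.1), ph (w x.1), wv r a w x.1] x.2

/-- The normalised functions. -/
noncomputable def Y5 {n : ℕ} (r : Fin n → Fin n) (w : Fin n → ℂ)
    (x : Fin n × Fin 5) : ℂ :=
  ![w x.1, (starRingEnd ℂ) (w x.1), jc (w x.1), ph (w x.1), Wf (w x.1) / Wf (w (r x.1))] x.2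

/-- Tuples of CM points; those with the same representative lie in a common imaginary quadratic
field. -/
def Tup (n H : ℕ) (r : Fin n → Fin n) (t : Fin n → ℍ) : Prop :=
  2 ≤ H ∧ ∃ (d w : Fin n → ℕ) (u : Fin n → ℤ) (v : Fin n → ℕ) (s : Fin n → ℂ),
    (∀ i, d i ≤ H ∧ 1 ≤ w i ∧ w i ≤ H ∧ |u i| ≤ H ∧ 1 ≤ v i ∧ v i ≤ H ∧
      s i ^ 2 = -(d i : ℂ) ∧ (t i : ℂ) = (u i + v i * s i) / w i) ∧
    ∀ i, d (r i) = d i ∧ s (r i) = s i

lemma finrank_fsup {ι : Type} (s : Finset ι) (F : ι → IntermediateField ℚ ℂ)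
    (hF : ∀ i ∈ s, FiniteDimensional ℚ (F i)) : FiniteDimensional ℚ (s.sup F : IntermediateField ℚ ℂ) ∧
      Module.finrank ℚ (s.sup F : IntermediateField ℚ ℂ) ≤ ∏ i ∈ s, Module.finrank ℚ (F i) := by
  classical
  induction s using Finset.induction_on with
  | empty =>
    rw [sup_empty, prod_empty]
    exact ⟨inferInstance, by rw [IntermediateField.finrank_bot]⟩
  | insert i t hi ih =>
    obtain ⟨h1, h2⟩ := ih fun j hj ↦ hF j (mem_insert_of_mem hj)
    have h3 := hF i (mem_insert_self _ _)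
    rw [sup_insert, prod_insert hi]
    refine ⟨IntermediateField.finiteDimensional_sup _ _, ?_⟩
    exact (IntermediateField.finrank_sup_le _ _).trans (Nat.mul_le_mul_left _ h2)

theorem field_n (n : ℕ) : ∃ A : ℕ, ∀ (r : Fin n → Fin n)
    (H : ℕ) (t : Fin n → ℍ), Tup n H r t →
    (∀ i, E₄ (t i) ≠ 0 ∧ E₆ (t i) ≠ 0) →
    ∃ K : IntermediateField ℚ ℂ, FiniteDimensional ℚ K ∧ Module.finrank ℚ K ≤ H ^ A ∧
      ∀ (L : Type) [Field L] [NumberField L] (σ : L →+* ℂ), (∀ x ∈ K, ∃ y, σ y = x) →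
        ∃ y : Fin n × Fin 5 → L, (∀ x, σ (y x) = Y5 r (fun i ↦ (t i : ℂ)) x) ∧
          ∀ x, HB ((H : ℝ) ^ A) (y x) := by
  obtain ⟨A, hA⟩ := cm_heights
  obtain ⟨A', hA'⟩ := ratio_heights
  refine ⟨(4 * A + 2 * A') * (n + 1), fun r H t hT hne ↦ ?_⟩
  obtain ⟨hH, d, w, u, v, s, huv, hcom⟩ := hT
  have hH1 : 1 ≤ H := by omega
  have hH4 : 2 ≤ H ^ 4 := hH.trans (Nat.le_self_pow (by norm_num) H)
  have hH2 : 2 ≤ H ^ 2 := hH.trans (Nat.le_self_pow (by norm_num) H)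
  have h1 : ∀ i, ∃ K : IntermediateField ℚ ℂ, FiniteDimensional ℚ K ∧
      Module.finrank ℚ K ≤ (H ^ 4) ^ A ∧
      ∀ (L : Type) [Field L] [NumberField L] (σ : L →+* ℂ), (∀ x ∈ K, ∃ y, σ y = x) →
        ∃ t' tb J φ : L, σ t' = t i ∧ σ tb = (starRingEnd ℂ) (t i) ∧ σ J = jf (t i) ∧
          σ φ = E2s (t i) * E₄ (t i) / E₆ (t i) ∧ HB (((H ^ 4 : ℕ) : ℝ) ^ A) t' ∧
          HB (((H ^ 4 : ℕ) : ℝ) ^ A) tb ∧
          HB (((H ^ 4 : ℕ) : ℝ) ^ A) J ∧ HB (((H ^ 4 : ℕ) : ℝ) ^ A) φ := by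
    intro i
    obtain ⟨hd, hw1, hw, hu, hv1, hv, hs, ht⟩ := huv i
    obtain ⟨c1, c2, c3, c4⟩ := cm_uv_bounds hH hd hw1 hw hu hv
    exact hA (H ^ 4) _ _ _ (t i) hH4 c1 c2 c3 c4 (cm_uv hw1 hs ht) (hne i).2
  have hHr1 : (1 : ℝ) ≤ H := by exact_mod_cast hH1
  have h2 : ∀ i, ∃ K : IntermediateField ℚ ℂ, FiniteDimensional ℚ K ∧
      Module.finrank ℚ K ≤ (H ^ 2) ^ A' ∧
      ∀ (L : Type) [Field L] [NumberField L] (σ : L →+* ℂ), (∀ x ∈ K, ∃ y, σ y = x) →
        ∃ β : L, σ β = Wf (t i) / Wf (t (r i)) ∧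
          HB (((H ^ 2 : ℕ) : ℝ) ^ A') β := by
    intro i
    obtain ⟨hd, hw1, hw, hu, hv1, hv, hs, ht⟩ := huv i
    obtain ⟨hd0, hw01, hw0, hu0, hv01, hv0, hs0, ht0⟩ := huv (r i)
    obtain ⟨hda, hsa⟩ := hcom i
    have hwi : (w i : ℂ) ≠ 0 := by
      have : w i ≠ 0 := by omega
      exact_mod_cast this
    have hwa : (w (r i) : ℂ) ≠ 0 := by
      have : w (r i) ≠ 0 := by omega
      exact_mod_cast this
    have hdH : d i ≤ H ^ 2 := hd.trans (Nat.le_self_pow (by norm_num) H)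
    have hww : w i * w (r i) ≤ H ^ 2 := by rw [pow_two]; exact Nat.mul_le_mul hw hw0
    have hww1 : 1 ≤ w i * w (r i) := Nat.one_le_iff_ne_zero.mpr (by positivity)
    have hua : |u (r i) * (w i : ℤ)| ≤ ((H ^ 2 : ℕ) : ℤ) := by
      rw [abs_mul, Nat.abs_cast]
      have : (w i : ℤ) ≤ H := by exact_mod_cast hw
      push_cast
      rw [pow_two]
      exact mul_le_mul hu0 this (Int.natCast_nonneg _) (Int.natCast_nonneg _)
    have hui : |u i * (w (r i) : ℤ)| ≤ ((H ^ 2 : ℕ) : ℤ) := by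
      rw [abs_mul, Nat.abs_cast]
      have : (w (r i) : ℤ) ≤ H := by exact_mod_cast hw0
      push_cast
      rw [pow_two]
      exact mul_le_mul hu this (Int.natCast_nonneg _) (Int.natCast_nonneg _)
    have hva1 : 1 ≤ v (r i) * w i := Nat.one_le_iff_ne_zero.mpr (by positivity)
    have hva : v (r i) * w i ≤ H ^ 2 := by rw [pow_two]; exact Nat.mul_le_mul hv0 hw
    have hvi1 : 1 ≤ v i * w (r i) := Nat.one_le_iff_ne_zero.mpr (by positivity)
    have hvi : v i * w (r i) ≤ H ^ 2 := by rw [pow_two]; exact Nat.mul_le_mul hv hw0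
    have e1 : (t (r i) : ℂ) = (((u (r i) * (w i : ℤ) : ℤ) : ℂ) +
        ((v (r i) * w i : ℕ) : ℂ) * s i) / ((w i * w (r i) : ℕ) : ℂ) := by
      rw [ht0, hsa]
      push_cast
      field_simp
    have e2 : (t i : ℂ) = (((u i * (w (r i) : ℤ) : ℤ) : ℂ) +
        ((v i * w (r i) : ℕ) : ℂ) * s i) / ((w i * w (r i) : ℕ) : ℂ) := by
      rw [ht]
      push_cast
      field_simp
    exact hA' (H ^ 2) (d i) (w i * w (r i)) (u (r i) * (w i : ℤ)) (u i * (w (r i) : ℤ))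
      (v (r i) * w i) (v i * w (r i)) (s i) (t (r i)) (t i) hH2 hdH hww1 hww hua hui hva1 hva
      hvi1 hvi hs e1 e2 (hne (r i)).1 (hne (r i)).2 (hne i).1 (hne i).2
  choose K1 f1 q1 l1 using h1
  choose K2 f2 q2 l2 using h2
  have hfd : ∀ i ∈ (univ : Finset (Fin n)),
      FiniteDimensional ℚ (K1 i ⊔ K2 i : IntermediateField ℚ ℂ) := fun i _ ↦ by
    have := f1 i
    have := f2 i
    exact IntermediateField.finiteDimensional_sup _ _
  obtain ⟨g1, g2⟩ := finrank_fsup univ (fun i ↦ K1 i ⊔ K2 i) hfd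
  set K : IntermediateField ℚ ℂ := univ.sup (fun i ↦ K1 i ⊔ K2 i) with hK
  have hle1 : ∀ i, K1 i ≤ K := fun i ↦ le_sup_left.trans
    (Finset.le_sup (f := fun i ↦ K1 i ⊔ K2 i) (mem_univ i))
  have hle2 : ∀ i, K2 i ≤ K := fun i ↦ le_sup_right.trans
    (Finset.le_sup (f := fun i ↦ K1 i ⊔ K2 i) (mem_univ i))
  refine ⟨K, g1, ?_, fun L _ _ σ hσ ↦ ?_⟩
  · refine g2.trans ?_
    calc ∏ i, Module.finrank ℚ (K1 i ⊔ K2 i : IntermediateField ℚ ℂ)
        ≤ ∏ _i : Fin n, ((H ^ 4) ^ A * (H ^ 2) ^ A') := by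
          refine prod_le_prod (fun _ _ ↦ Nat.zero_le _) fun i _ ↦ ?_
          exact (IntermediateField.finrank_sup_le _ _).trans (Nat.mul_le_mul (q1 i) (q2 i))
      _ = H ^ ((4 * A + 2 * A') * n) := by
          rw [prod_const, card_univ, Fintype.card_fin, ← pow_mul, ← pow_mul, ← pow_add, ← pow_mul]
      _ ≤ _ := Nat.pow_le_pow_right hH1 (Nat.mul_le_mul_left _ (by omega))
  · have e1 := fun i ↦ l1 i L σ (fun x hx ↦ hσ x (hle1 i hx))
    have e2 := fun i ↦ l2 i L σ (fun x hx ↦ hσ x (hle2 i hx))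
    choose yt ytb yJ yφ s1 s2 s3 s4 b1 b2 b3 b4 using e1
    choose yβ s5 b5 using e2
    have hT1 : ((H ^ 4 : ℕ) : ℝ) ^ A ≤ (H : ℝ) ^ ((4 * A + 2 * A') * (n + 1)) := by
      push_cast
      rw [← pow_mul]
      exact pow_le_pow_right₀ hHr1 (by nlinarith)
    have hT2 : ((H ^ 2 : ℕ) : ℝ) ^ A' ≤ (H : ℝ) ^ ((4 * A + 2 * A') * (n + 1)) := by
      push_cast
      rw [← pow_mul]
      exact pow_le_pow_right₀ hHr1 (by nlinarith)
    refine ⟨fun x ↦ ![yt x.1, ytb x.1, yJ x.1, yφ x.1, yβ x.1] x.2, ?_, ?_⟩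
    · rintro ⟨i, l⟩
      fin_cases l
      · exact s1 i
      · exact s2 i
      · exact (s3 i).trans (jc_coe (t i)).symm
      · exact (s4 i).trans (ph_coe (t i)).symm
      · exact s5 i
    · rintro ⟨i, l⟩
      fin_cases l
      · exact (b1 i).mono hT1
      · exact (b2 i).mono hT1
      · exact (b3 i).mono hT1
      · exact (b4 i).mono hT1
      · exact (b5 i).mono hT2

/-- Liouville inequality for tuples. -/
theorem liouville_n (n : ℕ) : ∃ A : ℕ, ∀ (r : Fin n → Fin n)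
    (G : MvPolynomial (Fin n × Fin 5) ℤ),
    ∃ C : ℝ, 0 ≤ C ∧ ∀ (H : ℕ) (t : Fin n → ℍ), Tup n H r t →
    (∀ i, E₄ (t i) ≠ 0 ∧ E₆ (t i) ≠ 0) →
    MvPolynomial.aeval (Y5 r (fun i ↦ (t i : ℂ))) G = 0 ∨
      Real.exp (-(C * (H : ℝ) ^ A)) ≤ ‖MvPolynomial.aeval (Y5 r (fun i ↦ (t i : ℂ))) G‖ := by
  obtain ⟨A, hA⟩ := field_n n
  refine ⟨2 * A, fun r G ↦ ⟨Real.log (max 1 (nrm G)) + (5 * n : ℕ) * G.totalDegree, ?_, ?_⟩⟩
  · have := Real.log_nonneg (le_max_left 1 (nrm G))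
    positivity
  intro H t hT hne
  obtain ⟨K, hK, hKA, hL⟩ := hA r H t hT hne
  have hNF : NumberField K := { to_charZero := inferInstance, to_finiteDimensional := hK }
  obtain ⟨v, hv, hvb⟩ := hL K (algebraMap K ℂ) (fun x hx ↦ ⟨⟨x, hx⟩, rfl⟩)
  have hval : algebraMap K ℂ (MvPolynomial.aeval v G) =
      MvPolynomial.aeval (Y5 r (fun i ↦ (t i : ℂ))) G := by
    have h5 := MvPolynomial.comp_aeval_apply v (algebraMap K ℂ).toIntAlgHom G
    have h6 : (fun i ↦ (algebraMap K ℂ).toIntAlgHom (v i)) = Y5 r (fun i ↦ (t i : ℂ)) := by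
      ext x
      exact hv x
    rw [h6] at h5
    exact h5
  by_cases h0 : MvPolynomial.aeval (Y5 r (fun i ↦ (t i : ℂ))) G = 0
  · exact Or.inl h0
  right
  have hy : MvPolynomial.aeval v G ≠ 0 := by
    intro h5
    rw [h5, map_zero] at hval
    exact h0 hval.symm
  have h5 := liouville (algebraMap K ℂ) hy
  rw [hval] at h5
  refine le_trans ?_ h5
  have h6 := HB.aeval hvb G le_rfl (le_max_left 1 (nrm G)) (le_max_right _ _)
  unfold HB at h6
  have hH1 : (1 : ℝ) ≤ (H : ℝ) ^ A := by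
    apply one_le_pow₀
    have : (2 : ℝ) ≤ H := by exact_mod_cast hT.1
    linarith
  have hd : (totalWeight K : ℝ) ≤ (H : ℝ) ^ A := by
    rw [totalWeight_eq_finrank]
    exact_mod_cast hKA
  have hlog := Real.log_nonneg (le_max_left 1 (nrm G))
  have hcard : Fintype.card (Fin n × Fin 5) = 5 * n := by
    rw [Fintype.card_prod, Fintype.card_fin, Fintype.card_fin, mul_comm]
  have h7 : logHeight₁ (MvPolynomial.aeval v G) ≤
      (Real.log (max 1 (nrm G)) + (5 * n : ℕ) * G.totalDegree) * (H : ℝ) ^ (2 * A) := by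
    refine h6.trans ?_
    rw [hcard]
    have h8 : (H : ℝ) ^ (2 * A) = (H : ℝ) ^ A * (H : ℝ) ^ A := by ring
    rw [h8, ← mul_assoc]
    have h9 : Real.log (max 1 (nrm G)) + (5 * n : ℕ) * G.totalDegree * (H : ℝ) ^ A ≤
        (Real.log (max 1 (nrm G)) + (5 * n : ℕ) * G.totalDegree) * (H : ℝ) ^ A := by
      rw [add_mul]
      have := le_mul_of_one_le_right hlog hH1
      linarith
    gcongr
  rw [Real.exp_neg]
  apply inv_anti₀ (mulHeight₁_pos _)
  rw [logHeight₁_eq_log_mulHeight₁, Real.log_le_iff_le_exp (mulHeight₁_pos _)] at h7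
  exact h7

end H32.T3

end S_T3_D1

section S_T3_D2

/-!
# Algebraic points attached to roots of specialised relations, several points
-/

open UpperHalfPlane hiding I
open Complex EisensteinSeries ModularForm MatrixGroups Manifold
open scoped Real Topology

namespace H32.T3

open Height Height.AdmissibleAbsValues Finset NumberField Filter

lemma ps_eq (τ : ℍ) (h4 : E₄ τ ≠ 0) (h6 : E₆ τ ≠ 0) :
    ps τ = ph τ - 12 / (((τ : ℂ) - (starRingEnd ℂ) τ) * Wf τ) := by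
  have hpi : (π : ℂ) ≠ 0 := by exact_mod_cast Real.pi_ne_zero
  have him : ((τ.im : ℝ) : ℂ) ≠ 0 := by exact_mod_cast τ.im_pos.ne'
  have hsub : (τ : ℂ) - (starRingEnd ℂ) τ = 2 * ((τ.im : ℝ) : ℂ) * Complex.I := by
    rw [Complex.sub_conj, UpperHalfPlane.coe_im]
    push_cast
    ring
  rw [hsub, ps, ph, Wf, e2, e4, e6, ofComplex_apply, UpperHalfPlane.coe_im]
  field_simp
  ring_nf
  rw [Complex.I_sq]
  ring

/-- The number field attached to a root. -/
theorem point_bound_n (n : ℕ) : ∃ A : ℕ, ∀ (r : Fin n → Fin n) (a : Fin n)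
    (G : ℕ → MvPolynomial (Fin n × Fin 5) ℤ) (m : ℕ), ∃ C1 : ℕ,
    ∀ (H : ℕ) (t : Fin n → ℍ), Tup n H r t →
    (∀ i, E₄ (t i) ≠ 0 ∧ E₆ (t i) ≠ 0) →
    MvPolynomial.aeval (Y5 r (fun i ↦ (t i : ℂ))) (G m) ≠ 0 → ∀ e ρ : ℂ,
    4 * e ^ 3 - 2 * (27 / 2 * (E₄ (t a) ^ 3 / E₆ (t a) ^ 2)) * e -
        2 * (27 / 2 * (E₄ (t a) ^ 3 / E₆ (t a) ^ 2)) = 0 →
    ∑ i ∈ range (m + 1), MvPolynomial.aeval (Y5 r (fun i ↦ (t i : ℂ))) (G i) * ρ ^ i = 0 →
    ∃ (L : Type) (_ : Field L) (_ : NumberField L) (s : L →+* ℂ) (x0 x3 x4 : L),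
      s x0 = e ∧ s x3 = 27 / 2 * (E₄ (t a) ^ 3 / E₆ (t a) ^ 2) ∧
      s x4 = 3 / 2 * (ph (t a) - 12 / (((t a : ℂ) - (starRingEnd ℂ) (t a)) * ρ)) ∧
      totalWeight L ≤ C1 * H ^ (2 * A) ∧
      mulHeight₁ x0 ≤ Real.exp ((C1 * H ^ (2 * A) : ℕ) : ℝ) ∧
      mulHeight₁ x3 ≤ Real.exp ((C1 * H ^ (2 * A) : ℕ) : ℝ) ∧
      mulHeight₁ x4 ≤ Real.exp ((C1 * H ^ (2 * A) : ℕ) : ℝ) := by
  obtain ⟨A, hA⟩ := field_n n
  refine ⟨A, fun r a G m ↦ ?_⟩
  set D : ℕ := ∑ i ∈ range (m + 1), (G i).totalDegree with hD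
  set B : ℝ := 1 + ∑ i ∈ range (m + 1), nrm (G i) with hB
  have hBs : 0 ≤ ∑ i ∈ range (m + 1), nrm (G i) := sum_nonneg fun i _ ↦ nrm_nonneg _
  have hB1 : 1 ≤ B := by rw [hB]; linarith
  have hlB : 0 ≤ Real.log B := Real.log_nonneg hB1
  -- the budget
  set N5 : ℕ := 5 * n with hN5
  set Q : ℝ := 2000 + m + Real.log B + N5 * D with hQ
  set C1 : ℕ := ⌈Q⌉₊ * (3 * m + 1) with hC1
  refine ⟨C1, fun H t hTup hne hGm e ρ he hρ ↦ ?_⟩
  obtain ⟨K, hK, hKA, hL⟩ := hA r H t hTup hne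
  have hH : 2 ≤ H := hTup.1
  have hH2 : (2 : ℝ) ≤ H := by exact_mod_cast hH
  have hT1 : (1 : ℝ) ≤ (H : ℝ) ^ A := one_le_pow₀ (by linarith)
  set T : ℝ := (H : ℝ) ^ A with hT
  set τ := t a with hτ
  have h6 : E₆ τ ≠ 0 := (hne a).2
  have hΔ := discriminant_ne_zero τ
  have hJ1728 : jf τ - 1728 ≠ 0 := by
    intro h0
    have := jf_sub τ
    rw [h0, zero_mul] at this
    exact pow_ne_zero 2 h6 this.symm
  have hh : 27 / 2 * (E₄ τ ^ 3 / E₆ τ ^ 2) = 27 / 2 * (jf τ / (jf τ - 1728)) := by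
    congr 1
    rw [← jf_mul, ← jf_sub]
    field_simp
  set h := 27 / 2 * (E₄ τ ^ 3 / E₆ τ ^ 2) with hhdef
  have hcard : Fintype.card (Fin n × Fin 5) = N5 := by
    rw [Fintype.card_prod, Fintype.card_fin, Fintype.card_fin, mul_comm]
  -- first step: adjoin `ρ`
  have hNF : NumberField K := { to_charZero := inferInstance, to_finiteDimensional := hK }
  obtain ⟨v, hv, -⟩ := hL K (algebraMap K ℂ) (fun x hx ↦ ⟨⟨x, hx⟩, rfl⟩)
  have hval : ∀ P : MvPolynomial (Fin n × Fin 5) ℤ,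
      algebraMap K ℂ (MvPolynomial.aeval v P) =
        MvPolynomial.aeval (Y5 r (fun i ↦ (t i : ℂ))) P := by
    intro P
    have h5 := MvPolynomial.comp_aeval_apply v (algebraMap K ℂ).toIntAlgHom P
    have h6 : (fun i ↦ (algebraMap K ℂ).toIntAlgHom (v i)) = Y5 r (fun i ↦ (t i : ℂ)) := by
      ext x
      exact hv x
    rw [h6] at h5
    exact h5
  set f : Polynomial K := ∑ i ∈ range (m + 1),
    Polynomial.C (MvPolynomial.aeval v (G i)) * Polynomial.X ^ i with hf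
  have hfd : f.natDegree ≤ m := by
    refine Polynomial.natDegree_sum_le_of_forall_le _ _ fun i hi ↦ ?_
    exact (Polynomial.natDegree_C_mul_X_pow_le _ _).trans (Nat.lt_succ_iff.mp (mem_range.mp hi))
  have hf0 : f ≠ 0 := by
    intro h0
    have h1 := congrArg (fun p ↦ p.coeff m) h0
    simp only [hf, Polynomial.finsetSum_coeff, Polynomial.coeff_C_mul, Polynomial.coeff_X_pow,
      Polynomial.coeff_zero] at h1
    rw [sum_eq_single m] at h1
    · rw [if_pos rfl, mul_one] at h1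
      apply hGm
      rw [← hval, h1, map_zero]
    · intro i _ hi
      rw [if_neg (Ne.symm hi), mul_zero]
    · intro hM
      exact absurd (mem_range.mpr (Nat.lt_succ_self m)) hM
  obtain ⟨K1, hK1, hρ1, hf1, hd1⟩ := one_step K ρ f hf0 (by
    rw [hf, map_sum, ← hρ]
    refine sum_congr rfl fun i _ ↦ ?_
    rw [map_mul, Polynomial.aeval_C, map_pow, Polynomial.aeval_X, hval])
  -- second step: adjoin `e`
  have hhK : h ∈ K1 := by
    rw [hh]
    have hJK : jf τ ∈ K1 := by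
      apply hK1
      have : jf τ = algebraMap K ℂ (v (a, 2)) := by
        rw [hv]
        exact (jc_coe τ).symm
      rw [this]
      exact (v (a, 2)).2
    have h27 : (27 / 2 : ℂ) ∈ K1 := by
      have : (27 / 2 : ℂ) = algebraMap ℚ ℂ (27 / 2) := by simp
      rw [this]
      exact K1.algebraMap_mem _
    have h17 : (1728 : ℂ) ∈ K1 := by
      have : (1728 : ℂ) = algebraMap ℚ ℂ 1728 := by simp
      rw [this]
      exact K1.algebraMap_mem _
    exact K1.mul_mem h27 (K1.div_mem hJK (K1.sub_mem hJK h17))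
  set g : Polynomial K1 := Polynomial.C 4 * Polynomial.X ^ 3 -
    Polynomial.C (2 * ⟨h, hhK⟩) * Polynomial.X - Polynomial.C (2 * ⟨h, hhK⟩) with hg
  have hgd : g.natDegree ≤ 3 := by
    rw [hg]
    compute_degree
  have hg0 : g ≠ 0 := by
    intro h0
    have h1 := congrArg (fun p ↦ p.coeff 3) h0
    simp only [hg, Polynomial.coeff_sub, Polynomial.coeff_C_mul, Polynomial.coeff_X_pow,
      Polynomial.coeff_X, Polynomial.coeff_C, Polynomial.coeff_zero] at h1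
    norm_num at h1
  obtain ⟨K2, hK2, he2, hf2, hd2⟩ := one_step K1 e g hg0 (by
    rw [hg, map_sub, map_sub, map_mul, map_mul, map_pow, Polynomial.aeval_X, Polynomial.aeval_C,
      Polynomial.aeval_C, ← he]
    have e1 : algebraMap K1 ℂ (2 * ⟨h, hhK⟩) = 2 * h := rfl
    rw [e1]
    rfl)
  have hNF2 : NumberField K2 := { to_charZero := inferInstance, to_finiteDimensional := hf2 }
  obtain ⟨v', hv', hvb⟩ := hL K2 (algebraMap K2 ℂ) (fun x hx ↦ ⟨⟨x, hK2 (hK1 hx)⟩, rfl⟩)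
  have hval' : ∀ P : MvPolynomial (Fin n × Fin 5) ℤ,
      algebraMap K2 ℂ (MvPolynomial.aeval v' P) =
        MvPolynomial.aeval (Y5 r (fun i ↦ (t i : ℂ))) P := by
    intro P
    have h5 := MvPolynomial.comp_aeval_apply v' (algebraMap K2 ℂ).toIntAlgHom P
    have h6 : (fun i ↦ (algebraMap K2 ℂ).toIntAlgHom (v' i)) = Y5 r (fun i ↦ (t i : ℂ)) := by
      ext x
      exact hv' x
    rw [h6] at h5
    exact h5
  set rt : K2 := ⟨ρ, hK2 hρ1⟩ with hrt
  set ee : K2 := ⟨e, he2⟩ with hee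
  have hJ' : algebraMap K2 ℂ (v' (a, 2)) = jf τ := (hv' (a, 2)).trans (jc_coe τ)
  have ht' : algebraMap K2 ℂ (v' (a, 0)) = (τ : ℂ) := hv' (a, 0)
  have htb' : algebraMap K2 ℂ (v' (a, 1)) = (starRingEnd ℂ) (τ : ℂ) := hv' (a, 1)
  have hph' : algebraMap K2 ℂ (v' (a, 3)) = ph τ := hv' (a, 3)
  set x3 : K2 := ((27 : ℤ) : K2) / ((2 : ℤ) : K2) *
    (v' (a, 2) / (v' (a, 2) - ((1728 : ℤ) : K2))) with hx3
  have hx3v : algebraMap K2 ℂ x3 = h := by
    rw [hx3, hh, map_mul, map_div₀, map_div₀, map_sub, hJ', map_intCast, map_intCast, map_intCast]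
    push_cast
    rfl
  -- heights
  have hx3b : HB (2 * T + 1758) x3 :=
    (((HB.int 27).div (HB.int 2)).mul ((hvb (a, 2)).div ((hvb (a, 2)).sub (HB.int 1728)))).mono (by
      norm_num
      linarith)
  have hrb : HB (m + Real.log B + N5 * D * T) rt := by
    have hroot := HB.root hvb (n := m) (fun j ↦ if j ≤ m then G j else 0) (D := D)
      (fun j ↦ by
        split_ifs with hj
        · exact single_le_sum (f := fun i ↦ (G i).totalDegree) (fun _ _ ↦ Nat.zero_le _)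
            (mem_range.mpr (Nat.lt_succ_of_le hj))
        · simp) (B := B) hB1 (fun j ↦ by
        split_ifs with hj
        · have := single_le_sum (f := fun i ↦ nrm (G i)) (fun _ _ ↦ nrm_nonneg _)
            (mem_range.mpr (Nat.lt_succ_of_le hj))
          rw [hB]
          linarith
        · rw [nrm_zero]; linarith) rt ?_ ?_
    · refine hroot.mono ?_
      rw [hcard]
    · rw [if_pos le_rfl]
      intro h0
      apply hGm
      rw [← hval', h0, map_zero]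
    · apply (algebraMap K2 ℂ).injective
      rw [map_zero, map_sum, ← hρ]
      refine sum_congr rfl fun i hi ↦ ?_
      rw [if_pos (Nat.lt_succ_iff.mp (mem_range.mp hi)), map_mul, map_pow, hval']
      rfl
  set x4 : K2 := ((3 : ℤ) : K2) / ((2 : ℤ) : K2) *
    (v' (a, 3) - ((12 : ℤ) : K2) / ((v' (a, 0) - v' (a, 1)) * rt)) with hx4
  have hx4b : HB (3 * T + 19 + (m + Real.log B + N5 * D * T)) x4 :=
    (((HB.int 3).div (HB.int 2)).mul ((hvb (a, 3)).sub ((HB.int 12).div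
      (((hvb (a, 0)).sub (hvb (a, 1))).mul hrb)))).mono (by
        norm_num
        linarith)
  have hx4v : algebraMap K2 ℂ x4 =
      3 / 2 * (ph τ - 12 / (((τ : ℂ) - (starRingEnd ℂ) τ) * ρ)) := by
    have e1 : algebraMap K2 ℂ rt = ρ := rfl
    rw [hx4, map_mul, map_div₀, map_sub, map_div₀, map_mul, map_sub, hph', ht', htb', e1,
      map_intCast, map_intCast, map_intCast]
    push_cast
    rfl
  have heb : HB (2 * T + 1765) ee := by
    have hroot := HB.root (ι := Fin 1) (x := fun _ ↦ x3) (fun _ ↦ hx3b) (n := 3)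
      (fun j ↦ if j = 0 then MvPolynomial.C (-2) * MvPolynomial.X 0 else
        if j = 1 then MvPolynomial.C (-2) * MvPolynomial.X 0 else
        if j = 3 then MvPolynomial.C 4 else 0) (D := 1)
      (fun j ↦ by
        have e1 : (MvPolynomial.C (-2) * MvPolynomial.X 0 :
            MvPolynomial (Fin 1) ℤ).totalDegree ≤ 1 := by
          refine (MvPolynomial.totalDegree_mul _ _).trans ?_
          rw [MvPolynomial.totalDegree_C, MvPolynomial.totalDegree_X]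
        split_ifs
        · exact e1
        · exact e1
        · rw [MvPolynomial.totalDegree_C]; norm_num
        · simp) (B := 4) (by norm_num) (fun j ↦ by
        have e1 : nrm (MvPolynomial.C (-2) * MvPolynomial.X 0 : MvPolynomial (Fin 1) ℤ) ≤ 4 := by
          refine (nrm_mul_le _ _).trans ?_
          rw [nrm_C, nrm_X]
          norm_num
        split_ifs
        · exact e1
        · exact e1
        · rw [nrm_C]; norm_num
        · rw [nrm_zero]; norm_num) ee ?_ ?_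
    · refine hroot.mono ?_
      have h4 : Real.log 4 ≤ 4 - 1 := Real.log_le_sub_one_of_pos (by norm_num)
      simp only [Fintype.card_fin, Nat.cast_one, one_mul, Nat.cast_ofNat]
      linarith
    · rw [if_neg (by norm_num), if_neg (by norm_num), if_pos rfl, MvPolynomial.aeval_C]
      simp
    · clear_value x3
      have hrel : 4 * ee ^ 3 - 2 * x3 * ee - 2 * x3 = 0 := by
        apply (algebraMap K2 ℂ).injective
        have e1 : algebraMap K2 ℂ ee = e := rfl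
        simp only [map_zero, map_sub, map_mul, map_pow, hx3v, map_ofNat, e1]
        exact he
      simp only [sum_range_succ, sum_range_zero]
      norm_num [MvPolynomial.aeval_C, MvPolynomial.aeval_X]
      linear_combination hrel
  have hd : Module.finrank ℚ K2 ≤ H ^ A * (3 * m + 1) := by
    calc Module.finrank ℚ K2 ≤ Module.finrank ℚ K1 * 3 := hd2.trans (Nat.mul_le_mul_left _ hgd)
      _ ≤ (Module.finrank ℚ K * m) * 3 :=
        Nat.mul_le_mul_right _ (hd1.trans (Nat.mul_le_mul_left _ hfd))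
      _ ≤ (H ^ A * m) * 3 := by gcongr
      _ = H ^ A * (3 * m) := by ring
      _ ≤ H ^ A * (3 * m + 1) := by gcongr; omega
  have hQ0 : 0 ≤ Q := by
    rw [hQ]
    positivity
  have hQceil : Q ≤ (⌈Q⌉₊ : ℝ) := Nat.le_ceil Q
  have hC1' : (C1 : ℝ) * T ^ 2 = ⌈Q⌉₊ * T * (T * (3 * m + 1)) := by
    rw [hC1]; push_cast; ring
  have hd' : (totalWeight K2 : ℝ) ≤ T * (3 * m + 1) := by
    rw [totalWeight_eq_finrank, hT]
    exact_mod_cast hd
  have hfin : ∀ (S : ℝ) (x : K2), 0 ≤ S → HB S x → S ≤ Q * T →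
      mulHeight₁ x ≤ Real.exp ((C1 * H ^ (2 * A) : ℕ) : ℝ) := by
    intro S x hS hx hSQ
    unfold HB at hx
    rw [← Real.log_le_iff_le_exp (mulHeight₁_pos _), ← logHeight₁_eq_log_mulHeight₁]
    have e1 : ((C1 * H ^ (2 * A) : ℕ) : ℝ) = C1 * T ^ 2 := by
      rw [hT]; push_cast; ring
    rw [e1, hC1']
    calc logHeight₁ x ≤ S * totalWeight K2 := hx
      _ ≤ (⌈Q⌉₊ * T) * (T * (3 * m + 1)) := by
        have : S ≤ ⌈Q⌉₊ * T := hSQ.trans (by gcongr)
        gcongr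
  have hQT : Q * T = 2000 * T + m * T + Real.log B * T + N5 * D * T := by rw [hQ]; ring
  have hnT : (m : ℝ) ≤ m * T := le_mul_of_one_le_right (by positivity) hT1
  have hlT : Real.log B ≤ Real.log B * T := le_mul_of_one_le_right hlB hT1
  have hDT0 : (0 : ℝ) ≤ N5 * D * T := by positivity
  have hnT0 : (0 : ℝ) ≤ m * T := by positivity
  have hlT0 : (0 : ℝ) ≤ Real.log B * T := by positivity
  refine ⟨K2, inferInstance, hNF2, algebraMap K2 ℂ, ee, x3, x4,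
    rfl, hx3v, hx4v, ?_, hfin _ _ (by positivity) heb ?_, hfin _ _ (by positivity) hx3b ?_,
    hfin _ _ (by positivity) hx4b ?_⟩
  · rw [totalWeight_eq_finrank]
    refine hd.trans ?_
    have h5 : 1 ≤ ⌈Q⌉₊ := by
      rw [Nat.one_le_ceil_iff, hQ]
      positivity
    have h6 : 1 ≤ H ^ A := Nat.one_le_pow _ _ (by omega)
    calc H ^ A * (3 * m + 1) = 1 * (1 * (H ^ A * (3 * m + 1))) := by ring
      _ ≤ ⌈Q⌉₊ * (H ^ A * (H ^ A * (3 * m + 1))) := by gcongr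
      _ = C1 * H ^ (2 * A) := by rw [hC1]; ring
  · rw [hQT]; linarith
  · rw [hQT]; linarith
  · rw [hQT]; linarith

end H32.T3

end S_T3_D2
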