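import Mathlib

/-! Modular Schanuel for special tuples, part K4: this file joins several modules to save build time. -/

section S_T3_Theta

/-!
# The theta product

`AA p x = ∏ (1 - p^(2n+1) x)` and `th p w = AA p w * AA p w⁻¹`.
-/

namespace H32.T3

open Complex Filter Topology Finset

/-- Half of the theta product. -/
noncomputable def AA (p x : ℂ) : ℂ := ∏' n : ℕ, (1 + -(p ^ (2 * n + 1) * x))

lemma summable_pow_aux {p : ℂ} (hp : ‖p‖ < 1) (x : ℂ) :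
    HasSum (fun n : ℕ ↦ ‖-(p ^ (2 * n + 1) * x)‖) (‖p‖ * ‖x‖ / (1 - ‖p‖ ^ 2)) := by
  have h : (fun n : ℕ ↦ ‖-(p ^ (2 * n + 1) * x)‖) = fun n : ℕ ↦ (‖p‖ * ‖x‖) * (‖p‖ ^ 2) ^ n := by
    ext n
    rw [norm_neg, norm_mul, norm_pow]
    ring
  rw [h, div_eq_mul_inv]
  refine (hasSum_geometric_of_lt_one (by positivity) ?_).mul_left _
  have := norm_nonneg p
  nlinarith

lemma multipliable_AA {p : ℂ} (hp : ‖p‖ < 1) (x : ℂ) :
    Multipliable fun n : ℕ ↦ (1 + -(p ^ (2 * n + 1) * x)) :=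
  multipliable_one_add_of_summable (summable_pow_aux hp x).summable

lemma mlu_AA {p : ℂ} (hp : ‖p‖ < 1) (R : ℝ) :
    MultipliableLocallyUniformlyOn (fun (n : ℕ) (x : ℂ) ↦ 1 + -(p ^ (2 * n + 1) * x))
      (Metric.ball (0 : ℂ) R) := by
  refine Summable.multipliableLocallyUniformlyOn_nat_one_add
    (f := fun (n : ℕ) (x : ℂ) ↦ -(p ^ (2 * n + 1) * x)) Metric.isOpen_ball
    (summable_pow_aux hp R).summable ?_ ?_
  · refine Filter.Eventually.of_forall fun n x hx ↦ ?_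
    rw [mem_ball_zero_iff] at hx
    rw [norm_neg, norm_neg, norm_mul, norm_mul]
    have h1 : ‖x‖ ≤ ‖(R : ℂ)‖ := by
      rw [Complex.norm_real]
      exact hx.le.trans (le_abs_self _)
    gcongr
  · intro n
    fun_prop

lemma differentiable_AA {p : ℂ} (hp : ‖p‖ < 1) : Differentiable ℂ (AA p) := by
  intro x
  have h := (mlu_AA hp (‖x‖ + 1)).hasProdLocallyUniformlyOn.differentiableOn
    (.of_forall fun _ ↦ by simpa [Finset.prod_fn] using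
      DifferentiableOn.finsetProd (fun _ _ ↦ by fun_prop)) Metric.isOpen_ball
  have hx : x ∈ Metric.ball (0 : ℂ) (‖x‖ + 1) := by
    rw [mem_ball_zero_iff]; linarith
  exact (h x hx).differentiableAt (Metric.isOpen_ball.mem_nhds hx)

lemma AA_succ {p : ℂ} (hp : ‖p‖ < 1) (x : ℂ) : AA p x = (1 - p * x) * AA p (p ^ 2 * x) := by
  have h1 : (fun n : ℕ ↦ 1 + -(p ^ (2 * (n + 1) + 1) * x)) =
      fun n : ℕ ↦ 1 + -(p ^ (2 * n + 1) * (p ^ 2 * x)) := by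
    ext n; ring
  have h2 : Multipliable fun n : ℕ ↦ 1 + -(p ^ (2 * (n + 1) + 1) * x) := by
    rw [h1]; exact multipliable_AA hp (p ^ 2 * x)
  rw [AA, tprod_eq_zero_mul' h2, AA, h1]
  congr 1
  ring

lemma AA_iter {p : ℂ} (hp : ‖p‖ < 1) (x : ℂ) (M : ℕ) :
    AA p x = (∏ n ∈ range M, (1 - p ^ (2 * n + 1) * x)) * AA p (p ^ (2 * M) * x) := by
  induction M with
  | zero => simp
  | succ M ih =>
    rw [ih, prod_range_succ, mul_assoc, AA_succ hp]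
    congr 2
    · ring_nf
    · congr 1; ring

lemma AA_sub_one {p : ℂ} (hp : ‖p‖ < 1) (x : ℂ) :
    ‖AA p x - 1‖ ≤ Real.exp (‖p‖ * ‖x‖ / (1 - ‖p‖ ^ 2)) - 1 := by
  have h1 := (multipliable_AA hp x).hasProd
  have h2 : Tendsto (fun s : Finset ℕ ↦ ‖∏ n ∈ s, (1 + -(p ^ (2 * n + 1) * x)) - 1‖) atTop
      (𝓝 ‖AA p x - 1‖) := ((h1.sub_const 1).norm)
  refine le_of_tendsto h2 (.of_forall fun s ↦ ?_)
  refine (Finset.norm_prod_one_add_sub_one_le s _).trans ?_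
  have h3 := summable_pow_aux hp x
  have h4 := h3.summable.sum_le_tsum s (fun _ _ ↦ norm_nonneg _)
  rw [h3.tsum_eq] at h4
  gcongr

lemma AA_ne_zero {p : ℂ} (hp : ‖p‖ < 1) {x : ℂ} (hx : ‖p * x‖ < 1) : AA p x ≠ 0 := by
  refine tprod_one_add_ne_zero_of_summable (fun n h ↦ ?_) (summable_pow_aux hp x).summable
  have h1 : ‖p ^ (2 * n + 1) * x‖ < 1 := by
    calc ‖p ^ (2 * n + 1) * x‖ = ‖p‖ ^ (2 * n) * ‖p * x‖ := by
          rw [norm_mul, norm_pow, norm_mul]; ring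
      _ ≤ 1 * ‖p * x‖ := by
          gcongr
          exact pow_le_one₀ (norm_nonneg _) hp.le
      _ < 1 := by rwa [one_mul]
  have h2 : p ^ (2 * n + 1) * x = 1 := by linear_combination -h
  rw [h2, norm_one] at h1
  exact lt_irrefl _ h1

/-- Upper bound. -/
lemma AA_le {p : ℂ} {r : ℝ} (hr : r < 1) (hp : ‖p‖ ≤ r) {x : ℂ} {M : ℕ}
    (hx : ‖p‖ ^ (2 * M) * ‖x‖ ≤ 1) :
    ‖AA p x‖ ≤ (1 + ‖x‖) ^ M * Real.exp (r / (1 - r ^ 2)) := by
  have hp1 : ‖p‖ < 1 := hp.trans_lt hr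
  have hr0 : 0 ≤ r := (norm_nonneg p).trans hp
  rw [AA_iter hp1 x M, norm_mul]
  have h1 : ‖∏ n ∈ range M, (1 - p ^ (2 * n + 1) * x)‖ ≤ (1 + ‖x‖) ^ M := by
    rw [norm_prod]
    calc ∏ n ∈ range M, ‖1 - p ^ (2 * n + 1) * x‖ ≤ ∏ _n ∈ range M, (1 + ‖x‖) := by
          refine prod_le_prod (fun _ _ ↦ norm_nonneg _) fun n _ ↦ ?_
          refine (norm_sub_le _ _).trans ?_
          rw [norm_one, norm_mul, norm_pow]
          have : ‖p‖ ^ (2 * n + 1) ≤ 1 := pow_le_one₀ (norm_nonneg _) hp1.le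
          have h0 := norm_nonneg x
          nlinarith
      _ = _ := by simp
  have h2 : ‖AA p (p ^ (2 * M) * x)‖ ≤ Real.exp (r / (1 - r ^ 2)) := by
    have h3 := AA_sub_one hp1 (p ^ (2 * M) * x)
    have h4 : ‖AA p (p ^ (2 * M) * x)‖ ≤ ‖AA p (p ^ (2 * M) * x) - 1‖ + 1 := by
      have := norm_add_le (AA p (p ^ (2 * M) * x) - 1) 1
      rw [sub_add_cancel, norm_one] at this
      exact this
    refine h4.trans ?_
    have h5 : ‖p‖ * ‖p ^ (2 * M) * x‖ / (1 - ‖p‖ ^ 2) ≤ r / (1 - r ^ 2) := by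
      rw [norm_mul, norm_pow]
      have h6 : 0 < 1 - r ^ 2 := by nlinarith
      have h7 : ‖p‖ ^ 2 ≤ r ^ 2 := by gcongr
      have h8 := norm_nonneg p
      apply div_le_div₀ hr0 _ h6 (by linarith)
      calc ‖p‖ * (‖p‖ ^ (2 * M) * ‖x‖) ≤ ‖p‖ * 1 := by gcongr
        _ ≤ r := by linarith
    have h6 := Real.exp_le_exp.mpr h5
    linarith
  gcongr

/-- Lower bound. -/
lemma AA_ge {r ρ : ℝ} (hr : r < 1) (hr0 : 0 ≤ r) (hρ0 : 0 ≤ ρ) (hρ : r * ρ < 1) :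
    ∃ c : ℝ, 0 < c ∧ ∀ p x : ℂ, ‖p‖ ≤ r → ‖x‖ ≤ ρ → c ≤ ‖AA p x‖ := by
  have h6 : 0 < 1 - r ^ 2 := by nlinarith
  -- the tail
  obtain ⟨M, hM⟩ : ∃ M : ℕ, r * ((r ^ 2) ^ M * ρ) / (1 - r ^ 2) ≤ Real.log (3 / 2) := by
    have h1 : Tendsto (fun M : ℕ ↦ r * ((r ^ 2) ^ M * ρ) / (1 - r ^ 2)) atTop
        (𝓝 (r * (0 * ρ) / (1 - r ^ 2))) := by
      have := tendsto_pow_atTop_nhds_zero_of_lt_one (r := r ^ 2) (by positivity) (by nlinarith)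
      exact (((this.mul_const ρ).const_mul r).div_const _)
    rw [zero_mul, mul_zero, zero_div] at h1
    have h2 : 0 < Real.log (3 / 2) := Real.log_pos (by norm_num)
    exact (h1.eventually_le_const h2).exists
  refine ⟨(1 - r * ρ) ^ M * (1 / 2), by have : 0 < 1 - r * ρ := by linarith
                                        positivity, fun p x hp hx ↦ ?_⟩
  have hp1 : ‖p‖ < 1 := hp.trans_lt hr
  rw [AA_iter hp1 x M, norm_mul]
  have h0 : 0 < 1 - r * ρ := by linarith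
  have h1 : (1 - r * ρ) ^ M ≤ ‖∏ n ∈ range M, (1 - p ^ (2 * n + 1) * x)‖ := by
    rw [norm_prod]
    calc (1 - r * ρ) ^ M = ∏ _n ∈ range M, (1 - r * ρ) := by simp
      _ ≤ _ := by
        refine prod_le_prod (fun _ _ ↦ h0.le) fun n _ ↦ ?_
        have h2 := norm_sub_norm_le 1 (p ^ (2 * n + 1) * x)
        rw [norm_one] at h2
        have h3 : ‖p ^ (2 * n + 1) * x‖ ≤ r * ρ := by
          rw [norm_mul, norm_pow, pow_succ]
          have h4 : ‖p‖ ^ (2 * n) ≤ 1 := pow_le_one₀ (norm_nonneg _) hp1.le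
          calc ‖p‖ ^ (2 * n) * ‖p‖ * ‖x‖ ≤ 1 * r * ρ := by gcongr
            _ = _ := by rw [one_mul]
        linarith
  have h2 : 1 / 2 ≤ ‖AA p (p ^ (2 * M) * x)‖ := by
    have h3 := AA_sub_one hp1 (p ^ (2 * M) * x)
    have h4 : 1 - ‖AA p (p ^ (2 * M) * x) - 1‖ ≤ ‖AA p (p ^ (2 * M) * x)‖ := by
      have := norm_sub_norm_le (1 : ℂ) (1 - AA p (p ^ (2 * M) * x))
      rw [norm_one, sub_sub_cancel, norm_sub_rev] at this
      exact this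
    have h5 : ‖p‖ * ‖p ^ (2 * M) * x‖ / (1 - ‖p‖ ^ 2) ≤ Real.log (3 / 2) := by
      refine le_trans ?_ hM
      rw [norm_mul, norm_pow, pow_mul]
      have h7 : ‖p‖ ^ 2 ≤ r ^ 2 := by gcongr
      have h8 := norm_nonneg p
      apply div_le_div₀ (by positivity) _ h6 (by linarith)
      gcongr
    have h6 := Real.exp_le_exp.mpr h5
    rw [Real.exp_log (by norm_num)] at h6
    linarith
  gcongr

/-- The logarithmic derivative. -/
lemma logDeriv_AA {p : ℂ} (hp : ‖p‖ < 1) {x : ℂ} (hx : ‖p * x‖ < 1) :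
    logDeriv (AA p) x = ∑' n : ℕ, -(p ^ (2 * n + 1) / (1 - p ^ (2 * n + 1) * x)) := by
  have hx' : x ∈ Metric.ball (0 : ℂ) (‖x‖ + 1) := by
    rw [mem_ball_zero_iff]; linarith
  have hlt : ∀ n : ℕ, ‖p ^ (2 * n + 1) * x‖ ≤ ‖p * x‖ := fun n ↦ by
    calc ‖p ^ (2 * n + 1) * x‖ = ‖p‖ ^ (2 * n) * ‖p * x‖ := by
          rw [norm_mul, norm_pow, norm_mul]; ring
      _ ≤ 1 * ‖p * x‖ := by
          gcongr
          exact pow_le_one₀ (norm_nonneg _) hp.le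
      _ = _ := one_mul _
  have hge : ∀ n : ℕ, 1 - ‖p * x‖ ≤ ‖1 - p ^ (2 * n + 1) * x‖ := fun n ↦ by
    have h2 := norm_sub_norm_le 1 (p ^ (2 * n + 1) * x)
    rw [norm_one] at h2
    have := hlt n
    linarith
  have hld : ∀ n : ℕ, logDeriv (fun x : ℂ ↦ 1 + -(p ^ (2 * n + 1) * x)) x =
      -(p ^ (2 * n + 1) / (1 - p ^ (2 * n + 1) * x)) := by
    intro n
    rw [logDeriv_apply]
    have : deriv (fun x : ℂ ↦ 1 + -(p ^ (2 * n + 1) * x)) x = -(p ^ (2 * n + 1)) := by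
      have h := ((hasDerivAt_id x).const_mul (p ^ (2 * n + 1))).neg.const_add 1
      simp only [mul_one] at h
      exact h.deriv
    rw [this, neg_div, sub_eq_add_neg]
  have hsum : Summable fun n : ℕ ↦ -(p ^ (2 * n + 1) / (1 - p ^ (2 * n + 1) * x)) := by
    refine Summable.of_norm_bounded (g := fun n : ℕ ↦ ‖-(p ^ (2 * n + 1) * 1)‖ / (1 - ‖p * x‖))
      ((summable_pow_aux hp 1).summable.div_const _) fun n ↦ ?_
    rw [norm_neg, norm_neg, mul_one, norm_div]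
    have := hge n
    gcongr
  have key := logDeriv_tprod_eq_tsum (s := Metric.ball (0 : ℂ) (‖x‖ + 1)) Metric.isOpen_ball hx'
    (f := fun (n : ℕ) (x : ℂ) ↦ 1 + -(p ^ (2 * n + 1) * x)) ?_ ?_ ?_ (mlu_AA hp _) ?_
  · change logDeriv (AA p) x = _ at key
    rw [key]
    exact tsum_congr hld
  · intro n h
    have h1 := hge n
    rw [sub_eq_add_neg (1 : ℂ), h, norm_zero] at h1
    linarith
  · intro n; fun_prop
  · simp_rw [hld]; exact hsum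
  · exact AA_ne_zero hp hx

end H32.T3

end S_T3_Theta

section S_T3_Theta2

/-!
# The functions `th, th1, th2` on the punctured plane
-/

namespace H32.T3

open Complex Filter Topology Finset

/-- The theta product. -/
noncomputable def th (p w : ℂ) : ℂ := AA p w * AA p w⁻¹

/-- The derivation `d / ds` for `w = exp (2 π i s)`. -/
noncomputable def Dw (f : ℂ → ℂ) (w : ℂ) : ℂ := 2 * Real.pi * I * w * deriv f w

noncomputable def th1 (p : ℂ) : ℂ → ℂ := Dw (th p)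

noncomputable def th2 (p : ℂ) : ℂ → ℂ := Dw (th1 p)

lemma isOpen_U : IsOpen ({0}ᶜ : Set ℂ) := isOpen_compl_singleton

lemma mem_U {w : ℂ} : w ∈ ({0}ᶜ : Set ℂ) ↔ w ≠ 0 := by simp

lemma diff_th {p : ℂ} (hp : ‖p‖ < 1) : DifferentiableOn ℂ (th p) {0}ᶜ := by
  intro w hw
  have h1 := differentiable_AA hp w
  have h2 : DifferentiableAt ℂ (fun w ↦ AA p w⁻¹) w :=
    (differentiable_AA hp w⁻¹).comp w (differentiableAt_inv (mem_U.mp hw))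
  exact (h1.mul h2).differentiableWithinAt

lemma diff_Dw {f : ℂ → ℂ} (hf : DifferentiableOn ℂ f {0}ᶜ) : DifferentiableOn ℂ (Dw f) {0}ᶜ := by
  have h := hf.deriv isOpen_U
  unfold Dw
  fun_prop

lemma diff_th1 {p : ℂ} (hp : ‖p‖ < 1) : DifferentiableOn ℂ (th1 p) {0}ᶜ := diff_Dw (diff_th hp)

lemma diff_th2 {p : ℂ} (hp : ‖p‖ < 1) : DifferentiableOn ℂ (th2 p) {0}ᶜ := diff_Dw (diff_th1 hp)

lemma th_q {p : ℂ} (hp : ‖p‖ < 1) (hp0 : p ≠ 0) {w : ℂ} (hw : w ≠ 0) :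
    th p (p ^ 2 * w) = -(p * w)⁻¹ * th p w := by
  rw [th, th, AA_succ hp w, AA_succ hp (p ^ 2 * w)⁻¹]
  have e : p ^ 2 * (p ^ 2 * w)⁻¹ = w⁻¹ := by field_simp
  rw [e]
  field_simp
  ring

lemma Dw_q {p : ℂ} (hp0 : p ≠ 0) {f g : ℂ → ℂ} (hf : DifferentiableOn ℂ f {0}ᶜ)
    (hg : DifferentiableOn ℂ g {0}ᶜ) (h : ∀ w ≠ 0, f (p ^ 2 * w) = -(p * w)⁻¹ * g w)
    {w : ℂ} (hw : w ≠ 0) :
    Dw f (p ^ 2 * w) = -(p * w)⁻¹ * (Dw g w - 2 * Real.pi * I * g w) := by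
  have hpw : p ^ 2 * w ≠ 0 := mul_ne_zero (pow_ne_zero _ hp0) hw
  have h1 : HasDerivAt f (deriv f (p ^ 2 * w)) (p ^ 2 * w) :=
    ((hf _ hpw).differentiableAt (isOpen_U.mem_nhds hpw)).hasDerivAt
  have h2 : HasDerivAt (fun w ↦ f (p ^ 2 * w)) (deriv f (p ^ 2 * w) * (p ^ 2 * 1)) w :=
    h1.comp w ((hasDerivAt_id w).const_mul (p ^ 2))
  have h3 : HasDerivAt g (deriv g w) w :=
    ((hg _ hw).differentiableAt (isOpen_U.mem_nhds hw)).hasDerivAt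
  have h4 : HasDerivAt (fun w ↦ -(p * w)⁻¹ * g w)
      (-(-(p * 1) / (p * w) ^ 2) * g w + -(p * w)⁻¹ * deriv g w) w :=
    ((((hasDerivAt_id w).const_mul p).fun_inv (mul_ne_zero hp0 hw)).fun_neg).mul h3
  have h5 : (fun w ↦ f (p ^ 2 * w)) =ᶠ[𝓝 w] fun w ↦ -(p * w)⁻¹ * g w := by
    filter_upwards [isOpen_U.mem_nhds hw] with v hv using h v hv
  have h6 := h2.unique (h4.congr_of_eventuallyEq h5)
  have h7 : p ^ 2 * deriv f (p ^ 2 * w) = (p * w ^ 2)⁻¹ * g w - (p * w)⁻¹ * deriv g w := by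
    rw [mul_one] at h6
    rw [mul_comm, h6]
    field_simp
    ring
  rw [Dw, Dw]
  have h8 : 2 * Real.pi * I * (p ^ 2 * w) * deriv f (p ^ 2 * w) =
      2 * Real.pi * I * w * (p ^ 2 * deriv f (p ^ 2 * w)) := by ring
  rw [h8, h7]
  field_simp
  ring

lemma th1_q {p : ℂ} (hp : ‖p‖ < 1) (hp0 : p ≠ 0) {w : ℂ} (hw : w ≠ 0) :
    th1 p (p ^ 2 * w) = -(p * w)⁻¹ * (th1 p w - 2 * Real.pi * I * th p w) :=
  Dw_q hp0 (diff_th hp) (diff_th hp) (fun _ hw ↦ th_q hp hp0 hw) hw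

lemma th2_q {p : ℂ} (hp : ‖p‖ < 1) (hp0 : p ≠ 0) {w : ℂ} (hw : w ≠ 0) :
    th2 p (p ^ 2 * w) = -(p * w)⁻¹ *
      (th2 p w - 2 * (2 * Real.pi * I) * th1 p w + (2 * Real.pi * I) ^ 2 * th p w) := by
  have hd : DifferentiableOn ℂ (fun w ↦ th1 p w - 2 * Real.pi * I * th p w) {0}ᶜ :=
    (diff_th1 hp).sub ((diff_th hp).const_mul _)
  have h := Dw_q hp0 (diff_th1 hp) hd (fun _ hw ↦ th1_q hp hp0 hw) hw
  have e : Dw (fun w ↦ th1 p w - 2 * Real.pi * I * th p w) w =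
      th2 p w - 2 * Real.pi * I * th1 p w := by
    have h1 : HasDerivAt (th1 p) (deriv (th1 p) w) w :=
      ((diff_th1 hp _ hw).differentiableAt (isOpen_U.mem_nhds hw)).hasDerivAt
    have h2 : HasDerivAt (th p) (deriv (th p) w) w :=
      ((diff_th hp _ hw).differentiableAt (isOpen_U.mem_nhds hw)).hasDerivAt
    have h3 := (h1.fun_sub (h2.const_mul (2 * Real.pi * I))).deriv
    rw [Dw, h3, th2, th1, Dw, Dw]
    ring
  rw [e] at h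
  change th2 p (p ^ 2 * w) = _ at h
  rw [h]
  ring

/-- The closed annulus. -/
def Ann (p : ℂ) (M : ℕ) : Set ℂ := {w | ‖p‖ ^ (2 * M) ≤ ‖w‖ ∧ ‖w‖ * ‖p‖ ^ (2 * M) ≤ 1}

lemma Ann_ne_zero {p : ℂ} (hp0 : p ≠ 0) {M : ℕ} {w : ℂ} (hw : w ∈ Ann p M) : w ≠ 0 := by
  rintro rfl
  have h1 := hw.1
  rw [norm_zero] at h1
  have h2 : 0 < ‖p‖ ^ (2 * M) := by
    have := norm_pos_iff.mpr hp0
    positivity
  linarith

lemma th_le {p : ℂ} {r c : ℝ} (hr : r < 1) (hp : ‖p‖ ≤ r) (hc : 1 ≤ c)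
    (hpc : Real.exp (-c) ≤ ‖p‖) {M : ℕ} {w : ℂ} (hw : w ∈ Ann p M) :
    ‖th p w‖ ≤ Real.exp ((4 * c + 2 + 2 * r / (1 - r ^ 2)) * (M + 1) ^ 2) := by
  have hp0 : 0 < ‖p‖ := (Real.exp_pos _).trans_le hpc
  have hpn : p ≠ 0 := norm_pos_iff.mp hp0
  have hr0 : 0 ≤ r := hp0.le.trans hp
  have hw0 := Ann_ne_zero hpn hw
  have hwn : 0 < ‖w‖ := norm_pos_iff.mpr hw0
  have hpM : 0 < ‖p‖ ^ (2 * M) := by positivity
  have hpinv : (‖p‖ ^ (2 * M))⁻¹ ≤ Real.exp (2 * c * M) := by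
    have h1 : Real.exp (-c) ^ (2 * M) ≤ ‖p‖ ^ (2 * M) := by gcongr
    have h2 : Real.exp (-c) ^ (2 * M) = (Real.exp (2 * c * M))⁻¹ := by
      rw [← Real.exp_nat_mul, ← Real.exp_neg]
      congr 1
      push_cast; ring
    rw [h2] at h1
    exact inv_le_of_inv_le₀ (Real.exp_pos _) h1
  have key : ∀ x : ℂ, ‖x‖ * ‖p‖ ^ (2 * M) ≤ 1 → ‖AA p x‖ ≤
      Real.exp ((2 * c * M + 1) * M + r / (1 - r ^ 2)) := by
    intro x hx
    have h1 := AA_le hr hp (x := x) (M := M) (by linarith)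
    have hxle : ‖x‖ ≤ Real.exp (2 * c * M) := by
      refine le_trans ?_ hpinv
      rw [← one_div]
      exact (le_div_iff₀ hpM).mpr hx
    have h2 : 1 + ‖x‖ ≤ Real.exp (2 * c * M + 1) := by
      rw [Real.exp_add]
      have h3 : 1 ≤ Real.exp (2 * c * M) := Real.one_le_exp (by positivity)
      have h4 := Real.add_one_le_exp (1 : ℝ)
      nlinarith
    refine h1.trans ?_
    rw [Real.exp_add, mul_comm (2 * c * M + 1 : ℝ), Real.exp_nat_mul]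
    gcongr
  have h1 := key w hw.2
  have h2 := key w⁻¹ (by
    rw [norm_inv]
    calc ‖w‖⁻¹ * ‖p‖ ^ (2 * M) ≤ ‖w‖⁻¹ * ‖w‖ := by gcongr; exact hw.1
      _ = 1 := inv_mul_cancel₀ hwn.ne')
  rw [th, norm_mul]
  calc ‖AA p w‖ * ‖AA p w⁻¹‖ ≤ Real.exp ((2 * c * M + 1) * M + r / (1 - r ^ 2)) *
        Real.exp ((2 * c * M + 1) * M + r / (1 - r ^ 2)) := by gcongr
    _ = Real.exp (2 * ((2 * c * M + 1) * M + r / (1 - r ^ 2))) := by
      rw [← Real.exp_add]; congr 1; ring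
    _ ≤ _ := by
      apply Real.exp_le_exp.mpr
      have h6 : 0 < 1 - r ^ 2 := by nlinarith
      have h7 : 0 ≤ r / (1 - r ^ 2) := by positivity
      have hM : (0 : ℝ) ≤ M := Nat.cast_nonneg M
      have e : 2 * r / (1 - r ^ 2) = 2 * (r / (1 - r ^ 2)) := by ring
      rw [e]
      set a := r / (1 - r ^ 2)
      have h8 : a ≤ a * (M + 1) ^ 2 := by
        refine le_mul_of_one_le_right h7 (one_le_pow₀ (by linarith))
      nlinarith [mul_nonneg (by linarith : (0:ℝ) ≤ c) hM]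

lemma Ann_ball {p : ℂ} {r : ℝ} (hr : r < 1) (hp0 : p ≠ 0) (hp : ‖p‖ ≤ r) {M : ℕ}
    {w : ℂ} (hw : w ∈ Ann p M) {v : ℂ} (hv : ‖v - w‖ ≤ (1 - r ^ 2) * ‖w‖) : v ∈ Ann p (M + 1) := by
  have hw0 := Ann_ne_zero hp0 hw
  have hwn : 0 < ‖w‖ := norm_pos_iff.mpr hw0
  have hpn : 0 < ‖p‖ := norm_pos_iff.mpr hp0
  have hr0 : 0 < r := hpn.trans_le hp
  have hρ : 0 < 1 - r ^ 2 := by nlinarith
  have hpr : ‖p‖ ^ 2 ≤ r ^ 2 := by gcongr
  have h1 : ‖w‖ - (1 - r ^ 2) * ‖w‖ ≤ ‖v‖ := by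
    have := norm_sub_norm_le w v
    rw [norm_sub_rev] at this
    linarith
  have h2 : ‖v‖ ≤ ‖w‖ + (1 - r ^ 2) * ‖w‖ := by
    have := norm_sub_norm_le v w
    linarith
  have h3 : ‖p‖ ^ (2 * (M + 1)) = ‖p‖ ^ (2 * M) * ‖p‖ ^ 2 := by ring
  refine ⟨?_, ?_⟩
  · rw [h3]
    calc ‖p‖ ^ (2 * M) * ‖p‖ ^ 2 ≤ ‖w‖ * r ^ 2 := by gcongr; exact hw.1
      _ ≤ ‖v‖ := by linarith
  · rw [h3]
    calc ‖v‖ * (‖p‖ ^ (2 * M) * ‖p‖ ^ 2) ≤ (‖w‖ + (1 - r ^ 2) * ‖w‖) * (‖p‖ ^ (2 * M) * r ^ 2) := by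
          gcongr
      _ = (‖w‖ * ‖p‖ ^ (2 * M)) * ((2 - r ^ 2) * r ^ 2) := by ring
      _ ≤ 1 * 1 := by
          gcongr
          · nlinarith
          · exact hw.2
          · nlinarith [sq_nonneg (r ^ 2 - 1)]
      _ = 1 := one_mul 1

/-- Cauchy's estimate for `Dw`. -/
lemma Dw_le {p : ℂ} {r : ℝ} (hr : r < 1) (hp0 : p ≠ 0) (hp : ‖p‖ ≤ r) {f : ℂ → ℂ}
    (hf : DifferentiableOn ℂ f {0}ᶜ) {M : ℕ} {S : ℝ} (hS : ∀ w ∈ Ann p (M + 1), ‖f w‖ ≤ S)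
    {w : ℂ} (hw : w ∈ Ann p M) : ‖Dw f w‖ ≤ 2 * Real.pi / (1 - r ^ 2) * S := by
  have hw0 := Ann_ne_zero hp0 hw
  have hwn : 0 < ‖w‖ := norm_pos_iff.mpr hw0
  have hpn : 0 < ‖p‖ := norm_pos_iff.mpr hp0
  have hr0 : 0 < r := hpn.trans_le hp
  have hρ : 0 < 1 - r ^ 2 := by nlinarith
  have hR : 0 < (1 - r ^ 2) * ‖w‖ := by positivity
  have hsub : ∀ v : ℂ, dist v w ≤ (1 - r ^ 2) * ‖w‖ → v ∈ Ann p (M + 1) := by
    intro v hv
    rw [dist_eq_norm] at hv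
    exact Ann_ball hr hp0 hp hw hv
  have hd : DiffContOnCl ℂ f (Metric.ball w ((1 - r ^ 2) * ‖w‖)) := by
    apply DifferentiableOn.diffContOnCl
    apply hf.mono
    intro v hv
    have h1 := Metric.closure_ball_subset_closedBall hv
    exact Ann_ne_zero hp0 (hsub v (Metric.mem_closedBall.mp h1))
  have h1 := Complex.norm_deriv_le_of_forall_mem_sphere_norm_le hR hd
    (fun z hz ↦ hS z (hsub z (le_of_eq (Metric.mem_sphere.mp hz))))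
  rw [Dw]
  have e : ‖2 * (Real.pi : ℂ) * I * w * deriv f w‖ = 2 * Real.pi * ‖w‖ * ‖deriv f w‖ := by
    rw [norm_mul, norm_mul, norm_mul, norm_mul, Complex.norm_I, Complex.norm_real,
      Real.norm_of_nonneg Real.pi_pos.le]
    norm_num
  rw [e]
  calc 2 * Real.pi * ‖w‖ * ‖deriv f w‖ ≤ 2 * Real.pi * ‖w‖ * (S / ((1 - r ^ 2) * ‖w‖)) := by
        gcongr
    _ = _ := by field_simp

lemma Ann_mono {p : ℂ} (hp : ‖p‖ ≤ 1) {M N : ℕ} (h : M ≤ N) : Ann p M ⊆ Ann p N := by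
  intro w hw
  have h1 : ‖p‖ ^ (2 * N) ≤ ‖p‖ ^ (2 * M) := pow_le_pow_of_le_one (norm_nonneg _) hp (by omega)
  refine ⟨h1.trans hw.1, le_trans ?_ hw.2⟩
  gcongr

end H32.T3

end S_T3_Theta2

section S_T3_Theta3

/-!
# Uniform bounds for the theta functions
-/

namespace H32.T3

open Complex Filter Topology Finset

noncomputable def P1 (lam p w : ℂ) : ℂ := lam⁻¹ * th1 p w

noncomputable def P2 (lam G p w : ℂ) : ℂ :=
  (lam ^ 2)⁻¹ * (th1 p w ^ 2 - th p w * th2 p w - G * th p w ^ 2)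

lemma diff_P1 {p : ℂ} (hp : ‖p‖ < 1) (lam : ℂ) : DifferentiableOn ℂ (P1 lam p) {0}ᶜ :=
  (diff_th1 hp).const_mul _

lemma diff_P2 {p : ℂ} (hp : ‖p‖ < 1) (lam G : ℂ) : DifferentiableOn ℂ (P2 lam G p) {0}ᶜ := by
  have h0 := diff_th hp
  have h1 := diff_th1 hp
  have h2 := diff_th2 hp
  unfold P2
  fun_prop

lemma P1_q {p : ℂ} (hp : ‖p‖ < 1) (hp0 : p ≠ 0) (lam : ℂ) {w : ℂ} (hw : w ≠ 0) :
    P1 lam p (p ^ 2 * w) = -(p * w)⁻¹ * (P1 lam p w - 2 * Real.pi * I / lam * th p w) := by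
  rw [P1, P1, th1_q hp hp0 hw]
  ring

lemma P2_q {p : ℂ} (hp : ‖p‖ < 1) (hp0 : p ≠ 0) (lam G : ℂ) {w : ℂ} (hw : w ≠ 0) :
    P2 lam G p (p ^ 2 * w) = (-(p * w)⁻¹) ^ 2 * P2 lam G p w := by
  rw [P2, P2, th_q hp hp0 hw, th1_q hp hp0 hw, th2_q hp hp0 hw]
  ring

/-- Uniform growth bounds. -/
theorem growth {r c B0 : ℝ} (hr : r < 1) (hr0 : 0 ≤ r) (hc : 1 ≤ c) (hB0 : 1 ≤ B0) :
    ∃ C : ℝ, 1 ≤ C ∧ ∀ p lam G : ℂ, ‖p‖ ≤ r → Real.exp (-c) ≤ ‖p‖ → ‖lam⁻¹‖ ≤ B0 → ‖G‖ ≤ B0 →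
      ∀ (M : ℕ), ∀ w ∈ Ann p M, ‖th p w‖ ≤ Real.exp (C * (M + 1) ^ 2) ∧
        ‖P1 lam p w‖ ≤ Real.exp (C * (M + 1) ^ 2) ∧
        ‖P2 lam G p w‖ ≤ Real.exp (C * (M + 1) ^ 2) := by
  have hρ : 0 < 1 - r ^ 2 := by nlinarith
  set C1 : ℝ := 4 * c + 2 + 2 * r / (1 - r ^ 2) with hC1
  have hC10 : 0 ≤ C1 := by positivity
  set K : ℝ := 1 + 2 * Real.pi / (1 - r ^ 2) with hK
  have hK1 : 1 ≤ K := by
    have : 0 ≤ 2 * Real.pi / (1 - r ^ 2) := by positivity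
    linarith
  have hK0 : 2 * Real.pi / (1 - r ^ 2) ≤ K := by linarith
  refine ⟨Real.log (3 * B0 ^ 3 * K ^ 2) + 18 * C1 + 1, ?_, ?_⟩
  · have : 0 ≤ Real.log (3 * B0 ^ 3 * K ^ 2) := by
      apply Real.log_nonneg
      have h1 : 1 ≤ B0 ^ 3 := one_le_pow₀ hB0
      have h2 : 1 ≤ K ^ 2 := one_le_pow₀ hK1
      nlinarith
    linarith
  intro p lam G hp hpc hlam hG M w hw
  have hpn : 0 < ‖p‖ := (Real.exp_pos _).trans_le hpc
  have hp0 : p ≠ 0 := norm_pos_iff.mp hpn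
  have hp1 : ‖p‖ < 1 := hp.trans_lt hr
  have b0 : ∀ N : ℕ, ∀ w ∈ Ann p N, ‖th p w‖ ≤ Real.exp (C1 * (N + 1) ^ 2) :=
    fun N w hw ↦ th_le hr hp hc hpc hw
  have b1 : ∀ N : ℕ, ∀ w ∈ Ann p N, ‖th1 p w‖ ≤ K * Real.exp (C1 * (N + 2) ^ 2) := by
    intro N w hw
    refine (Dw_le hr hp0 hp (diff_th hp1) (b0 (N + 1)) hw).trans ?_
    push_cast
    rw [show ((N : ℝ) + 1 + 1) = N + 2 by ring]
    gcongr
  have b2 : ∀ N : ℕ, ∀ w ∈ Ann p N, ‖th2 p w‖ ≤ K ^ 2 * Real.exp (C1 * (N + 3) ^ 2) := by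
    intro N w hw
    refine (Dw_le hr hp0 hp (diff_th1 hp1) (b1 (N + 1)) hw).trans ?_
    push_cast
    rw [show ((N : ℝ) + 1 + 2) = N + 3 by ring, pow_two K, mul_assoc]
    gcongr
  have hM : (0 : ℝ) ≤ M := Nat.cast_nonneg M
  set E : ℝ := Real.exp (C1 * (M + 3) ^ 2) with hE
  have hE1 : 1 ≤ E := Real.one_le_exp (by positivity)
  have e0 : ‖th p w‖ ≤ E := (b0 M w hw).trans (Real.exp_le_exp.mpr (by gcongr; linarith))
  have e1 : ‖th1 p w‖ ≤ K * E := (b1 M w hw).trans (by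
    rw [hE]; gcongr; linarith)
  have e2 : ‖th2 p w‖ ≤ K ^ 2 * E := b2 M w hw
  have hEE : 3 * B0 ^ 3 * K ^ 2 * E ^ 2 ≤
      Real.exp ((Real.log (3 * B0 ^ 3 * K ^ 2) + 18 * C1 + 1) * (M + 1) ^ 2) := by
    have h1 : 3 * B0 ^ 3 * K ^ 2 * E ^ 2 =
        Real.exp (Real.log (3 * B0 ^ 3 * K ^ 2) + 2 * (C1 * (M + 3) ^ 2)) := by
      rw [Real.exp_add, Real.exp_log (by positivity), hE, ← Real.exp_nat_mul]
      norm_num
    rw [h1]
    apply Real.exp_le_exp.mpr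
    have h2 : 0 ≤ Real.log (3 * B0 ^ 3 * K ^ 2) := by
      apply Real.log_nonneg
      have h1 : 1 ≤ B0 ^ 3 := one_le_pow₀ hB0
      have h2 : 1 ≤ K ^ 2 := one_le_pow₀ hK1
      nlinarith
    have h3 : Real.log (3 * B0 ^ 3 * K ^ 2) ≤ Real.log (3 * B0 ^ 3 * K ^ 2) * (M + 1) ^ 2 :=
      le_mul_of_one_le_right h2 (one_le_pow₀ (by linarith))
    have h4 : 2 * (C1 * (M + 3) ^ 2) ≤ 18 * C1 * (M + 1) ^ 2 := by
      have : ((M : ℝ) + 3) ^ 2 ≤ 9 * (M + 1) ^ 2 := by nlinarith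
      nlinarith
    have h5 : (0 : ℝ) ≤ (M + 1) ^ 2 := by positivity
    nlinarith
  have hB3 : 1 ≤ B0 ^ 3 := one_le_pow₀ hB0
  have hB2 : 1 ≤ B0 ^ 2 := one_le_pow₀ hB0
  have hK2 : 1 ≤ K ^ 2 := one_le_pow₀ hK1
  refine ⟨?_, ?_, ?_⟩
  · refine le_trans ?_ hEE
    calc ‖th p w‖ ≤ 1 * 1 * 1 * E := by linarith
      _ ≤ 3 * B0 ^ 3 * K ^ 2 * E ^ 2 := by
        gcongr
        · nlinarith
        · exact le_self_pow₀ hE1 (by norm_num)
  · refine le_trans ?_ hEE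
    rw [P1, norm_mul]
    calc ‖lam⁻¹‖ * ‖th1 p w‖ ≤ B0 * (K * E) := by gcongr
      _ = B0 * K * E := by ring
      _ ≤ 3 * B0 ^ 3 * K ^ 2 * E ^ 2 := by
        gcongr
        · have : B0 ≤ B0 ^ 3 := le_self_pow₀ hB0 (by norm_num)
          nlinarith
        · exact le_self_pow₀ hK1 (by norm_num)
        · exact le_self_pow₀ hE1 (by norm_num)
  · refine le_trans ?_ hEE
    rw [P2, norm_mul, ← inv_pow, norm_pow]
    have h1 : ‖th1 p w ^ 2 - th p w * th2 p w - G * th p w ^ 2‖ ≤ 3 * B0 * K ^ 2 * E ^ 2 := by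
      calc ‖th1 p w ^ 2 - th p w * th2 p w - G * th p w ^ 2‖
          ≤ ‖th1 p w‖ ^ 2 + ‖th p w‖ * ‖th2 p w‖ + ‖G‖ * ‖th p w‖ ^ 2 := by
            refine (norm_sub_le _ _).trans ?_
            rw [norm_mul, norm_pow]
            gcongr
            refine (norm_sub_le _ _).trans ?_
            rw [norm_mul, norm_pow]
        _ ≤ (K * E) ^ 2 + E * (K ^ 2 * E) + B0 * E ^ 2 := by gcongr
        _ = (2 * K ^ 2 + B0) * E ^ 2 := by ring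
        _ ≤ _ := by
          gcongr
          nlinarith
    calc ‖lam⁻¹‖ ^ 2 * ‖th1 p w ^ 2 - th p w * th2 p w - G * th p w ^ 2‖
        ≤ B0 ^ 2 * (3 * B0 * K ^ 2 * E ^ 2) := by gcongr
      _ = _ := by ring

/-- Lower bound near `w = 1`. -/
theorem near_one {r : ℝ} (hr : r < 1) (hr0 : 0 ≤ r) :
    ∃ c : ℝ, 0 < c ∧ ∀ p w : ℂ, ‖p‖ ≤ r → ‖w - 1‖ ≤ (1 - r) / 2 → c ≤ ‖th p w‖ := by
  have hρ : r * (2 / (1 + r)) < 1 := by
    rw [mul_div_assoc', div_lt_one (by linarith)]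
    linarith
  obtain ⟨c, hc, h⟩ := AA_ge hr hr0 (ρ := 2 / (1 + r)) (by positivity) hρ
  refine ⟨c * c, by positivity, fun p w hp hw ↦ ?_⟩
  have h1 : ‖w‖ ≤ 2 / (1 + r) := by
    have h2 := norm_sub_norm_le w 1
    rw [norm_one] at h2
    rw [le_div_iff₀ (by linarith)]
    nlinarith [norm_nonneg w, sq_nonneg (1 - r)]
  have h2 : ‖w⁻¹‖ ≤ 2 / (1 + r) := by
    have h2 := norm_sub_norm_le 1 w
    rw [norm_one, norm_sub_rev] at h2
    have h3 : (1 + r) / 2 ≤ ‖w‖ := by linarith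
    rw [norm_inv]
    have h4 : (2 / (1 + r)) = ((1 + r) / 2)⁻¹ := by rw [inv_div]
    rw [h4]
    exact inv_anti₀ (by positivity) h3
  rw [th, norm_mul]
  have := h p w hp h1
  have := h p w⁻¹ hp h2
  gcongr

lemma th_p {p : ℂ} (hp : ‖p‖ < 1) (hp0 : p ≠ 0) : th p p = 0 := by
  rw [th, AA_succ hp p⁻¹, mul_inv_cancel₀ hp0]
  simp

lemma th_fac {p : ℂ} (hp : ‖p‖ < 1) {w : ℂ} :
    th p w = (1 - p * w⁻¹) * (AA p w * AA p (p ^ 2 * w⁻¹)) := by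
  rw [th, AA_succ hp w⁻¹]
  ring

lemma th1_p {p : ℂ} (hp : ‖p‖ < 1) (hp0 : p ≠ 0) :
    th1 p p = 2 * Real.pi * I * (AA p p * AA p p) := by
  have h1 : HasDerivAt (AA p) (deriv (AA p) p) p := (differentiable_AA hp p).hasDerivAt
  have hinv : HasDerivAt (fun w : ℂ ↦ w⁻¹) (-(p ^ 2)⁻¹) p := hasDerivAt_inv hp0
  have h2 : HasDerivAt (fun w ↦ AA p (p ^ 2 * w⁻¹))
      (deriv (AA p) (p ^ 2 * p⁻¹) * (p ^ 2 * (-(p ^ 2)⁻¹))) p :=
    HasDerivAt.comp (h₂ := AA p) (h := fun w : ℂ ↦ p ^ 2 * w⁻¹) p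
      (differentiable_AA hp (p ^ 2 * p⁻¹)).hasDerivAt (hinv.const_mul (p ^ 2))
  have h3 : HasDerivAt (fun w : ℂ ↦ 1 - p * w⁻¹) (-(p * (-(p ^ 2)⁻¹))) p :=
    (hinv.const_mul p).const_sub 1
  have h4 := (h3.mul (h1.mul h2)).deriv
  have e : th p = (fun w : ℂ ↦ 1 - p * w⁻¹) * (AA p * fun w ↦ AA p (p ^ 2 * w⁻¹)) := by
    ext w
    simp only [Pi.mul_apply]
    exact th_fac hp
  rw [th1, Dw, e, h4]
  simp only [Pi.mul_apply]
  have e2 : p ^ 2 * p⁻¹ = p := by field_simp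
  rw [mul_inv_cancel₀ hp0, e2]
  field_simp
  ring

/-- Near the pole. -/
theorem near_pole {r c B0 : ℝ} (hr : r < 1) (hr0 : 0 ≤ r) (hc : 1 ≤ c) (hB0 : 1 ≤ B0) :
    ∃ C : ℝ, 1 ≤ C ∧ ∀ p lam G : ℂ, ‖p‖ ≤ r → Real.exp (-c) ≤ ‖p‖ → lam ≠ 0 → ‖lam⁻¹‖ ≤ B0 →
      ‖lam‖ ≤ B0 → ‖G‖ ≤ B0 → ∀ B : ℝ, 1 ≤ B → ∃ w : ℂ, ‖p‖ ^ 2 ≤ ‖w‖ ∧ ‖w‖ ≤ 1 ∧
        (C * B)⁻¹ ≤ ‖th p w‖ ∧ B * ‖th p w‖ ^ 2 ≤ ‖P2 lam G p w‖ := by
  obtain ⟨C1, hC1, hgr⟩ := growth hr hr0 hc hB0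
  obtain ⟨c1, hc1, hlow⟩ := AA_ge hr hr0 (ρ := 1) (by norm_num) (by linarith)
  set S : ℝ := Real.exp (C1 * 9) with hS
  have hS1 : 1 ≤ S := Real.one_le_exp (by positivity)
  -- lower bound for `P2` at the pole
  set m : ℝ := (B0⁻¹) ^ 2 * (2 * Real.pi * c1 ^ 2) ^ 2 with hm
  have hB00 : 0 < B0 := by linarith
  have hm0 : 0 < m := by
    have := Real.pi_pos
    positivity
  have hρ0 : 0 < 1 - r ^ 2 := by nlinarith
  -- the size of `η`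
  set U : ℝ := Real.exp (r / (1 - r ^ 2)) with hU
  have hU1 : 1 ≤ U := Real.one_le_exp (by positivity)
  set η1 : ℝ := min (min ((1 - r) / 2) ((1 - r ^ 2) / 4))
    (min ((1 - r ^ 2) * m / (12 * S)) (m / (2 * U ^ 4))) with hη1
  have hη10 : 0 < η1 := by
    rw [hη1]
    refine lt_min (lt_min (by linarith) (by linarith)) (lt_min ?_ ?_) <;> positivity
  have hη1a : η1 ≤ (1 - r) / 2 := (min_le_left _ _).trans (min_le_left _ _)
  have hη1b : η1 ≤ (1 - r ^ 2) / 4 := (min_le_left _ _).trans (min_le_right _ _)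
  have hη1c : η1 ≤ (1 - r ^ 2) * m / (12 * S) := (min_le_right _ _).trans (min_le_left _ _)
  have hη1d : η1 ≤ m / (2 * U ^ 4) := (min_le_right _ _).trans (min_le_right _ _)
  refine ⟨max 1 (η1 * c1 ^ 2)⁻¹, le_max_left _ _, ?_⟩
  intro p lam G hp hpc hlam0 hlam hlam' hG B hB
  have hpn : 0 < ‖p‖ := (Real.exp_pos _).trans_le hpc
  have hp0 : p ≠ 0 := norm_pos_iff.mp hpn
  have hp1 : ‖p‖ < 1 := hp.trans_lt hr
  set η : ℝ := η1 / B with hη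
  have hB' : 0 < B := by linarith
  have hη0 : 0 < η := by positivity
  have hηle : η ≤ η1 := div_le_self hη10.le hB
  have hη1' : η < 1 := by linarith
  have hone : (0 : ℝ) < 1 - η := by linarith
  have honeC : ((1 - η : ℝ) : ℂ) ≠ 0 := by exact_mod_cast hone.ne'
  set w : ℂ := p * ((1 - η : ℝ) : ℂ)⁻¹ with hw
  have hw0 : w ≠ 0 := mul_ne_zero hp0 (inv_ne_zero honeC)
  have hpw : p * w⁻¹ = ((1 - η : ℝ) : ℂ) := by
    rw [hw]; field_simp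
  have hnw : ‖w‖ = ‖p‖ / (1 - η) := by
    rw [hw, norm_mul, norm_inv, Complex.norm_real, Real.norm_of_nonneg hone.le, div_eq_mul_inv]
  have hw1 : ‖w‖ ≤ 1 := by
    rw [hnw, div_le_one hone]; linarith
  have hwp : ‖p‖ ≤ ‖w‖ := by
    rw [hnw, le_div_iff₀ hone]; nlinarith
  have hp2 : ‖p‖ ^ 2 ≤ ‖p‖ := by nlinarith
  have hx2 : ‖p ^ 2 * w⁻¹‖ ≤ 1 := by
    have : p ^ 2 * w⁻¹ = p * ((1 - η : ℝ) : ℂ) := by rw [← hpw]; ring
    rw [this, norm_mul, Complex.norm_real, Real.norm_of_nonneg hone.le]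
    nlinarith
  have hthn : ‖th p w‖ = η * (‖AA p w‖ * ‖AA p (p ^ 2 * w⁻¹)‖) := by
    rw [th_fac hp1, hpw, norm_mul, norm_mul]
    congr 1
    have : (1 : ℂ) - ((1 - η : ℝ) : ℂ) = (η : ℂ) := by push_cast; ring
    rw [this, Complex.norm_real, Real.norm_of_nonneg hη0.le]
  have hlo1 := hlow p w hp hw1
  have hlo2 := hlow p _ hp hx2
  have hup : ∀ x : ℂ, ‖x‖ ≤ 1 → ‖AA p x‖ ≤ U := by
    intro x hx
    have := AA_le hr hp (x := x) (M := 0) (by simpa using hx)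
    simpa using this
  have hup1 := hup w hw1
  have hup2 := hup _ hx2
  have hth_lo : η * c1 ^ 2 ≤ ‖th p w‖ := by
    rw [hthn, pow_two c1]
    gcongr
  have hth_hi : ‖th p w‖ ≤ η * U ^ 2 := by
    rw [hthn, pow_two U]
    gcongr
  -- `P2`
  have hpAnn : p ∈ Ann p 1 := by
    refine ⟨by simpa using hp2, ?_⟩
    have : ‖p‖ ^ 2 ≤ 1 := by nlinarith
    simp only [mul_one]
    nlinarith
  have hP2p : m ≤ ‖P2 lam G p p‖ := by
    have e : P2 lam G p p = (lam⁻¹) ^ 2 * (2 * Real.pi * I * (AA p p * AA p p)) ^ 2 := by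
      rw [P2, th_p hp1 hp0, th1_p hp1 hp0]
      ring
    rw [e, norm_mul, norm_pow, norm_pow, hm]
    have h1 : B0⁻¹ ≤ ‖lam⁻¹‖ := by
      rw [norm_inv]
      exact inv_anti₀ (norm_pos_iff.mpr hlam0) hlam'
    have h2 : 2 * Real.pi * c1 ^ 2 ≤ ‖2 * Real.pi * I * (AA p p * AA p p)‖ := by
      have h3 := hlow p p hp hp1.le
      rw [norm_mul, norm_mul, norm_mul, norm_mul, Complex.norm_I, Complex.norm_real,
        Real.norm_of_nonneg Real.pi_pos.le]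
      have h4 := Real.pi_pos
      have h5 : ‖(2 : ℂ)‖ = 2 := by norm_num
      rw [h5, mul_one, pow_two]
      gcongr
    gcongr
  have hball : ∀ v ∈ Metric.ball p ((1 - r ^ 2) * ‖p‖), v ∈ Ann p 2 := by
    intro v hv
    rw [Metric.mem_ball, dist_eq_norm] at hv
    exact Ann_ball hr hp0 hp hpAnn hv.le
  have hS' : ∀ v ∈ Ann p 2, ‖P2 lam G p v‖ ≤ S := by
    intro v hv
    have := (hgr p lam G hp hpc hlam hG 2 v hv).2.2
    rw [hS]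
    norm_num at this ⊢
    exact this
  have hmaps : Set.MapsTo (P2 lam G p) (Metric.ball p ((1 - r ^ 2) * ‖p‖))
      (Metric.ball (P2 lam G p p) (3 * S)) := by
    intro v hv
    rw [Metric.mem_ball, dist_eq_norm]
    have h1 := hS' v (hball v hv)
    have h2 := hS' p (Ann_mono hp1.le (by norm_num) hpAnn)
    have h3 := norm_sub_le (P2 lam G p v) (P2 lam G p p)
    linarith
  have hdist : dist w p ≤ 2 * η * ‖p‖ := by
    rw [dist_eq_norm]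
    have e : w - p = p * (((η / (1 - η) : ℝ)) : ℂ) := by
      have h1 : (1 : ℂ) - (η : ℂ) ≠ 0 := by
        have := honeC
        push_cast at this
        exact this
      rw [hw]
      push_cast
      field_simp
      ring
    rw [e, norm_mul, Complex.norm_real, Real.norm_of_nonneg (by positivity)]
    have : η / (1 - η) ≤ 2 * η := by
      rw [div_le_iff₀ hone]
      nlinarith
    calc ‖p‖ * (η / (1 - η)) ≤ ‖p‖ * (2 * η) := by gcongr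
      _ = _ := by ring
  have hwball : w ∈ Metric.ball p ((1 - r ^ 2) * ‖p‖) := by
    rw [Metric.mem_ball]
    refine hdist.trans_lt ?_
    gcongr
    linarith
  have hdiff : DifferentiableOn ℂ (P2 lam G p) (Metric.ball p ((1 - r ^ 2) * ‖p‖)) :=
    (diff_P2 hp1 lam G).mono fun v hv ↦ Ann_ne_zero hp0 (hball v hv)
  have hlip := Complex.dist_le_div_mul_dist_of_mapsTo_ball hdiff
    (hmaps.mono_right Metric.ball_subset_closedBall) hwball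
  have hlip2 : ‖P2 lam G p w - P2 lam G p p‖ ≤ m / 2 := by
    rw [dist_eq_norm] at hlip
    refine hlip.trans ?_
    calc 3 * S / ((1 - r ^ 2) * ‖p‖) * dist w p
        ≤ 3 * S / ((1 - r ^ 2) * ‖p‖) * (2 * η * ‖p‖) := by gcongr
      _ = 6 * S * η / (1 - r ^ 2) := by field_simp; ring
      _ ≤ 6 * S * ((1 - r ^ 2) * m / (12 * S)) / (1 - r ^ 2) := by
        gcongr
        exact hηle.trans hη1c
      _ = m / 2 := by field_simp; ring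
  have hP2w : m / 2 ≤ ‖P2 lam G p w‖ := by
    have h1 := norm_sub_norm_le (P2 lam G p p) (P2 lam G p w)
    rw [norm_sub_rev] at h1
    linarith
  refine ⟨w, hp2.trans hwp, hw1, ?_, ?_⟩
  · refine le_trans ?_ hth_lo
    rw [mul_inv]
    have h1 : (max 1 (η1 * c1 ^ 2)⁻¹)⁻¹ ≤ η1 * c1 ^ 2 := by
      apply inv_le_of_inv_le₀ (by positivity)
      exact le_max_right _ _
    calc (max 1 (η1 * c1 ^ 2)⁻¹)⁻¹ * B⁻¹ ≤ (η1 * c1 ^ 2) * B⁻¹ := by gcongr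
      _ = _ := by rw [hη]; ring
  · refine le_trans ?_ hP2w
    calc B * ‖th p w‖ ^ 2 ≤ B * (η * U ^ 2) ^ 2 := by gcongr
      _ = η1 * (η1 / B) * U ^ 4 := by rw [hη]; field_simp
      _ ≤ η1 * 1 * U ^ 4 := by
        gcongr
      _ ≤ m / (2 * U ^ 4) * 1 * U ^ 4 := by gcongr
      _ = m / 2 := by field_simp

end H32.T3

end S_T3_Theta3
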