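import Mathlib
import Pool.Agent.H32.M.K4

/-! Modular Schanuel for special tuples, part K5: this file joins several modules to save build time. -/

section S_T3_Schwarz

/-!
# A Schwarz lemma on the annulus
-/

namespace H32.T3

open Complex Filter Topology Finset

/-- Finite Taylor expansion with bounds. -/
theorem taylor_div {f : ℂ → ℂ} {c : ℂ} {r S : ℝ} (hr : 0 < r)
    (hf : DifferentiableOn ℂ f (Metric.ball c r)) (hS : ∀ w ∈ Metric.ball c r, ‖f w‖ ≤ S) (T : ℕ) :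
    ∃ (a : ℕ → ℂ) (g : ℂ → ℂ), DifferentiableOn ℂ g (Metric.ball c r) ∧
      (∀ w, f w = ∑ t ∈ range T, a t * (w - c) ^ t + (w - c) ^ T * g w) ∧
      (∀ t, t < T → ‖a t‖ ≤ (2 / r) ^ t * S) ∧ (∀ w ∈ Metric.ball c r, ‖g w‖ ≤ (2 / r) ^ T * S) := by
  have hc : c ∈ Metric.ball c r := Metric.mem_ball_self hr
  induction T with
  | zero => exact ⟨0, f, hf, by simp, by simp, by simpa using hS⟩
  | succ T ih =>
    obtain ⟨a, g, hg, hfg, ha, hgS⟩ := ih
    refine ⟨fun t ↦ if t = T then g c else a t, dslope g c, ?_, ?_, ?_, ?_⟩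
    · exact (Complex.differentiableOn_dslope (Metric.ball_mem_nhds c hr)).mpr hg
    · intro w
      rw [sum_range_succ]
      beta_reduce
      rw [if_pos rfl, hfg w]
      have h1 : ∑ t ∈ range T, (if t = T then g c else a t) * (w - c) ^ t =
          ∑ t ∈ range T, a t * (w - c) ^ t := by
        refine sum_congr rfl fun t ht ↦ ?_
        rw [if_neg (by have := mem_range.mp ht; omega)]
      rw [h1]
      have h2 := sub_smul_dslope g c w
      rw [smul_eq_mul] at h2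
      rw [pow_succ]
      linear_combination -(w - c) ^ T * h2
    · intro t ht
      rcases eq_or_ne t T with rfl | hne
      · simp only [if_true]
        exact hgS c hc
      · simp only [hne, if_false]
        exact ha t (by omega)
    · intro w hw
      have hmaps : Set.MapsTo g (Metric.ball c r)
          (Metric.closedBall (g c) (2 * ((2 / r) ^ T * S))) := by
        intro v hv
        rw [Metric.mem_closedBall, dist_eq_norm]
        have h1 := hgS v hv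
        have h2 := hgS c hc
        have h3 := norm_sub_le (g v) (g c)
        linarith
      refine (Complex.norm_dslope_le_div_of_mapsTo_ball hg hmaps hw).trans (le_of_eq ?_)
      rw [pow_succ]
      ring

lemma iter_deriv {U : Set ℂ} (hU : IsOpen U) {Φ : ℕ → ℂ → ℂ} {lam : ℂ}
    (h : ∀ t, ∀ s ∈ U, HasDerivAt (Φ t) (lam * Φ (t + 1) s) s) (t : ℕ) :
    ∀ s ∈ U, iteratedDeriv t (Φ 0) s = lam ^ t * Φ t s := by
  induction t with
  | zero => intro s _; simp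
  | succ t ih =>
    intro s hs
    rw [iteratedDeriv_succ]
    have h1 : iteratedDeriv t (Φ 0) =ᶠ[𝓝 s] fun s ↦ lam ^ t * Φ t s := by
      filter_upwards [hU.mem_nhds hs] with v hv using ih v hv
    rw [h1.deriv_eq, ((h t s hs).const_mul (lam ^ t)).deriv]
    ring

/-- Vanishing order from the derivatives. -/
lemma order_of_system {U : Set ℂ} (hU : IsOpen U) (h0U : (0 : ℂ) ∈ U) {Φ : ℕ → ℂ → ℂ} {lam : ℂ}
    (h : ∀ t, ∀ s ∈ U, HasDerivAt (Φ t) (lam * Φ (t + 1) s) s) {T : ℕ}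
    (h0 : ∀ t < T, Φ t 0 = 0) :
    ∃ g, AnalyticAt ℂ g 0 ∧ ∀ᶠ s in 𝓝 (0 : ℂ), Φ 0 s = s ^ T * g s := by
  have hd : DifferentiableOn ℂ (Φ 0) U := fun s hs ↦
    (h 0 s hs).differentiableAt.differentiableWithinAt
  have han : AnalyticAt ℂ (Φ 0) 0 := hd.analyticAt (hU.mem_nhds h0U)
  have h1 : (T : ℕ∞) ≤ analyticOrderAt (Φ 0) 0 := by
    rw [natCast_le_analyticOrderAt_iff_iteratedDeriv_eq_zero han]
    intro i hi
    rw [iter_deriv hU h i 0 h0U, h0 i hi, mul_zero]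
  rw [natCast_le_analyticOrderAt han] at h1
  obtain ⟨g, hg, hev⟩ := h1
  refine ⟨g, hg, ?_⟩
  filter_upwards [hev] with s hs
  rw [hs, sub_zero, smul_eq_mul]

/-- The Schwarz lemma on the annulus. -/
theorem schwarz_ann {p : ℂ} (hp0 : p ≠ 0) (hp1 : ‖p‖ < 1) {N T : ℕ} (hT : 1 ≤ T)
    (hN : ‖p‖ ^ (4 * N) ≤ 1 / 2)
    {G pol g : ℂ → ℂ} (hG : DifferentiableOn ℂ G {0}ᶜ) (hpol : DifferentiableOn ℂ pol {0}ᶜ)
    (hg : AnalyticAt ℂ g 1) (hloc : ∀ᶠ w in 𝓝 (1 : ℂ), G w - pol w = (w - 1) ^ T * g w)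
    {E η : ℝ} (hE : ∀ w ∈ Ann p (2 * N), ‖G w‖ ≤ E) (hη : ∀ w ∈ Ann p (2 * N), ‖pol w‖ ≤ η)
    {w : ℂ} (hw : w ∈ Ann p N) : ‖G w‖ ≤ η + (E + η) * (4 * ‖p‖ ^ N) ^ T := by
  classical
  have hpn : 0 < ‖p‖ := norm_pos_iff.mpr hp0
  set R : ℝ := (‖p‖ ^ (4 * N))⁻¹ with hR
  have hRpos : 0 < R := by positivity
  have hRinv : R⁻¹ = ‖p‖ ^ (4 * N) := by rw [hR, inv_inv]
  have hR2 : 2 ≤ R := by
    rw [hR]
    rw [le_inv_comm₀ (by norm_num) (by positivity)]
    linarith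
  have h1Ann : (1 : ℂ) ∈ Ann p (2 * N) := by
    refine ⟨?_, ?_⟩
    · rw [norm_one]; exact pow_le_one₀ (norm_nonneg _) hp1.le
    · rw [norm_one, one_mul]; exact pow_le_one₀ (norm_nonneg _) hp1.le
  have hE0 : 0 ≤ E := (norm_nonneg _).trans (hE 1 h1Ann)
  have hη0 : 0 ≤ η := (norm_nonneg _).trans (hη 1 h1Ann)
  have hAnn : ∀ v : ℂ, R⁻¹ ≤ ‖v‖ → ‖v‖ ≤ R → v ∈ Ann p (2 * N) := by
    intro v h1 h2
    have e : 2 * (2 * N) = 4 * N := by ring
    refine ⟨by rw [e, ← hRinv]; exact h1, ?_⟩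
    rw [e, ← hRinv]
    calc ‖v‖ * R⁻¹ ≤ R * R⁻¹ := by gcongr
      _ = 1 := mul_inv_cancel₀ hRpos.ne'
  -- the quotient
  set H : ℂ → ℂ := fun w ↦ if w = 1 then g 1 else (G w - pol w) / (w - 1) ^ T with hH
  have hHd : DifferentiableOn ℂ H {0}ᶜ := by
    intro v hv
    rcases eq_or_ne v 1 with rfl | hne
    · have h1 : H =ᶠ[𝓝 1] g := by
        filter_upwards [hloc] with v hv
        rw [hH]
        simp only
        split_ifs with h
        · rw [h]
        · rw [hv, mul_div_cancel_left₀]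
          exact pow_ne_zero _ (sub_ne_zero.mpr h)
      exact (hg.differentiableAt.congr_of_eventuallyEq h1).differentiableWithinAt
    · have h1 : H =ᶠ[𝓝 v] fun w ↦ (G w - pol w) / (w - 1) ^ T := by
        filter_upwards [isOpen_ne.mem_nhds hne] with u hu
        rw [hH]
        simp only
        rw [if_neg hu]
      have h2 : DifferentiableAt ℂ (fun w ↦ (G w - pol w) / (w - 1) ^ T) v := by
        have hGv := (hG v hv).differentiableAt (isOpen_U.mem_nhds hv)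
        have hpv := (hpol v hv).differentiableAt (isOpen_U.mem_nhds hv)
        have h3 : (v - 1) ^ T ≠ 0 := pow_ne_zero _ (sub_ne_zero.mpr hne)
        exact (hGv.fun_sub hpv).fun_div (by fun_prop) h3
      exact (h2.congr_of_eventuallyEq h1).differentiableWithinAt
  set Φ : ℂ → ℂ := fun w ↦ H w ^ 2 * w ^ T with hΦ
  have hΦd : DifferentiableOn ℂ Φ {0}ᶜ := by
    rw [hΦ]
    fun_prop
  -- the open annulus
  set U : Set ℂ := {v | R⁻¹ < ‖v‖ ∧ ‖v‖ < R} with hU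
  have hUb : Bornology.IsBounded U := by
    refine (Metric.isBounded_ball (x := (0 : ℂ)) (r := R)).subset fun v hv ↦ ?_
    rw [mem_ball_zero_iff]; exact hv.2
  have hUcl : closure U ⊆ {v | R⁻¹ ≤ ‖v‖ ∧ ‖v‖ ≤ R} := by
    apply closure_minimal
    · intro v hv; exact ⟨hv.1.le, hv.2.le⟩
    · exact (isClosed_le continuous_const continuous_norm).inter
        (isClosed_le continuous_norm continuous_const)
  have hUo : IsOpen U := (isOpen_lt continuous_const continuous_norm).inter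
    (isOpen_lt continuous_norm continuous_const)
  have hne0 : ∀ v : ℂ, R⁻¹ ≤ ‖v‖ → v ≠ 0 := by
    rintro v hv rfl
    rw [norm_zero] at hv
    have : 0 < R⁻¹ := by positivity
    linarith
  have hdc : DiffContOnCl ℂ Φ U := by
    apply DifferentiableOn.diffContOnCl
    exact hΦd.mono fun v hv ↦ hne0 v (hUcl hv).1
  have hfr : ∀ v ∈ frontier U, ‖Φ v‖ ≤ (E + η) ^ 2 * (4 / R) ^ T := by
    intro v hv
    have h1 := hUcl (frontier_subset_closure hv)
    have h2 : v ∉ U := by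
      have := hUo.frontier_eq ▸ hv
      exact this.2
    have h3 : ‖v‖ = R ∨ ‖v‖ = R⁻¹ := by
      rcases eq_or_lt_of_le h1.2 with h | h
      · exact Or.inl h
      · right
        by_contra hcon
        exact h2 ⟨lt_of_le_of_ne h1.1 (Ne.symm hcon), h⟩
    have hv0 : 0 < ‖v‖ := norm_pos_iff.mpr (hne0 v h1.1)
    have h4 : ‖v‖ / ‖v - 1‖ ^ 2 ≤ 4 / R := by
      rcases h3 with h3 | h3
      · have h5 : R - 1 ≤ ‖v - 1‖ := by
          have := norm_sub_norm_le v 1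
          rw [norm_one, h3] at this
          exact this
        have h6 : 0 < R - 1 := by linarith
        calc ‖v‖ / ‖v - 1‖ ^ 2 ≤ R / (R - 1) ^ 2 := by rw [h3]; gcongr
          _ ≤ 4 / R := by
            rw [div_le_div_iff₀ (by positivity) hRpos]
            nlinarith
      · have h5 : 1 - R⁻¹ ≤ ‖v - 1‖ := by
          have := norm_sub_norm_le 1 v
          rw [norm_one, h3, norm_sub_rev] at this
          exact this
        have h7 : R⁻¹ ≤ 1 / 2 := by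
          rw [hRinv]; exact hN
        have h6 : 0 < 1 - R⁻¹ := by linarith
        calc ‖v‖ / ‖v - 1‖ ^ 2 ≤ R⁻¹ / (1 - R⁻¹) ^ 2 := by rw [h3]; gcongr
          _ ≤ 4 / R := by
            rw [div_le_iff₀ (by positivity), div_eq_mul_inv]
            have h8 : 0 < R⁻¹ := by positivity
            have h9 : 1 ≤ 4 * (1 - R⁻¹) ^ 2 := by nlinarith
            nlinarith
    have hvne : v ≠ 1 := by
      rintro rfl
      rw [norm_one] at h3
      rcases h3 with h3 | h3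
      · linarith
      · have h7 : R⁻¹ ≤ 1 / 2 := by rw [hRinv]; exact hN
        linarith
    have h5 : ‖Φ v‖ = ‖G v - pol v‖ ^ 2 * (‖v‖ / ‖v - 1‖ ^ 2) ^ T := by
      rw [hΦ]
      simp only
      rw [norm_mul, norm_pow, norm_pow, hH]
      simp only [if_neg hvne]
      rw [norm_div, norm_pow, div_pow, div_pow, ← pow_mul, ← pow_mul, mul_comm T 2]
      ring
    rw [h5]
    have h6 : ‖G v - pol v‖ ≤ E + η := by
      have h7 := hAnn v h1.1 h1.2
      exact (norm_sub_le _ _).trans (add_le_add (hE v h7) (hη v h7))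
    gcongr
  -- the conclusion
  have hwn : 0 < ‖w‖ := norm_pos_iff.mpr (Ann_ne_zero hp0 hw)
  have hpN : ‖p‖ ^ (4 * N) = (‖p‖ ^ (2 * N)) ^ 2 := by rw [← pow_mul]; congr 1; ring
  have hp2N : 0 < ‖p‖ ^ (2 * N) := by positivity
  have hp2N1 : ‖p‖ ^ (2 * N) < 1 := by
    by_contra hcon
    push Not at hcon
    rw [hpN] at hN
    nlinarith
  have hw' : w ∈ U := by
    refine ⟨?_, ?_⟩
    · rw [hRinv, hpN]
      refine lt_of_lt_of_le ?_ hw.1
      nlinarith
    · rw [hR, hpN]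
      have h1 : ‖w‖ ≤ (‖p‖ ^ (2 * N))⁻¹ := by
        rw [← one_div]; exact (le_div_iff₀ hp2N).mpr hw.2
      refine h1.trans_lt ?_
      apply inv_strictAnti₀ (by positivity)
      nlinarith
  have hmax := Complex.norm_le_of_forall_mem_frontier_norm_le hUb hdc hfr (subset_closure hw')
  have hsq : ‖G w - pol w‖ ^ 2 ≤ ((E + η) * (4 * ‖p‖ ^ N) ^ T) ^ 2 := by
    rcases eq_or_ne w 1 with rfl | hne
    · have h1 := hloc.self_of_nhds
      rw [sub_self, zero_pow (by omega), zero_mul] at h1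
      rw [h1, norm_zero, zero_pow (by norm_num)]
      positivity
    · have h5 : ‖G w - pol w‖ ^ 2 = ‖Φ w‖ * (‖w - 1‖ ^ 2 / ‖w‖) ^ T := by
        have hd : ‖w - 1‖ ≠ 0 := norm_ne_zero_iff.mpr (sub_ne_zero.mpr hne)
        rw [hΦ]
        simp only
        rw [norm_mul, norm_pow, norm_pow, hH]
        simp only [if_neg hne]
        rw [norm_div, norm_pow, div_pow, div_pow, ← pow_mul, ← pow_mul, mul_comm T 2]
        field_simp
      have h6 : ‖w - 1‖ ^ 2 / ‖w‖ ≤ 4 * (‖p‖ ^ (2 * N))⁻¹ := by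
        have h7 : ‖w - 1‖ ≤ ‖w‖ + 1 := by
          have := norm_sub_le w 1
          rwa [norm_one] at this
        rw [div_le_iff₀ hwn]
        set a := ‖p‖ ^ (2 * N) with ha
        have h8 : a ≤ ‖w‖ := hw.1
        have h9 : ‖w‖ * a ≤ 1 := hw.2
        have h10 : ‖w - 1‖ ^ 2 ≤ (‖w‖ + 1) ^ 2 := by gcongr
        refine h10.trans ?_
        rw [mul_assoc, mul_comm a⁻¹, ← mul_assoc, ← div_eq_mul_inv, le_div_iff₀ hp2N]
        nlinarith
      have h7 : 4 / R * (4 * (‖p‖ ^ (2 * N))⁻¹) = (4 * ‖p‖ ^ N) ^ 2 := by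
        rw [div_eq_mul_inv, hRinv, hpN]
        have : ‖p‖ ^ (2 * N) = (‖p‖ ^ N) ^ 2 := by rw [← pow_mul]; congr 1; ring
        rw [this]
        have h0 : 0 < ‖p‖ ^ N := by positivity
        field_simp
      rw [h5]
      calc ‖Φ w‖ * (‖w - 1‖ ^ 2 / ‖w‖) ^ T
          ≤ ((E + η) ^ 2 * (4 / R) ^ T) * (4 * (‖p‖ ^ (2 * N))⁻¹) ^ T := by gcongr
        _ = (E + η) ^ 2 * ((4 / R) * (4 * (‖p‖ ^ (2 * N))⁻¹)) ^ T := by
          rw [mul_pow (4 / R : ℝ)]; ring
        _ = _ := by rw [h7, mul_pow (E + η), ← pow_mul, ← pow_mul, mul_comm 2 T]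
  have hfin : ‖G w - pol w‖ ≤ (E + η) * (4 * ‖p‖ ^ N) ^ T :=
    le_of_sq_le_sq hsq (by positivity)
  have h1 : ‖G w‖ ≤ ‖G w - pol w‖ + ‖pol w‖ := by
    have := norm_add_le (G w - pol w) (pol w)
    rwa [sub_add_cancel] at this
  have h2 : ‖pol w‖ ≤ η := by
    apply hη
    exact Ann_mono hp1.le (by omega) hw
  linarith

end H32.T3

end S_T3_Schwarz

section S_T3_Wp

/-!
# The Weierstrass function of the lattice `ℤ τ + ℤ`
-/

namespace H32.T3

open UpperHalfPlane hiding I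
open Complex EisensteinSeries ModularForm Filter Topology

/-- The lattice. -/
noncomputable def LL (τ : ℍ) : PeriodPair where
  ω₁ := τ
  ω₂ := 1
  indep := by
    rw [LinearIndependent.pair_iff]
    intro s t h
    have h1 := congrArg Complex.im h
    have h2 := congrArg Complex.re h
    simp at h1 h2
    have h3 : s = 0 := by
      rcases h1 with h1 | h1
      · exact h1
      · exact absurd h1 τ.im_ne_zero
    subst h3
    simp at h2
    exact ⟨rfl, h2⟩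

lemma LL_symm (τ : ℍ) (x : ℤ × ℤ) :
    ((LL τ).latticeEquivProd.symm x).1 = x.1 * (τ : ℂ) + x.2 := by
  rw [PeriodPair.latticeEquiv_symm_apply]
  simp [LL]

lemma riemannZeta_six : riemannZeta 6 = (Real.pi : ℂ) ^ 6 / 945 := by
  have h := riemannZeta_two_mul_nat (k := 3) (by norm_num)
  rw [show bernoulli (2 * 3) = 1 / 42 by decide +kernel] at h
  norm_num at h
  rw [h]
  ring

lemma riemannZeta_four' : riemannZeta 4 = (Real.pi : ℂ) ^ 4 / 90 := by
  have h := riemannZeta_two_mul_nat (k := 2) (by norm_num)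
  rw [show bernoulli (2 * 2) = -1 / 30 by decide +kernel] at h
  norm_num at h
  rw [h]
  ring

lemma G_eq (τ : ℍ) {k : ℕ} (hk : 3 ≤ k) :
    (LL τ).G k = riemannZeta k * eisensteinSeries (N := 1) 0 k τ := by
  rw [← tsum_eisSummand_eq_riemannZeta_mul_eisensteinSeries hk, PeriodPair.G,
    ← (LL τ).latticeEquivProd.symm.toEquiv.tsum_eq, ← (finTwoArrowEquiv ℤ).symm.tsum_eq]
  refine tsum_congr fun x ↦ ?_
  have := LL_symm τ x
  change (((((LL τ).latticeEquivProd.symm x).1 : ℂ)) ^ k)⁻¹ = _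
  rw [this]
  simp [eisSummand]

lemma g2_eq (τ : ℍ) : (LL τ).g₂ = 4 * (Real.pi : ℂ) ^ 4 / 3 * E₄ τ := by
  have h : (E₄ τ : ℂ) = (1 / 2 : ℂ) * eisensteinSeries (N := 1) 0 4 τ := rfl
  have h1 := G_eq τ (k := 4) (by norm_num)
  rw [PeriodPair.g₂, h1, h]
  push_cast
  rw [riemannZeta_four']
  ring

lemma g3_eq (τ : ℍ) : (LL τ).g₃ = 8 * (Real.pi : ℂ) ^ 6 / 27 * E₆ τ := by
  have h : (E₆ τ : ℂ) = (1 / 2 : ℂ) * eisensteinSeries (N := 1) 0 6 τ := rfl
  have h1 := G_eq τ (k := 6) (by norm_num)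
  rw [PeriodPair.g₃, h1, h]
  push_cast
  rw [riemannZeta_six]
  ring

/-- `x / (1 - x)^2`. -/
noncomputable def ff (x : ℂ) : ℂ := x / (1 - x) ^ 2

lemma tsum_row {z : ℂ} (hz : 0 < z.im) :
    ∑' n : ℤ, 1 / (z + n) ^ 2 = (2 * Real.pi * I) ^ 2 * ff (Complex.exp (2 * Real.pi * I * z)) := by
  have h := qExpansion_identity (k := 1) le_rfl ⟨z, hz⟩
  have h1 : ‖Complex.exp (2 * Real.pi * I * z)‖ < 1 := norm_exp_two_pi_I_lt_one ⟨z, hz⟩
  have h2 := tsum_coe_mul_geometric_of_norm_lt_one h1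
  simp only [pow_one, Nat.factorial_one, Nat.cast_one, div_one] at h
  change ∑' n : ℤ, 1 / (z + n) ^ 2 = _ at h
  rw [h]
  change _ * ∑' n : ℕ, (n : ℂ) * Complex.exp (2 * Real.pi * I * z) ^ n = _
  rw [h2, ff]
  ring

lemma tsum_row_neg {z : ℂ} (hz : z.im < 0) :
    ∑' n : ℤ, 1 / (z + n) ^ 2 =
      (2 * Real.pi * I) ^ 2 * ff (Complex.exp (2 * Real.pi * I * (-z))) := by
  rw [← tsum_row (z := -z) (by simpa using hz), ← (Equiv.neg ℤ).tsum_eq]
  refine tsum_congr fun n ↦ ?_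
  simp only [Equiv.neg_apply]
  congr 1
  push_cast
  ring

lemma summable_row (z : ℂ) : Summable fun n : ℤ ↦ 1 / (z + n) ^ 2 := by
  have h := linear_right_summable z 1 (k := 2) le_rfl
  refine h.congr fun n ↦ ?_
  simp

lemma norm_ff_le {x : ℂ} {ρ : ℝ} (hρ : ρ < 1) (hx : ‖x‖ ≤ ρ) : ‖ff x‖ ≤ ‖x‖ / (1 - ρ) ^ 2 := by
  rw [ff, norm_div, norm_pow]
  have h1 := norm_sub_norm_le 1 x
  rw [norm_one] at h1
  have h2 : 0 < 1 - ρ := by linarith
  gcongr
  linarith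

lemma summable_ff {q v : ℂ} (hq : ‖q‖ < 1) (hv : ‖v‖ < 1) :
    Summable fun n : ℕ ↦ ff (q ^ n * v) := by
  refine Summable.of_norm_bounded (g := fun n : ℕ ↦ ‖q‖ ^ n * (‖v‖ / (1 - ‖v‖) ^ 2))
    ((summable_geometric_of_lt_one (norm_nonneg _) hq).mul_right _) fun n ↦ ?_
  have h1 : ‖q ^ n * v‖ ≤ ‖v‖ := by
    rw [norm_mul, norm_pow]
    exact mul_le_of_le_one_left (norm_nonneg _) (pow_le_one₀ (norm_nonneg _) hq.le)
  refine (norm_ff_le hv h1).trans (le_of_eq ?_)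
  rw [norm_mul, norm_pow]
  ring

/-- The row-sum formula for `℘`. -/
theorem wp_eq (τ : ℍ) {u : ℂ} (h0 : 0 < u.im) (h1 : u.im < τ.im) :
    (LL τ).weierstrassP u = (2 * Real.pi * I) ^ 2 *
      (∑' n : ℕ, ff (Complex.exp (2 * Real.pi * I * τ) ^ n * Complex.exp (2 * Real.pi * I * u)) +
        ∑' n : ℕ, ff (Complex.exp (2 * Real.pi * I * τ) ^ n *
          Complex.exp (2 * Real.pi * I * (τ - u)))) - G2 τ := by
  set q := Complex.exp (2 * Real.pi * I * τ) with hq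
  set v := Complex.exp (2 * Real.pi * I * u) with hv
  set v' := Complex.exp (2 * Real.pi * I * (τ - u)) with hv'
  have hq1 : ‖q‖ < 1 := norm_exp_two_pi_I_lt_one τ
  have hv1 : ‖v‖ < 1 := norm_exp_two_pi_I_lt_one ⟨u, h0⟩
  have hv1' : ‖v'‖ < 1 := norm_exp_two_pi_I_lt_one ⟨τ - u, by
    change 0 < ((τ : ℂ) - u).im
    rw [Complex.sub_im, UpperHalfPlane.coe_im]; linarith⟩
  -- the double sum
  have hs1 := (LL τ).hasSum_weierstrassP u
  have hs2 : HasSum (fun x : ℤ × ℤ ↦ 1 / (u - (x.1 * (τ : ℂ) + x.2)) ^ 2 -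
      1 / (x.1 * (τ : ℂ) + x.2) ^ 2) ((LL τ).weierstrassP u) := by
    rw [← (LL τ).latticeEquivProd.symm.toEquiv.hasSum_iff] at hs1
    have e : (fun x : ℤ × ℤ ↦ 1 / (u - (x.1 * (τ : ℂ) + x.2)) ^ 2 -
      1 / (x.1 * (τ : ℂ) + x.2) ^ 2) = (fun l : (LL τ).lattice ↦ 1 / (u - (l : ℂ)) ^ 2 -
        1 / (l : ℂ) ^ 2) ∘ (LL τ).latticeEquivProd.symm.toEquiv := by
      ext x
      have := LL_symm τ x
      simp only [Function.comp_apply]
      change _ = 1 / (u - ((((LL τ).latticeEquivProd.symm x).1 : ℂ))) ^ 2 -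
        1 / ((((LL τ).latticeEquivProd.symm x).1 : ℂ)) ^ 2
      rw [this]
    rw [e]
    exact hs1
  -- rows
  set R : ℤ → ℂ := fun m ↦ ∑' n : ℤ, 1 / ((u - m * (τ : ℂ)) + n) ^ 2 with hR
  have hrow : ∀ m : ℤ, HasSum (fun n : ℤ ↦ 1 / (u - (m * (τ : ℂ) + n)) ^ 2 -
      1 / (m * (τ : ℂ) + n) ^ 2) (R m - e2Summand m τ) := by
    intro m
    refine HasSum.sub ?_ ?_
    · have h2 := (summable_row (u - m * (τ : ℂ))).hasSum
      rw [← (Equiv.neg ℤ).hasSum_iff] at h2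
      refine h2.congr_fun fun n ↦ ?_
      simp only [Function.comp_apply, Equiv.neg_apply]
      congr 2
      push_cast
      ring
    · have h2 := (e2Summand_summable m τ).hasSum
      refine h2.congr_fun fun n ↦ ?_
      simp [eisSummand]
  have hcol : HasSum (fun m : ℤ ↦ R m - e2Summand m τ) ((LL τ).weierstrassP u) :=
    hs2.prod_fiberwise hrow
  -- the sum of the rows
  have hR1 : ∀ n : ℕ, R (-(n : ℤ)) = (2 * Real.pi * I) ^ 2 * ff (q ^ n * v) := by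
    intro n
    have him : 0 < (u - ((-(n : ℤ) : ℤ) : ℂ) * (τ : ℂ)).im := by
      have h3 := τ.im_pos
      have h4 : (u - ((-(n : ℤ) : ℤ) : ℂ) * (τ : ℂ)).im = u.im + n * τ.im := by
        push_cast
        simp
      rw [h4]
      positivity
    rw [hR]
    simp only
    rw [tsum_row him]
    congr 2
    rw [hq, hv, ← Complex.exp_nat_mul, ← Complex.exp_add]
    congr 1
    push_cast
    ring
  have hR2 : ∀ n : ℕ, R ((n : ℤ) + 1) = (2 * Real.pi * I) ^ 2 * ff (q ^ n * v') := by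
    intro n
    have him : (u - (((n : ℤ) + 1 : ℤ) : ℂ) * (τ : ℂ)).im < 0 := by
      have h3 := τ.im_pos
      have h4 : (u - (((n : ℤ) + 1 : ℤ) : ℂ) * (τ : ℂ)).im = u.im - (n + 1) * τ.im := by
        push_cast
        simp
      rw [h4]
      have h5 : (0 : ℝ) ≤ n := Nat.cast_nonneg n
      nlinarith
    rw [hR]
    simp only
    rw [tsum_row_neg him]
    congr 2
    rw [hq, hv', ← Complex.exp_nat_mul, ← Complex.exp_add]
    congr 1
    push_cast
    ring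
  have hsR : HasSum R ((2 * Real.pi * I) ^ 2 * (∑' n : ℕ, ff (q ^ n * v)) +
      (2 * Real.pi * I) ^ 2 * ∑' n : ℕ, ff (q ^ n * v')) := by
    rw [← (Equiv.neg ℤ).hasSum_iff]
    refine HasSum.of_nat_of_neg_add_one ?_ ?_
    · have := ((summable_ff hq1 hv1).hasSum).mul_left ((2 * Real.pi * I) ^ 2)
      refine this.congr_fun fun n ↦ ?_
      simp only [Function.comp_apply, Equiv.neg_apply]
      exact hR1 n
    · have := ((summable_ff hq1 hv1').hasSum).mul_left ((2 * Real.pi * I) ^ 2)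
      refine this.congr_fun fun n ↦ ?_
      simp only [Function.comp_apply, Equiv.neg_apply, neg_neg]
      exact hR2 n
  have he : HasSum (fun m : ℤ ↦ e2Summand m τ) _ :=
    (hsR.sub hcol).congr_fun fun m ↦ (by ring : e2Summand m τ = R m - (R m - e2Summand m τ))
  have hG : G2 τ = _ := (tsum_eq_of_summable_unconditional
    (L := SummationFilter.symmetricIcc ℤ) he.summable).trans he.tsum_eq
  rw [hG]
  ring

end H32.T3

end S_T3_Wp

section S_T3_Wp2

/-!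
# The logarithmic derivative of the theta product and `℘`
-/

namespace H32.T3

open UpperHalfPlane hiding I
open Complex EisensteinSeries ModularForm Filter Topology

noncomputable def gg (p x : ℂ) : ℂ := ∑' n : ℕ, p ^ (2 * n + 1) * x / (1 - p ^ (2 * n + 1) * x)

lemma norm_pow_mul_le {p x : ℂ} (hp : ‖p‖ < 1) (n : ℕ) : ‖p ^ (2 * n + 1) * x‖ ≤ ‖p * x‖ := by
  calc ‖p ^ (2 * n + 1) * x‖ = ‖p‖ ^ (2 * n) * ‖p * x‖ := by
        rw [norm_mul, norm_pow, norm_mul]; ring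
    _ ≤ 1 * ‖p * x‖ := by
        gcongr
        exact pow_le_one₀ (norm_nonneg _) hp.le
    _ = _ := one_mul _

lemma one_sub_ne {y : ℂ} (hy : ‖y‖ < 1) : 1 - y ≠ 0 := by
  intro h
  have : y = 1 := by linear_combination -h
  rw [this, norm_one] at hy
  exact lt_irrefl _ hy

lemma hasDerivAt_gg {p x : ℂ} (hp : ‖p‖ < 1) (hx : ‖p * x‖ < 1) :
    HasDerivAt (gg p) (∑' n : ℕ, p ^ (2 * n + 1) / (1 - p ^ (2 * n + 1) * x) ^ 2) x := by
  obtain ⟨ρ, hρ1, hρ2⟩ := exists_between hx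
  have hρ0 : 0 < ρ := (norm_nonneg _).trans_lt hρ1
  set U : Set ℂ := {y | ‖p * y‖ < ρ} with hU
  have hUo : IsOpen U := isOpen_lt (by fun_prop) continuous_const
  have hxU : x ∈ U := hρ1
  set F : ℕ → ℂ → ℂ := fun n y ↦ p ^ (2 * n + 1) * y / (1 - p ^ (2 * n + 1) * y) with hF
  have hne : ∀ n, ∀ y ∈ U, 1 - p ^ (2 * n + 1) * y ≠ 0 := fun n y hy ↦
    one_sub_ne (((norm_pow_mul_le hp n).trans_lt hy).trans hρ2)
  have hd : ∀ n, ∀ y ∈ U, HasDerivAt (F n)
      (p ^ (2 * n + 1) / (1 - p ^ (2 * n + 1) * y) ^ 2) y := by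
    intro n y hy
    have h1 : HasDerivAt (fun y : ℂ ↦ p ^ (2 * n + 1) * y) (p ^ (2 * n + 1) * 1) y :=
      (hasDerivAt_id y).const_mul _
    have h2 := h1.fun_div (h1.const_sub 1) (hne n y hy)
    refine h2.congr_deriv ?_
    congr 1
    ring
  have hu : Summable fun n : ℕ ↦ (‖p‖ ^ 2) ^ n * (ρ / (1 - ρ)) :=
    (summable_geometric_of_lt_one (by positivity) (by nlinarith [norm_nonneg p])).mul_right _
  have hle : ∀ (n : ℕ) (y : ℂ), y ∈ U → ‖F n y‖ ≤ (‖p‖ ^ 2) ^ n * (ρ / (1 - ρ)) := by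
    intro n y hy
    rw [hF]
    simp only
    rw [norm_div]
    have h1 := norm_sub_norm_le 1 (p ^ (2 * n + 1) * y)
    rw [norm_one] at h1
    have h2 := (norm_pow_mul_le (x := y) hp n).trans hy.le
    have h3 : ‖p ^ (2 * n + 1) * y‖ ≤ (‖p‖ ^ 2) ^ n * ρ := by
      calc ‖p ^ (2 * n + 1) * y‖ = (‖p‖ ^ 2) ^ n * ‖p * y‖ := by
            rw [norm_mul, norm_pow, norm_mul]; ring
        _ ≤ _ := by gcongr; exact hy.le
    have h4 : 0 < 1 - ρ := by linarith
    rw [mul_div_assoc']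
    gcongr
    linarith
  have hdiff := differentiableOn_tsum_of_summable_norm hu
    (fun n y hy ↦ (hd n y hy).differentiableAt.differentiableWithinAt) hUo hle
  have h1 := hasSum_deriv_of_summable_norm hu
    (fun n y hy ↦ (hd n y hy).differentiableAt.differentiableWithinAt) hUo hle hxU
  have h2 := ((hdiff x hxU).differentiableAt (hUo.mem_nhds hxU)).hasDerivAt
  have h3 : (fun n ↦ deriv (F n) x) =
      fun n : ℕ ↦ p ^ (2 * n + 1) / (1 - p ^ (2 * n + 1) * x) ^ 2 := by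
    ext n; exact (hd n x hxU).deriv
  rw [h3] at h1
  rw [h1.tsum_eq]
  exact h2

lemma mul_deriv_gg {p x : ℂ} :
    x * ∑' n : ℕ, p ^ (2 * n + 1) / (1 - p ^ (2 * n + 1) * x) ^ 2 =
      ∑' n : ℕ, ff (p ^ (2 * n + 1) * x) := by
  rw [← tsum_mul_left]
  refine tsum_congr fun n ↦ ?_
  rw [ff]
  ring

lemma AA_deriv {p x : ℂ} (hp : ‖p‖ < 1) (hx : ‖p * x‖ < 1) :
    x * deriv (AA p) x = -gg p x * AA p x := by
  have h := logDeriv_AA hp hx
  have h0 := AA_ne_zero hp hx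
  rw [logDeriv_apply, div_eq_iff h0] at h
  rw [h, gg, ← mul_assoc, ← tsum_mul_left, ← tsum_neg]
  congr 1
  refine tsum_congr fun n ↦ ?_
  ring

/-- The region where the theta product has no zero. -/
def Reg (p : ℂ) : Set ℂ := {w | w ≠ 0 ∧ ‖p * w‖ < 1 ∧ ‖p * w⁻¹‖ < 1}

lemma isOpen_Reg (p : ℂ) : IsOpen (Reg p) := by
  rw [isOpen_iff_mem_nhds]
  intro w hw
  have h1 : ContinuousAt (fun w : ℂ ↦ ‖p * w‖) w := by fun_prop
  have h2 : ContinuousAt (fun w : ℂ ↦ ‖p * w⁻¹‖) w :=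
    ((continuousAt_inv₀ hw.1).const_mul p).norm
  filter_upwards [isOpen_U.mem_nhds hw.1, h1.eventually_lt continuousAt_const hw.2.1,
    h2.eventually_lt continuousAt_const hw.2.2] with v h3 h4 h5 using ⟨h3, h4, h5⟩

lemma th_ne_zero {p w : ℂ} (hp : ‖p‖ < 1) (hw : w ∈ Reg p) : th p w ≠ 0 :=
  mul_ne_zero (AA_ne_zero hp hw.2.1) (AA_ne_zero hp hw.2.2)

noncomputable def zt (p w : ℂ) : ℂ := 2 * Real.pi * I * (gg p w⁻¹ - gg p w)

lemma th1_eq {p w : ℂ} (hp : ‖p‖ < 1) (hw : w ∈ Reg p) : th1 p w = th p w * zt p w := by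
  obtain ⟨h0, h1, h2⟩ := hw
  have d1 : HasDerivAt (AA p) (deriv (AA p) w) w := (differentiable_AA hp w).hasDerivAt
  have d2 : HasDerivAt (fun w ↦ AA p w⁻¹) (deriv (AA p) w⁻¹ * (-(w ^ 2)⁻¹)) w :=
    HasDerivAt.comp (h₂ := AA p) (h := fun w : ℂ ↦ w⁻¹) w
      (differentiable_AA hp w⁻¹).hasDerivAt (hasDerivAt_inv h0)
  have d3 := (d1.mul d2).deriv
  have e : th p = AA p * fun w ↦ AA p w⁻¹ := rfl
  rw [th1, Dw, e, d3]
  have e1 := AA_deriv hp h1
  have e2 := AA_deriv hp h2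
  have e3 : 2 * Real.pi * I * w * (deriv (AA p) w * AA p w⁻¹ +
      AA p w * (deriv (AA p) w⁻¹ * (-(w ^ 2)⁻¹))) =
      2 * Real.pi * I * ((w * deriv (AA p) w) * AA p w⁻¹ -
        AA p w * (w⁻¹ * deriv (AA p) w⁻¹)) := by
    field_simp
    ring
  rw [e3, e1, e2, zt]
  simp only [Pi.mul_apply]
  ring

lemma hasDerivAt_zt {p w : ℂ} (hp : ‖p‖ < 1) (hw : w ∈ Reg p) :
    ∃ d : ℂ, HasDerivAt (zt p) d w ∧ 2 * Real.pi * I * w * d =
      -((2 * Real.pi * I) ^ 2 * (∑' n : ℕ, ff (p ^ (2 * n + 1) * w) +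
        ∑' n : ℕ, ff (p ^ (2 * n + 1) * w⁻¹))) := by
  obtain ⟨h0, h1, h2⟩ := hw
  have d1 := hasDerivAt_gg hp h1
  have d2 := HasDerivAt.comp (h₂ := gg p) (h := fun w : ℂ ↦ w⁻¹) w (hasDerivAt_gg hp h2)
    (hasDerivAt_inv h0)
  have d3 := (d2.sub d1).const_mul (2 * Real.pi * I)
  refine ⟨_, d3, ?_⟩
  rw [← mul_deriv_gg, ← mul_deriv_gg]
  field_simp
  ring

lemma P2_eq {p w : ℂ} (hp : ‖p‖ < 1) (hw : w ∈ Reg p) (lam G : ℂ) :
    P2 lam G p w = (lam ^ 2)⁻¹ * (th p w ^ 2 * ((2 * Real.pi * I) ^ 2 *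
      (∑' n : ℕ, ff (p ^ (2 * n + 1) * w) + ∑' n : ℕ, ff (p ^ (2 * n + 1) * w⁻¹)) - G)) := by
  obtain ⟨d, hd, hd2⟩ := hasDerivAt_zt hp hw
  have h1 : HasDerivAt (th p) (deriv (th p) w) w :=
    ((diff_th hp _ hw.1).differentiableAt (isOpen_U.mem_nhds hw.1)).hasDerivAt
  have h2 := h1.mul hd
  have h3 : th1 p =ᶠ[𝓝 w] th p * zt p := by
    filter_upwards [(isOpen_Reg p).mem_nhds hw] with v hv using th1_eq hp hv
  have h4 := (h2.congr_of_eventuallyEq h3).deriv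
  have h5 : th2 p w = th1 p w * zt p w + th p w * (2 * Real.pi * I * w * d) := by
    rw [th2, Dw, h4, th1, Dw]
    ring
  rw [P2, h5, hd2, th1_eq hp hw]
  congr 1
  ring

/-- `exp (2 π i s)`. -/
noncomputable def ee (s : ℂ) : ℂ := Complex.exp (2 * Real.pi * I * s)

noncomputable def pp (τ : ℍ) : ℂ := Complex.exp (Real.pi * I * τ)

lemma ee_ne (s : ℂ) : ee s ≠ 0 := Complex.exp_ne_zero _

lemma pp_ne (τ : ℍ) : pp τ ≠ 0 := Complex.exp_ne_zero _

lemma hasDerivAt_ee (s : ℂ) : HasDerivAt ee (2 * Real.pi * I * ee s) s := by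
  have h : HasDerivAt (fun s : ℂ ↦ 2 * Real.pi * I * s) (2 * Real.pi * I * 1) s :=
    (hasDerivAt_id s).const_mul _
  refine h.cexp.congr_deriv ?_
  rw [ee]
  ring

lemma norm_pp (τ : ℍ) : ‖pp τ‖ = Real.exp (-(Real.pi * τ.im)) := by
  rw [pp, Complex.norm_exp]
  congr 1
  simp [Complex.mul_re, Complex.mul_im]

lemma norm_pp_lt (τ : ℍ) : ‖pp τ‖ < 1 := by
  rw [norm_pp]
  apply Real.exp_lt_one_iff.mpr
  have := τ.im_pos
  have := Real.pi_pos
  nlinarith

lemma norm_ee (s : ℂ) : ‖ee s‖ = Real.exp (-(2 * Real.pi * s.im)) := by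
  rw [ee, Complex.norm_exp]
  congr 1
  simp [Complex.mul_re, Complex.mul_im]

lemma ee_mem_Reg {τ : ℍ} {s : ℂ} (hs : |s.im| < τ.im / 2) : ee s ∈ Reg (pp τ) := by
  rw [abs_lt] at hs
  refine ⟨ee_ne s, ?_, ?_⟩
  · rw [norm_mul, norm_pp, norm_ee, ← Real.exp_add]
    apply Real.exp_lt_one_iff.mpr
    nlinarith [Real.pi_pos]
  · rw [norm_mul, norm_inv, norm_pp, norm_ee, ← Real.exp_neg, ← Real.exp_add]
    apply Real.exp_lt_one_iff.mpr
    nlinarith [Real.pi_pos]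

/-- The numerator of `℘`. -/
theorem P2_wp {τ : ℍ} {s : ℂ} (hs : |s.im| < τ.im / 2) (lam : ℂ) :
    P2 lam (G2 τ) (pp τ) (ee s) =
      (lam ^ 2)⁻¹ * (th (pp τ) (ee s) ^ 2 * (LL τ).weierstrassP (s + τ / 2)) := by
  rw [P2_eq (norm_pp_lt τ) (ee_mem_Reg hs)]
  have hs' := hs
  rw [abs_lt] at hs
  have him : (s + τ / 2 : ℂ).im = s.im + τ.im / 2 := by
    rw [Complex.add_im]
    congr 1
    have : ((τ : ℂ) / 2) = (τ : ℂ) / ((2 : ℝ) : ℂ) := by norm_num
    rw [this, Complex.div_ofReal_im, UpperHalfPlane.coe_im]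
  rw [wp_eq τ (u := s + τ / 2) (by rw [him]; linarith) (by rw [him]; linarith)]
  congr 5
  · refine tsum_congr fun n ↦ ?_
    congr 1
    rw [pp, ee, ← Complex.exp_nat_mul, ← Complex.exp_nat_mul, ← Complex.exp_add,
      ← Complex.exp_add]
    congr 1
    push_cast
    ring
  · refine tsum_congr fun n ↦ ?_
    congr 1
    rw [pp, ee, ← Complex.exp_neg, ← Complex.exp_nat_mul, ← Complex.exp_nat_mul,
      ← Complex.exp_add, ← Complex.exp_add]
    congr 1
    push_cast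
    ring

/-- The derivative of the zeta part. -/
theorem hasDerivAt_P1 {τ : ℍ} {s : ℂ} (hs : |s.im| < τ.im / 2) {lam : ℂ} (hlam : lam ≠ 0) :
    HasDerivAt (fun s ↦ P1 lam (pp τ) (ee s) / th (pp τ) (ee s))
      (lam * (-((lam ^ 2)⁻¹ * (LL τ).weierstrassP (s + τ / 2)) - (lam ^ 2)⁻¹ * G2 τ)) s := by
  have hw := ee_mem_Reg hs
  have hp := norm_pp_lt τ
  obtain ⟨d, hd, hd2⟩ := hasDerivAt_zt hp hw
  have h1 := (hd.comp s (hasDerivAt_ee s)).const_mul lam⁻¹
  have hev : (fun s ↦ P1 lam (pp τ) (ee s) / th (pp τ) (ee s)) =ᶠ[𝓝 s]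
      fun s ↦ lam⁻¹ * (zt (pp τ) ∘ ee) s := by
    have hc : ContinuousAt ee s := (hasDerivAt_ee s).continuousAt
    filter_upwards [hc.preimage_mem_nhds ((isOpen_Reg _).mem_nhds hw)] with v hv
    have h3 := th_ne_zero hp hv
    rw [P1, th1_eq hp hv, Function.comp_apply]
    field_simp
  refine (h1.congr_of_eventuallyEq hev).congr_deriv ?_
  have h4 := P2_eq hp hw lam (G2 τ)
  have h5 := P2_wp hs lam
  rw [h4] at h5
  have h6 := th_ne_zero hp hw
  have h7 : (2 * Real.pi * I) ^ 2 *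
      (∑' n : ℕ, ff (pp τ ^ (2 * n + 1) * ee s) + ∑' n : ℕ, ff (pp τ ^ (2 * n + 1) * (ee s)⁻¹)) -
      G2 τ = (LL τ).weierstrassP (s + τ / 2) := by
    have h8 : (lam ^ 2)⁻¹ ≠ 0 := inv_ne_zero (pow_ne_zero _ hlam)
    exact mul_left_cancel₀ (pow_ne_zero 2 h6) (mul_left_cancel₀ h8 h5)
  rw [← h7]
  have h9 : lam⁻¹ * (d * (2 * Real.pi * I * ee s)) = lam⁻¹ * (2 * Real.pi * I * ee s * d) := by ring
  rw [h9, hd2]
  field_simp
  ring

end H32.T3

end S_T3_Wp2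

section S_T3_Wp3

/-!
# The differential system near the two-torsion point
-/

namespace H32.T3

open UpperHalfPlane hiding I
open Complex EisensteinSeries ModularForm Filter Topology

/-- The open strip. -/
def Strip (τ : ℍ) : Set ℂ := {u | 0 < u.im ∧ u.im < τ.im}

lemma isOpen_Strip (τ : ℍ) : IsOpen (Strip τ) :=
  (isOpen_lt continuous_const Complex.continuous_im).inter
    (isOpen_lt Complex.continuous_im continuous_const)

lemma isPreconnected_Strip (τ : ℍ) : IsPreconnected (Strip τ) := by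
  have h : Convex ℝ (Strip τ) :=
    (convex_halfSpace_im_gt 0).inter (convex_halfSpace_im_lt τ.im)
  exact h.isPreconnected

lemma Strip_lattice {τ : ℍ} {u : ℂ} (hu : u ∈ Strip τ) : u ∉ (LL τ).lattice := by
  intro h
  rw [PeriodPair.mem_lattice] at h
  obtain ⟨m, n, h⟩ := h
  have h1 := congrArg Complex.im h
  have h2 : ((m : ℂ) * (LL τ).ω₁ + (n : ℂ) * (LL τ).ω₂).im = m * τ.im := by
    change ((m : ℂ) * (τ : ℂ) + (n : ℂ) * 1).im = m * τ.im
    simp
  rw [h2] at h1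
  obtain ⟨h3, h4⟩ := hu
  rw [← h1] at h3 h4
  have hτ := τ.im_pos
  have h5 : (0 : ℝ) < m := by
    by_contra hcon
    push Not at hcon
    nlinarith
  have h6 : (m : ℝ) < 1 := by
    by_contra hcon
    push Not at hcon
    nlinarith
  have h7 : 0 < m := by exact_mod_cast h5
  have h8 : m < 1 := by exact_mod_cast h6
  omega

lemma hasDerivAt_wp {τ : ℍ} {u : ℂ} (hu : u ∈ Strip τ) :
    HasDerivAt (LL τ).weierstrassP ((LL τ).derivWeierstrassP u) u := by
  have h1 := (LL τ).analyticOnNhd_weierstrassP u (Strip_lattice hu)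
  have h2 := h1.differentiableAt.hasDerivAt
  rwa [PeriodPair.deriv_weierstrassP] at h2

lemma wp_not_const (τ : ℍ) : ¬ ∀ z ∈ Strip τ, (LL τ).derivWeierstrassP z = 0 := by
  intro hz
  -- `℘` is constant on the strip
  set z₀ : ℂ := I * (τ.im / 2 : ℝ) with hz₀
  have hτ := τ.im_pos
  have hI : ∀ t : ℝ, (I * (t : ℂ)).im = t := fun t ↦ by simp
  have hz0 : z₀ ∈ Strip τ := by
    rw [hz₀]
    refine ⟨?_, ?_⟩ <;> rw [hI] <;> linarith
  have hconst : ∀ z ∈ Strip τ, (LL τ).weierstrassP z = (LL τ).weierstrassP z₀ := by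
    intro z hz'
    have hd : DifferentiableOn ℂ (LL τ).weierstrassP (Strip τ) := fun w hw ↦
      (hasDerivAt_wp hw).differentiableAt.differentiableWithinAt
    have hder : (Strip τ).EqOn (deriv (LL τ).weierstrassP) 0 := fun w hw ↦ by
      rw [PeriodPair.deriv_weierstrassP]
      exact hz w hw
    exact (isOpen_Strip τ).is_const_of_deriv_eq_zero (isPreconnected_Strip τ) hd hder hz' hz0
  set c := (LL τ).weierstrassP z₀
  have hcont : ContinuousAt ((LL τ).weierstrassPExcept 0) 0 :=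
    ((LL τ).analyticAt_weierstrassPExcept 0).continuousAt
  have h0mem : (0 : ℂ) ∈ (LL τ).lattice := zero_mem _
  -- limits along `i t`
  have hline : Tendsto (fun t : ℝ ↦ I * (t : ℂ)) (𝓝[>] 0) (𝓝 0) := by
    have : Tendsto (fun t : ℝ ↦ I * (t : ℂ)) (𝓝 0) (𝓝 (I * ((0 : ℝ) : ℂ))) :=
      (Continuous.tendsto (by fun_prop) 0)
    rw [Complex.ofReal_zero, mul_zero] at this
    exact this.mono_left nhdsWithin_le_nhds
  have hl1 : Tendsto (fun t : ℝ ↦ (I * (t : ℂ)) ^ 2 * (LL τ).weierstrassPExcept 0 (I * t) + 1)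
      (𝓝[>] 0) (𝓝 (0 ^ 2 * (LL τ).weierstrassPExcept 0 0 + 1)) :=
    ((hline.pow 2).mul (hcont.tendsto.comp hline)).add_const 1
  have hl2 : Tendsto (fun t : ℝ ↦ (I * (t : ℂ)) ^ 2 * c) (𝓝[>] 0) (𝓝 (0 ^ 2 * c)) :=
    (hline.pow 2).mul_const c
  have heq : (fun t : ℝ ↦ (I * (t : ℂ)) ^ 2 * (LL τ).weierstrassPExcept 0 (I * t) + 1) =ᶠ[𝓝[>] 0]
      fun t : ℝ ↦ (I * (t : ℂ)) ^ 2 * c := by
    filter_upwards [Ioo_mem_nhdsGT hτ] with t ht
    have htS : I * (t : ℂ) ∈ Strip τ := by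
      refine ⟨?_, ?_⟩ <;> rw [hI]
      · exact ht.1
      · exact ht.2
    have h1 := (LL τ).weierstrassPExcept_add ⟨0, h0mem⟩ (I * t)
    rw [hconst _ htS] at h1
    simp only [sub_zero] at h1
    have hne : I * (t : ℂ) ≠ 0 := mul_ne_zero I_ne_zero (by exact_mod_cast ht.1.ne')
    have h3 : (I * (t : ℂ)) ^ 2 * (1 / (I * t) ^ 2) = 1 := mul_one_div_cancel (pow_ne_zero _ hne)
    have h4 : (1 : ℂ) / 0 ^ 2 = 0 := by simp
    rw [← h1, h4, sub_zero]
    linear_combination -h3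
  have h2 := tendsto_nhds_unique (hl1.congr' heq) hl2
  norm_num at h2

theorem hasDerivAt_wp' {τ : ℍ} {u : ℂ} (hu : u ∈ Strip τ) :
    HasDerivAt (LL τ).derivWeierstrassP
      (6 * (LL τ).weierstrassP u ^ 2 - (LL τ).g₂ / 2) u := by
  set P := (LL τ).weierstrassP
  set P' := (LL τ).derivWeierstrassP with hP'
  have hanP : AnalyticOnNhd ℂ P (Strip τ) := fun z hz ↦
    (LL τ).analyticOnNhd_weierstrassP z (Strip_lattice hz)
  have hanP' : AnalyticOnNhd ℂ P' (Strip τ) := fun z hz ↦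
    (LL τ).analyticOnNhd_derivWeierstrassP z (Strip_lattice hz)
  have hprod : ∀ z ∈ Strip τ, P' z * (deriv P' z - (6 * P z ^ 2 - (LL τ).g₂ / 2)) = 0 := by
    intro z hz
    have h1 : HasDerivAt P (P' z) z := hasDerivAt_wp hz
    have h2 : HasDerivAt P' (deriv P' z) z := (hanP' z hz).differentiableAt.hasDerivAt
    have h3 : HasDerivAt (fun z ↦ P' z ^ 2) (2 * P' z ^ 1 * deriv P' z) z := by
      simpa using h2.fun_pow 2
    have h4 : HasDerivAt (fun z ↦ 4 * P z ^ 3 - (LL τ).g₂ * P z - (LL τ).g₃)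
        (4 * (3 * P z ^ 2 * P' z) - (LL τ).g₂ * P' z) z := by
      have := ((h1.fun_pow 3).const_mul 4).fun_sub (h1.const_mul (LL τ).g₂)
      simpa using this.sub_const (LL τ).g₃
    have h5 : (fun z ↦ P' z ^ 2) =ᶠ[𝓝 z] fun z ↦ 4 * P z ^ 3 - (LL τ).g₂ * P z - (LL τ).g₃ := by
      filter_upwards [(isOpen_Strip τ).mem_nhds hz] with w hw
      exact (LL τ).derivWeierstrassP_sq w (Strip_lattice hw)
    have h6 := h3.unique (h4.congr_of_eventuallyEq h5)
    linear_combination h6 / 2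
  have han2 : AnalyticOnNhd ℂ (fun z ↦ deriv P' z - (6 * P z ^ 2 - (LL τ).g₂ / 2)) (Strip τ) := by
    intro z hz
    have h1 := hanP z hz
    have h2 := (hanP' z hz).deriv
    fun_prop
  rcases hanP'.eq_zero_or_eq_zero_of_mul_eq_zero han2 hprod (isPreconnected_Strip τ) with h | h
  · exact absurd h (wp_not_const τ)
  · have h1 := h u hu
    have h2 : deriv P' u = 6 * P u ^ 2 - (LL τ).g₂ / 2 := by linear_combination h1
    rw [← h2]
    exact (hanP' u hu).differentiableAt.hasDerivAt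

lemma half_mem {τ : ℍ} {s : ℂ} (hs : |s.im| < τ.im / 2) : s + (τ : ℂ) / 2 ∈ Strip τ := by
  have him : (s + τ / 2 : ℂ).im = s.im + τ.im / 2 := by
    rw [Complex.add_im]
    congr 1
    have : ((τ : ℂ) / 2) = (τ : ℂ) / ((2 : ℝ) : ℂ) := by norm_num
    rw [this, Complex.div_ofReal_im, UpperHalfPlane.coe_im]
  rw [abs_lt] at hs
  refine ⟨?_, ?_⟩ <;> rw [him] <;> linarith

lemma wp'_half (τ : ℍ) : (LL τ).derivWeierstrassP ((τ : ℂ) / 2) = 0 := by
  have h1 := (LL τ).derivWeierstrassP_neg ((τ : ℂ) / 2)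
  have h2 := (LL τ).derivWeierstrassP_add_coe (-((τ : ℂ) / 2)) ⟨(LL τ).ω₁, (LL τ).ω₁_mem_lattice⟩
  have h3 : (-((τ : ℂ) / 2)) + (LL τ).ω₁ = (τ : ℂ) / 2 := by
    change (-((τ : ℂ) / 2)) + (τ : ℂ) = (τ : ℂ) / 2
    ring
  change (LL τ).derivWeierstrassP ((-((τ : ℂ) / 2)) + (LL τ).ω₁) = _ at h2
  rw [h3, h1] at h2
  have h4 : (2 : ℂ) * (LL τ).derivWeierstrassP ((τ : ℂ) / 2) = 0 := by linear_combination h2
  rcases mul_eq_zero.mp h4 with h | h
  · norm_num at h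
  · exact h

/-- The data attached to `τ` and a square root `lam` of `g₃ / g₂`. -/
theorem system {τ : ℍ} {lam : ℂ} (h4 : E₄ τ ≠ 0) (h6 : E₆ τ ≠ 0)
    (hlam : lam ^ 2 = (LL τ).g₃ / (LL τ).g₂) :
    ∃ X X1 Y : ℂ → ℂ,
      (∀ s : ℂ, |s.im| < τ.im / 2 →
        P2 lam (G2 τ) (pp τ) (ee s) = th (pp τ) (ee s) ^ 2 * X s ∧
        P1 lam (pp τ) (ee s) = th (pp τ) (ee s) * Y s ∧
        HasDerivAt X (lam * X1 s) s ∧
        HasDerivAt X1 (lam * (6 * X s ^ 2 - 27 / 2 * (E₄ τ ^ 3 / E₆ τ ^ 2))) s ∧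
        HasDerivAt Y (lam * (-X s - 3 / 2 * (E2 τ * E₄ τ / E₆ τ))) s) ∧
      X1 0 = 0 ∧ Y 0 = 0 ∧
      4 * X 0 ^ 3 - 2 * (27 / 2 * (E₄ τ ^ 3 / E₆ τ ^ 2)) * X 0 -
        2 * (27 / 2 * (E₄ τ ^ 3 / E₆ τ ^ 2)) = 0 := by
  have hpi : (Real.pi : ℂ) ≠ 0 := by exact_mod_cast Real.pi_ne_zero
  have hg2 := g2_eq τ
  have hg3 := g3_eq τ
  have hg20 : (LL τ).g₂ ≠ 0 := by
    rw [hg2]
    exact mul_ne_zero (div_ne_zero (mul_ne_zero (by norm_num) (pow_ne_zero _ hpi)) (by norm_num)) h4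
  have hg30 : (LL τ).g₃ ≠ 0 := by
    rw [hg3]
    exact mul_ne_zero (div_ne_zero (mul_ne_zero (by norm_num) (pow_ne_zero _ hpi)) (by norm_num)) h6
  have hlam0 : lam ≠ 0 := by
    rintro rfl
    rw [zero_pow (by norm_num)] at hlam
    exact div_ne_zero hg30 hg20 hlam.symm
  have hh : (LL τ).g₂ / (2 * lam ^ 4) = 27 / 2 * (E₄ τ ^ 3 / E₆ τ ^ 2) := by
    have : lam ^ 4 = ((LL τ).g₃ / (LL τ).g₂) ^ 2 := by rw [← hlam]; ring
    rw [this, hg2, hg3]
    field_simp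
    ring
  have hk : (lam ^ 2)⁻¹ * G2 τ = 3 / 2 * (E2 τ * E₄ τ / E₆ τ) := by
    have hE2 : E2 τ = (3 / (Real.pi : ℂ) ^ 2) * G2 τ := by
      have : E2 τ = (1 / (2 * riemannZeta 2)) * G2 τ := rfl
      rw [this, riemannZeta_two]
      field_simp
      ring
    rw [hlam, hE2, hg2, hg3]
    field_simp
    ring
  refine ⟨fun s ↦ (lam ^ 2)⁻¹ * (LL τ).weierstrassP (s + τ / 2),
    fun s ↦ (lam ^ 3)⁻¹ * (LL τ).derivWeierstrassP (s + τ / 2),
    fun s ↦ P1 lam (pp τ) (ee s) / th (pp τ) (ee s), ?_, ?_, ?_, ?_⟩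
  · intro s hs
    have hth := th_ne_zero (norm_pp_lt τ) (ee_mem_Reg hs)
    have hS := half_mem hs
    refine ⟨?_, ?_, ?_, ?_, ?_⟩
    · rw [P2_wp hs]; ring
    · field_simp
    · have h1 := (hasDerivAt_wp hS).comp_add_const s ((τ : ℂ) / 2)
      refine (h1.const_mul (lam ^ 2)⁻¹).congr_deriv ?_
      field_simp
    · have h1 := (hasDerivAt_wp' hS).comp_add_const s ((τ : ℂ) / 2)
      refine (h1.const_mul (lam ^ 3)⁻¹).congr_deriv ?_
      rw [← hh]
      field_simp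
    · refine (hasDerivAt_P1 hs hlam0).congr_deriv ?_
      rw [← hk]
  · simp only [zero_add]
    rw [wp'_half, mul_zero]
  · have h0 : ee 0 = 1 := by simp [ee]
    have hs : |(0 : ℂ).im| < τ.im / 2 := by
      have := τ.im_pos
      simpa using this
    have h1 : P1 lam (pp τ) (ee 0) = 0 := by
      rw [P1, th1_eq (norm_pp_lt τ) (ee_mem_Reg hs), zt, h0, inv_one]
      simp
    simp only
    rw [h1, zero_div]
  · simp only [zero_add]
    have h1 := (LL τ).derivWeierstrassP_sq ((τ : ℂ) / 2) (Strip_lattice (by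
      have := half_mem (τ := τ) (s := 0) (by have := τ.im_pos; simpa using this)
      rwa [zero_add] at this))
    rw [wp'_half] at h1
    have hl3 : (LL τ).g₃ = lam ^ 2 * (LL τ).g₂ := by
      rw [hlam]; field_simp
    rw [hl3] at h1
    rw [← hh]
    field_simp
    linear_combination (-1) * h1

end H32.T3

end S_T3_Wp3
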