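import Mathlib

/-! Modular Schanuel for special tuples, part K7: this file joins several modules to save build time. -/

section S_T3_Num

/-!
# Numerical inequalities for the choice of parameters
-/

namespace H32.T3

open Real

/-- The standing assumptions on the large parameter. -/
structure Big (K x : ℝ) : Prop where
  K1 : 1 ≤ K
  hx : 10 ^ 6 * K ^ 2 ≤ x
  hexp : x ^ 16 ≤ exp (x / 100)

namespace Big

variable {K x : ℝ}

lemma x6 (h : Big K x) : 10 ^ 6 ≤ x := by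
  have := h.hx
  have := h.K1
  nlinarith

lemma Kx (h : Big K x) : 10 ^ 6 * K ≤ x := by
  have := h.hx
  have := h.K1
  nlinarith

lemma x1 (h : Big K x) : 1 ≤ x := by have := h.x6; linarith

lemma x0 (h : Big K x) : 0 < x := by have := h.x6; linarith

/-- `c x^m ≤ x^n` when `c ≤ x` and `m < n`. -/
lemma pw (h : Big K x) {c : ℝ} (hc : c ≤ x) {m n : ℕ} (hmn : m < n) : c * x ^ m ≤ x ^ n := by
  have h0 := h.x0
  calc c * x ^ m ≤ x * x ^ m := by gcongr
    _ = x ^ (m + 1) := by ring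
    _ ≤ x ^ n := pow_le_pow_right₀ h.x1 hmn

lemma log_le (h : Big K x) {y : ℝ} (hy : 0 < y) (hyx : y ≤ x ^ 16) : log y ≤ x / 100 := by
  rw [Real.log_le_iff_le_exp hy]
  exact hyx.trans h.hexp

/-- Siegel's condition. -/
lemma siegel (h : Big K x) {L T b : ℝ} (hL : L = 12 * x ^ 5) (hT : T = 12 * x ^ 9)
    (hb : x ^ 10 ≤ b) :
    2 * log L + T * log (7 * (2 * L + T)) + 3 * (2 * L + T) + 1 ≤ b := by
  have h0 := h.x0
  have h1 := h.x1
  have h6 := h.x6
  have hL0 : 0 < L := by rw [hL]; positivity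
  have hT0 : 0 < T := by rw [hT]; positivity
  have e1 : log L ≤ L := (Real.log_le_sub_one_of_pos hL0).trans (by linarith)
  have e2 : log (7 * (2 * L + T)) ≤ x / 100 := by
    apply h.log_le (by positivity)
    rw [hL, hT]
    have a1 : 168 * x ^ 5 ≤ x ^ 15 := h.pw (by linarith) (by norm_num)
    have a2 : 84 * x ^ 9 ≤ x ^ 15 := h.pw (by linarith) (by norm_num)
    have a3 : 2 * x ^ 15 ≤ x ^ 16 := h.pw (by linarith) (by norm_num)
    linarith
  have e3 : T * log (7 * (2 * L + T)) ≤ x ^ 10 / 8 := by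
    calc T * log (7 * (2 * L + T)) ≤ T * (x / 100) := by gcongr
      _ = 12 * x ^ 10 / 100 := by rw [hT]; ring
      _ ≤ x ^ 10 / 8 := by
        have : 0 < x ^ 10 := by positivity
        linarith
  have a1 : 1000 * x ^ 5 ≤ x ^ 10 := h.pw (by linarith) (by norm_num)
  have a2 : 1000 * x ^ 9 ≤ x ^ 10 := h.pw (by linarith) (by norm_num)
  have a3 : 1000 * x ^ 0 ≤ x ^ 10 := h.pw (by linarith) (by norm_num)
  rw [pow_zero] at a3
  linarith

lemma S_le (h : Big K x) {L : ℕ} (hL : (L : ℝ) = 12 * x ^ 5) {δ B V C E S : ℝ}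
    (hδ : δ ≤ exp (-x ^ 22)) (hδ0 : 0 ≤ δ) (hB : B ≤ exp (x ^ 10 + 1)) (hB0 : 0 ≤ B)
    (hV : V ≤ exp K) (hV0 : 0 ≤ V) (hC : C ≤ exp K) (hC0 : 0 ≤ C) (hE : E ≤ exp K) (hE0 : 0 ≤ E)
    (hS : S = δ * (L ^ 3 * B * V ^ (2 * L) * C * E ^ (3 * L))) :
    S ≤ exp (-x ^ 22 + 2 * x ^ 10) := by
  have h0 := h.x0
  have hK := h.K1
  have hKx := h.Kx
  have h6 := h.x6
  have e1 : (L : ℝ) ≤ exp L := by have := Real.add_one_le_exp (L : ℝ); linarith
  rw [hS]
  calc δ * (L ^ 3 * B * V ^ (2 * L) * C * E ^ (3 * L))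
      ≤ exp (-x ^ 22) * (exp L ^ 3 * exp (x ^ 10 + 1) * exp K ^ (2 * L) * exp K *
          exp K ^ (3 * L)) := by gcongr
    _ = exp (-x ^ 22 + (3 * L + (x ^ 10 + 1) + 2 * L * K + K + 3 * L * K)) := by
        rw [← Real.exp_nat_mul, ← Real.exp_nat_mul, ← Real.exp_nat_mul]
        simp only [← Real.exp_add]
        congr 1
        push_cast
        ring
    _ ≤ _ := by
        apply Real.exp_le_exp.mpr
        rw [hL]
        have a1 : (96 * K) * x ^ 5 ≤ x ^ 6 := h.pw (by linarith) (by norm_num)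
        have a2 : 4 * x ^ 6 ≤ x ^ 10 := h.pw (by linarith) (by norm_num)
        have a3 : 4 * x ^ 1 ≤ x ^ 10 := h.pw (by linarith) (by norm_num)
        rw [pow_one] at a3
        have a4 : 36 * x ^ 5 ≤ 36 * K * x ^ 5 := by
          have : 0 < x ^ 5 := by positivity
          nlinarith
        nlinarith

lemma eta_le (h : Big K x) {T N : ℕ} (hT : (T : ℝ) ≤ 1728 * x ^ 15) (hN : (N : ℝ) ≤ 12 * x ^ 5)
    {b P S η : ℝ} (hb : b ≤ exp K) (hb0 : 0 ≤ b) (hP : P ≤ exp (4 * N * K)) (hP0 : 0 ≤ P)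
    (hS : S ≤ exp (-x ^ 22 + 2 * x ^ 10)) (hS0 : 0 ≤ S) (hη : η = T * (b * P) ^ T * S) :
    η ≤ exp (-x ^ 21) := by
  have h0 := h.x0
  have hK := h.K1
  have hKx := h.Kx
  have h6 := h.x6
  have e1 : (T : ℝ) ≤ exp T := by have := Real.add_one_le_exp (T : ℝ); linarith
  rw [hη]
  calc T * (b * P) ^ T * S ≤ exp T * (exp K * exp (4 * N * K)) ^ T *
        exp (-x ^ 22 + 2 * x ^ 10) := by gcongr
    _ = exp (T * (1 + K + 4 * N * K) + (-x ^ 22 + 2 * x ^ 10)) := by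
        rw [← Real.exp_add, ← Real.exp_nat_mul]
        simp only [← Real.exp_add]
        congr 1
        ring
    _ ≤ _ := by
        apply Real.exp_le_exp.mpr
        have hN0 : (0 : ℝ) ≤ N := Nat.cast_nonneg N
        have a0 : 1 ≤ x ^ 5 := one_le_pow₀ h.x1
        have a1 : 1 + K + 4 * N * K ≤ 50 * K * x ^ 5 := by
          have : 4 * N * K ≤ 48 * x ^ 5 * K := by nlinarith
          nlinarith
        have a2 : (T : ℝ) * (1 + K + 4 * N * K) ≤ x ^ 21 := by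
          calc (T : ℝ) * (1 + K + 4 * N * K) ≤ (1728 * x ^ 15) * (50 * K * x ^ 5) := by gcongr
            _ = (86400 * K) * x ^ 20 := by ring
            _ ≤ _ := h.pw (by linarith) (by norm_num)
        have a3 : 10 * x ^ 21 ≤ x ^ 22 := h.pw (by linarith) (by norm_num)
        have a4 : 10 * x ^ 10 ≤ x ^ 21 := h.pw (by linarith) (by norm_num)
        have a5 : 0 < x ^ 21 := by positivity
        linarith

lemma gain {pn r : ℝ} (hK : 1 ≤ K) (hp0 : 0 ≤ pn) (hpr : pn ≤ r) (hr : r ≤ exp (-K⁻¹)) {N : ℕ}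
    (hN : 4 * K ≤ N) (T : ℕ) : (4 * pn ^ N) ^ T ≤ exp (-(N * T / (2 * K))) := by
  have hK0 : 0 < K := by linarith
  have h1 : pn ^ N ≤ exp (-(N / K)) := by
    calc pn ^ N ≤ exp (-K⁻¹) ^ N := by gcongr; exact hpr.trans hr
      _ = exp (-(N / K)) := by
        rw [← Real.exp_nat_mul]; congr 1; ring
  have h2 : (4 : ℝ) ≤ exp (N / (2 * K)) := by
    have h3 : (2 : ℝ) ≤ N / (2 * K) := by
      rw [le_div_iff₀ (by positivity)]; linarith
    have h4 : (4 : ℝ) ≤ exp 2 := by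
      have := Real.exp_one_gt_d9
      have e : exp 2 = exp 1 * exp 1 := by rw [← Real.exp_add]; norm_num
      rw [e]; nlinarith
    exact h4.trans (Real.exp_le_exp.mpr h3)
  have h3 : 4 * pn ^ N ≤ exp (-(N / (2 * K))) := by
    calc 4 * pn ^ N ≤ exp (N / (2 * K)) * exp (-(N / K)) := by gcongr
      _ = exp (-(N / (2 * K))) := by
        rw [← Real.exp_add]; congr 1; field_simp; ring
  calc (4 * pn ^ N) ^ T ≤ exp (-(N / (2 * K))) ^ T := by gcongr
    _ = _ := by rw [← Real.exp_nat_mul]; congr 1; ring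

lemma E0_le (h : Big K x) {L N : ℕ} (hL : (L : ℝ) = 12 * x ^ 5) {B C : ℝ}
    (hB : B ≤ exp (x ^ 10 + 1)) (hB0 : 0 ≤ B) (hC : C ≤ K) :
    L ^ 2 * B * exp (C * (2 * N + 1) ^ 2) ^ (3 * L) ≤
      exp (2 * x ^ 10 + 36 * K * x ^ 5 * (2 * N + 1) ^ 2) := by
  have h0 := h.x0
  have h6 := h.x6
  have e1 : (L : ℝ) ≤ exp L := by have := Real.add_one_le_exp (L : ℝ); linarith
  calc L ^ 2 * B * exp (C * (2 * N + 1) ^ 2) ^ (3 * L)
      ≤ exp L ^ 2 * exp (x ^ 10 + 1) * exp (K * (2 * N + 1) ^ 2) ^ (3 * L) := by gcongr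
    _ = exp (2 * L + (x ^ 10 + 1) + 3 * L * (K * (2 * N + 1) ^ 2)) := by
        rw [← Real.exp_nat_mul, ← Real.exp_nat_mul]
        simp only [← Real.exp_add]
        congr 1
        push_cast
        ring
    _ ≤ _ := by
        apply Real.exp_le_exp.mpr
        rw [hL]
        have a1 : 100 * x ^ 5 ≤ x ^ 10 := h.pw (by linarith) (by norm_num)
        have a3 : 100 * x ^ 0 ≤ x ^ 10 := h.pw (by linarith) (by norm_num)
        rw [pow_zero] at a3
        have e : 3 * (12 * x ^ 5) * (K * (2 * N + 1) ^ 2) = 36 * K * x ^ 5 * (2 * N + 1) ^ 2 := by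
          ring
        linarith

/-- Case A: the size of `ε`. -/
lemma epsA (h : Big K x) {L N T : ℕ} (hL : (L : ℝ) = 12 * x ^ 5) (hN : (N : ℝ) = x ^ 3)
    (hT : 12 * x ^ 9 ≤ (T : ℝ)) (hT2 : (T : ℝ) ≤ 1728 * x ^ 15) {B C r pn η ε : ℝ}
    (hB : B ≤ exp (x ^ 10 + 1)) (hB0 : 0 ≤ B) (hC : C ≤ K) (hp0 : 0 ≤ pn) (hpr : pn ≤ r)
    (hr : r ≤ exp (-K⁻¹)) (hη : η ≤ exp (-x ^ 21)) (hη0 : 0 ≤ η)
    (hε : ε = η + (L ^ 2 * B * exp (C * (2 * N + 1) ^ 2) ^ (3 * L) + η) * (4 * pn ^ N) ^ T) :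
    ε ≤ 3 * exp (-(x ^ 3 * T / (4 * K))) := by
  have h0 := h.x0
  have h1 := h.x1
  have hK := h.K1
  have hK0 : 0 < K := by linarith
  have hKx := h.Kx
  have hK2 := h.hx
  have h6 := h.x6
  have g1 := gain hK hp0 hpr hr (N := N) (by
    rw [hN]
    have : 4 * x ^ 0 ≤ x ^ 2 := h.pw (by linarith) (by norm_num)
    nlinarith) T
  have g2 := h.E0_le (N := N) hL hB hB0 hC
  have hη1 : η ≤ exp (2 * x ^ 10 + 36 * K * x ^ 5 * (2 * N + 1) ^ 2) := by
    refine hη.trans (Real.exp_le_exp.mpr ?_)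
    have : 0 ≤ 2 * x ^ 10 + 36 * K * x ^ 5 * (2 * N + 1) ^ 2 := by positivity
    have : 0 ≤ x ^ 21 := by positivity
    linarith
  have hT0 : (0 : ℝ) ≤ T := Nat.cast_nonneg T
  -- main exponent
  have m1 : 2 * x ^ 10 + 36 * K * x ^ 5 * (2 * N + 1) ^ 2 + -(N * T / (2 * K)) ≤
      -(x ^ 3 * T / (4 * K)) := by
    rw [hN]
    have a0 : 1 ≤ x ^ 3 := one_le_pow₀ h1
    have a1 : (2 * x ^ 3 + 1) ^ 2 ≤ 9 * x ^ 6 := by nlinarith
    have a2 : 36 * K * x ^ 5 * (2 * x ^ 3 + 1) ^ 2 ≤ 324 * K * x ^ 11 := by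
      calc 36 * K * x ^ 5 * (2 * x ^ 3 + 1) ^ 2 ≤ 36 * K * x ^ 5 * (9 * x ^ 6) := by gcongr
        _ = _ := by ring
    have a3 : 2 * x ^ 10 ≤ x ^ 11 := h.pw (by linarith) (by norm_num)
    have a4 : x ^ 3 * T / (4 * K) = x ^ 3 * T / (2 * K) - x ^ 3 * T / (4 * K) := by
      field_simp; ring
    have a5 : 325 * K * x ^ 11 ≤ x ^ 3 * T / (4 * K) := by
      rw [le_div_iff₀ (by positivity)]
      calc 325 * K * x ^ 11 * (4 * K) = (1300 * K ^ 2) * x ^ 11 := by ring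
        _ ≤ x ^ 12 := h.pw (by nlinarith) (by norm_num)
        _ ≤ x ^ 3 * (12 * x ^ 9) := by
          have : 0 < x ^ 12 := by positivity
          nlinarith
        _ ≤ _ := by gcongr
    have a6 : x ^ 11 ≤ K * x ^ 11 := by
      have : 0 < x ^ 11 := by positivity
      nlinarith
    nlinarith
  have m2 : -x ^ 21 ≤ -(x ^ 3 * T / (4 * K)) := by
    apply neg_le_neg
    rw [div_le_iff₀ (by positivity)]
    calc x ^ 3 * T ≤ x ^ 3 * (1728 * x ^ 15) := by gcongr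
      _ = 1728 * x ^ 18 := by ring
      _ ≤ x ^ 21 := h.pw (by linarith) (by norm_num)
      _ ≤ x ^ 21 * (4 * K) := by
        have : 0 < x ^ 21 := by positivity
        nlinarith
  have s1 : η ≤ exp (-(x ^ 3 * T / (4 * K))) := hη.trans (Real.exp_le_exp.mpr m2)
  have s2 : (L ^ 2 * B * exp (C * (2 * N + 1) ^ 2) ^ (3 * L) + η) * (4 * pn ^ N) ^ T ≤
      2 * exp (-(x ^ 3 * T / (4 * K))) := by
    calc (L ^ 2 * B * exp (C * (2 * N + 1) ^ 2) ^ (3 * L) + η) * (4 * pn ^ N) ^ T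
        ≤ (exp (2 * x ^ 10 + 36 * K * x ^ 5 * (2 * N + 1) ^ 2) +
          exp (2 * x ^ 10 + 36 * K * x ^ 5 * (2 * N + 1) ^ 2)) * exp (-(N * T / (2 * K))) := by
          gcongr
      _ = 2 * exp (2 * x ^ 10 + 36 * K * x ^ 5 * (2 * N + 1) ^ 2 + -(N * T / (2 * K))) := by
          rw [Real.exp_add (2 * x ^ 10 + 36 * K * x ^ 5 * (2 * N + 1) ^ 2)]; ring
      _ ≤ _ := by gcongr
  rw [hε]
  linarith

/-- Case A: the contradiction. -/
lemma caseA (h : Big K x) {L T Λ : ℕ} (hΛ : (Λ : ℝ) = x) (hL : (L : ℝ) = 12 * x ^ 5)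
    (hT : 12 * x ^ 9 ≤ (T : ℝ)) (hT2 : (T : ℝ) ≤ 1728 * x ^ 15) {B C S ε ρ v lam : ℝ}
    (hB : B ≤ exp (x ^ 10 + 1)) (hB1 : 1 ≤ B) (hC : C ≤ exp K) (hC0 : 0 < C)
    (hS : S ≤ exp (-x ^ 21)) (hε0 : 0 ≤ ε)
    (hε : ε ≤ 3 * exp (-(x ^ 3 * T / (4 * K)))) (hρ : 0 < ρ) (hρK : ρ⁻¹ ≤ exp K)
    (hlam : C⁻¹ ≤ lam)
    (hv : ((L ^ 2 * B * (7 * (2 * L + T)) ^ T) ^ Λ * exp (5 * Λ * (2 * L + T)))⁻¹ ≤ v)
    (hmain : lam ^ T * v ≤ T.factorial * (C ^ (3 * L) * ε + S) / ρ ^ T) : False := by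
  have h0 := h.x0
  have h1 := h.x1
  have hK := h.K1
  have hK0 : 0 < K := by linarith
  have hKx := h.Kx
  have hK2 := h.hx
  have h6 := h.x6
  have hT0 : (0 : ℝ) < T := lt_of_lt_of_le (by positivity) hT
  have hTn : 0 < T := by exact_mod_cast hT0
  have hL1 : (1 : ℝ) ≤ L := by
    rw [hL]
    have : 1 ≤ x ^ 5 := one_le_pow₀ h1
    linarith
  have x9 : x ^ 9 ≤ (T : ℝ) := by
    have : 0 < x ^ 9 := by positivity
    linarith
  -- logs
  have hlogT : log T ≤ x := by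
    have : log T ≤ x / 100 := by
      apply h.log_le hT0
      refine hT2.trans ?_
      exact h.pw (by linarith) (by norm_num)
    linarith
  have hTexp : (T : ℝ) ≤ exp x := by
    rw [← Real.exp_log hT0]; exact Real.exp_le_exp.mpr hlogT
  have h7 : 7 * (2 * L + T) ≤ exp x := by
    have h8 : log (7 * (2 * L + T)) ≤ x / 100 := by
      apply h.log_le (by positivity)
      rw [hL]
      have a1 : 168 * x ^ 5 ≤ x ^ 15 := h.pw (by linarith) (by norm_num)
      have a3 : 20000 * x ^ 15 ≤ x ^ 16 := h.pw (by linarith) (by norm_num)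
      have a4 : 0 < x ^ 15 := by positivity
      linarith
    rw [← Real.exp_log (by positivity : 0 < 7 * (2 * (L : ℝ) + T))]
    apply Real.exp_le_exp.mpr
    linarith
  -- the left-hand side
  have e1 : (L : ℝ) ≤ exp L := by have := Real.add_one_le_exp (L : ℝ); linarith
  have l1 : (L ^ 2 * B * (7 * (2 * L + T)) ^ T : ℝ) ≤ exp (3 * (T * x)) := by
    calc (L ^ 2 * B * (7 * (2 * L + T)) ^ T : ℝ) ≤ exp L ^ 2 * exp (x ^ 10 + 1) * exp x ^ T := by
          gcongr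
      _ = exp (2 * L + (x ^ 10 + 1) + T * x) := by
        rw [← Real.exp_nat_mul, ← Real.exp_nat_mul]
        simp only [← Real.exp_add]
        congr 1
        try push_cast
        try ring
      _ ≤ _ := by
        apply Real.exp_le_exp.mpr
        rw [hL]
        have a1 : 100 * x ^ 5 ≤ x ^ 10 := h.pw (by linarith) (by norm_num)
        have a3 : 100 * x ^ 0 ≤ x ^ 10 := h.pw (by linarith) (by norm_num)
        rw [pow_zero] at a3
        have a4 : 12 * x ^ 10 ≤ T * x := by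
          calc 12 * x ^ 10 = (12 * x ^ 9) * x := by ring
            _ ≤ _ := by gcongr
        linarith
  have l2 : (L ^ 2 * B * (7 * (2 * L + T)) ^ T : ℝ) ^ Λ * exp (5 * Λ * (2 * L + T)) ≤
      exp (T * (3 * x ^ 2 + 10 * x)) := by
    calc (L ^ 2 * B * (7 * (2 * L + T)) ^ T : ℝ) ^ Λ * exp (5 * Λ * (2 * L + T))
        ≤ exp (3 * (T * x)) ^ Λ * exp (5 * Λ * (2 * L + T)) := by gcongr
      _ = exp (Λ * (3 * (T * x)) + 5 * Λ * (2 * L + T)) := by
        rw [← Real.exp_nat_mul]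
        simp only [← Real.exp_add]
      _ ≤ _ := by
        apply Real.exp_le_exp.mpr
        rw [hΛ, hL]
        have a1 : 24 * x ^ 5 ≤ x ^ 9 := h.pw (by linarith) (by norm_num)
        have a2 : 2 * (12 * x ^ 5) + T ≤ 2 * T := by linarith
        calc x * (3 * (T * x)) + 5 * x * (2 * (12 * x ^ 5) + T)
            ≤ x * (3 * (T * x)) + 5 * x * (2 * T) := by gcongr
          _ = _ := by ring
  have l3 : exp (-(T * (3 * x ^ 2 + 10 * x))) ≤ v := by
    refine le_trans ?_ hv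
    rw [Real.exp_neg]
    exact inv_anti₀ (by positivity) l2
  have l4 : exp (-(T * K)) ≤ lam ^ T := by
    have : exp (-K) ≤ lam := by
      refine le_trans ?_ hlam
      rw [Real.exp_neg]
      exact inv_anti₀ hC0 hC
    calc exp (-(T * K)) = exp (-K) ^ T := by rw [← Real.exp_nat_mul]; congr 1; ring
      _ ≤ _ := by gcongr
  have hlam0 : 0 ≤ lam := le_trans (by positivity) hlam
  have left : exp (-(T * (3 * x ^ 2 + 10 * x + K))) ≤ lam ^ T * v := by
    calc exp (-(T * (3 * x ^ 2 + 10 * x + K))) =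
          exp (-(T * K)) * exp (-(T * (3 * x ^ 2 + 10 * x))) := by
          rw [← Real.exp_add]; congr 1; ring
      _ ≤ _ := by gcongr
  -- the right-hand side
  have r1 : (T.factorial : ℝ) ≤ exp (T * x) := by
    calc (T.factorial : ℝ) ≤ (T : ℝ) ^ T := by exact_mod_cast Nat.factorial_le_pow T
      _ ≤ exp x ^ T := by gcongr
      _ = _ := by rw [← Real.exp_nat_mul]
  set g : ℝ := x ^ 3 * T / (4 * K) with hg
  have m2 : g ≤ x ^ 21 := by
    rw [hg, div_le_iff₀ (by positivity)]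
    calc x ^ 3 * T ≤ x ^ 3 * (1728 * x ^ 15) := by gcongr
      _ = 1728 * x ^ 18 := by ring
      _ ≤ x ^ 21 := h.pw (by linarith) (by norm_num)
      _ ≤ x ^ 21 * (4 * K) := by
        have : 0 < x ^ 21 := by positivity
        nlinarith
  have r2 : C ^ (3 * L) ≤ exp (T * K) := by
    calc C ^ (3 * L) ≤ exp K ^ (3 * L) := by gcongr
      _ = exp (3 * L * K) := by rw [← Real.exp_nat_mul]; congr 1; push_cast; ring
      _ ≤ _ := by
        apply Real.exp_le_exp.mpr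
        have a1 : 36 * x ^ 5 ≤ x ^ 9 := h.pw (by linarith) (by norm_num)
        have : 3 * (L : ℝ) ≤ T := by rw [hL]; linarith
        gcongr
  have r3 : C ^ (3 * L) * ε + S ≤ 4 * exp (T * K - g) := by
    have a1 : C ^ (3 * L) * ε ≤ 3 * exp (T * K - g) := by
      calc C ^ (3 * L) * ε ≤ exp (T * K) * (3 * exp (-g)) := by gcongr
        _ = 3 * exp (T * K - g) := by rw [sub_eq_add_neg, Real.exp_add]; ring
    have a2 : S ≤ exp (T * K - g) := by
      refine hS.trans (Real.exp_le_exp.mpr ?_)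
      have : 0 ≤ T * K := by positivity
      linarith
    linarith
  have r4 : T.factorial * (C ^ (3 * L) * ε + S) / ρ ^ T ≤ 4 * exp (T * (x + 2 * K) - g) := by
    rw [div_eq_mul_inv, ← inv_pow]
    have a0 : 0 ≤ ρ⁻¹ := by positivity
    calc T.factorial * (C ^ (3 * L) * ε + S) * ρ⁻¹ ^ T
        ≤ exp (T * x) * (4 * exp (T * K - g)) * exp K ^ T := by
          have b1 : C ^ (3 * L) * ε + S ≤ 4 * exp (T * K - g) := r3
          have b2 : T.factorial * (C ^ (3 * L) * ε + S) ≤ exp (T * x) * (4 * exp (T * K - g)) := by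
            calc T.factorial * (C ^ (3 * L) * ε + S) ≤ T.factorial * (4 * exp (T * K - g)) := by
                  gcongr
              _ ≤ _ := by gcongr
          gcongr
      _ = 4 * exp (T * x + (T * K - g) + T * K) := by
          rw [← Real.exp_nat_mul, Real.exp_add, Real.exp_add]; ring
      _ = _ := by congr 2; ring
  have fin : exp (-(T * (3 * x ^ 2 + 10 * x + K))) ≤ exp (2 + T * (x + 2 * K) - g) := by
    refine (left.trans (hmain.trans r4)).trans ?_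
    have h4 : (4 : ℝ) ≤ exp 2 := by
      have := Real.exp_one_gt_d9
      have e : exp 2 = exp 1 * exp 1 := by rw [← Real.exp_add]; norm_num
      rw [e]; nlinarith
    calc 4 * exp (T * (x + 2 * K) - g) ≤ exp 2 * exp (T * (x + 2 * K) - g) := by gcongr
      _ = _ := by rw [← Real.exp_add]; congr 1; ring
  rw [Real.exp_le_exp] at fin
  have hT1 : (1 : ℝ) ≤ T := by exact_mod_cast hTn
  have fin2 : g ≤ T * (3 * x ^ 2 + 11 * x + 3 * K + 2) := by nlinarith
  have fin3 : x ^ 3 / (4 * K) ≤ 3 * x ^ 2 + 11 * x + 3 * K + 2 := by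
    have : g = T * (x ^ 3 / (4 * K)) := by rw [hg]; ring
    rw [this] at fin2
    exact le_of_mul_le_mul_left fin2 hT0
  rw [div_le_iff₀ (by positivity)] at fin3
  have a1 : (3 * x ^ 2 + 11 * x + 3 * K + 2) * (4 * K) ≤ 100 * K * x ^ 2 := by
    have b1 : x ≤ x ^ 2 := by nlinarith
    have b2 : K ≤ x := by linarith
    have b3 : 3 * x ^ 2 + 11 * x + 3 * K + 2 ≤ 25 * x ^ 2 := by nlinarith
    calc (3 * x ^ 2 + 11 * x + 3 * K + 2) * (4 * K) ≤ 25 * x ^ 2 * (4 * K) := by gcongr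
      _ = _ := by ring
  have a2 : (1000 * K) * x ^ 2 ≤ x ^ 3 := h.pw (by linarith) (by norm_num)
  have a3 : 0 < K * x ^ 2 := by positivity
  linarith

/-- Case B: the contradiction. -/
lemma caseB (h : Big K x) {L T : ℕ} (hL : (L : ℝ) = 12 * x ^ 5)
    (hT : (T : ℝ) = 1728 * x ^ 15) {B C r pn η ε : ℝ}
    (hB : B ≤ exp (x ^ 10 + 1)) (hB1 : 1 ≤ B) (hC : C ≤ K) (hC0 : 1 ≤ C) (hCe : C ≤ exp K)
    (hp0 : 0 ≤ pn) (hpr : pn ≤ r)
    (hr : r ≤ exp (-K⁻¹)) (hη : η ≤ exp (-x ^ 21)) (hη0 : 0 ≤ η)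
    (hε : ε = η + (L ^ 2 * B * exp (C * (2 * L + 1) ^ 2) ^ (3 * L) + η) * (4 * pn ^ L) ^ T)
    (hmain : 1 ≤ (2 * C) ^ L * ((C * (B + 1)) ^ (3 * L) * ε)) : False := by
  have h0 := h.x0
  have h1 := h.x1
  have hK := h.K1
  have hK0 : 0 < K := by linarith
  have hKx := h.Kx
  have hK2 := h.hx
  have h6 := h.x6
  have hB0 : 0 ≤ B := by linarith
  have g1 := gain hK hp0 hpr hr (N := L) (by
    rw [hL]
    have : 4 * x ^ 0 ≤ x ^ 4 := h.pw (by linarith) (by norm_num)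
    nlinarith) T
  have g2 := h.E0_le (N := L) hL hB hB0 hC
  have hη1 : η ≤ exp (2 * x ^ 10 + 36 * K * x ^ 5 * (2 * L + 1) ^ 2) := by
    refine hη.trans (Real.exp_le_exp.mpr ?_)
    have : 0 ≤ 2 * x ^ 10 + 36 * K * x ^ 5 * (2 * L + 1) ^ 2 := by positivity
    have : 0 ≤ x ^ 21 := by positivity
    linarith
  have m1 : 2 * x ^ 10 + 36 * K * x ^ 5 * (2 * L + 1) ^ 2 + -(L * T / (2 * K)) ≤ -(x ^ 19) := by
    rw [hL, hT]
    have a0 : 1 ≤ x ^ 5 := one_le_pow₀ h1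
    have a1 : (2 * (12 * x ^ 5) + 1) ^ 2 ≤ 625 * x ^ 10 := by nlinarith
    have a2 : 36 * K * x ^ 5 * (2 * (12 * x ^ 5) + 1) ^ 2 ≤ (22500 * K) * x ^ 15 := by
      calc 36 * K * x ^ 5 * (2 * (12 * x ^ 5) + 1) ^ 2 ≤ 36 * K * x ^ 5 * (625 * x ^ 10) := by
            gcongr
        _ = _ := by ring
    have a3 : (22500 * K) * x ^ 15 ≤ x ^ 16 := h.pw (by linarith) (by norm_num)
    have a4 : 2 * x ^ 10 ≤ x ^ 16 := h.pw (by linarith) (by norm_num)
    have a5 : 2 * x ^ 16 ≤ x ^ 19 := h.pw (by linarith) (by norm_num)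
    have a6 : 2 * x ^ 19 ≤ 12 * x ^ 5 * (1728 * x ^ 15) / (2 * K) := by
      rw [le_div_iff₀ (by positivity)]
      calc 2 * x ^ 19 * (2 * K) = (4 * K) * x ^ 19 := by ring
        _ ≤ x ^ 20 := h.pw (by linarith) (by norm_num)
        _ ≤ _ := by
          have : 0 < x ^ 20 := by positivity
          nlinarith
    linarith
  have m2 : -x ^ 21 ≤ -(x ^ 19) := by
    have : 1 * x ^ 19 ≤ x ^ 21 := h.pw h1 (by norm_num)
    linarith
  have s1 : η ≤ exp (-(x ^ 19)) := hη.trans (Real.exp_le_exp.mpr m2)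
  have s2 : (L ^ 2 * B * exp (C * (2 * L + 1) ^ 2) ^ (3 * L) + η) * (4 * pn ^ L) ^ T ≤
      2 * exp (-(x ^ 19)) := by
    calc (L ^ 2 * B * exp (C * (2 * L + 1) ^ 2) ^ (3 * L) + η) * (4 * pn ^ L) ^ T
        ≤ (exp (2 * x ^ 10 + 36 * K * x ^ 5 * (2 * L + 1) ^ 2) +
          exp (2 * x ^ 10 + 36 * K * x ^ 5 * (2 * L + 1) ^ 2)) * exp (-(L * T / (2 * K))) := by
          gcongr
      _ = 2 * exp (2 * x ^ 10 + 36 * K * x ^ 5 * (2 * L + 1) ^ 2 + -(L * T / (2 * K))) := by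
          rw [Real.exp_add (2 * x ^ 10 + 36 * K * x ^ 5 * (2 * L + 1) ^ 2)]; ring
      _ ≤ _ := by gcongr
  have s3 : ε ≤ 3 * exp (-(x ^ 19)) := by rw [hε]; linarith
  have hε0 : 0 ≤ ε := by
    rw [hε]
    positivity
  have e1 : (2 : ℝ) ≤ exp 1 := by have := Real.add_one_le_exp (1 : ℝ); linarith
  have t1 : (2 * C) ^ L ≤ exp (L * (1 + K)) := by
    calc (2 * C) ^ L ≤ (exp 1 * exp K) ^ L := by gcongr
      _ = _ := by rw [← Real.exp_add, ← Real.exp_nat_mul]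
  have t2 : (C * (B + 1)) ^ (3 * L) ≤ exp (3 * L * (K + x ^ 10 + 2)) := by
    have b1 : B + 1 ≤ exp (x ^ 10 + 2) := by
      have b2 : (1 : ℝ) ≤ exp (x ^ 10 + 1) := hB1.trans hB
      calc B + 1 ≤ exp (x ^ 10 + 1) + exp (x ^ 10 + 1) := by linarith
        _ = 2 * exp (x ^ 10 + 1) := by ring
        _ ≤ exp 1 * exp (x ^ 10 + 1) := by gcongr
        _ = _ := by rw [← Real.exp_add]; congr 1; ring
    calc (C * (B + 1)) ^ (3 * L) ≤ (exp K * exp (x ^ 10 + 2)) ^ (3 * L) := by gcongr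
      _ = _ := by rw [← Real.exp_add, ← Real.exp_nat_mul]; congr 1; push_cast; ring
  have fin : (1 : ℝ) ≤ exp (L * (1 + K) + 3 * L * (K + x ^ 10 + 2) + 2 + -(x ^ 19)) := by
    refine hmain.trans ?_
    have h4 : (3 : ℝ) ≤ exp 2 := by
      have := Real.add_one_le_exp (2 : ℝ)
      linarith
    calc (2 * C) ^ L * ((C * (B + 1)) ^ (3 * L) * ε)
        ≤ exp (L * (1 + K)) * (exp (3 * L * (K + x ^ 10 + 2)) * (exp 2 * exp (-(x ^ 19)))) := by
          have : ε ≤ exp 2 * exp (-(x ^ 19)) := s3.trans (by gcongr)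
          gcongr
      _ = _ := by
          simp only [← Real.exp_add]
          congr 1
          ring
  have fin := (Real.one_le_exp_iff).mp fin
  rw [hL] at fin
  have a1 : 1 + K + 3 * (K + x ^ 10 + 2) ≤ 10 * x ^ 10 := by
    have : 100 * x ^ 1 ≤ x ^ 10 := h.pw (by linarith) (by norm_num)
    rw [pow_one] at this
    linarith
  have a2 : 12 * x ^ 5 * (1 + K) + 3 * (12 * x ^ 5) * (K + x ^ 10 + 2) ≤ 120 * x ^ 15 := by
    calc 12 * x ^ 5 * (1 + K) + 3 * (12 * x ^ 5) * (K + x ^ 10 + 2)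
        = 12 * x ^ 5 * (1 + K + 3 * (K + x ^ 10 + 2)) := by ring
      _ ≤ 12 * x ^ 5 * (10 * x ^ 10) := by gcongr
      _ = _ := by ring
  have a3 : 1000 * x ^ 15 ≤ x ^ 19 := h.pw (by linarith) (by norm_num)
  have a4 : 1000 * x ^ 0 ≤ x ^ 19 := h.pw (by linarith) (by norm_num)
  rw [pow_zero] at a4
  have a5 : 0 < x ^ 15 := by positivity
  have a6 : 0 < x ^ 19 := by positivity
  linarith

end Big

end H32.T3

end S_T3_Num
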