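import Mathlib

/-! Modular Schanuel for special tuples, part K12: this file joins several modules to save build time. -/

section S_T4_A1

/-!
# The field of germs of meromorphic functions at the origin
-/

open Filter
open scoped Topology

namespace H32.T4

/-- punctured neighbourhoods of the origin -/
noncomputable abbrev NE : Filter ℂ := 𝓝[≠] (0 : ℂ)

/-- The subring of germs of meromorphic functions. -/
def MGs : Subring (Germ NE ℂ) where
  carrier := {g | ∃ f : ℂ → ℂ, MeromorphicAt f 0 ∧ (f : Germ NE ℂ) = g}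
  mul_mem' := by
    rintro _ _ ⟨f, hf, rfl⟩ ⟨g, hg, rfl⟩
    exact ⟨f * g, hf.mul hg, rfl⟩
  one_mem' := ⟨fun _ ↦ 1, MeromorphicAt.const _ _, rfl⟩
  add_mem' := by
    rintro _ _ ⟨f, hf, rfl⟩ ⟨g, hg, rfl⟩
    exact ⟨f + g, hf.add hg, rfl⟩
  zero_mem' := ⟨fun _ ↦ 0, MeromorphicAt.const _ _, rfl⟩
  neg_mem' := by
    rintro _ ⟨f, hf, rfl⟩
    exact ⟨-f, hf.neg, rfl⟩

/-- Germs of meromorphic functions. -/
def MG : Type := MGs

noncomputable instance : CommRing MG := inferInstanceAs (CommRing MGs)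

/-- The germ of a function. -/
noncomputable def mk (f : ℂ → ℂ) (hf : MeromorphicAt f 0) : MG := ⟨(f : Germ NE ℂ), f, hf, rfl⟩

lemma mk_eq_mk {f g : ℂ → ℂ} {hf : MeromorphicAt f 0} {hg : MeromorphicAt g 0} :
    mk f hf = mk g hg ↔ f =ᶠ[NE] g := by
  refine Iff.trans (Subtype.ext_iff) ?_
  exact Germ.coe_eq

lemma exists_rep (x : MG) : ∃ (f : ℂ → ℂ) (hf : MeromorphicAt f 0), mk f hf = x := by
  obtain ⟨x, f, hf, h⟩ := x
  exact ⟨f, hf, Subtype.ext h⟩

lemma mk_add {f g : ℂ → ℂ} (hf : MeromorphicAt f 0) (hg : MeromorphicAt g 0) :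
    mk f hf + mk g hg = mk (fun z ↦ f z + g z) (hf.fun_add hg) := rfl

lemma mk_mul {f g : ℂ → ℂ} (hf : MeromorphicAt f 0) (hg : MeromorphicAt g 0) :
    mk f hf * mk g hg = mk (fun z ↦ f z * g z) (hf.fun_mul hg) := rfl

lemma mk_zero : mk (fun _ ↦ 0) (MeromorphicAt.const _ _) = 0 := rfl

lemma mk_one : mk (fun _ ↦ 1) (MeromorphicAt.const _ _) = 1 := rfl

instance : Nontrivial MG := by
  refine ⟨⟨0, 1, fun h ↦ ?_⟩⟩
  rw [← mk_zero, ← mk_one, mk_eq_mk] at h
  obtain ⟨z, hz⟩ := h.exists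
  exact zero_ne_one hz

lemma mk_eq_zero {f : ℂ → ℂ} {hf : MeromorphicAt f 0} : mk f hf = 0 ↔ ∀ᶠ z in NE, f z = 0 := by
  rw [← mk_zero, mk_eq_mk]
  rfl

lemma isUnit_or (x : MG) : IsUnit x ∨ x = 0 := by
  obtain ⟨f, hf, rfl⟩ := exists_rep x
  rcases hf.eventually_eq_zero_or_eventually_ne_zero with h | h
  · right
    rw [mk_eq_zero]
    exact h
  · left
    refine IsUnit.of_mul_eq_one (mk (fun z ↦ (f z)⁻¹) hf.fun_inv) ?_
    rw [mk_mul, ← mk_one, mk_eq_mk]
    filter_upwards [h] with z hz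
    exact mul_inv_cancel₀ hz

noncomputable instance : Field MG := Field.ofIsUnitOrEqZero isUnit_or

/-- Constants. -/
noncomputable def cst : ℂ →+* MG where
  toFun c := mk (fun _ ↦ c) (MeromorphicAt.const _ _)
  map_one' := rfl
  map_mul' _ _ := rfl
  map_zero' := rfl
  map_add' _ _ := rfl

noncomputable instance : Algebra ℂ MG := cst.toAlgebra

lemma algebraMap_MG (c : ℂ) : algebraMap ℂ MG c = mk (fun _ ↦ c) (MeromorphicAt.const _ _) := rfl

noncomputable instance : CharZero MG := charZero_of_injective_algebraMap (algebraMap ℂ MG).injective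

lemma deriv_mero {f : ℂ → ℂ} (hf : MeromorphicAt f 0) : MeromorphicAt (deriv f) 0 := hf.deriv

lemma ev_diff {f : ℂ → ℂ} (hf : MeromorphicAt f 0) : ∀ᶠ z in NE, DifferentiableAt ℂ f z := by
  filter_upwards [hf.eventually_analyticAt] with z hz
  exact hz.differentiableAt

/-- The derivation. -/
noncomputable def dfun (x : MG) : MG :=
  mk (deriv (exists_rep x).choose) (deriv_mero (exists_rep x).choose_spec.choose)

lemma dfun_mk {f : ℂ → ℂ} (hf : MeromorphicAt f 0) : dfun (mk f hf) = mk (deriv f) hf.deriv := by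
  unfold dfun
  rw [mk_eq_mk]
  have h := (exists_rep (mk f hf)).choose_spec.choose_spec
  rw [mk_eq_mk] at h
  exact h.nhdsNE_deriv

/-- The derivation of the field of germs. -/
noncomputable def DD : Derivation ℂ MG MG where
  toFun := dfun
  map_add' x y := by
    obtain ⟨f, hf, rfl⟩ := exists_rep x
    obtain ⟨g, hg, rfl⟩ := exists_rep y
    rw [mk_add, dfun_mk, dfun_mk, dfun_mk, mk_add, mk_eq_mk]
    filter_upwards [ev_diff hf, ev_diff hg] with z h1 h2
    exact deriv_fun_add h1 h2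
  map_smul' c x := by
    obtain ⟨f, hf, rfl⟩ := exists_rep x
    rw [Algebra.smul_def, algebraMap_MG, mk_mul, dfun_mk, dfun_mk, RingHom.id_apply,
      Algebra.smul_def, algebraMap_MG, mk_mul, mk_eq_mk]
    filter_upwards [ev_diff hf] with z h1
    exact deriv_const_mul c h1
  map_one_eq_zero' := by
    change dfun 1 = 0
    rw [← mk_one, dfun_mk, mk_eq_zero]
    exact Eventually.of_forall fun z ↦ by simp
  leibniz' x y := by
    obtain ⟨f, hf, rfl⟩ := exists_rep x
    obtain ⟨g, hg, rfl⟩ := exists_rep y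
    change dfun _ = _ • dfun _ + _ • dfun _
    rw [mk_mul, dfun_mk, dfun_mk, dfun_mk, smul_eq_mul, smul_eq_mul, mk_mul, mk_mul, mk_add,
      mk_eq_mk]
    filter_upwards [ev_diff hf, ev_diff hg] with z h1 h2
    rw [deriv_fun_mul h1 h2]
    ring

lemma DD_mk {f : ℂ → ℂ} (hf : MeromorphicAt f 0) : DD (mk f hf) = mk (deriv f) hf.deriv :=
  dfun_mk hf

/-- Punctured balls are connected. -/
lemma preconn_pball (r : ℝ) : IsPreconnected (Metric.ball (0 : ℂ) r \ {0}) := by
  rcases le_or_gt r 0 with hr | hr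
  · rw [Metric.ball_eq_empty.mpr hr]
    simpa using isPreconnected_empty
  have h1 : Metric.ball (0 : ℂ) r \ {0} = Complex.exp '' {z : ℂ | z.re < Real.log r} := by
    ext w
    constructor
    · rintro ⟨h2, h3⟩
      have h3' : w ≠ 0 := h3
      refine ⟨Complex.log w, ?_, Complex.exp_log h3'⟩
      have h4 : ‖w‖ < r := by simpa using h2
      change (Complex.log w).re < _
      rw [Complex.log_re]
      exact Real.log_lt_log (norm_pos_iff.mpr h3') h4
    · rintro ⟨z, hz, rfl⟩
      refine ⟨?_, Complex.exp_ne_zero z⟩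
      have hz' : z.re < Real.log r := hz
      rw [mem_ball_zero_iff, Complex.norm_exp]
      rwa [Real.lt_log_iff_exp_lt hr] at hz'
  rw [h1]
  have h2 : Convex ℝ {z : ℂ | z.re < Real.log r} := convex_halfSpace_re_lt _
  exact h2.isPreconnected.image _ Complex.continuous_exp.continuousOn

lemma open_pball (r : ℝ) : IsOpen (Metric.ball (0 : ℂ) r \ {0}) :=
  Metric.isOpen_ball.sdiff isClosed_singleton

lemma pball_mem {r : ℝ} (hr : 0 < r) : Metric.ball (0 : ℂ) r \ {0} ∈ NE := by
  rw [Set.sdiff_eq, Set.inter_comm]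
  exact inter_mem_nhdsWithin _ (Metric.ball_mem_nhds 0 hr)

lemma ev_pball {p : ℂ → Prop} (h : ∀ᶠ z in NE, p z) :
    ∃ r : ℝ, 0 < r ∧ ∀ z ∈ Metric.ball (0 : ℂ) r \ {0}, p z := by
  rw [eventually_nhdsWithin_iff, Metric.eventually_nhds_iff_ball] at h
  obtain ⟨r, hr, h⟩ := h
  exact ⟨r, hr, fun z hz ↦ h z hz.1 hz.2⟩

/-- A germ with zero derivative is constant. -/
lemma const_of_DD {x : MG} (h : DD x = 0) : ∃ c : ℂ, x = algebraMap ℂ MG c := by
  obtain ⟨f, hf, rfl⟩ := exists_rep x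
  rw [DD_mk, mk_eq_zero] at h
  obtain ⟨r, hr, h1⟩ := ev_pball (h.and (ev_diff hf))
  set U := Metric.ball (0 : ℂ) r \ {0} with hU
  have hUo : IsOpen U := open_pball r
  obtain ⟨z0, hz0⟩ : U.Nonempty := (inferInstance : NE.NeBot).nonempty_of_mem (pball_mem hr)
  refine ⟨f z0, ?_⟩
  rw [algebraMap_MG, mk_eq_mk]
  filter_upwards [pball_mem hr] with z hz
  refine hUo.eqOn_of_deriv_eq (preconn_pball r) (fun w hw ↦ (h1 w hw).2.differentiableWithinAt)
    (differentiableOn_const _) (fun w hw ↦ ?_) hz0 (by rfl) hz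
  rw [(h1 w hw).1]
  simp

lemma DD_algebraMap (c : ℂ) : DD (algebraMap ℂ MG c) = 0 := DD.map_algebraMap c

/-- Evaluation of polynomials. -/
lemma aeval_mk {σ : Type*} (f : σ → ℂ → ℂ) (hf : ∀ i, MeromorphicAt (f i) 0)
    (P : MvPolynomial σ ℂ) : ∃ h : MeromorphicAt (fun z ↦ MvPolynomial.aeval (fun i ↦ f i z) P) 0,
      MvPolynomial.aeval (fun i ↦ mk (f i) (hf i)) P =
        mk (fun z ↦ MvPolynomial.aeval (fun i ↦ f i z) P) h := by
  induction P using MvPolynomial.induction_on with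
  | C c =>
    simp only [MvPolynomial.aeval_C]
    exact ⟨MeromorphicAt.const _ _, rfl⟩
  | add p q hp hq =>
    obtain ⟨h1, e1⟩ := hp
    obtain ⟨h2, e2⟩ := hq
    simp only [map_add, e1, e2]
    exact ⟨h1.fun_add h2, rfl⟩
  | mul_X p i hp =>
    obtain ⟨h1, e1⟩ := hp
    simp only [map_mul, MvPolynomial.aeval_X, e1]
    exact ⟨h1.fun_mul (hf i), rfl⟩

lemma aeval_mk_zero {σ : Type*} (f : σ → ℂ → ℂ) (hf : ∀ i, MeromorphicAt (f i) 0)
    (P : MvPolynomial σ ℂ) : MvPolynomial.aeval (fun i ↦ mk (f i) (hf i)) P = 0 ↔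
      ∀ᶠ z in NE, MvPolynomial.aeval (fun i ↦ f i z) P = 0 := by
  obtain ⟨h, e⟩ := aeval_mk f hf P
  rw [e, mk_eq_zero]

end H32.T4

end S_T4_A1

section S_T4_A2

/-!
# Derivations of finitely generated field extensions in characteristic zero
-/

open scoped TensorProduct KaehlerDifferential

namespace H32.T4

variable {K E : Type} [Field K] [Field E] [Algebra K E]

/-- A finitely generated extension without nonzero derivations is algebraic. -/
theorem alg_of_no_der [CharZero K] (L : IntermediateField K E) (hL : L.FG)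
    (h : ∀ δ : Derivation K L E, δ = 0) : Algebra.IsAlgebraic K L := by
  have : Algebra.EssFiniteType K L := IntermediateField.essFiniteType_iff.mpr hL
  have hsub : Subsingleton (Ω[L⁄K]) := by
    by_contra hcon
    rw [not_subsingleton_iff_nontrivial] at hcon
    obtain ⟨y, hy⟩ := exists_ne (0 : Ω[L⁄K])
    obtain ⟨f, hf⟩ := Module.Projective.exists_dual_ne_zero L hy
    set g : Ω[L⁄K] →ₗ[L] E := (Algebra.linearMap L E).comp f with hg
    have h1 := h (g.compDer (KaehlerDifferential.D K L))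
    have h2 : g = 0 := by
      apply Derivation.liftKaehlerDifferential_unique
      rw [h1]
      ext x
      simp
    apply hf
    have h3 := LinearMap.congr_fun h2 y
    have h4 : algebraMap L E (f y) = 0 := h3
    exact (map_eq_zero _).mp h4
  have h1 : Algebra.FormallyUnramified K L := ⟨hsub⟩
  have h2 : Algebra.IsSeparable K L := (Algebra.FormallyUnramified.iff_isSeparable K L).mp h1
  infer_instance

/-- Derivations are determined by the generators. -/
theorem der_ext {S : Set E} {L : IntermediateField K E} (hL : L = IntermediateField.adjoin K S)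
    (δ : Derivation K L E) (h : ∀ x : L, (x : E) ∈ S → δ x = 0) : δ = 0 := by
  subst hL
  ext x
  obtain ⟨x, hx⟩ := x
  induction hx using IntermediateField.adjoin_induction with
  | mem x hx => exact h _ hx
  | algebraMap x => exact δ.map_algebraMap x
  | add x y hx hy h1 h2 =>
    have : (⟨x + y, add_mem hx hy⟩ : IntermediateField.adjoin K S) = ⟨x, hx⟩ + ⟨y, hy⟩ := rfl
    rw [this, map_add, h1, h2]
    simp
  | inv x hx h1 =>
    have e : (⟨x⁻¹, inv_mem hx⟩ : IntermediateField.adjoin K S) = (⟨x, hx⟩)⁻¹ := rfl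
    have h1' : δ ⟨x, hx⟩ = 0 := h1
    rw [e, Derivation.leibniz_inv, h1']
    simp
  | mul x y hx hy h1 h2 =>
    have : (⟨x * y, mul_mem hx hy⟩ : IntermediateField.adjoin K S) = ⟨x, hx⟩ * ⟨y, hy⟩ := rfl
    have h1' : δ ⟨x, hx⟩ = 0 := h1
    have h2' : δ ⟨y, hy⟩ = 0 := h2
    rw [this, Derivation.leibniz, h1', h2']
    simp

end H32.T4

end S_T4_A2

section S_T4_A3

/-!
# Extension of derivations
-/

open scoped TensorProduct KaehlerDifferential

namespace H32.T4

variable {K E : Type} [Field K] [Field E] [Algebra K E] [CharZero K]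

/-- The derivation of a polynomial subalgebra with given values. -/
noncomputable def polyDer {ι : Type} [Fintype ι] [DecidableEq ι] {L : Type} [Field L] [Algebra K L]
    [Algebra L E] [IsScalarTower K L E] {v : ι → L} (hv : AlgebraicIndependent K v) (x : ι → E) :
    Derivation K (Algebra.adjoin K (Set.range v)) E where
  toFun s := ∑ i, algebraMap L E (MvPolynomial.aeval v (MvPolynomial.pderiv i
    (hv.aevalEquiv.symm s))) * x i
  map_add' s t := by
    rw [← Finset.sum_add_distrib]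
    refine Finset.sum_congr rfl fun i _ ↦ ?_
    rw [map_add, map_add, map_add, map_add]
    ring
  map_smul' c s := by
    rw [RingHom.id_apply, Finset.smul_sum]
    refine Finset.sum_congr rfl fun i _ ↦ ?_
    rw [map_smul, Derivation.map_smul, map_smul, Algebra.smul_def, map_mul, Algebra.smul_def,
      ← IsScalarTower.algebraMap_apply]
    ring
  map_one_eq_zero' := by
    refine Finset.sum_eq_zero fun i _ ↦ ?_
    change algebraMap L E (MvPolynomial.aeval v (MvPolynomial.pderiv i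
      (hv.aevalEquiv.symm 1))) * x i = 0
    rw [map_one, MvPolynomial.pderiv_one, map_zero, map_zero, zero_mul]
  leibniz' s t := by
    change ∑ i, algebraMap L E (MvPolynomial.aeval v (MvPolynomial.pderiv i
      (hv.aevalEquiv.symm (s * t)))) * x i = s • (∑ i, algebraMap L E (MvPolynomial.aeval v
        (MvPolynomial.pderiv i (hv.aevalEquiv.symm t))) * x i) + t • ∑ i, algebraMap L E
        (MvPolynomial.aeval v (MvPolynomial.pderiv i (hv.aevalEquiv.symm s))) * x i
    have hs : ∀ s : Algebra.adjoin K (Set.range v), MvPolynomial.aeval v (hv.aevalEquiv.symm s) =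
        (s : L) := by
      intro s
      have h1 := hv.algebraMap_aevalEquiv (hv.aevalEquiv.symm s)
      rw [AlgEquiv.apply_symm_apply] at h1
      exact h1.symm
    rw [Finset.smul_sum, Finset.smul_sum, ← Finset.sum_add_distrib]
    refine Finset.sum_congr rfl fun i _ ↦ ?_
    rw [map_mul, Derivation.leibniz, smul_eq_mul, smul_eq_mul, map_add, map_mul, map_mul, map_add,
      map_mul, map_mul, hs, hs, Algebra.smul_def, Algebra.smul_def]
    have e : ∀ s : Algebra.adjoin K (Set.range v), algebraMap (Algebra.adjoin K (Set.range v)) E s =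
        algebraMap L E s := fun s ↦ rfl
    rw [e, e]
    ring

open scoped IntermediateField.algebraAdjoinAdjoin in
lemma smooth_poly {ι : Type} (L : IntermediateField K E)
    (hL : L.FG) {v : ι → L} (_hv : AlgebraicIndependent K v) :
    Algebra.FormallySmooth (Algebra.adjoin K (Set.range v)) L := by
  have i1 : Algebra.EssFiniteType K L := IntermediateField.essFiniteType_iff.mpr hL
  have h1 : Algebra.FormallySmooth (Algebra.adjoin K (Set.range v))
      (IntermediateField.adjoin K (Set.range v)) :=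
    .of_isLocalization (nonZeroDivisors _)
  have h2 : Algebra.EssFiniteType (IntermediateField.adjoin K (Set.range v)) L :=
    Algebra.EssFiniteType.of_comp K _ L
  have h3 : Algebra.FormallySmooth (IntermediateField.adjoin K (Set.range v)) L := inferInstance
  exact .comp _ (IntermediateField.adjoin K (Set.range v)) _

/-- Extension of derivations with given values. -/
theorem exists_der_ext {ι : Type} [Fintype ι] [DecidableEq ι] (L : IntermediateField K E)
    (hL : L.FG) {v : ι → L} (hv : AlgebraicIndependent K v) (x : ι → E) :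
    ∃ δ : Derivation K L E, ∀ i, δ (v i) = x i := by
  set S := Algebra.adjoin K (Set.range v) with hS
  have i2 : Algebra.FormallySmooth S L := smooth_poly L hL hv
  have hinj : Function.Injective (KaehlerDifferential.mapBaseChange K S L) := by
    rw [injective_iff_map_eq_zero]
    intro y hy
    obtain ⟨z, rfl⟩ := (Algebra.H1Cotangent.exact_δ_mapBaseChange K S L y).mp hy
    have : Subsingleton (Algebra.H1Cotangent S L) := Algebra.FormallySmooth.subsingleton_h1Cotangent
    rw [Subsingleton.elim z 0, map_zero]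
  obtain ⟨g, hg⟩ := (KaehlerDifferential.mapBaseChange K S L).exists_leftInverse_of_injective
    (LinearMap.ker_eq_bot.mpr hinj)
  set d := polyDer hv x with hd
  set h : L ⊗[S] Ω[S⁄K] →ₗ[L] E := LinearMap.liftBaseChange L d.liftKaehlerDifferential with hh
  refine ⟨(h.comp g).compDer (KaehlerDifferential.D K L), fun i ↦ ?_⟩
  have hvi : v i ∈ Algebra.adjoin K (Set.range v) := Algebra.subset_adjoin ⟨i, rfl⟩
  set s : S := ⟨v i, hvi⟩ with hs
  have e1 : KaehlerDifferential.D K L (v i) =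
      KaehlerDifferential.mapBaseChange K S L (1 ⊗ₜ KaehlerDifferential.D K S s) := by
    rw [KaehlerDifferential.mapBaseChange_tmul, one_smul, KaehlerDifferential.map_D]
    rfl
  change h (g (KaehlerDifferential.D K L (v i))) = x i
  rw [e1]
  have e2 := LinearMap.congr_fun hg (1 ⊗ₜ KaehlerDifferential.D K S s)
  rw [LinearMap.comp_apply, LinearMap.id_apply] at e2
  rw [e2, hh, LinearMap.liftBaseChange_tmul, one_smul, Derivation.liftKaehlerDifferential_comp_D]
  have e3 : hv.aevalEquiv.symm s = MvPolynomial.X i := by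
    rw [AlgEquiv.symm_apply_eq]
    apply Subtype.ext
    have h1 := hv.algebraMap_aevalEquiv (MvPolynomial.X i)
    rw [MvPolynomial.aeval_X] at h1
    exact h1.symm
  change ∑ j, algebraMap L E (MvPolynomial.aeval v (MvPolynomial.pderiv j
    (hv.aevalEquiv.symm s))) * x j = x i
  rw [e3, Finset.sum_eq_single i]
  · simp
  · intro j _ hj
    rw [MvPolynomial.pderiv_X_of_ne (Ne.symm hj)]
    simp
  · intro hi
    exact absurd (Finset.mem_univ i) hi

end H32.T4

end S_T4_A3

section S_T4_A4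

/-!
# Frames
-/

set_option linter.unusedSimpArgs false

open Filter
open scoped Topology Real

namespace H32.T4

section frame

variable {E : Type} [CommRing E] [Algebra ℂ E]

/-- pi i / 6 -/
noncomputable def cA (E : Type) [CommRing E] [Algebra ℂ E] : E :=
  algebraMap ℂ E (π * Complex.I / 6)

/-- 6 i / pi -/
noncomputable def cK (E : Type) [CommRing E] [Algebra ℂ E] : E :=
  algebraMap ℂ E (6 * Complex.I / π)

lemma pi_ne : (π : ℂ) ≠ 0 := by exact_mod_cast Real.pi_ne_zero

lemma cA_mul_cK : cA E * cK E = -1 := by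
  unfold cA cK
  rw [← map_mul]
  have : (π * Complex.I / 6) * (6 * Complex.I / π) = (-1 : ℂ) := by
    have h := pi_ne
    field_simp
    linear_combination Complex.I_sq
  rw [this, map_neg, map_one]

lemma cA_ne [Nontrivial E] : cA E ≠ 0 := by
  intro h
  have := cA_mul_cK (E := E)
  rw [h, zero_mul] at this
  exact one_ne_zero (by linear_combination this : (1 : E) = 0)

lemma cK_ne [Nontrivial E] : cK E ≠ 0 := by
  intro h
  have := cA_mul_cK (E := E)
  rw [h, mul_zero] at this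
  exact one_ne_zero (by linear_combination this : (1 : E) = 0)

/-- The Ramanujan vector field. -/
noncomputable def Rm (X : Fin 3 → E) : Fin 3 → E :=
  ![cA E * (X 0 ^ 2 - X 1), 4 * cA E * (X 0 * X 1 - X 2), 6 * cA E * (X 0 * X 2 - X 1 ^ 2)]

/-- Its differential. -/
noncomputable def JR (X Y : Fin 3 → E) : Fin 3 → E :=
  ![cA E * (2 * X 0 * Y 0 - Y 1), 4 * cA E * (Y 0 * X 1 + X 0 * Y 1 - Y 2),
    6 * cA E * (Y 0 * X 2 + X 0 * Y 2 - 2 * X 1 * Y 1)]

/-- The frame. -/
noncomputable def fr (z : E) (X τ : Fin 3 → E) : Fin 3 → E :=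
  ![(τ 1 + 2 * τ 0 * z - τ 2 * z ^ 2) * Rm X 0 + 2 * (τ 0 - τ 2 * z) * X 0 + τ 2 * cK E,
    (τ 1 + 2 * τ 0 * z - τ 2 * z ^ 2) * Rm X 1 + 4 * (τ 0 - τ 2 * z) * X 1,
    (τ 1 + 2 * τ 0 * z - τ 2 * z ^ 2) * Rm X 2 + 6 * (τ 0 - τ 2 * z) * X 2]

/-- The bracket. -/
def br (τ σ : Fin 3 → E) : Fin 3 → E :=
  ![τ 1 * σ 2 - σ 1 * τ 2, 2 * (τ 0 * σ 1 - σ 0 * τ 1), 2 * (τ 2 * σ 0 - τ 0 * σ 2)]

lemma fr_add (z : E) (X τ σ : Fin 3 → E) (l : Fin 3) :
    fr z X (τ + σ) l = fr z X τ l + fr z X σ l := by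
  fin_cases l
  · simp [fr]; ring
  · simp [fr]; ring
  · simp [fr]; ring

lemma fr_smul (z a : E) (X τ : Fin 3 → E) (l : Fin 3) :
    fr z X (a • τ) l = a * fr z X τ l := by
  fin_cases l
  · simp [fr]; ring
  · simp [fr]; ring
  · simp [fr]; ring

lemma fr_zero (z : E) (X : Fin 3 → E) (l : Fin 3) : fr z X 0 l = 0 := by
  have := fr_smul z 0 X 0 l
  simpa using this

/-- The differential of the frame. -/
noncomputable def Jf (z : E) (X τ Y : Fin 3 → E) : Fin 3 → E :=
  ![(τ 1 + 2 * τ 0 * z - τ 2 * z ^ 2) * JR X Y 0 + 2 * (τ 0 - τ 2 * z) * Y 0,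
    (τ 1 + 2 * τ 0 * z - τ 2 * z ^ 2) * JR X Y 1 + 4 * (τ 0 - τ 2 * z) * Y 1,
    (τ 1 + 2 * τ 0 * z - τ 2 * z ^ 2) * JR X Y 2 + 6 * (τ 0 - τ 2 * z) * Y 2]

lemma Jf_bracket (z : E) (X τ σ : Fin 3 → E) (l : Fin 3) :
    Jf z X σ (fr z X τ) l - Jf z X τ (fr z X σ) l = fr z X (br τ σ) l := by
  have hAK := cA_mul_cK (E := E)
  fin_cases l
  · simp only [Jf, fr, Rm, JR, br, Matrix.cons_val_zero, Matrix.cons_val_one, Matrix.cons_val,
      Fin.zero_eta]
    linear_combination (2 * X 0 * ((σ 1 + 2 * σ 0 * z - σ 2 * z ^ 2) * τ 2 -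
      (τ 1 + 2 * τ 0 * z - τ 2 * z ^ 2) * σ 2)) * hAK
  · simp only [Jf, fr, Rm, JR, br, Matrix.cons_val_zero, Matrix.cons_val_one, Matrix.cons_val,
      Fin.mk_one]
    linear_combination (4 * X 1 * ((σ 1 + 2 * σ 0 * z - σ 2 * z ^ 2) * τ 2 -
      (τ 1 + 2 * τ 0 * z - τ 2 * z ^ 2) * σ 2)) * hAK
  · simp only [Jf, fr, Rm, JR, br, Matrix.cons_val_zero, Matrix.cons_val_one, Matrix.cons_val,
      Fin.reduceFinMk]
    linear_combination (6 * X 2 * ((σ 1 + 2 * σ 0 * z - σ 2 * z ^ 2) * τ 2 -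
      (τ 1 + 2 * τ 0 * z - τ 2 * z ^ 2) * σ 2)) * hAK

/-- The derivation along the flow commutes with the frame. -/
lemma fr_deriv (D : Derivation ℂ E E) {z z' : E} {X τ : Fin 3 → E} (hz : D z = z')
    (hX : ∀ l, D (X l) = z' * Rm X l) (l : Fin 3) :
    D (fr z X τ l) = z' * JR X (fr z X τ) l + fr z X (fun i ↦ D (τ i)) l := by
  have hA : D (cA E) = 0 := D.map_algebraMap _
  have hK : D (cK E) = 0 := D.map_algebraMap _
  have hAK := cA_mul_cK (E := E)
  have hn : ∀ n : ℕ, D (n : E) = 0 := fun n ↦ D.map_natCast n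
  have hx0 := hX 0
  have hx1 := hX 1
  have hx2 := hX 2
  have h2 : D (2 : E) = 0 := by exact_mod_cast hn 2
  have h4 : D (4 : E) = 0 := by exact_mod_cast hn 4
  have h6 : D (6 : E) = 0 := by exact_mod_cast hn 6
  fin_cases l
  · simp only [fr, Rm, JR, Matrix.cons_val_zero, Matrix.cons_val_one, Matrix.cons_val,
      Fin.zero_eta, map_add, map_sub, Derivation.leibniz, smul_eq_mul, pow_two, hx0, hx1, h2,
      hA, hK, hz]
    linear_combination (-2 * z' * τ 2 * X 0) * hAK
  · simp only [fr, Rm, JR, Matrix.cons_val_zero, Matrix.cons_val_one, Matrix.cons_val,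
      Fin.mk_one, map_add, map_sub, Derivation.leibniz, smul_eq_mul, pow_two, hx0, hx1, hx2, h2,
      h4, hA, hz]
    linear_combination (-4 * z' * τ 2 * X 1) * hAK
  · simp only [fr, Rm, JR, Matrix.cons_val_zero, Matrix.cons_val_one, Matrix.cons_val,
      Fin.reduceFinMk, map_add, map_sub, Derivation.leibniz, smul_eq_mul, pow_two, hx0, hx1, hx2,
      h2, h6, hA, hz]
    linear_combination (-6 * z' * τ 2 * X 2) * hAK

section maps

variable {A B : Type} [CommRing A] [Algebra ℂ A] [CommRing B] [Algebra ℂ B]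

lemma map_cA (f : A →ₐ[ℂ] B) : f (cA A) = cA B := f.commutes _

lemma map_cK (f : A →ₐ[ℂ] B) : f (cK A) = cK B := f.commutes _

lemma map_Rm (f : A →ₐ[ℂ] B) (X : Fin 3 → A) (l : Fin 3) :
    f (Rm X l) = Rm (fun i ↦ f (X i)) l := by
  fin_cases l
  · simp [Rm, map_cA]
  · simp [Rm, map_cA, map_ofNat f 4]
  · simp [Rm, map_cA, map_ofNat f 6]

lemma map_fr (f : A →ₐ[ℂ] B) (z : A) (X τ : Fin 3 → A) (l : Fin 3) :
    f (fr z X τ l) = fr (f z) (fun i ↦ f (X i)) (fun i ↦ f (τ i)) l := by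
  fin_cases l
  · simp [fr, map_Rm, map_cK, map_ofNat f 2]
  · simp [fr, map_Rm, map_ofNat f 4, map_ofNat f 2]
  · simp [fr, map_Rm, map_ofNat f 6, map_ofNat f 2]

variable {L : Type} [CommRing L] [Algebra ℂ L] [Algebra L E] [IsScalarTower ℂ L E]

lemma der_Rm (δ : Derivation ℂ L E) (X : Fin 3 → L) (l : Fin 3) :
    δ (Rm X l) = JR (fun i ↦ algebraMap L E (X i)) (fun i ↦ δ (X i)) l := by
  have hA : δ (cA L) = 0 := δ.map_algebraMap _
  have hn : ∀ n : ℕ, δ (n : L) = 0 := fun n ↦ δ.map_natCast n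
  have h4 : δ (4 : L) = 0 := by exact_mod_cast hn 4
  have h6 : δ (6 : L) = 0 := by exact_mod_cast hn 6
  have hm : algebraMap L E (cA L) = cA E := map_cA (IsScalarTower.toAlgHom ℂ L E)
  fin_cases l
  · simp only [Rm, JR, Matrix.cons_val_zero, Matrix.cons_val_one, Matrix.cons_val,
      Fin.zero_eta, map_add, map_sub, map_mul, Derivation.leibniz, Algebra.smul_def, pow_two, hA,
      hm]
    ring
  · simp only [Rm, JR, Matrix.cons_val_zero, Matrix.cons_val_one, Matrix.cons_val,
      Fin.mk_one, map_add, map_sub, map_mul, Derivation.leibniz, Algebra.smul_def, hA, h4,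
      hm]
    simp only [map_ofNat]
    ring
  · simp only [Rm, JR, Matrix.cons_val_zero, Matrix.cons_val_one, Matrix.cons_val,
      Fin.reduceFinMk, map_add, map_sub, map_mul, Derivation.leibniz, Algebra.smul_def, pow_two, hA,
      h6, hm]
    simp only [map_ofNat]
    ring

lemma der_fr (δ : Derivation ℂ L E) (z : L) (X τ : Fin 3 → L) (hz : δ z = 0)
    (hτ : ∀ i, δ (τ i) = 0) (l : Fin 3) :
    δ (fr z X τ l) = Jf (algebraMap L E z) (fun i ↦ algebraMap L E (X i))
      (fun i ↦ algebraMap L E (τ i)) (fun i ↦ δ (X i)) l := by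
  have hK : δ (cK L) = 0 := δ.map_algebraMap _
  have hn : ∀ n : ℕ, δ (n : L) = 0 := fun n ↦ δ.map_natCast n
  have h2 : δ (2 : L) = 0 := by exact_mod_cast hn 2
  have h4 : δ (4 : L) = 0 := by exact_mod_cast hn 4
  have h6 : δ (6 : L) = 0 := by exact_mod_cast hn 6
  have hR := der_Rm δ X
  have h0 := hτ 0
  have h1 := hτ 1
  have h2' := hτ 2
  fin_cases l
  · simp only [fr, Jf, Matrix.cons_val_zero, Matrix.cons_val_one, Matrix.cons_val,
      Fin.zero_eta, map_add, map_sub, map_mul, Derivation.leibniz, Algebra.smul_def, pow_two, hK,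
      h2, h0, h1, h2', hz, hR, map_ofNat]
    ring
  · simp only [fr, Jf, Matrix.cons_val_zero, Matrix.cons_val_one, Matrix.cons_val,
      Fin.mk_one, map_add, map_sub, map_mul, Derivation.leibniz, Algebra.smul_def, pow_two,
      h2, h4, h0, h1, h2', hz, hR, map_ofNat]
    ring
  · simp only [fr, Jf, Matrix.cons_val_zero, Matrix.cons_val_one, Matrix.cons_val,
      Fin.reduceFinMk, map_add, map_sub, map_mul, Derivation.leibniz, Algebra.smul_def, pow_two,
      h2, h6, h0, h1, h2', hz, hR, map_ofNat]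
    ring

end maps

end frame

section field

variable {E : Type} [Field E] [Algebra ℂ E]

lemma fr_surj [CharZero E] (z : E) {X : Fin 3 → E} (hX : X 1 ^ 3 - X 2 ^ 2 ≠ 0) (Y : Fin 3 → E) :
    ∃ τ, ∀ l, fr z X τ l = Y l := by
  set d := 24 * cA E * (X 1 ^ 3 - X 2 ^ 2) with hd
  have hd0 : d ≠ 0 := mul_ne_zero (mul_ne_zero (by norm_num) cA_ne) hX
  have hK := cK_ne (E := E)
  set β := (6 * Y 1 * X 2 - 4 * X 1 * Y 2) / d with hβ
  set s := (Rm X 1 * Y 2 - Rm X 2 * Y 1) / d with hs
  set r := (Y 0 - β * Rm X 0 - 2 * s * X 0) / cK E with hr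
  have e1 : β * Rm X 1 + 4 * s * X 1 = Y 1 := by
    rw [hβ, hs]
    field_simp
    rw [hd, Rm]
    simp only [Matrix.cons_val_one, Matrix.cons_val]
    ring
  have e2 : β * Rm X 2 + 6 * s * X 2 = Y 2 := by
    rw [hβ, hs]
    field_simp
    rw [hd, Rm]
    simp only [Matrix.cons_val_one, Matrix.cons_val]
    ring
  have e0 : β * Rm X 0 + 2 * s * X 0 + r * cK E = Y 0 := by
    rw [hr]
    field_simp
    ring
  refine ⟨![s + r * z, β - 2 * (s + r * z) * z + r * z ^ 2, r], fun l ↦ ?_⟩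
  fin_cases l
  · simp only [fr, Matrix.cons_val_zero, Matrix.cons_val_one, Matrix.cons_val, Fin.zero_eta]
    rw [← e0]
    ring
  · simp only [fr, Matrix.cons_val_zero, Matrix.cons_val_one, Matrix.cons_val, Fin.mk_one]
    rw [← e1]
    ring
  · simp only [fr, Matrix.cons_val_zero, Matrix.cons_val_one, Matrix.cons_val, Fin.reduceFinMk]
    rw [← e2]
    ring

lemma fr_inj [CharZero E] {z : E} {X τ : Fin 3 → E} (hX : X 1 ^ 3 - X 2 ^ 2 ≠ 0)
    (h : ∀ l, fr z X τ l = 0) : τ = 0 := by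
  have h0 := h 0
  have h1 := h 1
  have h2 := h 2
  simp only [fr, Matrix.cons_val_zero, Matrix.cons_val_one, Matrix.cons_val] at h0 h1 h2
  set β := τ 1 + 2 * τ 0 * z - τ 2 * z ^ 2 with hβ
  set s := τ 0 - τ 2 * z with hs
  have hd0 : 24 * cA E * (X 1 ^ 3 - X 2 ^ 2) ≠ 0 := mul_ne_zero (mul_ne_zero (by norm_num) cA_ne) hX
  have b0 : β = 0 := by
    apply (mul_eq_zero.mp (?_ : 24 * cA E * (X 1 ^ 3 - X 2 ^ 2) * β = 0)).resolve_left hd0
    rw [Rm] at h1 h2
    simp only [Matrix.cons_val_one, Matrix.cons_val] at h1 h2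
    linear_combination 6 * X 2 * h1 - 4 * X 1 * h2
  have s0 : s = 0 := by
    apply (mul_eq_zero.mp (?_ : 24 * cA E * (X 1 ^ 3 - X 2 ^ 2) * s = 0)).resolve_left hd0
    rw [b0] at h1 h2
    rw [zero_mul, zero_add] at h1 h2
    linear_combination 6 * cA E * X 1 ^ 2 * h1 - 4 * cA E * X 2 * h2
  rw [b0, s0] at h0
  have r0 : τ 2 = 0 := by
    apply (mul_eq_zero.mp (?_ : τ 2 * cK E = 0)).resolve_right cK_ne
    linear_combination h0
  have p0 : τ 0 = 0 := by
    rw [hs, r0] at s0
    linear_combination s0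
  have q0 : τ 1 = 0 := by
    rw [hβ, r0, p0] at b0
    linear_combination b0
  ext l
  fin_cases l
  · exact p0
  · exact q0
  · exact r0

end field

end H32.T4

end S_T4_A4

section S_T4_A5

/-!
# Derivations of the field generated by a solution: constant frames
-/

set_option linter.unusedSimpArgs false

open Filter
open scoped Topology Real

namespace H32.T4

instance tower (K : IntermediateField ℂ MG) (L : IntermediateField K MG) :
    IsScalarTower ℂ L MG :=
  IsScalarTower.of_algebraMap_eq fun _ ↦ rfl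

/-- Stability under the derivation. -/
def Stab (K : IntermediateField ℂ MG) : Prop := ∀ x ∈ K, DD x ∈ K

lemma stab_adjoin {K : IntermediateField ℂ MG} (hK : Stab K) {S : Set MG}
    (L : IntermediateField K MG) (hL : L = IntermediateField.adjoin K S)
    (hS : ∀ x ∈ S, DD x ∈ L) : ∀ x ∈ L, DD x ∈ L := by
  intro x hx
  rw [hL] at hx
  induction hx using IntermediateField.adjoin_induction with
  | mem x hx => exact hS x hx
  | algebraMap x =>
    have h1 : DD (x : MG) ∈ K := hK _ x.2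
    exact L.algebraMap_mem ⟨DD (x : MG), h1⟩
  | add x y _ _ h1 h2 =>
    rw [map_add]
    exact add_mem h1 h2
  | inv x hx h1 =>
    rw [Derivation.leibniz_inv, smul_eq_mul]
    have hx' : x ∈ L := by rw [hL]; exact hx
    exact mul_mem (neg_mem (pow_mem (inv_mem hx') 2)) h1
  | mul x y hx hy h1 h2 =>
    rw [Derivation.leibniz, smul_eq_mul, smul_eq_mul]
    have hx' : x ∈ L := by rw [hL]; exact hx
    have hy' : y ∈ L := by rw [hL]; exact hy
    exact add_mem (mul_mem hx' h2) (mul_mem hy' h1)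

/-- The commutator with the derivation. -/
noncomputable def cmt {K : IntermediateField ℂ MG} (hK : Stab K) {L : IntermediateField K MG}
    (hL : ∀ x ∈ L, DD x ∈ L) (δ : Derivation K L MG) : Derivation K L MG :=
  Derivation.mk' (R := K) (A := L) (M := MG)
    { toFun := fun x ↦ DD (δ x) - δ ⟨DD (x : MG), hL _ x.2⟩
      map_add' := fun x y ↦ by
        have e : (⟨DD ((x + y : L) : MG), hL _ (x + y).2⟩ : L) =
            ⟨DD (x : MG), hL _ x.2⟩ + ⟨DD (y : MG), hL _ y.2⟩ := by
          apply Subtype.ext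
          change DD ((x : MG) + (y : MG)) = _
          rw [map_add]
          rfl
        rw [e, map_add, map_add, map_add]
        ring
      map_smul' := fun c x ↦ by
        have hc : DD (c : MG) ∈ K := hK _ c.2
        have e : (⟨DD ((c • x : L) : MG), hL _ (c • x).2⟩ : L) =
            (⟨DD (c : MG), hc⟩ : K) • x + c • ⟨DD (x : MG), hL _ x.2⟩ := by
          apply Subtype.ext
          change DD ((c : MG) * (x : MG)) = DD (c : MG) * (x : MG) + (c : MG) * DD (x : MG)
          rw [Derivation.leibniz, smul_eq_mul, smul_eq_mul]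
          ring
        rw [e, map_add, Derivation.map_smul, Derivation.map_smul, Derivation.map_smul]
        rw [RingHom.id_apply]
        change DD ((c : MG) * δ x) - (DD (c : MG) * δ x + (c : MG) * _) = (c : MG) * _
        rw [Derivation.leibniz, smul_eq_mul, smul_eq_mul]
        ring }
    (fun x y ↦ by
      change DD (δ (x * y)) - δ ⟨DD ((x * y : L) : MG), hL _ (x * y).2⟩ =
        (x : MG) * (DD (δ y) - δ ⟨DD (y : MG), hL _ y.2⟩) +
        (y : MG) * (DD (δ x) - δ ⟨DD (x : MG), hL _ x.2⟩)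
      have e : (⟨DD ((x * y : L) : MG), hL _ (x * y).2⟩ : L) =
          x * ⟨DD (y : MG), hL _ y.2⟩ + y * ⟨DD (x : MG), hL _ x.2⟩ := by
        apply Subtype.ext
        change DD ((x : MG) * (y : MG)) = (x : MG) * DD (y : MG) + (y : MG) * DD (x : MG)
        rw [Derivation.leibniz, smul_eq_mul, smul_eq_mul]
      rw [e, map_add, Derivation.leibniz, Derivation.leibniz, Derivation.leibniz]
      change DD ((x : MG) * δ y + (y : MG) * δ x) - ((x : MG) * δ ⟨DD (y : MG), _⟩ +
        DD (y : MG) * δ x + ((y : MG) * δ ⟨DD (x : MG), _⟩ + DD (x : MG) * δ y)) = _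
      rw [map_add, Derivation.leibniz, Derivation.leibniz, smul_eq_mul, smul_eq_mul, smul_eq_mul,
        smul_eq_mul]
      ring)

lemma cmt_apply {K : IntermediateField ℂ MG} (hK : Stab K) {L : IntermediateField K MG}
    (hL : ∀ x ∈ L, DD x ∈ L) (δ : Derivation K L MG) (x : L) :
    cmt hK hL δ x = DD (δ x) - δ ⟨DD (x : MG), hL _ x.2⟩ := rfl

/-- The commutator in terms of the frame. -/
lemma cmt_fr {K : IntermediateField ℂ MG} (hK : Stab K) {L : IntermediateField K MG}
    (hL : ∀ x ∈ L, DD x ∈ L) (δ : Derivation K L MG) {z : MG} (hz : z ∈ K) (v : Fin 3 → L)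
    (hv : ∀ l, DD (v l : MG) = DD z * Rm (fun i ↦ (v i : MG)) l) (ξ : Fin 3 → MG)
    (h : ∀ l, δ (v l) = fr z (fun i ↦ (v i : MG)) ξ l) (l : Fin 3) :
    cmt hK hL δ (v l) = fr z (fun i ↦ (v i : MG)) (fun i ↦ DD (ξ i)) l := by
  have hz' : DD z ∈ K := hK _ hz
  have e : (⟨DD (v l : MG), hL _ (v l).2⟩ : L) = (⟨DD z, hz'⟩ : K) • Rm v l := by
    apply Subtype.ext
    change DD (v l : MG) = DD z * ((Rm v l : L) : MG)
    rw [hv]
    have h1 := map_Rm (IsScalarTower.toAlgHom ℂ L MG) v l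
    change ((Rm v l : L) : MG) = Rm (fun i ↦ (v i : MG)) l at h1
    rw [h1]
  rw [cmt_apply, e, Derivation.map_smul]
  have h2 := der_Rm (δ.restrictScalars ℂ) v l
  change δ (Rm v l) = JR (fun i ↦ (v i : MG)) (fun i ↦ δ (v i)) l at h2
  rw [h2, h]
  change _ - DD z * _ = _
  have h3 := fr_deriv DD (z := z) (z' := DD z) (X := fun i ↦ (v i : MG)) (τ := ξ) rfl hv l
  rw [h3]
  have h4 : (fun i ↦ δ (v i)) = fr z (fun i ↦ (v i : MG)) ξ := funext h
  rw [h4]
  ring

/-- The vectors of frame coordinates of derivations. -/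
noncomputable def Tsub (K : IntermediateField ℂ MG) (L : IntermediateField K MG) (z : MG)
    (v : Fin 3 → L) : Submodule MG (Fin 3 → MG) where
  carrier := {ξ | ∃ δ : Derivation K L MG, ∀ l, δ (v l) = fr z (fun i ↦ (v i : MG)) ξ l}
  add_mem' := by
    rintro ξ η ⟨δ, hδ⟩ ⟨ε, hε⟩
    refine ⟨δ + ε, fun l ↦ ?_⟩
    rw [fr_add, Derivation.add_apply, hδ, hε]
  zero_mem' := ⟨0, fun l ↦ by rw [fr_zero]; rfl⟩
  smul_mem' := by
    rintro a ξ ⟨δ, hδ⟩
    refine ⟨a • δ, fun l ↦ ?_⟩
    rw [fr_smul, Derivation.smul_apply, hδ, smul_eq_mul]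

/-- A nonzero subspace stable under the derivation contains a nonzero constant vector. -/
theorem exists_const_vec (T : Submodule MG (Fin 3 → MG)) (hT : T ≠ ⊥)
    (hD : ∀ ξ ∈ T, (fun i ↦ DD (ξ i)) ∈ T) :
    ∃ c : Fin 3 → ℂ, c ≠ 0 ∧ (fun i ↦ algebraMap ℂ MG (c i)) ∈ T := by
  classical
  obtain ⟨ξ₀, hξ₀, hne₀⟩ := Submodule.exists_mem_ne_zero_of_ne_bot hT
  -- minimal support
  set sup : (Fin 3 → MG) → ℕ := fun ξ ↦ (Finset.univ.filter (fun i ↦ ξ i ≠ 0)).card with hsup
  have hex : ∃ n, ∃ ξ ∈ T, ξ ≠ 0 ∧ sup ξ = n := ⟨_, ξ₀, hξ₀, hne₀, rfl⟩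
  obtain ⟨ξ, hξ, hne, hn⟩ := Nat.find_spec hex
  have hmin := fun m hm ↦ Nat.find_min hex (m := m) hm
  obtain ⟨i₀, hi₀⟩ : ∃ i, ξ i ≠ 0 := by
    by_contra hcon
    push Not at hcon
    exact hne (funext hcon)
  set η : Fin 3 → MG := (ξ i₀)⁻¹ • ξ with hη
  have hηT : η ∈ T := T.smul_mem _ hξ
  have hηi : η i₀ = 1 := by
    rw [hη, Pi.smul_apply, smul_eq_mul, inv_mul_cancel₀ hi₀]
  have hη0 : ∀ i, η i = 0 ↔ ξ i = 0 := by
    intro i
    rw [hη, Pi.smul_apply, smul_eq_mul, mul_eq_zero]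
    simp [hi₀]
  have hDη : (fun i ↦ DD (η i)) = 0 := by
    by_contra hcon
    have hlt : sup (fun i ↦ DD (η i)) < Nat.find hex := by
      rw [← hn, hsup]
      apply Finset.card_lt_card
      rw [Finset.ssubset_iff_of_subset]
      · refine ⟨i₀, by simp [hi₀], ?_⟩
        rw [Finset.mem_filter, not_and, not_not]
        intro _
        beta_reduce
        rw [hηi, Derivation.map_one_eq_zero]
      · intro i hi
        rw [Finset.mem_filter] at hi ⊢
        refine ⟨hi.1, fun h0 ↦ hi.2 ?_⟩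
        beta_reduce
        rw [(hη0 i).mpr h0, map_zero]
    exact hmin _ hlt ⟨_, hD η hηT, hcon, rfl⟩
  have hc : ∀ i, ∃ c : ℂ, η i = algebraMap ℂ MG c := fun i ↦ const_of_DD (congrFun hDη i)
  choose c hc using hc
  refine ⟨c, fun h0 ↦ ?_, ?_⟩
  · have h1 := hc i₀
    rw [hηi, h0] at h1
    simp at h1
  · have : (fun i ↦ algebraMap ℂ MG (c i)) = η := funext fun i ↦ (hc i).symm
    rw [this]
    exact hηT

/-- Either the solution is algebraic, or there is a derivation which is constant in the frame. -/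
theorem single_alg (K : IntermediateField ℂ MG) (hK : Stab K) {z : MG} (hz : z ∈ K)
    (v : Fin 3 → MG) (hv : ∀ l, DD (v l) = DD z * Rm v l) (hΔ : v 1 ^ 3 - v 2 ^ 2 ≠ 0) :
    (∀ l, IsAlgebraic K (v l)) ∨ ∃ c : Fin 3 → ℂ, c ≠ 0 ∧
      ∃ δ : Derivation K (IntermediateField.adjoin K (Set.range v)) MG,
        ∀ l, δ ⟨v l, IntermediateField.subset_adjoin _ _ ⟨l, rfl⟩⟩ =
          fr z v (fun i ↦ algebraMap ℂ MG (c i)) l := by
  set L := IntermediateField.adjoin K (Set.range v) with hLdef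
  set w : Fin 3 → L := fun l ↦ ⟨v l, IntermediateField.subset_adjoin _ _ ⟨l, rfl⟩⟩ with hw
  have hFG : L.FG := IntermediateField.fg_adjoin_of_finite (Set.finite_range v)
  have hL : ∀ x ∈ L, DD x ∈ L := by
    refine stab_adjoin hK L hLdef ?_
    rintro _ ⟨l, rfl⟩
    rw [hv]
    have h1 := map_Rm (IsScalarTower.toAlgHom ℂ L MG) w l
    change ((Rm w l : L) : MG) = Rm v l at h1
    rw [← h1]
    exact mul_mem (L.algebraMap_mem ⟨DD z, hK _ hz⟩) (Rm w l).2
  by_cases hT : Tsub K L z w = ⊥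
  · left
    have halg : Algebra.IsAlgebraic K L := by
      refine alg_of_no_der L hFG fun δ ↦ ?_
      refine der_ext hLdef δ ?_
      rintro ⟨x, hx⟩ ⟨l, rfl⟩
      obtain ⟨ξ, hξ⟩ := fr_surj z hΔ (fun l ↦ δ (w l))
      have h1 : ξ ∈ Tsub K L z w := ⟨δ, fun l ↦ (hξ l).symm⟩
      rw [hT, Submodule.mem_bot] at h1
      have h2 := hξ l
      rw [h1, fr_zero] at h2
      exact h2.symm
    intro l
    have h1 := halg.isAlgebraic (w l)
    exact h1.algebraMap
  · right
    obtain ⟨c, hc, δ, hδ⟩ := exists_const_vec _ hT (by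
      rintro ξ ⟨δ, hδ⟩
      exact ⟨cmt hK hL δ, cmt_fr hK hL δ hz w hv ξ hδ⟩)
    exact ⟨c, hc, δ, hδ⟩

end H32.T4

end S_T4_A5
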