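import Mathlib
import Pool.Agent.H32.M.K2

/-! Modular Schanuel for special tuples, part K3: this file joins several modules to save build time. -/

section S_G3

/-!
# The Liouville inequality with rational parameters: final form
-/

open UpperHalfPlane hiding I
open Complex EisensteinSeries ModularForm MatrixGroups Manifold Asymptotics
open scoped Real
open MvPolynomial

namespace H32

variable {m n : ℕ}

theorem app_finalG {Φ : MvPolynomial (Fin m ⊕ Fin n × Fin 3) ℤ} {W : ℕ}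
    (hΦ : IsWeightedHomogeneous wtS Φ W) : ∃ C : ℝ, 0 < C ∧
    ∀ (Q q : ℕ) (p : Fin m → ℤ) (u : Fin n → GaussianInt) (N : Fin n → ℕ)
      (M : Fin n → ℕ × ℕ × ℕ), 2 ≤ Q → 1 ≤ q → q ≤ Q →
    (∀ k, |p k| ≤ Q) → (∀ j, ‖GaussianInt.toComplex (u j)‖ ≤ Q) → (∀ j, 0 < N j) →
    (∀ j, N j ≤ Q) → (∀ j, M j ∈ SN (N j)) →
    aeval (valG q p u N M) Φ ≠ 0 →
    Real.exp (-(C * Real.log Q * ∏ j, ((SN (N j)).card : ℝ))) ≤ ‖aeval (valG q p u N M) Φ‖ := by
  obtain ⟨ω, hω⟩ := IsAlgClosed.exists_pow_nat_eq (E₄ UpperHalfPlane.I) (n := 4) (by norm_num)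
  have hω0 : ω ≠ 0 := by
    rintro rfl
    rw [zero_pow (by norm_num)] at hω
    exact E4_I_ne hω.symm
  obtain ⟨C1, hC1, E, hb⟩ := evG_specG_bound hΦ
  set c0 : ℝ := ‖(1728 / ω : ℂ)‖ + 1 with hc0
  have hc01 : 1 ≤ c0 := by have := norm_nonneg (1728 / ω : ℂ); linarith
  set D := Φ.totalDegree with hD
  set c2 : ℝ := c0 ^ W * (c0 ^ W * C1) with hc2
  have hcW : 1 ≤ c0 ^ W := one_le_pow₀ hc01
  have hc21 : 1 ≤ c2 := by
    have : 1 ≤ c0 ^ W * C1 := by nlinarith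
    nlinarith
  set E2 : ℕ := D + n * W + 2 * n + E with hE2
  have hl2 : 0 < Real.log 2 := Real.log_pos (by norm_num)
  refine ⟨Real.log c2 / Real.log 2 + E2 + 1, ?_, ?_⟩
  · have : 0 ≤ Real.log c2 / Real.log 2 := div_nonneg (Real.log_nonneg hc21) hl2.le
    positivity
  intro Q q p u N M hQ2 hq hqQ hp hu hN0 hNQ hM hne
  have hQ1 : (1 : ℝ) ≤ Q := by exact_mod_cast le_trans hq hqQ
  have hq0 : (q : ℂ) ≠ 0 := by exact_mod_cast (by omega : q ≠ 0)
  have hN0' : ∀ j, (N j : ℂ) ≠ 0 := fun j ↦ by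
    have := hN0 j
    exact_mod_cast this.ne'
  set Ψ := specG Φ D W q p u N with hΨ
  set v := aeval (valG q p u N M) Φ with hv
  have hev : evG M Ψ = (q : ℂ) ^ D * (∏ j, (N j : ℂ)) ^ W * v :=
    evG_specG hΦ (by omega) p u hN0 M
  have hevne : evG M Ψ ≠ 0 := by
    rw [hev]
    refine mul_ne_zero (mul_ne_zero (pow_ne_zero _ hq0) (pow_ne_zero _ ?_)) hne
    exact Finset.prod_ne_zero_iff.mpr fun j _ ↦ hN0' j
  set S := Fintype.piFinset (fun j ↦ SN (N j)) with hS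
  have hMS : M ∈ S := Fintype.mem_piFinset.mpr hM
  set K := S.card with hK
  have hK1 : 1 ≤ K := Finset.card_pos.mpr ⟨M, hMS⟩
  have hKprod : (K : ℝ) = ∏ j, ((SN (N j)).card : ℝ) := by
    rw [hK, hS, Fintype.card_piFinset]; push_cast; rfl
  have hKQ : (K : ℝ) ≤ (Q : ℝ) ^ (2 * n) := by
    rw [hKprod]
    calc ∏ j, ((SN (N j)).card : ℝ) ≤ ∏ j : Fin n, (Q : ℝ) ^ 2 := by
          refine Finset.prod_le_prod (fun _ _ ↦ by positivity) fun j _ ↦ ?_
          refine (card_SN (hN0 j)).trans ?_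
          have h1 : (1 : ℝ) ≤ N j := by exact_mod_cast hN0 j
          have h2 : (N j : ℝ) ≤ Q := by exact_mod_cast hNQ j
          have h3 : Real.log (N j) ≤ N j - 1 := Real.log_le_sub_one_of_pos (by linarith)
          have h4 : 0 ≤ Real.log (N j) := Real.log_nonneg h1
          calc (N j : ℝ) * (1 + Real.log (N j)) ≤ Q * Q := by
                gcongr
                linarith
            _ = _ := by ring
      _ = _ := by
          rw [Finset.prod_const, Finset.card_univ, Fintype.card_fin, ← pow_mul]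
  set B : ℝ := c0 ^ W * C1 * (Q : ℝ) ^ E with hBdef
  have hQE : 1 ≤ (Q : ℝ) ^ E := one_le_pow₀ hQ1
  have hB1 : 1 ≤ B := by
    have : 1 ≤ c0 ^ W * C1 := by nlinarith
    nlinarith
  have hnorm : ‖(1728 / ω : ℂ)‖ ≤ c0 := by linarith
  have hB : ∀ M' ∈ S, ‖(1728 / ω) ^ W * evG M' Ψ‖ ≤ B := by
    intro M' hM'
    have hM'' := Fintype.mem_piFinset.mp hM'
    have := hb Q q p u N M' hq hqQ hp hu hN0 hNQ hM''
    rw [norm_mul, norm_pow, hBdef, mul_assoc]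
    gcongr
  have key := appG1 hω Ψ (specG_homog hΦ D q p u N) hN0 hB1 hB hMS hevne
  have hfac : (K.factorial : ℝ) ≤ ((Q : ℝ) ^ (2 * n)) ^ K := by
    calc (K.factorial : ℝ) ≤ (K : ℝ) ^ K := by exact_mod_cast Nat.factorial_le_pow K
      _ ≤ _ := by gcongr
  have hfirst : ‖(1728 / ω) ^ W * evG M Ψ‖ ≤ (c0 ^ W * (Q : ℝ) ^ (D + n * W)) * ‖v‖ := by
    rw [hev]
    simp only [norm_mul, norm_pow, norm_prod, Complex.norm_natCast]
    have h1 : (q : ℝ) ^ D ≤ (Q : ℝ) ^ D := by gcongr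
    have h2 : (∏ j, (N j : ℝ)) ^ W ≤ (Q : ℝ) ^ (n * W) := by
      have h3 : ∏ j, (N j : ℝ) ≤ (Q : ℝ) ^ n := by
        calc ∏ j, (N j : ℝ) ≤ ∏ j : Fin n, (Q : ℝ) := by
              refine Finset.prod_le_prod (fun _ _ ↦ by positivity) fun j _ ↦ ?_
              exact_mod_cast hNQ j
          _ = _ := by rw [Finset.prod_const, Finset.card_univ, Fintype.card_fin]
      rw [pow_mul]
      gcongr
    calc ‖(1728 / ω : ℂ)‖ ^ W * ((q : ℝ) ^ D * (∏ j, (N j : ℝ)) ^ W * ‖v‖)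
        ≤ c0 ^ W * ((Q : ℝ) ^ D * (Q : ℝ) ^ (n * W) * ‖v‖) := by gcongr
      _ = _ := by rw [pow_add]; ring
  have h5 : (1 : ℝ) ≤ ‖v‖ * (c2 * (Q : ℝ) ^ E2) ^ K := by
    calc (1 : ℝ) ≤ ‖(1728 / ω) ^ W * evG M Ψ‖ * ((K.factorial : ℝ) * B ^ K) := key
      _ ≤ ((c0 ^ W * (Q : ℝ) ^ (D + n * W)) * ‖v‖) * ((((Q : ℝ) ^ (2 * n)) ^ K) * B ^ K) := by
          gcongr
      _ = ‖v‖ * ((c0 ^ W * (Q : ℝ) ^ (D + n * W)) * ((((Q : ℝ) ^ (2 * n)) ^ K) * B ^ K)) := by ring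
      _ ≤ ‖v‖ * ((c0 ^ W * (Q : ℝ) ^ (D + n * W)) ^ K * ((((Q : ℝ) ^ (2 * n)) ^ K) * B ^ K)) := by
          have h6 : 1 ≤ c0 ^ W * (Q : ℝ) ^ (D + n * W) := by
            have : 1 ≤ (Q : ℝ) ^ (D + n * W) := one_le_pow₀ hQ1
            nlinarith
          have h7 : c0 ^ W * (Q : ℝ) ^ (D + n * W) ≤ (c0 ^ W * (Q : ℝ) ^ (D + n * W)) ^ K :=
            le_self_pow₀ h6 (by omega)
          gcongr
      _ = ‖v‖ * (c2 * (Q : ℝ) ^ E2) ^ K := by
          rw [← mul_pow, ← mul_pow, hc2, hE2, hBdef, pow_add, pow_add, pow_add]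
          ring
  have h8 : (c2 * (Q : ℝ) ^ E2) ^ K ≤
      Real.exp ((Real.log c2 / Real.log 2 + E2 + 1) * Real.log Q * ∏ j, ((SN (N j)).card : ℝ)) := by
    rw [← hKprod]
    have hc2p : 0 < c2 := by linarith
    have hQp : (0 : ℝ) < Q := by linarith
    have h9 : (c2 * (Q : ℝ) ^ E2) ^ K = Real.exp ((Real.log c2 + E2 * Real.log Q) * K) := by
      rw [mul_comm _ (K : ℝ), Real.exp_nat_mul, Real.exp_add, Real.exp_log hc2p,
        Real.exp_nat_mul, Real.exp_log hQp]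
    rw [h9]
    apply Real.exp_le_exp.mpr
    have hlQ : Real.log 2 ≤ Real.log Q := Real.log_le_log (by norm_num) (by exact_mod_cast hQ2)
    have h10 : Real.log c2 ≤ Real.log c2 / Real.log 2 * Real.log Q := by
      have h0 : 0 ≤ Real.log c2 := Real.log_nonneg hc21
      calc Real.log c2 = Real.log c2 / Real.log 2 * Real.log 2 := by field_simp
        _ ≤ _ := by gcongr
    have hlQ0 : 0 ≤ Real.log Q := by linarith
    gcongr
    nlinarith
  have h11 : (1 : ℝ) ≤ ‖v‖ * Real.exp ((Real.log c2 / Real.log 2 + E2 + 1) * Real.log Q *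
      ∏ j, ((SN (N j)).card : ℝ)) := by
    refine h5.trans ?_
    gcongr
  rw [Real.exp_neg, inv_le_iff_one_le_mul₀ (Real.exp_pos _)]
  exact h11

end H32

end S_G3

section S_G4

/-!
# Special points
-/

open UpperHalfPlane hiding I
open Complex EisensteinSeries ModularForm MatrixGroups Manifold
open scoped Real Topology
open Filter Asymptotics MvPolynomial

namespace H32

variable {m n : ℕ}

/-- The Gaussian integer attached to a form and a rational point. -/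
def gv (α : Fin (m + 1) → GaussianInt) (q : ℕ) (p : Fin m → ℤ) : GaussianInt :=
  α 0 * q + ∑ k, α k.succ * p k

lemma lf_gv (α : Fin (m + 1) → GaussianInt) {q : ℕ} (hq : 0 < q) (p : Fin m → ℤ) :
    lf (gc α) (fun k ↦ (((p k : ℝ) / q : ℝ) : ℂ)) = GaussianInt.toComplex (gv α q p) / q := by
  have hq0 : (q : ℂ) ≠ 0 := by exact_mod_cast hq.ne'
  rw [eq_div_iff hq0]
  unfold lf lin gc gv
  simp only [map_add, map_mul, map_sum, map_natCast, map_intCast]
  rw [add_mul, Finset.sum_mul]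
  congr 1
  refine Finset.sum_congr rfl fun k _ ↦ ?_
  push_cast
  field_simp

lemma exists_MG (v u : GaussianInt)
    (hpos : 0 < (GaussianInt.toComplex v / GaussianInt.toComplex u).im) :
    ∃ (M : ℕ × ℕ × ℕ) (N : ℕ), 0 < N ∧ M ∈ SN N ∧ (N : ℤ) = v.im * u.re - v.re * u.im ∧
      e2 (GaussianInt.toComplex v / GaussianInt.toComplex u) -
        3 / (π * ((GaussianInt.toComplex v / GaussianInt.toComplex u).im : ℂ)) =
        (GaussianInt.toComplex u / N) ^ 2 * AA M 0 ∧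
      e4 (GaussianInt.toComplex v / GaussianInt.toComplex u) =
        (GaussianInt.toComplex u / N) ^ 4 * AA M 1 ∧
      e6 (GaussianInt.toComplex v / GaussianInt.toComplex u) =
        (GaussianInt.toComplex u / N) ^ 6 * AA M 2 := by
  set V : ℂ := GaussianInt.toComplex v with hV
  set U : ℂ := GaussianInt.toComplex u with hU
  have hU0 : U ≠ 0 := by
    intro h0
    rw [h0, div_zero] at hpos
    simp at hpos
  have hVe : V = (v.re : ℂ) + (v.im : ℂ) * I := by rw [hV, GaussianInt.toComplex_def]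
  have hUe : U = (u.re : ℂ) + (u.im : ℂ) * I := by rw [hU, GaussianInt.toComplex_def]
  have him : (V / U).im = ((v.im * u.re - v.re * u.im : ℤ) : ℝ) / Complex.normSq U := by
    rw [Complex.div_im, hVe]
    have hn : Complex.normSq U ≠ 0 := (Complex.normSq_pos.mpr hU0).ne'
    have h1 : U.re = u.re := by rw [hUe]; simp
    have h2 : U.im = u.im := by rw [hUe]; simp
    rw [h1, h2]
    simp
    ring
  have hns : 0 < Complex.normSq U := Complex.normSq_pos.mpr hU0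
  have hNz : 0 < v.im * u.re - v.re * u.im := by
    have h1 : 0 < (V / U).im := hpos
    rw [him] at h1
    have h2 : (0 : ℝ) < ((v.im * u.re - v.re * u.im : ℤ) : ℝ) := by
      by_contra hcon
      push Not at hcon
      have := div_nonpos_of_nonpos_of_nonneg hcon hns.le
      linarith
    exact_mod_cast h2
  obtain ⟨N, hNe⟩ := Int.eq_ofNat_of_zero_le hNz.le
  have hN : 0 < N := by omega
  obtain ⟨s, hs, γ, hX⟩ := exists_rep hN !![v.im, v.re; u.im, u.re] (by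
    rw [Matrix.det_fin_two_of]
    exact hNe)
  obtain ⟨ha, hd⟩ := SN_pos hN hs
  have hN2 := ((mem_SN hN).mp hs).1
  have h00 := congrFun (congrFun hX 0) 0
  have h01 := congrFun (congrFun hX 0) 1
  have h10 := congrFun (congrFun hX 1) 0
  have h11 := congrFun (congrFun hX 1) 1
  simp only [toM, Matrix.mul_apply, Fin.sum_univ_two, Matrix.of_apply, Matrix.cons_val',
    Matrix.cons_val_zero, Matrix.cons_val_one, Matrix.cons_val_fin_one, mul_zero, add_zero]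
    at h00 h01 h10 h11
  set τ : ℍ := tact s UpperHalfPlane.I with hτ
  have hτe : (τ : ℂ) = ((s.1 : ℂ) * I + s.2.1) / s.2.2 := by
    rw [hτ, coe_tact ha hd, UpperHalfPlane.coe_I]
  have hd0 : (s.2.2 : ℂ) ≠ 0 := by exact_mod_cast hd.ne'
  have ha0 : (s.1 : ℂ) ≠ 0 := by exact_mod_cast ha.ne'
  have hden : denom (γ : GL (Fin 2) ℝ) τ = U / s.2.2 := by
    rw [ModularGroup.denom_apply, hτe, eq_div_iff hd0, hUe, h10, h11]
    push_cast
    field_simp
    ring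
  have hnum : ((γ 0 0 : ℤ) : ℂ) * τ + ((γ 0 1 : ℤ) : ℂ) = V / s.2.2 := by
    rw [hτe, eq_div_iff hd0, hVe, h00, h01]
    push_cast
    field_simp
    ring
  have hz : ((γ • τ : ℍ) : ℂ) = V / U := by
    have hden0 : denom (γ : GL (Fin 2) ℝ) τ ≠ 0 := denom_ne_zero _ _
    rw [coe_specialLinearGroup_apply]
    have e0 : ((algebraMap ℤ ℝ (γ 0 0) : ℝ) : ℂ) = ((γ 0 0 : ℤ) : ℂ) := by simp
    have e1 : ((algebraMap ℤ ℝ (γ 0 1) : ℝ) : ℂ) = ((γ 0 1 : ℤ) : ℂ) := by simp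
    have e2 : ((algebraMap ℤ ℝ (γ 1 0) : ℝ) : ℂ) = ((γ 1 0 : ℤ) : ℂ) := by simp
    have e3 : ((algebraMap ℤ ℝ (γ 1 1) : ℝ) : ℂ) = ((γ 1 1 : ℤ) : ℂ) := by simp
    rw [e0, e1, e2, e3, hnum]
    have e4 : ((γ 1 0 : ℤ) : ℂ) * τ + ((γ 1 1 : ℤ) : ℂ) = U / s.2.2 := by
      rw [← hden, ModularGroup.denom_apply]
    rw [e4]
    field_simp
  have hNc : (N : ℂ) = (s.1 : ℂ) * s.2.2 := by rw [← hN2]; push_cast; rfl
  have hofc : ofComplex (V / U) = γ • τ := by rw [← hz, ofComplex_apply]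
  have hUN : U / N = U / s.2.2 / s.1 := by rw [hNc]; field_simp
  refine ⟨s, N, hN, hs, by omega, ?_, ?_, ?_⟩
  · have h1 := E2s_smul γ τ
    rw [hden] at h1
    unfold E2s at h1
    have h2 : ((γ • τ : ℍ).im : ℂ) = ((V / U).im : ℂ) := by rw [← hz]; rfl
    rw [h2] at h1
    rw [e2, hofc, h1, hUN]
    simp only [AA, Matrix.cons_val_zero]
    rw [← hτ]
    unfold E2s
    field_simp
  · have h1 := WInv_E4 γ τ
    simp only at h1
    rw [e4, hofc, h1, hden, hUN]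
    simp only [AA, Matrix.cons_val_one, Matrix.cons_val_zero]
    rw [← hτ]
    field_simp
  · have h1 := WInv_E6 γ τ
    simp only at h1
    rw [e6, hofc, h1, hden, hUN]
    simp only [AA, Matrix.cons_val]
    rw [← hτ]
    field_simp

/-- The real part polynomial of a form. -/
noncomputable def reP (α : Fin (m + 1) → GaussianInt) : MvPolynomial (Fin m) ℂ :=
  C ((α 0).re : ℂ) + ∑ k, C ((α k.succ).re : ℂ) * X k

/-- The imaginary part polynomial of a form. -/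
noncomputable def imP (α : Fin (m + 1) → GaussianInt) : MvPolynomial (Fin m) ℂ :=
  C ((α 0).im : ℂ) + ∑ k, C ((α k.succ).im : ℂ) * X k

lemma eval_reP (α : Fin (m + 1) → GaussianInt) (s : Fin m → ℝ) :
    eval (fun k ↦ (s k : ℂ)) (reP α) = ((lf (gc α) (fun k ↦ (s k : ℂ))).re : ℂ) := by
  unfold reP lf lin gc
  simp only [map_add, map_sum, map_mul, eval_C, eval_X, GaussianInt.toComplex_def,
    Complex.add_re, Complex.re_sum, Complex.mul_re, Complex.ofReal_re, Complex.ofReal_im,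
    Complex.I_re, Complex.I_im, Complex.intCast_re, Complex.intCast_im, Complex.add_im,
    Complex.mul_im]
  push_cast
  simp

lemma eval_imP (α : Fin (m + 1) → GaussianInt) (s : Fin m → ℝ) :
    eval (fun k ↦ (s k : ℂ)) (imP α) = ((lf (gc α) (fun k ↦ (s k : ℂ))).im : ℂ) := by
  unfold imP lf lin gc
  simp only [map_add, map_sum, map_mul, eval_C, eval_X, GaussianInt.toComplex_def,
    Complex.add_re, Complex.im_sum, Complex.mul_re, Complex.ofReal_re, Complex.ofReal_im,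
    Complex.I_re, Complex.I_im, Complex.intCast_re, Complex.intCast_im, Complex.add_im,
    Complex.mul_im]
  push_cast
  simp

/-- numerator of the imaginary part -/
noncomputable def Yp (α β : Fin (m + 1) → GaussianInt) : MvPolynomial (Fin m) ℂ :=
  imP α * reP β - reP α * imP β

/-- denominator of the imaginary part -/
noncomputable def Rp (β : Fin (m + 1) → GaussianInt) : MvPolynomial (Fin m) ℂ :=
  reP β ^ 2 + imP β ^ 2

lemma im_eq (α β : Fin (m + 1) → GaussianInt) (s : Fin m → ℝ) :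
    eval (fun k ↦ (s k : ℂ)) (Yp α β) = ((lf (gc α) (fun k ↦ (s k : ℂ)) /
      lf (gc β) (fun k ↦ (s k : ℂ))).im : ℂ) * eval (fun k ↦ (s k : ℂ)) (Rp β) ∨
      lf (gc β) (fun k ↦ (s k : ℂ)) = 0 := by
  by_cases h0 : lf (gc β) (fun k ↦ (s k : ℂ)) = 0
  · exact Or.inr h0
  left
  have hns : Complex.normSq (lf (gc β) (fun k ↦ (s k : ℂ))) ≠ 0 := (Complex.normSq_pos.mpr h0).ne'
  unfold Yp Rp
  simp only [map_sub, map_mul, map_add, map_pow, eval_reP, eval_imP]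
  rw [Complex.div_im]
  have h1 : ((Complex.normSq (lf (gc β) (fun k ↦ (s k : ℂ))) : ℝ) : ℂ) =
      ((lf (gc β) (fun k ↦ (s k : ℂ))).re : ℂ) ^ 2 + ((lf (gc β) (fun k ↦ (s k : ℂ))).im : ℂ) ^ 2 := by
    rw [Complex.normSq_apply]; push_cast; ring
  rw [← h1]
  have h2 : ((Complex.normSq (lf (gc β) (fun k ↦ (s k : ℂ))) : ℝ) : ℂ) ≠ 0 := by exact_mod_cast hns
  push_cast
  field_simp

lemma Rp_ne {β : Fin (m + 1) → GaussianInt} {s : Fin m → ℝ}
    (h0 : lf (gc β) (fun k ↦ (s k : ℂ)) ≠ 0) : eval (fun k ↦ (s k : ℂ)) (Rp β) ≠ 0 := by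
  have hns : Complex.normSq (lf (gc β) (fun k ↦ (s k : ℂ))) ≠ 0 := (Complex.normSq_pos.mpr h0).ne'
  unfold Rp
  simp only [map_add, map_pow, eval_reP, eval_imP]
  have h1 : ((Complex.normSq (lf (gc β) (fun k ↦ (s k : ℂ))) : ℝ) : ℂ) =
      ((lf (gc β) (fun k ↦ (s k : ℂ))).re : ℂ) ^ 2 + ((lf (gc β) (fun k ↦ (s k : ℂ))).im : ℂ) ^ 2 := by
    rw [Complex.normSq_apply]; push_cast; ring
  rw [← h1]
  exact_mod_cast hns

lemma den_ne_of_im {α β : Fin (m + 1) → GaussianInt} {s : Fin m → ℂ}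
    (h : 0 < (lf (gc α) s / lf (gc β) s).im) : lf (gc β) s ≠ 0 := by
  intro h0
  rw [h0, div_zero] at h
  simp at h

lemma Yp_ne {α β : Fin (m + 1) → GaussianInt} {s : Fin m → ℝ}
    (h : 0 < (lf (gc α) (fun k ↦ (s k : ℂ)) / lf (gc β) (fun k ↦ (s k : ℂ))).im) :
    eval (fun k ↦ (s k : ℂ)) (Yp α β) ≠ 0 := by
  have h0 := den_ne_of_im h
  rcases im_eq α β s with h1 | h1
  · rw [h1]
    refine mul_ne_zero ?_ (Rp_ne h0)
    exact_mod_cast h.ne'
  · exact absurd h1 h0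

lemma shift_eq {α β : Fin (m + 1) → GaussianInt} {s : Fin m → ℝ}
    (h : 0 < (lf (gc α) (fun k ↦ (s k : ℂ)) / lf (gc β) (fun k ↦ (s k : ℂ))).im) :
    3 * eval (fun k ↦ (s k : ℂ)) (Rp β) / (π * eval (fun k ↦ (s k : ℂ)) (Yp α β)) =
      3 / (π * ((lf (gc α) (fun k ↦ (s k : ℂ)) / lf (gc β) (fun k ↦ (s k : ℂ))).im : ℂ)) := by
  have h0 := den_ne_of_im h
  have hR := Rp_ne h0
  have hpi : (π : ℂ) ≠ 0 := by exact_mod_cast Real.pi_ne_zero
  have him : ((lf (gc α) (fun k ↦ (s k : ℂ)) / lf (gc β) (fun k ↦ (s k : ℂ))).im : ℂ) ≠ 0 := by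
    exact_mod_cast h.ne'
  rcases im_eq α β s with h1 | h1
  · rw [h1]
    field_simp
  · exact absurd h1 h0

lemma DM_val (α β : Fin n → Fin (m + 1) → GaussianInt) {q : ℕ} (hq : 0 < q) (p : Fin m → ℤ)
    (hpos : ∀ j, 0 < (lf (gc (α j)) (fun k ↦ (((p k : ℝ) / q : ℝ) : ℂ)) /
      lf (gc (β j)) (fun k ↦ (((p k : ℝ) / q : ℝ) : ℂ))).im) :
    ∃ (M : Fin n → ℕ × ℕ × ℕ) (N : Fin n → ℕ), (∀ j, 0 < N j) ∧ (∀ j, M j ∈ SN (N j)) ∧
      (∀ j, (N j : ℤ) = (gv (α j) q p).im * (gv (β j) q p).re -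
        (gv (α j) q p).re * (gv (β j) q p).im) ∧
      DM (fun j ↦ gc (α j)) (fun j ↦ gc (β j)) (fun j ↦ Yp (α j) (β j)) (fun j ↦ Rp (β j))
        (fun k ↦ (((p k : ℝ) / q : ℝ) : ℂ)) = valG q p (fun j ↦ gv (β j) q p) N M := by
  have hq0 : (q : ℂ) ≠ 0 := by exact_mod_cast hq.ne'
  have hquot : ∀ j, lf (gc (α j)) (fun k ↦ (((p k : ℝ) / q : ℝ) : ℂ)) /
      lf (gc (β j)) (fun k ↦ (((p k : ℝ) / q : ℝ) : ℂ)) =
      GaussianInt.toComplex (gv (α j) q p) / GaussianInt.toComplex (gv (β j) q p) := fun j ↦ by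
    rw [lf_gv _ hq, lf_gv _ hq]
    field_simp
  have hex : ∀ j, ∃ (M : ℕ × ℕ × ℕ) (N : ℕ), 0 < N ∧ M ∈ SN N ∧
      (N : ℤ) = (gv (α j) q p).im * (gv (β j) q p).re - (gv (α j) q p).re * (gv (β j) q p).im ∧
      e2 (GaussianInt.toComplex (gv (α j) q p) / GaussianInt.toComplex (gv (β j) q p)) -
        3 / (π * ((GaussianInt.toComplex (gv (α j) q p) /
          GaussianInt.toComplex (gv (β j) q p)).im : ℂ)) =
        (GaussianInt.toComplex (gv (β j) q p) / N) ^ 2 * AA M 0 ∧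
      e4 (GaussianInt.toComplex (gv (α j) q p) / GaussianInt.toComplex (gv (β j) q p)) =
        (GaussianInt.toComplex (gv (β j) q p) / N) ^ 4 * AA M 1 ∧
      e6 (GaussianInt.toComplex (gv (α j) q p) / GaussianInt.toComplex (gv (β j) q p)) =
        (GaussianInt.toComplex (gv (β j) q p) / N) ^ 6 * AA M 2 := fun j ↦
    exists_MG (gv (α j) q p) (gv (β j) q p) (by rw [← hquot]; exact hpos j)
  choose M N h1 h2 h3 h4 h5 h6 using hex
  refine ⟨M, N, h1, h2, h3, ?_⟩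
  ext x
  rcases x with k | ⟨j, l⟩
  · simp [DM, valG]
  · have hs := shift_eq (α := α j) (β := β j) (s := fun k ↦ ((p k : ℝ) / q : ℝ)) (hpos j)
    fin_cases l
    · have e := h4 j
      rw [← hquot] at e
      simp only [DM, valG, Sum.elim_inr, Matrix.cons_val_zero, wt3]
      simp only [Fin.zero_eta, Matrix.cons_val_zero]
      rw [hs]
      exact e
    · have e := h5 j
      rw [← hquot] at e
      simp only [DM, valG, Sum.elim_inr, wt3, Fin.mk_one, Matrix.cons_val_one,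
        Matrix.cons_val_zero]
      exact e
    · have e := h6 j
      rw [← hquot] at e
      simp only [DM, valG, Sum.elim_inr, wt3, Fin.reduceFinMk, Matrix.cons_val]
      exact e

end H32

end S_G4

section S_Core2

/-!
# The core theorem for general tuples
-/

open UpperHalfPlane hiding I
open Complex EisensteinSeries ModularForm MatrixGroups Manifold
open scoped Real Topology
open Filter Asymptotics MvPolynomial

namespace H32

variable {m n : ℕ}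

lemma analytic_lf (α : Fin (m + 1) → ℂ) (s : Fin m → ℂ) : AnalyticAt ℂ (lf α) s := by
  unfold lf lin
  refine analyticAt_const.fun_add (Finset.analyticAt_fun_sum _ fun k _ ↦ ?_)
  exact analyticAt_const.fun_mul ((ContinuousLinearMap.proj (R := ℂ) (φ := fun _ : Fin m ↦ ℂ) k).analyticAt s)

lemma analytic_eval (P : MvPolynomial (Fin m) ℂ) (s : Fin m → ℂ) :
    AnalyticAt ℂ (fun s ↦ eval s P) s := by
  have h1 : AnalyticAt ℂ (fun s : Fin m → ℂ ↦ aeval (fun k ↦ s k) P) s :=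
    AnalyticAt.aeval_mvPolynomial
      (fun k ↦ (ContinuousLinearMap.proj (R := ℂ) (φ := fun _ : Fin m ↦ ℂ) k).analyticAt s) P
  exact h1

lemma analytic_DM (A B : Fin n → Fin (m + 1) → ℂ) (Y R : Fin n → MvPolynomial (Fin m) ℂ)
    (s : Fin m → ℂ) (him : ∀ j, 0 < (lf (A j) s / lf (B j) s).im) (hY : ∀ j, eval s (Y j) ≠ 0)
    (x : Fin m ⊕ Fin n × Fin 3) : AnalyticAt ℂ (fun s ↦ DM A B Y R s x) s := by
  rcases x with k | ⟨j, l⟩
  · exact (ContinuousLinearMap.proj (R := ℂ) (φ := fun _ : Fin m ↦ ℂ) k).analyticAt s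
  · have hB : lf (B j) s ≠ 0 := by
      intro h0
      have h1 := him j
      rw [h0, div_zero] at h1
      simp at h1
    have hz : AnalyticAt ℂ (fun s ↦ lf (A j) s / lf (B j) s) s :=
      (analytic_lf (A j) s).fun_div (analytic_lf (B j) s) hB
    have h2 : AnalyticAt ℂ (fun s ↦ e2 (lf (A j) s / lf (B j) s)) s :=
      AnalyticAt.fun_comp (g := e2) (f := fun s ↦ lf (A j) s / lf (B j) s) (analytic_E2 _ (him j)) hz
    have h4 : AnalyticAt ℂ (fun s ↦ e4 (lf (A j) s / lf (B j) s)) s :=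
      AnalyticAt.fun_comp (g := e4) (f := fun s ↦ lf (A j) s / lf (B j) s) (analytic_E4 _ (him j)) hz
    have h6 : AnalyticAt ℂ (fun s ↦ e6 (lf (A j) s / lf (B j) s)) s :=
      AnalyticAt.fun_comp (g := e6) (f := fun s ↦ lf (A j) s / lf (B j) s) (analytic_E6 _ (him j)) hz
    have hpi : (π : ℂ) ≠ 0 := by exact_mod_cast Real.pi_ne_zero
    have h3 : AnalyticAt ℂ (fun s ↦ 3 * eval s (R j) / (π * eval s (Y j))) s :=
      (analyticAt_const.fun_mul (analytic_eval (R j) s)).fun_div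
        (analyticAt_const.fun_mul (analytic_eval (Y j) s)) (mul_ne_zero hpi (hY j))
    fin_cases l
    · exact h2.fun_sub h3
    · exact h4
    · exact h6

lemma norm_gv_le (α : Fin (m + 1) → GaussianInt) {q : ℕ} (p : Fin m → ℤ) {T : ℝ}
    (hq : (q : ℝ) ≤ T) (hp : ∀ k, |(p k : ℝ)| ≤ T) :
    ‖GaussianInt.toComplex (gv α q p)‖ ≤ (∑ k, ‖gc α k‖) * T := by
  unfold gv
  simp only [map_add, map_mul, map_sum, map_natCast, map_intCast]
  rw [Fin.sum_univ_succ, add_mul, Finset.sum_mul]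
  refine (norm_add_le _ _).trans (add_le_add ?_ ((norm_sum_le _ _).trans
    (Finset.sum_le_sum fun k _ ↦ ?_)))
  · rw [norm_mul, Complex.norm_natCast]
    exact mul_le_mul_of_nonneg_left hq (norm_nonneg _)
  · rw [norm_mul, Complex.norm_intCast]
    exact mul_le_mul_of_nonneg_left (hp k) (norm_nonneg _)

lemma N_le {v u : GaussianInt} {N : ℕ} (h : (N : ℤ) = v.im * u.re - v.re * u.im) :
    (N : ℝ) ≤ ‖GaussianInt.toComplex v‖ * ‖GaussianInt.toComplex u‖ := by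
  have h3 : (N : ℝ) = (v.im : ℝ) * u.re - v.re * u.im := by
    have h4 : ((N : ℤ) : ℝ) = ((v.im * u.re - v.re * u.im : ℤ) : ℝ) := congrArg _ h
    push_cast at h4
    exact h4
  have h1 : (N : ℝ) = (GaussianInt.toComplex v *
      (starRingEnd ℂ) (GaussianInt.toComplex u)).im := by
    rw [h3]
    simp only [Complex.mul_im, Complex.conj_re, Complex.conj_im]
    rw [← GaussianInt.intCast_re, ← GaussianInt.intCast_re, ← GaussianInt.intCast_im,
      ← GaussianInt.intCast_im]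
    ring
  rw [h1]
  refine (Complex.im_le_norm _).trans ?_
  rw [norm_mul, Complex.norm_conj]

theorem core2 (α β : Fin n → Fin (m + 1) → GaussianInt) (t : Fin m → ℝ) (κ : ℝ) (hκ : 2 * n < κ)
    (him : ∀ j, 0 < (lf (gc (α j)) (fun k ↦ (t k : ℂ)) / lf (gc (β j)) (fun k ↦ (t k : ℂ))).im)
    (hFT : ∀ P : MvPolynomial (Fin m ⊕ Fin n × Fin 3) ℂ,
      (∀ᶠ s in 𝓝 (fun k ↦ (t k : ℂ)), aeval (DM (fun j ↦ gc (α j)) (fun j ↦ gc (β j))
        (fun j ↦ Yp (α j) (β j)) (fun j ↦ Rp (β j)) s) P = 0) → P = 0)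
    (happ : ∀ K : ℕ, ∃ q : ℕ, K ≤ q ∧ ∃ p : Fin m → ℤ,
      (∀ k, 0 < |t k - p k / q| ∧ |t k - p k / q| < Real.exp (-(q : ℝ) ^ κ)) ∧
      ∀ j k, j < k → |t j - p j / q| < |t k - p k / q| ^ K)
    (Φ : MvPolynomial (Fin m ⊕ Fin n × Fin 3) ℤ) (W : ℕ) (hΦ : IsWeightedHomogeneous wtS Φ W)
    (hne : Φ ≠ 0) :
    aeval (DM (fun j ↦ gc (α j)) (fun j ↦ gc (β j))
        (fun j ↦ Yp (α j) (β j)) (fun j ↦ Rp (β j)) (fun k ↦ (t k : ℂ))) Φ ≠ 0 := by
  intro h0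
  have hκ0 : 0 < κ := by
    have : (0 : ℝ) ≤ 2 * n := by positivity
    linarith
  set DD' : (Fin m → ℂ) → Fin m ⊕ Fin n × Fin 3 → ℂ := DM (fun j ↦ gc (α j)) (fun j ↦ gc (β j))
    (fun j ↦ Yp (α j) (β j)) (fun j ↦ Rp (β j)) with hDD
  set F : (Fin m → ℂ) → ℂ := fun s ↦ aeval (DD' s) Φ with hF
  set tc : Fin m → ℂ := fun k ↦ (t k : ℂ) with htc
  have hY : ∀ j, eval tc (Yp (α j) (β j)) ≠ 0 := fun j ↦ Yp_ne (him j)
  have hFana : AnalyticAt ℂ F tc :=
    AnalyticAt.aeval_mvPolynomial (fun x ↦ analytic_DM _ _ _ _ tc him hY x) Φ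
  have hFne : ¬ ∀ᶠ s in 𝓝 tc, F s = 0 := by
    intro h
    have hΦC : map (Int.castRingHom ℂ) Φ ≠ 0 := fun h ↦ hne
      (MvPolynomial.map_injective _ Int.cast_injective (by rw [h, map_zero]))
    apply hΦC
    apply hFT
    filter_upwards [h] with s hs
    rw [aeval_def, eval₂_map]
    exact hs
  choose q hq p hp1 hp2 using happ
  have hqtop : Tendsto (fun k ↦ (q k : ℝ)) atTop atTop :=
    tendsto_natCast_atTop_atTop.comp (tendsto_atTop_mono hq tendsto_id)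
  have hexp : Tendsto (fun k ↦ Real.exp (-(q k : ℝ) ^ κ)) atTop (𝓝 0) := by
    have h1 : Tendsto (fun k ↦ (q k : ℝ) ^ κ) atTop atTop := (tendsto_rpow_atTop hκ0).comp hqtop
    exact Real.tendsto_exp_neg_atTop_nhds_zero.comp h1
  have hexp1 : ∀ k, Real.exp (-(q k : ℝ) ^ κ) ≤ 1 := fun k ↦ by
    apply Real.exp_le_one_iff.mpr
    have : 0 ≤ (q k : ℝ) ^ κ := by positivity
    linarith
  set rr : ℕ → Fin m → ℝ := fun k j ↦ (p k j : ℝ) / (q k : ℝ) with hrr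
  set δ : Fin m → ℕ → ℝ := fun j k ↦ |t j - (p k j : ℝ) / (q k : ℝ)| with hδ
  have hδ1 : ∀ j k, δ j k ≤ 1 := fun j k ↦ ((hp1 k j).2.le).trans (hexp1 k)
  have hδ0 : ∀ j, Tendsto (δ j) atTop (𝓝 0) := fun j ↦
    squeeze_zero (fun k ↦ abs_nonneg _) (fun k ↦ (hp1 k j).2.le) hexp
  have hrr0 : ∀ j, Tendsto (fun k ↦ rr k j) atTop (𝓝 (t j)) := fun j ↦ by
    rw [tendsto_iff_norm_sub_tendsto_zero]
    refine (hδ0 j).congr fun k ↦ ?_
    rw [Real.norm_eq_abs, abs_sub_comm]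
  set r : ℕ → Fin m → ℂ := fun k j ↦ (rr k j : ℂ) with hr
  have hr0 : Tendsto r atTop (𝓝 tc) := tendsto_pi_nhds.mpr fun j ↦
    (Complex.continuous_ofReal.tendsto _).comp (hrr0 j)
  have hnorm : ∀ j k, ‖r k j - tc j‖ = δ j k := fun j k ↦ by
    rw [hr, htc]
    simp only
    rw [← Complex.ofReal_sub, Complex.norm_real, Real.norm_eq_abs, abs_sub_comm]
  -- nonvanishing
  obtain ⟨c0, hc0, M0, hnv⟩ := nonvanish_multi m F tc r hFana hFne hr0 (fun C ↦ by
    filter_upwards [eventually_ge_atTop C] with k hk i j hij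
    rw [hnorm, hnorm]
    calc δ i k ≤ δ j k ^ k := (hp2 k i j hij).le
      _ ≤ δ j k ^ C := pow_le_pow_of_le_one (abs_nonneg _) (hδ1 j k) hk)
  have hevne : ∀ᶠ k in atTop, F (r k) ≠ 0 := by
    filter_upwards [hnv] with k hk h
    rw [h, norm_zero] at hk
    have : 0 < c0 * (∏ j, ‖r k j - tc j‖) ^ M0 := by
      have h1 : 0 < ∏ j, ‖r k j - tc j‖ := Finset.prod_pos fun j _ ↦ by
        rw [hnorm]; exact (hp1 k j).1
      positivity
    linarith
  -- upper bound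
  have hup : ∃ L : ℝ, 0 < L ∧ ∀ᶠ k in atTop, ‖F (r k)‖ ≤ L * Real.exp (-(q k : ℝ) ^ κ) := by
    have h1 := hFana.differentiableAt.isBigO_sub
    have h2 : (fun s ↦ F s) =O[𝓝 tc] fun s ↦ s - tc := by
      refine h1.congr_left fun s ↦ ?_
      have : F tc = 0 := h0
      rw [this, sub_zero]
    obtain ⟨L, hL, hb⟩ := (h2.comp_tendsto hr0).exists_pos
    rw [IsBigOWith] at hb
    refine ⟨L, hL, ?_⟩
    filter_upwards [hb] with k hk
    refine hk.trans ?_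
    gcongr
    refine (pi_norm_le_iff_of_nonneg (Real.exp_pos _).le).mpr fun j ↦ ?_
    change ‖r k j - tc j‖ ≤ _
    rw [hnorm]
    exact (hp1 k j).2.le
  obtain ⟨L, hL, hup⟩ := hup
  -- Liouville bound
  obtain ⟨C1, hC1, hliou⟩ := app_finalG hΦ
  set T : ℝ := 1 + ∑ j, (|t j| + 1) with hT
  have hT1 : 1 ≤ T := by
    have : 0 ≤ ∑ j, (|t j| + 1) := Finset.sum_nonneg fun j _ ↦ by positivity
    linarith
  have hTj : ∀ j, |t j| + 1 ≤ T := fun j ↦ by
    have := Finset.single_le_sum (f := fun j ↦ |t j| + 1) (fun i _ ↦ by positivity)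
      (Finset.mem_univ j)
    linarith
  set c : ℝ := (1 + ∑ j, (∑ k, ‖gc (α j) k‖) + ∑ j, (∑ k, ‖gc (β j) k‖)) * T with hc
  have hs1 : 0 ≤ ∑ j, (∑ k, ‖gc (α j) k‖) :=
    Finset.sum_nonneg fun j _ ↦ Finset.sum_nonneg fun k _ ↦ norm_nonneg _
  have hs2 : 0 ≤ ∑ j, (∑ k, ‖gc (β j) k‖) :=
    Finset.sum_nonneg fun j _ ↦ Finset.sum_nonneg fun k _ ↦ norm_nonneg _
  have hc1 : 1 ≤ c := one_le_mul_of_one_le_of_one_le (by linarith) hT1
  have hTc : T ≤ c := le_mul_of_one_le_left (by linarith) (by linarith)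
  have hcα : ∀ j, (∑ k, ‖gc (α j) k‖) * T ≤ c := fun j ↦ by
    have := Finset.single_le_sum (f := fun j ↦ ∑ k, ‖gc (α j) k‖)
      (fun i _ ↦ Finset.sum_nonneg fun k _ ↦ norm_nonneg _) (Finset.mem_univ j)
    rw [hc]
    gcongr
    linarith
  have hcβ : ∀ j, (∑ k, ‖gc (β j) k‖) * T ≤ c := fun j ↦ by
    have := Finset.single_le_sum (f := fun j ↦ ∑ k, ‖gc (β j) k‖)
      (fun i _ ↦ Finset.sum_nonneg fun k _ ↦ norm_nonneg _) (Finset.mem_univ j)
    rw [hc]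
    gcongr
    linarith
  obtain ⟨C', hC'⟩ := exists_nat_ge (2 + c ^ 2)
  have hcsq : c ≤ c ^ 2 := le_self_pow₀ hc1 two_ne_zero
  have hC'2 : (2 : ℝ) ≤ C' := by linarith [sq_nonneg c]
  have hC'c : c ≤ C' := by linarith
  have hC'cc : c ^ 2 ≤ C' := by linarith
  have hlow : ∀ᶠ k in atTop, Real.exp (-(C1 * Real.log ((C' : ℝ) * (q k : ℝ) ^ 2) *
      ((C' : ℝ) * (q k : ℝ) ^ 2 * (1 + Real.log ((C' : ℝ) * (q k : ℝ) ^ 2))) ^ n)) ≤
      ‖F (r k)‖ := by
    have hposev : ∀ᶠ k in atTop, ∀ j, 0 < (lf (gc (α j)) (r k) / lf (gc (β j)) (r k)).im := by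
      rw [Filter.eventually_all]
      intro j
      have hcont : ContinuousAt (fun s ↦ (lf (gc (α j)) s / lf (gc (β j)) s).im) tc :=
        Complex.continuous_im.continuousAt.comp ((continuous_lf _).continuousAt.div
          (continuous_lf _).continuousAt (den_ne_of_im (him j)))
      have h1 : ∀ᶠ s in 𝓝 tc, 0 < (lf (gc (α j)) s / lf (gc (β j)) s).im :=
        hcont.eventually_const_lt (him j)
      exact hr0.eventually h1
    filter_upwards [hposev, hevne, eventually_ge_atTop 1] with k hk1 hk2 hk3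
    have hq1 : 1 ≤ q k := hk3.trans (hq k)
    have hq0 : 0 < q k := hq1
    obtain ⟨M, N, hN0, hMN, hNeq, hDMval⟩ := DM_val α β hq0 (p k) hk1
    set Q : ℕ := C' * q k ^ 2 with hQ
    have hqR : (1 : ℝ) ≤ q k := by exact_mod_cast hq1
    have hqR2 : (q k : ℝ) ≤ (q k : ℝ) ^ 2 := le_self_pow₀ hqR two_ne_zero
    have hQR : (Q : ℝ) = (C' : ℝ) * (q k : ℝ) ^ 2 := by rw [hQ]; push_cast; rfl
    have hcqQ : c * (q k : ℝ) ≤ Q := by
      rw [hQR]
      have : 0 ≤ c := by linarith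
      gcongr
    have hQ2 : 2 ≤ Q := by
      have h1 : (1 : ℝ) ≤ (q k : ℝ) ^ 2 := one_le_pow₀ hqR
      have : (2 : ℝ) ≤ Q := by
        rw [hQR]
        exact hC'2.trans (le_mul_of_one_le_right (by linarith) h1)
      exact_mod_cast this
    have hqleQ : q k ≤ Q := by
      have : (q k : ℝ) ≤ Q := (le_mul_of_one_le_left (by linarith) hc1).trans hcqQ
      exact_mod_cast this
    have hpb : ∀ j, |(p k j : ℝ)| ≤ T * q k := fun j ↦ by
      have h1 := hδ1 j k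
      have h2 : |(p k j : ℝ) / q k| ≤ |t j| + 1 := by
        have h3 : (p k j : ℝ) / q k = t j - (t j - (p k j : ℝ) / q k) := by ring
        rw [h3]
        exact (abs_sub _ _).trans (add_le_add le_rfl h1)
      have h4 : |(p k j : ℝ)| = |(p k j : ℝ) / q k| * q k := by
        rw [abs_div, abs_of_pos (by linarith : (0 : ℝ) < q k)]
        field_simp
      rw [h4]
      gcongr
      exact h2.trans (hTj j)
    have hqb : (q k : ℝ) ≤ T * q k := le_mul_of_one_le_left (by linarith) hT1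
    have hpQ : ∀ j, |p k j| ≤ (Q : ℤ) := fun j ↦ by
      have : |(p k j : ℝ)| ≤ (Q : ℝ) := by
        refine (hpb j).trans (le_trans ?_ hcqQ)
        gcongr
      exact_mod_cast this
    have huα : ∀ j, ‖GaussianInt.toComplex (gv (α j) (q k) (p k))‖ ≤ c * q k := fun j ↦ by
      refine (norm_gv_le (α j) (p k) hqb hpb).trans ?_
      rw [← mul_assoc]
      gcongr
      exact hcα j
    have huβ : ∀ j, ‖GaussianInt.toComplex (gv (β j) (q k) (p k))‖ ≤ c * q k := fun j ↦ by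
      refine (norm_gv_le (β j) (p k) hqb hpb).trans ?_
      rw [← mul_assoc]
      gcongr
      exact hcβ j
    have hNQ : ∀ j, N j ≤ Q := fun j ↦ by
      have h4 : (N j : ℝ) ≤ Q := by
        rw [hQR]
        refine (N_le (hNeq j)).trans ?_
        calc ‖GaussianInt.toComplex (gv (α j) (q k) (p k))‖ *
              ‖GaussianInt.toComplex (gv (β j) (q k) (p k))‖ ≤ (c * q k) * (c * q k) :=
              mul_le_mul (huα j) (huβ j) (norm_nonneg _) (by positivity)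
          _ = c ^ 2 * (q k : ℝ) ^ 2 := by ring
          _ ≤ _ := by gcongr
      exact_mod_cast h4
    have hFv : F (r k) = aeval (valG (q k) (p k) (fun j ↦ gv (β j) (q k) (p k)) N M) Φ := by
      rw [hF, ← hDMval]
    have hv := hliou Q (q k) (p k) (fun j ↦ gv (β j) (q k) (p k)) N M hQ2 hq1 hqleQ hpQ
      (fun j ↦ (huβ j).trans hcqQ) hN0 hNQ hMN (by rw [← hFv]; exact hk2)
    rw [hFv]
    refine le_trans ?_ hv
    apply Real.exp_le_exp.mpr
    rw [hQR]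
    have hlog0 : 0 ≤ Real.log ((C' : ℝ) * (q k : ℝ) ^ 2) := by
      apply Real.log_nonneg
      rw [← hQR]
      exact_mod_cast (by omega : 1 ≤ Q)
    have hprod : ∏ j, ((SN (N j)).card : ℝ) ≤
        ((C' : ℝ) * (q k : ℝ) ^ 2 * (1 + Real.log ((C' : ℝ) * (q k : ℝ) ^ 2))) ^ n := by
      calc ∏ j, ((SN (N j)).card : ℝ) ≤ ∏ _j : Fin n,
            ((C' : ℝ) * (q k : ℝ) ^ 2 * (1 + Real.log ((C' : ℝ) * (q k : ℝ) ^ 2))) := by
            refine Finset.prod_le_prod (fun _ _ ↦ by positivity) fun j _ ↦ ?_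
            refine (card_SN (hN0 j)).trans ?_
            have h1 : (1 : ℝ) ≤ N j := by exact_mod_cast hN0 j
            have h2 : (N j : ℝ) ≤ (C' : ℝ) * (q k : ℝ) ^ 2 := by
              rw [← hQR]; exact_mod_cast hNQ j
            have h3 : Real.log (N j) ≤ Real.log ((C' : ℝ) * (q k : ℝ) ^ 2) :=
              Real.log_le_log (by linarith) h2
            have h4 : 0 ≤ Real.log (N j) := Real.log_nonneg h1
            gcongr
        _ = _ := by rw [Finset.prod_const, Finset.card_univ, Fintype.card_fin]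
    have : C1 * Real.log ((C' : ℝ) * (q k : ℝ) ^ 2) * ∏ j, ((SN (N j)).card : ℝ) ≤
        C1 * Real.log ((C' : ℝ) * (q k : ℝ) ^ 2) *
        ((C' : ℝ) * (q k : ℝ) ^ 2 * (1 + Real.log ((C' : ℝ) * (q k : ℝ) ^ 2))) ^ n := by
      gcongr
    linarith
  -- comparison
  have hC'1 : (1 : ℝ) ≤ C' := by linarith
  have hgr := hqtop.eventually (growth C1 C' hC'1 n κ hκ)
  have hlogL : ∀ᶠ k in atTop, Real.log L < (q k : ℝ) ^ κ / 2 := by
    have h1 : Tendsto (fun k ↦ (q k : ℝ) ^ κ) atTop atTop := (tendsto_rpow_atTop hκ0).comp hqtop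
    have h2 := h1.eventually_gt_atTop (2 * Real.log L)
    filter_upwards [h2] with k hk
    linarith
  obtain ⟨k, h1, h2, h3, h4⟩ := (hup.and (hlow.and (hgr.and hlogL))).exists
  have h5 := h2.trans h1
  have h6 : L * Real.exp (-(q k : ℝ) ^ κ) = Real.exp (Real.log L - (q k : ℝ) ^ κ) := by
    rw [sub_eq_add_neg, Real.exp_add, Real.exp_log hL]
  rw [h6, Real.exp_le_exp] at h5
  linarith

end H32

end S_Core2

section S_Final2

/-!
# The main theorem for general tuples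
-/

open UpperHalfPlane hiding I
open Complex EisensteinSeries ModularForm MatrixGroups Manifold
open scoped Real Topology
open MvPolynomial

namespace H32

variable {m n : ℕ}

lemma alg_rat (A : Subalgebra ℚ ℂ) (q : ℚ) : IsAlgebraic A (q : ℂ) := by
  have : (q : ℂ) = algebraMap A ℂ (algebraMap ℚ A q) := by
    rw [← IsScalarTower.algebraMap_apply]; rfl
  rw [this]
  exact isAlgebraic_algebraMap _

lemma alg_int (A : Subalgebra ℚ ℂ) (q : ℤ) : IsAlgebraic A (q : ℂ) := by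
  have := alg_rat A q
  simpa using this

lemma alg_I (A : Subalgebra ℚ ℂ) : IsAlgebraic A (I : ℂ) := by
  apply IsAlgebraic.of_pow (n := 2) (by norm_num)
  rw [Complex.I_sq]
  have := alg_rat A (-1)
  simpa using this

lemma alg_sum (A : Subalgebra ℚ ℂ) {ι : Type*} (s : Finset ι) (f : ι → ℂ)
    (h : ∀ i ∈ s, IsAlgebraic A (f i)) : IsAlgebraic A (∑ i ∈ s, f i) := by
  classical
  induction s using Finset.induction_on with
  | empty => simpa using alg_rat A 0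
  | insert a s ha ih =>
    rw [Finset.sum_insert ha]
    exact (h a (Finset.mem_insert_self a s)).add
      (ih fun i hi ↦ h i (Finset.mem_insert_of_mem hi))

lemma alg_reP {A : Subalgebra ℚ ℂ} {s : Fin m → ℂ} (hs : ∀ k, IsAlgebraic A (s k))
    (α : Fin (m + 1) → GaussianInt) : IsAlgebraic A (eval s (reP α)) := by
  unfold reP
  simp only [map_add, map_sum, map_mul, eval_C, eval_X]
  exact (alg_int A _).add (alg_sum A _ _ fun k _ ↦ (alg_int A _).mul (hs k))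

lemma alg_imP {A : Subalgebra ℚ ℂ} {s : Fin m → ℂ} (hs : ∀ k, IsAlgebraic A (s k))
    (α : Fin (m + 1) → GaussianInt) : IsAlgebraic A (eval s (imP α)) := by
  unfold imP
  simp only [map_add, map_sum, map_mul, eval_C, eval_X]
  exact (alg_int A _).add (alg_sum A _ _ fun k _ ↦ (alg_int A _).mul (hs k))

lemma alg_gc (A : Subalgebra ℚ ℂ) (α : Fin (m + 1) → GaussianInt) (k : Fin (m + 1)) :
    IsAlgebraic A (gc α k) := by
  unfold gc
  rw [GaussianInt.toComplex_def]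
  exact (alg_int A _).add ((alg_int A _).mul (alg_I A))

lemma alg_lf {A : Subalgebra ℚ ℂ} {s : Fin m → ℂ} (hs : ∀ k, IsAlgebraic A (s k))
    (α : Fin (m + 1) → GaussianInt) : IsAlgebraic A (lf (gc α) s) := by
  unfold lf lin
  exact (alg_gc A α 0).add (alg_sum A _ _ fun k _ ↦ (alg_gc A α _).mul (hs k))

/-- algebraic manipulations -/
lemma alg_step2 {A : Subalgebra ℚ ℂ} {Jv J1v J2v A2 B C : ℂ}
    (hB : B ≠ 0) (hC : C ≠ 0) (hD : B ^ 3 - C ^ 2 ≠ 0)
    (hJ : Jv = 1728 * B ^ 3 / (B ^ 3 - C ^ 2))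
    (hJ1 : J1v = -1728 * (2 * π * I) * (B ^ 2 * C) / (B ^ 3 - C ^ 2))
    (hJ2 : J2v = -1728 * (2 * π * I) ^ 2 * ((1 / 6) * A2 * B ^ 2 * C - (2 / 3) * B * C ^ 2 -
      (1 / 2) * B ^ 4) / (B ^ 3 - C ^ 2))
    (aJ : IsAlgebraic A Jv) (aJ1 : IsAlgebraic A J1v)
    (aJ2 : IsAlgebraic A J2v) :
    IsAlgebraic A (π * A2) ∧ IsAlgebraic A (π ^ 2 * B) ∧ IsAlgebraic A (π ^ 3 * C) := by
  have hpi : (π : ℂ) ≠ 0 := by exact_mod_cast Real.pi_ne_zero
  have hI0 : (I : ℂ) ≠ 0 := Complex.I_ne_zero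
  have aQ : ∀ q : ℚ, IsAlgebraic A (q : ℂ) := alg_rat A
  have aI : IsAlgebraic A (I : ℂ) := alg_I A
  have hJ0 : Jv ≠ 0 := by
    rw [hJ]
    exact div_ne_zero (mul_ne_zero (by norm_num) (pow_ne_zero _ hB)) hD
  have a1 : IsAlgebraic A (π * C / B) := by
    have e : (π : ℂ) * C / B = ((-1 / 2 : ℚ) : ℂ) * I⁻¹ * J1v * Jv⁻¹ := by
      rw [hJ, hJ1]
      push_cast
      field_simp
    rw [e]
    exact (((aQ _).mul aI.inv).mul aJ1).mul aJ.inv
  have a2 : IsAlgebraic A (C ^ 2 / B ^ 3) := by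
    have e : C ^ 2 / B ^ 3 = ((1 : ℚ) : ℂ) - ((1728 : ℚ) : ℂ) * Jv⁻¹ := by
      rw [hJ]
      push_cast
      field_simp
      ring
    rw [e]
    exact (aQ _).sub ((aQ _).mul aJ.inv)
  have a3 : IsAlgebraic A (π ^ 2 * B) := by
    have e : (π : ℂ) ^ 2 * B = (π * C / B) ^ 2 * (C ^ 2 / B ^ 3)⁻¹ := by
      field_simp
    rw [e]
    exact (a1.pow 2).mul a2.inv
  have a4 : IsAlgebraic A (π ^ 3 * C) := by
    have e : (π : ℂ) ^ 3 * C = (π ^ 2 * B) * (π * C / B) := by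
      field_simp
    rw [e]
    exact a3.mul a1
  have a5 : IsAlgebraic A (π * A2) := by
    have e : (π : ℂ) * A2 = (((1 / 4 : ℚ) : ℂ) * J2v * Jv⁻¹ + ((2 / 3 : ℚ) : ℂ) * (π * C / B) ^ 2 +
        ((1 / 2 : ℚ) : ℂ) * (π ^ 2 * B)) * ((6 : ℚ) : ℂ) * (π * C / B)⁻¹ := by
      rw [hJ, hJ2]
      push_cast
      have hI2 : (I : ℂ) ^ 2 = -1 := Complex.I_sq
      field_simp
      rw [hI2]
      ring
    rw [e]
    exact ((((((aQ _).mul aJ2).mul aJ.inv).add ((aQ _).mul (a1.pow 2))).add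
      ((aQ _).mul a3)).mul (aQ _)).mul a1.inv
  exact ⟨a5, a3, a4⟩

/-- a nonconstant point is transcendental -/
lemma transc_point {t : Fin m → ℂ} (ht : AlgebraicIndependent ℚ t)
    {α β : Fin (m + 1) → GaussianInt} {z : ℂ} (hz : z = lf (gc α) t / lf (gc β) t)
    (hB : lf (gc β) t ≠ 0) (hdt : ∃ v, dt (gc α) (gc β) t v ≠ 0) : Transcendental ℚ z := by
  intro halg
  obtain ⟨v, hv⟩ := hdt
  have h1 : dt (gc α) (gc β) t v = lf (gc β) t * ∑ k : Fin m, (gc α k.succ - z * gc β k.succ) * v k := by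
    unfold dt lin
    rw [hz, Finset.mul_sum, Finset.sum_mul, Finset.mul_sum, ← Finset.sum_sub_distrib]
    refine Finset.sum_congr rfl fun k _ ↦ ?_
    field_simp
  rw [h1] at hv
  have h2 : ∃ k : Fin m, gc α k.succ - z * gc β k.succ ≠ 0 := by
    by_contra hcon
    push Not at hcon
    apply hv
    simp [hcon]
  obtain ⟨k, hk⟩ := h2
  have h3 := ht.transcendental_adjoin (s := {k}ᶜ) (i := k) (by simp)
  apply h3
  set A := Algebra.adjoin ℚ (t '' {k}ᶜ) with hA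
  have az : IsAlgebraic A z := by
    have : IsAlgebraic ℚ z := halg
    exact this.extendScalars (algebraMap ℚ A).injective
  have aother : ∀ i, i ≠ k → IsAlgebraic A (t i) := fun i hi ↦
    isAlgebraic_algebraMap (⟨t i, Algebra.subset_adjoin ⟨i, hi, rfl⟩⟩ : A)
  have h4 : lf (gc α) t - z * lf (gc β) t = 0 := by
    rw [hz]; field_simp; ring
  have h5 : (gc α 0 - z * gc β 0) + ∑ i : Fin m, (gc α i.succ - z * gc β i.succ) * t i = 0 := by
    rw [← h4]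
    unfold lf lin
    rw [mul_add, Finset.mul_sum, add_sub_add_comm, ← Finset.sum_sub_distrib]
    congr 1
    refine Finset.sum_congr rfl fun i _ ↦ ?_
    ring
  rw [← Finset.add_sum_erase _ _ (Finset.mem_univ k)] at h5
  have h6 : t k = -((gc α 0 - z * gc β 0) + ∑ i ∈ Finset.univ.erase k,
      (gc α i.succ - z * gc β i.succ) * t i) * (gc α k.succ - z * gc β k.succ)⁻¹ := by
    field_simp
    linear_combination h5
  rw [h6]
  have acoef : ∀ i, IsAlgebraic A (gc α i - z * gc β i) := fun i ↦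
    (alg_gc A α i).sub (az.mul (alg_gc A β i))
  refine IsAlgebraic.mul (IsAlgebraic.neg ((acoef 0).add (alg_sum A _ _ fun i hi ↦ ?_)))
    (acoef k.succ).inv
  exact (acoef i.succ).mul (aother i (Finset.ne_of_mem_erase hi))

theorem main2 {E4 E6 J : ℂ → ℂ}
    (h4 : ∀ τ : ℂ, E4 τ = 1 + 240 * ∑' m : ℕ, ((ArithmeticFunction.sigma 3 (m + 1) : ℕ) : ℂ) *
      Complex.exp (2 * (Real.pi : ℂ) * Complex.I * ((m : ℂ) + 1) * τ))
    (h6 : ∀ τ : ℂ, E6 τ = 1 - 504 * ∑' m : ℕ, ((ArithmeticFunction.sigma 5 (m + 1) : ℕ) : ℂ) *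
      Complex.exp (2 * (Real.pi : ℂ) * Complex.I * ((m : ℂ) + 1) * τ))
    (hJ : ∀ τ : ℂ, J τ = 1728 * E4 τ ^ 3 / (E4 τ ^ 3 - E6 τ ^ 2))
    (t : Fin m → ℝ) (κ : ℝ) (hκ : 2 * n < κ)
    (happ : ∀ K : ℕ, ∃ q : ℕ, K ≤ q ∧ ∃ p : Fin m → ℤ,
      (∀ k, 0 < |t k - p k / q| ∧ |t k - p k / q| < Real.exp (-(q : ℝ) ^ κ)) ∧
      ∀ j k, j < k → |t j - p j / q| < |t k - p k / q| ^ K)
    (z : Fin n → ℂ) (him : ∀ i, 0 < (z i).im)
    (hCM : ∀ i, ¬ ∃ a b c : ℤ, a ≠ 0 ∧ (a : ℂ) * z i ^ 2 + (b : ℂ) * z i + (c : ℂ) = 0)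
    (hne : ∀ i k, i ≠ k → ¬ ∃ a b c d : ℚ, 0 < a * d - b * c ∧
      z k = ((a : ℂ) * z i + (b : ℂ)) / ((c : ℂ) * z i + (d : ℂ)))
    (α β : Fin n → Fin (m + 1) → GaussianInt)
    (hz : ∀ j, z j = lf (gc (α j)) (fun k ↦ (t k : ℂ)) / lf (gc (β j)) (fun k ↦ (t k : ℂ))) :
    (∃ f : Fin (3 * n) → Fin n × Fin 4, AlgebraicIndependent ℚ (fun k ↦
      ![z (f k).1, J (z (f k).1), deriv J (z (f k).1), deriv (deriv J) (z (f k).1)] (f k).2)) ∧
    ∀ (ρ : ℕ) (g : Fin ρ → Fin n), AlgebraicIndependent ℚ (fun k ↦ z (g k)) →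
      ∃ f : Fin (3 * n + ρ - 1) → Fin n × Fin 4, AlgebraicIndependent ℚ (fun k ↦
        ![z (f k).1, J (z (f k).1), deriv J (z (f k).1), deriv (deriv J) (z (f k).1)] (f k).2) := by
  have hpi : (π : ℂ) ≠ 0 := by exact_mod_cast Real.pi_ne_zero
  set tc : Fin m → ℂ := fun k ↦ (t k : ℂ) with htc
  have him' : ∀ j, 0 < (lf (gc (α j)) tc / lf (gc (β j)) tc).im := fun j ↦ by
    rw [← hz]; exact him j
  have hBne : ∀ j, lf (gc (β j)) tc ≠ 0 := fun j ↦ den_ne_of_im (him' j)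
  have hdt : ∀ j, ∃ v, dt (gc (α j)) (gc (β j)) tc v ≠ 0 := fun j ↦
    nonCM_good (hz j) (him j) (hCM j)
  have hdense := dense_good (fun j ↦ gc (α j)) (fun j ↦ gc (β j)) tc hdt (fun i j hij ↦
    pair_good (hz i) (hz j) (him i) (him j) (hdt i) (hdt j) (hne j i (Ne.symm hij)))
  have hYne : ∀ j, eval tc (Yp (α j) (β j)) ≠ 0 := fun j ↦ Yp_ne (him' j)
  have hFT := FT2 (fun j ↦ gc (α j)) (fun j ↦ gc (β j)) (fun j ↦ Yp (α j) (β j))
    (fun j ↦ Rp (β j)) tc him' hYne hdense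
  set ξ : Fin m ⊕ Fin n × Fin 3 → ℂ := DM (fun j ↦ gc (α j)) (fun j ↦ gc (β j))
    (fun j ↦ Yp (α j) (β j)) (fun j ↦ Rp (β j)) tc with hξ
  have hc : ∀ (Φ : MvPolynomial (Fin m ⊕ Fin n × Fin 3) ℤ) (W : ℕ),
      IsWeightedHomogeneous wtS Φ W → Φ ≠ 0 → aeval ξ Φ ≠ 0 := fun Φ W hΦ hΦne ↦
    core2 α β t κ hκ him' hFT happ Φ W hΦ hΦne
  obtain ⟨ν, hν, hind⟩ := scaled_indep' wtS ξ hc
  have halgZQ : Algebra.IsAlgebraic ℤ ℚ := IsLocalization.isAlgebraic ℚ (nonZeroDivisors ℤ)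
  have hindQ : AlgebraicIndependent ℚ (fun x ↦ ν ^ (wtS x) * ξ x) := hind.extendScalars ℚ
  have htind : AlgebraicIndependent ℚ tc := by
    have h1 := hindQ.comp (Sum.inl : Fin m → Fin m ⊕ Fin n × Fin 3) Sum.inl_injective
    have h2 : ((fun x ↦ ν ^ (wtS x) * ξ x) ∘ (Sum.inl : Fin m → Fin m ⊕ Fin n × Fin 3)) = tc := by
      ext k
      simp [wtS, hξ, DM]
    rwa [h2] at h1
  have hξ0 : ∀ j, ξ (Sum.inr (j, 0)) = e2 (z j) - 3 * eval tc (Rp (β j)) /
      (π * eval tc (Yp (α j) (β j))) := fun j ↦ by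
    simp only [hξ, DM, Sum.elim_inr, Matrix.cons_val_zero]
    rw [← hz]
  have hξ1 : ∀ j, ξ (Sum.inr (j, 1)) = e4 (z j) := fun j ↦ by
    simp only [hξ, DM, Sum.elim_inr, Matrix.cons_val_one, Matrix.cons_val_zero]
    rw [← hz]
  have hξ2 : ∀ j, ξ (Sum.inr (j, 2)) = e6 (z j) := fun j ↦ by
    simp only [hξ, DM, Sum.elim_inr, Matrix.cons_val]
    rw [← hz]
  have hB : ∀ j, e4 (z j) ≠ 0 := fun j ↦ by
    have h1 := hc (X (Sum.inr (j, 1))) 4 (isWeightedHomogeneous_X ℤ wtS (Sum.inr (j, 1)))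
      (X_ne_zero _)
    rwa [aeval_X, hξ1] at h1
  have hC : ∀ j, e6 (z j) ≠ 0 := fun j ↦ by
    have h1 := hc (X (Sum.inr (j, 2))) 6 (isWeightedHomogeneous_X ℤ wtS (Sum.inr (j, 2)))
      (X_ne_zero _)
    rwa [aeval_X, hξ2] at h1
  set μ : ℂ := ν ^ 2 / π with hμ
  set S : Fin n × Fin 4 → ℂ := fun x ↦
    ![z x.1, J (z x.1), deriv J (z x.1), deriv (deriv J) (z x.1)] x.2 with hS
  have hcard : Fintype.card (Fin m ⊕ Fin n × Fin 3) = m + 3 * n := by
    simp [mul_comm]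
  have hzalg : ∀ j, IsAlgebraic (Algebra.adjoin ℚ (Set.range tc)) (S (j, 0)) := fun j ↦ by
    change IsAlgebraic _ (z j)
    have ht' : ∀ k, IsAlgebraic (Algebra.adjoin ℚ (Set.range tc)) (tc k) := fun k ↦
      isAlgebraic_algebraMap (⟨tc k, Algebra.subset_adjoin ⟨k, rfl⟩⟩ : Algebra.adjoin ℚ (Set.range tc))
    rw [hz, div_eq_mul_inv]
    exact (alg_lf ht' _).mul (alg_lf ht' _).inv
  have halg : ∀ x, IsAlgebraic (Algebra.adjoin ℚ (insert μ (Set.range S ∪ Set.range tc)))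
      (ν ^ (wtS x) * ξ x) := by
    intro x
    set A : Subalgebra ℚ ℂ := Algebra.adjoin ℚ (insert μ (Set.range S ∪ Set.range tc)) with hA
    have hgen : ∀ v ∈ insert μ (Set.range S ∪ Set.range tc), IsAlgebraic A v := fun v hv ↦
      isAlgebraic_algebraMap (⟨v, Algebra.subset_adjoin hv⟩ : A)
    have aμ : IsAlgebraic A μ := hgen _ (Set.mem_insert _ _)
    have at' : ∀ k, IsAlgebraic A (tc k) := fun k ↦
      hgen _ (Set.mem_insert_of_mem _ (Or.inr ⟨k, rfl⟩))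
    have aS : ∀ y, IsAlgebraic A (S y) := fun y ↦
      hgen _ (Set.mem_insert_of_mem _ (Or.inl ⟨y, rfl⟩))
    rcases x with k | ⟨j, l⟩
    · have e : ν ^ (wtS (Sum.inl k : Fin m ⊕ Fin n × Fin 3)) * ξ (Sum.inl k) = tc k := by
        simp [wtS, hξ, DM]
      rw [e]
      exact at' k
    · obtain ⟨hJ0, hJ1, hJ2⟩ := J_values h4 h6 hJ (him j)
      obtain ⟨k1, k2, k3⟩ := alg_step2 (A := A) (hB j) (hC j) disc_ne hJ0 hJ1 hJ2
        (aS (j, 1)) (aS (j, 2)) (aS (j, 3))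
      have aR : IsAlgebraic A (eval tc (Rp (β j))) := by
        unfold Rp
        rw [map_add, map_pow, map_pow]
        exact ((alg_reP at' _).pow 2).add ((alg_imP at' _).pow 2)
      have aY : IsAlgebraic A (eval tc (Yp (α j) (β j))) := by
        unfold Yp
        rw [map_sub, map_mul, map_mul]
        exact ((alg_imP at' _).mul (alg_reP at' _)).sub ((alg_reP at' _).mul (alg_imP at' _))
      fin_cases l
      · change IsAlgebraic A (ν ^ 2 * ξ (Sum.inr (j, 0)))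
        have hYj := hYne j
        have e : ν ^ 2 * ξ (Sum.inr (j, 0)) = μ * (π * e2 (z j) -
            ((3 : ℚ) : ℂ) * eval tc (Rp (β j)) * (eval tc (Yp (α j) (β j)))⁻¹) := by
          rw [hξ0, hμ]
          push_cast
          field_simp
        rw [e]
        exact aμ.mul (k1.sub (((alg_rat A 3).mul aR).mul aY.inv))
      · change IsAlgebraic A (ν ^ 4 * ξ (Sum.inr (j, 1)))
        have e : ν ^ 4 * ξ (Sum.inr (j, 1)) = μ ^ 2 * (π ^ 2 * e4 (z j)) := by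
          rw [hξ1, hμ]
          field_simp
        rw [e]
        exact (aμ.pow 2).mul k2
      · change IsAlgebraic A (ν ^ 6 * ξ (Sum.inr (j, 2)))
        have e : ν ^ 6 * ξ (Sum.inr (j, 2)) = μ ^ 3 * (π ^ 3 * e6 (z j)) := by
          rw [hξ2, hμ]
          field_simp
        rw [e]
        exact (aμ.pow 3).mul k3
  have main : ∀ (ρ : ℕ) (g : Fin ρ → Fin n), AlgebraicIndependent ℚ (fun k ↦ z (g k)) →
      ∃ f : Fin (3 * n + ρ - 1) → Fin n × Fin 4, AlgebraicIndependent ℚ (fun k ↦ S (f k)) :=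
    fun ρ g hg ↦ matroid_submod S tc _ hindQ hcard μ halg hzalg g hg
  refine ⟨?_, main⟩
  rcases Nat.eq_zero_or_pos n with hn | hn
  · subst hn
    have hemp : IsEmpty (Fin (3 * 0)) := ⟨fun x ↦ absurd x.2 (by simp)⟩
    exact ⟨fun x ↦ hemp.elim x, algebraicIndependent_empty_type⟩
  · have htr := transc_point htind (hz ⟨0, hn⟩) (hBne _) (hdt _)
    have h1 : AlgebraicIndependent ℚ (fun _ : Fin 1 ↦ z ⟨0, hn⟩) := by
      rw [algebraicIndependent_unique_type_iff]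
      exact htr
    obtain ⟨f, hf⟩ := main 1 (fun _ ↦ ⟨0, hn⟩) h1
    exact ⟨f, hf⟩

end H32

end S_Final2

section S_Span

/-!
# From the span over the Gaussian field to integral forms
-/

open Complex
open scoped Real Topology

namespace H32

variable {m n : ℕ}

lemma mem_adjoin_I {a : ℂ} (h : a ∈ Algebra.adjoin ℚ {(I : ℂ)}) :
    ∃ x y : ℚ, a = (x : ℂ) + y * I := by
  induction h using Algebra.adjoin_induction with
  | mem x hx =>
    rw [Set.mem_singleton_iff] at hx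
    exact ⟨0, 1, by rw [hx]; simp⟩
  | algebraMap r => exact ⟨r, 0, by simp⟩
  | add a b _ _ ha hb =>
    obtain ⟨x, y, rfl⟩ := ha
    obtain ⟨x', y', rfl⟩ := hb
    exact ⟨x + x', y + y', by push_cast; ring⟩
  | mul a b _ _ ha hb =>
    obtain ⟨x, y, rfl⟩ := ha
    obtain ⟨x', y', rfl⟩ := hb
    refine ⟨x * x' - y * y', x * y' + y * x', ?_⟩
    push_cast
    linear_combination (y * y' : ℂ) * Complex.I_sq

/-- The value of a form with coefficients in the Gaussian field. -/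
noncomputable def qf (c : Fin (m + 1) → ℚ × ℚ) (t : Fin m → ℝ) : ℂ :=
  lf (fun k ↦ ((c k).1 : ℂ) + (c k).2 * I) (fun k ↦ (t k : ℂ))

lemma mem_span_U {t : Fin m → ℝ} {A : ℂ}
    (hA : A ∈ Submodule.span (Algebra.adjoin ℚ {(I : ℂ)})
      (insert (1 : ℂ) (Set.range fun k ↦ (t k : ℂ)))) :
    ∃ c : Fin (m + 1) → ℚ × ℚ, A = qf c t := by
  classical
  induction hA using Submodule.span_induction with
  | mem x hx =>
    rcases hx with rfl | ⟨k, rfl⟩
    · refine ⟨Pi.single 0 (1, 0), ?_⟩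
      unfold qf lf lin
      rw [Finset.sum_eq_zero]
      · simp
      · intro k _
        beta_reduce
        rw [Pi.single_eq_of_ne (Fin.succ_ne_zero k)]
        simp
    · refine ⟨Pi.single k.succ (1, 0), ?_⟩
      unfold qf lf lin
      beta_reduce
      rw [Pi.single_eq_of_ne (Fin.succ_ne_zero k).symm, Finset.sum_eq_single k]
      · simp
      · intro i _ hi
        rw [Pi.single_eq_of_ne (fun h ↦ hi (Fin.succ_injective _ h))]
        simp
      · intro h; exact absurd (Finset.mem_univ k) h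
  | zero => exact ⟨0, by simp [qf, lf, lin]⟩
  | add x y _ _ hx hy =>
    obtain ⟨c, rfl⟩ := hx
    obtain ⟨c', rfl⟩ := hy
    refine ⟨c + c', ?_⟩
    unfold qf lf lin
    have : ∑ k : Fin m, ((((c + c') k.succ).1 : ℂ) + ((c + c') k.succ).2 * I) * (t k : ℂ) =
        ∑ k : Fin m, (((c k.succ).1 : ℂ) + (c k.succ).2 * I) * (t k : ℂ) +
        ∑ k : Fin m, (((c' k.succ).1 : ℂ) + (c' k.succ).2 * I) * (t k : ℂ) := by
      rw [← Finset.sum_add_distrib]
      refine Finset.sum_congr rfl fun k _ ↦ ?_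
      simp only [Pi.add_apply, Prod.fst_add, Prod.snd_add]
      push_cast
      ring
    rw [this]
    simp only [Pi.add_apply, Prod.fst_add, Prod.snd_add]
    push_cast
    ring
  | smul a x _ hx =>
    obtain ⟨c, rfl⟩ := hx
    obtain ⟨u, v, huv⟩ := mem_adjoin_I a.2
    refine ⟨fun k ↦ (u * (c k).1 - v * (c k).2, u * (c k).2 + v * (c k).1), ?_⟩
    rw [Algebra.smul_def]
    change (a : ℂ) * _ = _
    rw [huv]
    unfold qf lf lin
    rw [mul_add, Finset.mul_sum]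
    push_cast
    congr 1
    · linear_combination (v * (c 0).2 : ℂ) * Complex.I_sq
    · refine Finset.sum_congr rfl fun k _ ↦ ?_
      linear_combination (v * (c k.succ).2 * t k : ℂ) * Complex.I_sq

lemma exists_int (x : ℚ) {Δ : ℕ} (h : x.den ∣ Δ) : ∃ A : ℤ, x * Δ = A := by
  obtain ⟨k, rfl⟩ := h
  refine ⟨x.num * k, ?_⟩
  push_cast
  rw [← mul_assoc, Rat.mul_den_eq_num]

lemma exists_gauss (c c' : Fin (m + 1) → ℚ × ℚ) (t : Fin m → ℝ) :
    ∃ α β : Fin (m + 1) → GaussianInt, qf c t / qf c' t =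
      lf (gc α) (fun k ↦ (t k : ℂ)) / lf (gc β) (fun k ↦ (t k : ℂ)) := by
  set Δ : ℕ := (∏ k, (c k).1.den * (c k).2.den) * ∏ k, (c' k).1.den * (c' k).2.den with hΔ
  have hΔ0 : Δ ≠ 0 := by
    refine mul_ne_zero (Finset.prod_ne_zero_iff.mpr fun k _ ↦ ?_)
      (Finset.prod_ne_zero_iff.mpr fun k _ ↦ ?_)
    · exact mul_ne_zero (Rat.den_ne_zero _) (Rat.den_ne_zero _)
    · exact mul_ne_zero (Rat.den_ne_zero _) (Rat.den_ne_zero _)
  have h1 : ∀ k, (c k).1.den * (c k).2.den ∣ Δ := fun k ↦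
    (Finset.dvd_prod_of_mem (fun k ↦ (c k).1.den * (c k).2.den) (Finset.mem_univ k)).trans
      (Dvd.intro _ rfl)
  have h2 : ∀ k, (c' k).1.den * (c' k).2.den ∣ Δ := fun k ↦
    (Finset.dvd_prod_of_mem (fun k ↦ (c' k).1.den * (c' k).2.den) (Finset.mem_univ k)).trans
      (Dvd.intro_left _ rfl)
  choose A hA using fun k ↦ exists_int (c k).1 ((Dvd.intro _ rfl).trans (h1 k))
  choose B hB using fun k ↦ exists_int (c k).2 ((Dvd.intro_left _ rfl).trans (h1 k))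
  choose C hC using fun k ↦ exists_int (c' k).1 ((Dvd.intro _ rfl).trans (h2 k))
  choose D hD using fun k ↦ exists_int (c' k).2 ((Dvd.intro_left _ rfl).trans (h2 k))
  refine ⟨fun k ↦ ⟨A k, B k⟩, fun k ↦ ⟨C k, D k⟩, ?_⟩
  have hΔc : (Δ : ℂ) ≠ 0 := by exact_mod_cast hΔ0
  have key : ∀ (e : Fin (m + 1) → ℚ × ℚ) (X Y : Fin (m + 1) → ℤ) (_ : ∀ k, (e k).1 * Δ = X k)
      (_ : ∀ k, (e k).2 * Δ = Y k), lf (gc fun k ↦ (⟨X k, Y k⟩ : GaussianInt)) (fun k ↦ (t k : ℂ)) =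
      Δ * qf e t := by
    intro e X Y hX hY
    have hcoef : ∀ k, gc (fun k ↦ (⟨X k, Y k⟩ : GaussianInt)) k =
        Δ * (((e k).1 : ℂ) + (e k).2 * I) := by
      intro k
      unfold gc
      rw [GaussianInt.toComplex_def']
      have a1 : (((e k).1 * Δ : ℚ) : ℂ) = ((X k : ℚ) : ℂ) := by rw [hX]
      have a2 : (((e k).2 * Δ : ℚ) : ℂ) = ((Y k : ℚ) : ℂ) := by rw [hY]
      push_cast at a1 a2
      rw [← a1, ← a2]
      ring
    unfold qf lf lin
    rw [mul_add, Finset.mul_sum, hcoef]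
    congr 1
    refine Finset.sum_congr rfl fun k _ ↦ ?_
    rw [hcoef]
    ring
  rw [key c A B hA hB, key c' C D hC hD, mul_div_mul_left _ _ hΔc]

theorem main3 {E4 E6 J : ℂ → ℂ}
    (h4 : ∀ τ : ℂ, E4 τ = 1 + 240 * ∑' m : ℕ, ((ArithmeticFunction.sigma 3 (m + 1) : ℕ) : ℂ) *
      Complex.exp (2 * (Real.pi : ℂ) * Complex.I * ((m : ℂ) + 1) * τ))
    (h6 : ∀ τ : ℂ, E6 τ = 1 - 504 * ∑' m : ℕ, ((ArithmeticFunction.sigma 5 (m + 1) : ℕ) : ℂ) *
      Complex.exp (2 * (Real.pi : ℂ) * Complex.I * ((m : ℂ) + 1) * τ))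
    (hJ : ∀ τ : ℂ, J τ = 1728 * E4 τ ^ 3 / (E4 τ ^ 3 - E6 τ ^ 2))
    (t : Fin m → ℝ) (κ : ℝ) (hκ : 2 * n < κ)
    (happ : ∀ K : ℕ, ∃ q : ℕ, K ≤ q ∧ ∃ p : Fin m → ℤ,
      (∀ k, 0 < |t k - p k / q| ∧ |t k - p k / q| < Real.exp (-(q : ℝ) ^ κ)) ∧
      ∀ j k, j < k → |t j - p j / q| < |t k - p k / q| ^ K)
    (z : Fin n → ℂ) (him : ∀ i, 0 < (z i).im)
    (hU : ∀ i, ∃ A ∈ Submodule.span (Algebra.adjoin ℚ {(I : ℂ)})
        (insert (1 : ℂ) (Set.range fun k ↦ (t k : ℂ))),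
      ∃ B ∈ Submodule.span (Algebra.adjoin ℚ {(I : ℂ)})
        (insert (1 : ℂ) (Set.range fun k ↦ (t k : ℂ))), z i = A / B)
    (hCM : ∀ i, ¬ ∃ a b c : ℤ, a ≠ 0 ∧ (a : ℂ) * z i ^ 2 + (b : ℂ) * z i + (c : ℂ) = 0)
    (hne : ∀ i k, i ≠ k → ¬ ∃ a b c d : ℚ, 0 < a * d - b * c ∧
      z k = ((a : ℂ) * z i + (b : ℂ)) / ((c : ℂ) * z i + (d : ℂ))) :
    (∃ f : Fin (3 * n) → Fin n × Fin 4, AlgebraicIndependent ℚ (fun k ↦
      ![z (f k).1, J (z (f k).1), deriv J (z (f k).1), deriv (deriv J) (z (f k).1)] (f k).2)) ∧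
    ∀ (ρ : ℕ) (g : Fin ρ → Fin n), AlgebraicIndependent ℚ (fun k ↦ z (g k)) →
      ∃ f : Fin (3 * n + ρ - 1) → Fin n × Fin 4, AlgebraicIndependent ℚ (fun k ↦
        ![z (f k).1, J (z (f k).1), deriv J (z (f k).1), deriv (deriv J) (z (f k).1)] (f k).2) := by
  have hex : ∀ i, ∃ α β : Fin (m + 1) → GaussianInt, z i =
      lf (gc α) (fun k ↦ (t k : ℂ)) / lf (gc β) (fun k ↦ (t k : ℂ)) := by
    intro i
    obtain ⟨A, hA, B, hB, hz⟩ := hU i
    obtain ⟨c, rfl⟩ := mem_span_U hA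
    obtain ⟨c', rfl⟩ := mem_span_U hB
    obtain ⟨α, β, h⟩ := exists_gauss c c' t
    exact ⟨α, β, by rw [hz, h]⟩
  choose α β hz using hex
  exact main2 h4 h6 hJ t κ hκ happ z him hCM hne α β hz

end H32

end S_Span

section S_Hier

/-!
# The approximation hypothesis
-/

open Complex
open scoped Real Topology

namespace H32

variable {m n : ℕ}

/-- sorting the errors -/
lemma hier_sort {t : Fin m → ℝ} {κ : ℝ}
    (h : ∀ K : ℕ, ∃ q : ℕ, K ≤ q ∧ ∃ p : Fin m → ℤ,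
      (∀ s, 0 < |t s - p s / q| ∧ |t s - p s / q| < Real.exp (-(q : ℝ) ^ κ)) ∧
      ∀ r s, r ≠ s → |t r - p r / q| < |t s - p s / q| ^ K ∨
        |t s - p s / q| < |t r - p r / q| ^ K) :
    ∃ σ : Equiv.Perm (Fin m), ∀ K : ℕ, ∃ q : ℕ, K ≤ q ∧ ∃ p : Fin m → ℤ,
      (∀ s, 0 < |t (σ s) - p s / q| ∧ |t (σ s) - p s / q| < Real.exp (-(q : ℝ) ^ κ)) ∧
      ∀ r s, r < s → |t (σ r) - p r / q| < |t (σ s) - p s / q| ^ K := by
  classical
  by_contra hcon
  push Not at hcon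
  choose Kσ hKσ using hcon
  set K : ℕ := 1 + ∑ σ, Kσ σ with hK
  obtain ⟨q, hq, p, hp1, hp2⟩ := h K
  set δ : Fin m → ℝ := fun s ↦ |t s - p s / q| with hδ
  set σ := Tuple.sort δ with hσ
  have hmono : Monotone (δ ∘ σ) := Tuple.monotone_sort δ
  have hδ0 : ∀ s, 0 < δ s := fun s ↦ (hp1 s).1
  have hδ1 : ∀ s, δ s ≤ 1 := fun s ↦ by
    refine ((hp1 s).2.le).trans (Real.exp_le_one_iff.mpr ?_)
    have : 0 ≤ (q : ℝ) ^ κ := by positivity
    linarith
  have hKle : Kσ σ ≤ K := by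
    have := Finset.single_le_sum (f := fun σ ↦ Kσ σ) (fun _ _ ↦ Nat.zero_le _) (Finset.mem_univ σ)
    have h2 : Kσ σ ≤ ∑ σ, Kσ σ := this
    omega
  obtain ⟨r, s, hrs, hbad⟩ := hKσ σ q (hKle.trans hq) (fun s ↦ p (σ s)) (fun s ↦ hp1 (σ s))
  have h1 : δ (σ r) ≤ δ (σ s) := hmono hrs.le
  have hne : σ r ≠ σ s := fun h ↦ hrs.ne (σ.injective h)
  have h3 : δ (σ s) ^ K ≤ δ (σ s) ^ Kσ σ := pow_le_pow_of_le_one (hδ0 _).le (hδ1 _) hKle
  have hbad' : δ (σ s) ^ Kσ σ ≤ δ (σ r) := hbad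
  rcases hp2 (σ r) (σ s) hne with h2 | h2
  · have h2' : δ (σ r) < δ (σ s) ^ K := h2
    linarith
  · have h2' : δ (σ s) < δ (σ r) ^ K := h2
    have h4 : δ (σ r) ^ K ≤ δ (σ r) := by
      calc δ (σ r) ^ K ≤ δ (σ r) ^ 1 := pow_le_pow_of_le_one (hδ0 _).le (hδ1 _) (by omega)
        _ = δ (σ r) := pow_one _
    linarith

/-- A tower function. -/
def TT : ℕ → ℕ
  | 0 => 1
  | j + 1 => 2 ^ ((j + 1) * (TT j + 1))

lemma TT_zero : TT 0 = 1 := rfl

lemma TT_succ (j : ℕ) : TT (j + 1) = 2 ^ ((j + 1) * (TT j + 1)) := rfl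

attribute [irreducible] TT

lemma TT_lt (j : ℕ) : TT j < TT (j + 1) := by
  have h1 : (j + 1) * (TT j + 1) < 2 ^ ((j + 1) * (TT j + 1)) := Nat.lt_two_pow_self
  have h2 : TT j + 1 ≤ (j + 1) * (TT j + 1) := Nat.le_mul_of_pos_left _ (Nat.succ_pos j)
  rw [TT_succ]
  omega

lemma TT_mono : StrictMono TT := strictMono_nat_of_lt_succ TT_lt

lemma le_TT (j : ℕ) : j ≤ TT j := TT_mono.le_apply

/-- The parameters of the example. -/
noncomputable def tex (m : ℕ) (s : Fin m) : ℝ := ∑' k : ℕ, (1 / 2 : ℝ) ^ TT (m * k + s)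

lemma summable_tex {m : ℕ} (hm : 0 < m) (s : ℕ) :
    Summable fun k : ℕ ↦ (1 / 2 : ℝ) ^ TT (m * k + s) := by
  refine Summable.of_nonneg_of_le (fun _ ↦ by positivity) (fun k ↦ ?_)
    (summable_geometric_of_lt_one (r := (1 / 2 : ℝ)) (by norm_num) (by norm_num))
  refine pow_le_pow_of_le_one (by norm_num) (by norm_num) ?_
  have h1 := le_TT (m * k + s)
  have h2 : k ≤ m * k := Nat.le_mul_of_pos_left _ hm
  omega

lemma tex_error {m : ℕ} (hm : 0 < m) (s k : ℕ) :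
    (1 / 2 : ℝ) ^ TT (m * (k + 1) + s) ≤ ∑' l : ℕ, (1 / 2 : ℝ) ^ TT (m * l + s) -
      ∑ l ∈ Finset.range (k + 1), (1 / 2 : ℝ) ^ TT (m * l + s) ∧
    ∑' l : ℕ, (1 / 2 : ℝ) ^ TT (m * l + s) -
      ∑ l ∈ Finset.range (k + 1), (1 / 2 : ℝ) ^ TT (m * l + s) ≤
      2 * (1 / 2 : ℝ) ^ TT (m * (k + 1) + s) := by
  have hsum := summable_tex hm s
  have h1 := hsum.sum_add_tsum_nat_add (k + 1)
  have hsum' : Summable fun l : ℕ ↦ (1 / 2 : ℝ) ^ TT (m * (l + (k + 1)) + s) :=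
    (summable_nat_add_iff (f := fun l : ℕ ↦ (1 / 2 : ℝ) ^ TT (m * l + s)) (k + 1)).mpr hsum
  have e : ∑' l : ℕ, (1 / 2 : ℝ) ^ TT (m * l + s) -
      ∑ l ∈ Finset.range (k + 1), (1 / 2 : ℝ) ^ TT (m * l + s) =
      ∑' l : ℕ, (1 / 2 : ℝ) ^ TT (m * (l + (k + 1)) + s) := by
    rw [← h1]; ring
  rw [e]
  constructor
  · have h2 := hsum'.le_tsum 0 (fun _ _ ↦ by positivity)
    simpa using h2
  · have hgeo : HasSum (fun l : ℕ ↦ (1 / 2 : ℝ) ^ TT (m * (k + 1) + s) * (1 / 2 : ℝ) ^ l)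
        ((1 / 2 : ℝ) ^ TT (m * (k + 1) + s) * 2) := hasSum_geometric_two.mul_left _
    have h4 : ∀ l : ℕ, TT (m * (k + 1) + s) + l ≤ TT (m * (l + (k + 1)) + s) := by
      intro l
      induction l with
      | zero => simp
      | succ l ih =>
        have h5 : m * (l + (k + 1)) + s < m * (l + 1 + (k + 1)) + s := by nlinarith
        have h6 := TT_mono h5
        omega
    have h5 : ∀ l : ℕ, (1 / 2 : ℝ) ^ TT (m * (l + (k + 1)) + s) ≤
        (1 / 2 : ℝ) ^ TT (m * (k + 1) + s) * (1 / 2 : ℝ) ^ l := by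
      intro l
      rw [← pow_add]
      exact pow_le_pow_of_le_one (by norm_num) (by norm_num) (h4 l)
    have h3 := hasSum_le h5 hsum'.hasSum hgeo
    linarith

lemma exp_bound {X : ℕ} (hX : 1 ≤ X) : 2 * (1 / 2 : ℝ) ^ (4 * X) < Real.exp (-(X : ℝ)) := by
  have h1 : (1 / 4 : ℝ) ≤ Real.exp (-1) := by
    rw [Real.exp_neg]
    have h2 := Real.exp_one_lt_d9
    have h3 : Real.exp 1 ≤ 4 := by linarith
    rw [one_div]
    exact inv_anti₀ (Real.exp_pos 1) h3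
  have h2 : Real.exp (-(X : ℝ)) = Real.exp (-1) ^ X := by
    rw [← Real.exp_nat_mul]
    congr 1
    ring
  have h3 : (1 / 2 : ℝ) ^ (4 * X) = (1 / 4 : ℝ) ^ X * (1 / 4 : ℝ) ^ X := by
    rw [← mul_pow, pow_mul]
    norm_num
  have h4 : (1 / 4 : ℝ) ^ X ≤ 1 / 4 := by
    calc (1 / 4 : ℝ) ^ X ≤ (1 / 4 : ℝ) ^ 1 :=
          pow_le_pow_of_le_one (by norm_num) (by norm_num) hX
      _ = 1 / 4 := pow_one _
  have h5 : (0 : ℝ) < (1 / 4 : ℝ) ^ X := by positivity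
  have h6 : (1 / 4 : ℝ) ^ X ≤ Real.exp (-1) ^ X := by gcongr
  rw [h2, h3]
  nlinarith

theorem tex_hier {m : ℕ} (hm : 0 < m) (κ : ℝ) (K : ℕ) : ∃ q : ℕ, K ≤ q ∧ ∃ p : Fin m → ℤ,
    (∀ s, 0 < |tex m s - p s / q| ∧ |tex m s - p s / q| < Real.exp (-(q : ℝ) ^ κ)) ∧
    ∀ r s, r < s → |tex m s - p s / q| < |tex m r - p r / q| ^ K := by
  obtain ⟨κn, hκn⟩ := exists_nat_ge κ
  set k : ℕ := K + κn + 2 with hk
  obtain ⟨J, hJ⟩ : ∃ J, J + 1 = m * (k + 1) :=
    ⟨m * (k + 1) - 1, Nat.succ_pred_eq_of_pos (Nat.mul_pos hm (Nat.succ_pos k))⟩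
  have hJk : k + 1 ≤ J + 1 := by rw [hJ]; exact Nat.le_mul_of_pos_left _ hm
  set q : ℕ := 2 ^ TT J with hq
  have hqR : (q : ℝ) = 2 ^ TT J := by rw [hq]; push_cast; rfl
  have hTJ := le_TT J
  have hqK : K ≤ q := by
    have h1 : TT J < q := Nat.lt_two_pow_self
    omega
  set p : Fin m → ℤ := fun s ↦ ((∑ l ∈ Finset.range (k + 1), 2 ^ (TT J - TT (m * l + s)) : ℕ) : ℤ)
    with hp
  have hle : ∀ (s : Fin m), ∀ l ∈ Finset.range (k + 1), TT (m * l + s) ≤ TT J := by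
    intro s l hl
    rw [Finset.mem_range] at hl
    apply TT_mono.monotone
    have h1 : m * l + s < m * (l + 1) := by
      have := s.2
      rw [mul_add, mul_one]
      omega
    have h2 : m * (l + 1) ≤ m * (k + 1) := Nat.mul_le_mul_left m (by omega)
    omega
  have hpq : ∀ s : Fin m, (p s : ℝ) / q =
      ∑ l ∈ Finset.range (k + 1), (1 / 2 : ℝ) ^ TT (m * l + s) := by
    intro s
    rw [hp, hqR, div_eq_iff (by positivity), Finset.sum_mul]
    push_cast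
    refine Finset.sum_congr rfl fun l hl ↦ ?_
    have h1 := hle s l hl
    have h2 : (2 : ℝ) ^ TT J = 2 ^ (TT J - TT (m * l + s)) * 2 ^ TT (m * l + s) := by
      rw [← pow_add, Nat.sub_add_cancel h1]
    rw [h2, one_div, inv_pow]
    field_simp
  have herr : ∀ s : Fin m, (1 / 2 : ℝ) ^ TT (m * (k + 1) + s) ≤ tex m s - p s / q ∧
      tex m s - p s / q ≤ 2 * (1 / 2 : ℝ) ^ TT (m * (k + 1) + s) := by
    intro s
    rw [hpq]
    exact tex_error hm s k
  have hpos : ∀ s : Fin m, 0 < tex m s - p s / q := fun s ↦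
    lt_of_lt_of_le (by positivity) (herr s).1
  have habs : ∀ s : Fin m, |tex m s - p s / q| = tex m s - p s / q := fun s ↦
    abs_of_pos (hpos s)
  refine ⟨q, hqK, p, fun s ↦ ⟨by rw [habs]; exact hpos s, ?_⟩, fun r s hrs ↦ ?_⟩
  · rw [habs]
    refine lt_of_le_of_lt (herr s).2 ?_
    set X : ℕ := 2 ^ (κn * TT J) with hX
    have hX1 : 1 ≤ X := Nat.one_le_two_pow
    have hTX : 4 * X ≤ TT (m * (k + 1) + s) := by
      have h1 : TT (J + 1) ≤ TT (m * (k + 1) + s) := TT_mono.monotone (by omega)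
      refine le_trans ?_ h1
      rw [TT_succ, hX]
      have h2 : κn * TT J + 2 ≤ (J + 1) * (TT J + 1) := by
        have h3 : κn + 2 ≤ J + 1 := by omega
        calc κn * TT J + 2 ≤ (κn + 2) * (TT J + 1) := by nlinarith [Nat.zero_le (TT J), Nat.zero_le κn]
          _ ≤ _ := Nat.mul_le_mul_right _ h3
      calc 4 * 2 ^ (κn * TT J) = 2 ^ (κn * TT J + 2) := by rw [pow_add]; ring
        _ ≤ _ := Nat.pow_le_pow_right (by norm_num) h2
    have h3 : 2 * (1 / 2 : ℝ) ^ TT (m * (k + 1) + s) ≤ 2 * (1 / 2 : ℝ) ^ (4 * X) := by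
      have : (1 / 2 : ℝ) ^ TT (m * (k + 1) + s) ≤ (1 / 2 : ℝ) ^ (4 * X) :=
        pow_le_pow_of_le_one (by norm_num) (by norm_num) hTX
      linarith
    refine lt_of_le_of_lt h3 (lt_of_lt_of_le (exp_bound hX1) ?_)
    apply Real.exp_le_exp.mpr
    have hq1 : (1 : ℝ) ≤ q := by
      rw [hqR]; exact one_le_pow₀ (by norm_num)
    have h4 : (q : ℝ) ^ κ ≤ (X : ℝ) := by
      calc (q : ℝ) ^ κ ≤ (q : ℝ) ^ (κn : ℝ) := Real.rpow_le_rpow_of_exponent_le hq1 hκn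
        _ = (X : ℝ) := by
          rw [Real.rpow_natCast, hqR, hX, ← pow_mul, mul_comm]
          push_cast
          rfl
    linarith
  · rw [habs, habs]
    set a : ℕ := m * (k + 1) + r with ha
    have hab : a + 1 ≤ m * (k + 1) + s := by
      have : (r : ℕ) < s := hrs
      omega
    have hTab : K * TT a + 2 ≤ TT (m * (k + 1) + s) := by
      refine le_trans ?_ (TT_mono.monotone hab)
      rw [TT_succ]
      have h1 : (a + 1) * (TT a + 1) < 2 ^ ((a + 1) * (TT a + 1)) := Nat.lt_two_pow_self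
      have h2 : K + 1 ≤ a + 1 := by omega
      have h3 : (K + 1) * (TT a + 1) ≤ (a + 1) * (TT a + 1) := Nat.mul_le_mul_right _ h2
      nlinarith [Nat.zero_le (TT a), Nat.zero_le K]
    have h4 : (1 / 2 : ℝ) ^ TT (m * (k + 1) + s) ≤ (1 / 2 : ℝ) ^ (K * TT a + 2) :=
      pow_le_pow_of_le_one (by norm_num) (by norm_num) hTab
    have h5 : (1 / 2 : ℝ) ^ (K * TT a + 2) = (1 / 2 : ℝ) ^ (K * TT a) * (1 / 4) := by
      rw [pow_add]; norm_num
    have h6 : (1 / 2 : ℝ) ^ (K * TT a) ≤ (tex m r - p r / q) ^ K := by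
      rw [mul_comm, pow_mul]
      exact pow_le_pow_left₀ (by positivity) (herr r).1 K
    have h7 : (0 : ℝ) < (1 / 2 : ℝ) ^ (K * TT a) := by positivity
    have h8 := (herr s).2
    linarith

end H32

end S_Hier
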